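import Pool.Agent.UBN.Defs4

/-!
# Arithmetic of the windows

`Ml n l = D ^ l`, `Nl n l = D ^ (2 l²)`, `D = Dn n = 2 ^ (n+2) ≥ 4`.
* `Nl_step`: `1 + 2 l² + (l+1) ≤ 2 (l+1)²`.
* `ratio_mono`: `2 l² + l' ≤ 2 l'² + l` for `l ≤ l'`.
* `sum_Nl`: `R * D ^ (2 (2R)²) ≤ D ^ (2 (2R+1)²)` because `R ≤ 2 ^ (8R+2) ≤ D ^ (8R+2)`.
* `lev n θ = (θ + d - 1) / d`: `lev n 0 = 0`, `lev n (J d + 1) = J + 1`; `wt_le`: `2 ^ (J+1) = D`.
-/

namespace Pool.Agent.UBN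

open Finset

theorem two_le_Dn (n : ℕ) : 2 ≤ Dn n := by
  unfold Dn
  calc 2 = 2 ^ 1 := rfl
    _ ≤ 2 ^ (n + 2) := Nat.pow_le_pow_right (by norm_num) (by omega)

private theorem wp_Dn_pos (n : ℕ) : 0 < Dn n := lt_of_lt_of_le (by norm_num) (two_le_Dn n)

private theorem wp_pow (n : ℕ) {a b : ℕ} (h : a ≤ b) : Dn n ^ a ≤ Dn n ^ b :=
  Nat.pow_le_pow_right (wp_Dn_pos n) h

theorem dn_pos (n : ℕ) : 0 < dn n := pow_pos (wp_Dn_pos n) 2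

theorem Rn_pos (n : ℕ) : 0 < Rn n := Nat.mul_pos (Nat.succ_pos n) (dn_pos n)

theorem Ml_pos (n l : ℕ) : 0 < Ml n l := pow_pos (wp_Dn_pos n) _

theorem Nl_pos (n l : ℕ) : 0 < Nl n l := pow_pos (wp_Dn_pos n) _

theorem Ml_zero (n : ℕ) : Ml n 0 = 1 := pow_zero _

theorem Nl_zero (n : ℕ) : Nl n 0 = 1 := by
  unfold Nl
  simp

theorem Ml_succ (n l : ℕ) : Ml n (l + 1) = Dn n * Ml n l := by
  unfold Ml
  exact pow_succ' _ _

theorem Ml_mono (n : ℕ) : Monotone (Ml n) := fun _ _ h => wp_pow n h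

theorem Nl_mono (n : ℕ) : Monotone (Nl n) := fun a b h => wp_pow n (by
  have := Nat.pow_le_pow_left h 2
  omega)

theorem Dn_le_Ml (n : ℕ) {l : ℕ} (hl : 1 ≤ l) : Dn n ≤ Ml n l := by
  unfold Ml
  calc Dn n = Dn n ^ 1 := (pow_one _).symm
    _ ≤ Dn n ^ l := wp_pow n hl

theorem Dn_mul_Ml_le (n : ℕ) {l l' : ℕ} (hl : l < l') : Dn n * Ml n l ≤ Ml n l' := by
  rw [← Ml_succ]
  exact Ml_mono n hl

theorem Nl_step (n l : ℕ) : Dn n * Nl n l * Ml n (l + 1) ≤ Nl n (l + 1) := by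
  unfold Nl Ml
  have h1 : Dn n * Dn n ^ (2 * l ^ 2) * Dn n ^ (l + 1) = Dn n ^ (1 + 2 * l ^ 2 + (l + 1)) := by
    rw [pow_add _ (1 + 2 * l ^ 2), pow_add _ 1, pow_one]
  rw [h1]
  apply wp_pow
  nlinarith

theorem ratio_mono (n : ℕ) {l l' : ℕ} (h : l ≤ l') : Nl n l * Ml n l' ≤ Nl n l' * Ml n l := by
  unfold Nl Ml
  rw [← pow_add, ← pow_add]
  apply wp_pow
  obtain ⟨d, rfl⟩ := Nat.exists_eq_add_of_le h
  rcases Nat.eq_zero_or_pos d with h0 | h0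
  · subst h0; simp
  · nlinarith [Nat.zero_le (l * d)]

theorem sum_Nl (n : ℕ) : ∑ s ∈ Icc 1 (Rn n), Nl n (2 * s) ≤ Nl n (2 * Rn n + 1) := by
  have h1 : ∑ s ∈ Icc 1 (Rn n), Nl n (2 * s) ≤ ∑ s ∈ Icc 1 (Rn n), Nl n (2 * Rn n) := by
    refine Finset.sum_le_sum (fun s hs => Nl_mono n ?_)
    have := (Finset.mem_Icc.1 hs).2
    omega
  refine h1.trans ?_
  rw [Finset.sum_const, Nat.card_Icc, Nat.add_sub_cancel, smul_eq_mul]
  set R := Rn n with hR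
  unfold Nl
  have h2 : R ≤ Dn n ^ (8 * R + 2) := by
    calc R ≤ 2 ^ R := Nat.lt_two_pow_self.le
      _ ≤ Dn n ^ R := Nat.pow_le_pow_left (two_le_Dn n) _
      _ ≤ Dn n ^ (8 * R + 2) := wp_pow n (by omega)
  calc R * Dn n ^ (2 * (2 * R) ^ 2) ≤ Dn n ^ (8 * R + 2) * Dn n ^ (2 * (2 * R) ^ 2) :=
        Nat.mul_le_mul_right _ h2
    _ = Dn n ^ (2 * (2 * R + 1) ^ 2) := by
        rw [← pow_add]
        congr 1
        ring

theorem exists_Dn_ge (C : ℝ) : ∃ n1 : ℕ, ∀ n, n1 ≤ n → C ≤ (Dn n : ℝ) := by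
  obtain ⟨N, hN⟩ := exists_nat_ge C
  refine ⟨N, fun n hn => hN.trans ?_⟩
  have h1 : N ≤ Dn n := by
    unfold Dn
    calc N ≤ 2 ^ N := Nat.lt_two_pow_self.le
      _ ≤ 2 ^ (n + 2) := Nat.pow_le_pow_right (by norm_num) (by omega)
  exact_mod_cast h1

theorem exists_Jn_ge (C : ℝ) : ∃ n1 : ℕ, ∀ n, n1 ≤ n → C ≤ (2 : ℝ) ^ Jn n := by
  obtain ⟨N, hN⟩ := exists_nat_ge C
  refine ⟨N, fun n hn => hN.trans ?_⟩
  have h1 : N ≤ 2 ^ Jn n := by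
    unfold Jn
    calc N ≤ 2 ^ N := Nat.lt_two_pow_self.le
      _ ≤ 2 ^ (n + 1) := Nat.pow_le_pow_right (by norm_num) (by omega)
  exact_mod_cast h1

theorem lev_zero (n : ℕ) : lev n 0 = 0 := by
  unfold lev
  apply Nat.div_eq_of_lt
  have := dn_pos n
  omega

theorem lev_last (n : ℕ) : lev n (Rn n + 1) = Jn n + 1 := by
  unfold lev Rn
  have := dn_pos n
  have h1 : Jn n * dn n + 1 + dn n - 1 = (Jn n + 1) * dn n := by
    rw [add_mul, one_mul]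
    omega
  rw [h1, Nat.mul_div_cancel _ this]

theorem lev_pos (n : ℕ) {θ : ℕ} (h : 1 ≤ θ) : 1 ≤ lev n θ := by
  unfold lev
  have := dn_pos n
  exact Nat.div_pos (by omega) this

private theorem wp_lev_lt (n θ j : ℕ) : lev n θ < j + 1 ↔ θ ≤ j * dn n := by
  unfold lev
  have h0 := dn_pos n
  rw [Nat.div_lt_iff_lt_mul h0, add_mul, one_mul]
  generalize j * dn n = x
  omega

theorem lev_le (n : ℕ) {θ : ℕ} (h : θ ≤ Rn n) : lev n θ ≤ Jn n :=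
  Nat.lt_succ_iff.1 ((wp_lev_lt n θ (Jn n)).2 h)

theorem lev_eq_iff (n : ℕ) {θ j : ℕ} (hj : 1 ≤ j) :
    lev n θ = j ↔ (j - 1) * dn n + 1 ≤ θ ∧ θ ≤ j * dn n := by
  obtain ⟨m, rfl⟩ : ∃ m, j = m + 1 := ⟨j - 1, by omega⟩
  have h1 := wp_lev_lt n θ m
  have h2 := wp_lev_lt n θ (m + 1)
  rw [Nat.add_sub_cancel]
  generalize hx : m * dn n = x at *
  generalize hy : (m + 1) * dn n = y at *
  constructor
  · intro h
    rw [h] at h1 h2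
    constructor
    · by_contra hc
      have h3 : θ ≤ x := by omega
      have := h1.2 h3
      omega
    · exact h2.1 (by omega)
  · rintro ⟨h3, h4⟩
    have h5 := h2.2 h4
    by_contra hc
    have h6 : lev n θ < m + 1 := by omega
    have := h1.1 h6
    omega

theorem one_le_wt (n l θ : ℕ) : 1 ≤ wt n l θ := by
  unfold wt
  split_ifs
  · exact one_le_pow₀ (by norm_num)
  · exact_mod_cast (le_trans (by norm_num) (two_le_Dn n) : 1 ≤ Dn n)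
  · exact le_rfl

theorem wt_le (n l : ℕ) {θ : ℕ} (h : θ < Rn n + 2) : wt n l θ ≤ (Dn n : ℝ) := by
  have h1 : (1 : ℝ) ≤ (Dn n : ℝ) := by
    exact_mod_cast (le_trans (by norm_num) (two_le_Dn n) : 1 ≤ Dn n)
  unfold wt
  split_ifs
  · have h2 : lev n θ ≤ Jn n + 1 := by
      rw [← lev_last n]
      unfold lev
      exact Nat.div_le_div_right (by omega)
    have h3 : ((2 : ℝ)) ^ (Jn n + 1) = (Dn n : ℝ) := by
      unfold Dn Jn
      push_cast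
      ring
    rw [← h3]
    exact pow_le_pow_right₀ (by norm_num) h2
  · exact le_rfl
  · exact h1

theorem wt_odd (n θ : ℕ) {l : ℕ} (h : Odd l) : wt n l θ = 1 := by
  obtain ⟨m, rfl⟩ := h
  unfold wt
  rw [if_neg, if_neg]
  · rintro ⟨h1, _⟩
    omega
  · unfold Ln
    omega

theorem wt_level_zero (n θ : ℕ) : wt n 0 θ = 1 := by
  unfold wt
  rw [if_neg, if_neg]
  · rintro ⟨h1, _⟩
    omega
  · unfold Ln
    omega

theorem wt_cat_self (n : ℕ) {s : ℕ} (h1 : 1 ≤ s) (h2 : s ≤ Rn n) :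
    wt n (2 * s) s = (Dn n : ℝ) := by
  unfold wt
  rw [if_neg, if_pos]
  · exact ⟨rfl, by omega⟩
  · unfold Ln
    omega

theorem wt_cat_ne (n : ℕ) {s θ : ℕ} (h2 : s ≤ Rn n) (h : θ ≠ s) : wt n (2 * s) θ = 1 := by
  unfold wt
  rw [if_neg, if_neg]
  · rintro ⟨h3, _⟩
    omega
  · unfold Ln
    omega

theorem wt_mesh (n θ : ℕ) : wt n (Ln n) θ = 2 ^ lev n θ := by
  unfold wt
  rw [if_pos rfl]

theorem wt_elem_zero (n l : ℕ) : wt n l 0 = 1 := by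
  unfold wt
  split_ifs with h1 h2
  · rw [lev_zero, pow_zero]
  · exact absurd h2.2 (lt_irrefl 0)
  · rfl

theorem wt_mesh_last (n : ℕ) : wt n (Ln n) (Rn n + 1) = (2 : ℝ) ^ (Jn n + 1) := by
  rw [wt_mesh, lev_last]

end Pool.Agent.UBN
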