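import Pool.Agent.UBN.Defs5
import Pool.Agent.UBN.Wp

/-!
# Levels and weights

`d = dn n = D^2`, `R = J d`.  `lev n θ = (θ + d - 1) / d`: `0` iff `θ = 0`; for `1 ≤ θ ≤ R` it is in `1..J`; `lev n (R + 1) = J + 1`.
Level `j`, `1 ≤ j ≤ J`: `θ ∈ ((j-1) d, j d]`, `d` elements, all with `kap = 1 / D`; levels `0` and `J + 1` have one element (`kap = 1`).
Hence `sum_kap`.  `omg_le_wt`: at `l = Ln` equality, else `1 ≤ wt` (`1 ≤ D`).  `sum_wt`: at `l = Ln` the sum is `(2^j)^2 * 1`;
else `(wt * kap)^2 ≤ kap^2 + (if l = 2 θ ∧ 0 < θ then 1 else 0)`: the special `θ = l / 2` is `≤ R` since `l < Ln = 2 (R + 1)`, so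
`kap = 1 / D` there and `(D * (1 / D))^2 = 1`; at most one `θ` is special; the sum is `≤ 1 + 1`.
Many facts on `lev`, `wt` are in `Wp.lean` (`lev_zero`, `lev_last`, `lev_pos`, `lev_le`, `lev_eq_iff`, `one_le_wt`, `wt_le`, `wt_mesh`).
-/

namespace Pool.Agent.UBN

open Finset

theorem mem_levS {n j θ : ℕ} : θ ∈ levS n j ↔ θ < Rn n + 2 ∧ lev n θ = j := by
  unfold levS
  rw [Finset.mem_filter, Finset.mem_range]

theorem lev_le_top {n θ : ℕ} (h : θ < Rn n + 2) : lev n θ ≤ Jn n + 1 := by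
  rw [← lev_last n]
  unfold lev
  exact Nat.div_le_div_right (by omega)

theorem lev_eq_zero {n θ : ℕ} : lev n θ = 0 ↔ θ = 0 := by
  constructor
  · intro h
    by_contra h0
    have := lev_pos n (Nat.one_le_iff_ne_zero.2 h0)
    omega
  · rintro rfl
    exact lev_zero n

theorem lev_eq_top {n θ : ℕ} (h : θ < Rn n + 2) : lev n θ = Jn n + 1 ↔ θ = Rn n + 1 := by
  constructor
  · intro h1
    by_contra h0
    have := lev_le n (θ := θ) (by omega)
    omega
  · rintro rfl
    exact lev_last n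

theorem levS_top (n : ℕ) : levS n (Jn n + 2) = ∅ := by
  apply Finset.eq_empty_of_forall_notMem
  intro θ hθ
  rw [mem_levS] at hθ
  have := lev_le_top hθ.1
  omega

theorem levS_zero (n : ℕ) : levS n 0 = {0} := by
  ext θ
  rw [mem_levS, Finset.mem_singleton, lev_eq_zero]
  constructor
  · exact fun h => h.2
  · rintro rfl
    exact ⟨by omega, rfl⟩

theorem levS_last (n : ℕ) : levS n (Jn n + 1) = {Rn n + 1} := by
  ext θ
  rw [mem_levS, Finset.mem_singleton]
  constructor
  · exact fun h => (lev_eq_top h.1).1 h.2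
  · rintro rfl
    exact ⟨by omega, lev_last n⟩

private theorem cl_levS_mid {n j : ℕ} (h1 : 1 ≤ j) (h2 : j ≤ Jn n) :
    levS n j = Icc ((j - 1) * dn n + 1) (j * dn n) := by
  have h3 : j * dn n ≤ Rn n := by
    unfold Rn
    exact Nat.mul_le_mul_right _ h2
  ext θ
  rw [mem_levS, Finset.mem_Icc, lev_eq_iff n h1]
  constructor
  · exact fun h => h.2
  · intro h
    exact ⟨by omega, h⟩

private theorem cl_Dn_pos (n : ℕ) : (0 : ℝ) < (Dn n : ℝ) := by
  exact_mod_cast (lt_of_lt_of_le (by norm_num) (two_le_Dn n) : 0 < Dn n)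

private theorem cl_kap_mid {n θ : ℕ} (h1 : 1 ≤ θ) (h2 : θ ≤ Rn n) :
    kap n θ = 1 / (Dn n : ℝ) := by
  unfold kap
  rw [if_neg (by omega)]

theorem sum_kap {n j : ℕ} (hj : j ≤ Jn n + 1) : ∑ θ ∈ levS n j, kap n θ ^ 2 = 1 := by
  rcases Nat.eq_zero_or_pos j with h0 | h0
  · subst h0
    rw [levS_zero, Finset.sum_singleton]
    unfold kap
    rw [if_pos (Or.inl rfl)]
    norm_num
  rcases Nat.lt_or_ge (Jn n) j with h1 | h1
  · have : j = Jn n + 1 := by omega
    subst this
    rw [levS_last, Finset.sum_singleton]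
    unfold kap
    rw [if_pos (Or.inr rfl)]
    norm_num
  · rw [cl_levS_mid h0 h1]
    have h3 : j * dn n ≤ Rn n := by
      unfold Rn
      exact Nat.mul_le_mul_right _ h1
    have h4 : ∀ θ ∈ Icc ((j - 1) * dn n + 1) (j * dn n),
        kap n θ ^ 2 = (1 / (Dn n : ℝ)) ^ 2 := by
      intro θ hθ
      rw [Finset.mem_Icc] at hθ
      rw [cl_kap_mid (by omega) (by omega)]
    rw [Finset.sum_congr rfl h4, Finset.sum_const, Nat.card_Icc, nsmul_eq_mul]
    have h5 : j * dn n + 1 - ((j - 1) * dn n + 1) = dn n := by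
      obtain ⟨m, rfl⟩ : ∃ m, j = m + 1 := ⟨j - 1, by omega⟩
      rw [Nat.add_sub_cancel, add_mul, one_mul]
      omega
    rw [h5]
    unfold dn
    push_cast
    have := cl_Dn_pos n
    field_simp

theorem omg_le_wt {n l θ : ℕ} : omg n l (lev n θ) ≤ wt n l θ := by
  unfold omg
  by_cases h : l = Ln n
  · rw [if_pos h, h, wt_mesh]
  · rw [if_neg h]
    exact one_le_wt n l θ

theorem sum_wt {n l j : ℕ} (hl : l ≤ Ln n) (hj : j ≤ Jn n + 1) :
    ∑ θ ∈ levS n j, (wt n l θ * kap n θ) ^ 2 ≤ 2 * omg n l j ^ 2 := by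
  unfold omg
  by_cases h : l = Ln n
  · rw [if_pos h]
    subst h
    have h1 : ∀ θ ∈ levS n j, (wt n (Ln n) θ * kap n θ) ^ 2
        = ((2 : ℝ) ^ j) ^ 2 * kap n θ ^ 2 := by
      intro θ hθ
      rw [mem_levS] at hθ
      rw [wt_mesh, hθ.2, mul_pow]
    rw [Finset.sum_congr rfl h1, ← Finset.mul_sum, sum_kap hj, mul_one]
    have : (0 : ℝ) ≤ ((2 : ℝ) ^ j) ^ 2 := sq_nonneg _
    linarith
  · rw [if_neg h]
    have h1 : ∀ θ ∈ levS n j, (wt n l θ * kap n θ) ^ 2
        ≤ kap n θ ^ 2 + (if l = 2 * θ then (1 : ℝ) else 0) := by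
      intro θ hθ
      rw [mem_levS] at hθ
      by_cases h2 : l = 2 * θ ∧ 0 < θ
      · have h3 : wt n l θ = (Dn n : ℝ) := by
          unfold wt
          rw [if_neg h, if_pos h2]
        have h4 : θ ≤ Rn n := by
          have := h2.1
          unfold Ln at hl h
          omega
        rw [h3, cl_kap_mid h2.2 h4, if_pos h2.1]
        have := cl_Dn_pos n
        have h5 : (Dn n : ℝ) * (1 / (Dn n : ℝ)) = 1 := by field_simp
        rw [h5]
        have : (0 : ℝ) ≤ (1 / (Dn n : ℝ)) ^ 2 := sq_nonneg _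
        linarith
      · have h3 : wt n l θ = 1 := by
          unfold wt
          rw [if_neg h, if_neg h2]
        rw [h3, one_mul]
        have : (0 : ℝ) ≤ (if l = 2 * θ then (1 : ℝ) else 0) := by
          split_ifs <;> norm_num
        linarith
    refine (Finset.sum_le_sum h1).trans ?_
    rw [Finset.sum_add_distrib, sum_kap hj, Finset.sum_ite, Finset.sum_const_zero, add_zero,
      Finset.sum_const, nsmul_eq_mul, mul_one]
    have h2 : ((levS n j).filter (fun θ => l = 2 * θ)).card ≤ 1 := by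
      rw [Finset.card_le_one]
      intro a ha b hb
      rw [Finset.mem_filter] at ha hb
      have := ha.2
      have := hb.2
      omega
    have h3 : (((levS n j).filter (fun θ => l = 2 * θ)).card : ℝ) ≤ 1 := by
      exact_mod_cast h2
    linarith

/-- sums over the fibre, level by level -/
theorem sum_levels (n : ℕ) (f : ℕ → ℝ) :
    ∑ θ ∈ range (Rn n + 2), f θ = ∑ j ∈ range (Jn n + 2), ∑ θ ∈ levS n j, f θ := by
  unfold levS
  refine (Finset.sum_fiberwise_of_maps_to ?_ f).symm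
  intro θ hθ
  rw [Finset.mem_range] at hθ ⊢
  have := lev_le_top hθ
  omega

end Pool.Agent.UBN
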