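import Pool.Agent.UBN.Cn3
import Pool.Agent.UBN.Cl

/-!
# The catalyst test and the mesh test

Everything is a power of `D = Dn n ≥ 4`: `Ml n l = D^l`, `Nl n l = D^(2 l^2)`, and `wt ≤ D` (`wt_le`).
`cat_lo`: `flat_lo` with `l = 2 s`: `wt n (2 s) s = D` (`2 s ≠ Ln n` as `s ≤ R`).
`cat_up`: `flat_up`: for `l < 2 s`: `∑ ≤ Nl n l * D`, and `D * Nl l / Ml l ≤ Nl (2s) / Ml (2s)` since `1 + 2 l^2 - l ≤ 2 (2s)^2 - 2 s` for `l ≤ 2 s - 1`;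
`l = 2 s`: `wt n (2 s) (θ k) = 1` (`θ k ≠ s`), the sum is `≤ Nl (2 s)`; `l > 2 s`: `∑ ≤ Nl (2 s) * D` and `Ml l ≥ D * Ml (2 s)`.
`mesh_up`: `wt n l 0 = 1` for all `l` (`lev n 0 = 0`); the sum is `≤ min (Nl l) |F| ≤ Nl l` and `Nl l / Ml l ≤ Nl Ln / Ml Ln`.
All the facts on `wt`, `Ml`, `Nl` are in `Wp.lean` (`wt_cat_self`, `wt_cat_ne`, `wt_le`, `wt_elem_zero`, `wt_mesh_last`, `ratio_mono`,
`Dn_mul_Ml_le`, `Nl_step`, `sum_Nl`).  `sum_Nl_le`: `sum_Nl` and `2 * Nl (2 R + 1) ≤ D * Nl (2 R + 1) ≤ Nl (2 R + 2)` (`Nl_step`).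
`mesh_lo`: `flat_lo` with `l = Ln n`: `wt = 2 ^ lev = 2 ^ (J + 1)`, `|F| ≥ Nl Ln / 2`.
-/

namespace Pool.Agent.UBN

open Finset Pool.Agent.UUB

theorem cn4_sum_le {n l : ℕ} {F : Finset Row} {θ : Row → ℕ} (h : ∀ k ∈ F, θ k < Rn n + 2) :
    ∑ k ∈ F, wt n l (θ k) ≤ (F.card : ℝ) * Dn n := by
  calc ∑ k ∈ F, wt n l (θ k) ≤ ∑ _k ∈ F, (Dn n : ℝ) :=
        Finset.sum_le_sum fun k hk => wt_le n l (h k hk)
    _ = (F.card : ℝ) * Dn n := by rw [Finset.sum_const, nsmul_eq_mul]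

theorem cat_lo {n s : ℕ} (h1 : 1 ≤ s) (h2 : s ≤ Rn n) {F : Finset Row}
    (hF : ∀ k ∈ F, k.1 = n ∧ k.2 < rowsN n) (hc : F.card = Nl n (2 * s)) :
    (Dn n : ℝ) * ((Nl n (2 * s) : ℝ) / Ml n (2 * s)) ≤ nrO (∑ k ∈ F, ev k s) := by
  have h := flat_lo (n := n) (l := 2 * s) (by unfold Ln; omega) (F := F) (θ := fun _ => s)
    (fun k hk => ⟨(hF k hk).1, (hF k hk).2, by omega⟩) hc.le
  refine le_trans (le_of_eq ?_) h
  rw [Finset.sum_const, nsmul_eq_mul, hc, wt_cat_self n h1 h2]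
  ring

theorem cat_up {n s : ℕ} (h1 : 1 ≤ s) (h2 : s ≤ Rn n) {F : Finset Row} {θ : Row → ℕ}
    (hF : ∀ k ∈ F, k.1 = n ∧ k.2 < rowsN n ∧ θ k < Rn n + 2 ∧ θ k ≠ s)
    (hc : F.card = Nl n (2 * s)) :
    nrO (∑ k ∈ F, ev k (θ k)) ≤ (Nl n (2 * s) : ℝ) / Ml n (2 * s) := by
  refine flat_up (n := n) (fun k hk => ⟨(hF k hk).1, (hF k hk).2.1, (hF k hk).2.2.1⟩)
    (fun l _ F' hF' hc' => ?_)
  have hsum := cn4_sum_le (n := n) (l := l) (F := F') (θ := θ)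
    (fun k hk => (hF k (hF' hk)).2.2.1)
  have hMl : (0 : ℝ) < Ml n l := by exact_mod_cast Ml_pos n l
  have hMs : (0 : ℝ) < Ml n (2 * s) := by exact_mod_cast Ml_pos n (2 * s)
  have hD : (0 : ℝ) ≤ Dn n := Nat.cast_nonneg _
  rw [one_div, inv_mul_eq_div, div_le_div_iff₀ hMl hMs]
  rcases lt_trichotomy l (2 * s) with hl | hl | hl
  · have e1 := Nl_step n l
    have e2 := ratio_mono n (l := l + 1) (l' := 2 * s) (by omega)
    have e3 : Dn n * Nl n l * Ml n (2 * s) ≤ Nl n (2 * s) := by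
      have e4 : (Dn n * Nl n l * Ml n (2 * s)) * Ml n (l + 1) ≤ Nl n (2 * s) * Ml n (l + 1) := by
        calc (Dn n * Nl n l * Ml n (2 * s)) * Ml n (l + 1)
            = (Dn n * Nl n l * Ml n (l + 1)) * Ml n (2 * s) := by ring
          _ ≤ Nl n (l + 1) * Ml n (2 * s) := Nat.mul_le_mul_right _ e1
          _ ≤ Nl n (2 * s) * Ml n (l + 1) := e2
      exact Nat.le_of_mul_le_mul_right e4 (Ml_pos n (l + 1))
    have e5 : (F'.card : ℝ) * Dn n * Ml n (2 * s) ≤ (Nl n (2 * s) : ℝ) * Ml n l := by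
      have e6 : F'.card * Dn n * Ml n (2 * s) ≤ Nl n (2 * s) * Ml n l := by
        calc F'.card * Dn n * Ml n (2 * s) ≤ Nl n l * Dn n * Ml n (2 * s) :=
              Nat.mul_le_mul_right _ (Nat.mul_le_mul_right _ hc')
          _ = Dn n * Nl n l * Ml n (2 * s) := by ring
          _ ≤ Nl n (2 * s) := e3
          _ = Nl n (2 * s) * 1 := (mul_one _).symm
          _ ≤ Nl n (2 * s) * Ml n l := Nat.mul_le_mul_left _ (Ml_pos n l)
      exact_mod_cast e6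
    exact (mul_le_mul_of_nonneg_right hsum hMs.le).trans e5
  · have e1 : ∑ k ∈ F', wt n l (θ k) = (F'.card : ℝ) := by
      rw [Finset.sum_congr rfl fun k hk => by
        rw [hl, wt_cat_ne n h2 (hF k (hF' hk)).2.2.2]]
      rw [Finset.sum_const, nsmul_eq_mul, mul_one]
    rw [e1, hl]
    have e2 : (F'.card : ℝ) ≤ Nl n (2 * s) := by rw [← hl]; exact_mod_cast hc'
    exact mul_le_mul_of_nonneg_right e2 hMs.le
  · have e1 := Dn_mul_Ml_le n hl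
    have e2 : F'.card ≤ Nl n (2 * s) := (Finset.card_le_card hF').trans hc.le
    have e5 : (F'.card : ℝ) * Dn n * Ml n (2 * s) ≤ (Nl n (2 * s) : ℝ) * Ml n l := by
      have e6 : F'.card * Dn n * Ml n (2 * s) ≤ Nl n (2 * s) * Ml n l := by
        calc F'.card * Dn n * Ml n (2 * s) = F'.card * (Dn n * Ml n (2 * s)) := by ring
          _ ≤ Nl n (2 * s) * Ml n l := Nat.mul_le_mul e2 e1
      exact_mod_cast e6
    exact (mul_le_mul_of_nonneg_right hsum hMs.le).trans e5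

theorem mesh_up {n : ℕ} {F : Finset Row} (hF : ∀ k ∈ F, k.1 = n ∧ k.2 < rowsN n) :
    nrO (∑ k ∈ F, ev k 0) ≤ (Nl n (Ln n) : ℝ) / Ml n (Ln n) := by
  refine flat_up (n := n) (θ := fun _ => 0) (fun k hk => ⟨(hF k hk).1, (hF k hk).2, by omega⟩)
    (fun l hl F' _ hc' => ?_)
  have hMl : (0 : ℝ) < Ml n l := by exact_mod_cast Ml_pos n l
  have hMs : (0 : ℝ) < Ml n (Ln n) := by exact_mod_cast Ml_pos n (Ln n)
  rw [one_div, inv_mul_eq_div, div_le_div_iff₀ hMl hMs, Finset.sum_const, nsmul_eq_mul,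
    wt_elem_zero, mul_one]
  have e1 := ratio_mono n hl
  have e6 : F'.card * Ml n (Ln n) ≤ Nl n (Ln n) * Ml n l :=
    (Nat.mul_le_mul_right _ hc').trans e1
  exact_mod_cast e6

theorem mesh_lo {n : ℕ} {F : Finset Row} (hF : ∀ k ∈ F, k.1 = n ∧ k.2 < rowsN n)
    (hc : F.card ≤ Nl n (Ln n)) (hc2 : Nl n (Ln n) ≤ 2 * F.card) :
    (2 : ℝ) ^ Jn n * ((Nl n (Ln n) : ℝ) / Ml n (Ln n)) ≤ nrO (∑ k ∈ F, ev k (Rn n + 1)) := by
  have h := flat_lo (n := n) (l := Ln n) le_rfl (F := F) (θ := fun _ => Rn n + 1)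
    (fun k hk => ⟨(hF k hk).1, (hF k hk).2, by omega⟩) hc
  refine le_trans ?_ h
  rw [Finset.sum_const, nsmul_eq_mul, wt_mesh_last]
  have hMs : (0 : ℝ) < Ml n (Ln n) := by exact_mod_cast Ml_pos n (Ln n)
  have e1 : (Nl n (Ln n) : ℝ) ≤ 2 * F.card := by exact_mod_cast hc2
  have e2 : (2 : ℝ) ^ Jn n * Nl n (Ln n) ≤ F.card * 2 ^ (Jn n + 1) := by
    calc (2 : ℝ) ^ Jn n * Nl n (Ln n) ≤ 2 ^ Jn n * (2 * F.card) :=
          mul_le_mul_of_nonneg_left e1 (by positivity)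
      _ = F.card * 2 ^ (Jn n + 1) := by rw [pow_succ]; ring
  rw [one_div, inv_mul_eq_div, ← mul_div_assoc]
  exact div_le_div_of_nonneg_right e2 hMs.le

theorem sum_Nl_le (n : ℕ) : 2 * ∑ s ∈ Icc 1 (Rn n), Nl n (2 * s) ≤ Nl n (Ln n) := by
  have e1 := sum_Nl n
  have e2 := Nl_step n (2 * Rn n + 1)
  have e3 : Ln n = 2 * Rn n + 1 + 1 := by unfold Ln; ring
  rw [e3]
  calc 2 * ∑ s ∈ Icc 1 (Rn n), Nl n (2 * s) ≤ Dn n * Nl n (2 * Rn n + 1) :=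
        Nat.mul_le_mul (two_le_Dn n) e1
    _ = Dn n * Nl n (2 * Rn n + 1) * 1 := (mul_one _).symm
    _ ≤ Dn n * Nl n (2 * Rn n + 1) * Ml n (2 * Rn n + 1 + 1) :=
        Nat.mul_le_mul_left _ (Ml_pos n _)
    _ ≤ Nl n (2 * Rn n + 1 + 1) := e2

end Pool.Agent.UBN
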