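import Pool.Agent.UBN.Cn2
import Pool.Agent.UBN.Cn4

/-!
# The two bases are not equivalent

Let `Sgm σ C`, `n1` from `far_row`, and `n ≥ n1` with `2 ^ n > C` (so `Dn n > C` and `2 ^ Jn n > C`).  For a row `k = (n, j)`, `j < rowsN n`, and
`θ ≤ Rn n` the coordinate `ω (k, θ) ∈ ZB` is mapped to `inl ω'`, `rowO ω' = k`; put `τ k θ = fb ω'`, so `1 ≤ τ k θ < Rn n + 2`, `τ k` is injective on
`{0..R}` (`σ` is).  `bad s = {k | τ k s ≠ s}` (`1 ≤ s ≤ R`): `|bad s| < Nl n (2 s)`: otherwise choose `F ⊆ bad s` with `|F| = Nl n (2 s)`; by `h1` (index type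
`Row`, `t = 1`): `nrO (∑ k ∈ F, ev k s) ≤ C * nrO (∑ k ∈ F, ev k (τ k s))`, so `D * q ≤ C * q` with `q = Nl / Ml > 0` (`cat_lo`, `cat_up`): contradiction.
`G` = rows which are in no `bad s`: `|G| ≥ rowsN n - ∑ Nl n (2 s) ≥ rowsN n / 2` (`sum_Nl_le`, `rowsN n = Nl n (Ln n)`).  For `k ∈ G`: `τ k 0 ∈ {1..R+1}` is different
from `τ k s = s` for all `1 ≤ s ≤ R`, so `τ k 0 = R + 1`.  `h1`: `nrO (∑ k ∈ G, ev k (R + 1)) ≤ C * nrO (∑ k ∈ G, ev k 0)`; `mesh_lo`, `mesh_up`: `2 ^ Jn n ≤ C`.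
-/

namespace Pool.Agent.UBN

open Finset Pool.Agent.UUB

private theorem cn5_ext {a b : Om} (h1 : rowO a = rowO b) (h2 : fb a = fb b) : a = b := by
  obtain ⟨⟨a1, a2, a3⟩, ha⟩ := a
  obtain ⟨⟨b1, b2, b3⟩, hb⟩ := b
  have h3 : a1 = b1 := congrArg Prod.fst h1
  have h4 : a2 = b2 := congrArg Prod.snd h1
  have h5 : a3 = b3 := h2
  subst h3 h4 h5
  rfl

/-- the target elements in the rows of a far window -/
theorem exists_tau {σ : ZB → ZB' ⊕ (ℕ ⊕ ℕ)} {C : ℝ} (h : Sgm σ C) : ∃ n1 : ℕ, ∀ n, n1 ≤ n →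
    ∃ τ : Row → ℕ → ℕ, (∀ k : Row, k.1 = n → k.2 < rowsN n → ∀ θ ≤ Rn n,
        1 ≤ τ k θ ∧ τ k θ ≤ Rn n + 1) ∧
      (∀ k : Row, k.1 = n → k.2 < rowsN n → ∀ θ ≤ Rn n, ∀ θ' ≤ Rn n, τ k θ = τ k θ' → θ = θ') ∧
      ∀ (F : Finset Row) (s : ℕ), s ≤ Rn n → (∀ k ∈ F, k.1 = n ∧ k.2 < rowsN n) →
        nrO (∑ k ∈ F, ev k s) ≤ C * nrO (∑ k ∈ F, ev k (τ k s)) ∧
        nrO (∑ k ∈ F, ev k (τ k s)) ≤ C * nrO (∑ k ∈ F, ev k s) := by
  classical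
  obtain ⟨n1, hn1⟩ := far_row h
  refine ⟨n1, fun n hn => ?_⟩
  have key : ∀ (k : Row) (θ : ℕ), (k.1 = n ∧ k.2 < rowsN n ∧ θ ≤ Rn n) →
      ∃ t : ℕ, ∃ (ω : ZB) (ω' : ZB'), rowO ω.1 = k ∧ fb ω.1 = θ ∧ σ ω = Sum.inl ω' ∧
        rowO ω'.1 = k ∧ fb ω'.1 = t := by
    rintro ⟨k1, k2⟩ θ ⟨h1, h2, h3⟩
    simp only at h1 h2
    subst h1
    let ω0 : Om := ⟨(k1, k2, θ), h2, by show θ < Rn k1 + 2; omega⟩
    have hω0 : ω0 ∈ ZB := h3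
    obtain ⟨ω', h4, h5⟩ := hn1 ⟨ω0, hω0⟩ hn
    exact ⟨fb ω'.1, ⟨ω0, hω0⟩, ω', rfl, rfl, h4, h5, rfl⟩
  choose! τ hτ using key
  refine ⟨τ, ?_, ?_, ?_⟩
  · intro k hk1 hk2 θ hθ
    obtain ⟨ω, ω', h1, h2, h3, h4, h5⟩ := hτ k θ ⟨hk1, hk2, hθ⟩
    rw [← h5]
    refine ⟨ω'.2, ?_⟩
    have h6 : fb ω'.1 < Rn ω'.1.1.1 + 2 := ω'.1.2.2
    have h7 : ω'.1.1.1 = k.1 := congrArg Prod.fst h4
    rw [h7, hk1] at h6
    omega
  · intro k hk1 hk2 θ hθ θ' hθ' heq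
    obtain ⟨ω, ω', h1, h2, h3, h4, h5⟩ := hτ k θ ⟨hk1, hk2, hθ⟩
    obtain ⟨ψ, ψ', g1, g2, g3, g4, g5⟩ := hτ k θ' ⟨hk1, hk2, hθ'⟩
    have h6 : ω' = ψ' := Subtype.ext (cn5_ext (h4.trans g4.symm) (by rw [h5, g5, heq]))
    have h7 : ω = ψ := h.inj (by rw [h3, g3, h6])
    rw [← h2, ← g2, h7]
  · intro F s hs hF
    have hch : ∀ i : F, ∃ (ω : ZB) (ω' : ZB'), rowO ω.1 = i.1 ∧ fb ω.1 = s ∧ σ ω = Sum.inl ω' ∧
        rowO ω'.1 = i.1 ∧ fb ω'.1 = τ i.1 s := fun i =>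
      hτ i.1 s ⟨(hF i.1 i.2).1, (hF i.1 i.2).2, hs⟩
    choose f g hf1 hf2 hf3 hg1 hg2 using hch
    have hinj : Set.InjOn f ((Finset.univ : Finset F) : Set F) := by
      intro i _ j _ hij
      apply Subtype.ext
      rw [← hf1 i, ← hf1 j, hij]
    have h1 := h.h1 F Finset.univ f g (fun _ => 1) hinj (fun i _ => hf3 i)
    have h2 : ∑ i : F, Finsupp.single (f i).1 (1 : ℝ) = ∑ k ∈ F, ev k s := by
      rw [← Finset.sum_coe_sort F (fun k => ev k s)]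
      refine Finset.sum_congr rfl fun i _ => ?_
      rw [single_eq_ev, hf1, hf2]
    have h3 : ∑ i : F, Finsupp.single (g i).1 (1 : ℝ) = ∑ k ∈ F, ev k (τ k s) := by
      rw [← Finset.sum_coe_sort F (fun k => ev k (τ k s))]
      refine Finset.sum_congr rfl fun i _ => ?_
      rw [single_eq_ev, hg1, hg2]
    rw [h2, h3] at h1
    exact h1

theorem no_sgm {σ : ZB → ZB' ⊕ (ℕ ⊕ ℕ)} {C : ℝ} (h : Sgm σ C) : False := by
  obtain ⟨n1, hn1⟩ := exists_tau h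
  obtain ⟨n2, hn2⟩ := exists_Dn_ge (C + 1)
  obtain ⟨n3, hn3⟩ := exists_Jn_ge (C + 1)
  set n := max n1 (max n2 n3) with hn
  obtain ⟨τ, hτ1, hτ2, hτ3⟩ := hn1 n (le_max_left _ _)
  have hD : C + 1 ≤ (Dn n : ℝ) := hn2 n ((le_max_left _ _).trans (le_max_right _ _))
  have hJ : C + 1 ≤ (2 : ℝ) ^ Jn n := hn3 n ((le_max_right _ _).trans (le_max_right _ _))
  let rows : Finset Row := (range (rowsN n)).image (fun j => (n, j))
  have hrows : ∀ k ∈ rows, k.1 = n ∧ k.2 < rowsN n := by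
    intro k hk
    obtain ⟨j, hj, rfl⟩ := Finset.mem_image.1 hk
    exact ⟨rfl, Finset.mem_range.1 hj⟩
  have hrc : rows.card = Nl n (Ln n) := by
    rw [Finset.card_image_of_injective _ (fun i j hij => congrArg Prod.snd hij), Finset.card_range]
    rfl
  have hq : ∀ l, 0 < (Nl n l : ℝ) / Ml n l := fun l =>
    div_pos (by exact_mod_cast Nl_pos n l) (by exact_mod_cast Ml_pos n l)
  have hC := h.pos
  have hbad : ∀ s ∈ Icc 1 (Rn n), (rows.filter (fun k => τ k s ≠ s)).card ≤ Nl n (2 * s) := by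
    intro s hs
    obtain ⟨hs1, hs2⟩ := Finset.mem_Icc.1 hs
    by_contra hcon
    rw [not_le] at hcon
    obtain ⟨F, hF, hFc⟩ := Finset.exists_subset_card_eq hcon.le
    have hF' : ∀ k ∈ F, k.1 = n ∧ k.2 < rowsN n := fun k hk =>
      hrows k (Finset.mem_filter.1 (hF hk)).1
    have h1 := cat_lo hs1 hs2 hF' hFc
    have h2 := (hτ3 F s hs2 hF').1
    have h3 : nrO (∑ k ∈ F, ev k (τ k s)) ≤ (Nl n (2 * s) : ℝ) / Ml n (2 * s) := by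
      refine cat_up hs1 hs2 (θ := fun k => τ k s) (fun k hk => ?_) hFc
      obtain ⟨h4, h5⟩ := hF' k hk
      have h6 := (hτ1 k h4 h5 s hs2).2
      exact ⟨h4, h5, by show τ k s < Rn n + 2; omega, (Finset.mem_filter.1 (hF hk)).2⟩
    have h4 := hq (2 * s)
    have h5 : C * nrO (∑ k ∈ F, ev k (τ k s)) ≤ C * ((Nl n (2 * s) : ℝ) / Ml n (2 * s)) :=
      mul_le_mul_of_nonneg_left h3 hC.le
    nlinarith
  obtain ⟨G, hGm⟩ : ∃ G : Finset Row, ∀ k, k ∈ G ↔ k ∈ rows ∧ ∀ s ∈ Icc 1 (Rn n), τ k s = s := by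
    classical
    exact ⟨rows.filter (fun k => ∀ s ∈ Icc 1 (Rn n), τ k s = s), fun k => by simp⟩
  have hG : ∀ k ∈ G, k.1 = n ∧ k.2 < rowsN n := fun k hk => hrows k ((hGm k).1 hk).1
  have hGc : G.card ≤ Nl n (Ln n) := by
    rw [← hrc]
    exact Finset.card_le_card fun k hk => ((hGm k).1 hk).1
  have hGc2 : Nl n (Ln n) ≤ 2 * G.card := by
    have h1 : rows ⊆ G ∪ (Icc 1 (Rn n)).biUnion (fun s => rows.filter (fun k => τ k s ≠ s)) := by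
      intro k hk
      by_cases h2 : ∀ s ∈ Icc 1 (Rn n), τ k s = s
      · exact Finset.mem_union_left _ ((hGm k).2 ⟨hk, h2⟩)
      · push Not at h2
        obtain ⟨s, hs, hs'⟩ := h2
        exact Finset.mem_union_right _
          (Finset.mem_biUnion.2 ⟨s, hs, Finset.mem_filter.2 ⟨hk, hs'⟩⟩)
    have h2 := (Finset.card_le_card h1).trans (Finset.card_union_le _ _)
    have h3 : ((Icc 1 (Rn n)).biUnion (fun s => rows.filter (fun k => τ k s ≠ s))).card ≤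
        ∑ s ∈ Icc 1 (Rn n), Nl n (2 * s) :=
      Finset.card_biUnion_le.trans (Finset.sum_le_sum hbad)
    have h4 := sum_Nl_le n
    omega
  have hlast : ∀ k ∈ G, τ k 0 = Rn n + 1 := by
    intro k hk
    obtain ⟨h4, h5⟩ := hG k hk
    obtain ⟨h6, h7⟩ := hτ1 k h4 h5 0 (Nat.zero_le _)
    by_contra hcon
    have h8 : τ k 0 ≤ Rn n := by omega
    have h9 := ((hGm k).1 hk).2 (τ k 0) (Finset.mem_Icc.2 ⟨h6, h8⟩)
    have h10 := hτ2 k h4 h5 _ h8 0 (Nat.zero_le _) h9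
    omega
  have h1 := (hτ3 G 0 (Nat.zero_le _) hG).2
  have h2 : ∑ k ∈ G, ev k (τ k 0) = ∑ k ∈ G, ev k (Rn n + 1) :=
    Finset.sum_congr rfl fun k hk => by rw [hlast k hk]
  rw [h2] at h1
  have h3 := mesh_lo hG hGc hGc2
  have h4 := mesh_up hG
  have h5 := hq (Ln n)
  have h6 : C * nrO (∑ k ∈ G, ev k 0) ≤ C * ((Nl n (Ln n) : ℝ) / Ml n (Ln n)) :=
    mul_le_mul_of_nonneg_left h4 hC.le
  nlinarith

end Pool.Agent.UBN
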