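import Pool.Agent.UBN.Cv3

/-!
# The second family

`Φ = Finsupp.linearCombination ℝ (fun ω => F (inl ω))`, `F' (inl ω) = Φ (U (single ω 1))`, `F' (inr m) = F (inr m)` (`U`, `V` from `conveyor`).
For `x` supported in `ZB'`: `x.sum (c • F' (inl ω)) = Φ (U x)`, `U x` is supported in `ZB`, `nrO (U x) ≤ 7 nrO x` and
`nrO x = nrO (V (U x)) ≤ 7 nrO (U x)`, so `max (nrO (U x)) (l2 h) ≤ 7 max (nrO x) (l2 h)` and vice versa.
Density: for `ω ∈ ZB`: `F (inl ω) = Φ (U (V (single ω 1))) = ∑ (V (single ω 1)) ω'' • F' (inl ω'')` is in the span of the new family.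
-/

namespace Pool.Agent.UBN

open Finset Pool.Agent.UUB

theorem two_second {B : Type} [NormedAddCommGroup B] [NormedSpace ℝ B] {F : Om ⊕ (ℕ ⊕ ℕ) → B}
    {C : ℝ} (hF : Two F ZB C) : ∃ F' : Om ⊕ (ℕ ⊕ ℕ) → B, Two F' ZB' (7 * C) := by
  obtain ⟨U, V, hU, hV, hUs, hVs, hVU, hUV⟩ := conveyor
  have hC : 0 < C := lt_of_lt_of_le one_pos hF.one_le
  let Φ : (Om →₀ ℝ) →ₗ[ℝ] B := Finsupp.linearCombination ℝ (fun ω => F (Sum.inl ω))
  have hΦ : ∀ x : Om →₀ ℝ, Φ x = x.sum fun ω c => c • F (Sum.inl ω) := fun x => rfl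
  let F' : Om ⊕ (ℕ ⊕ ℕ) → B :=
    Sum.elim (fun ω => Φ (U (Finsupp.single ω 1))) (fun m => F (Sum.inr m))
  have hl : ∀ ω, F' (Sum.inl ω) = Φ (U (Finsupp.single ω 1)) := fun ω => rfl
  have hr : ∀ m, F' (Sum.inr m) = F (Sum.inr m) := fun m => rfl
  have hsum : ∀ x : Om →₀ ℝ, (x.sum fun ω c => c • F' (Sum.inl ω)) = Φ (U x) := by
    intro x
    have h1 : (x.sum fun ω c => c • F' (Sum.inl ω)) =
        Finsupp.linearCombination ℝ (fun ω => Φ (U (Finsupp.single ω 1))) x := rfl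
    have h2 : Finsupp.linearCombination ℝ (fun ω => Φ (U (Finsupp.single ω 1))) = Φ ∘ₗ U := by
      refine Finsupp.lhom_ext fun ω c => ?_
      rw [Finsupp.linearCombination_single, LinearMap.comp_apply, ← map_smul, ← map_smul,
        Finsupp.smul_single, smul_eq_mul, mul_one]
    rw [h1, h2]
    rfl
  have hnr : ∀ x : Om →₀ ℝ, (∀ ω, x ω ≠ 0 → ω ∈ ZB') → nrO x ≤ 7 * nrO (U x) := by
    intro x hx
    have h1 := hV (U x)
    rw [hVU x hx] at h1
    exact h1
  have hl2 : ∀ h : (ℕ ⊕ ℕ) →₀ ℝ, 0 ≤ l2 h := fun h => Real.sqrt_nonneg _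
  refine ⟨F', ?_, ?_, ?_, ?_⟩
  · linarith [hF.one_le]
  · intro x h hx
    rw [hsum]
    have h1 := hF.up (U x) h (hUs x)
    rw [← hΦ] at h1
    refine h1.trans ?_
    have h2 : max (nrO (U x)) (l2 h) ≤ 7 * max (nrO x) (l2 h) := by
      refine max_le ((hU x).trans (mul_le_mul_of_nonneg_left (le_max_left _ _) (by norm_num))) ?_
      have h3 := le_max_right (nrO x) (l2 h)
      have h4 := hl2 h
      linarith
    calc C * max (nrO (U x)) (l2 h) ≤ C * (7 * max (nrO x) (l2 h)) :=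
          mul_le_mul_of_nonneg_left h2 hC.le
      _ = 7 * C * max (nrO x) (l2 h) := by ring
  · intro x h hx
    rw [hsum]
    have h1 := hF.lo (U x) h (hUs x)
    rw [← hΦ] at h1
    have h2 : max (nrO x) (l2 h) ≤ 7 * max (nrO (U x)) (l2 h) := by
      refine max_le ((hnr x hx).trans (mul_le_mul_of_nonneg_left (le_max_left _ _) (by norm_num))) ?_
      have h3 := le_max_right (nrO (U x)) (l2 h)
      have h4 := hl2 h
      linarith
    refine h2.trans ?_
    have h5 := mul_le_mul_of_nonneg_left h1 (show (0 : ℝ) ≤ 7 by norm_num)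
    refine h5.trans (le_of_eq ?_)
    have h6 : ∀ a b : B, a = b → 7 * (C * ‖a‖) = 7 * C * ‖b‖ := by
      rintro a b rfl
      ring
    exact h6 _ _ rfl
  · have h1 : Submodule.span ℝ (F '' (Sum.inl '' ZB ∪ Set.range Sum.inr)) ≤
        Submodule.span ℝ (F' '' (Sum.inl '' ZB' ∪ Set.range Sum.inr)) := by
      refine Submodule.span_le.2 ?_
      rintro v ⟨s, hs, rfl⟩
      rcases hs with ⟨ω, hω, rfl⟩ | ⟨m, rfl⟩
      · have h2 : F (Sum.inl ω) = Φ (Finsupp.single ω 1) := by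
          have h3 : Φ (Finsupp.single ω 1) =
            Finsupp.linearCombination ℝ (fun ω => F (Sum.inl ω)) (Finsupp.single ω 1) := rfl
          rw [h3, Finsupp.linearCombination_single, one_smul]
        have h4 : U (V (Finsupp.single ω 1)) = Finsupp.single ω 1 := by
          refine hUV _ fun ω' h => ?_
          by_contra hn
          refine h ?_
          rw [Finsupp.single_apply, if_neg]
          intro h5
          exact hn (h5 ▸ hω)
        rw [h2, ← h4, ← hsum]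
        refine Submodule.sum_mem _ fun ω' hω' => Submodule.smul_mem _ _ (Submodule.subset_span ?_)
        exact ⟨Sum.inl ω', Or.inl ⟨ω', hVs _ _ (Finsupp.mem_support_iff.1 hω'), rfl⟩, rfl⟩
      · exact Submodule.subset_span ⟨Sum.inr m, Or.inr ⟨m, rfl⟩, hr m⟩
    have h2 := Submodule.topologicalClosure_mono h1
    rw [hF.dense] at h2
    exact top_le_iff.1 h2

end Pool.Agent.UBN
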