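import Pool.Agent.UBN.Cz1

/-!
# The natural family: density

The closed span contains `(eX s, 0)` for all `s : EB ⊕ ℕ` (`Fz (inl ω) = (eX (inl ω), 0)` for `ω ∈ EB`, as `EB ∩ GB = ∅`; `EB ⊆ ZB`) and `(0, eY t)`.
For `u : X`, `u = ∑ coord s u • eX s` (`UnconditionalSchauderBasis`, `HasSum`), so `(u, 0)` is a limit of elements of the span (the map `u ↦ (u, 0)` is
continuous and linear), the same for `(0, v)`, and `(u, v) = (u, 0) + (0, v)`.
-/

namespace Pool.Agent.UBN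

open Finset Pool.Agent.UUB

variable {X Y : Type} [NormedAddCommGroup X] [NormedSpace ℝ X] [NormedAddCommGroup Y]
  [NormedSpace ℝ Y] {eX : UnconditionalSchauderBasis (EB ⊕ ℕ) ℝ X}
  {eY : UnconditionalSchauderBasis (GB ⊕ ℕ) ℝ Y}

private theorem cz2_disj {ω : Om} (h1 : ω ∈ EB) (h2 : ω ∈ GB) : False := by
  have h3 : 1 ≤ fb ω := h1.1
  have h4 : fb ω = 0 := h2
  omega

private theorem cz2_X (s : EB ⊕ ℕ) : (eX s, (0 : Y)) ∈ Submodule.span ℝ
    (Fz eX eY '' (Sum.inl '' ZB ∪ Set.range Sum.inr)) := by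
  classical
  apply Submodule.subset_span
  rcases s with ω | m
  · refine ⟨Sum.inl ω.1, Or.inl ⟨ω.1, ω.2.2, rfl⟩, ?_⟩
    show ((if h : ω.1 ∈ EB then eX (Sum.inl ⟨ω.1, h⟩) else 0 : X),
      (if h : ω.1 ∈ GB then eY (Sum.inl ⟨ω.1, h⟩) else 0 : Y)) = _
    rw [dif_pos ω.2, dif_neg (fun h => cz2_disj ω.2 h)]
  · exact ⟨Sum.inr (Sum.inl m), Or.inr ⟨_, rfl⟩, rfl⟩

private theorem cz2_Y (s : GB ⊕ ℕ) : ((0 : X), eY s) ∈ Submodule.span ℝ
    (Fz eX eY '' (Sum.inl '' ZB ∪ Set.range Sum.inr)) := by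
  classical
  apply Submodule.subset_span
  rcases s with ω | m
  · have h0 : fb ω.1 = 0 := ω.2
    have h1 : ω.1 ∈ ZB := by
      show fb ω.1 ≤ _
      rw [h0]
      exact Nat.zero_le _
    refine ⟨Sum.inl ω.1, Or.inl ⟨ω.1, h1, rfl⟩, ?_⟩
    show ((if h : ω.1 ∈ EB then eX (Sum.inl ⟨ω.1, h⟩) else 0 : X),
      (if h : ω.1 ∈ GB then eY (Sum.inl ⟨ω.1, h⟩) else 0 : Y)) = _
    rw [dif_pos ω.2, dif_neg (fun h => cz2_disj h ω.2)]
  · exact ⟨Sum.inr (Sum.inr m), Or.inr ⟨_, rfl⟩, rfl⟩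

theorem Fz_dense : (Submodule.span ℝ
    (Fz eX eY '' (Sum.inl '' ZB ∪ Set.range Sum.inr))).topologicalClosure = ⊤ := by
  rw [eq_top_iff]
  rintro ⟨u, v⟩ -
  set T := Submodule.span ℝ (Fz eX eY '' (Sum.inl '' ZB ∪ Set.range Sum.inr)) with hT
  have hcl : IsClosed (T.topologicalClosure : Set (X × Y)) := T.isClosed_topologicalClosure
  have h1 : (u, (0 : Y)) ∈ T.topologicalClosure := by
    have e1 := (eX.expansion u).mapL (ContinuousLinearMap.inl ℝ X Y)
    refine hcl.mem_of_tendsto e1 (Filter.Eventually.of_forall fun F => ?_)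
    refine Submodule.sum_mem _ (fun s _ => ?_)
    apply T.le_topologicalClosure
    rw [map_smul]
    exact Submodule.smul_mem _ _ (cz2_X s)
  have h2 : ((0 : X), v) ∈ T.topologicalClosure := by
    have e1 := (eY.expansion v).mapL (ContinuousLinearMap.inr ℝ X Y)
    refine hcl.mem_of_tendsto e1 (Filter.Eventually.of_forall fun F => ?_)
    refine Submodule.sum_mem _ (fun s _ => ?_)
    apply T.le_topologicalClosure
    rw [map_smul]
    exact Submodule.smul_mem _ _ (cz2_Y s)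
  have h3 := Submodule.add_mem _ h1 h2
  rwa [Prod.mk_add_mk, add_zero, zero_add] at h3

theorem two_Fz (hX : Amb (rowB EB) (nrB EB) eX) (hY : Amb (rowB GB) (nrB GB) eY) :
    Two (Fz eX eY) ZB 2 where
  one_le := by norm_num
  up := by
    intro x h _
    refine (Fz_up hX hY x h).trans ?_
    have h1 : 0 ≤ max (nrO x) (l2 h) := (Real.sqrt_nonneg _).trans (le_max_right _ _)
    linarith
  lo := fun x h hx => Fz_lo hX hY x h hx
  dense := Fz_dense

end Pool.Agent.UBN
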