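import Pool.Agent.UBN.Cn1
import Pool.Agent.UBN.Cn5
import Pool.Agent.UBN.Cz2
import Pool.Agent.UBN.Cw2

/-!
# The product has two inequivalent unconditional bases

`two_Fz`, `two_second`, `fam_basis` (twice), `HasUUB` applied to the two bases gives `PermEquiv`, `exists_sgm`, `no_sgm`.
-/

namespace Pool.Agent.UBN

open Finset Pool.Agent.UUB

theorem not_hasUUB_prod {X Y : Type} [NormedAddCommGroup X] [NormedSpace ℝ X] [CompleteSpace X]
    [NormedAddCommGroup Y] [NormedSpace ℝ Y] [CompleteSpace Y]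
    {eX : UnconditionalSchauderBasis (EB ⊕ ℕ) ℝ X} {eY : UnconditionalSchauderBasis (GB ⊕ ℕ) ℝ Y}
    (hX : Amb (rowB EB) (nrB EB) eX) (hY : Amb (rowB GB) (nrB GB) eY) : ¬ HasUUB ℝ (X × Y) := by
  intro h
  have h1 := two_Fz hX hY
  obtain ⟨F', h2⟩ := two_second h1
  obtain ⟨b1, s1⟩ := fam_basis h1
  obtain ⟨b2, s2⟩ := fam_basis h2
  obtain ⟨σ, C, hσ⟩ := exists_sgm h1 h2 (h.2 _ _ _ _ b1 s1 b2 s2)
  exact no_sgm hσ

end Pool.Agent.UBN
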