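import Pool.Agent.UBN.Defs

/-!
# Multiplication and restriction of finitely supported functions
-/

namespace Pool.Agent.UBN

open Finset

variable {Ω : Type} {row : Ω → Row}

theorem mul_mul (s t : Ω → ℝ) (x : Ω →₀ ℝ) : mul s (mul t x) = mul (fun ω => s ω * t ω) x := by
  ext ω
  simp only [mul_apply]
  ring

theorem mul_one' (x : Ω →₀ ℝ) : mul (fun _ => (1 : ℝ)) x = x := by
  ext ω
  simp only [mul_apply, one_mul]

theorem mul_neg_one (x : Ω →₀ ℝ) : mul (fun _ => (-1 : ℝ)) x = -x := by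
  ext ω
  simp only [mul_apply, Finsupp.neg_apply]
  ring

open Classical in
theorem res_apply (A : Set Ω) (x : Ω →₀ ℝ) (ω : Ω) : res A x ω = if ω ∈ A then x ω else 0 := by
  unfold res
  rw [mul_apply]
  split_ifs <;> simp

open Classical in
theorem rres_apply (T : Set Row) (x : Ω →₀ ℝ) (ω : Ω) :
    rres row T x ω = if row ω ∈ T then x ω else 0 := by
  unfold rres
  rw [res_apply]
  rfl

open Classical in
theorem wres_apply (I : Set ℕ) (x : Ω →₀ ℝ) (ω : Ω) :
    wres row I x ω = if (row ω).1 ∈ I then x ω else 0 := by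
  unfold wres
  rw [res_apply]
  rfl

theorem mul_res (t : Ω → ℝ) (A : Set Ω) (x : Ω →₀ ℝ) : mul t (res A x) = res A (mul t x) := by
  classical
  ext ω
  rw [mul_apply, res_apply, res_apply, mul_apply]
  split_ifs
  · rfl
  · rw [mul_zero]

theorem mul_rres (t : Ω → ℝ) (T : Set Row) (x : Ω →₀ ℝ) :
    mul t (rres row T x) = rres row T (mul t x) := by
  unfold rres
  exact mul_res t _ x

theorem res_res (A B : Set Ω) (x : Ω →₀ ℝ) : res A (res B x) = res (A ∩ B) x := by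
  classical
  ext ω
  rw [res_apply, res_apply, res_apply]
  by_cases hA : ω ∈ A <;> by_cases hB : ω ∈ B <;> simp [hA, hB]

theorem rres_rres (T T' : Set Row) (x : Ω →₀ ℝ) :
    rres row T (rres row T' x) = rres row (T ∩ T') x := by
  classical
  ext ω
  rw [rres_apply, rres_apply, rres_apply]
  by_cases hA : row ω ∈ T <;> by_cases hB : row ω ∈ T' <;> simp [hA, hB]

theorem rres_eq_self {T : Set Row} {x : Ω →₀ ℝ} (h : ∀ ω, x ω ≠ 0 → row ω ∈ T) :
    rres row T x = x := by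
  classical
  ext ω
  rw [rres_apply]
  by_cases hx : x ω = 0
  · rw [hx]; simp
  · rw [if_pos (h ω hx)]

theorem rres_eq_zero {T : Set Row} {x : Ω →₀ ℝ} (h : ∀ ω, x ω ≠ 0 → row ω ∉ T) :
    rres row T x = 0 := by
  classical
  ext ω
  rw [rres_apply]
  by_cases hx : x ω = 0
  · rw [hx]; simp
  · rw [if_neg (h ω hx)]; rfl

theorem wres_eq_self {I : Set ℕ} {x : Ω →₀ ℝ} (h : ∀ ω, x ω ≠ 0 → (row ω).1 ∈ I) :
    wres row I x = x := by
  classical
  ext ω
  rw [wres_apply]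
  by_cases hx : x ω = 0
  · rw [hx]; simp
  · rw [if_pos (h ω hx)]

theorem wres_eq_zero {I : Set ℕ} {x : Ω →₀ ℝ} (h : ∀ ω, x ω ≠ 0 → (row ω).1 ∉ I) :
    wres row I x = 0 := by
  classical
  ext ω
  rw [wres_apply]
  by_cases hx : x ω = 0
  · rw [hx]; simp
  · rw [if_neg (h ω hx)]; rfl

/-- `x` is obtained from `y` by a multiplication if it is smaller. -/
theorem exists_mul {x y : Ω →₀ ℝ} (h : ∀ ω, |x ω| ≤ |y ω|) :
    ∃ t : Ω → ℝ, (∀ ω, |t ω| ≤ 1) ∧ x = mul t y := by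
  refine ⟨fun ω => x ω / y ω, fun ω => ?_, ?_⟩
  · rw [abs_div]
    exact div_le_one_of_le₀ (h ω) (abs_nonneg _)
  · ext ω
    rw [mul_apply]
    by_cases hy : y ω = 0
    · have h1 := h ω
      rw [hy, abs_zero] at h1
      have h2 : x ω = 0 := abs_nonpos_iff.1 h1
      rw [h2, hy, mul_zero]
    · rw [div_mul_cancel₀ _ hy]

theorem Win.sum {ι : Type} {x : ι → Ω →₀ ℝ} {a b : ℕ} (A : Finset ι)
    (h : ∀ i ∈ A, Win row (x i) a b) : Win row (∑ i ∈ A, x i) a b := by
  intro ω hω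
  rw [Finsupp.finsetSum_apply] at hω
  obtain ⟨i, hi, hne⟩ := Finset.exists_ne_zero_of_sum_ne_zero hω
  exact h i hi ω hne

theorem Win.smul {x : Ω →₀ ℝ} {a b : ℕ} (h : Win row x a b) (c : ℝ) : Win row (c • x) a b := by
  intro ω hω
  refine h ω ?_
  intro h0
  apply hω
  rw [Finsupp.smul_apply, h0, smul_zero]

theorem Win.add {x y : Ω →₀ ℝ} {a b : ℕ} (h : Win row x a b) (h' : Win row y a b) :
    Win row (x + y) a b := by
  intro ω hω
  by_cases h0 : x ω = 0
  · refine h' ω ?_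
    intro h1
    apply hω
    rw [Finsupp.add_apply, h0, h1, add_zero]
  · exact h ω h0

theorem Win.mono {x : Ω →₀ ℝ} {a b a' b' : ℕ} (h : Win row x a b) (ha : a' ≤ a) (hb : b ≤ b') :
    Win row x a' b' := by
  intro ω hω
  obtain ⟨h1, h2⟩ := h ω hω
  exact ⟨ha.trans h1, h2.trans_le hb⟩

/-- Combination of blocks in a window interval. -/
theorem Win.block {x : ℕ → Ω →₀ ℝ} {a : ℕ → ℕ} (ha : Monotone a)
    (h : ∀ l, Win row (x l) (a l) (a (l + 1))) (t : ℕ → ℝ) {l l' : ℕ} (hl : l ≤ l') :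
    Win row (∑ i ∈ Ico l l', t i • x i) (a l) (a l') := by
  refine Win.sum _ (fun i hi => ?_)
  rw [Finset.mem_Ico] at hi
  exact ((h i).smul (t i)).mono (ha hi.1) (ha hi.2)

end Pool.Agent.UBN
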