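import Pool.Agent.UBN.Defs3
import Pool.Agent.UBN.Mul

/-!
# The basis `e` of the ambient space

* `norm_emb`, `norm_embH`: `norm_eq` with `y = 0`, `x = 0` (`nr 0 = 0` by `smul`, `l2 0 = 0`).
* `norm_mulOp_e`: for a finite set `F` of coordinates `‖∑ s ∈ F, t s • c s • e s‖ ≤ ‖∑ s ∈ F, c s • e s‖`
  by `norm_eq`, `RigN.mono` and monotonicity of `l2`; pass to the limit (`hasSum_mulOp`, `expansion`).
-/

namespace Pool.Agent.UBN

open Pool.Agent.UUB

variable {Ω : Type} {W : Type} [NormedAddCommGroup W] [NormedSpace ℝ W] [CompleteSpace W]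
  {row : Ω → Row} {nr : (Ω →₀ ℝ) → ℝ} {e : UnconditionalSchauderBasis (Ω ⊕ ℕ) ℝ W}

/-- The vector with given finitely many coordinates in `Ω`. -/
noncomputable def emb (e : UnconditionalSchauderBasis (Ω ⊕ ℕ) ℝ W) : (Ω →₀ ℝ) →ₗ[ℝ] W :=
  Finsupp.linearCombination ℝ (fun ω => e (Sum.inl ω))

/-- The vector with given finitely many coordinates in the Hilbert part. -/
noncomputable def embH (e : UnconditionalSchauderBasis (Ω ⊕ ℕ) ℝ W) : (ℕ →₀ ℝ) →ₗ[ℝ] W :=
  Finsupp.linearCombination ℝ (fun m => e (Sum.inr m))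

omit [CompleteSpace W] in
private theorem a0_nr_zero (hA : Amb row nr e) : nr 0 = 0 := by
  have h := hA.rig.smul 0 0
  rwa [zero_smul, abs_zero, zero_mul] at h

omit [CompleteSpace W] in
private theorem a0_nr_nonneg (hA : Amb row nr e) (x : Ω →₀ ℝ) : 0 ≤ nr x := by
  by_cases hx : x = 0
  · rw [hx, a0_nr_zero hA]
  · exact (hA.rig.pos x hx).le

private theorem a0_l2_zero {α : Type} : l2 (0 : α →₀ ℝ) = 0 := by
  simp [l2]

private theorem a0_l2_nonneg {α : Type} (x : α →₀ ℝ) : 0 ≤ l2 x := Real.sqrt_nonneg _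

private theorem a0_l2_single {α : Type} (a : α) : l2 (Finsupp.single a (1 : ℝ)) = 1 := by
  unfold l2
  rw [Finsupp.support_single_ne_zero a one_ne_zero, Finset.sum_singleton, Finsupp.single_eq_same]
  simp

private theorem a0_l2_mono {α : Type} {x y : α →₀ ℝ} (h : ∀ a, |x a| ≤ |y a|) : l2 x ≤ l2 y := by
  unfold l2
  refine Real.sqrt_le_sqrt ?_
  calc ∑ a ∈ x.support, x a ^ 2 ≤ ∑ a ∈ x.support, y a ^ 2 :=
        Finset.sum_le_sum (fun a _ => sq_le_sq.2 (h a))
    _ ≤ ∑ a ∈ y.support, y a ^ 2 := by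
        refine Finset.sum_le_sum_of_subset_of_nonneg ?_ (fun a _ _ => sq_nonneg _)
        intro a ha
        rw [Finsupp.mem_support_iff] at ha ⊢
        intro h0
        apply ha
        have h1 := h a
        rw [h0, abs_zero] at h1
        exact abs_nonpos_iff.1 h1

omit [CompleteSpace W] in
private theorem a0_same (s : Ω ⊕ ℕ) : e.coord s (e s) = 1 := by
  classical
  rw [e.ortho]
  simp

omit [CompleteSpace W] in
private theorem a0_ne {s s' : Ω ⊕ ℕ} (h : s ≠ s') : e.coord s (e s') = 0 := by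
  classical
  rw [e.ortho]
  simp [h]

theorem norm_emb (hA : Amb row nr e) (x : Ω →₀ ℝ) : ‖emb e x‖ = nr x := by
  have h := hA.norm_eq x 0
  rw [Finsupp.sum_zero_index, add_zero, a0_l2_zero, max_eq_left (a0_nr_nonneg hA x)] at h
  exact h

theorem norm_embH (hA : Amb row nr e) (y : ℕ →₀ ℝ) : ‖embH e y‖ = l2 y := by
  have h := hA.norm_eq 0 y
  rw [Finsupp.sum_zero_index, zero_add, a0_nr_zero hA, max_eq_right (a0_l2_nonneg y)] at h
  exact h

theorem coord_emb_inl (x : Ω →₀ ℝ) (ω : Ω) : e.coord (Sum.inl ω) (emb e x) = x ω := by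
  classical
  unfold emb
  rw [Finsupp.linearCombination_apply, Finsupp.sum, map_sum]
  rw [Finset.sum_eq_single ω]
  · rw [map_smul, a0_same, smul_eq_mul, mul_one]
  · intro ω' _ hne
    rw [map_smul, a0_ne (fun h => hne (Sum.inl_injective h).symm), smul_zero]
  · intro h
    rw [Finsupp.notMem_support_iff.1 h, zero_smul, map_zero]

theorem coord_emb_inr (x : Ω →₀ ℝ) (m : ℕ) : e.coord (Sum.inr m) (emb e x) = 0 := by
  unfold emb
  rw [Finsupp.linearCombination_apply, Finsupp.sum, map_sum]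
  refine Finset.sum_eq_zero (fun ω _ => ?_)
  rw [map_smul, a0_ne (by simp), smul_zero]

theorem coord_embH_inr (y : ℕ →₀ ℝ) (m : ℕ) : e.coord (Sum.inr m) (embH e y) = y m := by
  classical
  unfold embH
  rw [Finsupp.linearCombination_apply, Finsupp.sum, map_sum]
  rw [Finset.sum_eq_single m]
  · rw [map_smul, a0_same, smul_eq_mul, mul_one]
  · intro m' _ hne
    rw [map_smul, a0_ne (fun h => hne (Sum.inr_injective h).symm), smul_zero]
  · intro h
    rw [Finsupp.notMem_support_iff.1 h, zero_smul, map_zero]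

theorem coord_embH_inl (y : ℕ →₀ ℝ) (ω : Ω) : e.coord (Sum.inl ω) (embH e y) = 0 := by
  unfold embH
  rw [Finsupp.linearCombination_apply, Finsupp.sum, map_sum]
  refine Finset.sum_eq_zero (fun m _ => ?_)
  rw [map_smul, a0_ne (by simp), smul_zero]

theorem exists_emb {A : Set (Ω ⊕ ℕ)} (hf : A.Finite) (hX : A ⊆ XS Ω) {w : W} (hw : S e A w = w) :
    ∃ x : Ω →₀ ℝ, emb e x = w := by
  refine ⟨∑ s ∈ hf.toFinset, Sum.elim (fun ω => Finsupp.single ω (e.coord s w)) (fun _ => 0) s, ?_⟩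
  have h1 : w = ∑ s ∈ hf.toFinset, e.coord s w • e s := by
    have h2 := S_finset e hf.toFinset
    rw [hf.coe_toFinset] at h2
    conv_lhs => rw [← hw, h2, sum_apply]
    refine Finset.sum_congr rfl (fun s _ => ?_)
    rw [UUB.R_apply]
  conv_rhs => rw [h1]
  rw [map_sum]
  refine Finset.sum_congr rfl (fun s hs => ?_)
  obtain ⟨ω, rfl⟩ := hX (hf.mem_toFinset.1 hs)
  simp [emb]

theorem exists_embH {A : Set (Ω ⊕ ℕ)} (hf : A.Finite) (hX : A ⊆ HS Ω) {w : W} (hw : S e A w = w) :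
    ∃ y : ℕ →₀ ℝ, embH e y = w := by
  refine ⟨∑ s ∈ hf.toFinset, Sum.elim (fun _ => 0) (fun m => Finsupp.single m (e.coord s w)) s, ?_⟩
  have h1 : w = ∑ s ∈ hf.toFinset, e.coord s w • e s := by
    have h2 := S_finset e hf.toFinset
    rw [hf.coe_toFinset] at h2
    conv_lhs => rw [← hw, h2, sum_apply]
    refine Finset.sum_congr rfl (fun s _ => ?_)
    rw [UUB.R_apply]
  conv_rhs => rw [h1]
  rw [map_sum]
  refine Finset.sum_congr rfl (fun s hs => ?_)
  obtain ⟨m, rfl⟩ := hX (hf.mem_toFinset.1 hs)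
  simp [embH]

open Classical in
private theorem a0_norm_sum (hA : Amb row nr e) (F : Finset (Ω ⊕ ℕ)) (c : Ω ⊕ ℕ → ℝ) :
    ∃ (x : Ω →₀ ℝ) (y : ℕ →₀ ℝ), ‖∑ s ∈ F, c s • e s‖ = max (nr x) (l2 y) ∧
      (∀ ω, |x ω| = if Sum.inl ω ∈ F then |c (Sum.inl ω)| else 0) ∧
      (∀ m, |y m| = if Sum.inr m ∈ F then |c (Sum.inr m)| else 0) := by
  let z : Ω ⊕ ℕ →₀ ℝ := Finsupp.onFinset F (fun s => if s ∈ F then c s else 0) (by
    intro s hs
    by_contra h
    simp [h] at hs)
  have hz : ∀ s, z s = if s ∈ F then c s else 0 := fun s => rfl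
  let x : Ω →₀ ℝ := z.comapDomain Sum.inl Sum.inl_injective.injOn
  let y : ℕ →₀ ℝ := z.comapDomain Sum.inr Sum.inr_injective.injOn
  have hx : ∀ ω, x ω = z (Sum.inl ω) := fun ω => Finsupp.comapDomain_apply _ _ _ _
  have hy : ∀ m, y m = z (Sum.inr m) := fun m => Finsupp.comapDomain_apply _ _ _ _
  have hsum : ∀ s, e.coord s (∑ s ∈ F, c s • e s) = z s := by
    intro s
    rw [map_sum, hz]
    by_cases hs : s ∈ F
    · rw [Finset.sum_eq_single s]
      · rw [map_smul, a0_same, smul_eq_mul, mul_one, if_pos hs]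
      · intro s' _ hne
        rw [map_smul, a0_ne hne.symm, smul_zero]
      · intro h
        exact absurd hs h
    · rw [if_neg hs]
      refine Finset.sum_eq_zero (fun s' hs' => ?_)
      have hne : s ≠ s' := by
        intro h
        rw [h] at hs
        exact hs hs'
      rw [map_smul, a0_ne hne, smul_zero]
  have h1 : ∑ s ∈ F, c s • e s = emb e x + embH e y := by
    refine ext_coord e fun s => ?_
    rw [hsum, map_add]
    rcases s with ω | m
    · rw [coord_emb_inl, coord_embH_inl, add_zero, hx]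
    · rw [coord_emb_inr, coord_embH_inr, zero_add, hy]
  refine ⟨x, y, ?_, ?_, ?_⟩
  · rw [h1]
    exact hA.norm_eq x y
  · intro ω
    rw [hx, hz]
    split_ifs <;> simp
  · intro m
    rw [hy, hz]
    split_ifs <;> simp

private theorem a0_fin_le (hA : Amb row nr e) (F : Finset (Ω ⊕ ℕ)) (t c : Ω ⊕ ℕ → ℝ)
    (ht : ∀ s, |t s| ≤ 1) : ‖∑ s ∈ F, (t s * c s) • e s‖ ≤ ‖∑ s ∈ F, c s • e s‖ := by
  classical
  obtain ⟨x, y, h1, h2, h3⟩ := a0_norm_sum hA F (fun s => t s * c s)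
  obtain ⟨x', y', h1', h2', h3'⟩ := a0_norm_sum hA F c
  have hle : ∀ s, |t s * c s| ≤ |c s| := by
    intro s
    rw [abs_mul]
    exact mul_le_of_le_one_left (abs_nonneg _) (ht s)
  rw [h1, h1']
  refine max_le_max (hA.rig.mono x x' (fun ω => ?_)) (a0_l2_mono (fun m => ?_))
  · rw [h2, h2']
    split_ifs
    · exact hle _
    · exact le_rfl
  · rw [h3, h3']
    split_ifs
    · exact hle _
    · exact le_rfl

theorem norm_mulOp_e (hA : Amb row nr e) (t : Ω ⊕ ℕ → ℝ) (ht : ∀ s, |t s| ≤ 1) :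
    ‖mulOp e t‖ ≤ 1 := by
  have hb : Bdd t := ⟨1, fun s => by rw [Real.norm_eq_abs]; exact ht s⟩
  refine ContinuousLinearMap.opNorm_le_bound _ zero_le_one (fun w => ?_)
  rw [one_mul]
  have h1 := (hasSum_mulOp e hb w).norm
  have h2 : Filter.Tendsto (fun F : Finset (Ω ⊕ ℕ) => ‖∑ s ∈ F, e.coord s w • e s‖) Filter.atTop
      (nhds ‖w‖) := (e.expansion w).norm
  exact le_of_tendsto_of_tendsto' h1 h2 (fun F => a0_fin_le hA F t (fun s => e.coord s w) ht)

theorem norm_S_e (hA : Amb row nr e) (A : Set (Ω ⊕ ℕ)) : ‖S e A‖ ≤ 1 := by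
  classical
  unfold S
  refine norm_mulOp_e hA _ (fun s => ?_)
  rw [Set.indicator_apply]
  split_ifs <;> simp

theorem norm_e (hA : Amb row nr e) (s : Ω ⊕ ℕ) : ‖e s‖ = 1 := by
  rcases s with ω | m
  · have h1 : e (Sum.inl ω) = emb e (Finsupp.single ω 1) := by simp [emb]
    rw [h1, norm_emb hA, hA.rig.single (row ω) (Finsupp.single ω 1), a0_l2_single]
    intro ω' h
    classical
    rw [Finsupp.single_apply] at h
    by_cases h2 : ω = ω'
    · rw [h2]
    · rw [if_neg h2] at h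
      exact absurd rfl h
  · have h1 : e (Sum.inr m) = embH e (Finsupp.single m 1) := by simp [embH]
    rw [h1, norm_embH hA, a0_l2_single]

theorem abs_coord_e (hA : Amb row nr e) (s : Ω ⊕ ℕ) (w : W) : |e.coord s w| ≤ ‖w‖ := by
  have h1 : S e ({s} : Set (Ω ⊕ ℕ)) = R e s := by
    have := S_finset e ({s} : Finset (Ω ⊕ ℕ))
    rwa [Finset.coe_singleton, Finset.sum_singleton] at this
  have h2 : ‖S e ({s} : Set (Ω ⊕ ℕ)) w‖ ≤ 1 * ‖w‖ :=
    ((S e ({s} : Set (Ω ⊕ ℕ))).le_opNorm w).trans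
      (mul_le_mul_of_nonneg_right (norm_S_e hA _) (norm_nonneg _))
  rw [h1, UUB.R_apply, norm_smul, norm_e hA, mul_one, Real.norm_eq_abs, one_mul] at h2
  exact h2

theorem finite_winS (hA : Amb row nr e) (a a' : ℕ) : (winS row a a').Finite := by
  have h1 : (⋃ n ∈ Finset.range a', {ω | (row ω).1 = n}).Finite :=
    Set.Finite.biUnion (Finset.finite_toSet _) (fun n _ => hA.rig.fin n)
  refine ((h1.image Sum.inl).union ((Set.finite_Iio a').image Sum.inr)).subset ?_
  intro s hs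
  rcases s with ω | m
  · refine Or.inl ⟨ω, ?_, rfl⟩
    rw [Set.mem_iUnion₂]
    exact ⟨(row ω).1, Finset.mem_range.2 hs.2, rfl⟩
  · exact Or.inr ⟨m, hs.2, rfl⟩

theorem finite_rowS (hA : Amb row nr e) (k : Row) : (rowS row k).Finite := by
  refine (finite_winS hA k.1 (k.1 + 1)).subset ?_
  rintro s ⟨ω, rfl, rfl⟩
  exact ⟨le_rfl, Nat.lt_succ_self _⟩

/-- A vector whose coordinates vanish outside `A` is fixed by `S e A` (and conversely). -/
theorem S_e_eq_iff (A : Set (Ω ⊕ ℕ)) (w : W) :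
    S e A w = w ↔ ∀ s, s ∉ A → e.coord s w = 0 := by
  constructor
  · intro h s hs
    rw [← h]
    exact coord_S_notMem e hs w
  · intro h
    refine ext_coord e fun s => ?_
    by_cases hs : s ∈ A
    · exact coord_S_mem e hs w
    · rw [coord_S_notMem e hs, h s hs]

/-- In a row the norm is euclidean: the parallelogram law in mean. -/
theorem norm_sq_row (hA : Amb row nr e) {k : Row} {w : W} (hw : S e (rowS row k) w = w) :
    ‖w‖ ^ 2 = ∑ s ∈ (finite_rowS hA k).toFinset, e.coord s w ^ 2 := by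
  classical
  have hX : rowS row k ⊆ XS Ω := by
    rintro s ⟨ω, rfl, -⟩
    exact ⟨ω, rfl⟩
  have hc := (S_e_eq_iff (rowS row k) w).1 hw
  obtain ⟨x, hx⟩ := exists_emb (finite_rowS hA k) hX hw
  have hxc : ∀ ω, e.coord (Sum.inl ω) w = x ω := fun ω => by rw [← hx, coord_emb_inl]
  have hsupp : ∀ ω, x ω ≠ 0 → row ω = k := by
    intro ω hω
    by_contra h
    apply hω
    rw [← hxc]
    refine hc _ ?_
    rintro ⟨ω', h1, h2⟩
    rw [Sum.inl_injective h1] at h
    exact h h2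
  have h1 : ‖w‖ = l2 x := by
    rw [← hx, norm_emb hA, hA.rig.single k x hsupp]
  have h2 : ∑ s ∈ (finite_rowS hA k).toFinset, e.coord s w ^ 2 =
      ∑ s ∈ x.support.map ⟨Sum.inl, Sum.inl_injective⟩, e.coord s w ^ 2 := by
    symm
    refine Finset.sum_subset ?_ ?_
    · intro s hs
      obtain ⟨ω, hω, rfl⟩ := Finset.mem_map.1 hs
      rw [Set.Finite.mem_toFinset]
      exact ⟨ω, rfl, hsupp ω (Finsupp.mem_support_iff.1 hω)⟩
    · intro s hs hs'
      rw [Set.Finite.mem_toFinset] at hs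
      obtain ⟨ω, rfl, hω⟩ := hs
      rw [hxc]
      by_cases h0 : x ω = 0
      · rw [h0]; simp
      · exact absurd (Finset.mem_map.2 ⟨ω, Finsupp.mem_support_iff.2 h0, rfl⟩) hs'
  rw [h2, Finset.sum_map, h1]
  unfold l2
  rw [Real.sq_sqrt (Finset.sum_nonneg (fun _ _ => sq_nonneg _))]
  refine Finset.sum_congr rfl (fun ω _ => ?_)
  show x ω ^ 2 = e.coord (Sum.inl ω) w ^ 2
  rw [hxc]

end Pool.Agent.UBN
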