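import Pool.Agent.UBN.Nod

/-!
# Averages

`node_est` with `A = range n`, `γ = 2`, `α = 0`, `β i = 2` (`h1`, `h2` from `nrm (z i) ≤ 2`) gives
`|φ (∑ z i)| ≤ 2 nn q + 2 n / mm q`; divide by `n ≥ mm q * nn q`.
(Extend `z` by `0` beyond `n`.)
-/

namespace Pool.Agent.UBN

open Finset

variable {Ω : Type} {row : Ω → Row} {N : ℕ → (Ω →₀ ℝ) → ℝ}

theorem avg_est (hN : Inner row N) {a : ℕ → ℕ} (ha : Monotone a) {z : ℕ → Ω →₀ ℝ} {n : ℕ}
    (hn : 0 < n) (hz : ∀ i < n, Win row (z i) (a i) (a (i + 1)))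
    (h2 : ∀ i < n, nrm row N (z i) ≤ 2) {q : ℕ} (hq : 0 < q) (hqn : mm q * nn q ≤ n)
    {φ : (Ω →₀ ℝ) →ₗ[ℝ] ℝ} (hφ : W row N q φ) :
    |φ ((1 / (n : ℝ)) • ∑ i ∈ range n, z i)| ≤ 4 / mm q := by
  have hm : (0 : ℝ) < mm q := by
    have := two_le_mm q
    exact_mod_cast (by omega : 0 < mm q)
  have hn' : (0 : ℝ) < n := by exact_mod_cast hn
  set x : ℕ → Ω →₀ ℝ := fun i => if i < n then z i else 0 with hxdef
  have hxi : ∀ i < n, x i = z i := fun i hi => by simp [hxdef, hi]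
  have hx0 : ∀ i, ¬ i < n → x i = 0 := fun i hi => by simp [hxdef, hi]
  have hW : ∀ i, Win row (x i) (a i) (a (i + 1)) := by
    intro i
    by_cases hi : i < n
    · rw [hxi i hi]; exact hz i hi
    · rw [hx0 i hi]
      intro ω h
      exact absurd rfl h
  have hb : ∀ r ψ, W row N r ψ → ∀ i ∈ range n, |ψ (x i)| ≤ 2 := by
    intro r ψ hψ i hi
    rw [Finset.mem_range] at hi
    rw [hxi i hi]
    exact le_trans (le_nrm hN hψ _) (h2 i hi)
  have hkey := node_est hN ha hW hq hφ (range n) (α := 0) (γ := 2) (β := fun _ => 2) le_rfl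
    (fun _ => by norm_num) (by norm_num) (by
      intro r ψ hψ A' hA'
      rw [map_sum, zero_add]
      refine le_trans (Finset.abs_sum_le_sum_abs _ _) ?_
      exact Finset.sum_le_sum (fun i hi => hb r ψ hψ i (hA' hi))) (hb q φ hφ)
  have hsum : ∑ i ∈ range n, x i = ∑ i ∈ range n, z i :=
    Finset.sum_congr rfl (fun i hi => hxi i (Finset.mem_range.mp hi))
  rw [hsum, Finset.sum_const, Finset.card_range, nsmul_eq_mul, mul_zero, zero_add] at hkey
  rw [map_smul, smul_eq_mul, abs_mul, abs_of_pos (by positivity : (0 : ℝ) < 1 / n)]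
  have hqn' : (mm q : ℝ) * nn q ≤ n := by exact_mod_cast hqn
  calc 1 / (n : ℝ) * |φ (∑ i ∈ range n, z i)|
      ≤ 1 / (n : ℝ) * (nn q * 2 + 1 / (mm q : ℝ) * (n * 2)) :=
        mul_le_mul_of_nonneg_left hkey (by positivity)
    _ = 2 * nn q / n + 2 / mm q := by field_simp
    _ ≤ 2 / mm q + 2 / mm q := by
        have : 2 * (nn q : ℝ) / n ≤ 2 / mm q := by
          rw [div_le_div_iff₀ hn' hm]
          nlinarith
        linarith
    _ = 4 / mm q := by ring

end Pool.Agent.UBN
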