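import Pool.Agent.UBN.Defs3
import Pool.Agent.UUB.CTS

/-!
# The basis `b`

* `norm_S_b`: `S b A = mulOp b (indicator)`.
* `abs_coord_b`: `mulOp b (indicator {i}) w = b.coord i w • b i`.
* `small_tail`: `tendsto_S_compl`: choose `F` with `‖S b Fᶜ w‖ ≤ η / K`; for `A` disjoint from `F`:
  `S b A w = S b A (S b Fᶜ w)` (`S_mul_S`).
* `S_trunc`: `F' = F ∩ A` with `F` from `small_tail`.
-/

namespace Pool.Agent.UBN

open Pool.Agent.UUB

variable {I : Type} {W : Type} [NormedAddCommGroup W] [NormedSpace ℝ W] [CompleteSpace W]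
  {b : UnconditionalSchauderBasis I ℝ W} {K : ℝ}

theorem norm_S_b (hb : MB b K) (A : Set I) : ‖S b A‖ ≤ K := by
  classical
  unfold S
  refine hb.bd _ (fun i => ?_)
  rw [Set.indicator_apply]
  split_ifs <;> simp

theorem abs_coord_b (hb : MB b K) (i : I) (w : W) : |b.coord i w| ≤ K * ‖w‖ := by
  have h1 : S b ({i} : Set I) = R b i := by
    have := S_finset b ({i} : Finset I)
    rwa [Finset.coe_singleton, Finset.sum_singleton] at this
  have h2 : ‖S b ({i} : Set I) w‖ ≤ K * ‖w‖ :=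
    ((S b ({i} : Set I)).le_opNorm w).trans
      (mul_le_mul_of_nonneg_right (norm_S_b hb _) (norm_nonneg _))
  rw [h1, UUB.R_apply, norm_smul, hb.nm, mul_one, Real.norm_eq_abs] at h2
  exact h2

theorem small_tail (hb : MB b K) (w : W) {η : ℝ} (hη : 0 < η) :
    ∃ F : Finset I, ∀ A : Set I, Disjoint A (F : Set I) → ‖S b A w‖ ≤ η := by
  have hK : 0 < K := lt_of_lt_of_le one_pos hb.one_le
  have h1 := (tendsto_S_compl b w).norm
  rw [norm_zero] at h1
  have h2 := h1.eventually (gt_mem_nhds (show (0 : ℝ) < η / K by positivity))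
  obtain ⟨F, hF⟩ := h2.exists
  refine ⟨F, fun A hA => ?_⟩
  have h3 : S b A * S b ((F : Set I)ᶜ) = S b A := by
    rw [S_mul_S]
    congr 1
    exact Set.inter_eq_left.2 hA.subset_compl_right
  have h4 : S b A w = S b A (S b ((F : Set I)ᶜ) w) := by
    rw [← mul_apply_eq_comp, h3]
  rw [h4]
  calc ‖S b A (S b ((F : Set I)ᶜ) w)‖ ≤ ‖S b A‖ * ‖S b ((F : Set I)ᶜ) w‖ :=
        (S b A).le_opNorm _
    _ ≤ K * (η / K) := mul_le_mul (norm_S_b hb _) hF.le (norm_nonneg _) hK.le
    _ = η := by field_simp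

private theorem b0_union {A B : Set I} (h : Disjoint A B) : S b (A ∪ B) = S b A + S b B := by
  classical
  refine ContinuousLinearMap.ext fun w => ext_coord b fun j => ?_
  rw [add_apply, map_add]
  by_cases hA : j ∈ A
  · have hB : j ∉ B := Set.disjoint_left.1 h hA
    rw [coord_S_mem b (Or.inl hA), coord_S_mem b hA, coord_S_notMem b hB, add_zero]
  · by_cases hB : j ∈ B
    · rw [coord_S_mem b (Or.inr hB), coord_S_mem b hB, coord_S_notMem b hA, zero_add]
    · rw [coord_S_notMem b hA, coord_S_notMem b hB,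
        coord_S_notMem b (fun hx => hx.elim hA hB), add_zero]

theorem S_trunc (hb : MB b K) (A : Set I) (w : W) {η : ℝ} (hη : 0 < η) :
    ∃ F : Finset I, (F : Set I) ⊆ A ∧ ‖S b A w - S b (F : Set I) w‖ ≤ η := by
  classical
  obtain ⟨F, hF⟩ := small_tail hb w hη
  refine ⟨F.filter (· ∈ A), fun x hx => (Finset.mem_filter.1 (Finset.mem_coe.1 hx)).2, ?_⟩
  have h1 : S b A = S b (A \ (F : Set I)) + S b ((F.filter (· ∈ A) : Finset I) : Set I) := by
    rw [← b0_union]
    · congr 1
      ext x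
      simp only [Finset.coe_filter, Set.mem_union, Set.mem_sdiff, Finset.mem_coe, Set.mem_ofPred_eq]
      tauto
    · rw [Set.disjoint_left]
      intro x hx hx'
      exact hx.2 (Finset.mem_coe.2 (Finset.mem_filter.1 (Finset.mem_coe.1 hx')).1)
  rw [h1, add_apply, add_sub_cancel_right]
  exact hF _ Set.disjoint_sdiff_left

/-- Splitting off a finite set `F` of indices. -/
theorem S_split (A : Set I) (F : Finset I) (w : W) [DecidablePred (· ∈ A)] :
    S b A w = S b (A \ (F : Set I)) w + ∑ i ∈ F.filter (· ∈ A), b.coord i w • b i := by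
  have h1 : S b A = S b (A \ (F : Set I)) + S b ((F.filter (· ∈ A) : Finset I) : Set I) := by
    rw [← b0_union]
    · congr 1
      ext x
      simp only [Finset.coe_filter, Set.mem_union, Set.mem_sdiff, Finset.mem_coe, Set.mem_ofPred_eq]
      tauto
    · rw [Set.disjoint_left]
      intro x hx hx'
      exact hx.2 (Finset.mem_coe.2 (Finset.mem_filter.1 (Finset.mem_coe.1 hx')).1)
  rw [h1, add_apply, S_finset, sum_apply]
  simp only [UUB.R_apply]

/-- Domination with multipliers: `|θ i| ≤ C` on `F`. -/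
theorem sum_mul_le (hb : MB b K) (F : Finset I) (c θ : I → ℝ) {C : ℝ} (hC : 0 ≤ C)
    (hθ : ∀ i ∈ F, |θ i| ≤ C) :
    ‖∑ i ∈ F, (θ i * c i) • b i‖ ≤ K * C * ‖∑ i ∈ F, c i • b i‖ := by
  classical
  have hK : 0 < K := lt_of_lt_of_le one_pos hb.one_le
  rcases eq_or_lt_of_le hC with h0 | h0
  · have h1 : ∑ i ∈ F, (θ i * c i) • b i = 0 := by
      refine Finset.sum_eq_zero (fun i hi => ?_)
      have h2 := hθ i hi
      rw [← h0] at h2
      have h3 : θ i = 0 := abs_nonpos_iff.1 h2
      rw [h3, zero_mul, zero_smul]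
    rw [h1, norm_zero]
    positivity
  · let θ' : I → ℝ := fun i => if i ∈ F then θ i / C else 0
    have hθ' : ∀ i, |θ' i| ≤ 1 := by
      intro i
      simp only [θ']
      split_ifs with hi
      · rw [abs_div, abs_of_pos h0, div_le_one h0]
        exact hθ i hi
      · simp
    have hbd : Bdd θ' := ⟨1, fun i => by rw [Real.norm_eq_abs]; exact hθ' i⟩
    have h1 : ∑ i ∈ F, (θ i * c i) • b i = C • mulOp b θ' (∑ i ∈ F, c i • b i) := by
      rw [map_sum, Finset.smul_sum]
      refine Finset.sum_congr rfl (fun i hi => ?_)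
      rw [map_smul, mulOp_basis b hbd, smul_smul, smul_smul]
      congr 1
      simp only [θ', if_pos hi]
      field_simp
    rw [h1, norm_smul, Real.norm_eq_abs, abs_of_pos h0]
    have h2 := ((mulOp b θ').le_opNorm (∑ i ∈ F, c i • b i)).trans
      (mul_le_mul_of_nonneg_right (hb.bd θ' hθ') (norm_nonneg _))
    calc C * ‖mulOp b θ' (∑ i ∈ F, c i • b i)‖ ≤ C * (K * ‖∑ i ∈ F, c i • b i‖) :=
          mul_le_mul_of_nonneg_left h2 h0.le
      _ = K * C * ‖∑ i ∈ F, c i • b i‖ := by ring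

end Pool.Agent.UBN
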