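import Mathlib

/-!
# Sign averaging

`∑ i, v i i` is the average over all sign vectors `ε ∈ {±1}^F` of `∑ i, ∑ j, (ε i * ε j) • v i j`.
(For instance: induction on `F`: choose the sign of the new element `a` as the better one of
`±1`; the terms with `ε a` occur linearly, `ε a * ε a = 1`.  The convexity argument: if
`‖X + Y‖ ≤ C` and `‖X - Y‖ ≤ C` then `‖X‖ ≤ C`.)
-/

namespace Pool.Agent.UBN

open Finset

private theorem sg_convex {V : Type} [NormedAddCommGroup V] [NormedSpace ℝ V] (X Y : V) {C : ℝ}
    (h1 : ‖X + Y‖ ≤ C) (h2 : ‖X - Y‖ ≤ C) : ‖X‖ ≤ C := by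
  have h3 : (2 : ℝ) • X = (X + Y) + (X - Y) := by rw [two_smul]; abel
  have h4 : ‖(2 : ℝ) • X‖ ≤ 2 * C := by
    rw [h3]
    calc ‖(X + Y) + (X - Y)‖ ≤ ‖X + Y‖ + ‖X - Y‖ := norm_add_le _ _
      _ ≤ 2 * C := by linarith
  rw [norm_smul, Real.norm_eq_abs, abs_of_pos (by norm_num : (0 : ℝ) < 2)] at h4
  linarith

private theorem sg_aux {ι V : Type} [NormedAddCommGroup V] [NormedSpace ℝ V] (v : ι → ι → V)
    {C : ℝ} (F : Finset ι) : ∀ w : V, (∀ ε : ι → ℝ, (∀ i, ε i = 1 ∨ ε i = -1) →
      ‖w + ∑ i ∈ F, ∑ j ∈ F, (ε i * ε j) • v i j‖ ≤ C) → ‖w + ∑ i ∈ F, v i i‖ ≤ C := by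
  classical
  induction F using Finset.induction_on with
  | empty =>
    intro w h
    simpa using h (fun _ => 1) (fun _ => Or.inl rfl)
  | insert a F ha ih =>
    intro w h
    rw [Finset.sum_insert ha, ← add_assoc]
    apply ih
    intro ε hε
    have key : ∀ s : ℝ, (s = 1 ∨ s = -1) →
        ‖(w + v a a + ∑ i ∈ F, ∑ j ∈ F, (ε i * ε j) • v i j) +
          s • ∑ j ∈ F, ε j • (v a j + v j a)‖ ≤ C := by
      intro s hs
      have hε' : ∀ i, (Function.update ε a s) i = 1 ∨ (Function.update ε a s) i = -1 := by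
        intro i
        by_cases hi : i = a
        · subst hi
          rw [Function.update_self]
          exact hs
        · rw [Function.update_of_ne hi]
          exact hε i
      have h1 := h (Function.update ε a s) hε'
      have hne : ∀ i ∈ F, Function.update ε a s i = ε i := by
        intro i hi
        apply Function.update_of_ne
        rintro rfl
        exact ha hi
      have hss : s * s = 1 := by rcases hs with rfl | rfl <;> norm_num
      have h2 : ∑ i ∈ insert a F, ∑ j ∈ insert a F,
          (Function.update ε a s i * Function.update ε a s j) • v i j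
          = v a a + (∑ i ∈ F, ∑ j ∈ F, (ε i * ε j) • v i j) +
            s • ∑ j ∈ F, ε j • (v a j + v j a) := by
        rw [Finset.sum_insert ha, Finset.sum_insert ha, Function.update_self, hss, one_smul]
        have e1 : ∑ x ∈ F, (s * Function.update ε a s x) • v a x = s • ∑ x ∈ F, ε x • v a x := by
          rw [Finset.smul_sum]
          apply Finset.sum_congr rfl
          intro i hi
          rw [hne i hi, smul_smul]
        have e2 : ∑ x ∈ F, ∑ j ∈ insert a F,
            (Function.update ε a s x * Function.update ε a s j) • v x j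
            = s • ∑ x ∈ F, ε x • v x a + ∑ x ∈ F, ∑ j ∈ F, (ε x * ε j) • v x j := by
          rw [Finset.smul_sum, ← Finset.sum_add_distrib]
          apply Finset.sum_congr rfl
          intro i hi
          rw [Finset.sum_insert ha, Function.update_self, hne i hi, smul_smul, mul_comm (ε i) s]
          congr 1
          apply Finset.sum_congr rfl
          intro j hj
          rw [hne j hj]
        rw [e1, e2]
        have e3 : ∑ j ∈ F, ε j • (v a j + v j a) = ∑ x ∈ F, ε x • v a x + ∑ x ∈ F, ε x • v x a := by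
          rw [← Finset.sum_add_distrib]
          apply Finset.sum_congr rfl
          intro j _
          rw [smul_add]
        rw [e3, smul_add]
        abel
      rw [h2] at h1
      have h3 : (w + v a a + ∑ i ∈ F, ∑ j ∈ F, (ε i * ε j) • v i j) +
          s • ∑ j ∈ F, ε j • (v a j + v j a) = w + (v a a +
            (∑ i ∈ F, ∑ j ∈ F, (ε i * ε j) • v i j) + s • ∑ j ∈ F, ε j • (v a j + v j a)) := by
        abel
      rw [h3]
      exact h1
    apply sg_convex _ (∑ j ∈ F, ε j • (v a j + v j a))
    · have := key 1 (Or.inl rfl)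
      rwa [one_smul] at this
    · have := key (-1) (Or.inr rfl)
      rwa [neg_one_smul, ← sub_eq_add_neg] at this

theorem avg2 {ι V : Type} [NormedAddCommGroup V] [NormedSpace ℝ V] (F : Finset ι) (v : ι → ι → V)
    {C : ℝ} (h : ∀ ε : ι → ℝ, (∀ i, ε i = 1 ∨ ε i = -1) →
      ‖∑ i ∈ F, ∑ j ∈ F, (ε i * ε j) • v i j‖ ≤ C) : ‖∑ i ∈ F, v i i‖ ≤ C := by
  have := sg_aux v (C := C) F 0 (fun ε hε => by rw [zero_add]; exact h ε hε)
  rwa [zero_add] at this

end Pool.Agent.UBN
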