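import Pool.Agent.UBN.A0
import Pool.Agent.UBN.B0
import Pool.Agent.UBN.Sg

/-!
# Diagonal parts

`d1`: `avg2` with `v i j = S e (Q i) (mulOp b ((A j).indicator θ) w)`; the double sum is
`(∑ ε i • S e (Q i)) (mulOp b (∑ ε j • (A j).indicator θ) w)`, and `∑ ε i • S e (Q i)` is `mulOp e t` with
`|t| ≤ 1`.
`d2`: `avg2` with `v i j = S e (Q i) (Y (x j))`; `‖∑ ε j • x j‖ = ‖∑ x j‖` because the `x j` have disjoint
supports (`mulOp e` with signs).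
`d3`: `Y = ∑ i ∈ F, S e (Q i) * mulOp b ((A i).indicator θ)` has norm `≤ K` by `d1` and
`S e (Q i) (Y x) = S e (Q i) (mulOp b ((A i).indicator θ) x)`; apply `d2`.
`d4`: `avg2` with `v i j = mulOp b ((A i).indicator θ) (x j)`.
`d5`: `avg2` with `v i j = S e (Q i) (w j)`; `‖∑ ε j • w j‖ ≤ K ‖∑ w j‖`.
`lemD_up` is `d5` with `A j = {i j}`; `lemD_low`: `d4` with `A j = {i j}`, `θ = 1`, `x j := c j • S e (Q j) (b (i j))`
gives `‖∑ c j γ j b (i j)‖ ≤ K ‖∑ c j • S e (Q j) (b (i j))‖`, `γ j = b.coord (i j) (S e (Q j) (b (i j)))`, and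
`sum_mul_le` with the multiplier `1 / γ j`.
-/

namespace Pool.Agent.UBN

open Pool.Agent.UUB Finset

variable {Ω I ι : Type} {W : Type} [NormedAddCommGroup W] [NormedSpace ℝ W] [CompleteSpace W]
  {row : Ω → Row} {nr : (Ω →₀ ℝ) → ℝ} {e : UnconditionalSchauderBasis (Ω ⊕ ℕ) ℝ W}
  {b : UnconditionalSchauderBasis I ℝ W} {K : ℝ}

/-- the multiplier `∑ ε i • indicator (A i) θ` of disjoint sets is bounded by `1` -/
theorem dg_abs_le {J ι : Type} (F : Finset ι) (A : ι → Set J)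
    (hAd : ∀ i ∈ F, ∀ j ∈ F, i ≠ j → Disjoint (A i) (A j)) (ε : ι → ℝ) (hε : ∀ i ∈ F, |ε i| ≤ 1)
    (θ : J → ℝ) (hθ : ∀ i, |θ i| ≤ 1) (s : J) :
    |∑ i ∈ F, ε i * (A i).indicator θ s| ≤ 1 := by
  classical
  by_cases h : ∃ i ∈ F, s ∈ A i
  · obtain ⟨i, hi, hs⟩ := h
    rw [Finset.sum_eq_single_of_mem i hi]
    · rw [Set.indicator_of_mem hs, abs_mul]
      exact mul_le_one₀ (hε i hi) (abs_nonneg _) (hθ s)
    · intro j hj hne
      have hsj : s ∉ A j := by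
        intro hsj
        exact Set.disjoint_left.mp (hAd j hj i hi hne) hsj hs
      rw [Set.indicator_of_notMem hsj, mul_zero]
  · push Not at h
    rw [Finset.sum_eq_zero]
    · simp
    · intro i hi
      rw [Set.indicator_of_notMem (h i hi), mul_zero]

theorem dg_bdd {J : Type} {t : J → ℝ} (h : ∀ j, |t j| ≤ 1) : Bdd t :=
  ⟨1, fun j => by rw [Real.norm_eq_abs]; exact h j⟩

theorem dg_bdd_ind {J : Type} {θ : J → ℝ} (hθ : ∀ i, |θ i| ≤ 1) (A : Set J) :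
    Bdd (A.indicator θ) := by
  refine ⟨1, fun j => ?_⟩
  by_cases h : j ∈ A
  · rw [Set.indicator_of_mem h, Real.norm_eq_abs]
    exact hθ j
  · rw [Set.indicator_of_notMem h, norm_zero]
    exact zero_le_one

/-- signed sums of multipliers with disjoint supports -/
theorem dg_ops {J ι : Type} (c : UnconditionalSchauderBasis J ℝ W) (F : Finset ι) (A : ι → Set J)
    (hAd : ∀ i ∈ F, ∀ j ∈ F, i ≠ j → Disjoint (A i) (A j)) (ε : ι → ℝ) (hε : ∀ i ∈ F, |ε i| ≤ 1)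
    (θ : J → ℝ) (hθ : ∀ i, |θ i| ≤ 1) :
    ∃ t : J → ℝ, (∀ j, |t j| ≤ 1) ∧ ∀ v : W,
      ∑ i ∈ F, ε i • mulOp c ((A i).indicator θ) v = mulOp c t v := by
  refine ⟨fun s => ∑ i ∈ F, ε i * (A i).indicator θ s,
    fun s => dg_abs_le F A hAd ε hε θ hθ s, fun v => ?_⟩
  apply ext_coord (b := c)
  intro s
  rw [coord_mulOp _ (dg_bdd (fun s => dg_abs_le F A hAd ε hε θ hθ s)), map_sum, Finset.sum_mul]
  apply Finset.sum_congr rfl
  intro i _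
  rw [map_smul, coord_mulOp _ (dg_bdd_ind hθ (A i)), smul_eq_mul, mul_assoc]

/-- signed sums of vectors with disjoint supports -/
theorem dg_signs {J ι : Type} (c : UnconditionalSchauderBasis J ℝ W) (F : Finset ι) (A : ι → Set J)
    (hAd : ∀ i ∈ F, ∀ j ∈ F, i ≠ j → Disjoint (A i) (A j)) (ε : ι → ℝ) (hε : ∀ i ∈ F, |ε i| ≤ 1)
    (w : ι → W) (hw : ∀ i ∈ F, S c (A i) (w i) = w i) :
    ∃ t : J → ℝ, (∀ j, |t j| ≤ 1) ∧ ∑ i ∈ F, ε i • w i = mulOp c t (∑ i ∈ F, w i) := by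
  have h1 : ∀ i : J, |(fun _ : J => (1 : ℝ)) i| ≤ 1 := fun i => by simp
  have hb := dg_abs_le F A hAd ε hε (fun _ => (1 : ℝ)) h1
  refine ⟨fun s => ∑ i ∈ F, ε i * (A i).indicator (fun _ => (1 : ℝ)) s, hb, ?_⟩
  rw [map_sum]
  apply Finset.sum_congr rfl
  intro j hj
  apply ext_coord (b := c)
  intro s
  rw [coord_mulOp _ (dg_bdd hb), map_smul, smul_eq_mul]
  by_cases hs : s ∈ A j
  · congr 1
    rw [Finset.sum_eq_single_of_mem j hj]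
    · rw [Set.indicator_of_mem hs, mul_one]
    · intro i hi hne
      have hsi : s ∉ A i := by
        intro hsi
        exact Set.disjoint_left.mp (hAd i hi j hj hne) hsi hs
      rw [Set.indicator_of_notMem hsi, mul_zero]
  · have h0 : c.coord s (w j) = 0 := by
      rw [← hw j hj]
      exact coord_S_notMem _ hs _
    rw [h0, mul_zero, mul_zero]

theorem dg_opsE (hA : Amb row nr e) {F : Finset ι} {Q : ι → Set (Ω ⊕ ℕ)}
    (hQ : ∀ i ∈ F, ∀ j ∈ F, i ≠ j → Disjoint (Q i) (Q j)) {ε : ι → ℝ}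
    (hε : ∀ i, ε i = 1 ∨ ε i = -1) (v : W) : ‖∑ i ∈ F, ε i • S e (Q i) v‖ ≤ ‖v‖ := by
  have hε1 : ∀ i ∈ F, |ε i| ≤ 1 := by
    intro i _
    rcases hε i with h | h <;> rw [h] <;> simp
  obtain ⟨t, ht, h⟩ := dg_ops e F Q hQ ε hε1 (fun _ => (1 : ℝ)) (fun i => by simp)
  have h2 : ∑ i ∈ F, ε i • S e (Q i) v = mulOp e t v := h v
  rw [h2]
  calc ‖mulOp e t v‖ ≤ ‖mulOp e t‖ * ‖v‖ := ContinuousLinearMap.le_opNorm _ _
    _ ≤ 1 * ‖v‖ := mul_le_mul_of_nonneg_right (norm_mulOp_e hA t ht) (norm_nonneg _)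
    _ = ‖v‖ := one_mul _

theorem dg_opsB (hb : MB b K) {F : Finset ι} {A : ι → Set I}
    (hAd : ∀ i ∈ F, ∀ j ∈ F, i ≠ j → Disjoint (A i) (A j)) {ε : ι → ℝ}
    (hε : ∀ i, ε i = 1 ∨ ε i = -1) {θ : I → ℝ} (hθ : ∀ i, |θ i| ≤ 1) (v : W) :
    ‖∑ i ∈ F, ε i • mulOp b ((A i).indicator θ) v‖ ≤ K * ‖v‖ := by
  have hε1 : ∀ i ∈ F, |ε i| ≤ 1 := by
    intro i _
    rcases hε i with h | h <;> rw [h] <;> simp
  obtain ⟨t, ht, h⟩ := dg_ops b F A hAd ε hε1 θ hθ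
  rw [h v]
  calc ‖mulOp b t v‖ ≤ ‖mulOp b t‖ * ‖v‖ := ContinuousLinearMap.le_opNorm _ _
    _ ≤ K * ‖v‖ := mul_le_mul_of_nonneg_right (hb.bd t ht) (norm_nonneg _)

theorem dg_signsE (hA : Amb row nr e) {F : Finset ι} {Q : ι → Set (Ω ⊕ ℕ)}
    (hQ : ∀ i ∈ F, ∀ j ∈ F, i ≠ j → Disjoint (Q i) (Q j)) {ε : ι → ℝ}
    (hε : ∀ i, ε i = 1 ∨ ε i = -1) {x : ι → W} (hx : ∀ i ∈ F, S e (Q i) (x i) = x i) :
    ‖∑ i ∈ F, ε i • x i‖ ≤ ‖∑ i ∈ F, x i‖ := by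
  have hε1 : ∀ i ∈ F, |ε i| ≤ 1 := by
    intro i _
    rcases hε i with h | h <;> rw [h] <;> simp
  obtain ⟨t, ht, h⟩ := dg_signs e F Q hQ ε hε1 x hx
  rw [h]
  calc ‖mulOp e t (∑ i ∈ F, x i)‖ ≤ ‖mulOp e t‖ * ‖∑ i ∈ F, x i‖ :=
        ContinuousLinearMap.le_opNorm _ _
    _ ≤ 1 * ‖∑ i ∈ F, x i‖ :=
        mul_le_mul_of_nonneg_right (norm_mulOp_e hA t ht) (norm_nonneg _)
    _ = ‖∑ i ∈ F, x i‖ := one_mul _

theorem dg_signsB (hb : MB b K) {F : Finset ι} {A : ι → Set I}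
    (hAd : ∀ i ∈ F, ∀ j ∈ F, i ≠ j → Disjoint (A i) (A j)) {ε : ι → ℝ}
    (hε : ∀ i ∈ F, |ε i| ≤ 1) {w : ι → W} (hw : ∀ i ∈ F, S b (A i) (w i) = w i) :
    ‖∑ i ∈ F, ε i • w i‖ ≤ K * ‖∑ i ∈ F, w i‖ := by
  obtain ⟨t, ht, h⟩ := dg_signs b F A hAd ε hε w hw
  rw [h]
  calc ‖mulOp b t (∑ i ∈ F, w i)‖ ≤ ‖mulOp b t‖ * ‖∑ i ∈ F, w i‖ :=
        ContinuousLinearMap.le_opNorm _ _
    _ ≤ K * ‖∑ i ∈ F, w i‖ := mul_le_mul_of_nonneg_right (hb.bd t ht) (norm_nonneg _)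

/-- double signed sums -/
theorem dg_double {ι : Type} (F : Finset ι) (ε : ι → ℝ) (T : ι → W →L[ℝ] W) (x : ι → W) :
    ∑ i ∈ F, ∑ j ∈ F, (ε i * ε j) • T i (x j) =
      ∑ i ∈ F, ε i • T i (∑ j ∈ F, ε j • x j) := by
  apply Finset.sum_congr rfl
  intro i _
  rw [map_sum, Finset.smul_sum]
  apply Finset.sum_congr rfl
  intro j _
  rw [map_smul, smul_smul]

theorem dg_abs_of_sign {ε : ι → ℝ} (hε : ∀ i, ε i = 1 ∨ ε i = -1) (i : ι) : |ε i| ≤ 1 := by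
  rcases hε i with h | h <;> rw [h] <;> simp

theorem d1 (hA : Amb row nr e) (hb : MB b K) (F : Finset ι) (Q : ι → Set (Ω ⊕ ℕ)) (A : ι → Set I)
    (hQ : ∀ i ∈ F, ∀ j ∈ F, i ≠ j → Disjoint (Q i) (Q j))
    (hAd : ∀ i ∈ F, ∀ j ∈ F, i ≠ j → Disjoint (A i) (A j)) (θ : I → ℝ) (hθ : ∀ i, |θ i| ≤ 1)
    (w : W) : ‖∑ i ∈ F, S e (Q i) (mulOp b ((A i).indicator θ) w)‖ ≤ K * ‖w‖ := by
  apply avg2 F (fun i j => S e (Q i) (mulOp b ((A j).indicator θ) w))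
  intro ε hε
  rw [dg_double F ε (fun i => S e (Q i)) (fun j => mulOp b ((A j).indicator θ) w)]
  exact le_trans (dg_opsE hA hQ hε _) (dg_opsB hb hAd hε hθ w)

theorem d2 (hA : Amb row nr e) (F : Finset ι) (Q Q' : ι → Set (Ω ⊕ ℕ))
    (hQ : ∀ i ∈ F, ∀ j ∈ F, i ≠ j → Disjoint (Q i) (Q j))
    (hQ' : ∀ i ∈ F, ∀ j ∈ F, i ≠ j → Disjoint (Q' i) (Q' j)) (Y : W →L[ℝ] W) (x : ι → W)
    (hx : ∀ i ∈ F, S e (Q' i) (x i) = x i) :
    ‖∑ i ∈ F, S e (Q i) (Y (x i))‖ ≤ ‖Y‖ * ‖∑ i ∈ F, x i‖ := by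
  apply avg2 F (fun i j => S e (Q i) (Y (x j)))
  intro ε hε
  rw [dg_double F ε (fun i => S e (Q i)) (fun j => Y (x j))]
  refine le_trans (dg_opsE hA hQ hε _) ?_
  have h1 : ∑ j ∈ F, ε j • Y (x j) = Y (∑ j ∈ F, ε j • x j) := by
    rw [map_sum]
    apply Finset.sum_congr rfl
    intro j _
    rw [map_smul]
  rw [h1]
  exact le_trans (ContinuousLinearMap.le_opNorm _ _)
    (mul_le_mul_of_nonneg_left (dg_signsE hA hQ' hε hx) (norm_nonneg _))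

theorem d3 (hA : Amb row nr e) (hb : MB b K) (F : Finset ι) (Q Q' : ι → Set (Ω ⊕ ℕ))
    (A : ι → Set I) (hQ : ∀ i ∈ F, ∀ j ∈ F, i ≠ j → Disjoint (Q i) (Q j))
    (hQ' : ∀ i ∈ F, ∀ j ∈ F, i ≠ j → Disjoint (Q' i) (Q' j))
    (hAd : ∀ i ∈ F, ∀ j ∈ F, i ≠ j → Disjoint (A i) (A j)) (θ : I → ℝ) (hθ : ∀ i, |θ i| ≤ 1)
    (x : ι → W) (hx : ∀ i ∈ F, S e (Q' i) (x i) = x i) :
    ‖∑ i ∈ F, S e (Q i) (mulOp b ((A i).indicator θ) (x i))‖ ≤ K * ‖∑ i ∈ F, x i‖ := by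
  classical
  have hK : 0 ≤ K := le_trans zero_le_one hb.one_le
  let Y : W →L[ℝ] W := ∑ i ∈ F, S e (Q i) * mulOp b ((A i).indicator θ)
  have hYa : ∀ v, Y v = ∑ i ∈ F, S e (Q i) (mulOp b ((A i).indicator θ) v) := by
    intro v
    show (∑ i ∈ F, S e (Q i) * mulOp b ((A i).indicator θ)) v = _
    rw [ContinuousLinearMap.sum_apply]
    rfl
  have hY : ‖Y‖ ≤ K := by
    apply ContinuousLinearMap.opNorm_le_bound _ hK
    intro v
    rw [hYa v]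
    exact d1 hA hb F Q A hQ hAd θ hθ v
  have hS0 : ∀ i ∈ F, ∀ j ∈ F, j ≠ i → ∀ v : W, S e (Q i) (S e (Q j) v) = 0 := by
    intro i hi j hj hne v
    apply ext_coord (b := e)
    intro s
    rw [map_zero]
    by_cases hs : s ∈ Q i
    · rw [coord_S_mem _ hs]
      have hsj : s ∉ Q j := by
        intro hsj
        exact Set.disjoint_left.mp (hQ j hj i hi hne) hsj hs
      exact coord_S_notMem _ hsj _
    · exact coord_S_notMem _ hs _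
  have hSS : ∀ (i : ι) (v : W), S e (Q i) (S e (Q i) v) = S e (Q i) v := by
    intro i v
    have := congrArg (fun T : W →L[ℝ] W => T v) (S_idem (b := e) (Q i))
    exact this
  have hval : ∀ i ∈ F, S e (Q i) (Y (x i)) = S e (Q i) (mulOp b ((A i).indicator θ) (x i)) := by
    intro i hi
    rw [hYa, map_sum, Finset.sum_eq_single_of_mem i hi (fun j hj hne => hS0 i hi j hj hne _), hSS]
  have h2 := d2 hA F Q Q' hQ hQ' Y x hx
  rw [Finset.sum_congr rfl hval] at h2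
  exact le_trans h2 (mul_le_mul_of_nonneg_right hY (norm_nonneg _))

theorem d4 (hA : Amb row nr e) (hb : MB b K) (F : Finset ι) (Q' : ι → Set (Ω ⊕ ℕ))
    (A : ι → Set I) (hQ' : ∀ i ∈ F, ∀ j ∈ F, i ≠ j → Disjoint (Q' i) (Q' j))
    (hAd : ∀ i ∈ F, ∀ j ∈ F, i ≠ j → Disjoint (A i) (A j)) (θ : I → ℝ) (hθ : ∀ i, |θ i| ≤ 1)
    (x : ι → W) (hx : ∀ i ∈ F, S e (Q' i) (x i) = x i) :
    ‖∑ i ∈ F, mulOp b ((A i).indicator θ) (x i)‖ ≤ K * ‖∑ i ∈ F, x i‖ := by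
  have hK : 0 ≤ K := le_trans zero_le_one hb.one_le
  apply avg2 F (fun i j => mulOp b ((A i).indicator θ) (x j))
  intro ε hε
  rw [dg_double F ε (fun i => mulOp b ((A i).indicator θ)) x]
  exact le_trans (dg_opsB hb hAd hε hθ _)
    (mul_le_mul_of_nonneg_left (dg_signsE hA hQ' hε hx) hK)

theorem d5 (hA : Amb row nr e) (hb : MB b K) (F : Finset ι) (Q : ι → Set (Ω ⊕ ℕ))
    (A : ι → Set I) (hQ : ∀ i ∈ F, ∀ j ∈ F, i ≠ j → Disjoint (Q i) (Q j))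
    (hAd : ∀ i ∈ F, ∀ j ∈ F, i ≠ j → Disjoint (A i) (A j)) (w : ι → W)
    (hw : ∀ i ∈ F, S b (A i) (w i) = w i) :
    ‖∑ i ∈ F, S e (Q i) (w i)‖ ≤ K * ‖∑ i ∈ F, w i‖ := by
  apply avg2 F (fun i j => S e (Q i) (w j))
  intro ε hε
  rw [dg_double F ε (fun i => S e (Q i)) w]
  exact le_trans (dg_opsE hA hQ hε _)
    (dg_signsB hb hAd (fun i _ => dg_abs_of_sign hε i) hw)

theorem dg_S_single (i : I) (v : W) : S b {i} v = b.coord i v • b i := by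
  apply ext_coord (b := b)
  intro j
  rw [map_smul, smul_eq_mul]
  by_cases h : j = i
  · subst h
    rw [coord_S_mem _ (Set.mem_singleton j)]
    have hone : b.coord j (b j) = 1 := by
      classical
      rw [b.ortho]
      simp
    rw [hone, mul_one]
  · rw [coord_S_notMem _ (by simpa using h)]
    have hz : b.coord j (b i) = 0 := by
      have h4 : S b {i} (b i) = b i := S_basis_mem _ (Set.mem_singleton i)
      rw [← h4]
      exact coord_S_notMem _ (by simpa using h) _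
    rw [hz, mul_zero]

theorem lemD_up (hA : Amb row nr e) (hb : MB b K) (F : Finset ι) (Q : ι → Set (Ω ⊕ ℕ))
    (i : ι → I) (hQ : ∀ j ∈ F, ∀ l ∈ F, j ≠ l → Disjoint (Q j) (Q l))
    (hi : ∀ j ∈ F, ∀ l ∈ F, j ≠ l → i j ≠ i l) (c : ι → ℝ) :
    ‖∑ j ∈ F, c j • S e (Q j) (b (i j))‖ ≤ K * ‖∑ j ∈ F, c j • b (i j)‖ := by
  have h := d5 hA hb F Q (fun j => ({i j} : Set I)) hQ
    (fun j hj l hl hne => Set.disjoint_singleton.mpr (hi j hj l hl hne))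
    (fun j => c j • b (i j)) (fun j _ => by
      rw [map_smul, S_basis_mem _ (Set.mem_singleton (i j))])
  have e1 : ∑ j ∈ F, S e (Q j) (c j • b (i j)) = ∑ j ∈ F, c j • S e (Q j) (b (i j)) :=
    Finset.sum_congr rfl (fun j _ => map_smul _ _ _)
  rw [← e1]
  exact h

theorem lemD_low (hA : Amb row nr e) (hb : MB b K) (F : Finset ι) (Q : ι → Set (Ω ⊕ ℕ))
    (i : ι → I) (hQ : ∀ j ∈ F, ∀ l ∈ F, j ≠ l → Disjoint (Q j) (Q l))
    (hi : ∀ j ∈ F, ∀ l ∈ F, j ≠ l → i j ≠ i l) {δ : ℝ} (hδ : 0 < δ)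
    (hc : ∀ j ∈ F, δ ≤ |b.coord (i j) (S e (Q j) (b (i j)))|) (c : ι → ℝ) :
    ‖∑ j ∈ F, c j • b (i j)‖ ≤ K ^ 2 / δ * ‖∑ j ∈ F, c j • S e (Q j) (b (i j))‖ := by
  have hK : 0 ≤ K := le_trans zero_le_one hb.one_le
  set γ : ι → ℝ := fun j => b.coord (i j) (S e (Q j) (b (i j))) with hγ
  have hAd : ∀ j ∈ F, ∀ l ∈ F, j ≠ l → Disjoint ({i j} : Set I) {i l} :=
    fun j hj l hl hne => Set.disjoint_singleton.mpr (hi j hj l hl hne)
  have hSS : ∀ (j : ι) (v : W), S e (Q j) (S e (Q j) v) = S e (Q j) v := by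
    intro j v
    have := congrArg (fun T : W →L[ℝ] W => T v) (S_idem (b := e) (Q j))
    exact this
  have h4 := d4 hA hb F Q (fun j => ({i j} : Set I)) hQ hAd (fun _ => (1 : ℝ))
    (fun _ => by simp) (fun j => c j • S e (Q j) (b (i j))) (fun j _ => by
      rw [map_smul, hSS])
  have e4 : ∑ j ∈ F, mulOp b (({i j} : Set I).indicator fun _ => (1 : ℝ))
      (c j • S e (Q j) (b (i j))) = ∑ j ∈ F, (c j * γ j) • b (i j) := by
    apply Finset.sum_congr rfl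
    intro j _
    have e5 : mulOp b (({i j} : Set I).indicator fun _ => (1 : ℝ)) (c j • S e (Q j) (b (i j))) =
        S b {i j} (c j • S e (Q j) (b (i j))) := rfl
    rw [e5, dg_S_single, map_smul, smul_eq_mul]
  rw [e4] at h4
  have hγ0 : ∀ j ∈ F, γ j ≠ 0 := by
    intro j hj h0
    have := hc j hj
    rw [show b.coord (i j) (S e (Q j) (b (i j))) = γ j from rfl, h0, abs_zero] at this
    linarith
  have h5 := dg_signsB (ι := ι) hb (F := F) (A := fun j => ({i j} : Set I)) hAd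
    (ε := fun j => δ / γ j) (fun j hj => by
      rw [abs_div, abs_of_pos hδ]
      exact div_le_one_of_le₀ (hc j hj) (abs_nonneg _))
    (w := fun j => (c j * γ j) • b (i j)) (fun j _ => by
      rw [map_smul, S_basis_mem _ (Set.mem_singleton (i j))])
  have e6 : ∑ j ∈ F, (δ / γ j) • (c j * γ j) • b (i j) = δ • ∑ j ∈ F, c j • b (i j) := by
    rw [Finset.smul_sum]
    apply Finset.sum_congr rfl
    intro j hj
    rw [smul_smul, smul_smul]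
    congr 1
    have := hγ0 j hj
    field_simp
  rw [e6, norm_smul, Real.norm_eq_abs, abs_of_pos hδ] at h5
  have h7 : δ * ‖∑ j ∈ F, c j • b (i j)‖ ≤ K * (K * ‖∑ j ∈ F, c j • S e (Q j) (b (i j))‖) :=
    le_trans h5 (mul_le_mul_of_nonneg_left h4 hK)
  rw [div_mul_eq_mul_div, le_div_iff₀ hδ]
  calc ‖∑ j ∈ F, c j • b (i j)‖ * δ = δ * ‖∑ j ∈ F, c j • b (i j)‖ := mul_comm _ _
    _ ≤ K * (K * ‖∑ j ∈ F, c j • S e (Q j) (b (i j))‖) := h7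
    _ = K ^ 2 * ‖∑ j ∈ F, c j • S e (Q j) (b (i j))‖ := by ring

end Pool.Agent.UBN
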