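import Pool.Agent.UBN.Defs4
import Pool.Agent.UBN.Dg

/-!
# The good part

`lemD_up`, `lemD_low` (`δ = 1/2`) for the family indexed by the support of `x`, `Q ω = {inl ω}`, `i ω = g ω`
(injective on the far coordinates: in a row by `inj`, for different rows by `disj`);
`S e {inl ω} (b (g ω)) = p ω • e ω`, `p ω = e.coord ω (b (g ω))`, `1/(2K) ≤ |p ω| ≤ 1`.
-/

namespace Pool.Agent.UBN

open Pool.Agent.UUB Finset

variable {Ω I : Type} {W : Type} [NormedAddCommGroup W] [NormedSpace ℝ W] [CompleteSpace W]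
  {row : Ω → Row} {nr : (Ω →₀ ℝ) → ℝ} {e : UnconditionalSchauderBasis (Ω ⊕ ℕ) ℝ W}
  {b : UnconditionalSchauderBasis I ℝ W} {K ε η : ℝ}

/-- The sum of the good part as a sum over the whole support. -/
private theorem gd_sum (x : Ω →₀ ℝ) (P : Ω → Prop) [DecidablePred P] (g : Ω → I) :
    ((x.filter P).sum fun ω c => c • b (g ω)) =
      ∑ ω ∈ x.support, (if P ω then (1 : ℝ) else 0) • (x ω • b (g ω)) := by
  rw [Finsupp.sum_of_support_subset (s := x.support) _ (by
    intro ω hω
    rw [Finsupp.support_filter] at hω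
    exact (Finset.mem_filter.1 hω).1) _ (by intro ω _; rw [zero_smul])]
  apply Finset.sum_congr rfl
  intro ω _
  rw [Finsupp.filter_apply]
  by_cases h : P ω
  · rw [if_pos h, if_pos h, one_smul]
  · rw [if_neg h, if_neg h, zero_smul, zero_smul]

/-- The matching is injective on the far coordinates. -/
private theorem gd_inj {n0 : ℕ} {J : Row → Finset I}
    (hD : RowData row e b K ε n0 J) {g : Ω → I} (hM : Match row e b n0 J η g) {ω ω' : Ω}
    (h : n0 ≤ (row ω).1) (h' : n0 ≤ (row ω').1) (hne : ω ≠ ω') : g ω ≠ g ω' := by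
  intro hg
  by_cases hr : row ω = row ω'
  · exact hne (hM.inj ω ω' h hr hg)
  · have h1 := hM.mem ω h
    have h2 := hM.mem ω' h'
    rw [← hg] at h2
    exact Finset.disjoint_left.1 (hD.disj _ _ h h' hr) h1 h2

theorem good_equiv (hA : Amb row nr e) {n0 : ℕ} {J : Row → Finset I}
    (hD : RowData row e b K ε n0 J) {g : Ω → I} (hM : Match row e b n0 J η g) (x : Ω →₀ ℝ)
    (hx : ∀ ω, x ω ≠ 0 → n0 ≤ (row ω).1 ∧ ¬ Bad row e b J η ω) :
    ‖x.sum fun ω c => c • b (g ω)‖ ≤ 2 * K ^ 2 * nr x ∧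
      nr x ≤ 2 * K ^ 2 * ‖x.sum fun ω c => c • b (g ω)‖ := by
  classical
  have hK1 : 1 ≤ K := hD.bd.one_le
  have hK : 0 ≤ K := by linarith
  have hx' : ∀ ω ∈ x.support, n0 ≤ (row ω).1 ∧ ¬ Bad row e b J η ω :=
    fun ω hω => hx ω (Finsupp.mem_support_iff.1 hω)
  set p : Ω → ℝ := fun ω => e.coord (Sum.inl ω) (b (g ω)) with hp
  have hS : ∀ ω, S e ({Sum.inl ω} : Set (Ω ⊕ ℕ)) (b (g ω)) = p ω • e (Sum.inl ω) := fun ω =>
    dg_S_single _ _
  have hp1 : ∀ ω, |p ω| ≤ 1 := by
    intro ω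
    have h1 := abs_coord_e hA (Sum.inl ω) (b (g ω))
    rw [hD.bd.nm] at h1
    exact h1
  have hgood : ∀ ω ∈ x.support, 1 / 2 ≤ |b.coord (g ω) (e (Sum.inl ω))| * |p ω| := by
    intro ω hω
    rw [← abs_mul]
    exact hM.good ω (hx' ω hω).1 (hx' ω hω).2
  have hpl : ∀ ω ∈ x.support, 1 ≤ 2 * K * |p ω| := by
    intro ω hω
    have h1 := hgood ω hω
    have h2 : |b.coord (g ω) (e (Sum.inl ω))| ≤ K := by
      have h3 := abs_coord_b hD.bd (g ω) (e (Sum.inl ω))
      rw [norm_e hA, mul_one] at h3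
      exact h3
    have h4 : |b.coord (g ω) (e (Sum.inl ω))| * |p ω| ≤ K * |p ω| :=
      mul_le_mul_of_nonneg_right h2 (abs_nonneg _)
    linarith
  have hQ : ∀ j ∈ x.support, ∀ l ∈ x.support, j ≠ l →
      Disjoint ({Sum.inl j} : Set (Ω ⊕ ℕ)) {Sum.inl l} := by
    intro j _ l _ hne
    rw [Set.disjoint_singleton]
    intro h
    exact hne (Sum.inl_injective h)
  have hi : ∀ j ∈ x.support, ∀ l ∈ x.support, j ≠ l → g j ≠ g l := by
    intro j hj l hl hne
    exact gd_inj hD hM (hx' j hj).1 (hx' l hl).1 hne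
  have hup := lemD_up hA hD.bd x.support (fun ω => ({Sum.inl ω} : Set (Ω ⊕ ℕ))) g hQ hi x
  have hlow := lemD_low hA hD.bd x.support (fun ω => ({Sum.inl ω} : Set (Ω ⊕ ℕ))) g hQ hi
    (δ := 1 / 2) (by norm_num) (fun ω hω => by
      rw [hS, map_smul, smul_eq_mul, abs_mul]
      have := hgood ω hω
      linarith [mul_comm |b.coord (g ω) (e (Sum.inl ω))| |p ω|]) x
  have hsum : ∑ ω ∈ x.support, x ω • S e ({Sum.inl ω} : Set (Ω ⊕ ℕ)) (b (g ω)) =
      emb e (mul p x) := by
    rw [emb, Finsupp.linearCombination_apply, Finsupp.sum_of_support_subset (s := x.support) _ (by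
      intro ω hω
      rw [Finsupp.mem_support_iff] at hω ⊢
      rw [mul_apply] at hω
      exact right_ne_zero_of_mul hω) _ (by intro ω _; rw [zero_smul])]
    apply Finset.sum_congr rfl
    intro ω _
    rw [hS, smul_smul, mul_apply, mul_comm]
  have hxs : (x.sum fun ω c => c • b (g ω)) = ∑ ω ∈ x.support, x ω • b (g ω) := rfl
  rw [hsum, norm_emb hA] at hup hlow
  rw [hxs]
  have hnr0 : ∀ y : Ω →₀ ℝ, 0 ≤ nr y := by
    intro y
    rw [← norm_emb hA]
    exact norm_nonneg _
  have h1 : nr (mul p x) ≤ nr x := by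
    apply hA.rig.mono
    intro ω
    rw [mul_apply, abs_mul]
    calc |p ω| * |x ω| ≤ 1 * |x ω| := mul_le_mul_of_nonneg_right (hp1 ω) (abs_nonneg _)
      _ = |x ω| := one_mul _
  have h2 : nr x ≤ 2 * K * nr (mul p x) := by
    have h3 : nr ((2 * K) • mul p x) = 2 * K * nr (mul p x) := by
      rw [hA.rig.smul, abs_of_nonneg (by positivity)]
    rw [← h3]
    apply hA.rig.mono
    intro ω
    rw [Finsupp.smul_apply, mul_apply, smul_eq_mul, abs_mul, abs_mul, abs_mul, abs_of_nonneg hK]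
    rw [abs_of_nonneg (by norm_num : (0 : ℝ) ≤ 2)]
    by_cases h0 : x ω = 0
    · rw [h0, abs_zero, mul_zero, mul_zero]
    · have h4 := hpl ω (Finsupp.mem_support_iff.2 h0)
      calc |x ω| = 1 * |x ω| := (one_mul _).symm
        _ ≤ 2 * K * |p ω| * |x ω| := mul_le_mul_of_nonneg_right h4 (abs_nonneg _)
        _ = 2 * K * (|p ω| * |x ω|) := by ring
  constructor
  · calc ‖∑ ω ∈ x.support, x ω • b (g ω)‖ ≤ K ^ 2 / (1 / 2) * nr (mul p x) := hlow
      _ = 2 * K ^ 2 * nr (mul p x) := by ring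
      _ ≤ 2 * K ^ 2 * nr x := mul_le_mul_of_nonneg_left h1 (by positivity)
  · calc nr x ≤ 2 * K * nr (mul p x) := h2
      _ ≤ 2 * K * (K * ‖∑ ω ∈ x.support, x ω • b (g ω)‖) :=
          mul_le_mul_of_nonneg_left hup (by positivity)
      _ = 2 * K ^ 2 * ‖∑ ω ∈ x.support, x ω • b (g ω)‖ := by ring

/-- The case where there are no bad coordinates is enough for `MainEq`; bounded pieces otherwise. -/
theorem mainEq_of_good_bad (hA : Amb row nr e) {n0 : ℕ} {J : Row → Finset I}
    (hD : RowData row e b K ε n0 J) {g : Ω → I} (hM : Match row e b n0 J η g) {C : ℝ}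
    (hbad : ∀ x : Ω →₀ ℝ, (∀ ω, x ω ≠ 0 → n0 ≤ (row ω).1 ∧ Bad row e b J η ω) →
      ‖x.sum fun ω c => c • b (g ω)‖ ≤ C * nr x ∧ nr x ≤ C * ‖x.sum fun ω c => c • b (g ω)‖) :
    MainEq row nr b n0 J := by
  classical
  have hK1 : 1 ≤ K := hD.bd.one_le
  have hK : 0 ≤ K := by linarith
  have hnr0 : ∀ y : Ω →₀ ℝ, 0 ≤ nr y := by
    intro y
    rw [← norm_emb hA]
    exact norm_nonneg _
  refine ⟨g, (2 * K ^ 2 + |C|) * K, hM.mem, hM.inj, fun x hx => ?_⟩
  set G : Ω → Prop := fun ω => ¬ Bad row e b J η ω with hG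
  have hsplit : x = x.filter G + x.filter (fun ω => ¬ G ω) :=
    (Finsupp.filter_add_filter_not x G).symm
  have hg1 := good_equiv hA hD hM (x.filter G) (by
    intro ω hω
    rw [Finsupp.filter_apply] at hω
    by_cases h : G ω
    · rw [if_pos h] at hω
      exact ⟨hx ω hω, h⟩
    · rw [if_neg h] at hω
      exact absurd rfl hω)
  have hb1 := hbad (x.filter (fun ω => ¬ G ω)) (by
    intro ω hω
    rw [Finsupp.filter_apply] at hω
    by_cases h : ¬ G ω
    · rw [if_pos h] at hω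
      exact ⟨hx ω hω, not_not.1 h⟩
    · rw [if_neg h] at hω
      exact absurd rfl hω)
  have hmono : ∀ (P : Ω → Prop) [DecidablePred P], nr (x.filter P) ≤ nr x := by
    intro P _
    apply hA.rig.mono
    intro ω
    rw [Finsupp.filter_apply]
    by_cases h : P ω
    · rw [if_pos h]
    · rw [if_neg h, abs_zero]
      exact abs_nonneg _
  have hsum : (x.sum fun ω c => c • b (g ω)) = ((x.filter G).sum fun ω c => c • b (g ω)) +
      ((x.filter (fun ω => ¬ G ω)).sum fun ω c => c • b (g ω)) := by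
    rw [gd_sum x G g, gd_sum x (fun ω => ¬ G ω) g, ← Finset.sum_add_distrib]
    apply Finset.sum_congr rfl
    intro ω _
    by_cases h : G ω
    · rw [if_pos h, if_neg (not_not.2 h), one_smul, zero_smul, add_zero]
    · rw [if_neg h, if_pos h, one_smul, zero_smul, zero_add]
  -- projections
  have hproj : ∀ (P : Ω → Prop) [DecidablePred P],
      ‖(x.filter P).sum fun ω c => c • b (g ω)‖ ≤ K * ‖x.sum fun ω c => c • b (g ω)‖ := by
    intro P _
    rw [gd_sum x P g]
    exact dg_signsB hD.bd (F := x.support) (A := fun ω => ({g ω} : Set I))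
      (fun ω hω ω' hω' hne => Set.disjoint_singleton.mpr
        (gd_inj hD hM (hx ω (Finsupp.mem_support_iff.1 hω))
          (hx ω' (Finsupp.mem_support_iff.1 hω')) hne))
      (ε := fun ω => if P ω then (1 : ℝ) else 0) (fun ω _ => by
        by_cases h : P ω
        · simp [h]
        · simp [h])
      (w := fun ω => x ω • b (g ω)) (fun ω _ => by
        rw [map_smul, S_basis_mem _ (Set.mem_singleton (g ω))])
  have hC : C ≤ |C| := le_abs_self C
  constructor
  · calc ‖x.sum fun ω c => c • b (g ω)‖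
        ≤ ‖(x.filter G).sum fun ω c => c • b (g ω)‖ +
          ‖(x.filter (fun ω => ¬ G ω)).sum fun ω c => c • b (g ω)‖ := by
          rw [hsum]
          exact norm_add_le _ _
      _ ≤ 2 * K ^ 2 * nr (x.filter G) + C * nr (x.filter (fun ω => ¬ G ω)) :=
          add_le_add hg1.1 hb1.1
      _ ≤ 2 * K ^ 2 * nr x + |C| * nr x := by
          apply add_le_add
          · exact mul_le_mul_of_nonneg_left (hmono G) (by positivity)
          · exact le_trans (mul_le_mul_of_nonneg_right hC (hnr0 _))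
              (mul_le_mul_of_nonneg_left (hmono _) (abs_nonneg _))
      _ = (2 * K ^ 2 + |C|) * 1 * nr x := by ring
      _ ≤ (2 * K ^ 2 + |C|) * K * nr x := by
          apply mul_le_mul_of_nonneg_right _ (hnr0 _)
          exact mul_le_mul_of_nonneg_left hK1 (by positivity)
  · calc nr x ≤ nr (x.filter G) + nr (x.filter (fun ω => ¬ G ω)) := by
          conv_lhs => rw [hsplit]
          exact hA.rig.add_le _ _
      _ ≤ 2 * K ^ 2 * ‖(x.filter G).sum fun ω c => c • b (g ω)‖ +
          C * ‖(x.filter (fun ω => ¬ G ω)).sum fun ω c => c • b (g ω)‖ :=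
          add_le_add hg1.2 hb1.2
      _ ≤ 2 * K ^ 2 * (K * ‖x.sum fun ω c => c • b (g ω)‖) +
          |C| * (K * ‖x.sum fun ω c => c • b (g ω)‖) := by
          apply add_le_add
          · exact mul_le_mul_of_nonneg_left (hproj G) (by positivity)
          · exact le_trans (mul_le_mul_of_nonneg_right hC (norm_nonneg _))
              (mul_le_mul_of_nonneg_left (hproj _) (abs_nonneg _))
      _ = (2 * K ^ 2 + |C|) * K * ‖x.sum fun ω c => c • b (g ω)‖ := by ring

end Pool.Agent.UBN
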