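import Pool.Agent.UBN.Fb

/-!
# The matching

In every far row `k` the map `ω ↦ i` (from `fib`) on the good coordinates is injective (`fib_inj`) with values in
`J k`; extend it to a bijection of the (finite) row onto `J k` (`card`;
`Finset.exists_equiv_extend_of_card_eq`).  For the near coordinates take any value (`I` is not empty if `Ω` is
not, since then `W ≠ 0`).
-/

namespace Pool.Agent.UBN

open Pool.Agent.UUB Finset

variable {Ω I : Type} {W : Type} [NormedAddCommGroup W] [NormedSpace ℝ W] [CompleteSpace W]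
  {row : Ω → Row} {nr : (Ω →₀ ℝ) → ℝ} {e : UnconditionalSchauderBasis (Ω ⊕ ℕ) ℝ W}
  {b : UnconditionalSchauderBasis I ℝ W} {K ε η : ℝ}

/-- one far row -/
theorem mt_row (hA : Amb row nr e) {n0 : ℕ} {J : Row → Finset I}
    (hD : RowData row e b K ε n0 J) (hε : ε ≤ 1 / 100) (h0 : 0 ≤ η) (hη : η ≤ 1 / (32 * K))
    (k : Row) (hk : n0 ≤ k.1) :
    ∃ g : {ω // row ω = k} → I, (∀ w, g w ∈ J k) ∧ Function.Injective g ∧
      ∀ w : {ω // row ω = k}, ¬ Bad row e b J η w.1 →
        1 / 2 ≤ |b.coord (g w) (e (Sum.inl w.1)) * e.coord (Sum.inl w.1) (b (g w))| := by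
  classical
  have hfin : {ω | row ω = k}.Finite := (hA.rig.fin k.1).subset (fun ω h => by
    simp only [Set.mem_ofPred_eq] at h ⊢; rw [h])
  have : Fintype {ω // row ω = k} := hfin.fintype
  have hcard : Fintype.card {ω // row ω = k} = (J k).card := by
    rw [hD.card k hk, Nat.card_eq_fintype_card]
  have hex : ∀ w : {ω // row ω = k}, ¬ Bad row e b J η w.1 →
      ∃ i ∈ J k, 1 / 2 ≤ |b.coord i (e (Sum.inl w.1)) * e.coord (Sum.inl w.1) (b i)| ∧
        ∀ u : W, S e (rowS row (row w.1)) u = u → e.coord (Sum.inl w.1) u = 0 →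
          |b.coord i u| ≤ 2 * K * η * ‖u‖ := by
    intro w hw
    have h1 : n0 ≤ (row w.1).1 := by rw [w.2]; exact hk
    obtain ⟨i, hi, h2, h3⟩ := fib hA hD hε h0 hη h1 hw
    refine ⟨i, ?_, h2, h3⟩
    rw [w.2] at hi; exact hi
  by_cases hne : Nonempty {ω // row ω = k}
  · have hJ : (J k).Nonempty := by
      rw [← Finset.card_pos, ← hcard]; exact Fintype.card_pos
    obtain ⟨i0, hi0⟩ := hJ
    let f : {ω // row ω = k} → I := fun w =>
      if h : ¬ Bad row e b J η w.1 then (hex w h).choose else i0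
    have hf : ∀ w : {ω // row ω = k}, ∀ h : ¬ Bad row e b J η w.1, f w = (hex w h).choose := by
      intro w h
      simp only [f]
      rw [dif_pos h]
    let s : Finset {ω // row ω = k} := Finset.univ.filter (fun w => ¬ Bad row e b J η w.1)
    have hs : ∀ w, w ∈ s ↔ ¬ Bad row e b J η w.1 := by intro w; simp [s]
    have h1 : s.image f ⊆ J k := by
      intro i hi
      obtain ⟨w, hw, rfl⟩ := Finset.mem_image.1 hi
      rw [hf w ((hs w).1 hw)]
      exact (hex w ((hs w).1 hw)).choose_spec.1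
    have h2 : Set.InjOn f s := by
      intro w hw w' hw' hww
      by_contra hne'
      have hb := (hs w).1 hw
      have hb' := (hs w').1 hw'
      have e1 := (hex w hb).choose_spec.2.2
      have e2 := (hex w' hb').choose_spec.2.1
      rw [← hf w hb] at e1
      rw [← hf w' hb', ← hww] at e2
      refine fib_inj hA hD.bd hη (ω := w.1) (ω' := w'.1) (fun h => hne' (Subtype.ext h))
        (by rw [w.2, w'.2]) e1 e2
    obtain ⟨g, hg⟩ := Finset.exists_equiv_extend_of_card_eq hcard h1 h2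
    refine ⟨fun w => (g w : I), fun w => (g w).2, fun w w' h => g.injective (Subtype.ext h), ?_⟩
    intro w hw
    have h3 : ((g w : J k) : I) = (hex w hw).choose := by
      rw [hg w ((hs w).2 hw), hf w hw]
    show 1 / 2 ≤ |b.coord ((g w : J k) : I) (e (Sum.inl w.1)) * e.coord (Sum.inl w.1)
      (b ((g w : J k) : I))|
    rw [h3]
    exact (hex w hw).choose_spec.2.1
  · have hE : IsEmpty {ω // row ω = k} := not_nonempty_iff.1 hne
    exact ⟨fun w => hE.elim w, fun w => hE.elim w, fun w => hE.elim w, fun w => hE.elim w⟩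

theorem exists_match (hA : Amb row nr e) {n0 : ℕ} {J : Row → Finset I}
    (hD : RowData row e b K ε n0 J) (hε : ε ≤ 1 / 100) (h0 : 0 ≤ η) (hη : η ≤ 1 / (32 * K)) :
    ∃ g : Ω → I, Match row e b n0 J η g := by
  classical
  by_cases hΩ : Nonempty Ω
  · obtain ⟨ω0⟩ := hΩ
    have hI : Nonempty I := by
      by_contra hI
      have : IsEmpty I := not_nonempty_iff.1 hI
      have h1 : e (Sum.inl ω0) = 0 := by
        have h2 := b.expansion (e (Sum.inl ω0))
        exact HasSum.unique h2 (hasSum_empty)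
      have h3 := norm_e hA (Sum.inl ω0)
      rw [h1, norm_zero] at h3
      norm_num at h3
    obtain ⟨i0⟩ := hI
    have hrow := fun k : {k : Row // n0 ≤ k.1} => mt_row hA hD hε h0 hη k.1 k.2
    choose g hg1 hg2 hg3 using hrow
    refine ⟨fun ω => if h : n0 ≤ (row ω).1 then g ⟨row ω, h⟩ ⟨ω, rfl⟩ else i0, ?_, ?_, ?_⟩
    · intro ω h
      simp only [dif_pos h]
      exact hg1 _ _
    · intro ω ω' h hr hgg
      have h' : n0 ≤ (row ω').1 := by rw [← hr]; exact h
      simp only [dif_pos h, dif_pos h'] at hgg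
      have key : ∀ (k k' : Row) (hk : n0 ≤ k.1) (hk' : n0 ≤ k'.1) (e1 : row ω = k) (e2 : row ω' = k'),
          k = k' → g ⟨k, hk⟩ ⟨ω, e1⟩ = g ⟨k', hk'⟩ ⟨ω', e2⟩ → ω = ω' := by
        intro k k' hk hk' e1 e2 hkk
        subst hkk
        intro hh
        have := hg2 ⟨k, hk⟩ hh
        exact congrArg Subtype.val this
      exact key _ _ h h' rfl rfl hr hgg
    · intro ω h hb
      simp only [dif_pos h]
      exact hg3 ⟨row ω, h⟩ ⟨ω, rfl⟩ hb
  · exact ⟨fun ω => (hΩ ⟨ω⟩).elim, fun ω => (hΩ ⟨ω⟩).elim, fun ω => (hΩ ⟨ω⟩).elim,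
      fun ω => (hΩ ⟨ω⟩).elim⟩

end Pool.Agent.UBN
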