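import Pool.Agent.UBN.Ky
import Pool.Agent.UBN.Mt
import Pool.Agent.UBN.Gd

/-!
# The bad part

Let `x` be supported on far bad coordinates, `N = nrO (gh EB x)`, `C0 = 1 + 2K/η + 4K`.
* `nrB EB x ≤ C0 N` (`key`, `h2` is void), `N ≤ nrB EB x` (`gh_le`).
* `‖∑ x ω b (g ω)‖ ≥ (1/K) ‖∑_k P_k ∑_{row ω = k} x ω b (g ω)‖` (`d5`, `Q k = rowS k`, `A k = J k`); the right side is
  `nrB` of a vector `y` whose row norms are `≥ (1/(4K²)) l2 (x_k)` (`riesz`); `gh_le`, `gh_mono`.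
* For every row `k` let `x_k` be given by `solve` with `c i = x ω` if `i = g ω` (`ω` in the row, `x ω ≠ 0`), `0` for the
  other `i ∈ J k`.  Then `S b (J k) x_k = ∑ x ω b (g ω)` (`main_surj`-type), so
  `‖∑ x ω b (g ω)‖ = ‖∑_k S b (J k) x_k‖ ≤ K ‖∑_k x_k‖` (`d4`), and `∑_k x_k = emb e z`; `key` applies to `z`:
  `h1`: only rows with a bad coordinate occur; `h2`: for a good `ω`: `b.coord (g ω) x_k = 0` as `g ω ≠ g ω'` for
  the bad `ω'`.  `l2 (z_k) = ‖x_k‖ ≤ 4 K l2 (x_k)`; `gh_mono`.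
-/

namespace Pool.Agent.UBN

open Pool.Agent.UUB Finset

section general

variable {Ω I : Type} {W : Type} [NormedAddCommGroup W] [NormedSpace ℝ W] [CompleteSpace W]
  {row : Ω → Row} {nr : (Ω →₀ ℝ) → ℝ} {e : UnconditionalSchauderBasis (Ω ⊕ ℕ) ℝ W}
  {b : UnconditionalSchauderBasis I ℝ W} {K ε η : ℝ}

omit [CompleteSpace W] in
theorem be_rowS_finite (hA : Amb row nr e) (k : Row) : (rowS row k).Finite := by
  refine ((hA.rig.fin k.1).image Sum.inl).subset ?_
  rintro s ⟨ω, rfl, hω⟩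
  exact ⟨ω, congrArg Prod.fst hω, rfl⟩

theorem be_coord_row {k : Row} {w : W} (h : S e (rowS row k) w = w) {s : Ω ⊕ ℕ}
    (hs : s ∉ rowS row k) : e.coord s w = 0 := by
  rw [← h]
  exact coord_S_notMem e hs w

theorem be_assemble (hA : Amb row nr e) (F : Finset Row) (x : Row → W)
    (hx : ∀ k ∈ F, S e (rowS row k) (x k) = x k) :
    ∃ z : Ω →₀ ℝ, emb e z = ∑ k ∈ F, x k ∧ (∀ k ∈ F, emb e (rres row {k} z) = x k ∧
      l2 (rres row {k} z) = ‖x k‖) ∧ ∀ ω, z ω ≠ 0 → row ω ∈ F := by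
  classical
  have h1 : ∀ k, ∃ zk : Ω →₀ ℝ, k ∈ F → emb e zk = x k := by
    intro k
    by_cases hk : k ∈ F
    · obtain ⟨zk, hzk⟩ := exists_emb (be_rowS_finite hA k)
        (by rintro s ⟨ω, rfl, _⟩; exact ⟨ω, rfl⟩) (hx k hk)
      exact ⟨zk, fun _ => hzk⟩
    · exact ⟨0, fun h => absurd h hk⟩
  choose zk hzk using h1
  have hz0 : ∀ k ∈ F, ∀ ω, row ω ≠ k → zk k ω = 0 := by
    intro k hk ω hω
    have h2 : e.coord (Sum.inl ω) (emb e (zk k)) = 0 := by
      rw [hzk k hk]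
      refine be_coord_row (hx k hk) ?_
      rintro ⟨ω', h3, h4⟩
      rw [← Sum.inl_injective h3] at h4
      exact hω h4
    rwa [coord_emb_inl] at h2
  have hval : ∀ ω, (∑ k ∈ F, zk k) ω = if row ω ∈ F then zk (row ω) ω else 0 := by
    intro ω
    rw [Finsupp.finsetSum_apply]
    by_cases hm : row ω ∈ F
    · rw [if_pos hm, sum_eq_single_of_mem (row ω) hm]
      intro k hk hne
      exact hz0 k hk ω hne.symm
    · rw [if_neg hm]
      refine sum_eq_zero fun k hk => hz0 k hk ω ?_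
      intro h
      rw [h] at hm
      exact hm hk
  refine ⟨∑ k ∈ F, zk k, ?_, ?_, ?_⟩
  · rw [map_sum]
    exact sum_congr rfl (fun k hk => hzk k hk)
  · intro k hk
    have h3 : rres row {k} (∑ k ∈ F, zk k) = zk k := by
      ext ω
      rw [rres_apply, hval]
      by_cases hω : row ω = k
      · subst hω
        rw [if_pos (Set.mem_singleton _), if_pos hk]
      · rw [if_neg (by simpa using hω), hz0 k hk ω hω]
    rw [h3]
    refine ⟨hzk k hk, ?_⟩
    rw [← hA.rig.single k (zk k) (fun ω hω => by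
      by_contra hne
      exact hω (hz0 k hk ω hne)), ← norm_emb hA, hzk k hk]
  · intro ω hω
    rw [hval] at hω
    by_contra h
    rw [if_neg h] at hω
    exact hω rfl

open Classical in
/-- The coefficients of the row `k`, transported by `g`. -/
noncomputable def beC (row : Ω → Row) (g : Ω → I) (x : Ω →₀ ℝ) (k : Row) (i : I) : ℝ :=
  ∑ ω ∈ (x.support.filter (fun ω => row ω = k)).filter (fun ω => g ω = i), x ω

open Classical in
omit [CompleteSpace W] in
theorem be_sum {g : Ω → I} {x : Ω →₀ ℝ} {k : Row} {J : Finset I}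
    (hm : ∀ ω, row ω = k → x ω ≠ 0 → g ω ∈ J) (v : I → W) :
    ∑ i ∈ J, beC row g x k i • v i = ∑ ω ∈ x.support.filter (fun ω => row ω = k), x ω • v (g ω) := by
  rw [← sum_fiberwise_of_maps_to (t := J) (g := g) (fun ω hω => by
    rw [mem_filter, Finsupp.mem_support_iff] at hω
    exact hm ω hω.2 hω.1)]
  refine sum_congr rfl fun i _ => ?_
  unfold beC
  rw [sum_smul]
  refine sum_congr rfl fun ω hω => ?_
  rw [(mem_filter.1 hω).2]

open Classical in
theorem be_sq {g : Ω → I} {x : Ω →₀ ℝ} {k : Row} {J : Finset I}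
    (hm : ∀ ω, row ω = k → x ω ≠ 0 → g ω ∈ J)
    (hi : ∀ ω ω', row ω = k → row ω' = k → g ω = g ω' → ω = ω') :
    Real.sqrt (∑ i ∈ J, beC row g x k i ^ 2) = l2 (rres row {k} x) := by
  have h1 : ∑ i ∈ J, beC row g x k i ^ 2 =
      ∑ ω ∈ x.support.filter (fun ω => row ω = k), x ω ^ 2 := by
    rw [← sum_fiberwise_of_maps_to (t := J) (g := g) (fun ω hω => by
      rw [mem_filter, Finsupp.mem_support_iff] at hω
      exact hm ω hω.2 hω.1)]
    refine sum_congr rfl fun i _ => ?_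
    unfold beC
    have h2 : ((x.support.filter (fun ω => row ω = k)).filter (fun ω => g ω = i)).card ≤ 1 := by
      rw [card_le_one]
      intro ω hω ω' hω'
      rw [mem_filter, mem_filter] at hω hω'
      exact hi ω ω' hω.1.2 hω'.1.2 (hω.2.trans hω'.2.symm)
    rcases Nat.le_one_iff_eq_zero_or_eq_one.1 h2 with h3 | h3
    · rw [card_eq_zero.1 h3, sum_empty, sum_empty]
      norm_num
    · obtain ⟨a, ha⟩ := card_eq_one.1 h3
      rw [ha, sum_singleton, sum_singleton]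
  rw [h1]
  unfold l2
  congr 1
  have h4 : (rres row {k} x).support = x.support.filter (fun ω => row ω = k) := by
    ext ω
    rw [mem_filter, Finsupp.mem_support_iff, Finsupp.mem_support_iff, rres_apply]
    by_cases h5 : row ω = k
    · rw [if_pos (by simpa using h5)]
      exact ⟨fun h => ⟨h, h5⟩, fun h => h.1⟩
    · rw [if_neg (by simpa using h5)]
      exact ⟨fun h => absurd rfl h, fun h => absurd h.2 h5⟩
  rw [h4]
  refine sum_congr rfl fun ω hω => ?_
  rw [rres_apply, if_pos (by simpa using (mem_filter.1 hω).2)]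

theorem be_S_sum (J : Finset I) (v : W) : S b (J : Set I) v = ∑ i ∈ J, b.coord i v • b i := by
  rw [S_finset b J, ContinuousLinearMap.sum_apply]
  refine sum_congr rfl fun i _ => ?_
  rw [UUB.R_apply]

theorem be_rowS_disj {k k' : Row} (h : k ≠ k') : Disjoint (rowS row k) (rowS row k') := by
  rw [Set.disjoint_left]
  rintro s ⟨ω, rfl, h1⟩ ⟨ω', h2, h3⟩
  rw [← Sum.inl_injective h2] at h3
  exact h (h1.symm.trans h3)

end general

variable {I : Type} {W : Type} [NormedAddCommGroup W] [NormedSpace ℝ W] [CompleteSpace W]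
  {e : UnconditionalSchauderBasis (EB ⊕ ℕ) ℝ W}
  {b : UnconditionalSchauderBasis I ℝ W} {K ε η : ℝ}

open Classical in
theorem be_total (g : EB → I) (x : EB →₀ ℝ) :
    (x.sum fun ω c => c • b (g ω)) = ∑ k ∈ x.support.image (rowB EB),
      ∑ ω ∈ x.support.filter (fun ω => rowB EB ω = k), x ω • b (g ω) := by
  rw [Finsupp.sum, sum_fiberwise_of_maps_to]
  intro ω hω
  exact mem_image_of_mem _ hω

theorem bad_upper (hA : Amb (rowB EB) (nrB EB) e) {n0 : ℕ} {J : Row → Finset I}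
    (hD : RowData (rowB EB) e b K ε n0 J) (hη : 0 < η) (hDn : ∀ n, n0 ≤ n → 2 * K / η < Dn n)
    {g : EB → I} (hM : Match (rowB EB) e b n0 J η g) (x : EB →₀ ℝ)
    (hx : ∀ ω, x ω ≠ 0 → n0 ≤ (rowB EB ω).1 ∧ Bad (rowB EB) e b J η ω) :
    ‖x.sum fun ω c => c • b (g ω)‖ ≤ K * (1 + 2 * K / η + 4 * K) * (4 * K) * nrO (gh EB x) := by
  classical
  have hK1 : 1 ≤ K := hD.bd.one_le
  have hK0 : 0 < K := lt_of_lt_of_le zero_lt_one hK1
  obtain ⟨F, hF⟩ : ∃ F : Finset Row, F = x.support.image (rowB EB) := ⟨_, rfl⟩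
  have hFn : ∀ k ∈ F, n0 ≤ k.1 := by
    intro k hk
    rw [hF, mem_image] at hk
    obtain ⟨ω, hω, rfl⟩ := hk
    exact (hx ω (Finsupp.mem_support_iff.1 hω)).1
  have hm : ∀ k ∈ F, ∀ ω, rowB EB ω = k → x ω ≠ 0 → g ω ∈ J k := by
    rintro k hk ω rfl _
    exact hM.mem ω (hFn _ hk)
  have hi : ∀ k ∈ F, ∀ ω ω', rowB EB ω = k → rowB EB ω' = k → g ω = g ω' → ω = ω' := by
    rintro k hk ω ω' rfl h2 h3
    exact hM.inj ω ω' (hFn _ hk) h2.symm h3
  have h1 : ∀ k, ∃ xk : W, k ∈ F → S e (rowS (rowB EB) k) xk = xk ∧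
      (∀ i ∈ J k, b.coord i xk = beC (rowB EB) g x k i) ∧
      ‖xk‖ ≤ 4 * K * Real.sqrt (∑ i ∈ J k, beC (rowB EB) g x k i ^ 2) := by
    intro k
    by_cases hk : k ∈ F
    · obtain ⟨xk, h⟩ := hD.solve k (hFn k hk) (beC (rowB EB) g x k)
      exact ⟨xk, fun _ => h⟩
    · exact ⟨0, fun h => absurd h hk⟩
  choose xk hxk using h1
  obtain ⟨z, hz1, hz2, hz3⟩ := be_assemble hA F xk (fun k hk => (hxk k hk).1)
  have h2 : (x.sum fun ω c => c • b (g ω)) =
      ∑ k ∈ F, mulOp b ((J k : Set I).indicator (fun _ => (1 : ℝ))) (xk k) := by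
    rw [be_total, ← hF]
    refine sum_congr rfl fun k hk => ?_
    have h3 : mulOp b ((J k : Set I).indicator (fun _ => (1 : ℝ))) (xk k) =
        S b (J k : Set I) (xk k) := rfl
    rw [h3, be_S_sum, ← be_sum (hm k hk) (fun i => b i)]
    refine sum_congr rfl fun i hi => ?_
    rw [(hxk k hk).2.1 i hi]
  have h4 := d4 hA hD.bd F (fun k => rowS (rowB EB) k) (fun k => (J k : Set I))
    (fun k _ k' _ hne => be_rowS_disj hne)
    (fun k hk k' hk' hne => Finset.disjoint_coe.2 (hD.disj k k' (hFn k hk) (hFn k' hk') hne))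
    (fun _ => (1 : ℝ)) (fun _ => by simp) xk (fun k hk => (hxk k hk).1)
  rw [← h2, ← hz1, norm_emb hA] at h4
  have h5 := key hA hD hη hDn hM z (fun ω hω => hFn _ (hz3 ω hω)) (by
    intro ω hω
    have h6 := hz3 ω hω
    rw [hF, mem_image] at h6
    obtain ⟨ω', hω', h7⟩ := h6
    exact ⟨ω', h7, (hx ω' (Finsupp.mem_support_iff.1 hω')).2⟩) (by
    intro ω hω hgood
    have hk := hz3 ω hω
    rw [(hz2 _ hk).1, (hxk _ hk).2.1 (g ω) (hM.mem ω (hFn _ hk))]
    unfold beC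
    refine sum_eq_zero fun ω' hω' => ?_
    exfalso
    rw [mem_filter, mem_filter, Finsupp.mem_support_iff] at hω'
    have h8 : ω' = ω := hi _ hk ω' ω hω'.1.2 rfl hω'.2
    rw [h8] at hω'
    exact hgood (hx ω hω'.1.1).2)
  have h6 : nrO (gh EB z) ≤ 4 * K * nrO (gh EB x) := by
    refine gh_mono EB z x (by positivity) ?_
    intro k
    by_cases hk : k ∈ F
    · rw [(hz2 k hk).2, ← be_sq (hm k hk) (hi k hk)]
      exact (hxk k hk).2.2
    · rw [gh_rres_zero EB z (k := k) (fun ω hω h => hk (by rw [← h]; exact hz3 ω hω))]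
      exact mul_nonneg (by positivity) (gh_l2_nonneg _)
  have hB : 0 ≤ 1 + 2 * K / η + 4 * K := by positivity
  calc ‖x.sum fun ω c => c • b (g ω)‖ ≤ K * nrB EB z := h4
    _ ≤ K * ((1 + 2 * K / η + 4 * K) * (4 * K * nrO (gh EB x))) :=
      mul_le_mul_of_nonneg_left (h5.trans (mul_le_mul_of_nonneg_left h6 hB)) hK0.le
    _ = _ := by ring

theorem bad_lower (hA : Amb (rowB EB) (nrB EB) e) {n0 : ℕ} {J : Row → Finset I}
    (hD : RowData (rowB EB) e b K ε n0 J) {g : EB → I} (hM : Match (rowB EB) e b n0 J η g)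
    (x : EB →₀ ℝ) (hx : ∀ ω, x ω ≠ 0 → n0 ≤ (rowB EB ω).1) :
    nrO (gh EB x) ≤ 4 * K ^ 3 * ‖x.sum fun ω c => c • b (g ω)‖ := by
  classical
  have hK1 : 1 ≤ K := hD.bd.one_le
  have hK0 : 0 < K := lt_of_lt_of_le zero_lt_one hK1
  obtain ⟨F, hF⟩ : ∃ F : Finset Row, F = x.support.image (rowB EB) := ⟨_, rfl⟩
  have hFn : ∀ k ∈ F, n0 ≤ k.1 := by
    intro k hk
    rw [hF, mem_image] at hk
    obtain ⟨ω, hω, rfl⟩ := hk
    exact hx ω (Finsupp.mem_support_iff.1 hω)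
  have hm : ∀ k ∈ F, ∀ ω, rowB EB ω = k → x ω ≠ 0 → g ω ∈ J k := by
    rintro k hk ω rfl _
    exact hM.mem ω (hFn _ hk)
  have hi : ∀ k ∈ F, ∀ ω ω', rowB EB ω = k → rowB EB ω' = k → g ω = g ω' → ω = ω' := by
    rintro k hk ω ω' rfl h2 h3
    exact hM.inj ω ω' (hFn _ hk) h2.symm h3
  have h2 : (x.sum fun ω c => c • b (g ω)) =
      ∑ k ∈ F, ∑ i ∈ J k, beC (rowB EB) g x k i • b i := by
    rw [be_total, ← hF]
    refine sum_congr rfl fun k hk => ?_
    rw [be_sum (hm k hk) (fun i => b i)]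
  have h5 := d5 hA hD.bd F (fun k => rowS (rowB EB) k) (fun k => (J k : Set I))
    (fun k _ k' _ hne => be_rowS_disj hne)
    (fun k hk k' hk' hne => Finset.disjoint_coe.2 (hD.disj k k' (hFn k hk) (hFn k' hk') hne))
    (fun k => ∑ i ∈ J k, beC (rowB EB) g x k i • b i) (fun k _ => by
      rw [map_sum]
      refine sum_congr rfl fun i hi => ?_
      rw [map_smul, S_basis_mem _ (Finset.mem_coe.2 hi)])
  rw [← h2] at h5
  have hSS : ∀ (k : Row) (v : W), S e (rowS (rowB EB) k) (S e (rowS (rowB EB) k) v) =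
      S e (rowS (rowB EB) k) v := by
    intro k v
    exact congrArg (fun T : W →L[ℝ] W => T v) (S_idem (b := e) (rowS (rowB EB) k))
  obtain ⟨y, hy1, hy2, hy3⟩ := be_assemble hA F
    (fun k => S e (rowS (rowB EB) k) (∑ i ∈ J k, beC (rowB EB) g x k i • b i))
    (fun k _ => hSS k _)
  rw [← hy1, norm_emb hA] at h5
  have h6 : nrO (gh EB x) ≤ 4 * K ^ 2 * nrO (gh EB y) := by
    refine gh_mono EB x y (by positivity) ?_
    intro k
    by_cases hk : k ∈ F
    · rw [(hy2 k hk).2, ← be_sq (hm k hk) (hi k hk)]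
      refine (hD.riesz k (hFn k hk) (beC (rowB EB) g x k)).trans (le_of_eq ?_)
      congr 2
      rw [map_sum]
      refine sum_congr rfl fun i _ => ?_
      rw [map_smul]
    · rw [gh_rres_zero EB x (k := k) (fun ω hω h => hk (by
        rw [hF, ← h]
        exact mem_image_of_mem _ (Finsupp.mem_support_iff.2 hω)))]
      exact mul_nonneg (by positivity) (gh_l2_nonneg _)
  calc nrO (gh EB x) ≤ 4 * K ^ 2 * nrO (gh EB y) := h6
    _ ≤ 4 * K ^ 2 * (K * ‖x.sum fun ω c => c • b (g ω)‖) :=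
      mul_le_mul_of_nonneg_left ((gh_le EB y).trans h5) (by positivity)
    _ = _ := by ring

theorem bad_e (hA : Amb (rowB EB) (nrB EB) e) {n0 : ℕ} {J : Row → Finset I}
    (hD : RowData (rowB EB) e b K ε n0 J) (hη : 0 < η) (hDn : ∀ n, n0 ≤ n → 2 * K / η < Dn n)
    {g : EB → I} (hM : Match (rowB EB) e b n0 J η g) (x : EB →₀ ℝ)
    (hx : ∀ ω, x ω ≠ 0 → n0 ≤ (rowB EB ω).1 ∧ Bad (rowB EB) e b J η ω) :
    nrB EB x ≤ (1 + 2 * K / η + 4 * K) * nrO (gh EB x) :=
  key hA hD hη hDn hM x (fun ω hω => (hx ω hω).1) (fun ω hω => ⟨ω, rfl, (hx ω hω).2⟩)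
    (fun ω hω hg => absurd (hx ω hω).2 hg)

end Pool.Agent.UBN
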