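import Pool.Agent.UBN.Defs

/-!
# Project UBN: definitions for Part I (rapidly increasing sequences, exact vectors)
-/

namespace Pool.Agent.UBN

open Finset

variable {Ω : Type} {row : Ω → Row} {N : ℕ → (Ω →₀ ℝ) → ℝ}

/-- The rows met by `x`. -/
noncomputable def rowsOf (row : Ω → Row) (x : Ω →₀ ℝ) : Finset Row := x.support.image row

/-- Rapidly increasing sequences. -/
structure RIS (row : Ω → Row) (N : ℕ → (Ω →₀ ℝ) → ℝ) (a : ℕ → ℕ) (x : ℕ → Ω →₀ ℝ) (C : ℝ)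
    (Q : ℕ → ℕ) : Prop where
  mono_a : Monotone a
  win : ∀ i, Win row (x i) (a i) (a (i + 1))
  one_le : 1 ≤ C
  mono_Q : Monotone Q
  r1 : ∀ i q φ, W row N q φ → |φ (x i)| ≤ C
  r2 : ∀ i q φ, W row N q φ → 0 < q → q < Q i → |φ (x i)| ≤ C / mm q
  r3 : ∀ i q φ, W row N q φ → Q (i + 1) ≤ q → |φ (x i)| ≤ C / 2 ^ (i + 1)

/-- Two equivalent normalised block sequences on disjoint sets of rows. -/
structure Pair (row : Ω → Row) (N : ℕ → (Ω →₀ ℝ) → ℝ) (a : ℕ → ℕ) (x y : ℕ → Ω →₀ ℝ) (K : ℝ) :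
    Prop where
  mono : Monotone a
  winx : ∀ l, Win row (x l) (a l) (a (l + 1))
  winy : ∀ l, Win row (y l) (a l) (a (l + 1))
  disj : ∀ l l' ω ω', x l ω ≠ 0 → y l' ω' ≠ 0 → row ω ≠ row ω'
  one : ∀ l, nrm row N (x l) = 1
  one_le : 1 ≤ K
  xy : ∀ (A : Finset ℕ) (t : ℕ → ℝ),
    nrm row N (∑ l ∈ A, t l • x l) ≤ K * nrm row N (∑ l ∈ A, t l • y l)
  yx : ∀ (A : Finset ℕ) (t : ℕ → ℝ),
    nrm row N (∑ l ∈ A, t l • y l) ≤ K * nrm row N (∑ l ∈ A, t l • x l)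

/-- The combination of the members of `x` in `[l, l')`. -/
noncomputable def cmb (x : ℕ → Ω →₀ ℝ) (t : ℕ → ℝ) (l l' : ℕ) : Ω →₀ ℝ := ∑ i ∈ Ico l l', t i • x i

/-- The rows met by `y l`, `l0 ≤ l < l1`. -/
noncomputable def rowsY (row : Ω → Row) (y : ℕ → Ω →₀ ℝ) (l0 l1 : ℕ) : Finset Row :=
  (Ico l0 l1).biUnion (fun l => (y l).support.image row)

/-- `X`, `Y`, `η` form an exact triple of index `p` on `[l0, l1)`. -/
structure Exact (row : Ω → Row) (N : ℕ → (Ω →₀ ℝ) → ℝ) (x y : ℕ → Ω →₀ ℝ) (K : ℝ) (p l0 l1 : ℕ)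
    (t : ℕ → ℝ) (η : (Ω →₀ ℝ) →ₗ[ℝ] ℝ) : Prop where
  e1 : ∀ q φ, W row N q φ → |φ (cmb x t l0 l1)| ≤ 20
  e2 : ∀ q φ, W row N q φ → 0 < q → q < p → |φ (cmb x t l0 l1)| ≤ 20 / mm q
  e3 : ∀ q φ, W row N q φ → p < q → |φ (cmb x t l0 l1)| ≤ 20 / mm p
  eW : W row N p η
  er : ∀ z, η z = η (rres row (rowsY row y l0 l1) z)
  eY : 1 / (2 * K) ≤ η (cmb y t l0 l1)

/-- The special sequence: exact triples with the coded indices. -/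
def Spec (row : Ω → Row) (N : ℕ → (Ω →₀ ℝ) → ℝ) (a : ℕ → ℕ) (x y : ℕ → Ω →₀ ℝ) (K : ℝ) (q0 : ℕ)
    (L : ℕ → ℕ) (t : ℕ → ℝ) (η : ℕ → (Ω →₀ ℝ) →ₗ[ℝ] ℝ) : Prop :=
  ∀ i, Exact row N x y K
    (sig q0 (hist (fun j => a (L j)) (fun j => rowsY row y (L j) (L (j + 1))) i))
    (L i) (L (i + 1)) t (η i)

end Pool.Agent.UBN
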