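import Pool.Agent.UBN.Defs

/-!
# Arithmetic of the parameters

`mm q = 2 ^ (2 ^ q)`, `nn (q+1) = (3 nn q) ^ (2 ^ (q+2) + 1) * mm (q+1) ^ 2`.

* `nn_big`: take `q` even with `n ≤ 3 nn (q-1)`; `2 ^ q + 1 ≤ 2 ^ (q+1) + 1`.
* `mm4_le_nn`: `(3 nn q) ^ (2 ^ (q+2)) ≥ 2 ^ (2 ^ (q+2)) = mm (q+1) ^ 2`.
* the facts on `sig` follow from `Nat.pair_eq_pair`, `Nat.left_le_pair`, `Nat.right_le_pair` and
  the injectivity of `Encodable.encode`.
-/

namespace Pool.Agent.UBN

theorem mm_succ (q : ℕ) : mm (q + 1) = mm q ^ 2 := by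
  unfold mm
  rw [← pow_mul, pow_succ]

theorem two_le_mm (q : ℕ) : 2 ≤ mm q := by
  unfold mm
  calc 2 = 2 ^ 1 := by norm_num
    _ ≤ 2 ^ (2 ^ q) := Nat.pow_le_pow_right (by norm_num) Nat.one_le_two_pow

theorem four_le_mm {q : ℕ} (h : 0 < q) : 4 ≤ mm q := by
  unfold mm
  have h1 : 2 ≤ 2 ^ q := by
    calc 2 = 2 ^ 1 := by norm_num
      _ ≤ 2 ^ q := Nat.pow_le_pow_right (by norm_num) h
  calc 4 = 2 ^ 2 := by norm_num
    _ ≤ 2 ^ (2 ^ q) := Nat.pow_le_pow_right (by norm_num) h1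

theorem mm_mono : Monotone mm := by
  intro a b h
  unfold mm
  exact Nat.pow_le_pow_right (by norm_num) (Nat.pow_le_pow_right (by norm_num) h)

theorem two_pow_le_mm (q : ℕ) : 2 ^ q ≤ mm q := by
  unfold mm
  exact Nat.pow_le_pow_right (by norm_num) (Nat.lt_two_pow_self).le

theorem nn_pos (q : ℕ) : 0 < nn q := by
  induction q with
  | zero => simp [nn]
  | succ q ih =>
    have h2 : 0 < mm (q + 1) := lt_of_lt_of_le (by norm_num) (two_le_mm (q + 1))
    rw [nn]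
    positivity

private theorem three_nn_le (q : ℕ) : 3 * nn q ≤ nn (q + 1) := by
  have h1 : 0 < nn q := nn_pos q
  have h2 : 0 < mm (q + 1) := lt_of_lt_of_le (by norm_num) (two_le_mm (q + 1))
  have h3 : 0 < mm (q + 1) ^ 2 := by positivity
  rw [nn]
  calc 3 * nn q = (3 * nn q) ^ 1 * 1 := by ring
    _ ≤ (3 * nn q) ^ (2 ^ (q + 2) + 1) * mm (q + 1) ^ 2 :=
        Nat.mul_le_mul (Nat.pow_le_pow_right (by omega) (Nat.le_add_left 1 _)) h3

theorem nn_mono : Monotone nn := by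
  refine monotone_nat_of_le_succ fun q => ?_
  have := three_nn_le q
  omega

theorem lt_nn (q : ℕ) : q < nn q := by
  induction q with
  | zero => simp [nn]
  | succ q ih =>
    have := three_nn_le q
    omega

/-- `2 ^ (2 ^ (q + 1)) = mm q ^ 2` as real numbers. -/
theorem two_pow_eq (q : ℕ) : (2 : ℝ) ^ (2 ^ (q + 1)) = (mm q : ℝ) ^ 2 := by
  unfold mm
  push_cast
  rw [← pow_mul, pow_succ]

theorem mm4_le_nn {q : ℕ} (hq : 0 < q) : mm q ^ 4 ≤ nn q := by
  obtain ⟨p, rfl⟩ : ∃ p, q = p + 1 := ⟨q - 1, by omega⟩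
  have h1 : 0 < nn p := nn_pos p
  have h2 : mm (p + 1) ^ 2 ≤ (3 * nn p) ^ (2 ^ (p + 2)) := by
    rw [← mm_succ]
    unfold mm
    exact Nat.pow_le_pow_left (by omega) _
  rw [nn, pow_succ]
  calc mm (p + 1) ^ 4 = mm (p + 1) ^ 2 * 1 * mm (p + 1) ^ 2 := by ring
    _ ≤ (3 * nn p) ^ (2 ^ (p + 2)) * (3 * nn p) * mm (p + 1) ^ 2 :=
        Nat.mul_le_mul (Nat.mul_le_mul h2 (by omega)) le_rfl

/-- The main inequality for `p = P + 1`. -/
theorem nn_succ_real (P : ℕ) :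
    (3 * (nn P : ℝ)) ^ (2 ^ (P + 2) + 1) = (nn (P + 1) : ℝ) / (mm (P + 1) : ℝ) ^ 2 := by
  have h2 : 0 < mm (P + 1) := lt_of_lt_of_le (by norm_num) (two_le_mm (P + 1))
  have h3 : (0 : ℝ) < (mm (P + 1) : ℝ) := by exact_mod_cast h2
  rw [eq_div_iff (by positivity), nn]
  push_cast
  rfl

theorem nn_big (n : ℕ) : ∃ q, 0 < q ∧ Even q ∧ n ^ (2 ^ q + 1) ≤ nn q := by
  refine ⟨2 * n + 1 + 1, by omega, ⟨n + 1, by omega⟩, ?_⟩
  have h1 : 2 * n + 1 < nn (2 * n + 1) := lt_nn _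
  have h2 : 0 < mm (2 * n + 1 + 1) := lt_of_lt_of_le (by norm_num) (two_le_mm _)
  have h3 : 1 ≤ mm (2 * n + 1 + 1) ^ 2 := Nat.one_le_pow _ _ h2
  have h4 : 2 ^ (2 * n + 1 + 1) + 1 ≤ 2 ^ (2 * n + 1 + 2) + 1 :=
    Nat.add_le_add_right (Nat.pow_le_pow_right (by norm_num) (by omega)) 1
  rw [nn]
  calc n ^ (2 ^ (2 * n + 1 + 1) + 1) ≤ (3 * nn (2 * n + 1)) ^ (2 ^ (2 * n + 1 + 1) + 1) :=
        Nat.pow_le_pow_left (by omega) _
    _ ≤ (3 * nn (2 * n + 1)) ^ (2 ^ (2 * n + 1 + 2) + 1) :=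
        Nat.pow_le_pow_right (by omega) h4
    _ = (3 * nn (2 * n + 1)) ^ (2 ^ (2 * n + 1 + 2) + 1) * 1 := by rw [Nat.mul_one]
    _ ≤ (3 * nn (2 * n + 1)) ^ (2 ^ (2 * n + 1 + 2) + 1) * mm (2 * n + 1 + 1) ^ 2 :=
        Nat.mul_le_mul le_rfl h3

theorem sig_even (q : ℕ) (h : Hist) : Even (sig q h) := by
  cases h with
  | nil => exact even_two_mul _
  | cons x h => exact even_two_mul _

private theorem sig_form (q : ℕ) (h : Hist) :
    ∃ s, sig q h = 2 * Nat.pair (Nat.pair q (Encodable.encode h)) s := by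
  cases h with
  | nil => exact ⟨_, rfl⟩
  | cons x h => exact ⟨_, rfl⟩

theorem sig_inj {q q' : ℕ} {h h' : Hist} (e : sig q h = sig q' h') : q = q' ∧ h = h' := by
  obtain ⟨s, hs⟩ := sig_form q h
  obtain ⟨s', hs'⟩ := sig_form q' h'
  rw [hs, hs'] at e
  have e1 := Nat.eq_of_mul_eq_mul_left (by norm_num) e
  rw [Nat.pair_eq_pair, Nat.pair_eq_pair] at e1
  exact ⟨e1.1.1, Encodable.encode_injective e1.1.2⟩

private theorem sig_cons (q : ℕ) (x : Finset Row × ℕ) (h : Hist) :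
    sig q h + nn q ^ 2 + 2 ^ (h.length + 3) * (x.2 + 1) + 1 ≤ sig q (x :: h) := by
  have h1 : sig q (x :: h) = 2 * Nat.pair (Nat.pair q (Encodable.encode (x :: h : Hist)))
      (sig q h + nn q ^ 2 + 2 ^ (h.length + 3) * (x.2 + 1) + 1) := rfl
  have h2 := Nat.right_le_pair (Nat.pair q (Encodable.encode (x :: h : Hist)))
      (sig q h + nn q ^ 2 + 2 ^ (h.length + 3) * (x.2 + 1) + 1)
  omega

private theorem sig_nil (q : ℕ) : 2 * (q + 1 + nn q ^ 2) ≤ sig q [] := by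
  have h1 : sig q [] = 2 * Nat.pair (Nat.pair q (Encodable.encode ([] : Hist)))
      (q + 1 + nn q ^ 2) := rfl
  have h2 := Nat.right_le_pair (Nat.pair q (Encodable.encode ([] : Hist))) (q + 1 + nn q ^ 2)
  omega

theorem sig_lt (q : ℕ) (x : Finset Row × ℕ) (h : Hist) : sig q h < sig q (x :: h) := by
  have := sig_cons q x h
  omega

theorem nn_sq_le_sig (q : ℕ) (h : Hist) : nn q ^ 2 ≤ sig q h := by
  cases h with
  | nil => have := sig_nil q; omega
  | cons x h => have := sig_cons q x h; omega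

theorem lt_sig (q : ℕ) (h : Hist) : q < sig q h := by
  induction h with
  | nil => have := sig_nil q; omega
  | cons x h ih => have := sig_lt q x h; omega

theorem two_le_sig (q : ℕ) (h : Hist) : 2 ≤ sig q h := by
  induction h with
  | nil => have := sig_nil q; omega
  | cons x h ih => have := sig_lt q x h; omega

theorem sig_cut (q : ℕ) (x : Finset Row × ℕ) (h : Hist) :
    2 ^ (h.length + 3) * (x.2 + 1) ≤ sig q (x :: h) := by
  have := sig_cons q x h
  omega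

theorem length_hist (c : ℕ → ℕ) (S : ℕ → Finset Row) (i : ℕ) : (hist c S i).length = i := by
  induction i with
  | zero => rfl
  | succ i ih => rw [hist, List.length_cons, ih]

/-- Equal histories have equal earlier entries. -/
theorem hist_eq {c c' : ℕ → ℕ} {S S' : ℕ → Finset Row} {i j : ℕ}
    (h : hist c S i = hist c' S' j) : i = j ∧ ∀ l < i, S l = S' l := by
  have hij : i = j := by
    have h1 := congrArg List.length h
    rwa [length_hist, length_hist] at h1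
  subst hij
  refine ⟨rfl, ?_⟩
  induction i with
  | zero => intro l hl; omega
  | succ i ih =>
    rw [hist, hist, List.cons.injEq, Prod.mk.injEq] at h
    intro l hl
    rcases Nat.lt_succ_iff_lt_or_eq.mp hl with h1 | h1
    · exact ih h.2 l h1
    · rw [h1]; exact h.1.1

end Pool.Agent.UBN
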