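import Pool.Agent.UBN.Wb
import Pool.Agent.UBN.Par
import Pool.Agent.UBN.Defs2

/-!
# The easy estimate for rapidly increasing sequences

`easy`: split `A` into `low = {i : Q (i+1) ≤ q}` (use `r3`), `mid = {i : Q i ≤ q < Q (i+1)}` (at most one
element as `Q` is monotone; use `r1`) and `high = {i : q < Q i}` (use `r2`).
`easy_low`: the same for the part `{i ∈ A : Q i ≤ q}`.
-/

namespace Pool.Agent.UBN

open Finset

variable {Ω : Type} {row : Ω → Row} {N : ℕ → (Ω →₀ ℝ) → ℝ}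

theorem ez_abs_map_sum_le (φ : (Ω →₀ ℝ) →ₗ[ℝ] ℝ) (A : Finset ℕ) (x : ℕ → Ω →₀ ℝ) :
    |φ (∑ i ∈ A, x i)| ≤ ∑ i ∈ A, |φ (x i)| := by
  rw [map_sum]
  exact abs_sum_le_sum_abs _ _

theorem easy_low (hN : Inner row N) {a : ℕ → ℕ} {x : ℕ → Ω →₀ ℝ} {C : ℝ} {Q : ℕ → ℕ}
    (h : RIS row N a x C Q) {q : ℕ} {φ : (Ω →₀ ℝ) →ₗ[ℝ] ℝ} (hφ : W row N q φ)
    (A : Finset ℕ) (hA : ∀ i ∈ A, Q i ≤ q) :
    |φ (∑ i ∈ A, x i)| ≤ C + ∑ i ∈ A, C / 2 ^ (i + 1) := by
  have hC : 0 ≤ C := zero_le_one.trans h.one_le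
  have h1 : ∀ i ∈ A, |φ (x i)| ≤ C / 2 ^ (i + 1) + (if q < Q (i + 1) then C else 0) := by
    intro i _
    by_cases hi : q < Q (i + 1)
    · rw [if_pos hi]
      have := h.r1 i q φ hφ
      have h2 : 0 ≤ C / 2 ^ (i + 1) := by positivity
      linarith
    · rw [if_neg hi, add_zero]
      exact h.r3 i q φ hφ (not_lt.1 hi)
  have h2 : (A.filter (fun i => q < Q (i + 1))).card ≤ 1 := by
    rw [card_le_one]
    intro i hi j hj
    rw [mem_filter] at hi hj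
    by_contra hne
    rcases lt_or_gt_of_ne hne with hlt | hlt
    · have e1 := h.mono_Q (show i + 1 ≤ j from hlt)
      have e2 := hA j hj.1
      have e3 := hi.2
      omega
    · have e1 := h.mono_Q (show j + 1 ≤ i from hlt)
      have e2 := hA i hi.1
      have e3 := hj.2
      omega
  calc |φ (∑ i ∈ A, x i)| ≤ ∑ i ∈ A, |φ (x i)| := ez_abs_map_sum_le φ A x
    _ ≤ ∑ i ∈ A, (C / 2 ^ (i + 1) + (if q < Q (i + 1) then C else 0)) := sum_le_sum h1
    _ = ∑ i ∈ A, C / 2 ^ (i + 1) + (A.filter (fun i => q < Q (i + 1))).card * C := by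
        rw [sum_add_distrib, ← sum_filter, sum_const, nsmul_eq_mul]
    _ ≤ C + ∑ i ∈ A, C / 2 ^ (i + 1) := by
        have h3 : ((A.filter (fun i => q < Q (i + 1))).card : ℝ) ≤ 1 := by exact_mod_cast h2
        have h4 := mul_le_mul_of_nonneg_right h3 hC
        linarith

theorem easy (hN : Inner row N) {a : ℕ → ℕ} {x : ℕ → Ω →₀ ℝ} {C : ℝ} {Q : ℕ → ℕ}
    (h : RIS row N a x C Q) {q : ℕ} (hq : 0 < q) {φ : (Ω →₀ ℝ) →ₗ[ℝ] ℝ} (hφ : W row N q φ)
    (A : Finset ℕ) :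
    |φ (∑ i ∈ A, x i)| ≤ C + ∑ i ∈ A, C / 2 ^ (i + 1) + A.card * (C / mm q) := by
  have hC : 0 ≤ C := zero_le_one.trans h.one_le
  have hlow := easy_low hN h hφ (A.filter (fun i => Q i ≤ q)) (fun i hi => (mem_filter.1 hi).2)
  have hhigh : |φ (∑ i ∈ A.filter (fun i => ¬ Q i ≤ q), x i)| ≤ A.card * (C / mm q) := by
    calc |φ (∑ i ∈ A.filter (fun i => ¬ Q i ≤ q), x i)|
        ≤ ∑ i ∈ A.filter (fun i => ¬ Q i ≤ q), |φ (x i)| := ez_abs_map_sum_le φ _ x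
      _ ≤ ∑ i ∈ A.filter (fun i => ¬ Q i ≤ q), C / mm q := by
          refine sum_le_sum fun i hi => ?_
          exact h.r2 i q φ hφ hq (not_le.1 (mem_filter.1 hi).2)
      _ = (A.filter (fun i => ¬ Q i ≤ q)).card * (C / mm q) := by
          rw [sum_const, nsmul_eq_mul]
      _ ≤ A.card * (C / mm q) := by
          have h1 : ((A.filter (fun i => ¬ Q i ≤ q)).card : ℝ) ≤ A.card := by
            exact_mod_cast card_filter_le _ _
          exact mul_le_mul_of_nonneg_right h1 (by positivity)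
  have hsub : ∑ i ∈ A.filter (fun i => Q i ≤ q), C / 2 ^ (i + 1) ≤ ∑ i ∈ A, C / 2 ^ (i + 1) := by
    refine sum_le_sum_of_subset_of_nonneg (filter_subset _ _) ?_
    intro i _ _
    positivity
  have hsplit : ∑ i ∈ A, x i = ∑ i ∈ A.filter (fun i => Q i ≤ q), x i +
      ∑ i ∈ A.filter (fun i => ¬ Q i ≤ q), x i := (sum_filter_add_sum_filter_not _ _ _).symm
  rw [hsplit, map_add]
  calc |φ (∑ i ∈ A.filter (fun i => Q i ≤ q), x i) + φ (∑ i ∈ A.filter (fun i => ¬ Q i ≤ q), x i)|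
      ≤ |φ (∑ i ∈ A.filter (fun i => Q i ≤ q), x i)| +
        |φ (∑ i ∈ A.filter (fun i => ¬ Q i ≤ q), x i)| := abs_add_le _ _
    _ ≤ _ := by linarith

/-- `∑ C / 2 ^ (i + 1) ≤ C`. -/
theorem err_le {C : ℝ} (hC : 0 ≤ C) (A : Finset ℕ) : ∑ i ∈ A, C / 2 ^ (i + 1) ≤ C := by
  have h1 : ∀ n : ℕ, ∑ i ∈ range n, C / 2 ^ (i + 1) = C - C / 2 ^ n := by
    intro n
    induction n with
    | zero => simp
    | succ n ih =>
      rw [sum_range_succ, ih, pow_succ]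
      field_simp
      ring
  have h2 : A ⊆ range (A.sup id + 1) := by
    intro i hi
    rw [mem_range]
    have : id i ≤ A.sup id := le_sup hi
    simp only [id] at this
    omega
  calc ∑ i ∈ A, C / 2 ^ (i + 1) ≤ ∑ i ∈ range (A.sup id + 1), C / 2 ^ (i + 1) := by
        refine sum_le_sum_of_subset_of_nonneg h2 ?_
        intro i _ _
        positivity
    _ = C - C / 2 ^ (A.sup id + 1) := h1 _
    _ ≤ C := by
        have : 0 ≤ C / 2 ^ (A.sup id + 1) := by positivity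
        linarith

end Pool.Agent.UBN
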