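import Pool.Agent.UBN.Nod
import Pool.Agent.UBN.Ez
import Pool.Agent.UBN.Defs2

/-!
# The basic inequality

A rapidly increasing sequence `x` with constant `C` and indices `Q` (`RIS`).

`bi`: induction on `s`, for all `q φ A` simultaneously.  `s = 0`: every term is `≤ C` by `r1`.
Step `s → s + 1`: `q = 0` (leaf on the window `n`, see `Wb`): at most one `i` has
`a i ≤ n < a (i+1)`, the others give `0`, so `|φ (∑)| ≤ C`.  `q > P`: if `M ≤ mm q` use `easy`, otherwise
the second alternative of `hH` (the bound `C`).  `1 ≤ q ≤ P`: for `{i ∈ A : Q i ≤ q}` use `easy_low`;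
for `high = {i ∈ A : q < Q i}` use `node_est` with `γ = C / mm q`, `α = C (1 + (3 nn P) ^ s)`,
`β i = C (1/M + (1/2) ^ s) + C / 2 ^ (i+1)`, and `2 nn q + nn q (3 nn P) ^ s ≤ (3 nn P) ^ (s+1)`, `mm q ≥ 2`.
-/

namespace Pool.Agent.UBN

open Finset

variable {Ω : Type} {row : Ω → Row} {N : ℕ → (Ω →₀ ℝ) → ℝ}

/-- The node estimate for the part where the index is smaller than all the indices `Q i`. -/
theorem node_high (hN : Inner row N) {a : ℕ → ℕ} {x : ℕ → Ω →₀ ℝ} {C : ℝ} {Q : ℕ → ℕ}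
    (h : RIS row N a x C Q) (P : ℕ) {M : ℝ} (hM : 1 ≤ M) (s : ℕ) {q : ℕ} (hq : 0 < q)
    (hqP : q ≤ P) {φ : (Ω →₀ ℝ) →ₗ[ℝ] ℝ} (hφ : W row N q φ) (A : Finset ℕ)
    (hQ : ∀ i ∈ A, q < Q i)
    (h1 : ∀ r ψ, W row N r ψ → ∀ A' ⊆ A, |ψ (∑ i ∈ A', x i)| ≤
      C * (1 + A'.card * (1 / M + (1 / 2) ^ s) + (3 * (nn P : ℝ)) ^ s) +
        ∑ i ∈ A', C / 2 ^ (i + 1)) :
    |φ (∑ i ∈ A, x i)| ≤ (1 / (mm q : ℝ)) *
      (C * (A.card * (1 / M + (1 / 2) ^ s) + (3 * (nn P : ℝ)) ^ (s + 1)) +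
        ∑ i ∈ A, C / 2 ^ (i + 1)) := by
  have hC : 1 ≤ C := h.one_le
  have hC0 : 0 ≤ C := by linarith
  have hM0 : 0 < M := by linarith
  have hmq : (0 : ℝ) < mm q := by
    have := two_le_mm q
    have h2 : (2 : ℝ) ≤ mm q := by exact_mod_cast this
    linarith
  have hnP : (1 : ℝ) ≤ nn P := by exact_mod_cast nn_pos P
  have hnq : (nn q : ℝ) ≤ nn P := by exact_mod_cast nn_mono hqP
  have hpow : (1 : ℝ) ≤ (3 * (nn P : ℝ)) ^ s := one_le_pow₀ (by linarith)
  have hD : (0 : ℝ) ≤ 1 / M + (1 / 2) ^ s := by positivity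
  have key := node_est hN h.mono_a h.win hq hφ A
    (α := C * (1 + (3 * (nn P : ℝ)) ^ s)) (γ := C / mm q)
    (β := fun i => C * (1 / M + (1 / 2) ^ s) + C / 2 ^ (i + 1))
    (by positivity) (fun i => by positivity) (by positivity)
    (fun r ψ hψ A' hA' => by
      refine (h1 r ψ hψ A' hA').trans (le_of_eq ?_)
      rw [sum_add_distrib, sum_const, nsmul_eq_mul]
      ring)
    (fun i hi => h.r2 i q φ hφ hq (hQ i hi))
  refine key.trans ?_
  rw [sum_add_distrib, sum_const, nsmul_eq_mul]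
  set E : ℝ := ∑ i ∈ A, C / 2 ^ (i + 1) with hE
  set D : ℝ := 1 / M + (1 / 2) ^ s with hDdef
  set T : ℝ := (3 * (nn P : ℝ)) ^ s with hT
  have e1 : (nn q : ℝ) * (C / mm q) + 1 / (mm q : ℝ) *
      ((nn q : ℝ) * (C * (1 + T)) + ((A.card : ℝ) * (C * D) + E)) =
      1 / (mm q : ℝ) * (C * ((A.card : ℝ) * D + (2 * nn q + nn q * T)) + E) := by
    field_simp
    ring
  rw [e1]
  have h3 : 2 * (nn q : ℝ) + nn q * T ≤ (3 * (nn P : ℝ)) ^ (s + 1) := by
    rw [pow_succ, ← hT]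
    nlinarith
  have h4 : C * ((A.card : ℝ) * D + (2 * nn q + nn q * T)) ≤
      C * ((A.card : ℝ) * D + (3 * (nn P : ℝ)) ^ (s + 1)) :=
    mul_le_mul_of_nonneg_left (by linarith) hC0
  exact mul_le_mul_of_nonneg_left (by linarith) (by positivity)

/-- A leaf sees at most one block. -/
theorem leaf_le (hN : Inner row N) {a : ℕ → ℕ} {x : ℕ → Ω →₀ ℝ} {C : ℝ} {Q : ℕ → ℕ}
    (h : RIS row N a x C Q) {φ : (Ω →₀ ℝ) →ₗ[ℝ] ℝ} (hφ : W row N 0 φ) (A : Finset ℕ) :
    |φ (∑ i ∈ A, x i)| ≤ C := by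
  have hC : 1 ≤ C := h.one_le
  have hφ' := hφ
  generalize hq : (0 : ℕ) = q at hφ
  cases hφ with
  | node q d c S φ r hq' => omega
  | leaf n φ hl =>
    have h0 : ∀ i, ¬ (a i ≤ n ∧ n < a (i + 1)) → φ (x i) = 0 := by
      intro i hi
      have h1 : N n (x i) = N n 0 := by
        apply N_local hN n
        intro ω hω
        by_contra hne
        have := h.win i ω (by simpa using hne)
        rw [hω] at this
        exact hi this
      have h2 := hl (x i)
      rw [h1, N_zero hN] at h2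
      exact abs_eq_zero.1 (le_antisymm h2 (abs_nonneg _))
    rw [map_sum]
    rw [← sum_filter_of_ne (p := fun i => a i ≤ n ∧ n < a (i + 1))
      (fun i _ hne => by by_contra hi; exact hne (h0 i hi))]
    have hcard : (A.filter (fun i => a i ≤ n ∧ n < a (i + 1))).card ≤ 1 := by
      rw [card_le_one]
      intro i hi j hj
      simp only [mem_filter] at hi hj
      by_contra hne
      rcases Nat.lt_or_gt_of_ne hne with hlt | hlt
      · have := h.mono_a (show i + 1 ≤ j from hlt)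
        omega
      · have := h.mono_a (show j + 1 ≤ i from hlt)
        omega
    calc |∑ i ∈ A.filter (fun i => a i ≤ n ∧ n < a (i + 1)), φ (x i)|
        ≤ ∑ i ∈ A.filter (fun i => a i ≤ n ∧ n < a (i + 1)), |φ (x i)| := abs_sum_le_sum_abs _ _
      _ ≤ ∑ i ∈ A.filter (fun i => a i ≤ n ∧ n < a (i + 1)), C :=
          sum_le_sum (fun i _ => h.r1 i 0 φ hφ')
      _ = ((A.filter (fun i => a i ≤ n ∧ n < a (i + 1))).card : ℝ) * C := by
          rw [sum_const, nsmul_eq_mul]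
      _ ≤ 1 * C := by
          apply mul_le_mul_of_nonneg_right _ (by linarith)
          exact_mod_cast hcard
      _ = C := one_mul _

theorem bi (hN : Inner row N) {a : ℕ → ℕ} {x : ℕ → Ω →₀ ℝ} {C : ℝ} {Q : ℕ → ℕ}
    (h : RIS row N a x C Q) (P : ℕ) {M : ℝ} (hM : 1 ≤ M) (A0 : Finset ℕ)
    (hH : ∀ q, P < q → M ≤ mm q ∨
      ∀ φ, W row N q φ → ∀ A ⊆ A0, |φ (∑ i ∈ A, x i)| ≤ C)
    (s q : ℕ) (φ : (Ω →₀ ℝ) →ₗ[ℝ] ℝ) (hφ : W row N q φ) (A : Finset ℕ) (hA : A ⊆ A0) :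
    |φ (∑ i ∈ A, x i)| ≤
      C * (1 + A.card * (1 / M + (1 / 2) ^ s) + (3 * (nn P : ℝ)) ^ s) +
        ∑ i ∈ A, C / 2 ^ (i + 1) := by
  have hC : 1 ≤ C := h.one_le
  have hC0 : 0 ≤ C := by linarith
  have hM0 : 0 < M := by linarith
  have hnP : (1 : ℝ) ≤ nn P := by exact_mod_cast nn_pos P
  have hE : ∀ B : Finset ℕ, 0 ≤ ∑ i ∈ B, C / 2 ^ (i + 1) := fun B =>
    sum_nonneg (fun i _ => by positivity)
  -- whenever the value is at most `C`
  have triv : ∀ (s : ℕ) (A : Finset ℕ) (v : ℝ), v ≤ C → v ≤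
      C * (1 + A.card * (1 / M + (1 / 2) ^ s) + (3 * (nn P : ℝ)) ^ s) +
        ∑ i ∈ A, C / 2 ^ (i + 1) := by
    intro s A v hv
    have h1 : 0 ≤ (A.card : ℝ) * (1 / M + (1 / 2) ^ s) := by positivity
    have h2 : 0 ≤ (3 * (nn P : ℝ)) ^ s := by positivity
    have h3 : C * 1 ≤ C * (1 + A.card * (1 / M + (1 / 2) ^ s) + (3 * (nn P : ℝ)) ^ s) :=
      mul_le_mul_of_nonneg_left (by linarith) hC0
    have := hE A
    linarith
  induction s generalizing q φ A with
  | zero =>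
    rw [map_sum]
    have h1 : |∑ i ∈ A, φ (x i)| ≤ (A.card : ℝ) * C := by
      refine (abs_sum_le_sum_abs _ _).trans ?_
      refine (sum_le_sum (fun i _ => h.r1 i q φ hφ)).trans (le_of_eq ?_)
      rw [sum_const, nsmul_eq_mul]
    have h2 : (A.card : ℝ) * C ≤ C * (1 + A.card * (1 / M + (1 / 2) ^ 0) +
        (3 * (nn P : ℝ)) ^ 0) := by
      have h3 : 0 ≤ (A.card : ℝ) * (1 / M) := by positivity
      rw [pow_zero, pow_zero]
      nlinarith
    have := hE A
    linarith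
  | succ s ih =>
    rcases Nat.eq_zero_or_pos q with rfl | hq
    · exact triv _ _ _ (leaf_le hN h hφ A)
    rcases Nat.lt_or_ge P q with hPq | hqP
    · rcases hH q hPq with hMq | hbd
      · refine (easy hN h hq hφ A).trans ?_
        have h1 : (A.card : ℝ) * (C / mm q) ≤ (A.card : ℝ) * (C / M) := by
          apply mul_le_mul_of_nonneg_left _ (Nat.cast_nonneg _)
          exact div_le_div_of_nonneg_left hC0 hM0 hMq
        have h2 : 0 ≤ C * ((A.card : ℝ) * (1 / 2) ^ (s + 1)) := by positivity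
        have h3 : 0 ≤ C * (3 * (nn P : ℝ)) ^ (s + 1) := by positivity
        have h4 : C * (1 + A.card * (1 / M + (1 / 2) ^ (s + 1)) + (3 * (nn P : ℝ)) ^ (s + 1)) =
            C + (A.card : ℝ) * (C / M) + C * ((A.card : ℝ) * (1 / 2) ^ (s + 1)) +
              C * (3 * (nn P : ℝ)) ^ (s + 1) := by
          field_simp
          ring
        rw [h4]
        linarith
      · exact triv _ _ _ (hbd φ hφ A hA)
    · -- the main case
      have hsplit : ∑ i ∈ A, x i = ∑ i ∈ A.filter (fun i => q < Q i), x i +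
          ∑ i ∈ A.filter (fun i => ¬ q < Q i), x i := (sum_filter_add_sum_filter_not _ _ _).symm
      have hlow := easy_low hN h hφ (A.filter (fun i => ¬ q < Q i)) (fun i hi => by
        simp only [mem_filter] at hi
        omega)
      have hhigh := node_high hN h P hM s hq hqP hφ (A.filter (fun i => q < Q i))
        (fun i hi => (mem_filter.1 hi).2)
        (fun r ψ hψ A' hA' => ih r ψ hψ A' (hA'.trans ((filter_subset _ _).trans hA)))
      have hEs : ∑ i ∈ A, C / 2 ^ (i + 1) = ∑ i ∈ A.filter (fun i => q < Q i), C / 2 ^ (i + 1) +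
          ∑ i ∈ A.filter (fun i => ¬ q < Q i), C / 2 ^ (i + 1) :=
        (sum_filter_add_sum_filter_not _ _ _).symm
      rw [hsplit, map_add, hEs]
      refine (abs_add_le _ _).trans ?_
      have hm2 : (2 : ℝ) ≤ mm q := by exact_mod_cast two_le_mm q
      have hmi : 1 / (mm q : ℝ) ≤ 1 / 2 := one_div_le_one_div_of_le (by norm_num) hm2
      have hmi0 : 0 ≤ 1 / (mm q : ℝ) := by positivity
      have hcard : ((A.filter (fun i => q < Q i)).card : ℝ) ≤ A.card := by
        exact_mod_cast card_filter_le _ _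
      have hD : (0 : ℝ) ≤ 1 / M + (1 / 2) ^ s := by positivity
      have hT : 0 ≤ (3 * (nn P : ℝ)) ^ (s + 1) := by positivity
      have hEh := hE (A.filter (fun i => q < Q i))
      have b1 : (1 / (mm q : ℝ)) *
          (C * (((A.filter (fun i => q < Q i)).card : ℝ) * (1 / M + (1 / 2) ^ s) +
            (3 * (nn P : ℝ)) ^ (s + 1)) + ∑ i ∈ A.filter (fun i => q < Q i), C / 2 ^ (i + 1)) ≤
          (1 / 2) * (C * ((A.card : ℝ) * (1 / M + (1 / 2) ^ s) +
            (3 * (nn P : ℝ)) ^ (s + 1)) + ∑ i ∈ A.filter (fun i => q < Q i), C / 2 ^ (i + 1)) := by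
        apply mul_le_mul hmi _ _ (by norm_num)
        · have : C * (((A.filter (fun i => q < Q i)).card : ℝ) * (1 / M + (1 / 2) ^ s) +
            (3 * (nn P : ℝ)) ^ (s + 1)) ≤ C * ((A.card : ℝ) * (1 / M + (1 / 2) ^ s) +
            (3 * (nn P : ℝ)) ^ (s + 1)) := by
            apply mul_le_mul_of_nonneg_left _ hC0
            have := mul_le_mul_of_nonneg_right hcard hD
            linarith
          linarith
        · positivity
      have b2 : (1 / 2) * (C * ((A.card : ℝ) * (1 / M + (1 / 2) ^ s) +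
            (3 * (nn P : ℝ)) ^ (s + 1)) + ∑ i ∈ A.filter (fun i => q < Q i), C / 2 ^ (i + 1)) ≤
          C * ((A.card : ℝ) * (1 / M + (1 / 2) ^ (s + 1)) +
            (3 * (nn P : ℝ)) ^ (s + 1)) + ∑ i ∈ A.filter (fun i => q < Q i), C / 2 ^ (i + 1) := by
        have c1 : 0 ≤ C * ((A.card : ℝ) * (1 / M)) := by positivity
        have c2 : 0 ≤ C * (3 * (nn P : ℝ)) ^ (s + 1) := by positivity
        have c3 : (1 / 2) * (C * ((A.card : ℝ) * (1 / M + (1 / 2) ^ s) +
            (3 * (nn P : ℝ)) ^ (s + 1)) + ∑ i ∈ A.filter (fun i => q < Q i), C / 2 ^ (i + 1)) =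
            (1 / 2) * (C * ((A.card : ℝ) * (1 / M))) + C * ((A.card : ℝ) * (1 / 2) ^ (s + 1)) +
            (1 / 2) * (C * (3 * (nn P : ℝ)) ^ (s + 1)) +
            (1 / 2) * ∑ i ∈ A.filter (fun i => q < Q i), C / 2 ^ (i + 1) := by
          rw [pow_succ (1 / 2 : ℝ) s]
          ring
        rw [c3]
        have c4 : C * ((A.card : ℝ) * (1 / M + (1 / 2) ^ (s + 1)) +
            (3 * (nn P : ℝ)) ^ (s + 1)) = C * ((A.card : ℝ) * (1 / M)) +
            C * ((A.card : ℝ) * (1 / 2) ^ (s + 1)) + C * (3 * (nn P : ℝ)) ^ (s + 1) := by ring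
        rw [c4]
        linarith
      have b3 : C * (1 + (A.card : ℝ) * (1 / M + (1 / 2) ^ (s + 1)) + (3 * (nn P : ℝ)) ^ (s + 1)) =
          C + C * ((A.card : ℝ) * (1 / M + (1 / 2) ^ (s + 1)) + (3 * (nn P : ℝ)) ^ (s + 1)) := by
        ring
      rw [b3]
      linarith

end Pool.Agent.UBN
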