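import Pool.Agent.UBN.BI

/-!
# The basic inequality for a functional of small index

`node_est` with `γ = C / mm q`, `α = C (1 + (3 nn P) ^ s)`, `β i = C (1/M + (1/2) ^ s) + C / 2 ^ (i+1)`
(`h1` is `bi`, `h2` is `r2`), and `nn q ≤ nn P`, `2 nn P + nn P (3 nn P) ^ s ≤ (3 nn P) ^ (s+1)`.
-/

namespace Pool.Agent.UBN

open Finset

variable {Ω : Type} {row : Ω → Row} {N : ℕ → (Ω →₀ ℝ) → ℝ}

theorem bi_root (hN : Inner row N) {a : ℕ → ℕ} {x : ℕ → Ω →₀ ℝ} {C : ℝ} {Q : ℕ → ℕ}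
    (h : RIS row N a x C Q) (P : ℕ) {M : ℝ} (hM : 1 ≤ M) (A0 : Finset ℕ)
    (hH : ∀ q, P < q → M ≤ mm q ∨
      ∀ φ, W row N q φ → ∀ A ⊆ A0, |φ (∑ i ∈ A, x i)| ≤ C)
    (s : ℕ) {q : ℕ} (hq : 0 < q) (hqP : q ≤ P) {φ : (Ω →₀ ℝ) →ₗ[ℝ] ℝ} (hφ : W row N q φ)
    (A : Finset ℕ) (hA : A ⊆ A0) (hQ : ∀ i ∈ A, q < Q i) :
    |φ (∑ i ∈ A, x i)| ≤ (1 / (mm q : ℝ)) *
      (C * (A.card * (1 / M + (1 / 2) ^ s) + (3 * (nn P : ℝ)) ^ (s + 1)) +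
        ∑ i ∈ A, C / 2 ^ (i + 1)) :=
  node_high hN h P hM s hq hqP hφ A hQ
    (fun r ψ hψ A' hA' => bi hN h P hM A0 hH s r ψ hψ A' (hA'.trans hA))

end Pool.Agent.UBN
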