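import Pool.Agent.UBN.Cb

/-!
# The Banach space of a lattice norm

Put the norm `nrT` on a type synonym of `T →₀ ℝ` (or on the range of an isometric embedding) and let `W` be its
completion (`UniformSpace.Completion`); `f t` is the image of `single t 1`; `basis_of_dense` with `C = 1` (`mono`).
Keep all instances local.
-/

namespace Pool.Agent.UBN

open Pool.Agent.UUB Finset

theorem exists_space {T : Type} (nrT : (T →₀ ℝ) → ℝ) (hadd : ∀ x y, nrT (x + y) ≤ nrT x + nrT y)
    (hsmul : ∀ (c : ℝ) x, nrT (c • x) = |c| * nrT x) (hpos : ∀ x, x ≠ 0 → 0 < nrT x)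
    (hmono : ∀ x y : T →₀ ℝ, (∀ t, |x t| ≤ |y t|) → nrT x ≤ nrT y) :
    ∃ (W : Type) (_ : NormedAddCommGroup W) (_ : NormedSpace ℝ W) (_ : CompleteSpace W)
      (b : UnconditionalSchauderBasis T ℝ W), ∀ x : T →₀ ℝ, ‖x.sum fun t c => c • b t‖ = nrT x := by
  classical
  have hzero : nrT 0 = 0 := by
    have := hsmul 0 0
    rw [zero_smul, abs_zero, zero_mul] at this
    exact this
  let iN : Norm (T →₀ ℝ) := ⟨nrT⟩
  have core : NormedSpace.Core ℝ (T →₀ ℝ) :=
    { norm_nonneg := fun x => by
        by_cases hx : x = 0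
        · rw [hx]; exact hzero.ge
        · exact (hpos x hx).le
      norm_smul := fun c x => by
        rw [Real.norm_eq_abs]
        exact hsmul c x
      norm_triangle := fun x y => hadd x y
      norm_eq_zero_iff := fun x => by
        constructor
        · intro h
          by_contra hx
          exact absurd h (hpos x hx).ne'
        · rintro rfl
          exact hzero }
  let iG : NormedAddCommGroup (T →₀ ℝ) := NormedAddCommGroup.ofCore core
  let iS : NormedSpace ℝ (T →₀ ℝ) := NormedSpace.ofCore core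
  have hnorm : ∀ x : T →₀ ℝ, ‖x‖ = nrT x := fun x => rfl
  let W := UniformSpace.Completion (T →₀ ℝ)
  let ι : (T →₀ ℝ) →ₗᵢ[ℝ] W := UniformSpace.Completion.toComplₗᵢ
  let f : T → W := fun t => ι (Finsupp.single t 1)
  have hsum : ∀ (F : Finset T) (c : T → ℝ),
      ∑ t ∈ F, c t • f t = ι (∑ t ∈ F, Finsupp.single t (c t)) := by
    intro F c
    rw [map_sum]
    refine Finset.sum_congr rfl fun t _ => ?_
    change c t • ι (Finsupp.single t 1) = _
    rw [← ι.map_smul, Finsupp.smul_single, smul_eq_mul, mul_one]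
  have hval : ∀ (F : Finset T) (c : T → ℝ) (s : T),
      (∑ t ∈ F, Finsupp.single t (c t)) s = if s ∈ F then c s else 0 := by
    intro F c s
    rw [Finsupp.finsetSum_apply]
    simp only [Finsupp.single_apply]
    rw [Finset.sum_ite_eq' F s c]
  have hx : ∀ x : T →₀ ℝ, (x.sum fun t c => c • f t) = ι x := by
    intro x
    rw [Finsupp.sum, hsum]
    congr 1
    exact Finsupp.sum_single x
  have hd : (Submodule.span ℝ (Set.range f)).topologicalClosure = ⊤ := by
    rw [← Submodule.dense_iff_topologicalClosure_eq_top]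
    have h1 : DenseRange ι := UniformSpace.Completion.denseRange_coe
    refine h1.mono ?_
    rintro _ ⟨x, rfl⟩
    rw [← hx x]
    exact Submodule.sum_mem _ fun t _ => Submodule.smul_mem _ _ (Submodule.subset_span ⟨t, rfl⟩)
  have hne : ∀ t, f t ≠ 0 := by
    intro t h
    have h1 : ‖f t‖ = nrT (Finsupp.single t 1) := by
      change ‖ι _‖ = _
      rw [ι.norm_map]
      exact hnorm _
    rw [h, norm_zero] at h1
    have h2 : (Finsupp.single t (1 : ℝ)) ≠ 0 := by simp
    exact absurd h1.symm (hpos _ h2).ne'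
  have hC : ∀ (F : Finset T) (c θ : T → ℝ), (∀ t, |θ t| ≤ 1) →
      ‖∑ t ∈ F, (θ t * c t) • f t‖ ≤ 1 * ‖∑ t ∈ F, c t • f t‖ := by
    intro F c θ hθ
    rw [hsum F (fun t => θ t * c t), hsum F c, ι.norm_map, ι.norm_map, one_mul, hnorm, hnorm]
    refine hmono _ _ fun s => ?_
    rw [hval, hval]
    split_ifs
    · rw [abs_mul]
      exact mul_le_of_le_one_left (abs_nonneg _) (hθ s)
    · exact le_refl _
  obtain ⟨b, hb⟩ := basis_of_dense f hd hne 1 hC
  refine ⟨W, inferInstance, inferInstance, inferInstance, b, fun x => ?_⟩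
  have h1 : (x.sum fun t c => c • b t) = ι x := by
    rw [← hx x]
    refine Finset.sum_congr rfl fun t _ => ?_
    change x t • b t = x t • f t
    rw [hb]
  rw [h1, ι.norm_map]
  exact hnorm x

end Pool.Agent.UBN
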