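import Pool.Agent.UBN.Wn
import Pool.Agent.UBN.Spc
import Pool.Agent.UBN.A0

/-!
# Bands

* `rigB`: every field of `RigN (rowB A) (nrB A)` follows from `rigO` for `x.mapDomain Subtype.val`
  (`Subtype.val` is injective; `(mapDomain val x) ω = x ⟨ω, _⟩` or `0`; it is linear and commutes with `rres`,
  keeps `l2`).
* `exists_amb`: `exists_space` for `T = Ω ⊕ ℕ`, `nrT z = max (nr (z on Ω)) (l2 (z on ℕ))`.
-/

namespace Pool.Agent.UBN

open Pool.Agent.UUB Finset

theorem mapDomain_val_apply {A : Set Om} (x : A →₀ ℝ) (ω : A) :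
    x.mapDomain Subtype.val ω.1 = x ω := Finsupp.mapDomain_apply Subtype.val_injective x ω

theorem mapDomain_val_notMem {A : Set Om} (x : A →₀ ℝ) {ω : Om} (h : ω ∉ A) :
    x.mapDomain Subtype.val ω = 0 := by
  refine Finsupp.mapDomain_of_notMem_range x ω ?_
  rintro ⟨a, rfl⟩
  exact h a.2

private theorem bn_l2 {α : Type} (x : α →₀ ℝ) {F : Finset α} (hF : ∀ ω, x ω ≠ 0 → ω ∈ F) :
    l2 x = Real.sqrt (∑ ω ∈ F, x ω ^ 2) := by
  unfold l2
  congr 1
  refine Finset.sum_subset (fun ω hω => hF ω (Finsupp.mem_support_iff.1 hω)) ?_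
  intro ω _ h2
  rw [Finsupp.notMem_support_iff.1 h2]
  norm_num

theorem l2_mapDomain {A : Set Om} (x : A →₀ ℝ) :
    l2 (x.mapDomain (Subtype.val : A → Om)) = l2 x := by
  classical
  rw [bn_l2 (x.mapDomain (Subtype.val : A → Om)) (F := x.support.map ⟨Subtype.val, Subtype.val_injective⟩)]
  · rw [Finset.sum_map]
    unfold l2
    congr 1
    refine Finset.sum_congr rfl (fun ω _ => ?_)
    rw [Function.Embedding.coeFn_mk, mapDomain_val_apply]
  · intro ω hω
    by_cases h : ω ∈ A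
    · rw [Finset.mem_map]
      refine ⟨⟨ω, h⟩, ?_, rfl⟩
      rw [Finsupp.mem_support_iff]
      intro h0
      exact hω ((mapDomain_val_apply x ⟨ω, h⟩).trans h0)
    · exact absurd (mapDomain_val_notMem x h) hω

theorem rres_mapDomain {A : Set Om} (x : A →₀ ℝ) (T : Set Row) :
    rres rowO T (x.mapDomain (Subtype.val : A → Om)) =
      (rres (rowB A) T x).mapDomain (Subtype.val : A → Om) := by
  ext ω
  rw [rres_apply]
  by_cases h : ω ∈ A
  · have h1 := mapDomain_val_apply x ⟨ω, h⟩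
    have h2 := mapDomain_val_apply (rres (rowB A) T x) ⟨ω, h⟩
    rw [rres_apply] at h2
    have h3 : rowB A ⟨ω, h⟩ = rowO ω := rfl
    rw [h3] at h2
    rw [h2]
    split_ifs
    · exact h1
    · rfl
  · rw [mapDomain_val_notMem _ h, mapDomain_val_notMem _ h]
    split_ifs <;> rfl

private theorem bn_ne {A : Set Om} {x : A →₀ ℝ} {ω : Om}
    (h : x.mapDomain Subtype.val ω ≠ 0) : ∃ hω : ω ∈ A, x ⟨ω, hω⟩ ≠ 0 := by
  by_cases hω : ω ∈ A
  · refine ⟨hω, ?_⟩
    intro h0
    exact h ((mapDomain_val_apply x ⟨ω, hω⟩).trans h0)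
  · exact absurd (mapDomain_val_notMem x hω) h

private theorem bn_abs {A : Set Om} {x y : A →₀ ℝ} (h : ∀ ω, |x ω| ≤ |y ω|) (ω : Om) :
    |x.mapDomain Subtype.val ω| ≤ |y.mapDomain Subtype.val ω| := by
  by_cases hω : ω ∈ A
  · have h1 := mapDomain_val_apply x ⟨ω, hω⟩
    have h2 := mapDomain_val_apply y ⟨ω, hω⟩
    have h3 := h ⟨ω, hω⟩
    rw [← h1, ← h2] at h3
    exact h3
  · rw [mapDomain_val_notMem x hω, mapDomain_val_notMem y hω]

private theorem bn_win {A : Set Om} {x : A →₀ ℝ} {a b : ℕ} (h : Win (rowB A) x a b) :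
    Win rowO (x.mapDomain Subtype.val) a b := by
  intro ω hω
  obtain ⟨h1, h2⟩ := bn_ne hω
  exact h ⟨ω, h1⟩ h2

private theorem bn_sum {A : Set Om} {ι : Type} (F : Finset ι) (t : ι → ℝ) (x : ι → A →₀ ℝ) :
    (∑ l ∈ F, t l • x l).mapDomain (Subtype.val : A → Om) =
      ∑ l ∈ F, t l • (x l).mapDomain (Subtype.val : A → Om) := by
  rw [Finsupp.mapDomain_finsetSum]
  exact Finset.sum_congr rfl (fun l _ => Finsupp.mapDomain_smul _ _)

private theorem bn_zero {A : Set Om} {x : A →₀ ℝ}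
    (h : x.mapDomain (Subtype.val : A → Om) = 0) : x = 0 := by
  ext ω
  rw [← mapDomain_val_apply x ω, h]
  rfl

theorem rigB (A : Set Om) : RigN (rowB A) (nrB A) where
  add_le := by
    intro x y
    unfold nrB
    rw [Finsupp.mapDomain_add]
    exact rigO.add_le _ _
  smul := by
    intro c x
    unfold nrB
    rw [Finsupp.mapDomain_smul]
    exact rigO.smul _ _
  pos := by
    intro x hx
    exact rigO.pos _ (fun h => hx (bn_zero h))
  mono := fun x y h => rigO.mono _ _ (bn_abs h)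
  fin := by
    intro n
    exact (rigO.fin n).preimage (f := (Subtype.val : A → Om)) Subtype.val_injective.injOn
  single := by
    intro k x hx
    rw [← l2_mapDomain x]
    refine rigO.single k _ (fun ω hω => ?_)
    obtain ⟨h1, h2⟩ := bn_ne hω
    exact hx ⟨ω, h1⟩ h2
  rot := by
    intro C R0 x y hC hR hy hl
    refine rigO.rot C R0 _ _ hC hR (fun ω hω => ?_) (fun k hk => ?_)
    · obtain ⟨h1, h2⟩ := bn_ne hω
      exact hy ⟨ω, h1⟩ h2
    · rw [rres_mapDomain, rres_mapDomain, l2_mapDomain, l2_mapDomain]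
      exact hl k hk
  noL2 := by
    intro C
    obtain ⟨d, hd, h⟩ := rigO.noL2 C
    refine ⟨d, hd, fun a x ha hw h1 => ?_⟩
    have h2 := h a (fun i => (x i).mapDomain Subtype.val) ha (fun i hi => bn_win (hw i hi)) h1
    have h3 : (∑ i ∈ range d, x i).mapDomain (Subtype.val : A → Om) =
        ∑ i ∈ range d, (x i).mapDomain (Subtype.val : A → Om) := Finsupp.mapDomain_finsetSum
    unfold nrB
    rw [h3]
    exact h2
  rig := by
    intro a x y K ha hx hy hd h0 hxy hyx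
    refine rigO.rig a (fun l => (x l).mapDomain Subtype.val) (fun l => (y l).mapDomain Subtype.val) K
      ha (fun l => bn_win (hx l)) (fun l => bn_win (hy l)) ?_ (fun l h => h0 l (bn_zero h)) ?_ ?_
    · intro l ω ω' h1 h2
      obtain ⟨h3, h4⟩ := bn_ne h1
      obtain ⟨h5, h6⟩ := bn_ne h2
      exact hd l ⟨ω, h3⟩ ⟨ω', h5⟩ h4 h6
    · intro F t
      rw [← bn_sum, ← bn_sum]
      exact hxy F t
    · intro F t
      rw [← bn_sum, ← bn_sum]
      exact hyx F t

private theorem bn_l2_add {α : Type} (x y : α →₀ ℝ) : l2 (x + y) ≤ l2 x + l2 y := by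
  classical
  have hx : ∀ ω, x ω ≠ 0 → ω ∈ x.support ∪ y.support := fun ω h =>
    Finset.mem_union_left _ (Finsupp.mem_support_iff.2 h)
  have hy : ∀ ω, y ω ≠ 0 → ω ∈ x.support ∪ y.support := fun ω h =>
    Finset.mem_union_right _ (Finsupp.mem_support_iff.2 h)
  have hxy : ∀ ω, (x + y) ω ≠ 0 → ω ∈ x.support ∪ y.support := by
    intro ω h
    by_cases h1 : x ω = 0
    · refine hy ω (fun h2 => h ?_)
      rw [Finsupp.add_apply, h1, h2, add_zero]
    · exact hx ω h1
  rw [bn_l2 x hx, bn_l2 y hy, bn_l2 _ hxy]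
  set F := x.support ∪ y.support
  have hf : 0 ≤ ∑ i ∈ F, x i ^ 2 := Finset.sum_nonneg (fun i _ => sq_nonneg _)
  have hg : 0 ≤ ∑ i ∈ F, y i ^ 2 := Finset.sum_nonneg (fun i _ => sq_nonneg _)
  refine Real.sqrt_le_iff.2 ⟨add_nonneg (Real.sqrt_nonneg _) (Real.sqrt_nonneg _), ?_⟩
  have h1 := Real.sum_mul_le_sqrt_mul_sqrt F x y
  have h2 : ∑ i ∈ F, (x + y) i ^ 2 =
      ∑ i ∈ F, x i ^ 2 + 2 * ∑ i ∈ F, x i * y i + ∑ i ∈ F, y i ^ 2 := by
    rw [Finset.mul_sum, ← Finset.sum_add_distrib, ← Finset.sum_add_distrib]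
    refine Finset.sum_congr rfl (fun i _ => ?_)
    rw [Finsupp.add_apply]
    ring
  rw [h2, add_sq, Real.sq_sqrt hf, Real.sq_sqrt hg]
  linarith

private theorem bn_l2_smul {α : Type} (c : ℝ) (x : α →₀ ℝ) : l2 (c • x) = |c| * l2 x := by
  have h0 : ∀ ω, (c • x) ω ≠ 0 → ω ∈ x.support := by
    intro ω h
    rw [Finsupp.mem_support_iff]
    intro h1
    apply h
    rw [Finsupp.smul_apply, h1, smul_zero]
  rw [bn_l2 _ h0]
  unfold l2
  have h1 : ∑ ω ∈ x.support, (c • x) ω ^ 2 = c ^ 2 * ∑ ω ∈ x.support, x ω ^ 2 := by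
    rw [Finset.mul_sum]
    refine Finset.sum_congr rfl (fun ω _ => ?_)
    rw [Finsupp.smul_apply, smul_eq_mul]
    ring
  rw [h1, Real.sqrt_mul (sq_nonneg c), Real.sqrt_sq_eq_abs]

private theorem bn_l2_mono {α : Type} {x y : α →₀ ℝ} (h : ∀ ω, |x ω| ≤ |y ω|) : l2 x ≤ l2 y := by
  have h0 : ∀ ω, x ω ≠ 0 → ω ∈ y.support := by
    intro ω hω
    rw [Finsupp.mem_support_iff]
    intro h1
    have h2 := h ω
    rw [h1, abs_zero] at h2
    exact hω (abs_eq_zero.1 (le_antisymm h2 (abs_nonneg _)))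
  rw [bn_l2 x h0]
  unfold l2
  exact Real.sqrt_le_sqrt (Finset.sum_le_sum (fun ω _ => sq_le_sq.2 (h ω)))

private theorem bn_l2_pos {α : Type} {x : α →₀ ℝ} (h : x ≠ 0) : 0 < l2 x := by
  obtain ⟨a, ha⟩ := Finsupp.ne_iff.1 h
  rw [Finsupp.zero_apply] at ha
  refine Real.sqrt_pos.2 ?_
  refine lt_of_lt_of_le ?_ (Finset.single_le_sum (f := fun ω => x ω ^ 2) (fun i _ => sq_nonneg _)
    (Finsupp.mem_support_iff.2 ha))
  positivity

/-- restriction to the left part -/
private noncomputable def bn_L {Ω : Type} (z : Ω ⊕ ℕ →₀ ℝ) : Ω →₀ ℝ :=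
  z.comapDomain Sum.inl Sum.inl_injective.injOn

private noncomputable def bn_R {Ω : Type} (z : Ω ⊕ ℕ →₀ ℝ) : ℕ →₀ ℝ :=
  z.comapDomain Sum.inr Sum.inr_injective.injOn

private theorem bn_L_apply {Ω : Type} (z : Ω ⊕ ℕ →₀ ℝ) (ω : Ω) : bn_L z ω = z (Sum.inl ω) :=
  Finsupp.comapDomain_apply _ _ _ _

private theorem bn_R_apply {Ω : Type} (z : Ω ⊕ ℕ →₀ ℝ) (m : ℕ) : bn_R z m = z (Sum.inr m) :=
  Finsupp.comapDomain_apply _ _ _ _

theorem exists_amb {Ω : Type} {row : Ω → Row} {nr : (Ω →₀ ℝ) → ℝ} (h : RigN row nr) :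
    ∃ (W : Type) (_ : NormedAddCommGroup W) (_ : NormedSpace ℝ W) (_ : CompleteSpace W)
      (e : UnconditionalSchauderBasis (Ω ⊕ ℕ) ℝ W), Amb row nr e := by
  have hLadd : ∀ x y : Ω ⊕ ℕ →₀ ℝ, bn_L (x + y) = bn_L x + bn_L y := by
    intro x y
    ext ω
    rw [Finsupp.add_apply, bn_L_apply, bn_L_apply, bn_L_apply, Finsupp.add_apply]
  have hRadd : ∀ x y : Ω ⊕ ℕ →₀ ℝ, bn_R (x + y) = bn_R x + bn_R y := by
    intro x y
    ext ω
    rw [Finsupp.add_apply, bn_R_apply, bn_R_apply, bn_R_apply, Finsupp.add_apply]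
  have hLsmul : ∀ (c : ℝ) (x : Ω ⊕ ℕ →₀ ℝ), bn_L (c • x) = c • bn_L x := by
    intro c x
    ext ω
    rw [Finsupp.smul_apply, bn_L_apply, bn_L_apply, Finsupp.smul_apply]
  have hRsmul : ∀ (c : ℝ) (x : Ω ⊕ ℕ →₀ ℝ), bn_R (c • x) = c • bn_R x := by
    intro c x
    ext ω
    rw [Finsupp.smul_apply, bn_R_apply, bn_R_apply, Finsupp.smul_apply]
  obtain ⟨W, i1, i2, i3, b, hb⟩ := exists_space (T := Ω ⊕ ℕ)
    (fun z => max (nr (bn_L z)) (l2 (bn_R z)))
    (by
      intro x y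
      rw [hLadd, hRadd]
      refine max_le ?_ ?_
      · exact (h.add_le _ _).trans (add_le_add (le_max_left _ _) (le_max_left _ _))
      · exact (bn_l2_add _ _).trans (add_le_add (le_max_right _ _) (le_max_right _ _)))
    (by
      intro c x
      rw [hLsmul, hRsmul, h.smul, bn_l2_smul, mul_max_of_nonneg _ _ (abs_nonneg c)])
    (by
      intro x hx
      by_cases h1 : bn_L x = 0
      · have h2 : bn_R x ≠ 0 := by
          intro h2
          apply hx
          ext s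
          rcases s with ω | m
          · rw [← bn_L_apply, h1]
            rfl
          · rw [← bn_R_apply, h2]
            rfl
        exact lt_of_lt_of_le (bn_l2_pos h2) (le_max_right _ _)
      · exact lt_of_lt_of_le (h.pos _ h1) (le_max_left _ _))
    (by
      intro x y hxy
      refine max_le_max (h.mono _ _ (fun ω => ?_)) (bn_l2_mono (fun m => ?_))
      · rw [bn_L_apply, bn_L_apply]
        exact hxy _
      · rw [bn_R_apply, bn_R_apply]
        exact hxy _)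
  refine ⟨W, i1, i2, i3, b, h, fun x y => ?_⟩
  have h1 := hb (x.mapDomain Sum.inl + y.mapDomain Sum.inr)
  have hL : bn_L (x.mapDomain Sum.inl + y.mapDomain Sum.inr) = x := by
    ext ω
    rw [bn_L_apply, Finsupp.add_apply, Finsupp.mapDomain_apply Sum.inl_injective,
      Finsupp.mapDomain_of_notMem_range, add_zero]
    rintro ⟨m, hm⟩
    exact Sum.inr_ne_inl hm
  have hR : bn_R (x.mapDomain Sum.inl + y.mapDomain Sum.inr) = y := by
    ext m
    rw [bn_R_apply, Finsupp.add_apply, Finsupp.mapDomain_apply Sum.inr_injective,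
      Finsupp.mapDomain_of_notMem_range, zero_add]
    rintro ⟨ω, hω⟩
    exact Sum.inl_ne_inr hω
  simp only [hL, hR] at h1
  rw [← h1]
  congr 1
  rw [Finsupp.sum_add_index' (h := fun t c => c • b t) (fun t => zero_smul ℝ _)
      (fun t c d => add_smul c d _),
    Finsupp.sum_mapDomain_index (h := fun t c => c • b t) (fun t => zero_smul ℝ _)
      (fun t c d => add_smul c d _),
    Finsupp.sum_mapDomain_index (h := fun t c => c • b t) (fun t => zero_smul ℝ _)
      (fun t c d => add_smul c d _)]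

theorem exists_ambB (A : Set Om) :
    ∃ (W : Type) (_ : NormedAddCommGroup W) (_ : NormedSpace ℝ W) (_ : CompleteSpace W)
      (e : UnconditionalSchauderBasis (A ⊕ ℕ) ℝ W), Amb (rowB A) (nrB A) e :=
  exists_amb (rigB A)

/-- The norm of a vector of a band in one window. -/
theorem nrB_window {A : Set Om} {n : ℕ} {x : A →₀ ℝ} (h : ∀ ω, x ω ≠ 0 → (rowB A ω).1 = n) :
    nrB A x = Nw n (x.mapDomain Subtype.val) := by
  refine nrO_window (fun ω hω => ?_)
  obtain ⟨h1, h2⟩ := bn_ne hω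
  exact h ⟨ω, h1⟩ h2

end Pool.Agent.UBN
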