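import Pool.Agent.UUB.CTS

/-!
# A criterion for unconditional bases

`θ = indicator of t`: `|c t| ‖f t‖ ≤ C ‖∑ c f‖`, so `f` is linearly independent and the coordinate functionals
on the span extend to continuous functionals on `W` (density).  The projections `P_F w = ∑_{t ∈ F} coord t w • f t`
are bounded by `C` and converge to the identity on the span, hence everywhere.
-/

namespace Pool.Agent.UBN

open Pool.Agent.UUB Finset

section cb

variable {T : Type} {W : Type} [NormedAddCommGroup W] [NormedSpace ℝ W] (f : T → W)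

/-- the vector with coefficients `x` -/
private noncomputable def lc : (T →₀ ℝ) →ₗ[ℝ] W := Finsupp.linearCombination ℝ f

private theorem lc_apply (x : T →₀ ℝ) : lc f x = ∑ t ∈ x.support, x t • f t := by
  rw [lc, Finsupp.linearCombination_apply, Finsupp.sum]

private theorem lc_sup (x : T →₀ ℝ) (F : Finset T) (hF : x.support ⊆ F) :
    lc f x = ∑ t ∈ F, x t • f t := by
  rw [lc_apply]
  refine Finset.sum_subset hF fun t _ ht => ?_
  rw [Finsupp.notMem_support_iff.1 ht, zero_smul]

variable {f} {C : ℝ}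

private theorem coord_bd (h : ∀ (F : Finset T) (c θ : T → ℝ), (∀ t, |θ t| ≤ 1) →
      ‖∑ t ∈ F, (θ t * c t) • f t‖ ≤ C * ‖∑ t ∈ F, c t • f t‖) (x : T →₀ ℝ) (t : T) :
    |x t| * ‖f t‖ ≤ C * ‖lc f x‖ := by
  classical
  have h1 := h (insert t x.support) x (fun s => if s = t then 1 else 0)
    (fun s => by split_ifs <;> simp)
  rw [← lc_sup f x _ (Finset.subset_insert _ _)] at h1
  have h2 : ∑ s ∈ insert t x.support, ((if s = t then (1 : ℝ) else 0) * x s) • f s = x t • f t := by
    rw [Finset.sum_eq_single t]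
    · rw [if_pos rfl, one_mul]
    · intro s _ hs
      rw [if_neg hs, zero_mul, zero_smul]
    · intro hn
      exact absurd (Finset.mem_insert_self _ _) hn
  rw [h2, norm_smul, Real.norm_eq_abs] at h1
  exact h1

private theorem exists_coord (hne : ∀ t, f t ≠ 0)
    (h : ∀ (F : Finset T) (c θ : T → ℝ), (∀ t, |θ t| ≤ 1) →
      ‖∑ t ∈ F, (θ t * c t) • f t‖ ≤ C * ‖∑ t ∈ F, c t • f t‖) (t : T) :
    ∃ g : StrongDual ℝ W, ∀ x : T →₀ ℝ, g (lc f x) = x t := by
  have hinj : Function.Injective (lc f) := by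
    rw [← LinearMap.ker_eq_bot, LinearMap.ker_eq_bot']
    intro x hx
    ext s
    have h1 := coord_bd h x s
    rw [hx, norm_zero, mul_zero] at h1
    have h2 : 0 < ‖f s‖ := norm_pos_iff.2 (hne s)
    have h3 : |x s| ≤ 0 := by
      by_contra hc
      push Not at hc
      exact absurd h1 (not_le.2 (mul_pos hc h2))
    simpa using abs_nonpos_iff.1 h3
  let e := LinearEquiv.ofInjective (lc f) hinj
  let φ : LinearMap.range (lc f) →ₗ[ℝ] ℝ := (Finsupp.lapply t) ∘ₗ e.symm.toLinearMap
  have hφ : ∀ v : LinearMap.range (lc f), ‖φ v‖ ≤ C / ‖f t‖ * ‖v‖ := by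
    intro v
    have h2 : 0 < ‖f t‖ := norm_pos_iff.2 (hne t)
    have h1 := coord_bd h (e.symm v) t
    have h3 : lc f (e.symm v) = v := by
      have := e.apply_symm_apply v
      exact congrArg Subtype.val this
    rw [h3] at h1
    have h4 : ‖φ v‖ = |e.symm v t| := rfl
    rw [h4, div_mul_eq_mul_div, le_div_iff₀ h2]
    exact h1
  obtain ⟨g, hg, -⟩ := exists_extension_norm_eq (LinearMap.range (lc f))
    (LinearMap.mkContinuous φ (C / ‖f t‖) hφ)
  refine ⟨g, fun x => ?_⟩
  have h5 := hg ⟨lc f x, LinearMap.mem_range_self _ x⟩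
  have h6 : e.symm ⟨lc f x, LinearMap.mem_range_self _ x⟩ = x := by
    rw [LinearEquiv.symm_apply_eq]
    rfl
  change g (lc f x) = φ ⟨lc f x, LinearMap.mem_range_self _ x⟩ at h5
  rw [h5]
  change (e.symm ⟨lc f x, LinearMap.mem_range_self _ x⟩) t = x t
  rw [h6]

end cb

theorem basis_of_dense {T : Type} {W : Type} [NormedAddCommGroup W] [NormedSpace ℝ W]
    [CompleteSpace W] (f : T → W) (hd : (Submodule.span ℝ (Set.range f)).topologicalClosure = ⊤)
    (hne : ∀ t, f t ≠ 0) (C : ℝ)
    (h : ∀ (F : Finset T) (c θ : T → ℝ), (∀ t, |θ t| ≤ 1) →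
      ‖∑ t ∈ F, (θ t * c t) • f t‖ ≤ C * ‖∑ t ∈ F, c t • f t‖) :
    ∃ b : UnconditionalSchauderBasis T ℝ W, ∀ t, b t = f t := by
  classical
  choose g hg using exists_coord hne h
  have hspan : ∀ v ∈ Submodule.span ℝ (Set.range f), ∃ x : T →₀ ℝ, lc f x = v := by
    intro v hv
    rw [Finsupp.mem_span_range_iff_exists_finsupp] at hv
    obtain ⟨x, hx⟩ := hv
    exact ⟨x, by rw [lc_apply]; exact hx⟩
  have hdense : Dense (Submodule.span ℝ (Set.range f) : Set W) := by
    rw [Submodule.dense_iff_topologicalClosure_eq_top]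
    exact hd
  have hb : ∀ (F : Finset T) (w : W), ‖∑ t ∈ F, g t w • f t‖ ≤ |C| * ‖w‖ := by
    intro F w
    have hcl : IsClosed {w : W | ‖∑ t ∈ F, g t w • f t‖ ≤ |C| * ‖w‖} := by
      refine isClosed_le ?_ ?_
      · fun_prop
      · fun_prop
    have hsub : (Submodule.span ℝ (Set.range f) : Set W) ⊆
        {w : W | ‖∑ t ∈ F, g t w • f t‖ ≤ |C| * ‖w‖} := by
      intro v hv
      obtain ⟨x, rfl⟩ := hspan v hv
      have h1 := h (x.support ∪ F) x (fun t => if t ∈ F then 1 else 0)
        (fun t => by split_ifs <;> simp)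
      rw [← lc_sup f x _ Finset.subset_union_left] at h1
      have h2 : ∑ t ∈ x.support ∪ F, ((if t ∈ F then (1 : ℝ) else 0) * x t) • f t =
          ∑ t ∈ F, g t (lc f x) • f t := by
        have h3 : ∀ t ∈ x.support ∪ F, ((if t ∈ F then (1 : ℝ) else 0) * x t) • f t =
            if t ∈ F then x t • f t else 0 := by
          intro t _
          split_ifs <;> simp
        rw [Finset.sum_congr rfl h3, Finset.sum_ite_mem,
          Finset.inter_eq_right.2 Finset.subset_union_right]
        exact Finset.sum_congr rfl fun t _ => by rw [hg]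
      rw [h2] at h1
      exact h1.trans (mul_le_mul_of_nonneg_right (le_abs_self C) (norm_nonneg _))
    have := closure_minimal hsub hcl
    rw [hdense.closure_eq] at this
    exact this (Set.mem_univ w)
  refine ⟨⟨f, g, ?_, ?_⟩, fun t => rfl⟩
  · intro i j
    have h1 : lc f (Finsupp.single j 1) = f j := by
      rw [lc, Finsupp.linearCombination_single, one_smul]
    rw [← h1, hg, Finsupp.single_eq_pi_single]
  · intro w
    rw [HasSum, SummationFilter.unconditional_filter, Metric.tendsto_atTop]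
    intro ε hε
    have hK : 0 < |C| + 1 := by positivity
    obtain ⟨v, hv, hvw⟩ := Metric.dense_iff.1 hdense w (ε / (|C| + 1)) (by positivity)
    obtain ⟨x, rfl⟩ := hspan v hvw
    refine ⟨x.support, fun F hF => ?_⟩
    have h1 : ∑ t ∈ F, g t (lc f x) • f t = lc f x := by
      rw [lc_sup f x F hF]
      exact Finset.sum_congr rfl fun t _ => by rw [← lc_sup f x F hF, hg]
    have h2 : ∑ t ∈ F, g t w • f t - w =
        (∑ t ∈ F, g t (w - lc f x) • f t) - (w - lc f x) := by
      have h3 : ∑ t ∈ F, g t (w - lc f x) • f t =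
          ∑ t ∈ F, g t w • f t - ∑ t ∈ F, g t (lc f x) • f t := by
        rw [← Finset.sum_sub_distrib]
        exact Finset.sum_congr rfl fun t _ => by rw [map_sub, sub_smul]
      rw [h3, h1]
      abel
    rw [dist_eq_norm, h2]
    have h4 : ‖w - lc f x‖ < ε / (|C| + 1) := by
      rw [← dist_eq_norm, dist_comm]
      exact Metric.mem_ball.1 hv
    calc ‖(∑ t ∈ F, g t (w - lc f x) • f t) - (w - lc f x)‖
        ≤ ‖∑ t ∈ F, g t (w - lc f x) • f t‖ + ‖w - lc f x‖ := norm_sub_le _ _
      _ ≤ |C| * ‖w - lc f x‖ + ‖w - lc f x‖ := by gcongr; exact hb F _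
      _ = (|C| + 1) * ‖w - lc f x‖ := by ring
      _ < (|C| + 1) * (ε / (|C| + 1)) := by
          exact mul_lt_mul_of_pos_left h4 hK
      _ = ε := by field_simp

end Pool.Agent.UBN
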