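import Pool.Agent.UBN.Defs5
import Pool.Agent.UBN.Mul

/-!
# Coordinates of finitely supported functions on `Om`

An element of `Om` is a triple `(n, j, θ)` with a proof; `cf x k θ` is `x` at `(k.1, k.2, θ)` if this is a coordinate.
`sum_row`: the map `ω ↦ fb ω` is a bijection of `{ω ∈ supp x | rowO ω = k}` onto the set of `θ < Rn + 2` with `cf x k θ ≠ 0`
(`k.2 < rowsN k.1`); the other terms are `g θ 0 = 0`.  If `¬ k.2 < rowsN k.1` both sides are `0`.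
`rn_eq`: `sum_row` with `g θ c = (wt k.1 l θ * c) ^ 2`.
-/

namespace Pool.Agent.UBN

open Finset Pool.Agent.UUB

theorem cf_apply (x : Om →₀ ℝ) (ω : Om) : x ω = cf x (rowO ω) (fb ω) := by
  unfold cf
  rw [dif_pos (show (rowO ω).2 < rowsN (rowO ω).1 ∧ fb ω < Rn (rowO ω).1 + 2 from ω.2)]
  rfl

theorem om_ext {ω ω' : Om} (h1 : rowO ω = rowO ω') (h2 : fb ω = fb ω') : ω = ω' := by
  obtain ⟨⟨n, j, θ⟩, h⟩ := ω
  obtain ⟨⟨n', j', θ'⟩, h'⟩ := ω'
  have e1 : n = n' := congrArg Prod.fst h1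
  have e2 : j = j' := congrArg Prod.snd h1
  have e3 : θ = θ' := h2
  subst e1
  subst e2
  subst e3
  rfl

theorem cf_ext {x y : Om →₀ ℝ} (h : ∀ k θ, k.2 < rowsN k.1 → θ < Rn k.1 + 2 → cf x k θ = cf y k θ) :
    x = y := by
  ext ω
  rw [cf_apply x ω, cf_apply y ω]
  exact h _ _ ω.2.1 ω.2.2

theorem cf_invalid (x : Om →₀ ℝ) {k : Row} {θ : ℕ} (h : ¬ (k.2 < rowsN k.1 ∧ θ < Rn k.1 + 2)) :
    cf x k θ = 0 := by
  unfold cf
  rw [dif_neg h]

theorem cf_valid (x : Om →₀ ℝ) {k : Row} {θ : ℕ} (h : k.2 < rowsN k.1 ∧ θ < Rn k.1 + 2) :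
    cf x k θ = x (⟨(k.1, k.2, θ), h⟩ : Om) := by
  unfold cf
  rw [dif_pos h]

theorem cf_add (x y : Om →₀ ℝ) (k : Row) (θ : ℕ) : cf (x + y) k θ = cf x k θ + cf y k θ := by
  by_cases h : k.2 < rowsN k.1 ∧ θ < Rn k.1 + 2
  · rw [cf_valid _ h, cf_valid _ h, cf_valid _ h, Finsupp.add_apply]
  · rw [cf_invalid _ h, cf_invalid _ h, cf_invalid _ h, add_zero]

theorem cf_smul (c : ℝ) (x : Om →₀ ℝ) (k : Row) (θ : ℕ) : cf (c • x) k θ = c * cf x k θ := by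
  by_cases h : k.2 < rowsN k.1 ∧ θ < Rn k.1 + 2
  · rw [cf_valid _ h, cf_valid _ h, Finsupp.smul_apply, smul_eq_mul]
  · rw [cf_invalid _ h, cf_invalid _ h, mul_zero]

theorem cf_sum {ι : Type} (A : Finset ι) (x : ι → Om →₀ ℝ) (k : Row) (θ : ℕ) :
    cf (∑ i ∈ A, x i) k θ = ∑ i ∈ A, cf (x i) k θ := by
  by_cases h : k.2 < rowsN k.1 ∧ θ < Rn k.1 + 2
  · rw [cf_valid _ h, Finsupp.finsetSum_apply]
    exact Finset.sum_congr rfl (fun i _ => (cf_valid _ h).symm)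
  · rw [cf_invalid _ h]
    exact (Finset.sum_eq_zero (fun i _ => cf_invalid _ h)).symm

open Classical in
theorem cf_ev (k : Row) (θ : ℕ) (h : k.2 < rowsN k.1 ∧ θ < Rn k.1 + 2) (k' : Row) (θ' : ℕ) :
    cf (ev k θ) k' θ' = if k' = k ∧ θ' = θ then 1 else 0 := by
  unfold ev
  rw [dif_pos h]
  by_cases h' : k'.2 < rowsN k'.1 ∧ θ' < Rn k'.1 + 2
  · rw [cf_valid _ h', Finsupp.single_apply]
    by_cases e : k' = k ∧ θ' = θ
    · rw [if_pos e, if_pos]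
      exact om_ext e.1.symm e.2.symm
    · rw [if_neg e, if_neg]
      intro e'
      exact e ⟨(congrArg rowO e').symm, (congrArg fb e').symm⟩
  · rw [cf_invalid _ h', if_neg]
    rintro ⟨rfl, rfl⟩
    exact h' h

open Classical in
theorem cf_rres (T : Set Row) (x : Om →₀ ℝ) (k : Row) (θ : ℕ) :
    cf (rres rowO T x) k θ = if k ∈ T then cf x k θ else 0 := by
  by_cases h : k.2 < rowsN k.1 ∧ θ < Rn k.1 + 2
  · rw [cf_valid _ h, cf_valid _ h, rres_apply]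
    rfl
  · rw [cf_invalid _ h, cf_invalid _ h, ite_self]

theorem single_eq_ev (ω : Om) : Finsupp.single ω (1 : ℝ) = ev (rowO ω) (fb ω) := by
  unfold ev
  rw [dif_pos (show (rowO ω).2 < rowsN (rowO ω).1 ∧ fb ω < Rn (rowO ω).1 + 2 from ω.2)]
  rfl

theorem sum_row (x : Om →₀ ℝ) (k : Row) (g : ℕ → ℝ → ℝ) (hg : ∀ θ, g θ 0 = 0) :
    ∑ ω ∈ x.support.filter (fun ω => rowO ω = k), g (fb ω) (x ω) =
      ∑ θ ∈ range (Rn k.1 + 2), g θ (cf x k θ) := by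
  refine Finset.sum_of_injOn fb ?_ ?_ ?_ ?_
  · intro ω hω ω' hω' e
    have h1 := (Finset.mem_filter.1 (Finset.mem_coe.1 hω)).2
    have h2 := (Finset.mem_filter.1 (Finset.mem_coe.1 hω')).2
    exact om_ext (h1.trans h2.symm) e
  · intro ω hω
    have h1 := (Finset.mem_filter.1 (Finset.mem_coe.1 hω)).2
    rw [Finset.mem_coe, Finset.mem_range, ← h1]
    exact ω.2.2
  · intro θ _ hθ
    by_cases h : k.2 < rowsN k.1 ∧ θ < Rn k.1 + 2
    · have h0 : x (⟨(k.1, k.2, θ), h⟩ : Om) = 0 := by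
        by_contra hne
        apply hθ
        refine ⟨(⟨(k.1, k.2, θ), h⟩ : Om), ?_, rfl⟩
        rw [Finset.mem_coe, Finset.mem_filter]
        exact ⟨Finsupp.mem_support_iff.2 hne, rfl⟩
      rw [cf_valid _ h, h0, hg]
    · rw [cf_invalid _ h, hg]
  · intro ω hω
    have h1 := (Finset.mem_filter.1 hω).2
    rw [cf_apply x ω, h1]

theorem rn_eq (l : ℕ) (x : Om →₀ ℝ) (k : Row) :
    rn l x k = Real.sqrt (∑ θ ∈ range (Rn k.1 + 2), (wt k.1 l θ * cf x k θ) ^ 2) := by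
  unfold rn
  rw [sum_row x k (fun θ c => (wt k.1 l θ * c) ^ 2) (fun θ => by
    simp)]

end Pool.Agent.UBN
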