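import Mathlib

/-!
# Counting the big members of a row (finite dimensional lemma)

Let `H = EuclideanSpace ℝ Θ`, `M θ x = ∑ i, (θ i * ⟪v i, x⟫) • w i`.  All estimates below are averages over
the signs `θ'` (parallelogram law: `avg ‖∑ θ' i • z i‖² = ∑ ‖z i‖²`).
Define `B : H → ℝ^J`, `(B x) i = ⟪v i, x⟫ * ‖w i‖` and `A : ℝ^J → H`, `A c = ∑ (c i / ‖w i‖) • w i`, `D θ c = θ c`.
1. `‖B x‖² = avg ‖M θ' x‖² ≤ K² ‖x‖²`.
2. `‖Aᵗ x‖² = ∑ ⟪x, w i⟫² / ‖w i‖² ≤ 4 ∑ ⟪x, w i⟫² ‖v i‖² = 4 avg ‖(M θ')ᵗ x‖² ≤ 4 K² ‖x‖²`; so `‖A‖ ≤ 2 K`.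
3. `‖D θ B x - B M θ x‖² = ∑ ‖w i‖² (θ i ⟪v i, x⟫ - ⟪v i, M θ x⟫)² = avg ‖M (θ' θ) x - M θ' (M θ x)‖² ≤ ε² ‖x‖²`.
4. Dually (transposes of the hypothesis `hmul`) `‖A D θ c - M θ A c‖ ≤ 2 ε ‖c‖`.
5. `M θ = A D θ B`.  `D θ B A` and `B A D θ` are both close to `B M θ A`: distance `≤ 2 K ε` each.  So
   `‖D θ B A - B A D θ‖ ≤ 4 K ε`; averaging `B A - D θ B A D θ`: `‖B A - diag (B A)‖ ≤ 4 K ε`, and the diagonal
   entries are `⟪v i, w i⟫`.  Hence `‖B A - 1‖ ≤ 5 K ε ≤ 1/2`.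
6. `A` is injective, `card J ≤ card Θ`.  `‖A B - 1‖ ≤ ε` (`h1`), so `B` is injective, `card Θ ≤ card J`.
7. `‖c‖ ≤ 2 ‖B A c‖ ≤ 2 K ‖A c‖` (`riesz`); `B` is bijective and `‖x‖ ≤ 2 ‖A B x‖ ≤ 4 K ‖B x‖` (`solve`).
-/

namespace Pool.Agent.UBN

open Finset
open scoped InnerProductSpace

section La

variable {Θ J : Type} [Fintype Θ] [Fintype J]

/-- good signs -/
theorem la_signs {ι V : Type} [NormedAddCommGroup V] [InnerProductSpace ℝ V] (s : Finset ι)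
    (z : ι → V) : ∃ θ : ι → ℝ, (∀ i, θ i = 1 ∨ θ i = -1) ∧
      ∑ i ∈ s, ‖z i‖ ^ 2 ≤ ‖∑ i ∈ s, θ i • z i‖ ^ 2 := by
  classical
  induction s using Finset.induction_on with
  | empty => exact ⟨fun _ => 1, fun _ => Or.inl rfl, by simp⟩
  | insert a s ha ih =>
    obtain ⟨θ, h1, h2⟩ := ih
    set u := ∑ i ∈ s, θ i • z i with hu
    have hpar := parallelogram_law_with_norm ℝ u (z a)
    have hsum : ∀ c : ℝ, ∑ i ∈ s, Function.update θ a c i • z i = u := by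
      intro c
      refine Finset.sum_congr rfl fun i hi => ?_
      rw [Function.update_of_ne (fun h : i = a => ha (h ▸ hi))]
    by_cases hc : ‖u‖ ^ 2 + ‖z a‖ ^ 2 ≤ ‖u + z a‖ ^ 2
    · refine ⟨Function.update θ a 1, fun i => ?_, ?_⟩
      · by_cases hi : i = a
        · subst hi; simp
        · rw [Function.update_of_ne hi]; exact h1 i
      · rw [Finset.sum_insert ha, Finset.sum_insert ha, hsum, Function.update_self, one_smul,
          add_comm (z a)]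
        linarith
    · refine ⟨Function.update θ a (-1), fun i => ?_, ?_⟩
      · by_cases hi : i = a
        · subst hi; simp
        · rw [Function.update_of_ne hi]; exact h1 i
      · rw [Finset.sum_insert ha, Finset.sum_insert ha, hsum, Function.update_self, neg_one_smul,
          add_comm (-z a), ← sub_eq_add_neg]
        push Not at hc
        nlinarith

/-- transposition preserves bounds -/
theorem la_adj {V V' : Type} [NormedAddCommGroup V] [InnerProductSpace ℝ V]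
    [NormedAddCommGroup V'] [InnerProductSpace ℝ V'] (f : V → V') (g : V' → V)
    (h : ∀ x y, ⟪g x, y⟫_ℝ = ⟪x, f y⟫_ℝ) {C : ℝ} (hC : 0 ≤ C) (hf : ∀ y, ‖f y‖ ≤ C * ‖y‖)
    (x : V') : ‖g x‖ ≤ C * ‖x‖ := by
  by_cases h0 : ‖g x‖ = 0
  · rw [h0]; positivity
  · have hpos : 0 < ‖g x‖ := lt_of_le_of_ne (norm_nonneg _) (Ne.symm h0)
    have h1 : ‖g x‖ * ‖g x‖ ≤ ‖x‖ * (C * ‖g x‖) := by
      rw [← real_inner_self_eq_norm_mul_norm, h x (g x)]
      exact (real_inner_le_norm _ _).trans (mul_le_mul_of_nonneg_left (hf _) (norm_nonneg _))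
    nlinarith

/-- the operators `M θ` -/
noncomputable def laM (w v : J → EuclideanSpace ℝ Θ) (θ : J → ℝ) (x : EuclideanSpace ℝ Θ) :
    EuclideanSpace ℝ Θ := ∑ i, (θ i * ⟪v i, x⟫_ℝ) • w i

theorem laM_adj (w v : J → EuclideanSpace ℝ Θ) (θ : J → ℝ) (x y : EuclideanSpace ℝ Θ) :
    ⟪laM w v θ x, y⟫_ℝ = ⟪x, laM v w θ y⟫_ℝ := by
  unfold laM
  rw [sum_inner, inner_sum]
  refine Finset.sum_congr rfl fun i _ => ?_
  rw [inner_smul_left, inner_smul_right, real_inner_comm x (v i)]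
  simp only [conj_trivial]
  ring

theorem laM_sub (w v : J → EuclideanSpace ℝ Θ) (θ : J → ℝ) (x y : EuclideanSpace ℝ Θ) :
    laM w v θ (x - y) = laM w v θ x - laM w v θ y := by
  unfold laM
  rw [← Finset.sum_sub_distrib]
  refine Finset.sum_congr rfl fun i _ => ?_
  rw [inner_sub_right, ← sub_smul]
  congr 1
  ring

/-- step 1 -/
theorem la1 (w v : J → EuclideanSpace ℝ Θ) {K : ℝ}
    (hM : ∀ θ : J → ℝ, (∀ i, θ i = 1 ∨ θ i = -1) → ∀ x, ‖laM w v θ x‖ ≤ K * ‖x‖)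
    (x : EuclideanSpace ℝ Θ) : ∑ i, (⟪v i, x⟫_ℝ * ‖w i‖) ^ 2 ≤ (K * ‖x‖) ^ 2 := by
  obtain ⟨θ, h1, h2⟩ := la_signs Finset.univ (fun i => ⟪v i, x⟫_ℝ • w i)
  have h3 : ∑ i, θ i • (⟪v i, x⟫_ℝ • w i) = laM w v θ x := by
    unfold laM
    exact Finset.sum_congr rfl fun i _ => by rw [smul_smul]
  rw [h3] at h2
  have h4 : ∑ i, ‖⟪v i, x⟫_ℝ • w i‖ ^ 2 = ∑ i, (⟪v i, x⟫_ℝ * ‖w i‖) ^ 2 := by
    refine Finset.sum_congr rfl fun i _ => ?_
    rw [norm_smul, mul_pow, mul_pow, Real.norm_eq_abs, sq_abs]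
  rw [h4] at h2
  exact h2.trans (pow_le_pow_left₀ (norm_nonneg _) (hM θ h1 x) 2)

/-- step 3 -/
theorem la3 (w v : J → EuclideanSpace ℝ Θ) {ε : ℝ}
    (hmul : ∀ θ θ' : J → ℝ, (∀ i, θ i = 1 ∨ θ i = -1) → (∀ i, θ' i = 1 ∨ θ' i = -1) → ∀ x,
      ‖laM w v θ (laM w v θ' x) - laM w v (fun i => θ i * θ' i) x‖ ≤ ε * ‖x‖)
    (θ : J → ℝ) (hθ : ∀ i, θ i = 1 ∨ θ i = -1)
    (x : EuclideanSpace ℝ Θ) :
    ∑ i, ((θ i * ⟪v i, x⟫_ℝ - ⟪v i, laM w v θ x⟫_ℝ) * ‖w i‖) ^ 2 ≤ (ε * ‖x‖) ^ 2 := by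
  obtain ⟨θ', h1, h2⟩ := la_signs Finset.univ
    (fun i => (θ i * ⟪v i, x⟫_ℝ - ⟪v i, laM w v θ x⟫_ℝ) • w i)
  have h3 : ∑ i, θ' i • ((θ i * ⟪v i, x⟫_ℝ - ⟪v i, laM w v θ x⟫_ℝ) • w i) =
      -(laM w v θ' (laM w v θ x) - laM w v (fun i => θ' i * θ i) x) := by
    rw [neg_sub]
    conv_rhs => unfold laM
    rw [← Finset.sum_sub_distrib]
    refine Finset.sum_congr rfl fun i _ => ?_
    rw [smul_smul, ← sub_smul]
    congr 1
    unfold laM
    ring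
  rw [h3, norm_neg] at h2
  have h4 : ∑ i, ‖(θ i * ⟪v i, x⟫_ℝ - ⟪v i, laM w v θ x⟫_ℝ) • w i‖ ^ 2 =
      ∑ i, ((θ i * ⟪v i, x⟫_ℝ - ⟪v i, laM w v θ x⟫_ℝ) * ‖w i‖) ^ 2 := by
    refine Finset.sum_congr rfl fun i _ => ?_
    rw [norm_smul, mul_pow, mul_pow, Real.norm_eq_abs, sq_abs]
  rw [h4] at h2
  exact h2.trans (pow_le_pow_left₀ (norm_nonneg _) (hmul θ' θ h1 hθ x) 2)

/-- the operator `A` -/
noncomputable def laA (w : J → EuclideanSpace ℝ Θ) : EuclideanSpace ℝ J →ₗ[ℝ] EuclideanSpace ℝ Θ where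
  toFun c := ∑ i, (c i / ‖w i‖) • w i
  map_add' c d := by
    rw [← Finset.sum_add_distrib]
    refine Finset.sum_congr rfl fun i _ => ?_
    rw [← add_smul]
    congr 1
    rw [PiLp.add_apply]
    ring
  map_smul' r c := by
    rw [Finset.smul_sum]
    refine Finset.sum_congr rfl fun i _ => ?_
    rw [smul_smul]
    congr 1
    rw [PiLp.smul_apply, smul_eq_mul, RingHom.id_apply]
    ring

/-- the operator `B` -/
noncomputable def laB (w v : J → EuclideanSpace ℝ Θ) :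
    EuclideanSpace ℝ Θ →ₗ[ℝ] EuclideanSpace ℝ J where
  toFun x := WithLp.toLp 2 fun i => ⟪v i, x⟫_ℝ * ‖w i‖
  map_add' x y := by
    ext i
    simp only [PiLp.add_apply, inner_add_right]
    ring
  map_smul' r x := by
    ext i
    simp only [PiLp.smul_apply, inner_smul_right, RingHom.id_apply, smul_eq_mul]
    ring

/-- the operator `D θ` -/
noncomputable def laD (θ : J → ℝ) (c : EuclideanSpace ℝ J) : EuclideanSpace ℝ J :=
  WithLp.toLp 2 fun i => θ i * c i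

theorem laA_apply (w : J → EuclideanSpace ℝ Θ) (c : EuclideanSpace ℝ J) :
    laA w c = ∑ i, (c i / ‖w i‖) • w i := rfl

theorem laB_apply (w v : J → EuclideanSpace ℝ Θ) (x : EuclideanSpace ℝ Θ) (i : J) :
    laB w v x i = ⟪v i, x⟫_ℝ * ‖w i‖ := rfl

theorem laD_apply (θ : J → ℝ) (c : EuclideanSpace ℝ J) (i : J) : laD θ c i = θ i * c i := rfl

theorem la_norm_sq (c : EuclideanSpace ℝ J) : ‖c‖ ^ 2 = ∑ i, c i ^ 2 :=
  EuclideanSpace.real_norm_sq_eq c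

theorem la_le (c : EuclideanSpace ℝ J) {C : ℝ} (hC : 0 ≤ C) (h : ∑ i, c i ^ 2 ≤ C ^ 2) :
    ‖c‖ ≤ C := by
  rw [← la_norm_sq] at h
  exact le_of_sq_le_sq h hC

theorem laD_norm {θ : J → ℝ} (hθ : ∀ i, θ i = 1 ∨ θ i = -1) (c : EuclideanSpace ℝ J) :
    ‖laD θ c‖ = ‖c‖ := by
  have h : ‖laD θ c‖ ^ 2 = ‖c‖ ^ 2 := by
    rw [la_norm_sq, la_norm_sq]
    refine Finset.sum_congr rfl fun i _ => ?_
    rw [laD_apply]
    rcases hθ i with h | h <;> rw [h] <;> ring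
  exact (pow_left_inj₀ (norm_nonneg _) (norm_nonneg _) two_ne_zero).1 h

theorem la_inner (c d : EuclideanSpace ℝ J) : ⟪c, d⟫_ℝ = ∑ i, c i * d i := by
  rw [PiLp.inner_apply]
  refine Finset.sum_congr rfl fun i _ => ?_
  simp [mul_comm]

theorem laA_inner (w : J → EuclideanSpace ℝ Θ) (c : EuclideanSpace ℝ J)
    (x : EuclideanSpace ℝ Θ) : ⟪laA w c, x⟫_ℝ = ∑ i, c i * (⟪w i, x⟫_ℝ / ‖w i‖) := by
  rw [laA_apply, sum_inner]
  refine Finset.sum_congr rfl fun i _ => ?_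
  rw [inner_smul_left]
  simp only [conj_trivial]
  ring

/-- the value of a sign pattern -/
def laS (s : J → Bool) (i : J) : ℝ := if s i then 1 else -1

omit [Fintype J] in
theorem laS_or (s : J → Bool) (i : J) : laS s i = 1 ∨ laS s i = -1 := by
  unfold laS
  split_ifs
  · exact Or.inl rfl
  · exact Or.inr rfl

theorem laS_sum [DecidableEq J] {i j : J} (hij : i ≠ j) :
    ∑ s : J → Bool, laS s i * laS s j = 0 := by
  refine Finset.sum_involution (fun s _ => Function.update s i (!s i)) ?_ ?_ ?_ ?_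
  · intro s _
    have h1 : laS (Function.update s i (!s i)) j = laS s j := by
      unfold laS
      rw [Function.update_of_ne hij.symm]
    have h2 : laS (Function.update s i (!s i)) i = - laS s i := by
      unfold laS
      rw [Function.update_self]
      cases s i <;> simp
    rw [h1, h2]
    ring
  · intro s _ _ h
    have h1 := congrFun h i
    rw [Function.update_self] at h1
    cases hs : s i <;> simp [hs] at h1
  · intro s _
    exact Finset.mem_univ _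
  · intro s _
    ext k
    by_cases hk : k = i
    · subst hk; simp
    · simp [Function.update_of_ne hk]

/-- averaging over the signs -/
theorem la_avg (t : J → J → ℝ) (c : EuclideanSpace ℝ J) {η : ℝ}
    (h : ∀ θ : J → ℝ, (∀ i, θ i = 1 ∨ θ i = -1) →
      ‖(WithLp.toLp 2 (fun i => ∑ j, t i j * c j - θ i * ∑ j, t i j * (θ j * c j)) :
        EuclideanSpace ℝ J)‖ ≤ η) :
    ‖(WithLp.toLp 2 (fun i => ∑ j, t i j * c j - t i i * c i) : EuclideanSpace ℝ J)‖ ≤ η := by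
  classical
  set N : ℝ := (Fintype.card (J → Bool) : ℝ) with hN
  have hNpos : 0 < N := by
    rw [hN]
    exact_mod_cast Fintype.card_pos
  have h1 : N • (WithLp.toLp 2 (fun i => ∑ j, t i j * c j - t i i * c i) : EuclideanSpace ℝ J) =
      ∑ s : J → Bool, (WithLp.toLp 2 (fun i => ∑ j, t i j * c j -
        laS s i * ∑ j, t i j * (laS s j * c j)) : EuclideanSpace ℝ J) := by
    ext i
    rw [PiLp.smul_apply, PiLp.toLp_apply, smul_eq_mul]
    have h2 : (∑ s : J → Bool, (WithLp.toLp 2 (fun i => ∑ j, t i j * c j -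
        laS s i * ∑ j, t i j * (laS s j * c j)) : EuclideanSpace ℝ J)) i =
        ∑ s : J → Bool, (∑ j, t i j * c j - laS s i * ∑ j, t i j * (laS s j * c j)) := by
      rw [WithLp.ofLp_sum, Finset.sum_apply]
    rw [h2, Finset.sum_sub_distrib, Finset.sum_const, Finset.card_univ, nsmul_eq_mul, ← hN,
      mul_sub]
    congr 1
    have h3 : ∀ s : J → Bool, laS s i * ∑ j, t i j * (laS s j * c j) =
        ∑ j, t i j * c j * (laS s i * laS s j) := by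
      intro s
      rw [Finset.mul_sum]
      exact Finset.sum_congr rfl fun j _ => by ring
    rw [Finset.sum_congr rfl fun s _ => h3 s, Finset.sum_comm,
      Finset.sum_eq_single_of_mem i (Finset.mem_univ i)]
    · have h4 : ∀ s : J → Bool, t i i * c i * (laS s i * laS s i) = t i i * c i := by
        intro s
        rcases laS_or s i with h | h <;> rw [h] <;> ring
      rw [Finset.sum_congr rfl fun s _ => h4 s, Finset.sum_const, Finset.card_univ, nsmul_eq_mul]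
    · intro j _ hj
      rw [← Finset.mul_sum, laS_sum (Ne.symm hj), mul_zero]
  have h5 : N * ‖(WithLp.toLp 2 (fun i => ∑ j, t i j * c j - t i i * c i) :
      EuclideanSpace ℝ J)‖ ≤ N * η := by
    rw [← abs_of_pos hNpos, ← Real.norm_eq_abs, ← norm_smul, Real.norm_eq_abs,
      abs_of_pos hNpos, h1]
    refine (norm_sum_le _ _).trans ?_
    refine (Finset.sum_le_sum fun s _ => h (laS s) (laS_or s)).trans ?_
    rw [Finset.sum_const, Finset.card_univ, nsmul_eq_mul]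
  exact le_of_mul_le_mul_left h5 hNpos

end La

theorem cnt {Θ J : Type} [Fintype Θ] [Fintype J] (w v : J → EuclideanSpace ℝ Θ) {K ε : ℝ}
    (hK : 1 ≤ K) (h0 : 0 ≤ ε) (hε : ε ≤ 1 / (100 * K ^ 2))
    (hM : ∀ θ : J → ℝ, (∀ i, θ i = 1 ∨ θ i = -1) → ∀ x,
      ‖∑ i, (θ i * ⟪v i, x⟫_ℝ) • w i‖ ≤ K * ‖x‖)
    (hmul : ∀ θ θ' : J → ℝ, (∀ i, θ i = 1 ∨ θ i = -1) → (∀ i, θ' i = 1 ∨ θ' i = -1) → ∀ x,
      ‖∑ i, (θ i * ⟪v i, ∑ j, (θ' j * ⟪v j, x⟫_ℝ) • w j⟫_ℝ) • w i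
        - ∑ i, (θ i * θ' i * ⟪v i, x⟫_ℝ) • w i‖ ≤ ε * ‖x‖)
    (h1 : ∀ x, ‖x - ∑ i, ⟪v i, x⟫_ℝ • w i‖ ≤ ε * ‖x‖)
    (hb : ∀ i, 1 / 2 ≤ ‖w i‖ * ‖v i‖) (hd : ∀ i, |⟪v i, w i⟫_ℝ - 1| ≤ ε) :
    Fintype.card J = Fintype.card Θ ∧
      (∀ c : J → ℝ, Real.sqrt (∑ i, (c i * ‖w i‖) ^ 2) ≤ 2 * K * ‖∑ i, c i • w i‖) ∧
      (∀ c : J → ℝ, ∃ x, (∀ i, ⟪v i, x⟫_ℝ = c i) ∧
        ‖x‖ ≤ 4 * K * Real.sqrt (∑ i, (c i * ‖w i‖) ^ 2)) := by
  have hK0 : 0 ≤ K := by linarith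
  have hwpos : ∀ i, 0 < ‖w i‖ := by
    intro i
    by_contra hc
    have h2 : ‖w i‖ = 0 := le_antisymm (not_lt.1 hc) (norm_nonneg _)
    have h3 := hb i
    rw [h2, zero_mul] at h3
    linarith
  have hinv : ∀ i, 1 / ‖w i‖ ≤ 2 * ‖v i‖ := by
    intro i
    rw [div_le_iff₀ (hwpos i)]
    linarith [hb i, mul_comm (‖w i‖) (‖v i‖)]
  -- transposed hypotheses
  have hM' : ∀ θ : J → ℝ, (∀ i, θ i = 1 ∨ θ i = -1) → ∀ x, ‖laM v w θ x‖ ≤ K * ‖x‖ := by
    intro θ hθ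
    exact la_adj (laM w v θ) (laM v w θ) (fun x y => laM_adj v w θ x y) hK0 (hM θ hθ)
  have hmul' : ∀ θ θ' : J → ℝ, (∀ i, θ i = 1 ∨ θ i = -1) → (∀ i, θ' i = 1 ∨ θ' i = -1) → ∀ x,
      ‖laM v w θ (laM v w θ' x) - laM v w (fun i => θ i * θ' i) x‖ ≤ ε * ‖x‖ := by
    intro θ θ' hθ hθ'
    refine la_adj (fun x => laM w v θ' (laM w v θ x) - laM w v (fun i => θ' i * θ i) x)
      (fun x => laM v w θ (laM v w θ' x) - laM v w (fun i => θ i * θ' i) x) (fun x y => ?_) h0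
      (fun y => hmul θ' θ hθ' hθ y)
    rw [inner_sub_left, inner_sub_right, laM_adj, laM_adj, laM_adj]
    have h2 : (fun i => θ i * θ' i) = fun i => θ' i * θ i := by
      ext i; ring
    rw [h2]
  -- bounds for B and A
  have hB : ∀ x, ‖laB w v x‖ ≤ K * ‖x‖ := fun x =>
    la_le _ (by positivity) (la1 w v hM x)
  have hAt : ∀ x : EuclideanSpace ℝ Θ,
      ‖(WithLp.toLp 2 (fun i => ⟪w i, x⟫_ℝ / ‖w i‖) : EuclideanSpace ℝ J)‖ ≤ 2 * K * ‖x‖ := by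
    intro x
    apply la_le _ (by positivity)
    have h2 := la1 v w hM' x
    have h3 : ∑ i, (⟪w i, x⟫_ℝ / ‖w i‖) ^ 2 ≤ 4 * ∑ i, (⟪w i, x⟫_ℝ * ‖v i‖) ^ 2 := by
      rw [Finset.mul_sum]
      refine Finset.sum_le_sum fun i _ => ?_
      have h4 : (1 / ‖w i‖) ^ 2 ≤ (2 * ‖v i‖) ^ 2 :=
        pow_le_pow_left₀ (by positivity) (hinv i) 2
      calc (⟪w i, x⟫_ℝ / ‖w i‖) ^ 2 = ⟪w i, x⟫_ℝ ^ 2 * (1 / ‖w i‖) ^ 2 := by ring
        _ ≤ ⟪w i, x⟫_ℝ ^ 2 * (2 * ‖v i‖) ^ 2 := mul_le_mul_of_nonneg_left h4 (sq_nonneg _)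
        _ = 4 * (⟪w i, x⟫_ℝ * ‖v i‖) ^ 2 := by ring
    calc ∑ i, ((WithLp.toLp 2 (fun i => ⟪w i, x⟫_ℝ / ‖w i‖) : EuclideanSpace ℝ J) i) ^ 2
        = ∑ i, (⟪w i, x⟫_ℝ / ‖w i‖) ^ 2 := rfl
      _ ≤ 4 * ∑ i, (⟪w i, x⟫_ℝ * ‖v i‖) ^ 2 := h3
      _ ≤ 4 * (K * ‖x‖) ^ 2 := by linarith
      _ = (2 * K * ‖x‖) ^ 2 := by ring
  have hA : ∀ c, ‖laA w c‖ ≤ 2 * K * ‖c‖ := by
    refine la_adj (fun x => (WithLp.toLp 2 (fun i => ⟪w i, x⟫_ℝ / ‖w i‖) : EuclideanSpace ℝ J))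
      (fun c => laA w c) (fun c x => ?_) (by positivity) hAt
    rw [laA_inner, la_inner]
  -- step 3
  have h3 : ∀ θ : J → ℝ, (∀ i, θ i = 1 ∨ θ i = -1) → ∀ x,
      ‖laD θ (laB w v x) - laB w v (laM w v θ x)‖ ≤ ε * ‖x‖ := by
    intro θ hθ x
    apply la_le _ (by positivity)
    have h2 := la3 w v hmul θ hθ x
    refine le_trans (le_of_eq ?_) h2
    refine Finset.sum_congr rfl fun i _ => ?_
    rw [PiLp.sub_apply, laD_apply, laB_apply, laB_apply]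
    ring
  -- step 4
  have h4 : ∀ θ : J → ℝ, (∀ i, θ i = 1 ∨ θ i = -1) → ∀ c,
      ‖laA w (laD θ c) - laM w v θ (laA w c)‖ ≤ 2 * ε * ‖c‖ := by
    intro θ hθ
    refine la_adj (fun x => (WithLp.toLp 2
      (fun i => (θ i * ⟪w i, x⟫_ℝ - ⟪w i, laM v w θ x⟫_ℝ) / ‖w i‖) : EuclideanSpace ℝ J))
      (fun c => laA w (laD θ c) - laM w v θ (laA w c)) (fun c x => ?_) (by positivity)
      (fun x => ?_)
    · rw [inner_sub_left, laM_adj, laA_inner, laA_inner, la_inner, ← Finset.sum_sub_distrib]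
      refine Finset.sum_congr rfl fun i _ => ?_
      rw [laD_apply]
      simp only
      ring
    · apply la_le _ (by positivity)
      have h2 := la3 v w hmul' θ hθ x
      have h5 : ∑ i, ((θ i * ⟪w i, x⟫_ℝ - ⟪w i, laM v w θ x⟫_ℝ) / ‖w i‖) ^ 2 ≤
          4 * ∑ i, ((θ i * ⟪w i, x⟫_ℝ - ⟪w i, laM v w θ x⟫_ℝ) * ‖v i‖) ^ 2 := by
        rw [Finset.mul_sum]
        refine Finset.sum_le_sum fun i _ => ?_
        have h4 : (1 / ‖w i‖) ^ 2 ≤ (2 * ‖v i‖) ^ 2 :=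
          pow_le_pow_left₀ (by positivity) (hinv i) 2
        calc ((θ i * ⟪w i, x⟫_ℝ - ⟪w i, laM v w θ x⟫_ℝ) / ‖w i‖) ^ 2
            = (θ i * ⟪w i, x⟫_ℝ - ⟪w i, laM v w θ x⟫_ℝ) ^ 2 * (1 / ‖w i‖) ^ 2 := by ring
          _ ≤ (θ i * ⟪w i, x⟫_ℝ - ⟪w i, laM v w θ x⟫_ℝ) ^ 2 * (2 * ‖v i‖) ^ 2 :=
              mul_le_mul_of_nonneg_left h4 (sq_nonneg _)
          _ = 4 * ((θ i * ⟪w i, x⟫_ℝ - ⟪w i, laM v w θ x⟫_ℝ) * ‖v i‖) ^ 2 := by ring
      calc ∑ i, ((WithLp.toLp 2 (fun i => (θ i * ⟪w i, x⟫_ℝ - ⟪w i, laM v w θ x⟫_ℝ) / ‖w i‖) :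
            EuclideanSpace ℝ J) i) ^ 2
          = ∑ i, ((θ i * ⟪w i, x⟫_ℝ - ⟪w i, laM v w θ x⟫_ℝ) / ‖w i‖) ^ 2 := rfl
        _ ≤ 4 * ∑ i, ((θ i * ⟪w i, x⟫_ℝ - ⟪w i, laM v w θ x⟫_ℝ) * ‖v i‖) ^ 2 := h5
        _ ≤ 4 * (ε * ‖x‖) ^ 2 := by linarith
        _ = (2 * ε * ‖x‖) ^ 2 := by ring
  -- step 5
  have h5 : ∀ θ : J → ℝ, (∀ i, θ i = 1 ∨ θ i = -1) → ∀ c,
      ‖laD θ (laB w v (laA w c)) - laB w v (laA w (laD θ c))‖ ≤ 4 * K * ε * ‖c‖ := by
    intro θ hθ c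
    have e1 := h3 θ hθ (laA w c)
    have e2 := hB (laA w (laD θ c) - laM w v θ (laA w c))
    have e3 := h4 θ hθ c
    have e4 : laD θ (laB w v (laA w c)) - laB w v (laA w (laD θ c)) =
        (laD θ (laB w v (laA w c)) - laB w v (laM w v θ (laA w c))) -
          laB w v (laA w (laD θ c) - laM w v θ (laA w c)) := by
      rw [map_sub]; abel
    rw [e4]
    refine (norm_sub_le _ _).trans ?_
    have e5 : ε * ‖laA w c‖ ≤ ε * (2 * K * ‖c‖) := mul_le_mul_of_nonneg_left (hA c) h0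
    have e6 : K * ‖laA w (laD θ c) - laM w v θ (laA w c)‖ ≤ K * (2 * ε * ‖c‖) :=
      mul_le_mul_of_nonneg_left e3 hK0
    calc _ ≤ ε * (2 * K * ‖c‖) + K * (2 * ε * ‖c‖) :=
          add_le_add (e1.trans e5) (e2.trans e6)
      _ = 4 * K * ε * ‖c‖ := by ring
  set t : J → J → ℝ := fun i j => ⟪v i, w j⟫_ℝ * (‖w i‖ / ‖w j‖) with ht
  have hT : ∀ c i, laB w v (laA w c) i = ∑ j, t i j * c j := by
    intro c i
    rw [laB_apply, laA_apply, inner_sum, Finset.sum_mul]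
    refine Finset.sum_congr rfl fun j _ => ?_
    rw [inner_smul_right, ht]
    ring
  have h6 : ∀ c, ‖laB w v (laA w c) - c‖ ≤ 5 * K * ε * ‖c‖ := by
    intro c
    have e1 : ∀ θ : J → ℝ, (∀ i, θ i = 1 ∨ θ i = -1) →
        ‖(WithLp.toLp 2 (fun i => ∑ j, t i j * c j - θ i * ∑ j, t i j * (θ j * c j)) :
          EuclideanSpace ℝ J)‖ ≤ 4 * K * ε * ‖c‖ := by
      intro θ hθ
      refine le_trans (le_of_eq ?_) (h5 θ hθ c)
      rw [← laD_norm hθ]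
      congr 1
      ext i
      rw [laD_apply, PiLp.sub_apply, laD_apply, hT, hT]
      simp only [laD_apply]
      rcases hθ i with h | h <;> rw [h] <;> ring
    have e2 := la_avg t c e1
    have e3 : ‖(WithLp.toLp 2 (fun i => t i i * c i - c i) : EuclideanSpace ℝ J)‖ ≤ ε * ‖c‖ := by
      apply la_le _ (by positivity)
      rw [mul_pow, la_norm_sq, Finset.mul_sum]
      refine Finset.sum_le_sum fun i _ => ?_
      have h7 : t i i = ⟪v i, w i⟫_ℝ := by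
        rw [ht]
        simp only
        rw [div_self (hwpos i).ne', mul_one]
      have h8 : (t i i - 1) ^ 2 ≤ ε ^ 2 := by
        rw [h7]
        exact sq_le_sq' (by linarith [(abs_le.1 (hd i)).1]) (abs_le.1 (hd i)).2
      calc ((WithLp.toLp 2 (fun i => t i i * c i - c i) : EuclideanSpace ℝ J) i) ^ 2
          = (t i i - 1) ^ 2 * c i ^ 2 := by
            simp only
            ring
        _ ≤ ε ^ 2 * c i ^ 2 := mul_le_mul_of_nonneg_right h8 (sq_nonneg _)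
    have e4 : laB w v (laA w c) - c =
        (WithLp.toLp 2 (fun i => ∑ j, t i j * c j - t i i * c i) : EuclideanSpace ℝ J) +
          (WithLp.toLp 2 (fun i => t i i * c i - c i) : EuclideanSpace ℝ J) := by
      ext i
      rw [PiLp.sub_apply, PiLp.add_apply, hT]
      simp only
      ring
    rw [e4]
    refine (norm_add_le _ _).trans ((add_le_add e2 e3).trans ?_)
    have e5 : ε * ‖c‖ ≤ K * ε * ‖c‖ := by
      have : 0 ≤ ε * ‖c‖ := by positivity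
      nlinarith
    linarith
  have h7 : 5 * K * ε ≤ 1 / 2 := by
    have e1 : 5 * K * ε ≤ 5 * K * (1 / (100 * K ^ 2)) :=
      mul_le_mul_of_nonneg_left hε (by positivity)
    have e2 : 5 * K * (1 / (100 * K ^ 2)) = 1 / (20 * K) := by
      field_simp
      norm_num
    rw [e2] at e1
    refine e1.trans ?_
    rw [div_le_div_iff₀ (by positivity) (by norm_num)]
    linarith
  have hε1 : ε ≤ 1 / 2 := by nlinarith
  have h8 : ∀ c, ‖c‖ ≤ 2 * ‖laB w v (laA w c)‖ := by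
    intro c
    have e1 := h6 c
    have e2 : 5 * K * ε * ‖c‖ ≤ 1 / 2 * ‖c‖ := mul_le_mul_of_nonneg_right h7 (norm_nonneg _)
    have e3 : ‖c‖ ≤ ‖laB w v (laA w c)‖ + ‖laB w v (laA w c) - c‖ := by
      have := norm_sub_le (laB w v (laA w c)) (laB w v (laA w c) - c)
      rwa [sub_sub_cancel] at this
    linarith
  have h9 : ∀ x, laA w (laB w v x) = ∑ i, ⟪v i, x⟫_ℝ • w i := by
    intro x
    rw [laA_apply]
    refine Finset.sum_congr rfl fun i _ => ?_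
    rw [laB_apply, mul_div_assoc, div_self (hwpos i).ne', mul_one]
  have h10 : ∀ x, ‖x‖ ≤ 2 * ‖laA w (laB w v x)‖ := by
    intro x
    have e1 := h1 x
    rw [← h9] at e1
    have e2 : ε * ‖x‖ ≤ 1 / 2 * ‖x‖ := mul_le_mul_of_nonneg_right hε1 (norm_nonneg _)
    have e3 : ‖x‖ ≤ ‖laA w (laB w v x)‖ + ‖x - laA w (laB w v x)‖ := by
      have := norm_add_le (laA w (laB w v x)) (x - laA w (laB w v x))
      rwa [add_sub_cancel] at this
    linarith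
  have hAinj : Function.Injective (laA w) := by
    rw [← LinearMap.ker_eq_bot, LinearMap.ker_eq_bot']
    intro c hc
    have e1 := h8 c
    rw [hc, map_zero, norm_zero, mul_zero] at e1
    exact norm_le_zero_iff.1 e1
  have hBinj : Function.Injective (laB w v) := by
    rw [← LinearMap.ker_eq_bot, LinearMap.ker_eq_bot']
    intro c hc
    have e1 := h10 c
    rw [hc, map_zero, norm_zero, mul_zero] at e1
    exact norm_le_zero_iff.1 e1
  have hcard : Fintype.card J = Fintype.card Θ := by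
    have e1 := LinearMap.finrank_le_finrank_of_injective hAinj
    have e2 := LinearMap.finrank_le_finrank_of_injective hBinj
    rw [finrank_euclideanSpace, finrank_euclideanSpace] at e1 e2
    omega
  have hBsurj : Function.Surjective (laB w v) := by
    refine (LinearMap.injective_iff_surjective_of_finrank_eq_finrank ?_).1 hBinj
    rw [finrank_euclideanSpace, finrank_euclideanSpace, hcard]
  have hsqrt : ∀ c : J → ℝ, Real.sqrt (∑ i, (c i * ‖w i‖) ^ 2) =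
      ‖(WithLp.toLp 2 (fun i => c i * ‖w i‖) : EuclideanSpace ℝ J)‖ := by
    intro c
    rw [← Real.sqrt_sq (norm_nonneg (WithLp.toLp 2 (fun i => c i * ‖w i‖) :
      EuclideanSpace ℝ J)), la_norm_sq]
  refine ⟨hcard, fun c => ?_, fun c => ?_⟩
  · rw [hsqrt]
    have e1 := h8 (WithLp.toLp 2 (fun i => c i * ‖w i‖) : EuclideanSpace ℝ J)
    have e2 := hB (laA w (WithLp.toLp 2 (fun i => c i * ‖w i‖) : EuclideanSpace ℝ J))
    have e3 : laA w (WithLp.toLp 2 (fun i => c i * ‖w i‖) : EuclideanSpace ℝ J) =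
        ∑ i, c i • w i := by
      rw [laA_apply]
      refine Finset.sum_congr rfl fun i _ => ?_
      simp only
      rw [mul_div_assoc, div_self (hwpos i).ne', mul_one]
    rw [e3] at e1 e2
    linarith
  · obtain ⟨x, hx⟩ := hBsurj (WithLp.toLp 2 (fun i => c i * ‖w i‖) : EuclideanSpace ℝ J)
    refine ⟨x, fun i => ?_, ?_⟩
    · have e1 : laB w v x i = c i * ‖w i‖ := by rw [hx]
      rw [laB_apply] at e1
      exact mul_right_cancel₀ (hwpos i).ne' e1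
    · rw [hsqrt, ← hx]
      have e1 := h10 x
      have e2 := hA (laB w v x)
      linarith

end Pool.Agent.UBN
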