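import Pool.Agent.UBN.Jf
import Pool.Agent.UBN.La

/-!
# The big members of `b` in one row

Apply `cnt` with `Θ` = the coordinates of the row (`{ω // row ω = k}`, finite), `J` the finite set `J`,
`(w i) ω = e.coord (inl ω) (b i)`, `(v i) ω = b.coord i (e (inl ω))`, and `9 ε` for `ε` (`K` the same).
For `x` in the row (`norm_sq_row`: the norm is euclidean)
`∑ i, θ i ⟪v i, x⟫ w i = P (mulOp b (θ on J, 0 outside) x)`, norm `≤ K ‖x‖`.
For signs `θ`, with `A = {i ∈ J : θ i = 1}`: `T θ = 2 S_A - S_J`, so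
`‖P T θ P T θ' P - P T (θ θ') P‖ = ‖P T θ (1 - P) T θ' P‖ ≤ (4 + 2 + 2 + 1) ε`.
`h1`: `x - M 1 x = mu Jᶜ x` (`mu_small`, `2 ε`).
`hb`: `‖mu {i}‖ = ‖w i‖ ‖v i‖` (`mu {i}` is `x ↦ ⟪v i, P x⟫ w i`).  `hd`: `mu_dia`.
Finally `1/(2K) ≤ ‖w i‖ ≤ 1` (`‖v i‖ ≤ K`, `‖b i‖ = 1`) gives the normalisation of `riesz` and `solve`.
-/

namespace Pool.Agent.UBN

open Pool.Agent.UUB Finset
open scoped InnerProductSpace

variable {Ω I : Type} {W : Type} [NormedAddCommGroup W] [NormedSpace ℝ W] [CompleteSpace W]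
  {row : Ω → Row} {nr : (Ω →₀ ℝ) → ℝ} {e : UnconditionalSchauderBasis (Ω ⊕ ℕ) ℝ W}
  {b : UnconditionalSchauderBasis I ℝ W} {K ε : ℝ}

section Rw

variable {k : Row}

/-- the isometry onto the row -/
noncomputable def rwU (e : UnconditionalSchauderBasis (Ω ⊕ ℕ) ℝ W) (row : Ω → Row) (k : Row)
    [Fintype {ω // row ω = k}] : EuclideanSpace ℝ {ω // row ω = k} →ₗ[ℝ] W where
  toFun x := ∑ ω, x ω • e (Sum.inl ω.1)
  map_add' x y := by
    rw [← Finset.sum_add_distrib]
    exact Finset.sum_congr rfl fun ω _ => by rw [← add_smul, PiLp.add_apply]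
  map_smul' r x := by
    rw [Finset.smul_sum]
    exact Finset.sum_congr rfl fun ω _ => by
      rw [smul_smul, PiLp.smul_apply, smul_eq_mul, RingHom.id_apply]

omit [CompleteSpace W] in
theorem rwU_apply [Fintype {ω // row ω = k}] (x : EuclideanSpace ℝ {ω // row ω = k}) :
    rwU e row k x = ∑ ω, x ω • e (Sum.inl ω.1) := rfl

theorem rwU_coord [Fintype {ω // row ω = k}] (x : EuclideanSpace ℝ {ω // row ω = k})
    (ω : {ω // row ω = k}) : e.coord (Sum.inl ω.1) (rwU e row k x) = x ω := by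
  classical
  rw [rwU_apply, map_sum, Finset.sum_eq_single_of_mem ω (Finset.mem_univ _)]
  · rw [map_smul, e.ortho]
    simp
  · intro ω' _ hne
    rw [map_smul, e.ortho]
    have : (Sum.inl ω.1 : Ω ⊕ ℕ) ≠ Sum.inl ω'.1 := fun h =>
      hne (Subtype.ext (Sum.inl_injective h).symm)
    simp [this]

theorem rwU_fix [Fintype {ω // row ω = k}] (x : EuclideanSpace ℝ {ω // row ω = k}) :
    S e (rowS row k) (rwU e row k x) = rwU e row k x := by
  rw [rwU_apply, map_sum]
  refine Finset.sum_congr rfl fun ω _ => ?_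
  rw [map_smul, S_basis_mem e (M := rowS row k) (n := Sum.inl ω.1) ⟨ω.1, rfl, ω.2⟩]

theorem rw_toFinset (hA : Amb row nr e) [Fintype {ω // row ω = k}] :
    (finite_rowS hA k).toFinset = Finset.univ.map
      ⟨fun ω : {ω // row ω = k} => (Sum.inl ω.1 : Ω ⊕ ℕ),
        fun _ _ h => Subtype.ext (Sum.inl_injective h)⟩ := by
  ext s
  simp only [Set.Finite.mem_toFinset, Finset.mem_map, Finset.mem_univ, true_and]
  constructor
  · rintro ⟨ω, rfl, hω⟩
    exact ⟨⟨ω, hω⟩, rfl⟩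
  · rintro ⟨ω, rfl⟩
    exact ⟨ω.1, rfl, ω.2⟩

theorem rwU_norm (hA : Amb row nr e) [Fintype {ω // row ω = k}]
    (x : EuclideanSpace ℝ {ω // row ω = k}) : ‖rwU e row k x‖ = ‖x‖ := by
  have h := norm_sq_row hA (k := k) (rwU_fix (e := e) x)
  rw [rw_toFinset hA, Finset.sum_map] at h
  have h2 : ‖rwU e row k x‖ ^ 2 = ‖x‖ ^ 2 := by
    rw [h, EuclideanSpace.real_norm_sq_eq]
    refine Finset.sum_congr rfl fun ω _ => ?_
    have h3 := rwU_coord (e := e) x ω
    exact congrArg (fun r : ℝ => r ^ 2) h3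
  exact (pow_left_inj₀ (norm_nonneg _) (norm_nonneg _) two_ne_zero).1 h2

/-- the coordinates of a vector in the row -/
noncomputable def rwV (e : UnconditionalSchauderBasis (Ω ⊕ ℕ) ℝ W) (row : Ω → Row) (k : Row)
    (y : W) : EuclideanSpace ℝ {ω // row ω = k} :=
  WithLp.toLp 2 fun ω => e.coord (Sum.inl ω.1) y

theorem rwU_V (hA : Amb row nr e) [Fintype {ω // row ω = k}] (y : W) :
    rwU e row k (rwV e row k y) = S e (rowS row k) y := by
  have h2 := S_finset e (finite_rowS hA k).toFinset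
  rw [(finite_rowS hA k).coe_toFinset] at h2
  rw [h2, _root_.sum_apply, rw_toFinset hA, Finset.sum_map, rwU_apply]
  refine Finset.sum_congr rfl fun ω _ => ?_
  rw [UUB.R_apply]
  rfl

end Rw

theorem row_main (hA : Amb row nr e) (hb : MB b K) {k : Row} (h0 : 0 ≤ ε)
    (hε : ε ≤ 1 / (1000 * K ^ 2)) (hR : Rig row e b k ε) (J : Finset I)
    (hJ : (J : Set I) = big row e b k) :
    J.card = Nat.card {ω // row ω = k} ∧
      (∀ c : I → ℝ, Real.sqrt (∑ i ∈ J, c i ^ 2) ≤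
        4 * K ^ 2 * ‖∑ i ∈ J, c i • S e (rowS row k) (b i)‖) ∧
      (∀ c : I → ℝ, ∃ x : W, S e (rowS row k) x = x ∧ (∀ i ∈ J, b.coord i x = c i) ∧
        ‖x‖ ≤ 4 * K * Real.sqrt (∑ i ∈ J, c i ^ 2)) := by
  classical
  have hfin : Finite {ω // row ω = k} := by
    have h : {ω | (row ω).1 = k.1}.Finite := hA.rig.fin k.1
    exact (h.subset (fun ω (hω : row ω = k) => by
      show (row ω).1 = k.1
      rw [hω])).to_subtype
  have : Fintype {ω // row ω = k} := Fintype.ofFinite _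
  have hK : 1 ≤ K := hb.one_le
  have hK0 : 0 < K := by linarith
  have hε8 : ε ≤ 1 / 8 := by
    refine hε.trans ?_
    rw [div_le_div_iff₀ (by positivity) (by norm_num)]
    nlinarith
  set P := S e (rowS row k) with hP
  have hPP : P * P = P := S_idem e _
  have hPn : ∀ y, ‖P y‖ ≤ ‖y‖ := fun y => by
    have h := P.le_opNorm y
    have h2 := norm_S_e hA (rowS row k)
    calc ‖P y‖ ≤ ‖P‖ * ‖y‖ := h
      _ ≤ 1 * ‖y‖ := mul_le_mul_of_nonneg_right h2 (norm_nonneg _)
      _ = ‖y‖ := one_mul _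
  set U := rwU e row k with hU
  have hPU : ∀ x, P (U x) = U x := fun x => rwU_fix x
  have hUn : ∀ x, ‖U x‖ = ‖x‖ := fun x => rwU_norm hA x
  have hUV : ∀ y, U (rwV e row k y) = P y := fun y => rwU_V hA y
  set w : {i // i ∈ J} → EuclideanSpace ℝ {ω // row ω = k} := fun i => rwV e row k (b i.1)
    with hw
  set v : {i // i ∈ J} → EuclideanSpace ℝ {ω // row ω = k} :=
    fun i => WithLp.toLp 2 fun ω => b.coord i.1 (e (Sum.inl ω.1)) with hv
  have hUw : ∀ i, U (w i) = P (b i.1) := fun i => hUV _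
  have hvx : ∀ i x, ⟪v i, x⟫_ℝ = b.coord i.1 (U x) := by
    intro i x
    rw [hU, rwU_apply, map_sum, PiLp.inner_apply]
    refine Finset.sum_congr rfl fun ω _ => ?_
    rw [map_smul, smul_eq_mul, hv]
    simp [mul_comm]
  -- the operators `T θ`
  set T : ({i // i ∈ J} → ℝ) → W →L[ℝ] W := fun θ => ∑ i, θ i • R b i.1 with hT
  have hTapp : ∀ θ y, T θ y = ∑ i, (θ i * b.coord i.1 y) • b i.1 := by
    intro θ y
    rw [hT]
    simp only
    rw [_root_.sum_apply]
    refine Finset.sum_congr rfl fun i _ => ?_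
    rw [smul_apply, UUB.R_apply, smul_smul]
  have hbb : ∀ i j : {i // i ∈ J}, b.coord i.1 (b j.1) = if i = j then 1 else 0 := by
    intro i j
    rw [b.ortho]
    by_cases h : i = j
    · subst h; simp
    · have h' : i.1 ≠ j.1 := fun h' => h (Subtype.ext h')
      simp [Pi.single_apply, h, h']
  have hTT : ∀ θ θ' y, T θ (T θ' y) = T (fun i => θ i * θ' i) y := by
    intro θ θ' y
    rw [hTapp, hTapp, hTapp]
    refine Finset.sum_congr rfl fun i _ => ?_
    congr 1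
    rw [map_sum, Finset.sum_eq_single_of_mem i (Finset.mem_univ _)]
    · rw [map_smul, hbb, if_pos rfl, smul_eq_mul]
      ring
    · intro j _ hj
      rw [map_smul, hbb, if_neg (Ne.symm hj), smul_zero]
  have hUM : ∀ (θ : {i // i ∈ J} → ℝ) x, U (∑ i, (θ i * ⟪v i, x⟫_ℝ) • w i) = P (T θ (U x)) := by
    intro θ x
    rw [hTapp, map_sum, map_sum]
    refine Finset.sum_congr rfl fun i _ => ?_
    rw [map_smul, map_smul, hUw, hvx]
  have hTsum : ∀ θ : {i // i ∈ J} → ℝ, T θ =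
      mulOp b (fun i => if i ∈ J then (if h : i ∈ J then θ ⟨i, h⟩ else 0) else 0) := by
    intro θ
    rw [mulOp_finset b J (fun i => if h : i ∈ J then θ ⟨i, h⟩ else 0), ← Finset.sum_coe_sort J]
    refine Finset.sum_congr rfl fun i _ => ?_
    rw [dif_pos i.2]
  have hTn : ∀ θ : {i // i ∈ J} → ℝ, (∀ i, θ i = 1 ∨ θ i = -1) → ‖T θ‖ ≤ K := by
    intro θ hθ
    rw [hTsum]
    apply hb.bd
    intro i
    by_cases hi : i ∈ J
    · rw [if_pos hi, dif_pos hi]
      rcases hθ ⟨i, hi⟩ with h | h <;> rw [h] <;> simp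
    · rw [if_neg hi]
      simp
  have hTS : ∀ θ : {i // i ∈ J} → ℝ, (∀ i, θ i = 1 ∨ θ i = -1) →
      ∃ A : Set I, T θ = (2 : ℝ) • S b A - S b (J : Set I) := by
    intro θ hθ
    set F : Finset I := (Finset.univ.filter (fun i : {i // i ∈ J} => θ i = 1)).map
      (Function.Embedding.subtype _) with hF
    refine ⟨(F : Set I), ?_⟩
    have h1 : S b (F : Set I) = ∑ i : {i // i ∈ J}, if θ i = 1 then R b i.1 else 0 := by
      rw [S_finset, hF, Finset.sum_map, Finset.sum_filter]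
      rfl
    rw [h1, S_finset, Finset.smul_sum, ← Finset.sum_coe_sort J, ← Finset.sum_sub_distrib]
    refine Finset.sum_congr rfl fun i _ => ?_
    rcases hθ i with h | h
    · rw [if_pos h, h, two_smul, one_smul]
      abel
    · rw [if_neg (by rw [h]; norm_num), h, smul_zero, neg_one_smul]
      abel
  have hcom : ∀ θ θ' : {i // i ∈ J} → ℝ, (∀ i, θ i = 1 ∨ θ i = -1) →
      (∀ i, θ' i = 1 ∨ θ' i = -1) → ‖P * T θ * (1 - P) * T θ' * P‖ ≤ 9 * ε := by
    intro θ θ' hθ hθ'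
    obtain ⟨A, hA1⟩ := hTS θ hθ
    obtain ⟨B, hB1⟩ := hTS θ' hθ'
    have h1 : P * T θ * (1 - P) * T θ' * P =
        (4 : ℝ) • (P * S b A * (1 - P) * S b B * P)
        - (2 : ℝ) • (P * S b A * (1 - P) * S b (J : Set I) * P)
        - (2 : ℝ) • (P * S b (J : Set I) * (1 - P) * S b B * P)
        + P * S b (J : Set I) * (1 - P) * S b (J : Set I) * P := by
      rw [hA1, hB1]
      simp only [mul_sub, sub_mul, smul_mul_assoc, mul_smul_comm, smul_sub, smul_smul]
      norm_num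
      abel
    rw [h1]
    have n1 : ‖(4 : ℝ) • (P * S b A * (1 - P) * S b B * P)‖ ≤ 4 * ε := by
      rw [norm_smul]
      have := hR A B
      rw [Real.norm_eq_abs, abs_of_pos (by norm_num : (0 : ℝ) < 4)]
      linarith
    have n2 : ‖(2 : ℝ) • (P * S b A * (1 - P) * S b (J : Set I) * P)‖ ≤ 2 * ε := by
      rw [norm_smul]
      have := hR A (J : Set I)
      rw [Real.norm_eq_abs, abs_of_pos (by norm_num : (0 : ℝ) < 2)]
      linarith
    have n3 : ‖(2 : ℝ) • (P * S b (J : Set I) * (1 - P) * S b B * P)‖ ≤ 2 * ε := by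
      rw [norm_smul]
      have := hR (J : Set I) B
      rw [Real.norm_eq_abs, abs_of_pos (by norm_num : (0 : ℝ) < 2)]
      linarith
    have n4 : ‖P * S b (J : Set I) * (1 - P) * S b (J : Set I) * P‖ ≤ ε := hR _ _
    refine (norm_add_le _ _).trans ?_
    refine (add_le_add ((norm_sub_le _ _).trans (add_le_add (norm_sub_le _ _) le_rfl)) le_rfl).trans ?_
    linarith
  have hcnt := cnt (Θ := {ω // row ω = k}) (J := {i // i ∈ J}) w v (K := K) (ε := 9 * ε) hK
    (by positivity) (by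
      rw [le_div_iff₀ (by positivity)]
      rw [le_div_iff₀ (by positivity)] at hε
      nlinarith)
    (fun θ hθ x => by
      rw [← hUn, hUM, ← hUn x]
      calc ‖P (T θ (U x))‖ ≤ ‖T θ (U x)‖ := hPn _
        _ ≤ ‖T θ‖ * ‖U x‖ := (T θ).le_opNorm _
        _ ≤ K * ‖U x‖ := mul_le_mul_of_nonneg_right (hTn θ hθ) (norm_nonneg _))
    (fun θ θ' hθ hθ' x => by
      rw [← hUn, map_sub, hUM, hUM, hUM, ← hUn x]
      have h1 : P (T θ (P (T θ' (U x)))) - P (T (fun i => θ i * θ' i) (U x)) =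
          -((P * T θ * (1 - P) * T θ' * P) (U x)) := by
        rw [← hTT]
        simp only [mul_apply_eq_comp, _root_.sub_apply,
          one_apply_eq_self, hPU, map_sub]
        abel
      rw [h1, norm_neg]
      exact (ContinuousLinearMap.le_opNorm _ _).trans
        (mul_le_mul_of_nonneg_right (hcom θ θ' hθ hθ') (norm_nonneg _)))
    (fun x => by
      have h1 : U (x - ∑ i, ⟪v i, x⟫_ℝ • w i) = mu row e b k (J : Set I)ᶜ (U x) := by
        have h2 : ∑ i, ⟪v i, x⟫_ℝ • w i = ∑ i, ((1 : ℝ) * ⟪v i, x⟫_ℝ) • w i :=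
          Finset.sum_congr rfl fun i _ => by rw [one_mul]
        rw [map_sub, h2, hUM (fun _ => (1 : ℝ)) x]
        unfold mu
        rw [S_compl]
        have h3 : T (fun _ => (1 : ℝ)) = S b (J : Set I) := by
          rw [S_finset, ← Finset.sum_coe_sort J]
          exact Finset.sum_congr rfl fun i _ => by rw [one_smul]
        rw [h3]
        simp only [mul_apply_eq_comp, _root_.sub_apply,
          one_apply_eq_self, map_sub]
        rw [← hP, hPU, hPU]
      rw [← hUn, h1, ← hUn x]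
      refine (ContinuousLinearMap.le_opNorm _ _).trans
        (mul_le_mul_of_nonneg_right ?_ (norm_nonneg _))
      refine (mu_small hA hb hε8 hR _ ?_).trans (by linarith)
      rw [← hJ]
      exact disjoint_compl_left)
    (fun i => by
      have hi : i.1 ∈ big row e b k := by rw [← hJ]; exact i.2
      have h1 : (1 : ℝ) / 2 ≤ ‖mu row e b k {i.1}‖ := hi
      refine h1.trans ?_
      refine ContinuousLinearMap.opNorm_le_bound _ (by positivity) fun y => ?_
      have h2 : mu row e b k {i.1} y = b.coord i.1 (P y) • P (b i.1) := by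
        have h3 : S b ({i.1} : Set I) = R b i.1 := by
          have := S_finset b {i.1}
          rw [Finset.coe_singleton, Finset.sum_singleton] at this
          exact this
        unfold mu
        rw [h3, mul_apply_eq_comp, mul_apply_eq_comp, UUB.R_apply,
          map_smul]
      rw [h2, norm_smul, ← hUV y, ← hvx, ← hUw, hUn]
      have h4 : ‖⟪v i, rwV e row k y⟫_ℝ‖ ≤ ‖v i‖ * ‖y‖ := by
        refine (norm_inner_le_norm _ _).trans (mul_le_mul_of_nonneg_left ?_ (norm_nonneg _))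
        rw [← hUn, hUV]
        exact hPn y
      calc ‖⟪v i, rwV e row k y⟫_ℝ‖ * ‖w i‖ ≤ (‖v i‖ * ‖y‖) * ‖w i‖ :=
            mul_le_mul_of_nonneg_right h4 (norm_nonneg _)
        _ = ‖w i‖ * ‖v i‖ * ‖y‖ := by ring)
    (fun i => by
      have hi : i.1 ∈ big row e b k := by rw [← hJ]; exact i.2
      rw [hvx, hUw]
      exact (mu_dia hR hi).trans (by linarith))
  obtain ⟨c1, c2, c3⟩ := hcnt
  have hvK : ∀ i, ‖v i‖ ≤ K := by
    intro i
    have h1 : ‖v i‖ * ‖v i‖ ≤ K * ‖v i‖ := by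
      rw [← real_inner_self_eq_norm_mul_norm, hvx]
      have h2 := abs_coord_b hb i.1 (U (v i))
      rw [hUn] at h2
      exact (le_abs_self _).trans h2
    by_cases h : ‖v i‖ = 0
    · rw [h]; exact hK0.le
    · exact le_of_mul_le_mul_right h1 (lt_of_le_of_ne (norm_nonneg _) (Ne.symm h))
  have hw1 : ∀ i, ‖w i‖ ≤ 1 := by
    intro i
    rw [← hUn, hUw, ← hb.nm i.1]
    exact hPn _
  have hwl : ∀ i, 1 ≤ 2 * K * ‖w i‖ := by
    intro i
    have hi : i.1 ∈ big row e b k := by rw [← hJ]; exact i.2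
    have h1 : (1 : ℝ) / 2 ≤ ‖mu row e b k {i.1}‖ := hi
    have h2 := norm_mu_le hA hb (row := row) (e := e) (k := k) i.1
    rw [← hP, ← hUw i, hUn] at h2
    linarith
  refine ⟨?_, fun c => ?_, fun c => ?_⟩
  · rw [Nat.card_eq_fintype_card, ← c1, Fintype.card_coe]
  · have h1 := c2 (fun i => c i.1)
    have h2 : ‖∑ i : {i // i ∈ J}, c i.1 • w i‖ = ‖∑ i ∈ J, c i • P (b i)‖ := by
      rw [← hUn, map_sum, ← Finset.sum_coe_sort J]
      congr 1
      refine Finset.sum_congr rfl fun i _ => ?_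
      rw [map_smul, hUw]
    rw [h2] at h1
    have h3 : Real.sqrt (∑ i ∈ J, c i ^ 2) ≤
        2 * K * Real.sqrt (∑ i : {i // i ∈ J}, (c i.1 * ‖w i‖) ^ 2) := by
      have h4 : 2 * K * Real.sqrt (∑ i : {i // i ∈ J}, (c i.1 * ‖w i‖) ^ 2) =
          Real.sqrt ((2 * K) ^ 2 * ∑ i : {i // i ∈ J}, (c i.1 * ‖w i‖) ^ 2) := by
        rw [Real.sqrt_mul (by positivity), Real.sqrt_sq (by positivity)]
      rw [h4]
      apply Real.sqrt_le_sqrt
      rw [← Finset.sum_coe_sort J, Finset.mul_sum]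
      refine Finset.sum_le_sum fun i _ => ?_
      have h5 : 1 ≤ (2 * K * ‖w i‖) ^ 2 := one_le_pow₀ (hwl i)
      calc c i.1 ^ 2 = c i.1 ^ 2 * 1 := (mul_one _).symm
        _ ≤ c i.1 ^ 2 * (2 * K * ‖w i‖) ^ 2 := mul_le_mul_of_nonneg_left h5 (sq_nonneg _)
        _ = (2 * K) ^ 2 * (c i.1 * ‖w i‖) ^ 2 := by ring
    calc Real.sqrt (∑ i ∈ J, c i ^ 2)
        ≤ 2 * K * Real.sqrt (∑ i : {i // i ∈ J}, (c i.1 * ‖w i‖) ^ 2) := h3
      _ ≤ 2 * K * (2 * K * ‖∑ i ∈ J, c i • P (b i)‖) :=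
          mul_le_mul_of_nonneg_left h1 (by positivity)
      _ = 4 * K ^ 2 * ‖∑ i ∈ J, c i • P (b i)‖ := by ring
  · obtain ⟨x, hx1, hx2⟩ := c3 (fun i => c i.1)
    refine ⟨U x, hPU x, fun i hi => ?_, ?_⟩
    · rw [← hvx ⟨i, hi⟩, hx1]
    · rw [hUn]
      refine hx2.trans (mul_le_mul_of_nonneg_left ?_ (by positivity))
      apply Real.sqrt_le_sqrt
      rw [← Finset.sum_coe_sort J]
      refine Finset.sum_le_sum fun i _ => ?_
      have h5 : ‖w i‖ ^ 2 ≤ 1 := pow_le_one₀ (norm_nonneg _) (hw1 i)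
      calc (c i.1 * ‖w i‖) ^ 2 = c i.1 ^ 2 * ‖w i‖ ^ 2 := by ring
        _ ≤ c i.1 ^ 2 * 1 := mul_le_mul_of_nonneg_left h5 (sq_nonneg _)
        _ = c i.1 ^ 2 := mul_one _

end Pool.Agent.UBN
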