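import Pool.Agent.UBN.Dj
import Pool.Agent.UBN.Rw

/-!
# The row data of an unconditional basis (assembly)

`J k = (big_finite ...).toFinset` for the far rows (where `Rig row e b k ε` holds) and `∅` elsewhere.
-/

namespace Pool.Agent.UBN

open Pool.Agent.UUB Finset

variable {Ω I : Type} {W : Type} [NormedAddCommGroup W] [NormedSpace ℝ W] [CompleteSpace W]
  {row : Ω → Row} {nr : (Ω →₀ ℝ) → ℝ} {e : UnconditionalSchauderBasis (Ω ⊕ ℕ) ℝ W}
  {b : UnconditionalSchauderBasis I ℝ W} {K ε : ℝ}

theorem exists_rowData (hA : Amb row nr e) (hb : MB b K) (h0 : 0 < ε)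
    (hε : ε ≤ 1 / (1000 * K ^ 2)) :
    ∃ (n1 : ℕ) (J : Row → Finset I), ∀ n0, n1 ≤ n0 → RowData row e b K ε n0 J := by
  classical
  have hK := hb.one_le
  have hε8 : ε ≤ 1 / 8 := by
    refine hε.trans ?_
    apply one_div_le_one_div_of_le (by norm_num)
    nlinarith
  obtain ⟨m1, hm1⟩ := rg_main hA hb h0
  obtain ⟨m2, hm2⟩ := big_disj hA hb
  refine ⟨max m1 m2, fun k => if h : m1 ≤ k.1 then (big_finite hA hb hε8 (hm1 k h)).toFinset
    else ∅, ?_⟩
  intro n0 hn0
  have h1 : ∀ k : Row, n0 ≤ k.1 → m1 ≤ k.1 := fun k hk => (le_max_left _ _).trans (hn0.trans hk)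
  have h2 : ∀ k : Row, n0 ≤ k.1 → m2 ≤ k.1 := fun k hk => (le_max_right _ _).trans (hn0.trans hk)
  have hJ : ∀ k : Row, n0 ≤ k.1 →
      (((if h : m1 ≤ k.1 then (big_finite hA hb hε8 (hm1 k h)).toFinset else ∅) : Finset I) :
        Set I) = big row e b k := by
    intro k hk
    rw [dif_pos (h1 k hk), Set.Finite.coe_toFinset]
  exact
    { bd := hb
      big_eq := hJ
      disj := by
        intro k k' hk hk' hne
        rw [← Finset.disjoint_coe, hJ k hk, hJ k' hk']
        exact hm2 k k' (h2 k hk) (h2 k' hk') hne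
      card := fun k hk => (row_main hA hb h0.le hε (hm1 k (h1 k hk)) _ (hJ k hk)).1
      rig := fun k hk => hm1 k (h1 k hk)
      small := by
        intro k hk A hd
        rw [hJ k hk] at hd
        exact mu_small hA hb hε8 (hm1 k (h1 k hk)) A hd
      dia := by
        intro k hk i hi
        have hi' : i ∈ big row e b k := by
          rw [← hJ k hk]
          exact Finset.mem_coe.2 hi
        exact mu_dia (hm1 k (h1 k hk)) hi'
      riesz := fun k hk => (row_main hA hb h0.le hε (hm1 k (h1 k hk)) _ (hJ k hk)).2.1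
      solve := fun k hk => (row_main hA hb h0.le hε (hm1 k (h1 k hk)) _ (hJ k hk)).2.2 }

end Pool.Agent.UBN
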