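import Pool.Agent.UUB.INV
import Pool.Agent.UUB.CTS

/-!
# Permutative equivalence and norm inequalities

* `permEquiv_of_bound`: Cauchy criterion (`summable_iff_vanishing_norm`) for finite sums.
* `bound_of_permEquiv`: for `w : E` the series `∑ coord j w • b' (σ j)` is summable; `T w` its sum; `T` is linear,
  and its graph is closed (compare the coordinates), so `T` is continuous
  (`LinearMap.continuous_of_isClosed_graph`); the same for the inverse.
-/

namespace Pool.Agent.UBN

open Pool.Agent.UUB Finset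

private theorem pe_summable {J : Type} {E F : Type} [NormedAddCommGroup E]
    [NormedAddCommGroup F] [CompleteSpace F] {f : J → E} {g : J → F} (C : ℝ)
    (h : ∀ A : Finset J, ‖∑ j ∈ A, g j‖ ≤ C * ‖∑ j ∈ A, f j‖)
    (hE : ∀ ε > 0, ∃ s : Finset J, ∀ t : Finset J, Disjoint t s → ‖∑ b ∈ t, f b‖ < ε) :
    Summable g := by
  rw [summable_iff_vanishing_norm]
  intro ε hε
  have hC : 0 < |C| + 1 := by positivity
  obtain ⟨s, hs⟩ := hE (ε / (|C| + 1)) (div_pos hε hC)
  refine ⟨s, fun t ht => ?_⟩
  have h1 := hs t ht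
  rw [lt_div_iff₀ hC] at h1
  have h2 := h t
  have h3 : C * ‖∑ j ∈ t, f j‖ ≤ (|C| + 1) * ‖∑ j ∈ t, f j‖ := by
    apply mul_le_mul_of_nonneg_right _ (norm_nonneg _)
    have := le_abs_self C
    linarith
  linarith

theorem permEquiv_of_bound {J I : Type} {E F : Type} [NormedAddCommGroup E] [NormedSpace ℝ E]
    [CompleteSpace E] [NormedAddCommGroup F] [NormedSpace ℝ F] [CompleteSpace F] {x : J → E}
    {y : I → F} (σ : J ≃ I) (C : ℝ)
    (h1 : ∀ (A : Finset J) (c : J → ℝ), ‖∑ j ∈ A, c j • x j‖ ≤ C * ‖∑ j ∈ A, c j • y (σ j)‖)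
    (h2 : ∀ (A : Finset J) (c : J → ℝ), ‖∑ j ∈ A, c j • y (σ j)‖ ≤ C * ‖∑ j ∈ A, c j • x j‖) :
    PermEquiv ℝ x y := by
  refine ⟨σ, fun a => ⟨fun h => ?_, fun h => ?_⟩⟩
  · exact pe_summable C (fun A => h2 A a) (summable_iff_vanishing_norm.1 h)
  · exact pe_summable C (fun A => h1 A a) (summable_iff_vanishing_norm.1 h)

private theorem pe_ext {J : Type} {W : Type} [NormedAddCommGroup W] [NormedSpace ℝ W]
    (b : UnconditionalSchauderBasis J ℝ W) {v w : W} (h : ∀ j, b.coord j v = b.coord j w) :
    v = w := by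
  have h1 := b.expansion v
  have h2 := b.expansion w
  have h3 : (fun i => b.coord i v • b i) = fun i => b.coord i w • b i := by
    funext i
    rw [h i]
  rw [h3] at h1
  exact h1.unique h2

private theorem pe_one {J I : Type} {E F : Type} [NormedAddCommGroup E] [NormedSpace ℝ E]
    [CompleteSpace E] [NormedAddCommGroup F] [NormedSpace ℝ F] [CompleteSpace F] {x : J → E}
    {y : I → F} (hx : IsUncBasis ℝ x) (hy : IsUncBasis ℝ y) (σ : J ≃ I)
    (h : ∀ a : J → ℝ, (Summable fun j => a j • x j) → (Summable fun j => a j • y (σ j))) :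
    ∃ C : ℝ, ∀ (A : Finset J) (c : J → ℝ),
      ‖∑ j ∈ A, c j • y (σ j)‖ ≤ C * ‖∑ j ∈ A, c j • x j‖ := by
  classical
  obtain ⟨b, hb⟩ := exists_schauder hx
  obtain ⟨b', hb'⟩ := exists_schauder hy
  have hs : ∀ w : E, Summable fun j => b.coord j w • y (σ j) := by
    intro w
    apply h
    have h1 := (b.expansion w).summable
    have h2 : (fun j => b.coord j w • b j) = fun j => b.coord j w • x j := by
      funext j
      rw [hb j]
    rwa [h2] at h1
  let T : E →ₗ[ℝ] F :=
    { toFun := fun w => ∑' j, b.coord j w • y (σ j)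
      map_add' := by
        intro v w
        rw [← (hs v).tsum_add (hs w)]
        congr 1
        funext j
        rw [map_add, add_smul]
      map_smul' := by
        intro r v
        rw [RingHom.id_apply, ← (hs v).tsum_const_smul r]
        congr 1
        funext j
        rw [map_smul, smul_eq_mul, mul_smul] }
  have hT : ∀ w, HasSum (fun j => b.coord j w • y (σ j)) (T w) := fun w => (hs w).hasSum
  have hcoord : ∀ (w : E) (j : J), b'.coord (σ j) (T w) = b.coord j w := by
    intro w j
    have h1 := (hT w).mapL (b'.coord (σ j))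
    have h2 : HasSum (fun i => b'.coord (σ j) (b.coord i w • y (σ i))) (b.coord j w) := by
      have h3 : (fun i => b'.coord (σ j) (b.coord i w • y (σ i))) =
          fun i => if i = j then b.coord j w else 0 := by
        funext i
        rw [map_smul, ← hb' (σ i), b'.ortho, smul_eq_mul, Pi.single_apply]
        by_cases hij : i = j
        · rw [hij, if_pos rfl, if_pos rfl, mul_one]
        · rw [if_neg hij, if_neg (fun h' => hij (σ.injective h').symm), mul_zero]
      rw [h3]
      exact hasSum_ite_eq j (b.coord j w)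
    exact h1.unique h2
  have hcont : Continuous T := by
    apply LinearMap.continuous_of_seq_closed_graph
    intro u v z hu hz
    apply pe_ext b'
    intro i
    obtain ⟨j, rfl⟩ := σ.surjective i
    rw [hcoord]
    have h1 : Filter.Tendsto (fun n => b'.coord (σ j) (T (u n))) Filter.atTop
        (nhds (b'.coord (σ j) z)) := ((b'.coord (σ j)).continuous.tendsto z).comp hz
    have h2 : Filter.Tendsto (fun n => b.coord j (u n)) Filter.atTop (nhds (b.coord j v)) :=
      ((b.coord j).continuous.tendsto v).comp hu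
    have h3 : (fun n => b'.coord (σ j) (T (u n))) = fun n => b.coord j (u n) := by
      funext n
      exact hcoord (u n) j
    rw [h3] at h1
    exact tendsto_nhds_unique h1 h2
  let T' : E →L[ℝ] F := ⟨T, hcont⟩
  have hTx : ∀ j, T' (x j) = y (σ j) := by
    intro j
    apply pe_ext b'
    intro i
    obtain ⟨i, rfl⟩ := σ.surjective i
    have h1 : b'.coord (σ i) (T' (x j)) = b.coord i (x j) := hcoord (x j) i
    rw [h1, ← hb j, b.ortho, ← hb' (σ j), b'.ortho, Pi.single_apply, Pi.single_apply]
    by_cases hij : i = j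
    · rw [hij, if_pos rfl, if_pos rfl]
    · rw [if_neg hij, if_neg (fun h' => hij (σ.injective h'))]
  refine ⟨‖T'‖, fun A c => ?_⟩
  have h1 : ∑ j ∈ A, c j • y (σ j) = T' (∑ j ∈ A, c j • x j) := by
    rw [map_sum]
    apply sum_congr rfl
    intro j _
    rw [map_smul, hTx]
  rw [h1]
  exact T'.le_opNorm _

theorem bound_of_permEquiv {J I : Type} {E F : Type} [NormedAddCommGroup E] [NormedSpace ℝ E]
    [CompleteSpace E] [NormedAddCommGroup F] [NormedSpace ℝ F] [CompleteSpace F] {x : J → E}
    {y : I → F} (hx : IsUncBasis ℝ x) (hy : IsUncBasis ℝ y) (h : PermEquiv ℝ x y) :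
    ∃ (σ : J ≃ I) (C : ℝ), 0 < C ∧
      (∀ (A : Finset J) (c : J → ℝ), ‖∑ j ∈ A, c j • x j‖ ≤ C * ‖∑ j ∈ A, c j • y (σ j)‖) ∧
      (∀ (A : Finset J) (c : J → ℝ), ‖∑ j ∈ A, c j • y (σ j)‖ ≤ C * ‖∑ j ∈ A, c j • x j‖) := by
  obtain ⟨σ, hσ⟩ := h
  obtain ⟨C1, hC1⟩ := pe_one hx hy σ (fun a => (hσ a).1)
  have hback : ∀ a : I → ℝ, (Summable fun i => a i • y i) →
      (Summable fun i => a i • x (σ.symm i)) := by
    intro a ha
    have h1 : Summable fun j => a (σ j) • y (σ j) := by
      have := σ.summable_iff.2 ha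
      exact this
    have h2 := (hσ (fun j => a (σ j))).2 h1
    have h3 := σ.symm.summable_iff.2 h2
    have h4 : ((fun j => a (σ j) • x j) ∘ σ.symm) = fun i => a i • x (σ.symm i) := by
      funext i
      simp only [Function.comp_apply, Equiv.apply_symm_apply]
    rwa [h4] at h3
  obtain ⟨C2, hC2⟩ := pe_one hy hx σ.symm hback
  have hle : ∀ (C : ℝ) (r : ℝ), 0 ≤ r → C ≤ |C1| + |C2| + 1 → C * r ≤ (|C1| + |C2| + 1) * r :=
    fun C r hr hC => mul_le_mul_of_nonneg_right hC hr
  refine ⟨σ, |C1| + |C2| + 1, by positivity, fun A c => ?_, fun A c => ?_⟩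
  · have h1 := hC2 (A.map σ.toEmbedding) (fun i => c (σ.symm i))
    rw [sum_map, sum_map] at h1
    simp only [Equiv.coe_toEmbedding, Equiv.symm_apply_apply] at h1
    refine h1.trans (hle _ _ (norm_nonneg _) ?_)
    have := le_abs_self C2
    have := abs_nonneg C1
    linarith
  · refine (hC1 A c).trans (hle _ _ (norm_nonneg _) ?_)
    have := le_abs_self C1
    have := abs_nonneg C2
    linarith

end Pool.Agent.UBN
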