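import Pool.Agent.UBN.Mu

/-!
# Trace bounds

* `trace_bd`: with `θ i` the sign of `b.coord i (e s) * e.coord s (b i)` on `F` and `0` outside,
  `∑ |...| = e.coord s (mulOp b θ (e s)) ≤ K`.
* `big_finite`: for a finite `F ⊆ big`: `3/4 * F.card ≤ ∑ i ∈ F |b.coord i (P (b i))|` and
  `P (b i) = ∑ s ∈ rowS, e.coord s (b i) • e s`, so the sum is at most `K * (number of coordinates of the row)`.
* `diag_small`: the same with `winS row 0 m` and a threshold `η`.
-/

namespace Pool.Agent.UBN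

open Pool.Agent.UUB Finset

variable {Ω I : Type} {W : Type} [NormedAddCommGroup W] [NormedSpace ℝ W] [CompleteSpace W]
  {row : Ω → Row} {nr : (Ω →₀ ℝ) → ℝ} {e : UnconditionalSchauderBasis (Ω ⊕ ℕ) ℝ W}
  {b : UnconditionalSchauderBasis I ℝ W} {K ε : ℝ}

theorem trace_bd (hA : Amb row nr e) (hb : MB b K) (s : Ω ⊕ ℕ) (F : Finset I) :
    ∑ i ∈ F, |b.coord i (e s) * e.coord s (b i)| ≤ K := by
  classical
  have hK : 0 < K := lt_of_lt_of_le one_pos hb.one_le
  let c : I → ℝ := fun i => if 0 ≤ b.coord i (e s) * e.coord s (b i) then 1 else -1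
  have hθ : ∀ i, |(fun i => if i ∈ F then c i else 0) i| ≤ 1 := by
    intro i
    simp only [c]
    split_ifs <;> simp
  have h1 : mulOp b (fun i => if i ∈ F then c i else 0) = ∑ i ∈ F, c i • UUB.R b i :=
    mulOp_finset b F c
  have h2 : e.coord s (mulOp b (fun i => if i ∈ F then c i else 0) (e s)) =
      ∑ i ∈ F, |b.coord i (e s) * e.coord s (b i)| := by
    rw [h1, _root_.sum_apply, map_sum]
    refine Finset.sum_congr rfl fun i _ => ?_
    rw [smul_apply, UUB.R_apply, map_smul, map_smul, smul_eq_mul, smul_eq_mul]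
    simp only [c]
    split_ifs with h
    · rw [one_mul, abs_of_nonneg h]
    · rw [abs_of_neg (not_le.1 h), neg_one_mul]
  rw [← h2]
  calc e.coord s (mulOp b (fun i => if i ∈ F then c i else 0) (e s))
      ≤ |e.coord s (mulOp b (fun i => if i ∈ F then c i else 0) (e s))| := le_abs_self _
    _ ≤ ‖mulOp b (fun i => if i ∈ F then c i else 0) (e s)‖ := abs_coord_e hA s _
    _ ≤ ‖mulOp b (fun i => if i ∈ F then c i else 0)‖ * ‖e s‖ :=
        (mulOp b (fun i => if i ∈ F then c i else 0)).le_opNorm (e s)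
    _ ≤ K * 1 := by
        rw [norm_e hA s]
        exact mul_le_mul_of_nonneg_right (hb.bd _ hθ) zero_le_one
    _ = K := mul_one K

private theorem jf_fin (hA : Amb row nr e) (hb : MB b K) (A : Set (Ω ⊕ ℕ)) (hf : A.Finite) {η : ℝ}
    (hη : 0 < η) : {i : I | η ≤ |b.coord i (S e A (b i))|}.Finite := by
  classical
  by_contra h
  have hinf : {i : I | η ≤ |b.coord i (S e A (b i))|}.Infinite := h
  obtain ⟨n, hn⟩ := exists_nat_gt (K * hf.toFinset.card / η)
  obtain ⟨F, hF, hc⟩ := hinf.exists_subset_card_eq n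
  have h1 : ∀ i, b.coord i (S e A (b i)) =
      ∑ s ∈ hf.toFinset, b.coord i (e s) * e.coord s (b i) := by
    intro i
    have h2 := S_finset e hf.toFinset
    rw [hf.coe_toFinset] at h2
    rw [h2, _root_.sum_apply, map_sum]
    refine Finset.sum_congr rfl fun s _ => ?_
    rw [UUB.R_apply, map_smul, smul_eq_mul, mul_comm]
  have h3 : (n : ℝ) * η ≤ K * hf.toFinset.card := by
    calc (n : ℝ) * η = ∑ i ∈ F, η := by rw [Finset.sum_const, hc, nsmul_eq_mul]
      _ ≤ ∑ i ∈ F, |b.coord i (S e A (b i))| := Finset.sum_le_sum fun i hi => hF hi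
      _ ≤ ∑ i ∈ F, ∑ s ∈ hf.toFinset, |b.coord i (e s) * e.coord s (b i)| := by
          refine Finset.sum_le_sum fun i _ => ?_
          rw [h1]
          exact Finset.abs_sum_le_sum_abs _ _
      _ = ∑ s ∈ hf.toFinset, ∑ i ∈ F, |b.coord i (e s) * e.coord s (b i)| := Finset.sum_comm
      _ ≤ ∑ s ∈ hf.toFinset, K := Finset.sum_le_sum fun s _ => trace_bd hA hb s F
      _ = K * hf.toFinset.card := by rw [Finset.sum_const, nsmul_eq_mul, mul_comm]
  rw [div_lt_iff₀ hη] at hn
  linarith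

theorem big_finite (hA : Amb row nr e) (hb : MB b K) {k : Row} (hε : ε ≤ 1 / 8)
    (hR : Rig row e b k ε) : (big row e b k).Finite := by
  refine (jf_fin hA hb (rowS row k) (finite_rowS hA k) (show (0 : ℝ) < 3 / 4 by norm_num)).subset ?_
  intro i hi
  have h1 := (abs_le.1 (mu_dia hR hi)).1
  show (3 / 4 : ℝ) ≤ |b.coord i (S e (rowS row k) (b i))|
  exact le_trans (by linarith) (le_abs_self _)

theorem diag_small (hA : Amb row nr e) (hb : MB b K) (m : ℕ) {η : ℝ} (hη : 0 < η) :
    {i : I | η ≤ |b.coord i (S e (winS row 0 m ∩ XS Ω) (b i))|}.Finite :=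
  jf_fin hA hb _ ((finite_winS hA 0 m).subset Set.inter_subset_left) hη

end Pool.Agent.UBN
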