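import Pool.Agent.UBN.Dj
import Pool.Agent.UBN.Jf

/-!
# The rest of `b` lives in the Hilbert part

Suppose the set `T` of the statement is infinite.  Stage: given `a ≥ n0` and a finite `F ⊆ I` choose `i ∈ T`,
`i ∉ F`, with `|b_i^*(S e (winS row 0 a ∩ XS) b_i)| ≤ 1/8` (`diag_small`), and `a'` with
`|b_i^*(S e ({s | a' ≤ wn s} ∩ XS) b_i)| ≤ 1/8` (`tail_e`, `abs_coord_b`).  So
`|b_i^*(S e (winS row a a' ∩ XS) b_i)| ≥ 1/4`; this is the sum over the finitely many rows `k` met by the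
windows `[a, a')` of `τ k = b_i^*(P_k b_i)`, and `|τ k| ≤ 2 ε ≤ 1/64` (`mu_dia'`, as `i ∉ J k = big k`).
Partial sums: there is a set `R` of rows with `|∑_{k ∈ R} τ k| ≥ 1/16` and `|∑_{k ∉ R} τ k| ≥ 1/16`.
`Q = ⋃_{k ∈ R} rowS k`, `Q' = (winS row a a' ∩ XS) \ Q`.
`hump_seq` with `a0 = n0`; `x j = S e (Q j) b_{i j}`, `y j = S e (Q' j) b_{i j}` are equivalent (`lemD_up`,
`lemD_low` with `δ = 1/16`) and have disjoint rows: contradiction to `rig_W`.
-/

namespace Pool.Agent.UBN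

open Pool.Agent.UUB Finset

variable {Ω I : Type} {W : Type} [NormedAddCommGroup W] [NormedSpace ℝ W] [CompleteSpace W]
  {row : Ω → Row} {nr : (Ω →₀ ℝ) → ℝ} {e : UnconditionalSchauderBasis (Ω ⊕ ℕ) ℝ W}
  {b : UnconditionalSchauderBasis I ℝ W} {K ε : ℝ}

/-- Splitting a sum of small terms into two big halves. -/
theorem half_split {κ : Type} [DecidableEq κ] (R : Finset κ) (τ : κ → ℝ) (h1 : 1 / 4 ≤ |∑ k ∈ R, τ k|)
    (h2 : ∀ k ∈ R, |τ k| ≤ 1 / 64) :
    ∃ R' ⊆ R, 1 / 16 ≤ |∑ k ∈ R', τ k| ∧ 1 / 16 ≤ |∑ k ∈ R \ R', τ k| := by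
  classical
  have hne : (R.powerset.filter fun X => (1 : ℝ) / 8 ≤ |∑ k ∈ X, τ k|).Nonempty :=
    ⟨R, Finset.mem_filter.2 ⟨Finset.mem_powerset_self R, by linarith⟩⟩
  obtain ⟨R', hR', hmin⟩ := Finset.exists_min_image _ Finset.card hne
  rw [Finset.mem_filter, Finset.mem_powerset] at hR'
  obtain ⟨hsub, h8⟩ := hR'
  have hR'ne : R'.Nonempty := by
    rw [Finset.nonempty_iff_ne_empty]
    intro h0
    rw [h0, Finset.sum_empty, abs_zero] at h8
    linarith
  obtain ⟨k, hk⟩ := hR'ne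
  have hlt : |∑ j ∈ R'.erase k, τ j| < 1 / 8 := by
    by_contra hge
    rw [not_lt] at hge
    have h3 := hmin (R'.erase k) (Finset.mem_filter.2 ⟨Finset.mem_powerset.2
      ((Finset.erase_subset _ _).trans hsub), hge⟩)
    have h4 := Finset.card_erase_lt_of_mem hk
    omega
  have hsum : ∑ j ∈ R'.erase k, τ j + τ k = ∑ j ∈ R', τ j := Finset.sum_erase_add _ _ hk
  have hk2 := h2 k (hsub hk)
  have htot : ∑ j ∈ R \ R', τ j + ∑ j ∈ R', τ j = ∑ j ∈ R, τ j := Finset.sum_sdiff hsub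
  have h5 : |∑ j ∈ R', τ j| ≤ 9 / 64 := by
    rw [← hsum]
    have := abs_add_le (∑ j ∈ R'.erase k, τ j) (τ k)
    linarith
  have h6 : 1 / 4 ≤ |∑ j ∈ R \ R', τ j| + |∑ j ∈ R', τ j| := by
    rw [← htot] at h1
    exact h1.trans (abs_add_le _ _)
  exact ⟨R', hsub, by linarith, by linarith⟩

/-- the coordinates of the rows in a finite set -/
def rs1S (row : Ω → Row) (R : Finset Row) : Set (Ω ⊕ ℕ) := {s | ∃ ω, s = Sum.inl ω ∧ row ω ∈ R}

theorem rs1_S_rsS (R : Finset Row) (v : W) :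
    S e (rs1S row R) v = ∑ k ∈ R, S e (rowS row k) v := by
  classical
  refine ext_coord e fun s => ?_
  rw [map_sum]
  by_cases hs : s ∈ rs1S row R
  · rw [coord_S_mem e hs]
    obtain ⟨ω, rfl, hω⟩ := hs
    rw [Finset.sum_eq_single_of_mem (row ω) hω]
    · rw [coord_S_mem e]
      exact ⟨ω, rfl, rfl⟩
    · intro k _ hk
      apply coord_S_notMem e
      rintro ⟨ω', h1, h2⟩
      rw [Sum.inl_injective h1] at hk
      exact hk h2.symm
  · rw [coord_S_notMem e hs]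
    symm
    refine Finset.sum_eq_zero fun k hk => ?_
    apply coord_S_notMem e
    rintro ⟨ω', h1, h2⟩
    apply hs
    exact ⟨ω', h1, by rw [h2]; exact hk⟩

theorem rs1_S_sub {A B : Set (Ω ⊕ ℕ)} (h : A ⊆ B) (v : W) : S e A (S e B v) = S e A v := by
  rw [← mul_apply_eq_comp, S_mul_S, Set.inter_eq_left.2 h]

theorem rs1_S_sub' {A B : Set (Ω ⊕ ℕ)} (h : A ⊆ B) (v : W) : S e B (S e A v) = S e A v := by
  rw [← mul_apply_eq_comp, S_mul_S, Set.inter_eq_right.2 h]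

theorem rs1_S_union {A B : Set (Ω ⊕ ℕ)} (h : Disjoint A B) (v : W) :
    S e (A ∪ B) v = S e A v + S e B v := by
  refine ext_coord e fun j => ?_
  rw [map_add]
  by_cases hA : j ∈ A
  · have hB : j ∉ B := Set.disjoint_left.1 h hA
    rw [coord_S_mem e (Or.inl hA), coord_S_mem e hA, coord_S_notMem e hB, add_zero]
  · by_cases hB : j ∈ B
    · rw [coord_S_mem e (Or.inr hB), coord_S_mem e hB, coord_S_notMem e hA, zero_add]
    · rw [coord_S_notMem e hA, coord_S_notMem e hB,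
        coord_S_notMem e (fun hx => hx.elim hA hB), add_zero]

theorem rs1_norm_S (hA : Amb row nr e) {A B : Set (Ω ⊕ ℕ)} (h : A ⊆ B) (v : W) :
    ‖S e A v‖ ≤ ‖S e B v‖ := by
  rw [← rs1_S_sub h v]
  calc ‖S e A (S e B v)‖ ≤ ‖S e A‖ * ‖S e B v‖ := (S e A).le_opNorm _
    _ ≤ 1 * ‖S e B v‖ := mul_le_mul_of_nonneg_right (norm_S_e hA A) (norm_nonneg _)
    _ = ‖S e B v‖ := one_mul _

/-- the rows met by the windows `[a, a')` -/
theorem rs1_rows (hA : Amb row nr e) (a a' : ℕ) :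
    ∃ R : Finset Row, (∀ k ∈ R, a ≤ k.1 ∧ k.1 < a') ∧ winS row a a' ∩ XS Ω = rs1S row R := by
  classical
  refine ⟨(finite_winS hA a a').toFinset.biUnion fun s => Sum.elim (fun ω => {row ω}) (fun _ => ∅) s,
    ?_, ?_⟩
  · intro k hk
    rw [Finset.mem_biUnion] at hk
    obtain ⟨s, hs, hk⟩ := hk
    rw [Set.Finite.mem_toFinset] at hs
    rcases s with ω | m
    · simp only [Sum.elim_inl, Finset.mem_singleton] at hk
      rw [hk]
      exact hs
    · simp at hk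
  · ext s
    constructor
    · rintro ⟨hs, ω, rfl⟩
      refine ⟨ω, rfl, ?_⟩
      rw [Finset.mem_biUnion]
      exact ⟨Sum.inl ω, by rwa [Set.Finite.mem_toFinset], by simp⟩
    · rintro ⟨ω, rfl, hω⟩
      refine ⟨?_, ⟨ω, rfl⟩⟩
      rw [Finset.mem_biUnion] at hω
      obtain ⟨s, hs, hk⟩ := hω
      rw [Set.Finite.mem_toFinset] at hs
      rcases s with ω' | m
      · simp only [Sum.elim_inl, Finset.mem_singleton] at hk
        have h1 : a ≤ (row ω').1 ∧ (row ω').1 < a' := hs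
        rw [← hk] at h1
        exact h1
      · simp at hk

theorem rest_flat (hA : Amb row nr e) {n0 : ℕ} {J : Row → Finset I}
    (hD : RowData row e b K ε n0 J) (hε : ε ≤ 1 / 128) :
    {i : I | (∀ k : Row, n0 ≤ k.1 → i ∉ J k) ∧
      1 / 2 ≤ |b.coord i (S e (XS Ω) (b i))|}.Finite := by
  classical
  have hb := hD.bd
  have hK : 0 < K := lt_of_lt_of_le one_pos hb.one_le
  by_contra hinf
  have hstage : ∀ (a : ℕ), n0 ≤ a → ∀ F : Finset I,
      ∃ (a' : ℕ) (G : Finset I) (d : I × Finset Row × Finset Row), a ≤ a' ∧ Disjoint G F ∧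
        (G = {d.1} ∧ Disjoint d.2.1 d.2.2 ∧ (∀ k ∈ d.2.1, a ≤ k.1 ∧ k.1 < a') ∧
          (∀ k ∈ d.2.2, a ≤ k.1 ∧ k.1 < a') ∧
          1 / 16 ≤ |b.coord d.1 (S e (rs1S row d.2.1) (b d.1))| ∧
          1 / 16 ≤ |b.coord d.1 (S e (rs1S row d.2.2) (b d.1))|) := by
    intro a ha F
    have hfin := diag_small hA hb a (show (0 : ℝ) < 1 / 8 by norm_num)
    have hinf2 : ({i : I | (∀ k : Row, n0 ≤ k.1 → i ∉ J k) ∧
        1 / 2 ≤ |b.coord i (S e (XS Ω) (b i))|} \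
        ((F : Set I) ∪ {i : I | 1 / 8 ≤ |b.coord i (S e (winS row 0 a ∩ XS Ω) (b i))|})).Infinite :=
      Set.Infinite.sdiff hinf ((F.finite_toSet).union hfin)
    obtain ⟨i, ⟨hi1, hi2⟩, hi3⟩ := hinf2.nonempty
    have hiF : i ∉ F := fun h => hi3 (Or.inl (Finset.mem_coe.2 h))
    have hi8 : |b.coord i (S e (winS row 0 a ∩ XS Ω) (b i))| < 1 / 8 := by
      by_contra h
      exact hi3 (Or.inr (not_lt.1 h))
    obtain ⟨m0, hm0⟩ := tail_e hA (b i) (show (0 : ℝ) < 1 / (8 * K) by positivity)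
    set a' := max a m0 with ha'
    have haa' : a ≤ a' := le_max_left _ _
    have htail : |b.coord i (S e ({s | a' ≤ wn row s} ∩ XS Ω) (b i))| ≤ 1 / 8 := by
      refine (abs_coord_b hb i _).trans ?_
      have h1 := hm0 a' (le_max_right _ _)
      have h2 := rs1_norm_S hA (Set.inter_subset_left :
        {s | a' ≤ wn row s} ∩ XS Ω ⊆ {s | a' ≤ wn row s}) (b i)
      calc K * ‖S e ({s | a' ≤ wn row s} ∩ XS Ω) (b i)‖ ≤ K * (1 / (8 * K)) :=
            mul_le_mul_of_nonneg_left (h2.trans h1) hK.le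
        _ = 1 / 8 := by field_simp
    have hdec : S e (XS Ω) (b i) = S e (winS row 0 a ∩ XS Ω) (b i) +
        S e (winS row a a' ∩ XS Ω) (b i) + S e ({s | a' ≤ wn row s} ∩ XS Ω) (b i) := by
      rw [← rs1_S_union, ← rs1_S_union]
      · congr 2
        ext s
        constructor
        · intro hs
          rcases lt_or_ge (wn row s) a with h | h
          · exact Or.inl (Or.inl ⟨⟨Nat.zero_le _, h⟩, hs⟩)
          · rcases lt_or_ge (wn row s) a' with h' | h'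
            · exact Or.inl (Or.inr ⟨⟨h, h'⟩, hs⟩)
            · exact Or.inr ⟨h', hs⟩
        · rintro ((h | h) | h) <;> exact h.2
      · rw [Set.disjoint_left]
        rintro s (⟨⟨_, h1⟩, _⟩ | ⟨⟨_, h1⟩, _⟩) ⟨h2, _⟩
        · have h3 : a' ≤ wn row s := h2
          omega
        · have h3 : a' ≤ wn row s := h2
          omega
      · rw [Set.disjoint_left]
        rintro s ⟨⟨_, h1⟩, _⟩ ⟨⟨h2, _⟩, _⟩
        omega
    have hmid : 1 / 4 ≤ |b.coord i (S e (winS row a a' ∩ XS Ω) (b i))| := by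
      rw [hdec, map_add, map_add] at hi2
      have h1 := abs_add_le (b.coord i (S e (winS row 0 a ∩ XS Ω) (b i)) +
        b.coord i (S e (winS row a a' ∩ XS Ω) (b i)))
        (b.coord i (S e ({s | a' ≤ wn row s} ∩ XS Ω) (b i)))
      have h2 := abs_add_le (b.coord i (S e (winS row 0 a ∩ XS Ω) (b i)))
        (b.coord i (S e (winS row a a' ∩ XS Ω) (b i)))
      linarith
    obtain ⟨R, hR1, hR2⟩ := rs1_rows hA a a'
    rw [hR2, rs1_S_rsS, map_sum] at hmid
    obtain ⟨R', hR', h3, h4⟩ := half_split R (fun k => b.coord i (S e (rowS row k) (b i))) hmid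
      (fun k hk => by
        have hk0 : n0 ≤ k.1 := ha.trans (hR1 k hk).1
        have hnb : i ∉ big row e b k := by
          rw [← hD.big_eq k hk0, Finset.mem_coe]
          exact hi1 k hk0
        refine (mu_dia' (by linarith) (hD.rig k hk0) hnb).trans ?_
        linarith)
    rw [← map_sum, ← rs1_S_rsS] at h3 h4
    refine ⟨a', {i}, (i, R', R \ R'), haa', ?_, rfl, Finset.disjoint_sdiff, ?_, ?_, h3, h4⟩
    · exact Finset.disjoint_singleton_left.2 hiF
    · exact fun k hk => hR1 k (hR' hk)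
    · exact fun k hk => hR1 k (Finset.mem_sdiff.1 hk).1
  obtain ⟨a, G, d, ha0, hmono, hGd, hP⟩ := hump_seq
    (fun (a a' : ℕ) (G : Finset I) (d : I × Finset Row × Finset Row) => G = {d.1} ∧
    Disjoint d.2.1 d.2.2 ∧ (∀ k ∈ d.2.1, a ≤ k.1 ∧ k.1 < a') ∧
    (∀ k ∈ d.2.2, a ≤ k.1 ∧ k.1 < a') ∧
    1 / 16 ≤ |b.coord d.1 (S e (rs1S row d.2.1) (b d.1))| ∧
    1 / 16 ≤ |b.coord d.1 (S e (rs1S row d.2.2) (b d.1))|) n0 hstage
  have hne : ∀ j l, j ≠ l → (d j).1 ≠ (d l).1 := by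
    intro j l hjl h
    have h1 := hGd j l hjl
    rw [(hP j).1, (hP l).1, h] at h1
    simp at h1
  have hdisj : ∀ (R : ℕ → Finset Row), (∀ j, ∀ k ∈ R j, a j ≤ k.1 ∧ k.1 < a (j + 1)) →
      ∀ j l, j ≠ l → Disjoint (rs1S row (R j)) (rs1S row (R l)) := by
    intro R hR j l hjl
    rw [Set.disjoint_left]
    rintro s ⟨ω, rfl, hω⟩ ⟨ω', h1, hω'⟩
    rw [← Sum.inl_injective h1] at hω'
    have h2 := hR j _ hω
    have h3 := hR l _ hω'
    rcases lt_or_gt_of_ne hjl with h | h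
    · have h4 : a (j + 1) ≤ a l := hmono h
      omega
    · have h4 : a (l + 1) ≤ a j := hmono h
      omega
  have hQ1 := hdisj (fun j => (d j).2.1) (fun j => (hP j).2.2.1)
  have hQ2 := hdisj (fun j => (d j).2.2) (fun j => (hP j).2.2.2.1)
  have hsub : ∀ (R : Finset Row) (p q : ℕ), (∀ k ∈ R, p ≤ k.1 ∧ k.1 < q) →
      rs1S row R ⊆ winS row p q ∩ XS Ω := by
    rintro R p q h s ⟨ω, rfl, hω⟩
    exact ⟨h _ hω, ⟨ω, rfl⟩⟩
  have hδ : (0 : ℝ) < 1 / 16 := by norm_num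
  refine rig_W hA a hmono (fun l => S e (rs1S row (d l).2.1) (b (d l).1))
    (fun l => S e (rs1S row (d l).2.2) (b (d l).1)) (K * (K ^ 2 / (1 / 16))) ?_ ?_ ?_ ?_ ?_ ?_
  · exact fun l => rs1_S_sub' (hsub _ _ _ (hP l).2.2.1) _
  · exact fun l => rs1_S_sub' (hsub _ _ _ (hP l).2.2.2.1) _
  · intro l ω ω' h1 h2 h3
    have m1 : Sum.inl ω ∈ rs1S row (d l).2.1 := by
      by_contra hn
      exact h1 (coord_S_notMem e hn _)
    have m2 : Sum.inl ω' ∈ rs1S row (d l).2.2 := by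
      by_contra hn
      exact h2 (coord_S_notMem e hn _)
    obtain ⟨u, hu, hu'⟩ := m1
    obtain ⟨v, hv, hv'⟩ := m2
    rw [← Sum.inl_injective hu] at hu'
    rw [← Sum.inl_injective hv, ← h3] at hv'
    exact Finset.disjoint_left.1 (hP l).2.1 hu' hv'
  · intro l h0
    have h1 := (hP l).2.2.2.2.1
    rw [h0, map_zero, abs_zero] at h1
    linarith
  · intro A t
    have h1 := lemD_up hA hb A (fun l => rs1S row (d l).2.1) (fun l => (d l).1)
      (fun j _ l _ h => hQ1 j l h) (fun j _ l _ h => hne j l h) t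
    have h2 := lemD_low hA hb A (fun l => rs1S row (d l).2.2) (fun l => (d l).1)
      (fun j _ l _ h => hQ2 j l h) (fun j _ l _ h => hne j l h) hδ
      (fun j _ => (hP j).2.2.2.2.2) t
    calc _ ≤ K * ‖∑ j ∈ A, t j • b (d j).1‖ := h1
      _ ≤ K * (K ^ 2 / (1 / 16) * ‖∑ j ∈ A, t j • S e (rs1S row (d j).2.2) (b (d j).1)‖) :=
          mul_le_mul_of_nonneg_left h2 hK.le
      _ = _ := by ring
  · intro A t
    have h1 := lemD_up hA hb A (fun l => rs1S row (d l).2.2) (fun l => (d l).1)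
      (fun j _ l _ h => hQ2 j l h) (fun j _ l _ h => hne j l h) t
    have h2 := lemD_low hA hb A (fun l => rs1S row (d l).2.1) (fun l => (d l).1)
      (fun j _ l _ h => hQ1 j l h) (fun j _ l _ h => hne j l h) hδ
      (fun j _ => (hP j).2.2.2.2.1) t
    calc _ ≤ K * ‖∑ j ∈ A, t j • b (d j).1‖ := h1
      _ ≤ K * (K ^ 2 / (1 / 16) * ‖∑ j ∈ A, t j • S e (rs1S row (d j).2.1) (b (d j).1)‖) :=
          mul_le_mul_of_nonneg_left h2 hK.le
      _ = _ := by ring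

end Pool.Agent.UBN
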