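import Pool.Agent.UBN.A0

/-!
# The properties `RigN` for vectors of the ambient space

Write the vectors as `emb e x` with `exists_emb` (finite supports by `finite_winS`, `finite_rowS`) and use
`norm_emb`; `e.coord (inl ω) (emb e x) = x ω`.
`l2_W`: write `z i = embH e (y i)`, the `y i` have disjoint supports, so
`l2 (∑ c i • y i) ^ 2 = ∑ c i ^ 2 * l2 (y i) ^ 2`.
-/

namespace Pool.Agent.UBN

open Pool.Agent.UUB Finset

variable {Ω ι : Type} {W : Type} [NormedAddCommGroup W] [NormedSpace ℝ W] [CompleteSpace W]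
  {row : Ω → Row} {nr : (Ω →₀ ℝ) → ℝ} {e : UnconditionalSchauderBasis (Ω ⊕ ℕ) ℝ W}

/-- A vector fixed by the projection onto a finite set of coordinates in `Ω`. -/
theorem wv_emb {A : Set (Ω ⊕ ℕ)} (hf : A.Finite) (hX : A ⊆ XS Ω) {w : W} (hw : S e A w = w) :
    ∃ x : Ω →₀ ℝ, emb e x = w ∧ (∀ ω, e.coord (Sum.inl ω) w = x ω) ∧
      ∀ ω, x ω ≠ 0 → Sum.inl ω ∈ A := by
  obtain ⟨x, hx⟩ := exists_emb (e := e) hf hX hw
  refine ⟨x, hx, fun ω => by rw [← hx, coord_emb_inl], fun ω hω => ?_⟩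
  by_contra hn
  apply hω
  rw [← coord_emb_inl (e := e) x ω, hx]
  exact (S_e_eq_iff A w).1 hw _ hn

theorem wv_embH {A : Set (Ω ⊕ ℕ)} (hf : A.Finite) (hX : A ⊆ HS Ω) {w : W} (hw : S e A w = w) :
    ∃ y : ℕ →₀ ℝ, embH e y = w ∧ ∀ m, y m ≠ 0 → Sum.inr m ∈ A := by
  obtain ⟨x, hx⟩ := exists_embH (e := e) hf hX hw
  refine ⟨x, hx, fun m hm => ?_⟩
  by_contra hn
  apply hm
  rw [← coord_embH_inr (e := e) x m, hx]
  exact (S_e_eq_iff A w).1 hw _ hn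

theorem wv_win (hA : Amb row nr e) (a a' : ℕ) {w : W}
    (hw : S e (winS row a a' ∩ XS Ω) w = w) :
    ∃ x : Ω →₀ ℝ, emb e x = w ∧ (∀ ω, e.coord (Sum.inl ω) w = x ω) ∧ Win row x a a' := by
  obtain ⟨x, h1, h2, h3⟩ := wv_emb (e := e) ((finite_winS hA a a').subset Set.inter_subset_left)
    Set.inter_subset_right hw
  exact ⟨x, h1, h2, fun ω hω => (h3 ω hω).1⟩

theorem wv_row (hA : Amb row nr e) (k : Row) {w : W} (hw : S e (rowS row k) w = w) :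
    ∃ x : Ω →₀ ℝ, emb e x = w ∧ ∀ ω, x ω ≠ 0 → row ω = k := by
  obtain ⟨x, h1, h2, h3⟩ := wv_emb (e := e) (finite_rowS hA k)
    (fun s hs => by
      obtain ⟨ω, h, -⟩ := hs
      exact ⟨ω, h.symm⟩) hw
  refine ⟨x, h1, fun ω hω => ?_⟩
  obtain ⟨ω', h, h'⟩ := h3 ω hω
  rw [Sum.inl.inj h]
  exact h'

theorem wv_sum (hA : Amb row nr e) {κ : Type} (F : Finset κ) (t : κ → ℝ) (x : κ → W)
    (x' : κ → Ω →₀ ℝ) (h : ∀ i ∈ F, emb e (x' i) = x i) :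
    ‖∑ i ∈ F, t i • x i‖ = nr (∑ i ∈ F, t i • x' i) := by
  rw [← norm_emb hA, map_sum]
  congr 1
  refine Finset.sum_congr rfl fun i hi => ?_
  rw [map_smul, h i hi]

theorem wv_sum' (hA : Amb row nr e) {κ : Type} (F : Finset κ) (x : κ → W)
    (x' : κ → Ω →₀ ℝ) (h : ∀ i ∈ F, emb e (x' i) = x i) :
    ‖∑ i ∈ F, x i‖ = nr (∑ i ∈ F, x' i) := by
  rw [← norm_emb hA, map_sum]
  congr 1
  exact Finset.sum_congr rfl fun i hi => (h i hi).symm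

theorem rig_W (hA : Amb row nr e) (a : ℕ → ℕ) (ha : Monotone a) (x y : ℕ → W) (K : ℝ)
    (hx : ∀ l, S e (winS row (a l) (a (l + 1)) ∩ XS Ω) (x l) = x l)
    (hy : ∀ l, S e (winS row (a l) (a (l + 1)) ∩ XS Ω) (y l) = y l)
    (hd : ∀ l ω ω', e.coord (Sum.inl ω) (x l) ≠ 0 → e.coord (Sum.inl ω') (y l) ≠ 0 →
      row ω ≠ row ω') (h0 : ∀ l, x l ≠ 0)
    (hxy : ∀ (A : Finset ℕ) (t : ℕ → ℝ), ‖∑ l ∈ A, t l • x l‖ ≤ K * ‖∑ l ∈ A, t l • y l‖)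
    (hyx : ∀ (A : Finset ℕ) (t : ℕ → ℝ), ‖∑ l ∈ A, t l • y l‖ ≤ K * ‖∑ l ∈ A, t l • x l‖) :
    False := by
  choose x' hx1 hx2 hx3 using fun l => wv_win hA (a l) (a (l + 1)) (hx l)
  choose y' hy1 hy2 hy3 using fun l => wv_win hA (a l) (a (l + 1)) (hy l)
  refine hA.rig.rig a x' y' K ha hx3 hy3 (fun l ω ω' h1 h2 => ?_) (fun l hl => ?_)
    (fun A t => ?_) (fun A t => ?_)
  · exact hd l ω ω' (by rw [hx2]; exact h1) (by rw [hy2]; exact h2)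
  · apply h0 l
    rw [← hx1 l, hl, map_zero]
  · have h := hxy A t
    rw [wv_sum hA A t x x' (fun i _ => hx1 i), wv_sum hA A t y y' (fun i _ => hy1 i)] at h
    exact h
  · have h := hyx A t
    rw [wv_sum hA A t x x' (fun i _ => hx1 i), wv_sum hA A t y y' (fun i _ => hy1 i)] at h
    exact h

theorem noL2_W (hA : Amb row nr e) (C : ℝ) : ∃ d : ℕ, 0 < d ∧ ∀ (a : ℕ → ℕ) (x : ℕ → W),
    Monotone a → (∀ l < d, S e (winS row (a l) (a (l + 1)) ∩ XS Ω) (x l) = x l) →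
    (∀ l < d, 1 ≤ ‖x l‖) → C * Real.sqrt d ≤ ‖∑ l ∈ range d, x l‖ := by
  obtain ⟨d, hd, h⟩ := hA.rig.noL2 C
  refine ⟨d, hd, fun a x ha hx h1 => ?_⟩
  have hex : ∀ l, ∃ x' : Ω →₀ ℝ, l < d → emb e x' = x l ∧ Win row x' (a l) (a (l + 1)) := by
    intro l
    by_cases hl : l < d
    · obtain ⟨x', g1, -, g3⟩ := wv_win hA (a l) (a (l + 1)) (hx l hl)
      exact ⟨x', fun _ => ⟨g1, g3⟩⟩
    · exact ⟨0, fun h => absurd h hl⟩
  choose x' hx' using hex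
  rw [wv_sum' hA (range d) x x' (fun i hi => (hx' i (Finset.mem_range.1 hi)).1)]
  refine h a x' ha (fun i hi => (hx' i hi).2) (fun i hi => ?_)
  rw [← norm_emb hA, (hx' i hi).1]
  exact h1 i hi

theorem wv_rres {F : Finset ι} {k : ι → Row} (hk : ∀ i ∈ F, ∀ j ∈ F, i ≠ j → (k i).1 ≠ (k j).1)
    {y : ι → Ω →₀ ℝ} (hy : ∀ i ∈ F, ∀ ω, y i ω ≠ 0 → row ω = k i) {i : ι} (hi : i ∈ F) :
    rres row {k i} (∑ j ∈ F, y j) = y i := by
  classical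
  ext ω
  rw [rres_apply]
  split_ifs with h
  · rw [Finsupp.finsetSum_apply]
    refine Finset.sum_eq_single_of_mem i hi fun j hj hji => ?_
    by_contra hne
    have h1 := hy j hj ω hne
    rw [Set.mem_singleton_iff] at h
    exact hk i hi j hj (Ne.symm hji) (by rw [← h, h1])
  · by_contra hne
    exact h (hy i hi ω (Ne.symm hne))

theorem rot_W (hA : Amb row nr e) (F : Finset ι) (k : ι → Row)
    (hk : ∀ i ∈ F, ∀ j ∈ F, i ≠ j → (k i).1 ≠ (k j).1) (x y : ι → W)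
    (hx : ∀ i ∈ F, S e (rowS row (k i)) (x i) = x i)
    (hy : ∀ i ∈ F, S e (rowS row (k i)) (y i) = y i) {C : ℝ} (hC : 0 ≤ C)
    (h : ∀ i ∈ F, ‖y i‖ ≤ C * ‖x i‖) : ‖∑ i ∈ F, y i‖ ≤ C * ‖∑ i ∈ F, x i‖ := by
  have hexx : ∀ i, ∃ x' : Ω →₀ ℝ, i ∈ F → emb e x' = x i ∧ ∀ ω, x' ω ≠ 0 → row ω = k i := by
    intro i
    by_cases hi : i ∈ F
    · obtain ⟨x', g⟩ := wv_row hA (k i) (hx i hi)
      exact ⟨x', fun _ => g⟩
    · exact ⟨0, fun h => absurd h hi⟩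
  have hexy : ∀ i, ∃ x' : Ω →₀ ℝ, i ∈ F → emb e x' = y i ∧ ∀ ω, x' ω ≠ 0 → row ω = k i := by
    intro i
    by_cases hi : i ∈ F
    · obtain ⟨x', g⟩ := wv_row hA (k i) (hy i hi)
      exact ⟨x', fun _ => g⟩
    · exact ⟨0, fun h => absurd h hi⟩
  choose x' hx' using hexx
  choose y' hy' using hexy
  rw [wv_sum' hA F x x' (fun i hi => (hx' i hi).1), wv_sum' hA F y y' (fun i hi => (hy' i hi).1)]
  refine hA.rig.rot C {r | ∃ i ∈ F, r = k i} _ _ hC ?_ ?_ ?_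
  · rintro _ ⟨i, hi, rfl⟩ _ ⟨j, hj, rfl⟩ hij
    by_cases h' : i = j
    · rw [h']
    · exact absurd hij (hk i hi j hj h')
  · intro ω hω
    rw [Finsupp.finsetSum_apply] at hω
    obtain ⟨i, hi, hne⟩ := Finset.exists_ne_zero_of_sum_ne_zero hω
    exact ⟨i, hi, (hy' i hi).2 ω hne⟩
  · rintro _ ⟨i, hi, rfl⟩
    rw [wv_rres hk (fun j hj => (hy' j hj).2) hi, wv_rres hk (fun j hj => (hx' j hj).2) hi,
      ← hA.rig.single (k i) (y' i) (hy' i hi).2, ← hA.rig.single (k i) (x' i) (hx' i hi).2,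
      ← norm_emb hA, ← norm_emb hA, (hx' i hi).1, (hy' i hi).1]
    exact h i hi

theorem wv_l2_sq {κ : Type} (x : κ →₀ ℝ) {M : Finset κ} (hM : x.support ⊆ M) :
    l2 x ^ 2 = ∑ m ∈ M, x m ^ 2 := by
  unfold l2
  rw [Real.sq_sqrt (Finset.sum_nonneg fun m _ => sq_nonneg _)]
  refine Finset.sum_subset hM fun m _ hm => ?_
  rw [Finsupp.notMem_support_iff.1 hm]
  norm_num

theorem l2_W (hA : Amb row nr e) (F : Finset ι) (Q : ι → Set (Ω ⊕ ℕ)) (z : ι → W)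
    (hf : ∀ i ∈ F, (Q i).Finite) (hQ : ∀ i ∈ F, ∀ j ∈ F, i ≠ j → Disjoint (Q i) (Q j))
    (hH : ∀ i ∈ F, Q i ⊆ HS Ω) (hz : ∀ i ∈ F, S e (Q i) (z i) = z i) :
    ‖∑ i ∈ F, z i‖ ^ 2 = ∑ i ∈ F, ‖z i‖ ^ 2 := by
  classical
  have hex : ∀ i, ∃ y : ℕ →₀ ℝ, i ∈ F → embH e y = z i ∧ ∀ m, y m ≠ 0 → Sum.inr m ∈ Q i := by
    intro i
    by_cases hi : i ∈ F
    · obtain ⟨y, g⟩ := wv_embH (e := e) (hf i hi) (hH i hi) (hz i hi)
      exact ⟨y, fun _ => g⟩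
    · exact ⟨0, fun h => absurd h hi⟩
  choose y hy using hex
  have h1 : ∑ i ∈ F, z i = embH e (∑ i ∈ F, y i) := by
    rw [map_sum]
    exact Finset.sum_congr rfl fun i hi => (hy i hi).1.symm
  set M : Finset ℕ := F.biUnion fun i => (y i).support with hM
  have hMi : ∀ i ∈ F, (y i).support ⊆ M := fun i hi => Finset.subset_biUnion_of_mem (fun i => (y i).support) hi
  have hMs : (∑ i ∈ F, y i).support ⊆ M := by
    intro m hm
    rw [Finsupp.mem_support_iff, Finsupp.finsetSum_apply] at hm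
    obtain ⟨i, hi, hne⟩ := Finset.exists_ne_zero_of_sum_ne_zero hm
    exact hMi i hi (Finsupp.mem_support_iff.2 hne)
  rw [h1, norm_embH hA, wv_l2_sq _ hMs]
  have h2 : ∀ m ∈ M, (∑ i ∈ F, y i) m ^ 2 = ∑ i ∈ F, y i m ^ 2 := by
    intro m _
    rw [Finsupp.finsetSum_apply]
    by_cases h0 : ∃ i ∈ F, y i m ≠ 0
    · obtain ⟨i, hi, hne⟩ := h0
      have h3 : ∀ j ∈ F, j ≠ i → y j m = 0 := by
        intro j hj hji
        by_contra hne'
        exact Set.disjoint_left.1 (hQ i hi j hj (Ne.symm hji)) ((hy i hi).2 m hne)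
          ((hy j hj).2 m hne')
      rw [Finset.sum_eq_single_of_mem i hi h3,
        Finset.sum_eq_single_of_mem i hi fun j hj hji => by rw [h3 j hj hji]; norm_num]
    · push Not at h0
      rw [Finset.sum_eq_zero h0, Finset.sum_eq_zero fun i hi => by rw [h0 i hi]; norm_num]
      norm_num
  rw [Finset.sum_congr rfl h2, Finset.sum_comm]
  refine Finset.sum_congr rfl fun i hi => ?_
  rw [← wv_l2_sq _ (hMi i hi), ← norm_embH hA, (hy i hi).1]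

end Pool.Agent.UBN
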