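import Pool.Agent.UBN.Dg
import Pool.Agent.UBN.Wv

/-!
# The rest of `b` is equivalent to the unit vector basis of `ℓ_2`

Let `F1` be the finite exceptional set.  For `F ⊆ T` disjoint from `F1` and `i ∈ F`:
`|b_i^*(P_H b_i)| ≥ 1/2`, `P_H = S e (HS Ω)` (`P_X + P_H = 1`).
* Upper estimate: `∑ c i b_i^*(P_H b_i) b_i` is the average over the signs of
  `M_ε P_H (∑ ε i c i b_i)`; `‖M_ε‖ ≤ K`; the mean of `‖∑ ε i c i P_H b_i‖²` is `∑ c i² ‖P_H b_i‖² ≤ ∑ c i²`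
  (Hilbert space: the norm of `ran P_H` satisfies the parallelogram law).
  Divide by `b_i^*(P_H b_i)` (`sum_mul_le`): factor `2 K`.
* Lower estimate: `∑ c i² ‖P_H b_i‖² = mean ‖P_H ∑ ε i c i b_i‖² ≤ (K ‖∑ c i b_i‖)²`, `‖P_H b_i‖ ≥ 1/(2K)`.
* Adding the finite set `F1`: `‖∑_F c b‖ ≤ ‖∑_{F \ F1}‖ + ∑_{F ∩ F1} |c i|`, and
  `|c i| ≤ K ‖∑_F c b‖`, `‖∑_{F \ F1}‖ ≤ K ‖∑_F‖`.
The averages over the signs are organised as inductions on `F` (`rs2_up`, `rs2_low`).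
-/

namespace Pool.Agent.UBN

open Pool.Agent.UUB Finset

section signs

variable {ι V H : Type} [NormedAddCommGroup V] [NormedSpace ℝ V] [AddCommGroup H] [Module ℝ H]

private theorem rs2_sgn {ε : ι → ℝ} (hε : ∀ i, ε i = 1 ∨ ε i = -1) [DecidableEq ι] (a : ι)
    {s : ℝ} (hs : s = 1 ∨ s = -1) : ∀ i, Function.update ε a s i = 1 ∨ Function.update ε a s i = -1 := by
  intro i
  by_cases hi : i = a
  · subst hi
    rw [Function.update_self]
    exact hs
  · rw [Function.update_of_ne hi]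
    exact hε i

private theorem rs2_dbl (v : ι → ι → V) [DecidableEq ι] {F : Finset ι} {a : ι} (ha : a ∉ F)
    (ε : ι → ℝ) {s : ℝ} (hs : s = 1 ∨ s = -1) :
    ∑ i ∈ insert a F, ∑ j ∈ insert a F,
        (Function.update ε a s i * Function.update ε a s j) • v i j
      = v a a + (∑ i ∈ F, ∑ j ∈ F, (ε i * ε j) • v i j) + s • ∑ j ∈ F, ε j • (v a j + v j a) := by
  have hne : ∀ i ∈ F, Function.update ε a s i = ε i := by
    intro i hi
    apply Function.update_of_ne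
    rintro rfl
    exact ha hi
  have hss : s * s = 1 := by rcases hs with rfl | rfl <;> norm_num
  rw [Finset.sum_insert ha, Finset.sum_insert ha, Function.update_self, hss, one_smul]
  have e1 : ∑ x ∈ F, (s * Function.update ε a s x) • v a x = s • ∑ x ∈ F, ε x • v a x := by
    rw [Finset.smul_sum]
    apply Finset.sum_congr rfl
    intro i hi
    rw [hne i hi, smul_smul]
  have e2 : ∑ x ∈ F, ∑ j ∈ insert a F,
      (Function.update ε a s x * Function.update ε a s j) • v x j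
      = s • ∑ x ∈ F, ε x • v x a + ∑ x ∈ F, ∑ j ∈ F, (ε x * ε j) • v x j := by
    rw [Finset.smul_sum, ← Finset.sum_add_distrib]
    apply Finset.sum_congr rfl
    intro i hi
    rw [Finset.sum_insert ha, Function.update_self, hne i hi, smul_smul, mul_comm (ε i) s]
    congr 1
    apply Finset.sum_congr rfl
    intro j hj
    rw [hne j hj]
  rw [e1, e2]
  have e3 : ∑ j ∈ F, ε j • (v a j + v j a) = ∑ x ∈ F, ε x • v a x + ∑ x ∈ F, ε x • v x a := by
    rw [← Finset.sum_add_distrib]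
    apply Finset.sum_congr rfl
    intro j _
    rw [smul_add]
  rw [e3, smul_add]
  abel

private theorem rs2_sng (u : ι → H) [DecidableEq ι] {F : Finset ι} {a : ι} (ha : a ∉ F)
    (ε : ι → ℝ) (s : ℝ) :
    ∑ i ∈ insert a F, Function.update ε a s i • u i = s • u a + ∑ i ∈ F, ε i • u i := by
  rw [Finset.sum_insert ha, Function.update_self]
  congr 1
  apply Finset.sum_congr rfl
  intro i hi
  rw [Function.update_of_ne]
  rintro rfl
  exact ha hi

private theorem rs2_convex (X Y : V) {p q : ℝ} (h1 : ‖X + Y‖ ^ 2 ≤ p) (h2 : ‖X - Y‖ ^ 2 ≤ q) :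
    ‖X‖ ^ 2 ≤ (p + q) / 2 := by
  have h3 : (2 : ℝ) • X = (X + Y) + (X - Y) := by rw [two_smul]; abel
  have h4 : 2 * ‖X‖ ≤ ‖X + Y‖ + ‖X - Y‖ := by
    have h5 : ‖(2 : ℝ) • X‖ = 2 * ‖X‖ := by
      rw [norm_smul, Real.norm_eq_abs, abs_of_pos (by norm_num : (0 : ℝ) < 2)]
    rw [← h5, h3]
    exact norm_add_le _ _
  have h6 : (2 * ‖X‖) ^ 2 ≤ (‖X + Y‖ + ‖X - Y‖) ^ 2 :=
    pow_le_pow_left₀ (by positivity) h4 2
  nlinarith [sq_nonneg (‖X + Y‖ - ‖X - Y‖)]

private theorem rs2_up (n2 : H → ℝ) (par : ∀ w z, n2 (w + z) + n2 (w - z) = 2 * n2 w + 2 * n2 z)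
    (v : ι → ι → V) (u : ι → H) (F : Finset ι) : ∀ (w0 : V) (u0 : H) (q : ℝ),
    (∀ ε : ι → ℝ, (∀ i, ε i = 1 ∨ ε i = -1) →
      ‖w0 + ∑ i ∈ F, ∑ j ∈ F, (ε i * ε j) • v i j‖ ^ 2 ≤ q + n2 (u0 + ∑ i ∈ F, ε i • u i)) →
    ‖w0 + ∑ i ∈ F, v i i‖ ^ 2 ≤ q + n2 u0 + ∑ i ∈ F, n2 (u i) := by
  classical
  induction F using Finset.induction_on with
  | empty =>
    intro w0 u0 q h
    simpa using h (fun _ => 1) (fun _ => Or.inl rfl)
  | insert a F ha ih =>
    intro w0 u0 q h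
    have h1 := ih (w0 + v a a) u0 (q + n2 (u a)) (by
      intro ε hε
      have key : ∀ s : ℝ, (s = 1 ∨ s = -1) →
          ‖(w0 + v a a + ∑ i ∈ F, ∑ j ∈ F, (ε i * ε j) • v i j) +
            s • ∑ j ∈ F, ε j • (v a j + v j a)‖ ^ 2 ≤
          q + n2 ((u0 + ∑ i ∈ F, ε i • u i) + s • u a) := by
        intro s hs
        have h2 := h (Function.update ε a s) (rs2_sgn hε a hs)
        rw [rs2_dbl v ha ε hs, rs2_sng u ha ε s] at h2
        have e1 : w0 + (v a a + (∑ i ∈ F, ∑ j ∈ F, (ε i * ε j) • v i j) +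
            s • ∑ j ∈ F, ε j • (v a j + v j a)) =
            (w0 + v a a + ∑ i ∈ F, ∑ j ∈ F, (ε i * ε j) • v i j) +
            s • ∑ j ∈ F, ε j • (v a j + v j a) := by abel
        have e2 : u0 + (s • u a + ∑ i ∈ F, ε i • u i) = (u0 + ∑ i ∈ F, ε i • u i) + s • u a := by
          abel
        rw [e1, e2] at h2
        exact h2
      have k1 := key 1 (Or.inl rfl)
      have k2 := key (-1) (Or.inr rfl)
      rw [one_smul, one_smul] at k1
      rw [neg_one_smul, neg_one_smul, ← sub_eq_add_neg, ← sub_eq_add_neg] at k2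
      have k3 := rs2_convex _ _ k1 k2
      have k4 := par (u0 + ∑ i ∈ F, ε i • u i) (u a)
      linarith)
    rw [Finset.sum_insert ha, Finset.sum_insert ha, ← add_assoc]
    linarith

private theorem rs2_low (n2 : H → ℝ) (par : ∀ w z, n2 (w + z) + n2 (w - z) = 2 * n2 w + 2 * n2 z)
    (u : ι → H) (F : Finset ι) : ∀ (u0 : H) (C : ℝ),
    (∀ ε : ι → ℝ, (∀ i, ε i = 1 ∨ ε i = -1) → n2 (u0 + ∑ i ∈ F, ε i • u i) ≤ C) →
    n2 u0 + ∑ i ∈ F, n2 (u i) ≤ C := by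
  classical
  induction F using Finset.induction_on with
  | empty =>
    intro u0 C h
    simpa using h (fun _ => 1) (fun _ => Or.inl rfl)
  | insert a F ha ih =>
    intro u0 C h
    have h1 := ih u0 (C - n2 (u a)) (by
      intro ε hε
      have key : ∀ s : ℝ, (s = 1 ∨ s = -1) →
          n2 ((u0 + ∑ i ∈ F, ε i • u i) + s • u a) ≤ C := by
        intro s hs
        have h2 := h (Function.update ε a s) (rs2_sgn hε a hs)
        rw [rs2_sng u ha ε s] at h2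
        have e2 : u0 + (s • u a + ∑ i ∈ F, ε i • u i) = (u0 + ∑ i ∈ F, ε i • u i) + s • u a := by
          abel
        rw [e2] at h2
        exact h2
      have k1 := key 1 (Or.inl rfl)
      have k2 := key (-1) (Or.inr rfl)
      rw [one_smul] at k1
      rw [neg_one_smul, ← sub_eq_add_neg] at k2
      have k4 := par (u0 + ∑ i ∈ F, ε i • u i) (u a)
      linarith)
    rw [Finset.sum_insert ha]
    linarith

end signs

variable {Ω I : Type} {W : Type} [NormedAddCommGroup W] [NormedSpace ℝ W] [CompleteSpace W]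
  {row : Ω → Row} {nr : (Ω →₀ ℝ) → ℝ} {e : UnconditionalSchauderBasis (Ω ⊕ ℕ) ℝ W}
  {b : UnconditionalSchauderBasis I ℝ W} {K : ℝ}

private theorem rs2_par_l2 (x y : ℕ →₀ ℝ) :
    l2 (x + y) ^ 2 + l2 (x - y) ^ 2 = 2 * l2 x ^ 2 + 2 * l2 y ^ 2 := by
  classical
  have h1 : x.support ⊆ x.support ∪ y.support := Finset.subset_union_left
  have h2 : y.support ⊆ x.support ∪ y.support := Finset.subset_union_right
  have h3 : (x + y).support ⊆ x.support ∪ y.support := Finsupp.support_add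
  have h4 : (x - y).support ⊆ x.support ∪ y.support := Finsupp.support_sub
  rw [wv_l2_sq x h1, wv_l2_sq y h2, wv_l2_sq _ h3, wv_l2_sq _ h4, ← Finset.sum_add_distrib,
    Finset.mul_sum, Finset.mul_sum, ← Finset.sum_add_distrib]
  refine Finset.sum_congr rfl fun m _ => ?_
  rw [Finsupp.add_apply, Finsupp.sub_apply]
  ring

private theorem rs2_par_fin (hA : Amb row nr e) (Φ : Finset (Ω ⊕ ℕ)) (w z : W) :
    ‖S e ((Φ : Set (Ω ⊕ ℕ)) ∩ HS Ω) (w + z)‖ ^ 2 + ‖S e ((Φ : Set (Ω ⊕ ℕ)) ∩ HS Ω) (w - z)‖ ^ 2 =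
      2 * ‖S e ((Φ : Set (Ω ⊕ ℕ)) ∩ HS Ω) w‖ ^ 2 + 2 * ‖S e ((Φ : Set (Ω ⊕ ℕ)) ∩ HS Ω) z‖ ^ 2 := by
  have hf : ((Φ : Set (Ω ⊕ ℕ)) ∩ HS Ω).Finite := Φ.finite_toSet.subset Set.inter_subset_left
  have hid : ∀ v, S e ((Φ : Set (Ω ⊕ ℕ)) ∩ HS Ω) (S e ((Φ : Set (Ω ⊕ ℕ)) ∩ HS Ω) v) =
      S e ((Φ : Set (Ω ⊕ ℕ)) ∩ HS Ω) v := by
    intro v
    rw [← mul_apply_eq_comp, S_idem]
  obtain ⟨x, hx⟩ := exists_embH (e := e) hf Set.inter_subset_right (hid w)
  obtain ⟨y, hy⟩ := exists_embH (e := e) hf Set.inter_subset_right (hid z)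
  rw [map_add, map_sub, ← hx, ← hy, ← map_add, ← map_sub, norm_embH hA, norm_embH hA,
    norm_embH hA, norm_embH hA]
  exact rs2_par_l2 x y

private theorem rs2_tendsto (w : W) :
    Filter.Tendsto (fun Φ : Finset (Ω ⊕ ℕ) => S e ((Φ : Set (Ω ⊕ ℕ)) ∩ HS Ω) w) Filter.atTop
      (nhds (S e (HS Ω) w)) := by
  classical
  have h := tendsto_S_compl e (S e (HS Ω) w)
  have h2 := (tendsto_const_nhds (x := S e (HS Ω) w) (f := Filter.atTop (α := Finset (Ω ⊕ ℕ)))).sub h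
  rw [sub_zero] at h2
  refine h2.congr fun Φ => ?_
  rw [S_compl, sub_apply, one_apply_eq_self, sub_sub_cancel, ← mul_apply_eq_comp, S_mul_S]

/-- The parallelogram law in the Hilbert part. -/
theorem par_H (hA : Amb row nr e) (w z : W) :
    ‖S e (HS Ω) (w + z)‖ ^ 2 + ‖S e (HS Ω) (w - z)‖ ^ 2 =
      2 * ‖S e (HS Ω) w‖ ^ 2 + 2 * ‖S e (HS Ω) z‖ ^ 2 := by
  have h1 := (((rs2_tendsto (e := e) (w + z)).norm.pow 2).add
    ((rs2_tendsto (e := e) (w - z)).norm.pow 2))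
  have h2 := ((((rs2_tendsto (e := e) w).norm.pow 2).const_mul 2).add
    (((rs2_tendsto (e := e) z).norm.pow 2).const_mul 2))
  refine tendsto_nhds_unique h1 (h2.congr fun Φ => ?_)
  exact (rs2_par_fin hA Φ w z).symm

private theorem rs2_main (hA : Amb row nr e) (hb : MB b K) (F : Finset I) (c : I → ℝ)
    (hF : ∀ i ∈ F, 1 / 2 ≤ |b.coord i (S e (HS Ω) (b i))|) :
    ‖∑ i ∈ F, c i • b i‖ ≤ 2 * K ^ 2 * Real.sqrt (∑ i ∈ F, c i ^ 2) ∧
      ∑ i ∈ F, c i ^ 2 ≤ (2 * K ^ 2 * ‖∑ i ∈ F, c i • b i‖) ^ 2 := by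
  classical
  have hK : 0 < K := lt_of_lt_of_le one_pos hb.one_le
  have hPle : ∀ v : W, ‖S e (HS Ω) v‖ ≤ ‖v‖ := by
    intro v
    calc ‖S e (HS Ω) v‖ ≤ ‖S e (HS Ω)‖ * ‖v‖ := (S e (HS Ω)).le_opNorm v
      _ ≤ 1 * ‖v‖ := mul_le_mul_of_nonneg_right (norm_S_e hA _) (norm_nonneg _)
      _ = ‖v‖ := one_mul _
  have par : ∀ w z : W, ‖S e (HS Ω) (w + z)‖ ^ 2 + ‖S e (HS Ω) (w - z)‖ ^ 2 =
      2 * ‖S e (HS Ω) w‖ ^ 2 + 2 * ‖S e (HS Ω) z‖ ^ 2 := par_H hA
  constructor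
  · set γ : I → ℝ := fun i => b.coord i (S e (HS Ω) (b i)) with hγ
    have h1 := rs2_up (fun w : W => K ^ 2 * ‖S e (HS Ω) w‖ ^ 2)
      (fun w z => by
        show K ^ 2 * ‖S e (HS Ω) (w + z)‖ ^ 2 + K ^ 2 * ‖S e (HS Ω) (w - z)‖ ^ 2 =
          2 * (K ^ 2 * ‖S e (HS Ω) w‖ ^ 2) + 2 * (K ^ 2 * ‖S e (HS Ω) z‖ ^ 2)
        linear_combination K ^ 2 * par w z)
      (fun i j => (c j * b.coord i (S e (HS Ω) (b j))) • b i) (fun j => c j • b j) F 0 0 0 (by
        intro ε hε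
        rw [zero_add, zero_add, zero_add]
        set y : W := ∑ j ∈ F, ε j • c j • b j with hy
        let θ : I → ℝ := fun i => if i ∈ F then ε i else 0
        have hθ : ∀ i, |θ i| ≤ 1 := by
          intro i
          simp only [θ]
          split_ifs
          · rcases hε i with h | h <;> rw [h] <;> simp
          · simp
        have hbd : Bdd θ := ⟨1, fun i => by rw [Real.norm_eq_abs]; exact hθ i⟩
        have e1 : ∑ i ∈ F, ∑ j ∈ F, (ε i * ε j) • (c j * b.coord i (S e (HS Ω) (b j))) • b i =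
            mulOp b θ (S e (HS Ω) y) := by
          have e2 : ∀ i ∈ F, ∑ j ∈ F, (ε i * ε j) • (c j * b.coord i (S e (HS Ω) (b j))) • b i =
              (ε i * b.coord i (S e (HS Ω) y)) • b i := by
            intro i _
            rw [hy, map_sum, map_sum, Finset.mul_sum, Finset.sum_smul]
            refine Finset.sum_congr rfl fun j _ => ?_
            rw [map_smul, map_smul, map_smul, map_smul, smul_smul, smul_eq_mul, smul_eq_mul]
            congr 1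
            ring
          rw [Finset.sum_congr rfl e2]
          have e3 : θ = fun i => if i ∈ F then ε i else 0 := rfl
          rw [e3, mulOp_finset, _root_.sum_apply]
          refine Finset.sum_congr rfl fun i _ => ?_
          rw [smul_apply, UUB.R_apply, smul_smul]
        rw [e1]
        have e4 : ‖mulOp b θ (S e (HS Ω) y)‖ ≤ K * ‖S e (HS Ω) y‖ :=
          ((mulOp b θ).le_opNorm _).trans (mul_le_mul_of_nonneg_right (hb.bd θ hθ) (norm_nonneg _))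
        calc ‖mulOp b θ (S e (HS Ω) y)‖ ^ 2 ≤ (K * ‖S e (HS Ω) y‖) ^ 2 :=
              pow_le_pow_left₀ (norm_nonneg _) e4 2
          _ = K ^ 2 * ‖S e (HS Ω) y‖ ^ 2 := by ring)
    rw [zero_add, zero_add] at h1
    have e5 : K ^ 2 * ‖S e (HS Ω) (0 : W)‖ ^ 2 = 0 := by
      rw [map_zero, norm_zero]
      ring
    simp only [e5, zero_add] at h1
    have h2 : ∑ i ∈ F, K ^ 2 * ‖S e (HS Ω) (c i • b i)‖ ^ 2 ≤ K ^ 2 * ∑ i ∈ F, c i ^ 2 := by
      rw [Finset.mul_sum]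
      refine Finset.sum_le_sum fun i _ => mul_le_mul_of_nonneg_left ?_ (sq_nonneg K)
      have h3 := hPle (c i • b i)
      rw [norm_smul, hb.nm, mul_one, Real.norm_eq_abs] at h3
      calc ‖S e (HS Ω) (c i • b i)‖ ^ 2 ≤ |c i| ^ 2 := pow_le_pow_left₀ (norm_nonneg _) h3 2
        _ = c i ^ 2 := sq_abs _
    have h3 : ‖∑ i ∈ F, (c i * γ i) • b i‖ ≤ K * Real.sqrt (∑ i ∈ F, c i ^ 2) := by
      have h4 : ‖∑ i ∈ F, (c i * γ i) • b i‖ ^ 2 ≤ K ^ 2 * ∑ i ∈ F, c i ^ 2 := h1.trans h2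
      have h5 : K ^ 2 * ∑ i ∈ F, c i ^ 2 = (K * Real.sqrt (∑ i ∈ F, c i ^ 2)) ^ 2 := by
        rw [mul_pow, Real.sq_sqrt (Finset.sum_nonneg fun _ _ => sq_nonneg _)]
      rw [h5] at h4
      exact (sq_le_sq₀ (norm_nonneg _) (by positivity)).1 h4
    have hγ0 : ∀ i ∈ F, γ i ≠ 0 := by
      intro i hi h0
      have := hF i hi
      rw [show b.coord i (S e (HS Ω) (b i)) = γ i from rfl, h0, abs_zero] at this
      linarith
    have h6 := sum_mul_le hb F (fun i => c i * γ i) (fun i => 1 / γ i) (C := 2) (by norm_num)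
      (fun i hi => by
        rw [abs_div, abs_one, div_le_iff₀ (abs_pos.2 (hγ0 i hi))]
        have := hF i hi
        have h7 : 1 / 2 ≤ |γ i| := this
        linarith)
    have e6 : ∑ i ∈ F, (1 / γ i * (c i * γ i)) • b i = ∑ i ∈ F, c i • b i := by
      refine Finset.sum_congr rfl fun i hi => ?_
      congr 1
      have := hγ0 i hi
      field_simp
    rw [e6] at h6
    calc ‖∑ i ∈ F, c i • b i‖ ≤ K * 2 * ‖∑ i ∈ F, (c i * γ i) • b i‖ := h6
      _ ≤ K * 2 * (K * Real.sqrt (∑ i ∈ F, c i ^ 2)) :=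
          mul_le_mul_of_nonneg_left h3 (by positivity)
      _ = 2 * K ^ 2 * Real.sqrt (∑ i ∈ F, c i ^ 2) := by ring
  · have h1 := rs2_low (fun w : W => ‖S e (HS Ω) w‖ ^ 2) (fun w z => par w z)
      (fun j => c j • b j) F 0 ((K * ‖∑ i ∈ F, c i • b i‖) ^ 2) (by
        intro ε hε
        have h2 := sum_mul_le hb F c ε (C := 1) (by norm_num) (fun i _ => by
          rcases hε i with h | h <;> rw [h] <;> simp)
        rw [mul_one] at h2
        have e1 : ∑ i ∈ F, (ε i * c i) • b i = ∑ i ∈ F, ε i • c i • b i :=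
          Finset.sum_congr rfl fun i _ => by rw [smul_smul]
        rw [e1] at h2
        simp only [zero_add]
        exact pow_le_pow_left₀ (norm_nonneg _) ((hPle _).trans h2) 2)
    have e5 : ‖S e (HS Ω) (0 : W)‖ ^ 2 = 0 := by
      rw [map_zero, norm_zero]
      ring
    simp only [e5, zero_add] at h1
    have h3 : ∑ i ∈ F, c i ^ 2 ≤ 4 * K ^ 2 * ∑ i ∈ F, ‖S e (HS Ω) (c i • b i)‖ ^ 2 := by
      rw [Finset.mul_sum]
      refine Finset.sum_le_sum fun i hi => ?_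
      have h4 := (hF i hi).trans (abs_coord_b hb i (S e (HS Ω) (b i)))
      rw [map_smul, norm_smul, mul_pow, Real.norm_eq_abs, sq_abs]
      have h5 : 1 ≤ (2 * K * ‖S e (HS Ω) (b i)‖) ^ 2 := by
        have h6 : 1 ≤ 2 * K * ‖S e (HS Ω) (b i)‖ := by linarith
        nlinarith
      nlinarith [sq_nonneg (c i)]
    calc ∑ i ∈ F, c i ^ 2 ≤ 4 * K ^ 2 * ∑ i ∈ F, ‖S e (HS Ω) (c i • b i)‖ ^ 2 := h3
      _ ≤ 4 * K ^ 2 * (K * ‖∑ i ∈ F, c i • b i‖) ^ 2 :=
          mul_le_mul_of_nonneg_left h1 (by positivity)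
      _ = (2 * K ^ 2 * ‖∑ i ∈ F, c i • b i‖) ^ 2 := by ring

private theorem rs2_arith {K X N p q u : ℝ} (hK : 0 < K) (hX : 0 ≤ X) (hN : 0 ≤ N)
    (hNN : N ≤ N ^ 2) (hu0 : 0 ≤ u) (h1 : u ≤ K * X) (h2 : q ≤ N * (K * X) ^ 2)
    (h3 : p ≤ (2 * K ^ 2 * u) ^ 2) :
    p + q ≤ ((2 * K ^ 3 + N * K + 2 * K ^ 2 + N) * X) ^ 2 := by
  have h4 : (2 * K ^ 2 * u) ^ 2 ≤ (2 * K ^ 2 * (K * X)) ^ 2 :=
    pow_le_pow_left₀ (by positivity) (mul_le_mul_of_nonneg_left h1 (by positivity)) 2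
  have h5 : N * (K * X) ^ 2 ≤ (N * (K * X)) ^ 2 := by
    rw [mul_pow N]
    exact mul_le_mul_of_nonneg_right hNN (sq_nonneg _)
  have h7 : 0 ≤ 2 * K ^ 2 * (K * X) := by positivity
  have h8 : 0 ≤ N * (K * X) := by positivity
  have h6 : (2 * K ^ 2 * (K * X)) ^ 2 + (N * (K * X)) ^ 2 ≤
      (2 * K ^ 2 * (K * X) + N * (K * X)) ^ 2 := by
    have h9 : 0 ≤ 2 * (2 * K ^ 2 * (K * X)) * (N * (K * X)) := by positivity
    linarith [add_sq (2 * K ^ 2 * (K * X)) (N * (K * X))]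
  have h9 : 2 * K ^ 2 * (K * X) + N * (K * X) ≤
      (2 * K ^ 3 + N * K + 2 * K ^ 2 + N) * X := by
    have h10 : 0 ≤ (2 * K ^ 2 + N) * X := by positivity
    linarith
  have h11 : (2 * K ^ 2 * (K * X) + N * (K * X)) ^ 2 ≤
      ((2 * K ^ 3 + N * K + 2 * K ^ 2 + N) * X) ^ 2 :=
    pow_le_pow_left₀ (by positivity) h9 2
  linarith

private theorem rs2_arith2 {K Z N X : ℝ} (hK : 0 < K) (hZ : 0 ≤ Z) (hN : 0 ≤ N)
    (h : X ≤ 2 * K ^ 2 * Z + N * Z) : X ≤ (2 * K ^ 3 + N * K + 2 * K ^ 2 + N) * Z := by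
  have h4 : 0 ≤ (2 * K ^ 3 + N * K) * Z := by positivity
  linarith

theorem rest_l2 (hA : Amb row nr e) (hb : MB b K) (T : Set I)
    (hT : {i : I | i ∈ T ∧ 1 / 2 ≤ |b.coord i (S e (XS Ω) (b i))|}.Finite) :
    ∃ C : ℝ, 0 < C ∧ ∀ (F : Finset I) (c : I → ℝ), (F : Set I) ⊆ T →
      ‖∑ i ∈ F, c i • b i‖ ≤ C * Real.sqrt (∑ i ∈ F, c i ^ 2) ∧
      Real.sqrt (∑ i ∈ F, c i ^ 2) ≤ C * ‖∑ i ∈ F, c i • b i‖ := by
  classical
  have hK : 0 < K := lt_of_lt_of_le one_pos hb.one_le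
  set E := hT.toFinset with hE
  refine ⟨2 * K ^ 3 + E.card * K + 2 * K ^ 2 + E.card, by positivity, ?_⟩
  intro F c hF
  set N : ℝ := (E.card : ℝ) with hN
  have hN0 : 0 ≤ N := Nat.cast_nonneg _
  have hsplit : ∀ i, b i = S e (XS Ω) (b i) + S e (HS Ω) (b i) := by
    intro i
    refine ext_coord e fun s => ?_
    rw [map_add]
    rcases s with ω | m
    · rw [coord_S_mem e (show Sum.inl ω ∈ XS Ω from ⟨ω, rfl⟩),
        coord_S_notMem e (show Sum.inl ω ∉ HS Ω by rintro ⟨m, h⟩; simp at h), add_zero]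
    · rw [coord_S_notMem e (show Sum.inr m ∉ XS Ω by rintro ⟨ω, h⟩; simp at h),
        coord_S_mem e (show Sum.inr m ∈ HS Ω from ⟨m, rfl⟩), zero_add]
  have hone : ∀ i, b.coord i (b i) = 1 := by
    intro i
    rw [b.ortho]
    simp
  have hFE : ∀ i ∈ F \ E, 1 / 2 ≤ |b.coord i (S e (HS Ω) (b i))| := by
    intro i hi
    rw [Finset.mem_sdiff, hE, Set.Finite.mem_toFinset] at hi
    have h1 : |b.coord i (S e (XS Ω) (b i))| < 1 / 2 := by
      by_contra h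
      exact hi.2 ⟨hF hi.1, not_lt.1 h⟩
    have h2 : (1 : ℝ) = b.coord i (S e (XS Ω) (b i)) + b.coord i (S e (HS Ω) (b i)) := by
      rw [← map_add, ← hsplit, hone]
    have h3 : (1 : ℝ) ≤ |b.coord i (S e (XS Ω) (b i))| + |b.coord i (S e (HS Ω) (b i))| := by
      have h4 : (1 : ℝ) = |b.coord i (S e (XS Ω) (b i)) + b.coord i (S e (HS Ω) (b i))| := by
        rw [← h2, abs_one]
      rw [h4]
      exact abs_add_le _ _
    linarith
  obtain ⟨hup, hlow⟩ := rs2_main hA hb (F \ E) c hFE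
  set X : ℝ := ‖∑ i ∈ F, c i • b i‖ with hX
  have hX0 : 0 ≤ X := norm_nonneg _
  set Z : ℝ := Real.sqrt (∑ i ∈ F, c i ^ 2) with hZ
  have hZ0 : 0 ≤ Z := Real.sqrt_nonneg _
  have hcard : ((F ∩ E).card : ℝ) ≤ N := by
    rw [hN]
    exact_mod_cast Finset.card_le_card Finset.inter_subset_right
  have hsumb : ∑ i ∈ F, c i • b i = ∑ i ∈ F \ E, c i • b i + ∑ i ∈ F ∩ E, c i • b i := by
    rw [← Finset.sum_union (Finset.disjoint_sdiff_inter F E), Finset.sdiff_union_inter]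
  have hsumc : ∑ i ∈ F, c i ^ 2 = ∑ i ∈ F \ E, c i ^ 2 + ∑ i ∈ F ∩ E, c i ^ 2 := by
    rw [← Finset.sum_union (Finset.disjoint_sdiff_inter F E), Finset.sdiff_union_inter]
  have hcZ : ∀ i ∈ F, |c i| ≤ Z := by
    intro i hi
    apply Real.abs_le_sqrt
    exact Finset.single_le_sum (f := fun i => c i ^ 2) (fun _ _ => sq_nonneg _) hi
  have hcX : ∀ i ∈ F, |c i| ≤ K * X := by
    intro i hi
    have h1 := abs_coord_b hb i (∑ i ∈ F, c i • b i)
    have h2 : b.coord i (∑ i ∈ F, c i • b i) = c i := by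
      rw [map_sum, Finset.sum_eq_single i]
      · rw [map_smul, hone, smul_eq_mul, mul_one]
      · intro j _ hj
        rw [map_smul, b.ortho]
        simp [hj.symm]
      · intro h
        exact absurd hi h
    rw [h2] at h1
    exact h1
  constructor
  · have h1 : ‖∑ i ∈ F ∩ E, c i • b i‖ ≤ N * Z := by
      calc ‖∑ i ∈ F ∩ E, c i • b i‖ ≤ ∑ i ∈ F ∩ E, ‖c i • b i‖ := norm_sum_le _ _
        _ ≤ ∑ i ∈ F ∩ E, Z := by
            refine Finset.sum_le_sum fun i hi => ?_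
            rw [norm_smul, hb.nm, mul_one, Real.norm_eq_abs]
            exact hcZ i (Finset.mem_inter.1 hi).1
        _ = (F ∩ E).card * Z := by rw [Finset.sum_const, nsmul_eq_mul]
        _ ≤ N * Z := mul_le_mul_of_nonneg_right hcard hZ0
    have h2 : Real.sqrt (∑ i ∈ F \ E, c i ^ 2) ≤ Z := by
      apply Real.sqrt_le_sqrt
      rw [hsumc]
      have : 0 ≤ ∑ i ∈ F ∩ E, c i ^ 2 := Finset.sum_nonneg fun _ _ => sq_nonneg _
      linarith
    have h3 : X ≤ 2 * K ^ 2 * Z + N * Z := by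
      rw [hX, hsumb]
      refine (norm_add_le _ _).trans (add_le_add ?_ h1)
      exact hup.trans (mul_le_mul_of_nonneg_left h2 (by positivity))
    exact rs2_arith2 hK hZ0 hN0 h3
  · have h1 : ‖∑ i ∈ F \ E, c i • b i‖ ≤ K * X := by
      have h2 := sum_mul_le hb F c (fun i => if i ∈ E then 0 else 1) (C := 1) (by norm_num)
        (fun i _ => by split_ifs <;> simp)
      have e1 : ∑ i ∈ F, ((if i ∈ E then (0 : ℝ) else 1) * c i) • b i =
          ∑ i ∈ F \ E, c i • b i := by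
        rw [← Finset.sum_filter_add_sum_filter_not F (fun i => i ∈ E)]
        have e2 : ∑ i ∈ F with i ∈ E, ((if i ∈ E then (0 : ℝ) else 1) * c i) • b i = 0 := by
          refine Finset.sum_eq_zero fun i hi => ?_
          rw [if_pos (Finset.mem_filter.1 hi).2, zero_mul, zero_smul]
        rw [e2, zero_add, Finset.sdiff_eq_filter]
        refine Finset.sum_congr rfl fun i hi => ?_
        rw [if_neg (Finset.mem_filter.1 hi).2, one_mul]
      rw [e1, mul_one] at h2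
      exact h2
    have h2 : ∑ i ∈ F ∩ E, c i ^ 2 ≤ N * (K * X) ^ 2 := by
      calc ∑ i ∈ F ∩ E, c i ^ 2 ≤ ∑ i ∈ F ∩ E, (K * X) ^ 2 := by
            refine Finset.sum_le_sum fun i hi => ?_
            rw [← sq_abs]
            exact pow_le_pow_left₀ (abs_nonneg _) (hcX i (Finset.mem_inter.1 hi).1) 2
        _ = (F ∩ E).card * (K * X) ^ 2 := by rw [Finset.sum_const, nsmul_eq_mul]
        _ ≤ N * (K * X) ^ 2 := mul_le_mul_of_nonneg_right hcard (sq_nonneg _)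
    have hNN : N ≤ N ^ 2 := by
      rw [hN]
      have : (E.card : ℕ) ≤ E.card ^ 2 := Nat.le_self_pow (by norm_num) _
      exact_mod_cast this
    have hC0 : 0 ≤ (2 * K ^ 3 + N * K + 2 * K ^ 2 + N) * X := by
      refine mul_nonneg ?_ hX0
      have g1 : 0 ≤ 2 * K ^ 3 := by positivity
      have g2 : 0 ≤ N * K := mul_nonneg hN0 hK.le
      have g3 : 0 ≤ 2 * K ^ 2 := by positivity
      linarith
    rw [hZ]
    refine Real.sqrt_le_iff.2 ⟨hC0, ?_⟩
    rw [hsumc]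
    exact rs2_arith hK hX0 hN0 hNN (norm_nonneg _) h1 h2 hlow

end Pool.Agent.UBN
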