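import Pool.Agent.UBN.Gl1
import Pool.Agent.UBN.Dt
import Pool.Agent.UBN.Rs1
import Pool.Agent.UBN.Rs2
import Pool.Agent.UBN.Pe

/-!
# Uniqueness of the unconditional basis from the main part

Existence: `e` itself (`norm_e`, `isUncBasis_of_schauder`).
Uniqueness: for a semi-normalised unconditional basis `x` (as a Schauder basis, `exists_schauder`) let `b` be the
normalised basis `‖x i‖⁻¹ • x i`, `K` from `exists_norm_mulOp_le`; `hmain` gives `ε, n1`; decrease `ε` below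
`1 / (1000 K²)` (use `hmain` in the form stated); `exists_rowData`, `rest_flat`, `rest_l2`, `rest_infinite`,
`equiv_of_main` give `b ~ e ∘ σ`; the multiplier `‖x i‖` is bounded above and below, so `x ~ e ∘ σ`
(`sum_mul_le`).  Two such bases are equivalent to each other: `permEquiv_of_bound`.
-/

namespace Pool.Agent.UBN

open Pool.Agent.UUB Finset

variable {Ω : Type} {W : Type} [NormedAddCommGroup W] [NormedSpace ℝ W] [CompleteSpace W]
  {row : Ω → Row} {nr : (Ω →₀ ℝ) → ℝ} {e : UnconditionalSchauderBasis (Ω ⊕ ℕ) ℝ W}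

omit [CompleteSpace W] in
/-- The normalised basis. -/
private theorem gl2_norm {I : Type} (b0 : UnconditionalSchauderBasis I ℝ W) :
    ∃ b : UnconditionalSchauderBasis I ℝ W, ∀ i, b i = ‖b0 i‖⁻¹ • b0 i := by
  classical
  have hne : ∀ i, ‖b0 i‖ ≠ 0 := by
    intro i h
    rw [norm_eq_zero] at h
    have h1 := b0.ortho i i
    rw [Pi.single_apply, if_pos rfl] at h1
    have h2 : b0.coord i (b0 i) = 1 := h1
    rw [h, map_zero] at h2
    exact zero_ne_one h2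
  refine ⟨{ basis := fun i => ‖b0 i‖⁻¹ • b0 i, coord := fun i => ‖b0 i‖ • b0.coord i,
            ortho := ?_, expansion := ?_ }, fun i => rfl⟩
  · intro i j
    have h1 : b0.coord i (b0 j) = (Pi.single j (1 : ℝ) : I → ℝ) i := b0.ortho i j
    change ‖b0 i‖ • b0.coord i (‖b0 j‖⁻¹ • b0 j) = _
    rw [map_smul, h1, Pi.single_apply]
    by_cases hij : i = j
    · subst hij
      rw [if_pos rfl, smul_eq_mul, smul_eq_mul, mul_one, mul_inv_cancel₀ (hne i)]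
    · rw [if_neg hij, smul_zero, smul_zero]
  · intro v
    have h1 := b0.expansion v
    have h2 : (fun i => (‖b0 i‖ • b0.coord i) v • (‖b0 i‖⁻¹ • b0 i)) =
        fun i => b0.coord i v • b0 i := by
      funext i
      change (‖b0 i‖ • b0.coord i v) • (‖b0 i‖⁻¹ • b0 i) = _
      rw [smul_smul, smul_eq_mul]
      congr 1
      field_simp [hne i]
    change HasSum (fun i => (‖b0 i‖ • b0.coord i) v • (‖b0 i‖⁻¹ • b0 i)) v
    rw [h2]
    exact h1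

private theorem gl2_core [Countable Ω] (hA : Amb row nr e)
    (hmain : ∀ (I : Type) (b : UnconditionalSchauderBasis I ℝ W) (K : ℝ), MB b K →
      ∃ ε0 > 0, ∃ n1 : ℕ, ∀ ε, 0 < ε → ε ≤ ε0 → ∀ n0, n1 ≤ n0 → ∀ J : Row → Finset I,
        RowData row e b K ε n0 J → MainEq row nr b n0 J)
    {I : Type} {x : I → W} (hx : IsUncBasis ℝ x) (hx' : SemiNormalized x) :
    ∃ (σ : I ≃ Ω ⊕ ℕ) (C : ℝ), 0 < C ∧ ∀ (F : Finset I) (c : I → ℝ),
      ‖∑ i ∈ F, c i • x i‖ ≤ C * ‖∑ i ∈ F, c i • e (σ i)‖ ∧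
      ‖∑ i ∈ F, c i • e (σ i)‖ ≤ C * ‖∑ i ∈ F, c i • x i‖ := by
  have := hx.1
  obtain ⟨b0, hb0⟩ := exists_schauder hx
  obtain ⟨b, hb⟩ := gl2_norm b0
  obtain ⟨m, M, hm, hmM⟩ := hx'
  have hxn : ∀ i, ‖x i‖ ≠ 0 := fun i => (lt_of_lt_of_le hm (hmM i).1).ne'
  have hxb : ∀ i, x i = ‖x i‖ • b i := by
    intro i
    rw [hb i, hb0 i, smul_smul, mul_inv_cancel₀ (hxn i), one_smul]
  obtain ⟨K, hK1, hK⟩ := exists_norm_mulOp_le b
  have hMB : MB b K := by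
    refine ⟨hK1, fun θ hθ => ?_, fun i => ?_⟩
    · have h1 := hK θ 1 zero_le_one (fun i => by rw [Real.norm_eq_abs]; exact hθ i)
      rwa [mul_one] at h1
    · rw [hb i, hb0 i, norm_smul, norm_inv, norm_norm, inv_mul_cancel₀ (hxn i)]
  obtain ⟨ε0, hε0, n1, hmain1⟩ := hmain I b K hMB
  have hK0 : 0 < K := lt_of_lt_of_le zero_lt_one hK1
  set ε := min ε0 (min (1 / (1000 * K ^ 2)) (1 / 128)) with hε
  have hεpos : 0 < ε := lt_min hε0 (lt_min (by positivity) (by norm_num))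
  have hε1 : ε ≤ ε0 := min_le_left _ _
  have hε2 : ε ≤ 1 / (1000 * K ^ 2) := (min_le_right _ _).trans (min_le_left _ _)
  have hε3 : ε ≤ 1 / 128 := (min_le_right _ _).trans (min_le_right _ _)
  obtain ⟨n2, J, hJ⟩ := exists_rowData hA hMB hεpos hε2
  have hD := hJ (max n1 n2) (le_max_right _ _)
  have hM := hmain1 ε hεpos hε1 (max n1 n2) (le_max_left _ _) J hD
  have hflat := rest_flat hA hD hε3
  have hl2 := rest_l2 hA hMB {i : I | ∀ k : Row, max n1 n2 ≤ k.1 → i ∉ J k} hflat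
  have hinf := rest_infinite hA hD hM
  obtain ⟨σ, C, hC, hσ⟩ := equiv_of_main hA hD hM hinf hl2
  have hM0 : 0 ≤ |M| := abs_nonneg _
  refine ⟨σ, C * K * |M| + C * K * m⁻¹ + 1, by positivity, fun F c => ?_⟩
  have e1 : ∑ i ∈ F, c i • x i = ∑ i ∈ F, (‖x i‖ * c i) • b i := by
    apply sum_congr rfl
    intro i _
    rw [hxb i, smul_smul, mul_comm, ← hxb i]
  have e2 : ∑ i ∈ F, c i • b i = ∑ i ∈ F, (‖x i‖⁻¹ * (‖x i‖ * c i)) • b i := by
    apply sum_congr rfl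
    intro i _
    congr 1
    field_simp [hxn i]
  have h1 : ‖∑ i ∈ F, c i • x i‖ ≤ K * |M| * ‖∑ i ∈ F, c i • b i‖ := by
    rw [e1]
    apply sum_mul_le hMB F c (fun i => ‖x i‖) hM0
    intro i _
    rw [abs_of_nonneg (norm_nonneg _)]
    exact (hmM i).2.trans (le_abs_self _)
  have h2 : ‖∑ i ∈ F, c i • b i‖ ≤ K * m⁻¹ * ‖∑ i ∈ F, c i • x i‖ := by
    rw [e1, e2]
    apply sum_mul_le hMB F (fun i => ‖x i‖ * c i) (fun i => ‖x i‖⁻¹) (inv_nonneg.2 hm.le)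
    intro i _
    rw [abs_of_nonneg (inv_nonneg.2 (norm_nonneg _))]
    exact inv_anti₀ hm (hmM i).1
  have h3 := hσ F c
  have hn1 : 0 ≤ ‖∑ i ∈ F, c i • e (σ i)‖ := norm_nonneg _
  have hn2 : 0 ≤ ‖∑ i ∈ F, c i • x i‖ := norm_nonneg _
  have hmi : 0 ≤ m⁻¹ := inv_nonneg.2 hm.le
  constructor
  · calc ‖∑ i ∈ F, c i • x i‖ ≤ K * |M| * ‖∑ i ∈ F, c i • b i‖ := h1
      _ ≤ K * |M| * (C * ‖∑ i ∈ F, c i • e (σ i)‖) :=
        mul_le_mul_of_nonneg_left h3.1 (by positivity)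
      _ ≤ (C * K * |M| + C * K * m⁻¹ + 1) * ‖∑ i ∈ F, c i • e (σ i)‖ := by
        have h4 : 0 ≤ C * K * m⁻¹ * ‖∑ i ∈ F, c i • e (σ i)‖ := by positivity
        have h5 : (C * K * |M| + C * K * m⁻¹ + 1) * ‖∑ i ∈ F, c i • e (σ i)‖ =
          K * |M| * (C * ‖∑ i ∈ F, c i • e (σ i)‖) + C * K * m⁻¹ * ‖∑ i ∈ F, c i • e (σ i)‖ +
            ‖∑ i ∈ F, c i • e (σ i)‖ := by ring
        rw [h5]
        linarith
  · calc ‖∑ i ∈ F, c i • e (σ i)‖ ≤ C * ‖∑ i ∈ F, c i • b i‖ := h3.2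
      _ ≤ C * (K * m⁻¹ * ‖∑ i ∈ F, c i • x i‖) := mul_le_mul_of_nonneg_left h2 hC.le
      _ ≤ (C * K * |M| + C * K * m⁻¹ + 1) * ‖∑ i ∈ F, c i • x i‖ := by
        have h4 : 0 ≤ C * K * |M| * ‖∑ i ∈ F, c i • x i‖ := by positivity
        have h5 : (C * K * |M| + C * K * m⁻¹ + 1) * ‖∑ i ∈ F, c i • x i‖ =
          C * (K * m⁻¹ * ‖∑ i ∈ F, c i • x i‖) + C * K * |M| * ‖∑ i ∈ F, c i • x i‖ +
            ‖∑ i ∈ F, c i • x i‖ := by ring
        rw [h5]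
        linarith

theorem hasUUB_of_main [Countable Ω] (hA : Amb row nr e)
    (hmain : ∀ (I : Type) (b : UnconditionalSchauderBasis I ℝ W) (K : ℝ), MB b K →
      ∃ ε0 > 0, ∃ n1 : ℕ, ∀ ε, 0 < ε → ε ≤ ε0 → ∀ n0, n1 ≤ n0 → ∀ J : Row → Finset I,
        RowData row e b K ε n0 J → MainEq row nr b n0 J) :
    HasUUB ℝ W := by
  refine ⟨⟨Ω ⊕ ℕ, fun s => e s, isUncBasis_of_schauder e, 1, 1, one_pos, fun s => ?_⟩, ?_⟩
  · rw [norm_e hA]
    exact ⟨le_rfl, le_rfl⟩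
  · intro J I x y hx hx' hy hy'
    obtain ⟨σ, C, hC, hσ⟩ := gl2_core hA hmain hx hx'
    obtain ⟨ρ, D, hD, hρ⟩ := gl2_core hA hmain hy hy'
    have key : ∀ (A : Finset J) (c : J → ℝ),
        ‖∑ j ∈ A, c j • y ((σ.trans ρ.symm) j)‖ ≤ D * ‖∑ j ∈ A, c j • e (σ j)‖ ∧
        ‖∑ j ∈ A, c j • e (σ j)‖ ≤ D * ‖∑ j ∈ A, c j • y ((σ.trans ρ.symm) j)‖ := by
      intro A c
      have h1 := hρ (A.map (σ.trans ρ.symm).toEmbedding) (fun i => c ((σ.trans ρ.symm).symm i))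
      rw [sum_map, sum_map] at h1
      simp only [Equiv.coe_toEmbedding, Equiv.symm_apply_apply] at h1
      simp only [Equiv.trans_apply, Equiv.apply_symm_apply] at h1
      simp only [Equiv.trans_apply]
      exact h1
    refine permEquiv_of_bound (σ.trans ρ.symm) (C * D) (fun A c => ?_) (fun A c => ?_)
    · calc ‖∑ j ∈ A, c j • x j‖ ≤ C * ‖∑ j ∈ A, c j • e (σ j)‖ := (hσ A c).1
        _ ≤ C * (D * ‖∑ j ∈ A, c j • y ((σ.trans ρ.symm) j)‖) :=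
          mul_le_mul_of_nonneg_left (key A c).2 hC.le
        _ = _ := by ring
    · calc ‖∑ j ∈ A, c j • y ((σ.trans ρ.symm) j)‖ ≤ D * ‖∑ j ∈ A, c j • e (σ j)‖ :=
          (key A c).1
        _ ≤ D * (C * ‖∑ j ∈ A, c j • x j‖) := mul_le_mul_of_nonneg_left (hσ A c).2 hD.le
        _ = _ := by ring

end Pool.Agent.UBN
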