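import Pool.Agent.UBN.BE
import Pool.Agent.UBN.Gl2

/-!
# `E ⊕ ℓ_2` and `G ⊕ ℓ_2` have a unique unconditional basis

`mainEq_E`: `η = 1/(32 K)`, `ε0 = 1/100`, `n1` from `exists_Dn_ge (64 K² + 1)`; `exists_match`,
`mainEq_of_good_bad`, `bad_upper`, `bad_lower`, `bad_e`, `gh_le`.
`mainEq_G`: every row has one coordinate, so no coordinate is bad (`u` in the row with coordinate `0` at `ω` is
`0`); `mainEq_of_good_bad` with `C = 0`.
`hasUUB_E`, `hasUUB_G`: `hasUUB_of_main`.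
-/

namespace Pool.Agent.UBN

open Pool.Agent.UUB Finset

theorem hasUUB_E {W : Type} [NormedAddCommGroup W] [NormedSpace ℝ W] [CompleteSpace W]
    {e : UnconditionalSchauderBasis (EB ⊕ ℕ) ℝ W} (hA : Amb (rowB EB) (nrB EB) e) :
    HasUUB ℝ W := by
  refine hasUUB_of_main hA ?_
  intro I b K hMB
  have hK1 : 1 ≤ K := hMB.one_le
  have hK0 : 0 < K := lt_of_lt_of_le zero_lt_one hK1
  obtain ⟨n1, hn1⟩ := exists_Dn_ge (64 * K ^ 2 + 1)
  refine ⟨1 / 100, by norm_num, n1, ?_⟩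
  intro ε _ hε0 n0 hn0 J hD
  have hη : (0 : ℝ) < 1 / (32 * K) := by positivity
  have hDn : ∀ n, n0 ≤ n → 2 * K / (1 / (32 * K)) < Dn n := by
    intro n hn
    have h1 := hn1 n (hn0.trans hn)
    have h2 : 2 * K / (1 / (32 * K)) = 64 * K ^ 2 := by
      field_simp
      ring
    rw [h2]
    linarith
  obtain ⟨g, hM⟩ := exists_match hA hD hε0 hη.le le_rfl
  obtain ⟨B, hB⟩ : ∃ B : ℝ, B = 1 + 2 * K / (1 / (32 * K)) + 4 * K := ⟨_, rfl⟩
  have hB0 : 0 ≤ B := by
    rw [hB]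
    positivity
  refine mainEq_of_good_bad hA hD hM (C := K * B * (4 * K) + B * (4 * K ^ 3)) ?_
  intro x hx
  have h1 := bad_upper hA hD hη hDn hM x hx
  have h2 := bad_lower hA hD hM x (fun ω hω => (hx ω hω).1)
  have h3 := bad_e hA hD hη hDn hM x hx
  have h4 := gh_le EB x
  rw [← hB] at h1 h3
  have h5 : 0 ≤ ‖x.sum fun ω c => c • b (g ω)‖ := norm_nonneg _
  have h6 : 0 ≤ nrO (gh EB x) := by
    by_cases hz : gh EB x = 0
    · have h7 := rigO.smul 0 0
      rw [zero_smul, abs_zero, zero_mul] at h7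
      rw [hz, h7]
    · exact (rigO.pos _ hz).le
  have h8 : 0 ≤ nrB EB x := h6.trans h4
  constructor
  · calc ‖x.sum fun ω c => c • b (g ω)‖ ≤ K * B * (4 * K) * nrO (gh EB x) := h1
      _ ≤ K * B * (4 * K) * nrB EB x := mul_le_mul_of_nonneg_left h4 (by positivity)
      _ ≤ (K * B * (4 * K) + B * (4 * K ^ 3)) * nrB EB x := by
        have h9 : 0 ≤ B * (4 * K ^ 3) * nrB EB x := by positivity
        rw [add_mul]
        linarith
  · calc nrB EB x ≤ B * nrO (gh EB x) := h3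
      _ ≤ B * (4 * K ^ 3 * ‖x.sum fun ω c => c • b (g ω)‖) := mul_le_mul_of_nonneg_left h2 hB0
      _ ≤ (K * B * (4 * K) + B * (4 * K ^ 3)) * ‖x.sum fun ω c => c • b (g ω)‖ := by
        have h9 : 0 ≤ K * B * (4 * K) * ‖x.sum fun ω c => c • b (g ω)‖ := by positivity
        rw [add_mul]
        linarith

/-- A row of `G` has at most one coordinate. -/
theorem ue_GB_unique {ω ω' : GB} (h : rowB GB ω = rowB GB ω') : ω = ω' := by
  obtain ⟨⟨⟨n, j, θ⟩, hp⟩, hω⟩ := ω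
  obtain ⟨⟨⟨n', j', θ'⟩, hp'⟩, hω'⟩ := ω'
  have h1 : θ = 0 := hω
  have h2 : θ' = 0 := hω'
  have h3 : ((n, j) : Row) = (n', j') := h
  have h4 : n = n' := (Prod.mk.inj h3).1
  have h5 : j = j' := (Prod.mk.inj h3).2
  subst h1 h2 h4 h5
  rfl

theorem hasUUB_G {W : Type} [NormedAddCommGroup W] [NormedSpace ℝ W] [CompleteSpace W]
    {e : UnconditionalSchauderBasis (GB ⊕ ℕ) ℝ W} (hA : Amb (rowB GB) (nrB GB) e) :
    HasUUB ℝ W := by
  refine hasUUB_of_main hA ?_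
  intro I b K hMB
  have hK1 : 1 ≤ K := hMB.one_le
  have hK0 : 0 < K := lt_of_lt_of_le zero_lt_one hK1
  refine ⟨1 / 100, by norm_num, 0, ?_⟩
  intro ε _ hε0 n0 _ J hD
  have hη : (0 : ℝ) < 1 / (32 * K) := by positivity
  obtain ⟨g, hM⟩ := exists_match hA hD hε0 hη.le le_rfl
  refine mainEq_of_good_bad hA hD hM (C := 0) ?_
  intro x hx
  have hbad : ∀ ω, ¬ Bad (rowB GB) e b J (1 / (32 * K)) ω := by
    rintro ω ⟨θ, u, _, _, hu, hu0, _, hu2⟩
    have h0 : u = 0 := by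
      refine ext_coord (b := e) ?_
      intro s
      rw [map_zero]
      by_cases hs : s ∈ rowS (rowB GB) (rowB GB ω)
      · obtain ⟨ω', hω', hr⟩ := hs
        rw [hω', ue_GB_unique hr]
        exact hu0
      · rw [← hu]
        exact coord_S_notMem e hs u
    rw [h0, map_zero, map_zero, abs_zero] at hu2
    linarith
  have hx0 : x = 0 := by
    ext ω
    by_contra hne
    exact hbad ω (hx ω hne).2
  subst hx0
  have h7 := hA.rig.smul 0 0
  rw [zero_smul, abs_zero, zero_mul] at h7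
  rw [Finsupp.sum_zero_index, norm_zero, h7, zero_mul]
  exact ⟨le_rfl, le_rfl⟩

end Pool.Agent.UBN
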