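import Pool.Agent.UBN.Cf
import Pool.Agent.UBN.Bn
import Pool.Agent.UBN.UE

/-!
# The counterexample
-/

namespace Pool.Agent.UBN

open Pool.Agent.UUB

theorem counterexample : ∃ (X Y : Type) (_ : NormedAddCommGroup X) (_ : NormedSpace ℝ X)
    (_ : CompleteSpace X) (_ : NormedAddCommGroup Y) (_ : NormedSpace ℝ Y) (_ : CompleteSpace Y),
    HasUUB ℝ X ∧ HasUUB ℝ Y ∧ ¬ HasUUB ℝ (X × Y) := by
  obtain ⟨X, i1, i2, i3, eX, hX⟩ := exists_ambB EB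
  obtain ⟨Y, j1, j2, j3, eY, hY⟩ := exists_ambB GB
  exact ⟨X, Y, i1, i2, i3, j1, j2, j3, hasUUB_E hX, hasUUB_G hY, not_hasUUB_prod hX hY⟩

end Pool.Agent.UBN
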