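import Pool.Agent.UBN.Cc

/-!
# Operators acting row by row

`T = Finsupp.linearCombination ℝ (fun ω : Om => ∑ θ ∈ range (Rn ω.1.1 + 2), A ω.1.1 θ (fb ω) • ev (rowO ω) θ)`, so
`T x = ∑ ω ∈ x.support, x ω • ∑ θ, A (rowO ω).1 θ (fb ω) • ev (rowO ω) θ`; take `cf · k θ` (`cf_sum`, `cf_smul`, `cf_ev`): only the
`ω` in the row `k` contribute `x ω * A k.1 θ (fb ω)`; then `sum_row` with `g θ' c = A k.1 θ θ' * c`.
-/

namespace Pool.Agent.UBN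

open Finset Pool.Agent.UUB

private theorem cm_inner (A : ℕ → ℕ → ℕ → ℝ) (ω : Om) (k : Row) (θ : ℕ) (hθ : θ < Rn k.1 + 2) :
    cf (∑ θ1 ∈ range (Rn ω.1.1 + 2), A ω.1.1 θ1 (fb ω) • ev (rowO ω) θ1) k θ =
      if rowO ω = k then A k.1 θ (fb ω) else 0 := by
  classical
  rw [cf_sum]
  have h1 : ∀ θ1 ∈ range (Rn ω.1.1 + 2), cf (A ω.1.1 θ1 (fb ω) • ev (rowO ω) θ1) k θ =
      if k = rowO ω ∧ θ = θ1 then A ω.1.1 θ1 (fb ω) else 0 := by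
    intro θ1 hθ1
    have hv : (rowO ω).2 < rowsN (rowO ω).1 ∧ θ1 < Rn (rowO ω).1 + 2 :=
      ⟨ω.2.1, Finset.mem_range.1 hθ1⟩
    rw [cf_smul, cf_ev (rowO ω) θ1 hv k θ]
    split_ifs
    · rw [mul_one]
    · rw [mul_zero]
  rw [Finset.sum_congr rfl h1]
  by_cases hk : rowO ω = k
  · rw [if_pos hk]
    subst hk
    rw [Finset.sum_eq_single θ]
    · rw [if_pos ⟨rfl, rfl⟩]
      rfl
    · intro b _ hb
      rw [if_neg]
      rintro ⟨-, h⟩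
      exact hb h.symm
    · intro h
      exact absurd (Finset.mem_range.2 hθ) h
  · rw [if_neg hk]
    apply Finset.sum_eq_zero
    intro b _
    rw [if_neg]
    rintro ⟨h, -⟩
    exact hk h.symm

theorem exists_rowOp (A : ℕ → ℕ → ℕ → ℝ) : ∃ T : (Om →₀ ℝ) →ₗ[ℝ] (Om →₀ ℝ),
    ∀ (x : Om →₀ ℝ) (k : Row) (θ : ℕ), k.2 < rowsN k.1 → θ < Rn k.1 + 2 →
      cf (T x) k θ = ∑ θ' ∈ range (Rn k.1 + 2), A k.1 θ θ' * cf x k θ' := by
  classical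
  refine ⟨Finsupp.linearCombination ℝ
    (fun ω : Om => ∑ θ ∈ range (Rn ω.1.1 + 2), A ω.1.1 θ (fb ω) • ev (rowO ω) θ), ?_⟩
  intro x k θ hk hθ
  rw [Finsupp.linearCombination_apply, Finsupp.sum, cf_sum]
  rw [← sum_row x k (fun θ' c => A k.1 θ θ' * c) (fun θ' => mul_zero _), Finset.sum_filter]
  apply Finset.sum_congr rfl
  intro ω _
  rw [cf_smul, cm_inner A ω k θ hθ]
  split_ifs
  · rw [mul_comm]
  · rw [mul_zero]

end Pool.Agent.UBN
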