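import Pool.Agent.UBN.Cw1
import Pool.Agent.UBN.Pe

/-!
# The data extracted from an equivalence of the two bases

`bound_of_permEquiv` gives `τ : (ZB ⊕ N2) ≃ (ZB' ⊕ N2)` and `C0 > 0`; `σ ω = τ (inl ω)`, constant `C = C0 * C1 * C2` (`one_le`).
For `A, f, g, t` as in `Sgm.h1`: the norms of `∑ i ∈ A, t i • F (inl (f i))` are `nrO (∑ single (f i).1 (t i))` up to the constant (`Two.up`,
`Two.lo` with `h = 0`).  `h2`: the image vectors are `F2 (inr (m i))`, norm `l2 (∑ single (m i) (t i)) = sqrt (∑ t i ^ 2)` (`Two.up` with `x = 0`).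
-/

namespace Pool.Agent.UBN

open Finset Pool.Agent.UUB

/-- reindexing of a bound -/
theorem cn1_bound {J I : Type} {E F : Type} [NormedAddCommGroup E] [NormedSpace ℝ E]
    [NormedAddCommGroup F] [NormedSpace ℝ F] {x : J → E} {y : J → F} {C : ℝ}
    (h : ∀ (A : Finset J) (c : J → ℝ), ‖∑ j ∈ A, c j • x j‖ ≤ C * ‖∑ j ∈ A, c j • y j‖)
    (A : Finset I) (f : I → J) (t : I → ℝ) :
    ‖∑ i ∈ A, t i • x (f i)‖ ≤ C * ‖∑ i ∈ A, t i • y (f i)‖ := by
  classical
  have key : ∀ {G : Type} [NormedAddCommGroup G] [NormedSpace ℝ G] (z : J → G),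
      ∑ j ∈ A.image f, (∑ i ∈ A, if f i = j then t i else 0) • z j = ∑ i ∈ A, t i • z (f i) := by
    intro G _ _ z
    have h1 : ∀ j ∈ A.image f, (∑ i ∈ A, if f i = j then t i else 0) • z j =
        ∑ i ∈ A, if f i = j then t i • z j else 0 := by
      intro j _
      rw [Finset.sum_smul]
      refine Finset.sum_congr rfl fun i _ => ?_
      split_ifs
      · rfl
      · exact zero_smul _ _
    rw [Finset.sum_congr rfl h1, Finset.sum_comm]
    refine Finset.sum_congr rfl fun i hi => ?_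
    rw [Finset.sum_ite_eq, if_pos (Finset.mem_image_of_mem f hi)]
  have h2 := h (A.image f) (fun j => ∑ i ∈ A, if f i = j then t i else 0)
  rw [key, key] at h2
  exact h2

theorem cn1_nonneg (x : Om →₀ ℝ) : 0 ≤ nrO x := by
  by_cases h : x = 0
  · have h1 := rigO.smul 0 x
    rw [abs_zero, zero_mul, zero_smul] at h1
    rw [h, h1]
  · exact (rigO.pos x h).le

theorem cn1_zero : nrO 0 = 0 := by
  have h1 := rigO.smul 0 0
  rw [abs_zero, zero_mul, zero_smul] at h1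
  exact h1

theorem cn1_l2_zero {κ : Type} : l2 (0 : κ →₀ ℝ) = 0 := by
  unfold l2
  simp

theorem cn1_sum {B κ ι : Type} [NormedAddCommGroup B] [NormedSpace ℝ B] (G : κ → B)
    (A : Finset ι) (f : ι → κ) (t : ι → ℝ) :
    (∑ i ∈ A, Finsupp.single (f i) (t i)).sum (fun ω c => c • G ω) = ∑ i ∈ A, t i • G (f i) := by
  have h : ∀ x : κ →₀ ℝ, x.sum (fun ω c => c • G ω) = Finsupp.linearCombination ℝ G x := fun x =>
    (Finsupp.linearCombination_apply ℝ x).symm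
  rw [h, map_sum]
  exact Finset.sum_congr rfl fun i _ => Finsupp.linearCombination_single ℝ (t i) (f i)

theorem cn1_mem {ι : Type} {Z : Set Om} (A : Finset ι) (f : ι → Z) (t : ι → ℝ) (ω : Om)
    (h : (∑ i ∈ A, Finsupp.single (f i).1 (t i)) ω ≠ 0) : ω ∈ Z := by
  classical
  rw [Finsupp.finsetSum_apply] at h
  obtain ⟨i, _, hi⟩ := Finset.exists_ne_zero_of_sum_ne_zero h
  rw [Finsupp.single_apply] at hi
  by_cases h1 : (f i).1 = ω
  · rw [← h1]; exact (f i).2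
  · rw [if_neg h1] at hi
    exact absurd rfl hi

/-- `Two` for a family in the band -/
theorem cn1_two {B : Type} [NormedAddCommGroup B] [NormedSpace ℝ B] {F : Om ⊕ (ℕ ⊕ ℕ) → B}
    {Z : Set Om} {C : ℝ} (hF : Two F Z C) {ι : Type} (A : Finset ι) (f : ι → Z) (t : ι → ℝ) :
    ‖∑ i ∈ A, t i • fam F Z (Sum.inl (f i))‖ ≤ C * nrO (∑ i ∈ A, Finsupp.single (f i).1 (t i)) ∧
    nrO (∑ i ∈ A, Finsupp.single (f i).1 (t i)) ≤
      C * ‖∑ i ∈ A, t i • fam F Z (Sum.inl (f i))‖ := by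
  have h1 := hF.up (∑ i ∈ A, Finsupp.single (f i).1 (t i)) 0 (cn1_mem A f t)
  have h2 := hF.lo (∑ i ∈ A, Finsupp.single (f i).1 (t i)) 0 (cn1_mem A f t)
  rw [Finsupp.sum_zero_index, add_zero, cn1_l2_zero, max_eq_left (cn1_nonneg _),
    cn1_sum (fun ω => F (Sum.inl ω)) A (fun i => (f i).1) t] at h1 h2
  exact ⟨h1, h2⟩

theorem cn1_l2 {κ ι : Type} (A : Finset ι) (m : ι → κ) (hm : Set.InjOn m A) (t : ι → ℝ) :
    l2 (∑ i ∈ A, Finsupp.single (m i) (t i)) = Real.sqrt (∑ i ∈ A, t i ^ 2) := by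
  classical
  have hv : ∀ i ∈ A, (∑ i ∈ A, Finsupp.single (m i) (t i)) (m i) = t i := by
    intro i hi
    rw [Finsupp.finsetSum_apply, Finset.sum_eq_single_of_mem i hi]
    · rw [Finsupp.single_eq_same]
    · intro j hj hji
      rw [Finsupp.single_apply, if_neg]
      intro h
      exact hji (hm hj hi h)
  have hs : (∑ i ∈ A, Finsupp.single (m i) (t i)).support ⊆ A.image m := by
    intro k hk
    rw [Finsupp.mem_support_iff, Finsupp.finsetSum_apply] at hk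
    obtain ⟨i, hi, hne⟩ := Finset.exists_ne_zero_of_sum_ne_zero hk
    rw [Finsupp.single_apply] at hne
    by_cases h1 : m i = k
    · rw [← h1]; exact Finset.mem_image_of_mem m hi
    · rw [if_neg h1] at hne
      exact absurd rfl hne
  unfold l2
  congr 1
  rw [Finset.sum_subset hs (fun k _ hk => by
    rw [Finsupp.notMem_support_iff.1 hk]; norm_num), Finset.sum_image hm]
  exact Finset.sum_congr rfl fun i hi => by rw [hv i hi]

theorem exists_sgm {B : Type} [NormedAddCommGroup B] [NormedSpace ℝ B] [CompleteSpace B]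
    {F1 F2 : Om ⊕ (ℕ ⊕ ℕ) → B} {C1 C2 : ℝ} (h1 : Two F1 ZB C1) (h2 : Two F2 ZB' C2)
    (h : PermEquiv ℝ (fam F1 ZB) (fam F2 ZB')) : ∃ σ C, Sgm σ C := by
  obtain ⟨τ, C0, hC0, hb1, hb2⟩ := bound_of_permEquiv (fam_basis h1).1 (fam_basis h2).1 h
  have hC1 : 0 < C1 := lt_of_lt_of_le one_pos h1.one_le
  have hC2 : 0 < C2 := lt_of_lt_of_le one_pos h2.one_le
  refine ⟨fun ω => τ (Sum.inl ω), C0 * C1 * C2, ?_, by positivity, ?_, ?_⟩
  · intro ω ω' hω
    exact Sum.inl_injective (τ.injective hω)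
  · intro ι A f g t _ hfg
    obtain ⟨u1, l1⟩ := cn1_two h1 A f t
    obtain ⟨u2, l2'⟩ := cn1_two h2 A g t
    have e1 := cn1_bound (x := fam F1 ZB) (y := fun j => fam F2 ZB' (τ j)) hb1 A
      (fun i => Sum.inl (f i)) t
    have e2 := cn1_bound (x := fun j => fam F2 ZB' (τ j)) (y := fam F1 ZB) hb2 A
      (fun i => Sum.inl (f i)) t
    have e3 : ∑ i ∈ A, t i • fam F2 ZB' (τ (Sum.inl (f i))) =
        ∑ i ∈ A, t i • fam F2 ZB' (Sum.inl (g i)) :=
      Finset.sum_congr rfl fun i hi => by rw [hfg i hi]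
    rw [e3] at e1 e2
    constructor
    · calc nrO (∑ i ∈ A, Finsupp.single (f i).1 (t i))
          ≤ C1 * ‖∑ i ∈ A, t i • fam F1 ZB (Sum.inl (f i))‖ := l1
        _ ≤ C1 * (C0 * ‖∑ i ∈ A, t i • fam F2 ZB' (Sum.inl (g i))‖) :=
            mul_le_mul_of_nonneg_left e1 hC1.le
        _ ≤ C1 * (C0 * (C2 * nrO (∑ i ∈ A, Finsupp.single (g i).1 (t i)))) :=
            mul_le_mul_of_nonneg_left (mul_le_mul_of_nonneg_left u2 hC0.le) hC1.le
        _ = C0 * C1 * C2 * nrO (∑ i ∈ A, Finsupp.single (g i).1 (t i)) := by ring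
    · calc nrO (∑ i ∈ A, Finsupp.single (g i).1 (t i))
          ≤ C2 * ‖∑ i ∈ A, t i • fam F2 ZB' (Sum.inl (g i))‖ := l2'
        _ ≤ C2 * (C0 * ‖∑ i ∈ A, t i • fam F1 ZB (Sum.inl (f i))‖) :=
            mul_le_mul_of_nonneg_left e2 hC2.le
        _ ≤ C2 * (C0 * (C1 * nrO (∑ i ∈ A, Finsupp.single (f i).1 (t i)))) :=
            mul_le_mul_of_nonneg_left (mul_le_mul_of_nonneg_left u1 hC0.le) hC2.le
        _ = C0 * C1 * C2 * nrO (∑ i ∈ A, Finsupp.single (f i).1 (t i)) := by ring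
  · intro ι A f m t hinj hfm
    obtain ⟨u1, l1⟩ := cn1_two h1 A f t
    have e1 := cn1_bound (x := fam F1 ZB) (y := fun j => fam F2 ZB' (τ j)) hb1 A
      (fun i => Sum.inl (f i)) t
    have e3 : ∑ i ∈ A, t i • fam F2 ZB' (τ (Sum.inl (f i))) =
        ∑ i ∈ A, t i • F2 (Sum.inr (m i)) :=
      Finset.sum_congr rfl fun i hi => by rw [hfm i hi]; rfl
    rw [e3] at e1
    have hm : Set.InjOn m A := by
      intro i hi j hj hij
      apply hinj hi hj
      have h3 : τ (Sum.inl (f i)) = τ (Sum.inl (f j)) := by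
        rw [hfm i hi, hfm j hj, hij]
      exact Sum.inl_injective (τ.injective h3)
    have u2 := h2.up 0 (∑ i ∈ A, Finsupp.single (m i) (t i)) (fun ω hω => absurd rfl hω)
    rw [Finsupp.sum_zero_index, zero_add, cn1_sum (fun k => F2 (Sum.inr k)) A m t, cn1_zero,
      cn1_l2 A m hm t, max_eq_right (Real.sqrt_nonneg _)] at u2
    calc nrO (∑ i ∈ A, Finsupp.single (f i).1 (t i))
        ≤ C1 * ‖∑ i ∈ A, t i • fam F1 ZB (Sum.inl (f i))‖ := l1
      _ ≤ C1 * (C0 * ‖∑ i ∈ A, t i • F2 (Sum.inr (m i))‖) :=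
          mul_le_mul_of_nonneg_left e1 hC1.le
      _ ≤ C1 * (C0 * (C2 * Real.sqrt (∑ i ∈ A, t i ^ 2))) :=
          mul_le_mul_of_nonneg_left (mul_le_mul_of_nonneg_left u2 hC0.le) hC1.le
      _ = C0 * C1 * C2 * Real.sqrt (∑ i ∈ A, t i ^ 2) := by ring

end Pool.Agent.UBN
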