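import Pool.Agent.UBN.Exa

/-!
# The special sequence

Recursion on the state (position `l`, history `h`), starting with `(0, [])`: at the state `(l, h)` put
`p = sig q0 h` (even, `≥ 2`), apply `exact_exists` at `l` and pass to
`(l1, (rowsY row y l l1, a l1) :: h)`.  The coefficient functions are glued to one `t`.  By
construction the history before step `i` is `hist c S i` with `c i = a (L i)`,
`S i = rowsY row y (L i) (L (i+1))`.
-/

namespace Pool.Agent.UBN

open Finset

variable {Ω : Type} {row : Ω → Row} {N : ℕ → (Ω →₀ ℝ) → ℝ}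

/-- an exact triple only depends on the coefficients on its interval -/
private theorem Seq_congr {x y : ℕ → Ω →₀ ℝ} {K : ℝ} {p l0 l1 : ℕ} {t t' : ℕ → ℝ}
    {η : (Ω →₀ ℝ) →ₗ[ℝ] ℝ} (h : Exact row N x y K p l0 l1 t η)
    (ht : ∀ l, l0 ≤ l → l < l1 → t' l = t l) : Exact row N x y K p l0 l1 t' η := by
  have hc : ∀ z : ℕ → Ω →₀ ℝ, cmb z t' l0 l1 = cmb z t l0 l1 := by
    intro z
    unfold cmb
    refine Finset.sum_congr rfl fun i hi => ?_
    rw [Finset.mem_Ico] at hi
    rw [ht i hi.1 hi.2]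
  refine ⟨?_, ?_, ?_, h.eW, h.er, ?_⟩
  · rw [hc]; exact h.e1
  · rw [hc]; exact h.e2
  · rw [hc]; exact h.e3
  · rw [hc]; exact h.eY

theorem special_seq (hN : Inner row N) {a : ℕ → ℕ} {x y : ℕ → Ω →₀ ℝ} {K : ℝ}
    (h : Pair row N a x y K) (q0 : ℕ) :
    ∃ (L : ℕ → ℕ) (t : ℕ → ℝ) (η : ℕ → (Ω →₀ ℝ) →ₗ[ℝ] ℝ), StrictMono L ∧
      Spec row N a x y K q0 L t η := by
  have hex : ∀ (l : ℕ) (hh : Hist), ∃ (l1 : ℕ) (t : ℕ → ℝ) (η : (Ω →₀ ℝ) →ₗ[ℝ] ℝ), l < l1 ∧
      Exact row N x y K (sig q0 hh) l l1 t η := fun l hh =>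
    exact_exists hN h (two_le_sig q0 hh) (sig_even q0 hh) l
  choose nl nt nη hlt hE using hex
  -- the states
  let st : ℕ → ℕ × Hist := fun i => Nat.rec (0, [])
    (fun _ s => (nl s.1 s.2, (rowsY row y s.1 (nl s.1 s.2), a (nl s.1 s.2)) :: s.2)) i
  have st0 : st 0 = (0, []) := rfl
  have stS : ∀ i, st (i + 1) = (nl (st i).1 (st i).2,
      (rowsY row y (st i).1 (nl (st i).1 (st i).2), a (nl (st i).1 (st i).2)) :: (st i).2) :=
    fun _ => rfl
  set L : ℕ → ℕ := fun i => (st i).1 with hL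
  have hLS : ∀ i, L (i + 1) = nl (st i).1 (st i).2 := fun i => rfl
  have hLlt : ∀ i, L i < L (i + 1) := fun i => by
    rw [hLS]; exact hlt _ _
  have hmono : StrictMono L := strictMono_nat_of_lt_succ hLlt
  have hhist : ∀ i, (st i).2 =
      hist (fun j => a (L j)) (fun j => rowsY row y (L j) (L (j + 1))) i := by
    intro i
    induction i with
    | zero => rfl
    | succ i ih =>
      rw [stS i]
      simp only [hist]
      rw [← ih, hLS i]
  have hLge : ∀ i, i ≤ L i := hmono.id_le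
  have hL0 : L 0 = 0 := rfl
  -- the glued coefficients
  set idx : ℕ → ℕ := fun l => Nat.findGreatest (fun i => L i ≤ l) l with hidx
  have hidx' : ∀ i l, L i ≤ l → l < L (i + 1) → idx l = i := by
    intro i l h1 h2
    rw [hidx]
    simp only
    rw [Nat.findGreatest_eq_iff]
    refine ⟨(hLge i).trans h1, fun _ => h1, fun n hn _ hnl => ?_⟩
    have h3 : L (i + 1) ≤ L n := hmono.monotone hn
    omega
  refine ⟨L, fun l => nt (st (idx l)).1 (st (idx l)).2 l, fun i => nη (st i).1 (st i).2,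
    hmono, fun i => ?_⟩
  rw [← hhist i]
  have h1 := hE (st i).1 (st i).2
  rw [← hLS i] at h1
  refine Seq_congr h1 fun l hl1 hl2 => ?_
  rw [hidx' i l hl1 hl2]

end Pool.Agent.UBN
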