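import Pool.Agent.UBN.Wb
import Pool.Agent.UBN.Par
import Pool.Agent.UBN.Defs2

/-!
# The `y`-side

The node of index `q0` with children `η i` (`i < nn q0`), cuts `a (L i)`, sets
`rowsY (L i) (L (i+1))` is in `W` (indices `sig q0 (hist ... i)`: exactly the coding rule); its value at
`∑ Y` is `(1/m) ∑ η i (Y i) ≥ n / (2 K m)` (`η i (Y j) = 0` for `i ≠ j`: disjoint windows).
-/

namespace Pool.Agent.UBN

open Finset

variable {Ω : Type} {row : Ω → Row} {N : ℕ → (Ω →₀ ℝ) → ℝ}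

private theorem mem_rowsY {y : ℕ → Ω →₀ ℝ} {l0 l1 : ℕ} {k : Row} :
    k ∈ rowsY row y l0 l1 ↔ ∃ l, (l0 ≤ l ∧ l < l1) ∧ ∃ ω, y l ω ≠ 0 ∧ row ω = k := by
  unfold rowsY
  rw [mem_biUnion]
  constructor
  · rintro ⟨l, hl, hk⟩
    rw [mem_image] at hk
    obtain ⟨ω, hω, rfl⟩ := hk
    exact ⟨l, mem_Ico.1 hl, ω, Finsupp.mem_support_iff.1 hω, rfl⟩
  · rintro ⟨l, hl, ω, hω, rfl⟩
    exact ⟨l, mem_Ico.2 hl, mem_image.2 ⟨ω, Finsupp.mem_support_iff.2 hω, rfl⟩⟩

theorem y_side (hN : Inner row N) {a : ℕ → ℕ} {x y : ℕ → Ω →₀ ℝ} {K : ℝ}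
    (h : Pair row N a x y K) {q0 : ℕ} (h0 : Odd q0) {L : ℕ → ℕ} (hL : StrictMono L) {t : ℕ → ℝ}
    {η : ℕ → (Ω →₀ ℝ) →ₗ[ℝ] ℝ}
    (hE : Spec row N a x y K q0 L t η) :
    nn q0 / (2 * K * mm q0) ≤ nrm row N (∑ l ∈ range (nn q0), cmb y t (L l) (L (l + 1))) := by
  have hwin : ∀ i, ∀ k ∈ rowsY row y (L i) (L (i + 1)),
      a (L i) ≤ k.1 ∧ k.1 < a (L (i + 1)) := by
    intro i k hk
    obtain ⟨l, ⟨hl1, hl2⟩, ω, hω, rfl⟩ := mem_rowsY.1 hk
    obtain ⟨h1, h2⟩ := h.winy l ω hω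
    exact ⟨(h.mono hl1).trans h1, h2.trans_le (h.mono hl2)⟩
  have hnode : W row N q0 ((1 / (mm q0 : ℝ)) • ∑ i ∈ range (nn q0), η i) := by
    refine W.node q0 (nn q0) (fun j => a (L j))
      (fun j => rowsY row y (L j) (L (j + 1))) η
      (fun i => sig q0 (hist (fun j => a (L j)) (fun j => rowsY row y (L j) (L (j + 1))) i))
      h0.pos le_rfl ?_ ?_ ?_ ?_ ?_
    · intro i j hij
      exact h.mono (hL.monotone hij)
    · intro i _ k hk
      exact hwin i k hk
    · intro i _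
      exact (hE i).eW
    · intro i _ z
      exact (hE i).er z
    · intro _ i _
      rfl
  refine le_trans ?_ (le_nrm hN hnode _)
  refine le_trans ?_ (le_abs_self _)
  have hval : ∀ i ∈ range (nn q0),
      1 / (2 * K) ≤ η i (∑ l ∈ range (nn q0), cmb y t (L l) (L (l + 1))) := by
    intro i hi
    rw [map_sum]
    rw [Finset.sum_eq_single_of_mem i hi]
    · exact (hE i).eY
    · intro j _ hji
      rw [(hE i).er]
      have : rres row (rowsY row y (L i) (L (i + 1)) : Set Row) (cmb y t (L j) (L (j + 1))) = 0 := by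
        apply rres_eq_zero
        intro ω hω hmem
        rw [Finset.mem_coe] at hmem
        have hW : Win row (cmb y t (L j) (L (j + 1))) (a (L j)) (a (L (j + 1))) :=
          Win.block h.mono h.winy t (hL.monotone (Nat.le_succ j))
        obtain ⟨h1, h2⟩ := hW ω hω
        obtain ⟨h3, h4⟩ := hwin i _ hmem
        rcases lt_or_gt_of_ne hji with hlt | hlt
        · have := h.mono (hL.monotone (Nat.succ_le_of_lt hlt))
          simp only [Nat.succ_eq_add_one] at this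
          omega
        · have := h.mono (hL.monotone (Nat.succ_le_of_lt hlt))
          simp only [Nat.succ_eq_add_one] at this
          omega
      rw [this, map_zero]
  have hm : (0 : ℝ) < mm q0 := by
    have := two_le_mm q0
    exact_mod_cast (by omega : 0 < mm q0)
  have hK : 0 < K := lt_of_lt_of_le one_pos h.one_le
  have hsum : (nn q0 : ℝ) * (1 / (2 * K)) ≤
      (∑ i ∈ range (nn q0), η i) (∑ l ∈ range (nn q0), cmb y t (L l) (L (l + 1))) := by
    rw [LinearMap.sum_apply]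
    have := Finset.card_nsmul_le_sum (range (nn q0)) _ _ hval
    rwa [card_range, nsmul_eq_mul] at this
  rw [LinearMap.smul_apply, smul_eq_mul]
  calc (nn q0 : ℝ) / (2 * K * mm q0) = (1 / (mm q0 : ℝ)) * ((nn q0 : ℝ) * (1 / (2 * K))) := by
        field_simp
    _ ≤ _ := mul_le_mul_of_nonneg_left hsum (by positivity)

end Pool.Agent.UBN
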