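import Pool.Agent.UBN.XS
import Pool.Agent.UBN.YS
import Pool.Agent.UBN.Seq

/-!
# Rigidity

`rig_pair`: let `q0` be odd with `mm q0 > 200 K²`, `n = nn q0`, `m = mm q0`, `special_seq`, `x_side`, `y_side`.
`∑ Y` and `∑ X` have the same coefficients: `n/(2 K m) ≤ K * 100 n/m²`, so `m ≤ 200 K²`.

`rig_main`: put `x' l = (nrm (x l))⁻¹ • x l`, `y' l = (nrm (x l))⁻¹ • y l`, and `max K 1` for `K`; `disj` for
`l ≠ l'` holds because the windows are disjoint.
-/

namespace Pool.Agent.UBN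

open Finset

variable {Ω : Type} {row : Ω → Row} {N : ℕ → (Ω →₀ ℝ) → ℝ}

private theorem sum_cmb (z : ℕ → Ω →₀ ℝ) (t : ℕ → ℝ) {L : ℕ → ℕ} (hL : Monotone L) (n : ℕ) :
    ∑ l ∈ range n, cmb z t (L l) (L (l + 1)) = ∑ i ∈ Ico (L 0) (L n), t i • z i := by
  induction n with
  | zero => simp
  | succ n ih =>
    rw [sum_range_succ, ih]
    unfold cmb
    exact Finset.sum_Ico_consecutive _ (hL (Nat.zero_le n)) (hL (Nat.le_succ n))

theorem rig_pair (hN : Inner row N) {a : ℕ → ℕ} {x y : ℕ → Ω →₀ ℝ} {K : ℝ}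
    (h : Pair row N a x y K) : False := by
  obtain ⟨r, hr⟩ := pow_unbounded_of_one_lt (200 * K ^ 2) (one_lt_two : (1 : ℝ) < 2)
  have hodd : Odd (2 * r + 1) := ⟨r, rfl⟩
  obtain ⟨L, t, η, hL, hE⟩ := special_seq hN h (2 * r + 1)
  have hx := x_side hN h hodd hL hE
  have hy := y_side hN h hodd hL hE
  have hm1 : (200 * K ^ 2 : ℝ) < mm (2 * r + 1) := by
    refine hr.trans_le ?_
    have h1 : 2 ^ r ≤ 2 ^ (2 * r + 1) := Nat.pow_le_pow_right (by norm_num) (by omega)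
    exact_mod_cast h1.trans (two_pow_le_mm _)
  set n := nn (2 * r + 1) with hn
  set m := mm (2 * r + 1) with hm
  have hn0 : (0 : ℝ) < n := by exact_mod_cast nn_pos (2 * r + 1)
  have hm0 : (0 : ℝ) < m := by
    have := two_le_mm (2 * r + 1)
    exact_mod_cast (by omega : 0 < m)
  have hK : 0 < K := lt_of_lt_of_le one_pos h.one_le
  rw [sum_cmb _ _ hL.monotone] at hx hy
  have hyx := h.yx (Ico (L 0) (L n)) t
  have h1 : (n : ℝ) / (2 * K * m) ≤ K * (100 * n / (m : ℝ) ^ 2) :=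
    hy.trans (hyx.trans (mul_le_mul_of_nonneg_left hx hK.le))
  rw [div_le_iff₀ (by positivity)] at h1
  have h2 : K * (100 * n / (m : ℝ) ^ 2) * (2 * K * m) = n * (200 * K ^ 2) / m := by
    field_simp
    ring
  rw [h2, le_div_iff₀ hm0] at h1
  have h3 := mul_lt_mul_of_pos_left hm1 hn0
  linarith

theorem rig_main (hN : Inner row N) (a : ℕ → ℕ) (x y : ℕ → Ω →₀ ℝ) (K : ℝ) (ha : Monotone a)
    (hx : ∀ l, Win row (x l) (a l) (a (l + 1))) (hy : ∀ l, Win row (y l) (a l) (a (l + 1)))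
    (hd : ∀ l ω ω', x l ω ≠ 0 → y l ω' ≠ 0 → row ω ≠ row ω') (h0 : ∀ l, x l ≠ 0)
    (hxy : ∀ (A : Finset ℕ) (t : ℕ → ℝ),
      nrm row N (∑ l ∈ A, t l • x l) ≤ K * nrm row N (∑ l ∈ A, t l • y l))
    (hyx : ∀ (A : Finset ℕ) (t : ℕ → ℝ),
      nrm row N (∑ l ∈ A, t l • y l) ≤ K * nrm row N (∑ l ∈ A, t l • x l)) : False := by
  set c : ℕ → ℝ := fun l => (nrm row N (x l))⁻¹ with hc
  have hpos : ∀ l, 0 < nrm row N (x l) := fun l => nrm_pos hN (h0 l)
  have hs : ∀ (z : ℕ → Ω →₀ ℝ) (A : Finset ℕ) (t : ℕ → ℝ),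
      ∑ l ∈ A, t l • (c l • z l) = ∑ l ∈ A, (t l * c l) • z l := by
    intro z A t
    exact Finset.sum_congr rfl (fun l _ => by rw [smul_smul])
  refine rig_pair hN (a := a) (x := fun l => c l • x l) (y := fun l => c l • y l)
    (K := max K 1) ⟨ha, fun l => (hx l).smul _, fun l => (hy l).smul _, ?_, ?_, le_max_right _ _,
      ?_, ?_⟩
  · intro l l' ω ω' h1 h2 heq
    have h1' : x l ω ≠ 0 := fun h => h1 (by simp [h])
    have h2' : y l' ω' ≠ 0 := fun h => h2 (by simp [h])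
    by_cases hll : l = l'
    · subst hll
      exact hd l ω ω' h1' h2' heq
    · obtain ⟨h3, h4⟩ := hx l ω h1'
      obtain ⟨h5, h6⟩ := hy l' ω' h2'
      rw [heq] at h3 h4
      rcases lt_or_gt_of_ne hll with hlt | hlt
      · have := ha (Nat.succ_le_of_lt hlt)
        simp only [Nat.succ_eq_add_one] at this
        omega
      · have := ha (Nat.succ_le_of_lt hlt)
        simp only [Nat.succ_eq_add_one] at this
        omega
  · intro l
    rw [nrm_smul hN, hc]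
    simp only
    rw [abs_of_pos (inv_pos.2 (hpos l)), inv_mul_cancel₀ (hpos l).ne']
  · intro A t
    rw [hs, hs]
    exact (hxy A _).trans (mul_le_mul_of_nonneg_right (le_max_left _ _) (nrm_nonneg hN _))
  · intro A t
    rw [hs, hs]
    exact (hyx A _).trans (mul_le_mul_of_nonneg_right (le_max_left _ _) (nrm_nonneg hN _))

end Pool.Agent.UBN
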