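import Pool.Agent.UBN.Low

/-!
# No copies of `ℓ_2`
-/

namespace Pool.Agent.UBN

open Finset

variable {Ω : Type} {row : Ω → Row} {N : ℕ → (Ω →₀ ℝ) → ℝ}

theorem nol_nn_pos (q : ℕ) : 1 ≤ nn q := by
  induction q with
  | zero => exact le_rfl
  | succ q ih =>
    have h1 : 0 < (3 * nn q) ^ (2 ^ (q + 2) + 1) := by positivity
    have h2 : 0 < mm (q + 1) ^ 2 := by unfold mm; positivity
    exact Nat.succ_le_of_lt (by rw [nn]; exact Nat.mul_pos h1 h2)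

theorem nol_nn_ge (q : ℕ) : mm (q + 1) ^ 4 ≤ nn (q + 1) := by
  have hn := nol_nn_pos q
  have h1 : mm (q + 1) ^ 2 ≤ (3 * nn q) ^ (2 ^ (q + 2) + 1) := by
    have e : mm (q + 1) ^ 2 = 2 ^ (2 ^ (q + 2)) := by
      unfold mm
      rw [← pow_mul]
      congr 1
    rw [e]
    calc 2 ^ (2 ^ (q + 2)) ≤ (3 * nn q) ^ (2 ^ (q + 2)) := Nat.pow_le_pow_left (by omega) _
      _ ≤ (3 * nn q) ^ (2 ^ (q + 2) + 1) := Nat.pow_le_pow_right (by omega) (by omega)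
  calc mm (q + 1) ^ 4 = mm (q + 1) ^ 2 * mm (q + 1) ^ 2 := by ring
    _ ≤ (3 * nn q) ^ (2 ^ (q + 2) + 1) * mm (q + 1) ^ 2 := Nat.mul_le_mul_right _ h1
    _ = nn (q + 1) := by rw [nn]

/-- No `ℓ_2` (from `even_low` with `q` even, `mm q ≥ C`, `d = nn q ≥ mm q ^ 4`). -/
theorem no_l2 (hN : Inner row N) (C : ℝ) : ∃ d : ℕ, 0 < d ∧ ∀ (a : ℕ → ℕ) (x : ℕ → Ω →₀ ℝ),
    Monotone a → (∀ i < d, Win row (x i) (a i) (a (i + 1))) → (∀ i < d, 1 ≤ nrm row N (x i)) →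
    C * Real.sqrt d ≤ nrm row N (∑ i ∈ range d, x i) := by
  obtain ⟨k, hk⟩ := exists_nat_ge C
  set q : ℕ := 2 * k + 2 with hqd
  have hq : 0 < q := by omega
  have he : Even q := ⟨k + 1, by omega⟩
  have hkm : (k : ℝ) ≤ (mm q : ℝ) := by
    have h1 : k < 2 ^ k := Nat.lt_two_pow_self
    have h2 : (2 : ℕ) ^ k ≤ 2 ^ (2 ^ q) := by
      apply Nat.pow_le_pow_right (by norm_num)
      have h3 : q < 2 ^ q := Nat.lt_two_pow_self
      omega
    have h4 : k ≤ mm q := by unfold mm; omega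
    exact_mod_cast h4
  have hnq : mm q ^ 4 ≤ nn q := nol_nn_ge (2 * k + 1)
  have hmpos : (0 : ℝ) < (mm q : ℝ) := by
    have : 0 < mm q := by unfold mm; positivity
    exact_mod_cast this
  refine ⟨nn q, by have := nol_nn_pos q; omega, ?_⟩
  intro a x ha hx hx1
  have hlow := even_low hN hq he le_rfl ha hx
  refine le_trans ?_ hlow
  have hsum : (nn q : ℝ) ≤ ∑ i ∈ range (nn q), nrm row N (x i) := by
    calc (nn q : ℝ) = ∑ i ∈ range (nn q), (1 : ℝ) := by simp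
      _ ≤ _ := Finset.sum_le_sum (fun i hi => hx1 i (Finset.mem_range.mp hi))
  have hs : ((mm q : ℝ)) ^ 2 ≤ Real.sqrt (nn q) := by
    apply Real.le_sqrt_of_sq_le
    have : ((mm q : ℝ)) ^ 4 ≤ (nn q : ℝ) := by exact_mod_cast hnq
    calc ((mm q : ℝ) ^ 2) ^ 2 = (mm q : ℝ) ^ 4 := by ring
      _ ≤ _ := this
  have hsq : Real.sqrt (nn q) * Real.sqrt (nn q) = (nn q : ℝ) :=
    Real.mul_self_sqrt (Nat.cast_nonneg _)
  have hs0 : 0 ≤ Real.sqrt (nn q) := Real.sqrt_nonneg _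
  calc C * Real.sqrt (nn q) ≤ (mm q : ℝ) * Real.sqrt (nn q) :=
        mul_le_mul_of_nonneg_right (le_trans hk hkm) hs0
    _ = (1 / (mm q : ℝ)) * ((mm q : ℝ) ^ 2 * Real.sqrt (nn q)) := by field_simp
    _ ≤ (1 / (mm q : ℝ)) * (Real.sqrt (nn q) * Real.sqrt (nn q)) := by
        apply mul_le_mul_of_nonneg_left _ (by positivity)
        exact mul_le_mul_of_nonneg_right hs hs0
    _ = (1 / (mm q : ℝ)) * (nn q : ℝ) := by rw [hsq]
    _ ≤ _ := mul_le_mul_of_nonneg_left hsum (by positivity)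

end Pool.Agent.UBN
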