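import Pool.Agent.UBN.Hb
import Pool.Agent.UBN.NoL
import Pool.Agent.UBN.Fin1

/-!
# Domination window by window; the properties `RigN` of the outer norm

`dom_aux`: induction on `W`.  Leaf `φ` on the window `n`: by `exists_dual` choose `ψ0` with
`|ψ0| ≤ N n` and `ψ0 (rres T x) = N n (rres T x)`; `ψ = ψ0 ∘ₗ rres row T`.
Then `|φ (rres T y)| ≤ N n (rres T y) ≤ C N n (rres T x) = C ψ x`.
Node: apply the induction hypothesis to the child `φ i` and the set `T ∩ S i`;
`φ i (rres T y) = φ i (rres (T ∩ S i) y)`; `ψ i (rres (T ∩ S i) z) = ψ i z` gives both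
`ψ i z = ψ i (rres (S i) z)` and `ψ i z = ψ i (rres T z)`; same `q d c S r`.
(`T` is a set of rows, `S i` a finite set.)

`dom`: `dom_aux` with `T = univ`.
`rot` in `rigN`: for `x' = rres R0 x`: in the window `n` at most one row `k` of `R0` is met, and
`N n (rres T y) = l2 (rres {k} y)` or `0`, by `hs`.
-/

namespace Pool.Agent.UBN

open Finset

variable {Ω : Type} {row : Ω → Row} {N : ℕ → (Ω →₀ ℝ) → ℝ}

theorem dom_aux (hN : Inner row N) {C : ℝ} (hC : 0 ≤ C) {x y : Ω →₀ ℝ}
    (h : ∀ (n : ℕ) (T : Set Row), N n (rres row T y) ≤ C * N n (rres row T x)) {q : ℕ}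
    {φ : (Ω →₀ ℝ) →ₗ[ℝ] ℝ} (hφ : W row N q φ) (T : Set Row) :
    ∃ ψ, W row N q ψ ∧ |φ (rres row T y)| ≤ C * ψ x ∧ ∀ z, ψ z = ψ (rres row T z) := by
  induction hφ generalizing T with
  | leaf n φ hφ =>
    obtain ⟨ψ0, h0, h1⟩ := exists_dual hN n (rres row T x)
    refine ⟨ψ0 ∘ₗ rres row T, W.leaf n _ (fun z => (h0 _).trans (N_rres_le hN n T z)), ?_, ?_⟩
    · rw [LinearMap.comp_apply, h1]
      exact (hφ _).trans (h n T)
    · intro z
      rw [LinearMap.comp_apply, LinearMap.comp_apply, rres_rres, Set.inter_self]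
  | node q d c S φ r hq hd hc hS hW hφ hsp ih =>
    have h1 : ∀ i, ∃ ψ : (Ω →₀ ℝ) →ₗ[ℝ] ℝ, i < d → (W row N (r i) ψ ∧
        |φ i (rres row (T ∩ (S i : Set Row)) y)| ≤ C * ψ x ∧
        ∀ z, ψ z = ψ (rres row (T ∩ (S i : Set Row)) z)) := by
      intro i
      by_cases hi : i < d
      · obtain ⟨ψ, hψ⟩ := ih i hi (T ∩ (S i : Set Row))
        exact ⟨ψ, fun _ => hψ⟩
      · exact ⟨0, fun h => absurd h hi⟩
    choose ψ hψ using h1
    have hm : (0 : ℝ) ≤ 1 / (mm q : ℝ) := by positivity
    refine ⟨(1 / (mm q : ℝ)) • ∑ i ∈ range d, ψ i,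
      W.node q d c S ψ r hq hd hc hS (fun i hi => (hψ i hi).1) ?_ hsp, ?_, ?_⟩
    · intro i hi z
      have h2 := (hψ i hi).2.2
      rw [h2 z, h2 (rres row (S i : Set Row) z), rres_rres, Set.inter_assoc, Set.inter_self]
    · rw [LinearMap.smul_apply, LinearMap.smul_apply, LinearMap.sum_apply, LinearMap.sum_apply,
        smul_eq_mul, smul_eq_mul, abs_mul, abs_of_nonneg hm, mul_left_comm]
      refine mul_le_mul_of_nonneg_left ?_ hm
      refine (abs_sum_le_sum_abs _ _).trans ?_
      rw [mul_sum]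
      refine sum_le_sum (fun i hi => ?_)
      have hi' := mem_range.1 hi
      rw [hφ i hi' (rres row T y), rres_rres, Set.inter_comm]
      exact (hψ i hi').2.1
    · intro z
      rw [LinearMap.smul_apply, LinearMap.smul_apply, LinearMap.sum_apply, LinearMap.sum_apply]
      congr 1
      refine sum_congr rfl (fun i hi => ?_)
      have h2 := (hψ i (mem_range.1 hi)).2.2
      rw [h2 z, h2 (rres row T z), rres_rres, Set.inter_right_comm, Set.inter_self]

theorem dom (hN : Inner row N) {C : ℝ} (hC : 0 ≤ C) {x y : Ω →₀ ℝ}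
    (h : ∀ (n : ℕ) (T : Set Row), N n (rres row T y) ≤ C * N n (rres row T x)) :
    nrm row N y ≤ C * nrm row N x := by
  refine nrm_le hN (fun q φ hφ => ?_)
  obtain ⟨ψ, h1, h2, _⟩ := dom_aux hN hC h hφ Set.univ
  have h3 : rres row Set.univ y = y := rres_eq_self (fun ω _ => Set.mem_univ _)
  rw [h3] at h2
  refine h2.trans (mul_le_mul_of_nonneg_left ((le_abs_self _).trans (le_nrm hN h1 x)) hC)

theorem rigN (hN : Inner row N)
    (hs : ∀ (k : Row) (x : Ω →₀ ℝ), (∀ ω, x ω ≠ 0 → row ω = k) → N k.1 x = l2 x) :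
    RigN row (nrm row N) where
  add_le := nrm_add_le hN
  smul := nrm_smul hN
  pos := fun x hx => nrm_pos hN hx
  mono := fun x y h => nrm_mono hN h
  fin := hN.fin
  single := by
    intro k x hx
    rw [← hs k x hx]
    refine nrm_window hN ?_
    intro ω hω
    rw [hx ω hω]
    exact ⟨le_rfl, Nat.lt_succ_self _⟩
  rot := by
    classical
    intro C R0 x y hC hR hy hl
    refine dom hN hC ?_
    intro n T
    by_cases hk : ∃ k, k ∈ R0 ∧ k ∈ T ∧ k.1 = n
    · obtain ⟨k, hkR, hkT, rfl⟩ := hk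
      have h1 : N k.1 (rres row T y) = N k.1 (rres row {k} y) := by
        refine N_local hN k.1 (fun ω hω => ?_)
        rw [rres_apply, rres_apply]
        by_cases hyω : y ω = 0
        · rw [hyω]
          split_ifs <;> rfl
        · have h2 : row ω = k := hR _ (hy ω hyω) _ hkR hω
          rw [h2, if_pos hkT, if_pos (Set.mem_singleton k)]
      have h3 : ∀ z : Ω →₀ ℝ, N k.1 (rres row {k} z) = l2 (rres row {k} z) := by
        intro z
        refine hs k _ (fun ω hω => ?_)
        rw [rres_apply] at hω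
        by_contra hc
        exact hω (if_neg hc)
      rw [h1, h3]
      refine (hl k hkR).trans (mul_le_mul_of_nonneg_left ?_ hC)
      rw [← h3]
      refine hN.mono _ _ _ (fun ω _ => ?_)
      rw [rres_apply, rres_apply]
      split_ifs with h4 h5 h5
      · exact le_rfl
      · rw [Set.mem_singleton_iff] at h4
        rw [h4] at h5
        exact absurd hkT h5
      · rw [abs_zero]
        exact abs_nonneg _
      · exact le_rfl
    · have h1 : N n (rres row T y) = N n 0 := by
        refine N_local hN n (fun ω hω => ?_)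
        rw [rres_apply, Finsupp.zero_apply]
        split_ifs with h4
        · by_contra hyω
          exact hk ⟨row ω, hy ω hyω, h4, hω⟩
        · rfl
      rw [h1, N_zero hN]
      exact mul_nonneg hC (N_nonneg hN _ _)
  noL2 := no_l2 hN
  rig := rig_main hN

end Pool.Agent.UBN
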