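import Pool.Agent.UBN.Wp
import Pool.Agent.UBN.Dom

/-!
# The norm of a window

* `rn` is a weighted euclidean norm of the coordinates of the row `k`.  It may be useful to write the sum
  over any finite set of coordinates containing the support.
* the set in the definition of `Nw` contains `0` (`F = ∅`) and is bounded by
  `∑ l ≤ Ln n, ∑ k ∈ rowsOf x, rn l x k` (`rn l x k = 0` for the other rows).
* `inner_Nw.pos`: level `0`, `F = {row of ω}`: `rn 0 x k ≥ |x ω|`.  `fin`: `Om` has finitely many elements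
  in a window.
* `Nw_single`: level `0`: `≥ l2 x`; level `l ≥ 1`: `(1/Ml) rn l x k ≤ (Dn/Ml) l2 x ≤ l2 x`.
-/

namespace Pool.Agent.UBN

open Finset

private theorem wn_fin (n : ℕ) : {ω : Om | (rowO ω).1 = n}.Finite := by
  have h1 : ((({n} : Finset ℕ) ×ˢ (range (rowsN n) ×ˢ range (Rn n + 2)) : Finset (ℕ × ℕ × ℕ)) :
    Set (ℕ × ℕ × ℕ)).Finite := Finset.finite_toSet _
  refine (h1.preimage (f := fun ω : Om => ω.1) Subtype.val_injective.injOn).subset ?_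
  intro ω hω
  have h2 : ω.1.1 = n := hω
  have h3 := ω.2.1
  have h4 := ω.2.2
  rw [h2] at h3 h4
  simp only [Set.mem_preimage, Finset.coe_product, Set.mem_prod, Finset.mem_coe,
    Finset.mem_singleton, Finset.mem_range]
  exact ⟨h2, h3, h4⟩

private theorem wn_finrow (k : Row) : {ω : Om | rowO ω = k}.Finite :=
  (wn_fin k.1).subset (fun ω hω => by
    have h : rowO ω = k := hω
    show (rowO ω).1 = k.1
    rw [h])

/-- the coordinates of a row -/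
private noncomputable def wn_row (k : Row) : Finset Om := (wn_finrow k).toFinset

private theorem wn_mem_row {k : Row} {ω : Om} : ω ∈ wn_row k ↔ rowO ω = k := by
  unfold wn_row
  rw [Set.Finite.mem_toFinset]
  rfl

private theorem wn_rn (l : ℕ) (x : Om →₀ ℝ) (k : Row) :
    rn l x k = Real.sqrt (∑ ω ∈ wn_row k, (wt k.1 l (fb ω) * x ω) ^ 2) := by
  unfold rn
  congr 1
  refine Finset.sum_subset ?_ ?_
  · intro ω hω
    exact wn_mem_row.2 (Finset.mem_filter.1 hω).2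
  · intro ω h1 h2
    have h3 : x ω = 0 := by
      by_contra hc
      exact h2 (Finset.mem_filter.2 ⟨Finsupp.mem_support_iff.2 hc, wn_mem_row.1 h1⟩)
    rw [h3, mul_zero]
    norm_num

private theorem wn_l2 {α : Type} (x : α →₀ ℝ) {F : Finset α} (hF : ∀ ω, x ω ≠ 0 → ω ∈ F) :
    l2 x = Real.sqrt (∑ ω ∈ F, x ω ^ 2) := by
  unfold l2
  congr 1
  refine Finset.sum_subset (fun ω hω => hF ω (Finsupp.mem_support_iff.1 hω)) ?_
  intro ω _ h2
  rw [Finsupp.notMem_support_iff.1 h2]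
  norm_num

private theorem wn_l2row (x : Om →₀ ℝ) (k : Row) :
    l2 (rres rowO {k} x) = Real.sqrt (∑ ω ∈ wn_row k, x ω ^ 2) := by
  rw [wn_l2 (F := wn_row k)]
  · congr 1
    refine Finset.sum_congr rfl (fun ω hω => ?_)
    rw [rres_apply, if_pos]
    exact wn_mem_row.1 hω
  · intro ω hω
    rw [rres_apply] at hω
    by_contra hc
    refine hω (if_neg (fun h => hc (wn_mem_row.2 h)))

private theorem wn_mink {α : Type} (F : Finset α) (f g : α → ℝ) :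
    Real.sqrt (∑ i ∈ F, (f i + g i) ^ 2) ≤
      Real.sqrt (∑ i ∈ F, f i ^ 2) + Real.sqrt (∑ i ∈ F, g i ^ 2) := by
  have hf : 0 ≤ ∑ i ∈ F, f i ^ 2 := Finset.sum_nonneg (fun i _ => sq_nonneg _)
  have hg : 0 ≤ ∑ i ∈ F, g i ^ 2 := Finset.sum_nonneg (fun i _ => sq_nonneg _)
  refine Real.sqrt_le_iff.2 ⟨add_nonneg (Real.sqrt_nonneg _) (Real.sqrt_nonneg _), ?_⟩
  have h1 := Real.sum_mul_le_sqrt_mul_sqrt F f g
  have h2 : ∑ i ∈ F, (f i + g i) ^ 2 =
      ∑ i ∈ F, f i ^ 2 + 2 * ∑ i ∈ F, f i * g i + ∑ i ∈ F, g i ^ 2 := by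
    rw [Finset.mul_sum, ← Finset.sum_add_distrib, ← Finset.sum_add_distrib]
    refine Finset.sum_congr rfl (fun i _ => ?_)
    ring
  rw [h2, add_sq, Real.sq_sqrt hf, Real.sq_sqrt hg]
  linarith

theorem rn_nonneg (l : ℕ) (x : Om →₀ ℝ) (k : Row) : 0 ≤ rn l x k := Real.sqrt_nonneg _

theorem rn_add_le (l : ℕ) (x y : Om →₀ ℝ) (k : Row) : rn l (x + y) k ≤ rn l x k + rn l y k := by
  rw [wn_rn, wn_rn, wn_rn]
  refine le_trans (le_of_eq ?_) (wn_mink _ _ _)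
  congr 1
  refine Finset.sum_congr rfl (fun ω _ => ?_)
  rw [Finsupp.add_apply, mul_add]

theorem rn_smul (l : ℕ) (c : ℝ) (x : Om →₀ ℝ) (k : Row) : rn l (c • x) k = |c| * rn l x k := by
  rw [wn_rn, wn_rn]
  have h1 : ∑ ω ∈ wn_row k, (wt k.1 l (fb ω) * (c • x) ω) ^ 2 =
      c ^ 2 * ∑ ω ∈ wn_row k, (wt k.1 l (fb ω) * x ω) ^ 2 := by
    rw [Finset.mul_sum]
    refine Finset.sum_congr rfl (fun ω _ => ?_)
    rw [Finsupp.smul_apply, smul_eq_mul]
    ring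
  rw [h1, Real.sqrt_mul (sq_nonneg c), Real.sqrt_sq_eq_abs]

private theorem wn_wt_nonneg (n l θ : ℕ) : 0 ≤ wt n l θ := zero_le_one.trans (one_le_wt n l θ)

theorem rn_mono (l : ℕ) {x y : Om →₀ ℝ} {k : Row} (h : ∀ ω, rowO ω = k → |x ω| ≤ |y ω|) :
    rn l x k ≤ rn l y k := by
  rw [wn_rn, wn_rn]
  refine Real.sqrt_le_sqrt (Finset.sum_le_sum (fun ω hω => ?_))
  rw [mul_pow, mul_pow]
  exact mul_le_mul_of_nonneg_left (sq_le_sq.2 (h ω (wn_mem_row.1 hω))) (sq_nonneg _)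

theorem rn_rres_mem (l : ℕ) (x : Om →₀ ℝ) {T : Set Row} {k : Row} (h : k ∈ T) :
    rn l (rres rowO T x) k = rn l x k := by
  rw [wn_rn, wn_rn]
  congr 1
  refine Finset.sum_congr rfl (fun ω hω => ?_)
  rw [rres_apply, if_pos]
  rw [wn_mem_row.1 hω]
  exact h

theorem rn_rres_notMem (l : ℕ) (x : Om →₀ ℝ) {T : Set Row} {k : Row} (h : k ∉ T) :
    rn l (rres rowO T x) k = 0 := by
  rw [wn_rn, Finset.sum_eq_zero, Real.sqrt_zero]
  intro ω hω
  rw [rres_apply, if_neg, mul_zero]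
  · norm_num
  · rw [wn_mem_row.1 hω]
    exact h

theorem rn_eq_l2 {l : ℕ} (x : Om →₀ ℝ) (k : Row) (h : ∀ θ, wt k.1 l θ = 1) :
    rn l x k = l2 (rres rowO {k} x) := by
  rw [wn_rn, wn_l2row]
  congr 1
  refine Finset.sum_congr rfl (fun ω _ => ?_)
  rw [h, one_mul]

theorem l2_le_rn (l : ℕ) (x : Om →₀ ℝ) (k : Row) : l2 (rres rowO {k} x) ≤ rn l x k := by
  rw [wn_rn, wn_l2row]
  refine Real.sqrt_le_sqrt (Finset.sum_le_sum (fun ω _ => ?_))
  rw [mul_pow]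
  have h1 : 1 ≤ wt k.1 l (fb ω) ^ 2 := one_le_pow₀ (one_le_wt _ _ _)
  nlinarith [sq_nonneg (x ω)]

private theorem wn_fb_lt (ω : Om) : fb ω < Rn (rowO ω).1 + 2 := ω.2.2

theorem rn_le (l : ℕ) (x : Om →₀ ℝ) (k : Row) :
    rn l x k ≤ (Dn k.1 : ℝ) * l2 (rres rowO {k} x) := by
  rw [wn_rn, wn_l2row]
  have h0 : (0 : ℝ) ≤ (Dn k.1 : ℝ) := Nat.cast_nonneg _
  have h1 : (Dn k.1 : ℝ) * Real.sqrt (∑ ω ∈ wn_row k, x ω ^ 2) =
      Real.sqrt ((Dn k.1 : ℝ) ^ 2 * ∑ ω ∈ wn_row k, x ω ^ 2) := by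
    rw [Real.sqrt_mul (sq_nonneg _), Real.sqrt_sq h0]
  rw [h1, Finset.mul_sum]
  refine Real.sqrt_le_sqrt (Finset.sum_le_sum (fun ω hω => ?_))
  rw [mul_pow]
  refine mul_le_mul_of_nonneg_right ?_ (sq_nonneg _)
  have h2 := wn_fb_lt ω
  rw [wn_mem_row.1 hω] at h2
  exact pow_le_pow_left₀ (wn_wt_nonneg _ _ _) (wt_le _ _ h2) 2

private theorem wn_ext {ω ω' : Om} (h : rowO ω = rowO ω') (h' : fb ω = fb ω') : ω = ω' := by
  apply Subtype.ext
  unfold rowO at h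
  unfold fb at h'
  have h1 := congrArg Prod.fst h
  have h2 := congrArg Prod.snd h
  exact Prod.ext h1 (Prod.ext h2 h')

/-- At the level of the catalyst `s`. -/
theorem rn_cat_le (x : Om →₀ ℝ) (k : Row) {s : ℕ} (h2 : s ≤ Rn k.1) {c : ℝ}
    (hc : ∀ ω, rowO ω = k → fb ω = s → |x ω| ≤ c) (h0 : 0 ≤ c) :
    rn (2 * s) x k ≤ l2 (rres rowO {k} x) + (Dn k.1 : ℝ) * c := by
  have hD : (0 : ℝ) ≤ (Dn k.1 : ℝ) := Nat.cast_nonneg _
  rw [wn_rn, wn_l2row]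
  have h1 : ∑ ω ∈ wn_row k, (wt k.1 (2 * s) (fb ω) * x ω) ^ 2 =
      ∑ ω ∈ wn_row k, ((if fb ω = s then 0 else x ω) +
        (if fb ω = s then wt k.1 (2 * s) s * x ω else 0)) ^ 2 := by
    refine Finset.sum_congr rfl (fun ω _ => ?_)
    by_cases h : fb ω = s
    · rw [if_pos h, if_pos h, zero_add, h]
    · rw [if_neg h, if_neg h, add_zero, wt_cat_ne _ h2 h, one_mul]
  rw [h1]
  refine (wn_mink _ _ _).trans (add_le_add ?_ ?_)
  · refine Real.sqrt_le_sqrt (Finset.sum_le_sum (fun ω _ => ?_))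
    split_ifs
    · rw [zero_pow (by norm_num)]
      exact sq_nonneg _
    · exact le_rfl
  · refine Real.sqrt_le_iff.2 ⟨mul_nonneg hD h0, ?_⟩
    by_cases hex : ∃ ω0, rowO ω0 = k ∧ fb ω0 = s
    · obtain ⟨ω0, hr, hf⟩ := hex
      rw [Finset.sum_eq_single_of_mem ω0 (wn_mem_row.2 hr)]
      · rw [if_pos hf, ← sq_abs, abs_mul, abs_of_nonneg (wn_wt_nonneg _ _ _)]
        refine pow_le_pow_left₀ (mul_nonneg (wn_wt_nonneg _ _ _) (abs_nonneg _)) ?_ 2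
        refine mul_le_mul (wt_le _ _ (by omega)) (hc ω0 hr hf) (abs_nonneg _) hD
      · intro ω hω hne
        rw [if_neg, zero_pow (by norm_num)]
        intro h
        exact hne (wn_ext ((wn_mem_row.1 hω).trans hr.symm) (h.trans hf.symm))
    · rw [Finset.sum_eq_zero]
      · exact sq_nonneg _
      · intro ω hω
        rw [if_neg, zero_pow (by norm_num)]
        intro h
        exact hex ⟨ω, wn_mem_row.1 hω, h⟩

theorem rn_single (l : ℕ) {k : Row} {θ : ℕ} (hk : k.2 < rowsN k.1) (hθ : θ < Rn k.1 + 2) :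
    rn l (ev k θ) k = wt k.1 l θ := by
  obtain ⟨ω0, h0, hr, hf⟩ : ∃ ω0 : Om, ev k θ = Finsupp.single ω0 1 ∧ rowO ω0 = k ∧ fb ω0 = θ :=
    ⟨⟨(k.1, k.2, θ), hk, hθ⟩, dif_pos ⟨hk, hθ⟩, rfl, rfl⟩
  rw [wn_rn, h0, Finset.sum_eq_single_of_mem ω0 (wn_mem_row.2 hr)]
  · rw [Finsupp.single_eq_same, mul_one, hf]
    exact Real.sqrt_sq (wn_wt_nonneg _ _ _)
  · intro ω _ hne
    rw [Finsupp.single_eq_of_ne hne, mul_zero, zero_pow (by norm_num)]

private theorem wn_rn_zero (l : ℕ) {x : Om →₀ ℝ} {k : Row} (h : ¬ ∃ ω, rowO ω = k ∧ x ω ≠ 0) :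
    rn l x k = 0 := by
  rw [wn_rn, Finset.sum_eq_zero, Real.sqrt_zero]
  intro ω hω
  have h1 : x ω = 0 := by
    by_contra hc
    exact h ⟨ω, wn_mem_row.1 hω, hc⟩
  rw [h1, mul_zero, zero_pow (by norm_num)]

private theorem wn_Ml (n l : ℕ) : (1 : ℝ) ≤ (Ml n l : ℝ) := by
  exact_mod_cast Ml_pos n l

private theorem wn_inv_le (n l : ℕ) : 1 / (Ml n l : ℝ) ≤ 1 := by
  rw [div_le_one (zero_lt_one.trans_le (wn_Ml n l))]
  exact wn_Ml n l

private theorem wn_inv_nonneg (n l : ℕ) : 0 ≤ 1 / (Ml n l : ℝ) :=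
  div_nonneg zero_le_one (zero_le_one.trans (wn_Ml n l))

private theorem wn_sum_le (l : ℕ) (x : Om →₀ ℝ) (F : Finset Row) :
    ∑ k ∈ F, rn l x k ≤ ∑ k ∈ rowsOf rowO x, rn l x k := by
  classical
  have h1 : ∑ k ∈ F, rn l x k = ∑ k ∈ F.filter (fun k => k ∈ rowsOf rowO x), rn l x k := by
    rw [Finset.sum_filter]
    refine Finset.sum_congr rfl (fun k _ => ?_)
    split_ifs with h
    · rfl
    · apply wn_rn_zero
      rintro ⟨ω, h2, h3⟩
      exact h (mem_rowsOf.2 ⟨ω, h3, h2⟩)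
  rw [h1]
  refine Finset.sum_le_sum_of_subset_of_nonneg ?_ (fun k _ _ => rn_nonneg l x k)
  intro k hk
  exact (Finset.mem_filter.1 hk).2

private theorem wn_bdd (n : ℕ) (x : Om →₀ ℝ) :
    BddAbove {v : ℝ | ∃ l ≤ Ln n, ∃ F : Finset Row, (∀ k ∈ F, k.1 = n) ∧ F.card ≤ Nl n l ∧
      v = (1 / (Ml n l : ℝ)) * ∑ k ∈ F, rn l x k} := by
  refine ⟨∑ l ∈ range (Ln n + 1), ∑ k ∈ rowsOf rowO x, rn l x k, ?_⟩
  rintro v ⟨l, hl, F, _, _, rfl⟩
  have h1 : 0 ≤ ∑ k ∈ F, rn l x k := Finset.sum_nonneg (fun k _ => rn_nonneg l x k)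
  calc (1 / (Ml n l : ℝ)) * ∑ k ∈ F, rn l x k ≤ 1 * ∑ k ∈ F, rn l x k :=
        mul_le_mul_of_nonneg_right (wn_inv_le n l) h1
    _ = ∑ k ∈ F, rn l x k := one_mul _
    _ ≤ ∑ k ∈ rowsOf rowO x, rn l x k := wn_sum_le l x F
    _ ≤ ∑ l ∈ range (Ln n + 1), ∑ k ∈ rowsOf rowO x, rn l x k :=
        Finset.single_le_sum (f := fun l => ∑ k ∈ rowsOf rowO x, rn l x k)
          (fun l _ => Finset.sum_nonneg (fun k _ => rn_nonneg l x k))
          (Finset.mem_range.2 (Nat.lt_succ_of_le hl))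

theorem le_Nw {n l : ℕ} (hl : l ≤ Ln n) {F : Finset Row} (hF : ∀ k ∈ F, k.1 = n)
    (hc : F.card ≤ Nl n l) (x : Om →₀ ℝ) : (1 / (Ml n l : ℝ)) * ∑ k ∈ F, rn l x k ≤ Nw n x :=
  le_csSup (wn_bdd n x) ⟨l, hl, F, hF, hc, rfl⟩

theorem Nw_le {n : ℕ} {x : Om →₀ ℝ} {C : ℝ}
    (h : ∀ l ≤ Ln n, ∀ F : Finset Row, (∀ k ∈ F, k.1 = n ∧ ∃ ω, rowO ω = k ∧ x ω ≠ 0) →
      F.card ≤ Nl n l → (1 / (Ml n l : ℝ)) * ∑ k ∈ F, rn l x k ≤ C) : Nw n x ≤ C := by
  classical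
  unfold Nw
  refine csSup_le ⟨_, 0, Nat.zero_le _, ∅, by simp, by simp, rfl⟩ ?_
  rintro v ⟨l, hl, F, hF, hc, rfl⟩
  have h1 : ∑ k ∈ F, rn l x k = ∑ k ∈ F.filter (fun k => ∃ ω, rowO ω = k ∧ x ω ≠ 0), rn l x k := by
    rw [Finset.sum_filter]
    refine Finset.sum_congr rfl (fun k _ => ?_)
    split_ifs with h
    · rfl
    · exact wn_rn_zero l h
  rw [h1]
  refine h l hl _ ?_ ((Finset.card_filter_le _ _).trans hc)
  intro k hk
  rw [Finset.mem_filter] at hk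
  exact ⟨hF k hk.1, hk.2⟩

theorem Nw_le' {n : ℕ} {x : Om →₀ ℝ} {C : ℝ}
    (h : ∀ l ≤ Ln n, ∀ F : Finset Row, (∀ k ∈ F, k.1 = n) →
      F.card ≤ Nl n l → (1 / (Ml n l : ℝ)) * ∑ k ∈ F, rn l x k ≤ C) : Nw n x ≤ C :=
  Nw_le (fun l hl F hF hc => h l hl F (fun k hk => (hF k hk).1) hc)

theorem Nw_nonneg (n : ℕ) (x : Om →₀ ℝ) : 0 ≤ Nw n x := by
  have h := le_Nw (n := n) (l := 0) (Nat.zero_le _) (F := ∅) (by simp) (by simp) x
  rw [Finset.sum_empty, mul_zero] at h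
  exact h

private theorem wn_smul_le (n : ℕ) (c : ℝ) (x : Om →₀ ℝ) : Nw n (c • x) ≤ |c| * Nw n x := by
  refine Nw_le' (fun l hl F hF hc => ?_)
  have h1 : ∑ k ∈ F, rn l (c • x) k = |c| * ∑ k ∈ F, rn l x k := by
    rw [Finset.mul_sum]
    exact Finset.sum_congr rfl (fun k _ => rn_smul l c x k)
  rw [h1, mul_left_comm]
  exact mul_le_mul_of_nonneg_left (le_Nw hl hF hc x) (abs_nonneg c)

private theorem wn_l2_row_eq {k : Row} {x : Om →₀ ℝ} (h : ∀ ω, x ω ≠ 0 → rowO ω = k) :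
    rres rowO {k} x = x := rres_eq_self (fun ω hω => h ω hω)

private theorem wn_Nl0 (n : ℕ) (k : Row) : ({k} : Finset Row).card ≤ Nl n 0 := by
  rw [Finset.card_singleton, Nl_zero]

theorem inner_Nw : Inner rowO Nw where
  add_le := by
    intro n x y
    refine Nw_le' (fun l hl F hF hc => ?_)
    refine le_trans ?_ (add_le_add (le_Nw hl hF hc x) (le_Nw hl hF hc y))
    rw [← mul_add, ← Finset.sum_add_distrib]
    exact mul_le_mul_of_nonneg_left (Finset.sum_le_sum (fun k _ => rn_add_le l x y k))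
      (wn_inv_nonneg n l)
  smul := by
    intro n c x
    refine le_antisymm (wn_smul_le n c x) ?_
    by_cases hc : c = 0
    · rw [hc, abs_zero, zero_mul]
      exact Nw_nonneg _ _
    · have h1 := wn_smul_le n c⁻¹ (c • x)
      rw [smul_smul, inv_mul_cancel₀ hc, one_smul] at h1
      have h2 : 0 < |c| := abs_pos.2 hc
      rw [abs_inv] at h1
      calc |c| * Nw n x ≤ |c| * (|c|⁻¹ * Nw n (c • x)) := mul_le_mul_of_nonneg_left h1 h2.le
        _ = Nw n (c • x) := by rw [← mul_assoc, mul_inv_cancel₀ h2.ne', one_mul]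
  mono := by
    intro n x y h
    refine Nw_le' (fun l hl F hF hc => ?_)
    refine le_trans ?_ (le_Nw hl hF hc y)
    refine mul_le_mul_of_nonneg_left (Finset.sum_le_sum (fun k hk => ?_)) (wn_inv_nonneg n l)
    refine rn_mono l (fun ω hω => h ω ?_)
    rw [hω]
    exact hF k hk
  pos := by
    intro n x ω hω hx
    have h1 := le_Nw (n := n) (l := 0) (Nat.zero_le _) (F := {rowO ω})
      (fun k hk => by rw [Finset.mem_singleton.1 hk]; exact hω) (wn_Nl0 n _) x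
    rw [Finset.sum_singleton, Ml_zero, Nat.cast_one, div_one, one_mul] at h1
    refine lt_of_lt_of_le ?_ h1
    rw [wn_rn]
    refine Real.sqrt_pos.2 ?_
    refine lt_of_lt_of_le ?_ (Finset.single_le_sum
      (f := fun ω' => (wt (rowO ω).1 0 (fb ω') * x ω') ^ 2) (fun i _ => sq_nonneg _)
      (wn_mem_row.2 (rfl : rowO ω = rowO ω)))
    have h2 : wt (rowO ω).1 0 (fb ω) * x ω ≠ 0 :=
      mul_ne_zero (zero_lt_one.trans_le (one_le_wt _ _ _)).ne' hx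
    positivity
  fin := wn_fin

theorem Nw_single (k : Row) (x : Om →₀ ℝ) (h : ∀ ω, x ω ≠ 0 → rowO ω = k) : Nw k.1 x = l2 x := by
  classical
  have hx := wn_l2_row_eq h
  have h0 : 0 ≤ l2 x := Real.sqrt_nonneg _
  refine le_antisymm ?_ ?_
  · refine Nw_le (fun l hl F hF hc => ?_)
    have hsub : F ⊆ {k} := by
      intro k' hk'
      obtain ⟨_, ω, h1, h2⟩ := hF k' hk'
      rw [Finset.mem_singleton, ← h1]
      exact h ω h2
    have h1 : ∑ k' ∈ F, rn l x k' ≤ rn l x k := by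
      refine (Finset.sum_le_sum_of_subset_of_nonneg hsub (fun k' _ _ => rn_nonneg l x k')).trans ?_
      rw [Finset.sum_singleton]
    refine (mul_le_mul_of_nonneg_left h1 (wn_inv_nonneg _ l)).trans ?_
    rcases Nat.eq_zero_or_pos l with hl0 | hl0
    · subst hl0
      rw [Ml_zero, Nat.cast_one, div_one, one_mul, rn_eq_l2 x k (fun θ => wt_level_zero _ _), hx]
    · have h2 := rn_le l x k
      rw [hx] at h2
      have h3 : (Dn k.1 : ℝ) ≤ (Ml k.1 l : ℝ) := by exact_mod_cast Dn_le_Ml k.1 hl0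
      have h4 : (0 : ℝ) < (Ml k.1 l : ℝ) := zero_lt_one.trans_le (wn_Ml _ _)
      rw [one_div, inv_mul_le_iff₀ h4]
      exact h2.trans (mul_le_mul_of_nonneg_right h3 h0)
  · have h1 := le_Nw (n := k.1) (l := 0) (Nat.zero_le _) (F := {k})
      (fun k' hk => by rw [Finset.mem_singleton.1 hk]) (wn_Nl0 _ _) x
    rw [Finset.sum_singleton, Ml_zero, Nat.cast_one, div_one, one_mul,
      rn_eq_l2 x k (fun θ => wt_level_zero _ _), hx] at h1
    exact h1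

theorem rigO : RigN rowO nrO := rigN inner_Nw Nw_single

theorem domO {C : ℝ} (hC : 0 ≤ C) {x y : Om →₀ ℝ}
    (h : ∀ (n : ℕ) (T : Set Row), Nw n (rres rowO T y) ≤ C * Nw n (rres rowO T x)) :
    nrO y ≤ C * nrO x := dom inner_Nw hC h

theorem nrO_window {n : ℕ} {x : Om →₀ ℝ} (h : ∀ ω, x ω ≠ 0 → (rowO ω).1 = n) : nrO x = Nw n x := by
  refine nrm_window inner_Nw ?_
  intro ω hω
  rw [h ω hω]
  exact ⟨le_rfl, Nat.lt_succ_self _⟩

end Pool.Agent.UBN
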