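import Pool.Agent.UBN.Defs5
import Pool.Agent.UBN.Wn

/-!
# Far coordinates stay in their rows

`far_inl`: otherwise for every `n` there is `ω` in a window `≥ n` with `σ ω ∈ range inr`; choose `ω_0, ω_1, …` in strictly increasing windows.
`rigO.noL2 (C + 1)` gives `d > 0` with `(C + 1) sqrt d ≤ nrO (∑ i < d, single ω_i 1)` (`a i` = window of `ω_i`, `nrO (single ω 1) = 1` by
`rigO.single`), and `h2` gives `≤ C sqrt d`.
`far_row`: otherwise (with `far_inl`) for every `n` there is `ω` in a window `≥ n` with `σ ω = inl ω'`, `rowO ω' ≠ rowO ω`.  The set of these `ω` is infinite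
for every `n`, `σ` is injective and `{ω' | window < N}` is finite (`rigO.fin`), so we may also have the window of `ω'` `≥ n`.  Choose `ω_l, ω'_l` with both
windows in `[a l, a (l+1))`, `a (l+1) = max + 1`; `x l = single ω_l 1`, `y l = single ω'_l 1`; the `ω_l` are distinct (increasing windows), `h1` gives the
equivalence, `rigO.rig` the contradiction.
-/

namespace Pool.Agent.UBN

open Finset Pool.Agent.UUB

variable {σ : ZB → ZB' ⊕ (ℕ ⊕ ℕ)} {C : ℝ}

private theorem win_single {ω : Om} {a b : ℕ} (h1 : a ≤ (rowO ω).1) (h2 : (rowO ω).1 < b) (c : ℝ) :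
    Win rowO (Finsupp.single ω c) a b := by
  intro ω' h
  have : ω' = ω := by
    by_contra hne
    exact h (Finsupp.single_eq_of_ne hne)
  rw [this]
  exact ⟨h1, h2⟩

private theorem nrO_single_one (ω : Om) : nrO (Finsupp.single ω 1) = 1 := by
  rw [rigO.single (rowO ω) (Finsupp.single ω 1)]
  · unfold l2
    rw [Finsupp.support_single_ne_zero _ one_ne_zero]
    simp
  · intro ω' h
    have : ω' = ω := by
      by_contra hne
      exact h (Finsupp.single_eq_of_ne hne)
    rw [this]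

theorem far_inl (h : Sgm σ C) : ∃ n1 : ℕ, ∀ ω : ZB, n1 ≤ (rowO ω.1).1 → ∃ ω', σ ω = Sum.inl ω' := by
  by_contra hcon
  push Not at hcon
  choose pick hp1 hp2 using hcon
  have hp3 : ∀ n, ∃ m, σ (pick n) = Sum.inr m := by
    intro n
    rcases hs : σ (pick n) with ω' | m
    · exact absurd hs (hp2 n ω')
    · exact ⟨m, rfl⟩
  choose m hm using hp3
  obtain ⟨a, ha0, ha⟩ : ∃ a : ℕ → ℕ, a 0 = 0 ∧ ∀ i, a (i + 1) = (rowO (pick (a i)).1).1 + 1 :=
    ⟨fun i => Nat.rec 0 (fun _ r => (rowO (pick r).1).1 + 1) i, rfl, fun _ => rfl⟩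
  have hstep : ∀ i, a i < a (i + 1) := by
    intro i; rw [ha i]; exact Nat.lt_succ_of_le (hp1 (a i))
  have hmono : StrictMono a := strictMono_nat_of_lt_succ hstep
  have hinj : Function.Injective (fun i => pick (a i)) := by
    have : StrictMono (fun i => (rowO (pick (a i)).1).1) := by
      refine strictMono_nat_of_lt_succ fun i => ?_
      have h1 := hp1 (a (i + 1))
      have h2 := ha i
      show (rowO (pick (a i)).1).1 < (rowO (pick (a (i + 1))).1).1
      omega
    intro i j hij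
    refine this.injective ?_
    show (rowO (pick (a i)).1).1 = (rowO (pick (a j)).1).1
    have hij' : pick (a i) = pick (a j) := hij
    rw [hij']
  obtain ⟨d, hd, hd2⟩ := rigO.noL2 (C + 1)
  have h1 := hd2 a (fun i => Finsupp.single (pick (a i)).1 1) hmono.monotone
    (fun i _ => win_single (hp1 (a i)) (by rw [ha i]; exact Nat.lt_succ_self _) 1)
    (fun i _ => (nrO_single_one _).ge)
  have h2 := h.h2 ℕ (range d) (fun i => pick (a i)) (fun i => m (a i)) (fun _ => 1)
    (hinj.injOn) (fun i _ => hm (a i))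
  have h3 : ∑ i ∈ range d, (1 : ℝ) ^ 2 = d := by simp
  rw [h3] at h2
  have h4 : 0 < Real.sqrt d := Real.sqrt_pos.2 (by exact_mod_cast hd)
  have h5 : (C + 1) * Real.sqrt d ≤ C * Real.sqrt d := h1.trans h2
  nlinarith

theorem far_row (h : Sgm σ C) : ∃ n1 : ℕ, ∀ ω : ZB, n1 ≤ (rowO ω.1).1 →
    ∃ ω' : ZB', σ ω = Sum.inl ω' ∧ rowO ω'.1 = rowO ω.1 := by
  obtain ⟨n0, hn0⟩ := far_inl h
  by_contra hcon
  push Not at hcon
  have hpick : ∀ n : ℕ, ∃ p : ZB × ZB', n ≤ (rowO p.1.1).1 ∧ n ≤ (rowO p.2.1).1 ∧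
      σ p.1 = Sum.inl p.2 ∧ rowO p.2.1 ≠ rowO p.1.1 := by
    intro n
    have hfin1 : {ω : Om | (rowO ω).1 < n}.Finite := by
      have : {ω : Om | (rowO ω).1 < n} = ⋃ m ∈ Set.Iio n, {ω : Om | (rowO ω).1 = m} := by
        ext ω; simp
      rw [this]
      exact (Set.finite_Iio n).biUnion fun m _ => rigO.fin m
    have hfin2 : {ω' : ZB' | (rowO ω'.1).1 < n}.Finite :=
      Set.Finite.preimage (f := (Subtype.val : ZB' → Om)) Subtype.val_injective.injOn hfin1
    have hfin3 : (σ ⁻¹' (Sum.inl '' {ω' : ZB' | (rowO ω'.1).1 < n})).Finite :=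
      Set.Finite.preimage h.inj.injOn (hfin2.image _)
    obtain ⟨N, hN⟩ : ∃ N : ℕ, ∀ ω ∈ σ ⁻¹' (Sum.inl '' {ω' : ZB' | (rowO ω'.1).1 < n}),
        (rowO ω.1).1 < N := by
      obtain ⟨N, hN⟩ := (hfin3.image (fun ω : ZB => (rowO ω.1).1)).bddAbove
      exact ⟨N + 1, fun ω hω => Nat.lt_succ_of_le (hN ⟨ω, hω, rfl⟩)⟩
    obtain ⟨ω, hω1, hω2⟩ := hcon (n + N + n0)
    obtain ⟨ω', hω'⟩ := hn0 ω (by omega)
    refine ⟨(ω, ω'), by show n ≤ (rowO ω.1).1; omega, ?_, hω', hω2 ω' hω'⟩
    show n ≤ (rowO ω'.1).1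
    by_contra hlt
    have h3 := hN ω ⟨ω', by show (rowO ω'.1).1 < n; omega, hω'.symm⟩
    omega
  choose pick hp1 hp2 hp3 hp4 using hpick
  obtain ⟨a, ha0, ha⟩ : ∃ a : ℕ → ℕ, a 0 = 0 ∧
      ∀ i, a (i + 1) = max (rowO (pick (a i)).1.1).1 (rowO (pick (a i)).2.1).1 + 1 :=
    ⟨fun i => Nat.rec 0 (fun _ r => max (rowO (pick r).1.1).1 (rowO (pick r).2.1).1 + 1) i,
      rfl, fun _ => rfl⟩
  have hx : ∀ i, (rowO (pick (a i)).1.1).1 < a (i + 1) := by
    intro i; rw [ha i]; exact Nat.lt_succ_of_le (le_max_left _ _)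
  have hy : ∀ i, (rowO (pick (a i)).2.1).1 < a (i + 1) := by
    intro i; rw [ha i]; exact Nat.lt_succ_of_le (le_max_right _ _)
  have hmono : StrictMono a := strictMono_nat_of_lt_succ fun i => lt_of_le_of_lt (hp1 (a i)) (hx i)
  have hinj : Function.Injective (fun i => (pick (a i)).1) := by
    have : StrictMono (fun i => (rowO (pick (a i)).1.1).1) := by
      refine strictMono_nat_of_lt_succ fun i => ?_
      have h1 := hp1 (a (i + 1))
      have h2 := hx i
      show (rowO (pick (a i)).1.1).1 < (rowO (pick (a (i + 1))).1.1).1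
      omega
    intro i j hij
    refine this.injective ?_
    show (rowO (pick (a i)).1.1).1 = (rowO (pick (a j)).1.1).1
    have hij' : (pick (a i)).1 = (pick (a j)).1 := hij
    rw [hij']
  have hsm : ∀ (A : Finset ℕ) (t : ℕ → ℝ) (f : ℕ → Om),
      ∑ l ∈ A, t l • (Finsupp.single (f l) (1 : ℝ)) = ∑ l ∈ A, Finsupp.single (f l) (t l) := by
    intro A t f
    refine Finset.sum_congr rfl fun l _ => ?_
    rw [Finsupp.smul_single, smul_eq_mul, mul_one]
  refine rigO.rig a (fun l => Finsupp.single (pick (a l)).1.1 1)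
    (fun l => Finsupp.single (pick (a l)).2.1 1) C hmono.monotone
    (fun l => win_single (hp1 (a l)) (hx l) 1) (fun l => win_single (hp2 (a l)) (hy l) 1)
    ?_ ?_ ?_ ?_
  · intro l ω ω' h1 h2
    have e1 : ω = (pick (a l)).1.1 := by
      by_contra hne
      exact h1 (Finsupp.single_eq_of_ne hne)
    have e2 : ω' = (pick (a l)).2.1 := by
      by_contra hne
      exact h2 (Finsupp.single_eq_of_ne hne)
    rw [e1, e2]
    exact (hp4 (a l)).symm
  · intro l
    exact Finsupp.single_ne_zero.2 one_ne_zero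
  · intro A t
    have := (h.h1 ℕ A (fun l => (pick (a l)).1) (fun l => (pick (a l)).2) t hinj.injOn
      (fun l _ => hp3 (a l))).1
    rw [hsm A t fun l => (pick (a l)).1.1, hsm A t fun l => (pick (a l)).2.1]
    exact this
  · intro A t
    have := (h.h1 ℕ A (fun l => (pick (a l)).1) (fun l => (pick (a l)).2) t hinj.injOn
      (fun l _ => hp3 (a l))).2
    rw [hsm A t fun l => (pick (a l)).1.1, hsm A t fun l => (pick (a l)).2.1]
    exact this

end Pool.Agent.UBN
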