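import Pool.Agent.UBN.Cc
import Pool.Agent.UBN.Wn

/-!
# Flat vectors

`x = ∑ k ∈ F, ev k (θ k)`: `cf x k θ' = if k ∈ F ∧ θ' = θ k then 1 else 0` (`cf_sum`, `cf_ev`), so `rn l x k = wt n l (θ k)` for `k ∈ F` and `0` for
`k ∉ F` (`rn_eq`; `wt ≥ 0`).  `x` lives in the window `n`, so `nrO x = Nw n x` (`nrO_window`).  `le_Nw` and `Nw_le'` (for a set `F'` of
rows the sum is the sum over `F' ∩ F`).
-/

namespace Pool.Agent.UBN

open Finset Pool.Agent.UUB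

section
variable {n : ℕ} {F : Finset Row} {θ : Row → ℕ}

open Classical in
private theorem cn3_cf (hF : ∀ k ∈ F, k.1 = n ∧ k.2 < rowsN n ∧ θ k < Rn n + 2) (k : Row) (t : ℕ) :
    cf (∑ j ∈ F, ev j (θ j)) k t = if k ∈ F ∧ t = θ k then 1 else 0 := by
  rw [cf_sum]
  have h1 : ∀ j ∈ F, cf (ev j (θ j)) k t = if k = j ∧ t = θ j then 1 else 0 := by
    intro j hj
    obtain ⟨h1, h2, h3⟩ := hF j hj
    exact cf_ev j (θ j) ⟨by rw [h1]; exact h2, by rw [h1]; exact h3⟩ k t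
  rw [Finset.sum_congr rfl h1]
  by_cases hk : k ∈ F
  · rw [Finset.sum_eq_single k]
    · simp [hk]
    · intro j _ hj
      rw [if_neg]
      rintro ⟨h, _⟩
      exact hj h.symm
    · intro h
      exact absurd hk h
  · rw [if_neg (fun h => hk h.1)]
    apply Finset.sum_eq_zero
    intro j hj
    rw [if_neg]
    rintro ⟨h, _⟩
    exact hk (h ▸ hj)

private theorem cn3_rn_mem (hF : ∀ k ∈ F, k.1 = n ∧ k.2 < rowsN n ∧ θ k < Rn n + 2) (l : ℕ)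
    {k : Row} (hk : k ∈ F) : rn l (∑ j ∈ F, ev j (θ j)) k = wt n l (θ k) := by
  classical
  obtain ⟨h1, h2, h3⟩ := hF k hk
  rw [rn_eq, Finset.sum_eq_single (θ k)]
  · rw [cn3_cf hF, if_pos ⟨hk, rfl⟩, mul_one, h1]
    exact Real.sqrt_sq (zero_le_one.trans (one_le_wt n l (θ k)))
  · intro t _ ht
    rw [cn3_cf hF, if_neg (fun h => ht h.2), mul_zero]
    norm_num
  · intro h
    exact absurd (Finset.mem_range.2 (by rw [h1]; exact h3)) h

private theorem cn3_rn_notMem (hF : ∀ k ∈ F, k.1 = n ∧ k.2 < rowsN n ∧ θ k < Rn n + 2) (l : ℕ)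
    {k : Row} (hk : k ∉ F) : rn l (∑ j ∈ F, ev j (θ j)) k = 0 := by
  classical
  rw [rn_eq, Finset.sum_eq_zero, Real.sqrt_zero]
  intro t _
  rw [cn3_cf hF, if_neg (fun h => hk h.1), mul_zero]
  norm_num

private theorem cn3_window (hF : ∀ k ∈ F, k.1 = n ∧ k.2 < rowsN n ∧ θ k < Rn n + 2) :
    nrO (∑ j ∈ F, ev j (θ j)) = Nw n (∑ j ∈ F, ev j (θ j)) := by
  classical
  apply nrO_window
  intro ω hω
  rw [cf_apply, cn3_cf hF] at hω
  by_cases h : rowO ω ∈ F ∧ fb ω = θ (rowO ω)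
  · exact (hF _ h.1).1
  · rw [if_neg h] at hω
    exact absurd rfl hω

end

theorem flat_lo {n l : ℕ} (hl : l ≤ Ln n) {F : Finset Row} {θ : Row → ℕ}
    (hF : ∀ k ∈ F, k.1 = n ∧ k.2 < rowsN n ∧ θ k < Rn n + 2) (hc : F.card ≤ Nl n l) :
    (1 / (Ml n l : ℝ)) * ∑ k ∈ F, wt n l (θ k) ≤ nrO (∑ k ∈ F, ev k (θ k)) := by
  rw [cn3_window hF, ← Finset.sum_congr rfl (fun k hk => cn3_rn_mem hF l hk)]
  exact le_Nw hl (fun k hk => (hF k hk).1) hc _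

theorem flat_up {n : ℕ} {F : Finset Row} {θ : Row → ℕ}
    (hF : ∀ k ∈ F, k.1 = n ∧ k.2 < rowsN n ∧ θ k < Rn n + 2) {b : ℝ}
    (hb : ∀ l ≤ Ln n, ∀ F' ⊆ F, F'.card ≤ Nl n l → (1 / (Ml n l : ℝ)) * ∑ k ∈ F', wt n l (θ k) ≤ b) :
    nrO (∑ k ∈ F, ev k (θ k)) ≤ b := by
  classical
  rw [cn3_window hF]
  refine Nw_le' (fun l hl F' _ hc => ?_)
  have h1 : ∑ k ∈ F', rn l (∑ j ∈ F, ev j (θ j)) k = ∑ k ∈ F' ∩ F, wt n l (θ k) := by
    rw [← Finset.sum_subset (Finset.inter_subset_left (s₁ := F') (s₂ := F))]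
    · exact Finset.sum_congr rfl (fun k hk => cn3_rn_mem hF l (Finset.mem_inter.1 hk).2)
    · intro k hk hk'
      exact cn3_rn_notMem hF l (fun h => hk' (Finset.mem_inter.2 ⟨hk, h⟩))
  rw [h1]
  exact hb l hl (F' ∩ F) Finset.inter_subset_right
    ((Finset.card_le_card Finset.inter_subset_left).trans hc)

end Pool.Agent.UBN
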