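import Pool.Agent.UBN.Wb
import Pool.Agent.UBN.Par
import Pool.Agent.UBN.Defs2

/-!
# The critical estimate

Let `Φ` be a node of index `q0` (odd) with children `φ r` of index `sig q0 (hist c' S' r)`, `r < d`,
`d ≤ nn q0`, and `A ⊆ range (nn q0)`.  Put `X l = cmb x t (L l) (L (l+1))`, `p l = sig q0 (hist c S l)`.
* If `sig q0 (hist c' S' r) ≠ p l` then `|φ r (X l)| ≤ 20 / nn q0 ^ 2`: by `e2` if the index of `φ r` is
  smaller (it is positive), by `e3` if it is larger; both indices `q` satisfy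
  `mm q ≥ q ≥ nn q0 ^ 2` (`nn_sq_le_sig`).
* If they are equal then `hist c' S' r = hist c S l` (`sig_inj`), so `r = l` and `S' i = S i` for `i < r`
  (`hist_eq`).  Call `r` critical if `hist c' S' r = hist c S r` and `φ r (X r) ≠ 0`.  There is at most one
  critical `r`: if `r < r'` are critical then `S' r = S r`, and
  `φ r (X r) = φ r (rres (S r) (X r)) = 0` because the rows of the `x l` are disjoint from those of
  the `y l` (`disj`).  For the critical `r`: `|φ r (X r)| ≤ 20` (`e1`).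
Hence `∑_r ∑_{l ∈ A} |φ r (X l)| ≤ 20 + nn q0 * nn q0 * (20 / nn q0 ^ 2) = 40`, and `mm q0 ≥ 2`.
-/

namespace Pool.Agent.UBN

open Finset

variable {Ω : Type} {row : Ω → Row} {N : ℕ → (Ω →₀ ℝ) → ℝ}

/-- The combinations of the `x l` vanish on the rows of the `y l`. -/
theorem crit_rres_zero {a : ℕ → ℕ} {x y : ℕ → Ω →₀ ℝ} {K : ℝ} (h : Pair row N a x y K) (t : ℕ → ℝ)
    (l l' m m' : ℕ) : rres row (rowsY row y m m') (cmb x t l l') = 0 := by
  ext ω
  unfold rres res
  rw [mul_apply, Finsupp.coe_zero, Pi.zero_apply]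
  by_cases hω : ω ∈ {ω | row ω ∈ (rowsY row y m m' : Set Row)}
  · have h1 : cmb x t l l' ω = 0 := by
      unfold cmb
      rw [Finsupp.finsetSum_apply]
      apply sum_eq_zero
      intro i _
      rw [Finsupp.smul_apply, smul_eq_mul]
      by_contra hne
      have hx : x i ω ≠ 0 := right_ne_zero_of_mul hne
      have h2 : row ω ∈ rowsY row y m m' := hω
      unfold rowsY at h2
      rw [mem_biUnion] at h2
      obtain ⟨j, _, hj⟩ := h2
      rw [mem_image] at hj
      obtain ⟨ω', hω', he⟩ := hj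
      exact h.disj i j ω ω' hx (Finsupp.mem_support_iff.1 hω') he.symm
    rw [h1, mul_zero]
  · rw [if_neg hω, zero_mul]

/-- The non critical pairs. -/
theorem crit_off {a : ℕ → ℕ} {x y : ℕ → Ω →₀ ℝ} {K : ℝ} {q0 : ℕ} {L : ℕ → ℕ} {t : ℕ → ℝ}
    {η : ℕ → (Ω →₀ ℝ) →ₗ[ℝ] ℝ}
    (hE : Spec row N a x y K q0 L t η) (l : ℕ) {h' : Hist} {φ : (Ω →₀ ℝ) →ₗ[ℝ] ℝ}
    (hφ : W row N (sig q0 h') φ)
    (hne : h' ≠ hist (fun j => a (L j)) (fun j => rowsY row y (L j) (L (j + 1))) l) :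
    |φ (cmb x t (L l) (L (l + 1)))| ≤ 20 / (nn q0 : ℝ) ^ 2 := by
  have hn0 : (0 : ℝ) < (nn q0 : ℝ) ^ 2 := by
    have : (0 : ℝ) < nn q0 := by exact_mod_cast nn_pos q0
    positivity
  have hmm : ∀ q, nn q0 ^ 2 ≤ q → (nn q0 : ℝ) ^ 2 ≤ (mm q : ℝ) := by
    intro q hq
    have h1 : nn q0 ^ 2 ≤ mm q := hq.trans (Nat.lt_two_pow_self.le.trans (two_pow_le_mm q))
    exact_mod_cast h1
  have hpne : sig q0 h' ≠
      sig q0 (hist (fun j => a (L j)) (fun j => rowsY row y (L j) (L (j + 1))) l) := by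
    intro he
    exact hne (sig_inj he).2
  have hEl := hE l
  rcases lt_or_gt_of_ne hpne with h1 | h1
  · have h2 := hEl.e2 _ φ hφ (lt_of_lt_of_le (by norm_num) (two_le_sig q0 h')) h1
    refine h2.trans ?_
    exact div_le_div_of_nonneg_left (by norm_num) hn0 (hmm _ (nn_sq_le_sig q0 h'))
  · have h2 := hEl.e3 _ φ hφ h1
    refine h2.trans ?_
    exact div_le_div_of_nonneg_left (by norm_num) hn0 (hmm _ (nn_sq_le_sig q0 _))

theorem crit (hN : Inner row N) {a : ℕ → ℕ} {x y : ℕ → Ω →₀ ℝ} {K : ℝ}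
    (h : Pair row N a x y K) {q0 : ℕ} (h0 : Odd q0) {L : ℕ → ℕ} (hL : StrictMono L) {t : ℕ → ℝ}
    {η : ℕ → (Ω →₀ ℝ) →ₗ[ℝ] ℝ}
    (hE : Spec row N a x y K q0 L t η)
    {Φ : (Ω →₀ ℝ) →ₗ[ℝ] ℝ} (hΦ : W row N q0 Φ) (A : Finset ℕ) (hA : A ⊆ range (nn q0)) :
    |Φ (∑ l ∈ A, cmb x t (L l) (L (l + 1)))| ≤ 20 := by
  cases hΦ with
  | leaf n φ hl => exact absurd h0 (by decide)
  | node q d c S φ r hq hd hc hS hW hφ hsp =>
    have hn0 : (0 : ℝ) < (nn q0 : ℝ) := by exact_mod_cast nn_pos q0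
    have hm : (2 : ℝ) ≤ (mm q0 : ℝ) := by exact_mod_cast two_le_mm q0
    set X : ℕ → Ω →₀ ℝ := fun l => cmb x t (L l) (L (l + 1)) with hX
    set H : ℕ → Hist := hist (fun j => a (L j)) (fun j => rowsY row y (L j) (L (j + 1))) with hH
    have hW' : ∀ i < d, W row N (sig q0 (hist c S i)) (φ i) := by
      intro i hi
      rw [← hsp h0 i hi]
      exact hW i hi
    let T : Finset (ℕ × ℕ) := range d ×ˢ A
    have hTc : (T.card : ℝ) ≤ (nn q0 : ℝ) ^ 2 := by
      have h1 : T.card ≤ nn q0 ^ 2 := by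
        rw [card_product, card_range, sq]
        have h2 := card_le_card hA
        rw [card_range] at h2
        exact Nat.mul_le_mul hd h2
      exact_mod_cast h1
    classical
    have hA1 : ∑ z ∈ T.filter (fun z => ¬ hist c S z.1 = H z.2), |φ z.1 (X z.2)| ≤ 20 := by
      have h1 : ∀ z ∈ T.filter (fun z => ¬ hist c S z.1 = H z.2),
          |φ z.1 (X z.2)| ≤ 20 / (nn q0 : ℝ) ^ 2 := by
        intro z hz
        rw [mem_filter, mem_product, mem_range] at hz
        exact crit_off hE z.2 (hW' z.1 hz.1.1) hz.2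
      have h2 := sum_le_card_nsmul _ _ _ h1
      rw [nsmul_eq_mul] at h2
      have h3 : ((T.filter (fun z => ¬ hist c S z.1 = H z.2)).card : ℝ) ≤ (nn q0 : ℝ) ^ 2 := by
        refine le_trans ?_ hTc
        exact_mod_cast card_filter_le _ _
      have h4 : ((T.filter (fun z => ¬ hist c S z.1 = H z.2)).card : ℝ) *
          (20 / (nn q0 : ℝ) ^ 2) ≤ (nn q0 : ℝ) ^ 2 * (20 / (nn q0 : ℝ) ^ 2) :=
        mul_le_mul_of_nonneg_right h3 (by positivity)
      have h5 : (nn q0 : ℝ) ^ 2 * (20 / (nn q0 : ℝ) ^ 2) = 20 := by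
        field_simp
      linarith
    have hzero : ∀ i i' l', i < i' → i' < d → hist c S i = H i → hist c S i' = H l' →
        φ i (X i) = 0 := by
      intro i i' l' hii hi' he he'
      have h1 := hist_eq he'
      have h2 : S i = rowsY row y (L i) (L (i + 1)) := h1.2 i hii
      rw [hφ i (lt_trans hii hi') (X i), h2]
      have h3 : rres row (rowsY row y (L i) (L (i + 1))) (X i) = 0 := crit_rres_zero h t _ _ _ _
      rw [h3, map_zero]
    have hA2 : ∑ z ∈ T.filter (fun z => hist c S z.1 = H z.2), |φ z.1 (X z.2)| ≤ 20 := by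
      rw [← sum_filter_ne_zero]
      have hcard : ((T.filter (fun z => hist c S z.1 = H z.2)).filter
          (fun z => |φ z.1 (X z.2)| ≠ 0)).card ≤ 1 := by
        rw [card_le_one]
        intro z hz z' hz'
        rw [mem_filter, mem_filter, mem_product, mem_range] at hz hz'
        obtain ⟨⟨⟨hz1, hz2⟩, hz3⟩, hz4⟩ := hz
        obtain ⟨⟨⟨hw1, hw2⟩, hw3⟩, hw4⟩ := hz'
        have e1 := (hist_eq hz3).1
        have e2 := (hist_eq hw3).1
        obtain ⟨i, i1⟩ := z
        obtain ⟨j, j1⟩ := z'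
        dsimp only at *
        subst e1
        subst e2
        rcases lt_trichotomy i j with h3 | h3 | h3
        · exact absurd (by rw [hzero i j j h3 hw1 hz3 hw3, abs_zero]) hz4
        · rw [h3]
        · exact absurd (by rw [hzero j i i h3 hz1 hw3 hz3, abs_zero]) hw4
      have h1 : ∀ z ∈ (T.filter (fun z => hist c S z.1 = H z.2)).filter
          (fun z => |φ z.1 (X z.2)| ≠ 0), |φ z.1 (X z.2)| ≤ 20 := by
        intro z hz
        rw [mem_filter, mem_filter, mem_product, mem_range] at hz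
        exact (hE z.2).e1 _ _ (hW' z.1 hz.1.1.1)
      have h2 := sum_le_card_nsmul _ _ _ h1
      rw [nsmul_eq_mul] at h2
      have h3 : ((((T.filter (fun z => hist c S z.1 = H z.2)).filter
          (fun z => |φ z.1 (X z.2)| ≠ 0)).card : ℕ) : ℝ) ≤ 1 := by exact_mod_cast hcard
      linarith
    have hsum : ∑ i ∈ range d, ∑ l ∈ A, |φ i (X l)| ≤ 40 := by
      rw [← sum_product']
      have h1 := sum_filter_add_sum_filter_not T (fun z => hist c S z.1 = H z.2)
        (fun z => |φ z.1 (X z.2)|)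
      have h2 : ∑ z ∈ range d ×ˢ A, |φ z.1 (X z.2)| = ∑ z ∈ T, |φ z.1 (X z.2)| := rfl
      rw [h2, ← h1]
      linarith
    have hval : ((1 / (mm q0 : ℝ)) • ∑ i ∈ range d, φ i) (∑ l ∈ A, X l) =
        (1 / (mm q0 : ℝ)) * ∑ i ∈ range d, ∑ l ∈ A, φ i (X l) := by
      rw [LinearMap.smul_apply, smul_eq_mul, LinearMap.sum_apply]
      congr 1
      apply sum_congr rfl
      intro i _
      rw [map_sum]
    rw [hval, abs_mul, abs_of_pos (by positivity)]
    have h6 : |∑ i ∈ range d, ∑ l ∈ A, φ i (X l)| ≤ 40 := by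
      refine le_trans (abs_sum_le_sum_abs _ _) (le_trans ?_ hsum)
      apply sum_le_sum
      intro i _
      exact abs_sum_le_sum_abs _ _
    have h7 : 1 / (mm q0 : ℝ) ≤ 1 / 2 := div_le_div_of_nonneg_left (by norm_num) (by norm_num) hm
    have h8 : 0 ≤ |∑ i ∈ range d, ∑ l ∈ A, φ i (X l)| := abs_nonneg _
    calc 1 / (mm q0 : ℝ) * |∑ i ∈ range d, ∑ l ∈ A, φ i (X l)|
        ≤ 1 / 2 * 40 := mul_le_mul h7 h6 h8 (by norm_num)
      _ = 20 := by norm_num

end Pool.Agent.UBN
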