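import Pool.Agent.UBN.St

/-!
# Counting the bad coordinates

`bad_card`: otherwise there is `F` with `F.card = Nl n (2 s)`; `star1` with `r = 1` and `Gn_one_le` give
`(D/M) N ≤ (2K/η) N/M`, so `D ≤ 2K/η`.
`bad_rows`: the rows with a bad coordinate are covered by the sets of `bad_card` for `s = 1..Rn n`; `sum_Nl`.
-/

namespace Pool.Agent.UBN

open Pool.Agent.UUB Finset

variable {I : Type} {W : Type} [NormedAddCommGroup W] [NormedSpace ℝ W] [CompleteSpace W]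
  {e : UnconditionalSchauderBasis (EB ⊕ ℕ) ℝ W}
  {b : UnconditionalSchauderBasis I ℝ W} {K ε η : ℝ}

theorem bad_card (hA : Amb (rowB EB) (nrB EB) e) {n0 : ℕ} {J : Row → Finset I}
    (hD : RowData (rowB EB) e b K ε n0 J) (hη : 0 < η) {n s : ℕ} (hn : n0 ≤ n)
    (hDn : 2 * K / η < Dn n) (F : Finset EB)
    (hF : ∀ ω ∈ F, (rowB EB ω).1 = n ∧ fb ω.1 = s ∧ Bad (rowB EB) e b J η ω) :
    F.card < Nl n (2 * s) := by
  by_contra hcon
  have hcon' : Nl n (2 * s) ≤ F.card := not_lt.mp hcon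
  obtain ⟨F', hF'F, hF'c⟩ := Finset.exists_subset_card_eq hcon'
  have hN : 0 < Nl n (2 * s) := Nl_pos n (2 * s)
  have hM : 0 < Ml n (2 * s) := Ml_pos n (2 * s)
  have hne : F'.Nonempty := by rw [← Finset.card_pos, hF'c]; exact hN
  obtain ⟨ω0, hω0⟩ := hne
  have hs := hF ω0 (hF'F hω0)
  have hsle : s ≤ Rn n := by
    have h2 : fb ω0.1 ≤ Rn (rowB EB ω0).1 := ω0.2.2
    rw [hs.2.1, hs.1] at h2
    exact h2
  have hl : 2 * s ≤ Ln n := by
    unfold Ln
    omega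
  have h1 := star1 hA hD hη hn F' (fun ω hω => hF ω (hF'F hω)) hF'c.le (fun _ => 1)
    (fun _ => zero_le_one)
  have hcI : (F'.image (rowB EB)).card ≤ Nl n (2 * s) := Finset.card_image_le.trans hF'c.le
  have h2 := Gn_one_le n hl hcI
  rw [Finset.sum_const, hF'c, nsmul_eq_mul, mul_one] at h1
  have hK : 0 ≤ 2 * K / η := by
    have := hD.bd.one_le
    positivity
  have h3 := h1.trans (mul_le_mul_of_nonneg_left h2 hK)
  have hNM : (0 : ℝ) < (Nl n (2 * s) : ℝ) / Ml n (2 * s) := by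
    have hN' : (0 : ℝ) < Nl n (2 * s) := by exact_mod_cast hN
    have hM' : (0 : ℝ) < Ml n (2 * s) := by exact_mod_cast hM
    positivity
  have h4 : ((Dn n : ℝ) / Ml n (2 * s)) * (Nl n (2 * s) : ℝ) =
      (Dn n : ℝ) * ((Nl n (2 * s) : ℝ) / Ml n (2 * s)) := by ring
  rw [h4] at h3
  have h5 := le_of_mul_le_mul_right h3 hNM
  exact absurd hDn (not_lt.mpr h5)

theorem bad_rows (hA : Amb (rowB EB) (nrB EB) e) {n0 : ℕ} {J : Row → Finset I}
    (hD : RowData (rowB EB) e b K ε n0 J) (hη : 0 < η) {n : ℕ} (hn : n0 ≤ n)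
    (hDn : 2 * K / η < Dn n) (F : Finset Row)
    (hF : ∀ k ∈ F, k.1 = n ∧ ∃ ω, rowB EB ω = k ∧ Bad (rowB EB) e b J η ω) :
    F.card ≤ Nl n (2 * Rn n + 1) := by
  classical
  rcases F.eq_empty_or_nonempty with h0 | ⟨k0, hk0⟩
  · rw [h0, Finset.card_empty]
    exact Nat.zero_le _
  have : Nonempty EB := ⟨(hF k0 hk0).2.choose⟩
  choose! w hw using fun k hk => (hF k hk).2
  have hmaps : ∀ k ∈ F, fb (w k).1 ∈ Icc 1 (Rn n) := by
    intro k hk
    have h1 : 1 ≤ fb (w k).1 := (w k).2.1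
    have h2 : fb (w k).1 ≤ Rn (rowB EB (w k)).1 := (w k).2.2
    rw [(hw k hk).1, (hF k hk).1] at h2
    exact Finset.mem_Icc.mpr ⟨h1, h2⟩
  rw [Finset.card_eq_sum_card_fiberwise hmaps]
  refine le_trans (Finset.sum_le_sum fun s _ => ?_) (sum_Nl n)
  have hinj : Set.InjOn w (↑(F.filter fun k => fb (w k).1 = s) : Set Row) := by
    intro k hk k' hk' h
    have hk1 := (Finset.mem_filter.mp (Finset.mem_coe.mp hk)).1
    have hk1' := (Finset.mem_filter.mp (Finset.mem_coe.mp hk')).1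
    rw [← (hw k hk1).1, ← (hw k' hk1').1, h]
  rw [← Finset.card_image_of_injOn hinj]
  refine (bad_card hA hD hη hn hDn _ ?_).le
  intro ω hω
  obtain ⟨k, hk, rfl⟩ := Finset.mem_image.mp hω
  obtain ⟨hk1, hk2⟩ := Finset.mem_filter.mp hk
  refine ⟨?_, hk2, (hw k hk1).2⟩
  rw [(hw k hk1).1, (hF k hk1).1]

end Pool.Agent.UBN
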