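import Pool.Agent.UBN.Cl

/-!
# Norm estimates for the conveyor on one row

Write `w = wt n l`, `o = omg n l`, `m j = mq n j a`.
(1) Cauchy–Schwarz and `sum_kap`: `m j ^ 2 ≤ ∑ θ ∈ levS n j, a θ ^ 2`, so `o j ^ 2 * m j ^ 2 ≤ ∑ θ ∈ levS n j, (w θ * a θ) ^ 2`
(`0 ≤ o j ≤ w θ` on the level `j`, `omg_le_wt`), so `∑_{j ≤ J+1} o j ^ 2 * m j ^ 2 ≤ S := ∑ θ, (w θ * a θ) ^ 2` (`sum_levels`).
(2) `(w Uf) ^ 2 ≤ 2 (w a) ^ 2 + 2 (w kap (m (lev + 1) - m lev)) ^ 2`.  Sum the second term level by level (`sum_wt`):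
`∑_{j ≤ J+1} 2 o_j^2 (m (j+1) - m j)^2 ≤ ∑ 4 o_j^2 (m (j+1)^2 + m j^2) ≤ 8 ∑ o_j^2 m_j^2 ≤ 8 S` (`o j ≤ o (j+1)`; `m (J+2) = 0`, `levS_top`).
Total: `2 S + 16 S ≤ 49 S`.
(3) `Vf`: `∑ 2 o_j^2 (m (j-1) - m j)^2 ≤ ∑ 4 o_j^2 (m (j-1)^2 + m j^2) ≤ (16 + 4) ∑ o_j^2 m_j^2` (`o j ≤ 2 o (j-1)`); total `2 S + 40 S ≤ 49 S`.
-/

namespace Pool.Agent.UBN

open Finset

private theorem cv1_omg_nonneg (n l j : ℕ) : 0 ≤ omg n l j := by
  unfold omg
  split_ifs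
  · positivity
  · exact zero_le_one

private theorem cv1_omg_succ (n l j : ℕ) : omg n l j ≤ omg n l (j + 1) := by
  unfold omg
  split_ifs
  · exact pow_le_pow_right₀ (by norm_num) (Nat.le_succ j)
  · exact le_rfl

private theorem cv1_omg_le_two (n l j : ℕ) : omg n l (j + 1) ≤ 2 * omg n l j := by
  unfold omg
  split_ifs
  · rw [pow_succ, mul_comm]
  · norm_num

private theorem cv1_level {n l j : ℕ} (hj : j ≤ Jn n + 1) (a : ℕ → ℝ) :
    omg n l j ^ 2 * mq n j a ^ 2 ≤ ∑ θ ∈ levS n j, (wt n l θ * a θ) ^ 2 := by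
  have h1 : mq n j a ^ 2 ≤ ∑ θ ∈ levS n j, a θ ^ 2 := by
    unfold mq
    have h := Finset.sum_mul_sq_le_sq_mul_sq (levS n j) (fun θ => kap n θ) a
    rw [sum_kap hj, one_mul] at h
    exact h
  have h2 : omg n l j ^ 2 * mq n j a ^ 2 ≤ omg n l j ^ 2 * ∑ θ ∈ levS n j, a θ ^ 2 :=
    mul_le_mul_of_nonneg_left h1 (sq_nonneg _)
  refine h2.trans ?_
  rw [Finset.mul_sum]
  refine Finset.sum_le_sum fun θ hθ => ?_
  have h3 : omg n l j ≤ wt n l θ := by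
    have h := omg_le_wt (n := n) (l := l) (θ := θ)
    rwa [(mem_levS.1 hθ).2] at h
  rw [mul_pow]
  exact mul_le_mul_of_nonneg_right
    (pow_le_pow_left₀ (cv1_omg_nonneg n l j) h3 2) (sq_nonneg _)

theorem sum_mq_le {n l : ℕ} (a : ℕ → ℝ) :
    ∑ j ∈ range (Jn n + 2), omg n l j ^ 2 * mq n j a ^ 2 ≤
      ∑ θ ∈ range (Rn n + 2), (wt n l θ * a θ) ^ 2 := by
  rw [sum_levels]
  refine Finset.sum_le_sum fun j hj => ?_
  exact cv1_level (by have := Finset.mem_range.1 hj; omega) a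

private theorem cv1_pert {n l : ℕ} (hl : l ≤ Ln n) (a b c : ℕ → ℝ)
    (hb : ∀ θ, b θ = a θ + kap n θ * c (lev n θ)) :
    ∑ θ ∈ range (Rn n + 2), (wt n l θ * b θ) ^ 2 ≤
      2 * ∑ θ ∈ range (Rn n + 2), (wt n l θ * a θ) ^ 2 +
        4 * ∑ j ∈ range (Jn n + 2), omg n l j ^ 2 * c j ^ 2 := by
  have h1 : ∀ θ ∈ range (Rn n + 2), (wt n l θ * b θ) ^ 2 ≤
      2 * (wt n l θ * a θ) ^ 2 + 2 * ((wt n l θ * kap n θ) ^ 2 * c (lev n θ) ^ 2) := by
    intro θ _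
    rw [hb θ]
    nlinarith [sq_nonneg (wt n l θ * a θ - wt n l θ * kap n θ * c (lev n θ))]
  refine (Finset.sum_le_sum h1).trans ?_
  rw [Finset.sum_add_distrib, ← Finset.mul_sum, ← Finset.mul_sum]
  have h2 : ∑ θ ∈ range (Rn n + 2), (wt n l θ * kap n θ) ^ 2 * c (lev n θ) ^ 2 ≤
      2 * ∑ j ∈ range (Jn n + 2), omg n l j ^ 2 * c j ^ 2 := by
    rw [sum_levels, Finset.mul_sum]
    refine Finset.sum_le_sum fun j hj => ?_
    have hj' : j ≤ Jn n + 1 := by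
      have := Finset.mem_range.1 hj
      omega
    have e : ∑ θ ∈ levS n j, (wt n l θ * kap n θ) ^ 2 * c (lev n θ) ^ 2 =
        (∑ θ ∈ levS n j, (wt n l θ * kap n θ) ^ 2) * c j ^ 2 := by
      rw [Finset.sum_mul]
      refine Finset.sum_congr rfl fun θ hθ => ?_
      rw [(mem_levS.1 hθ).2]
    rw [e]
    have h := mul_le_mul_of_nonneg_right (sum_wt hl hj') (sq_nonneg (c j))
    linarith
  linarith

theorem Uf_le {n l : ℕ} (hl : l ≤ Ln n) (a : ℕ → ℝ) :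
    ∑ θ ∈ range (Rn n + 2), (wt n l θ * Uf n a θ) ^ 2 ≤
      49 * ∑ θ ∈ range (Rn n + 2), (wt n l θ * a θ) ^ 2 := by
  have h1 := cv1_pert hl a (Uf n a) (fun j => mq n (j + 1) a - mq n j a) (fun θ => rfl)
  have h2 := sum_mq_le (n := n) (l := l) a
  have h0 : 0 ≤ ∑ j ∈ range (Jn n + 2), omg n l j ^ 2 * mq n j a ^ 2 :=
    Finset.sum_nonneg fun j _ => mul_nonneg (sq_nonneg _) (sq_nonneg _)
  have h3 : ∑ j ∈ range (Jn n + 2), omg n l j ^ 2 * (mq n (j + 1) a - mq n j a) ^ 2 ≤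
      4 * ∑ j ∈ range (Jn n + 2), omg n l j ^ 2 * mq n j a ^ 2 := by
    have h4 : ∀ j ∈ range (Jn n + 2), omg n l j ^ 2 * (mq n (j + 1) a - mq n j a) ^ 2 ≤
        2 * (omg n l (j + 1) ^ 2 * mq n (j + 1) a ^ 2) + 2 * (omg n l j ^ 2 * mq n j a ^ 2) := by
      intro j _
      have h5 : omg n l j ^ 2 ≤ omg n l (j + 1) ^ 2 :=
        pow_le_pow_left₀ (cv1_omg_nonneg n l j) (cv1_omg_succ n l j) 2
      have h6 : omg n l j ^ 2 * mq n (j + 1) a ^ 2 ≤ omg n l (j + 1) ^ 2 * mq n (j + 1) a ^ 2 :=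
        mul_le_mul_of_nonneg_right h5 (sq_nonneg _)
      nlinarith [mul_nonneg (sq_nonneg (omg n l j)) (sq_nonneg (mq n (j + 1) a + mq n j a))]
    refine (Finset.sum_le_sum h4).trans ?_
    rw [Finset.sum_add_distrib, ← Finset.mul_sum, ← Finset.mul_sum]
    have h7 : ∑ j ∈ range (Jn n + 2), omg n l (j + 1) ^ 2 * mq n (j + 1) a ^ 2 ≤
        ∑ j ∈ range (Jn n + 2), omg n l j ^ 2 * mq n j a ^ 2 := by
      have e1 := Finset.sum_range_succ' (fun j => omg n l j ^ 2 * mq n j a ^ 2) (Jn n + 2)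
      have e2 := Finset.sum_range_succ (fun j => omg n l j ^ 2 * mq n j a ^ 2) (Jn n + 2)
      have e3 : mq n (Jn n + 2) a = 0 := by
        unfold mq
        rw [levS_top, Finset.sum_empty]
      have e4 : 0 ≤ omg n l 0 ^ 2 * mq n 0 a ^ 2 := mul_nonneg (sq_nonneg _) (sq_nonneg _)
      rw [e3] at e2
      rw [e2] at e1
      linarith
    linarith
  linarith

theorem Vf_le {n l : ℕ} (hl : l ≤ Ln n) (a : ℕ → ℝ) :
    ∑ θ ∈ range (Rn n + 2), (wt n l θ * Vf n a θ) ^ 2 ≤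
      49 * ∑ θ ∈ range (Rn n + 2), (wt n l θ * a θ) ^ 2 := by
  have h1 := cv1_pert hl a (Vf n a)
    (fun j => (if j = 0 then 0 else mq n (j - 1) a) - mq n j a) (fun θ => rfl)
  have h2 := sum_mq_le (n := n) (l := l) a
  have h0 : 0 ≤ ∑ j ∈ range (Jn n + 2), omg n l j ^ 2 * mq n j a ^ 2 :=
    Finset.sum_nonneg fun j _ => mul_nonneg (sq_nonneg _) (sq_nonneg _)
  have h3 : ∑ j ∈ range (Jn n + 2),
      omg n l j ^ 2 * ((if j = 0 then 0 else mq n (j - 1) a) - mq n j a) ^ 2 ≤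
      10 * ∑ j ∈ range (Jn n + 2), omg n l j ^ 2 * mq n j a ^ 2 := by
    have h4 : ∀ j ∈ range (Jn n + 2),
        omg n l j ^ 2 * ((if j = 0 then 0 else mq n (j - 1) a) - mq n j a) ^ 2 ≤
        2 * (omg n l j ^ 2 * (if j = 0 then 0 else mq n (j - 1) a) ^ 2) +
          2 * (omg n l j ^ 2 * mq n j a ^ 2) := by
      intro j _
      nlinarith [mul_nonneg (sq_nonneg (omg n l j))
        (sq_nonneg ((if j = 0 then 0 else mq n (j - 1) a) + mq n j a))]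
    refine (Finset.sum_le_sum h4).trans ?_
    rw [Finset.sum_add_distrib, ← Finset.mul_sum, ← Finset.mul_sum]
    have h7 : ∑ j ∈ range (Jn n + 2), omg n l j ^ 2 * (if j = 0 then 0 else mq n (j - 1) a) ^ 2 ≤
        4 * ∑ j ∈ range (Jn n + 2), omg n l j ^ 2 * mq n j a ^ 2 := by
      have e1 := Finset.sum_range_succ'
        (fun j => omg n l j ^ 2 * (if j = 0 then 0 else mq n (j - 1) a) ^ 2) (Jn n + 1)
      have e2 := Finset.sum_range_succ (fun j => omg n l j ^ 2 * mq n j a ^ 2) (Jn n + 1)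
      have e3 : ∑ j ∈ range (Jn n + 1),
          omg n l (j + 1) ^ 2 * (if j + 1 = 0 then 0 else mq n (j + 1 - 1) a) ^ 2 ≤
          4 * ∑ j ∈ range (Jn n + 1), omg n l j ^ 2 * mq n j a ^ 2 := by
        rw [Finset.mul_sum]
        refine Finset.sum_le_sum fun j _ => ?_
        rw [if_neg (Nat.succ_ne_zero j), Nat.add_sub_cancel]
        have h5 : omg n l (j + 1) ^ 2 ≤ (2 * omg n l j) ^ 2 :=
          pow_le_pow_left₀ (cv1_omg_nonneg n l (j + 1)) (cv1_omg_le_two n l j) 2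
        have h6 := mul_le_mul_of_nonneg_right h5 (sq_nonneg (mq n j a))
        nlinarith
      have e4 : 0 ≤ omg n l (Jn n + 1) ^ 2 * mq n (Jn n + 1) a ^ 2 :=
        mul_nonneg (sq_nonneg _) (sq_nonneg _)
      have e5 : Jn n + 2 = Jn n + 1 + 1 := rfl
      rw [e5, e1, e2]
      simp only [if_true]
      have e6 : omg n l 0 ^ 2 * (0 : ℝ) ^ 2 = 0 := by ring
      rw [e6]
      linarith
    linarith
  linarith

end Pool.Agent.UBN
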