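import Pool.Agent.UBN.Cl

/-!
# Algebra of the conveyor on one row

`mq_Uf`: for `θ` of level `j`: `Uf n a θ = a θ + kap θ (m (j+1) - m j)`, so `mq j (Uf a) = m j + (∑ kap^2) (m (j+1) - m j) = m (j+1)` (`sum_kap`).
`mq_Vf`: the same.  `Vf_Uf`: `θ` of level `j` : `Uf a θ + kap θ ([j > 0] mq (j-1) (Uf a) - mq j (Uf a)) = a θ + kap θ (m (j+1) - m j) +
kap θ ([j > 0] m j - m (j+1))`; this is `a θ` if `j > 0`; if `j = 0` then `θ = 0`, `m 0 = a 0 = 0`.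
`Uf_Vf`: `θ` of level `j ≤ J`: `mq (j+1) (Vf a) = m j` (as `j + 1 ≤ J + 1`); for `j = J + 1`: `θ = R + 1`, `mq (J+2) = 0` (empty), `mq (J+1) (Vf a) = m J`,
so the value is `a θ + (m J - m (J+1)) + (0 - m J) = a (R+1) - m (J+1) = 0 = a (R+1)`.
`Uf_last`: `a (R+1) + (0 - m (J+1)) = 0`; `Vf_zero`: `a 0 + (0 - m 0) = 0`.
-/

namespace Pool.Agent.UBN

open Finset

private theorem cv2_mq_zero (n : ℕ) (a : ℕ → ℝ) : mq n 0 a = a 0 := by
  unfold mq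
  rw [levS_zero, Finset.sum_singleton]
  unfold kap
  rw [if_pos (Or.inl rfl), one_mul]

private theorem cv2_mq_last (n : ℕ) (a : ℕ → ℝ) : mq n (Jn n + 1) a = a (Rn n + 1) := by
  unfold mq
  rw [levS_last, Finset.sum_singleton]
  unfold kap
  rw [if_pos (Or.inr rfl), one_mul]

private theorem cv2_mq_top (n : ℕ) (a : ℕ → ℝ) : mq n (Jn n + 1 + 1) a = 0 := by
  unfold mq
  have h : levS n (Jn n + 1 + 1) = ∅ := levS_top n
  rw [h, Finset.sum_empty]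

private theorem cv2_mq_congr {n j : ℕ} {a a' : ℕ → ℝ} (h : ∀ θ < Rn n + 2, a θ = a' θ) :
    mq n j a = mq n j a' := by
  unfold mq
  refine Finset.sum_congr rfl fun θ hθ => ?_
  rw [h θ (mem_levS.1 hθ).1]

private theorem cv2_mq_add {n j : ℕ} (hj : j ≤ Jn n + 1) (a : ℕ → ℝ) (c : ℝ) (b : ℕ → ℝ)
    (hb : ∀ θ ∈ levS n j, b θ = a θ + kap n θ * c) : mq n j b = mq n j a + c := by
  unfold mq
  have h1 : ∀ θ ∈ levS n j, kap n θ * b θ = kap n θ * a θ + kap n θ ^ 2 * c := by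
    intro θ hθ
    rw [hb θ hθ]
    ring
  rw [Finset.sum_congr rfl h1, Finset.sum_add_distrib, ← Finset.sum_mul, sum_kap hj, one_mul]

theorem mq_Uf {n j : ℕ} (hj : j ≤ Jn n + 1) (a : ℕ → ℝ) : mq n j (Uf n a) = mq n (j + 1) a := by
  rw [cv2_mq_add hj a (mq n (j + 1) a - mq n j a) (Uf n a)]
  · ring
  · intro θ hθ
    unfold Uf
    rw [(mem_levS.1 hθ).2]

theorem mq_Vf {n j : ℕ} (hj : j ≤ Jn n + 1) (a : ℕ → ℝ) :
    mq n j (Vf n a) = if j = 0 then 0 else mq n (j - 1) a := by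
  rw [cv2_mq_add hj a ((if j = 0 then 0 else mq n (j - 1) a) - mq n j a) (Vf n a)]
  · ring
  · intro θ hθ
    unfold Vf
    rw [(mem_levS.1 hθ).2]

theorem Vf_Uf {n : ℕ} {a : ℕ → ℝ} (h : a 0 = 0) {θ : ℕ} (hθ : θ < Rn n + 2) :
    Vf n (Uf n a) θ = a θ := by
  have hle := lev_le_top hθ
  unfold Vf
  rw [mq_Uf hle a]
  by_cases h0 : lev n θ = 0
  · rw [if_pos h0]
    have hθ0 : θ = 0 := lev_eq_zero.1 h0
    unfold Uf
    rw [h0]
    have e : mq n 0 a = 0 := by rw [cv2_mq_zero, h]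
    rw [e]
    ring
  · rw [if_neg h0]
    have e : mq n (lev n θ - 1) (Uf n a) = mq n (lev n θ) a := by
      rw [mq_Uf (by omega) a]
      congr 1
      omega
    rw [e]
    unfold Uf
    ring

theorem Uf_Vf {n : ℕ} {a : ℕ → ℝ} (h : a (Rn n + 1) = 0) {θ : ℕ} (hθ : θ < Rn n + 2) :
    Uf n (Vf n a) θ = a θ := by
  have hle := lev_le_top hθ
  unfold Uf
  rw [mq_Vf hle a]
  by_cases h1 : lev n θ = Jn n + 1
  · have hθ1 : θ = Rn n + 1 := (lev_eq_top hθ).1 h1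
    rw [h1, cv2_mq_top]
    unfold Vf
    rw [h1, cv2_mq_last, h]
    have e : a θ = 0 := by rw [hθ1, h]
    rw [e]
    ring
  · have h2 : mq n (lev n θ + 1) (Vf n a) = mq n (lev n θ) a := by
      rw [mq_Vf (by omega) a, if_neg (by omega)]
      congr 1
    rw [h2]
    unfold Vf
    ring

theorem Uf_last (n : ℕ) (a : ℕ → ℝ) : Uf n a (Rn n + 1) = 0 := by
  have h1 : lev n (Rn n + 1) = Jn n + 1 := (lev_eq_top (by omega)).2 rfl
  unfold Uf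
  rw [h1, cv2_mq_top, cv2_mq_last]
  unfold kap
  rw [if_pos (Or.inr rfl)]
  ring

theorem Vf_zero (n : ℕ) (a : ℕ → ℝ) : Vf n a 0 = 0 := by
  have h1 : lev n 0 = 0 := lev_eq_zero.2 rfl
  unfold Vf
  rw [h1, if_pos rfl, cv2_mq_zero]
  unfold kap
  rw [if_pos (Or.inl rfl)]
  ring

/-- `Uf` and `Vf` only depend on the values below `Rn + 2` -/
theorem Uf_congr {n : ℕ} {a a' : ℕ → ℝ} (h : ∀ θ < Rn n + 2, a θ = a' θ) {θ : ℕ}
    (hθ : θ < Rn n + 2) : Uf n a θ = Uf n a' θ := by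
  unfold Uf
  rw [h θ hθ, cv2_mq_congr h, cv2_mq_congr (j := lev n θ) h]

theorem Vf_congr {n : ℕ} {a a' : ℕ → ℝ} (h : ∀ θ < Rn n + 2, a θ = a' θ) {θ : ℕ}
    (hθ : θ < Rn n + 2) : Vf n a θ = Vf n a' θ := by
  unfold Vf
  rw [h θ hθ, cv2_mq_congr (j := lev n θ - 1) h, cv2_mq_congr (j := lev n θ) h]

end Pool.Agent.UBN
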