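import Pool.Agent.UBN.Cm
import Pool.Agent.UBN.Cv1
import Pool.Agent.UBN.Cv2
import Pool.Agent.UBN.Wn

/-!
# The conveyor

`U` is the row operator (`exists_rowOp`) with
`A n θ θ' = (if θ = θ' then 1 else 0) + kap n θ * kap n θ' * ((if lev n θ' = lev n θ + 1 then 1 else 0) - (if lev n θ' = lev n θ then 1 else 0))`,
so `cf (U x) k θ = Uf k.1 (cf x k) θ` for coordinates `(k, θ)`; similarly `V` and `Vf`.
Norm: `domO`, i.e. `Nw n (rres rowO T (U x)) ≤ 7 * Nw n (rres rowO T x)`: `rres rowO T (U x) = U (rres rowO T x)` (`cf_ext`, `cf_rres`,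
`Uf` is linear in `a` or `Uf_congr` with `0`), and `Nw n (U x) ≤ 7 Nw n x`: `Nw_le'`, for `l, F`: `rn l (U x) k ≤ 7 rn l x k` (`rn_eq`, `Uf_le`,
`49 = 7^2`; if `k` is not a row, `¬ k.2 < rowsN k.1`, then `rn = 0`), then `le_Nw`.
Supports: `Uf_last`, `Vf_zero`; inverses: `Vf_Uf`, `Uf_Vf` with `cf_ext` (`x` supported in `ZB'` iff `cf x k 0 = 0` for all `k`).
-/

namespace Pool.Agent.UBN

open Finset Pool.Agent.UUB

private theorem cv3_mq (n j : ℕ) (a : ℕ → ℝ) :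
    mq n j a = ∑ θ ∈ range (Rn n + 2), kap n θ * (if lev n θ = j then (1 : ℝ) else 0) * a θ := by
  unfold mq levS
  rw [Finset.sum_filter]
  refine Finset.sum_congr rfl fun θ _ => ?_
  split_ifs <;> ring

private theorem cv3_matU (n : ℕ) (a : ℕ → ℝ) {θ : ℕ} (hθ : θ < Rn n + 2) :
    ∑ θ' ∈ range (Rn n + 2), ((if θ = θ' then (1 : ℝ) else 0) + kap n θ * kap n θ' *
      ((if lev n θ' = lev n θ + 1 then (1 : ℝ) else 0) -
        (if lev n θ' = lev n θ then (1 : ℝ) else 0))) * a θ' = Uf n a θ := by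
  unfold Uf
  rw [cv3_mq, cv3_mq, ← Finset.sum_sub_distrib, Finset.mul_sum]
  have e : a θ = ∑ θ' ∈ range (Rn n + 2), (if θ = θ' then (1 : ℝ) else 0) * a θ' := by
    simp only [ite_mul, one_mul, zero_mul, Finset.sum_ite_eq, Finset.mem_range, hθ, if_true]
  rw [e, ← Finset.sum_add_distrib]
  refine Finset.sum_congr rfl fun θ' _ => ?_
  ring

private theorem cv3_matV (n : ℕ) (a : ℕ → ℝ) {θ : ℕ} (hθ : θ < Rn n + 2) :
    ∑ θ' ∈ range (Rn n + 2), ((if θ = θ' then (1 : ℝ) else 0) + kap n θ * kap n θ' *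
      ((if lev n θ' + 1 = lev n θ then (1 : ℝ) else 0) -
        (if lev n θ' = lev n θ then (1 : ℝ) else 0))) * a θ' = Vf n a θ := by
  unfold Vf
  have e1 : (if lev n θ = 0 then 0 else mq n (lev n θ - 1) a) =
      ∑ θ' ∈ range (Rn n + 2), kap n θ' * (if lev n θ' + 1 = lev n θ then (1 : ℝ) else 0) * a θ' := by
    by_cases h : lev n θ = 0
    · rw [if_pos h]
      symm
      refine Finset.sum_eq_zero fun θ' _ => ?_
      rw [if_neg (by omega)]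
      ring
    · rw [if_neg h, cv3_mq]
      refine Finset.sum_congr rfl fun θ' _ => ?_
      have e2 : (lev n θ' = lev n θ - 1) ↔ (lev n θ' + 1 = lev n θ) := by omega
      by_cases h2 : lev n θ' + 1 = lev n θ
      · rw [if_pos h2, if_pos (e2.2 h2)]
      · rw [if_neg h2, if_neg (fun h3 => h2 (e2.1 h3))]
  rw [e1, cv3_mq, ← Finset.sum_sub_distrib, Finset.mul_sum]
  have e : a θ = ∑ θ' ∈ range (Rn n + 2), (if θ = θ' then (1 : ℝ) else 0) * a θ' := by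
    simp only [ite_mul, one_mul, zero_mul, Finset.sum_ite_eq, Finset.mem_range, hθ, if_true]
  rw [e, ← Finset.sum_add_distrib]
  refine Finset.sum_congr rfl fun θ' _ => ?_
  ring

private theorem cv3_rn_le {G : ℕ → (ℕ → ℝ) → ℕ → ℝ}
    (hG : ∀ (n l : ℕ), l ≤ Ln n → ∀ a : ℕ → ℝ,
      ∑ θ ∈ range (Rn n + 2), (wt n l θ * G n a θ) ^ 2 ≤
        49 * ∑ θ ∈ range (Rn n + 2), (wt n l θ * a θ) ^ 2)
    {T : (Om →₀ ℝ) →ₗ[ℝ] (Om →₀ ℝ)}
    (hT : ∀ (x : Om →₀ ℝ) (k : Row) (θ : ℕ), k.2 < rowsN k.1 → θ < Rn k.1 + 2 →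
      cf (T x) k θ = G k.1 (cf x k) θ) (x : Om →₀ ℝ) {l : ℕ} {k : Row} (hl : l ≤ Ln k.1) :
    rn l (T x) k ≤ 7 * rn l x k := by
  by_cases hk : k.2 < rowsN k.1
  · rw [rn_eq, rn_eq]
    have e1 : ∑ θ ∈ range (Rn k.1 + 2), (wt k.1 l θ * cf (T x) k θ) ^ 2 =
        ∑ θ ∈ range (Rn k.1 + 2), (wt k.1 l θ * G k.1 (cf x k) θ) ^ 2 := by
      refine Finset.sum_congr rfl fun θ hθ => ?_
      rw [hT x k θ hk (Finset.mem_range.1 hθ)]
    rw [e1]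
    have h1 := hG k.1 l hl (cf x k)
    have h2 : (7 : ℝ) * Real.sqrt (∑ θ ∈ range (Rn k.1 + 2), (wt k.1 l θ * cf x k θ) ^ 2) =
        Real.sqrt (49 * ∑ θ ∈ range (Rn k.1 + 2), (wt k.1 l θ * cf x k θ) ^ 2) := by
      rw [Real.sqrt_mul (by norm_num : (0 : ℝ) ≤ 49)]
      have h3 : Real.sqrt 49 = 7 := by
        rw [show (49 : ℝ) = 7 ^ 2 by norm_num]
        exact Real.sqrt_sq (by norm_num)
      rw [h3]
    rw [h2]
    exact Real.sqrt_le_sqrt h1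
  · have e1 : ∀ y : Om →₀ ℝ, rn l y k = 0 := by
      intro y
      rw [rn_eq]
      have e2 : ∑ θ ∈ range (Rn k.1 + 2), (wt k.1 l θ * cf y k θ) ^ 2 = 0 := by
        refine Finset.sum_eq_zero fun θ _ => ?_
        rw [cf_invalid y (fun h => hk h.1)]
        ring
      rw [e2, Real.sqrt_zero]
    rw [e1, e1, mul_zero]

private theorem cv3_norm {G : ℕ → (ℕ → ℝ) → ℕ → ℝ}
    (hG : ∀ (n l : ℕ), l ≤ Ln n → ∀ a : ℕ → ℝ,
      ∑ θ ∈ range (Rn n + 2), (wt n l θ * G n a θ) ^ 2 ≤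
        49 * ∑ θ ∈ range (Rn n + 2), (wt n l θ * a θ) ^ 2)
    {T : (Om →₀ ℝ) →ₗ[ℝ] (Om →₀ ℝ)}
    (hT : ∀ (x : Om →₀ ℝ) (k : Row) (θ : ℕ), k.2 < rowsN k.1 → θ < Rn k.1 + 2 →
      cf (T x) k θ = G k.1 (cf x k) θ) (x : Om →₀ ℝ) : nrO (T x) ≤ 7 * nrO x := by
  refine domO (by norm_num) fun n A => ?_
  refine Nw_le' fun l hl F hF hc => ?_
  have h1 : ∑ k ∈ F, rn l (rres rowO A (T x)) k ≤ ∑ k ∈ F, 7 * rn l (rres rowO A x) k := by
    refine Finset.sum_le_sum fun k hk => ?_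
    by_cases hA : k ∈ A
    · rw [rn_rres_mem l _ hA, rn_rres_mem l _ hA]
      exact cv3_rn_le hG hT x (by rw [hF k hk]; exact hl)
    · rw [rn_rres_notMem l _ hA, rn_rres_notMem l _ hA, mul_zero]
  have h2 := le_Nw hl hF hc (rres rowO A x)
  have h3 : (0 : ℝ) ≤ 1 / (Ml n l : ℝ) := by positivity
  calc (1 / (Ml n l : ℝ)) * ∑ k ∈ F, rn l (rres rowO A (T x)) k
      ≤ (1 / (Ml n l : ℝ)) * ∑ k ∈ F, 7 * rn l (rres rowO A x) k :=
        mul_le_mul_of_nonneg_left h1 h3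
    _ = 7 * ((1 / (Ml n l : ℝ)) * ∑ k ∈ F, rn l (rres rowO A x) k) := by
        rw [← Finset.mul_sum]
        ring
    _ ≤ 7 * Nw n (rres rowO A x) := mul_le_mul_of_nonneg_left h2 (by norm_num)

theorem conveyor : ∃ U V : (Om →₀ ℝ) →ₗ[ℝ] (Om →₀ ℝ),
    (∀ x, nrO (U x) ≤ 7 * nrO x) ∧ (∀ x, nrO (V x) ≤ 7 * nrO x) ∧
    (∀ x ω, U x ω ≠ 0 → ω ∈ ZB) ∧ (∀ x ω, V x ω ≠ 0 → ω ∈ ZB') ∧
    (∀ x : Om →₀ ℝ, (∀ ω, x ω ≠ 0 → ω ∈ ZB') → V (U x) = x) ∧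
    (∀ x : Om →₀ ℝ, (∀ ω, x ω ≠ 0 → ω ∈ ZB) → U (V x) = x) := by
  obtain ⟨U, hU0⟩ := exists_rowOp (fun n θ θ' => (if θ = θ' then (1 : ℝ) else 0) +
    kap n θ * kap n θ' * ((if lev n θ' = lev n θ + 1 then (1 : ℝ) else 0) -
      (if lev n θ' = lev n θ then (1 : ℝ) else 0)))
  obtain ⟨V, hV0⟩ := exists_rowOp (fun n θ θ' => (if θ = θ' then (1 : ℝ) else 0) +
    kap n θ * kap n θ' * ((if lev n θ' + 1 = lev n θ then (1 : ℝ) else 0) -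
      (if lev n θ' = lev n θ then (1 : ℝ) else 0)))
  have hU : ∀ (x : Om →₀ ℝ) (k : Row) (θ : ℕ), k.2 < rowsN k.1 → θ < Rn k.1 + 2 →
      cf (U x) k θ = Uf k.1 (cf x k) θ := by
    intro x k θ hk hθ
    rw [hU0 x k θ hk hθ]
    exact cv3_matU k.1 (cf x k) hθ
  have hV : ∀ (x : Om →₀ ℝ) (k : Row) (θ : ℕ), k.2 < rowsN k.1 → θ < Rn k.1 + 2 →
      cf (V x) k θ = Vf k.1 (cf x k) θ := by
    intro x k θ hk hθ
    rw [hV0 x k θ hk hθ]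
    exact cv3_matV k.1 (cf x k) hθ
  refine ⟨U, V, cv3_norm (fun n l hl a => Uf_le hl a) hU, cv3_norm (fun n l hl a => Vf_le hl a) hV,
    ?_, ?_, ?_, ?_⟩
  · intro x ω hω
    by_contra hc
    apply hω
    have h1 : ¬ fb ω ≤ Rn ω.1.1 := hc
    have h2 : fb ω < Rn ω.1.1 + 2 := ω.2.2
    have h3 : fb ω = Rn ω.1.1 + 1 := by omega
    rw [cf_apply, hU x (rowO ω) (fb ω) ω.2.1 ω.2.2, h3]
    exact Uf_last _ _
  · intro x ω hω
    by_contra hc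
    apply hω
    have h1 : ¬ 1 ≤ fb ω := hc
    have h3 : fb ω = 0 := by omega
    rw [cf_apply, hV x (rowO ω) (fb ω) ω.2.1 ω.2.2, h3]
    exact Vf_zero _ _
  · intro x hx
    refine cf_ext fun k θ hk hθ => ?_
    rw [hV (U x) k θ hk hθ]
    have h1 : cf x k 0 = 0 := by
      have hv : k.2 < rowsN k.1 ∧ 0 < Rn k.1 + 2 := ⟨hk, by omega⟩
      rw [cf_valid x hv]
      by_contra hc
      have h2 : 1 ≤ 0 := hx _ hc
      omega
    rw [Vf_congr (fun θ' hθ' => hU x k θ' hk hθ') hθ]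
    exact Vf_Uf h1 hθ
  · intro x hx
    refine cf_ext fun k θ hk hθ => ?_
    rw [hU (V x) k θ hk hθ]
    have h1 : cf x k (Rn k.1 + 1) = 0 := by
      have hv : k.2 < rowsN k.1 ∧ Rn k.1 + 1 < Rn k.1 + 2 := ⟨hk, by omega⟩
      rw [cf_valid x hv]
      by_contra hc
      have h2 : Rn k.1 + 1 ≤ Rn k.1 := hx _ hc
      omega
    rw [Uf_congr (fun θ' hθ' => hV x k θ' hk hθ') hθ]
    exact Uf_Vf h1 hθ

end Pool.Agent.UBN
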