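import Pool.Agent.UBN.Defs4

/-!
# Project UBN: definitions for Part III-B (conveyor, second basis, non-equivalence)

`z_j = ∑_{lev θ = j} kap θ e_θ` (`0 ≤ j ≤ Jn + 1`) are orthonormal in every row.  The conveyor `U` maps `z_j` to `z_{j-1}`
(`z_0` to `0`) and is the identity on the complement; `V` maps `z_j` to `z_{j+1}` (`z_{J+1}` to `0`).
-/

namespace Pool.Agent.UBN

open Finset Pool.Agent.UUB

/-- The coordinate of `x` at the element `θ` of the row `k` (and `0` if there is no such coordinate). -/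
noncomputable def cf (x : Om →₀ ℝ) (k : Row) (θ : ℕ) : ℝ :=
  if h : k.2 < rowsN k.1 ∧ θ < Rn k.1 + 2 then x (⟨(k.1, k.2, θ), h⟩ : Om) else 0

/-- The coefficients of the vectors `z_j`. -/
noncomputable def kap (n θ : ℕ) : ℝ := if θ = 0 ∨ θ = Rn n + 1 then 1 else 1 / (Dn n : ℝ)

/-- The elements of level `j` of the fibre of the window `n`. -/
def levS (n j : ℕ) : Finset ℕ := (range (Rn n + 2)).filter (fun θ => lev n θ = j)

/-- A lower bound for the weights of the level `j` at the label `l`. -/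
noncomputable def omg (n l j : ℕ) : ℝ := if l = Ln n then 2 ^ j else 1

/-- The scalar product of `a` with `z_j`. -/
noncomputable def mq (n j : ℕ) (a : ℕ → ℝ) : ℝ := ∑ θ ∈ levS n j, kap n θ * a θ

/-- The conveyor on one row. -/
noncomputable def Uf (n : ℕ) (a : ℕ → ℝ) (θ : ℕ) : ℝ :=
  a θ + kap n θ * (mq n (lev n θ + 1) a - mq n (lev n θ) a)

/-- The inverse conveyor on one row. -/
noncomputable def Vf (n : ℕ) (a : ℕ → ℝ) (θ : ℕ) : ℝ :=
  a θ + kap n θ * ((if lev n θ = 0 then 0 else mq n (lev n θ - 1) a) - mq n (lev n θ) a)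

/-- The coordinates of `E` and `G`. -/
def ZB : Set Om := {ω | fb ω ≤ Rn ω.1.1}

/-- The coordinates of `E` and `G'`. -/
def ZB' : Set Om := {ω | 1 ≤ fb ω}

/-- The family `F` represents the norm `nrO` on the band `A`, together with a Hilbert space. -/
structure Two {B : Type} [NormedAddCommGroup B] [NormedSpace ℝ B] (F : Om ⊕ (ℕ ⊕ ℕ) → B)
    (A : Set Om) (C : ℝ) : Prop where
  one_le : 1 ≤ C
  up : ∀ (x : Om →₀ ℝ) (h : (ℕ ⊕ ℕ) →₀ ℝ), (∀ ω, x ω ≠ 0 → ω ∈ A) →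
    ‖(x.sum fun ω c => c • F (Sum.inl ω)) + h.sum fun m c => c • F (Sum.inr m)‖ ≤
      C * max (nrO x) (l2 h)
  lo : ∀ (x : Om →₀ ℝ) (h : (ℕ ⊕ ℕ) →₀ ℝ), (∀ ω, x ω ≠ 0 → ω ∈ A) →
    max (nrO x) (l2 h) ≤
      C * ‖(x.sum fun ω c => c • F (Sum.inl ω)) + h.sum fun m c => c • F (Sum.inr m)‖
  dense : (Submodule.span ℝ (F '' (Sum.inl '' A ∪ Set.range Sum.inr))).topologicalClosure = ⊤

/-- The members of the family `F` over the band `A` and the Hilbert part. -/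
def fam {B : Type} (F : Om ⊕ (ℕ ⊕ ℕ) → B) (A : Set Om) : A ⊕ (ℕ ⊕ ℕ) → B :=
  fun s => F (Sum.map Subtype.val id s)

open Classical in
/-- The natural family in the product of a space over `EB` and a space over `GB`. -/
noncomputable def Fz {X Y : Type} [NormedAddCommGroup X] [NormedSpace ℝ X] [NormedAddCommGroup Y]
    [NormedSpace ℝ Y] (eX : UnconditionalSchauderBasis (EB ⊕ ℕ) ℝ X)
    (eY : UnconditionalSchauderBasis (GB ⊕ ℕ) ℝ Y) : Om ⊕ (ℕ ⊕ ℕ) → X × Y :=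
  Sum.elim (fun ω => (if h : ω ∈ EB then eX (Sum.inl ⟨ω, h⟩) else 0,
      if h : ω ∈ GB then eY (Sum.inl ⟨ω, h⟩) else 0))
    (Sum.elim (fun m => (eX (Sum.inr m), 0)) (fun m => (0, eY (Sum.inr m))))

/-- `σ` is an equivalence between the two bases (only the data used in the proof). -/
structure Sgm (σ : ZB → ZB' ⊕ (ℕ ⊕ ℕ)) (C : ℝ) : Prop where
  inj : Function.Injective σ
  pos : 0 < C
  h1 : ∀ (ι : Type) (A : Finset ι) (f : ι → ZB) (g : ι → ZB') (t : ι → ℝ), Set.InjOn f A →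
    (∀ i ∈ A, σ (f i) = Sum.inl (g i)) →
    nrO (∑ i ∈ A, Finsupp.single (f i).1 (t i)) ≤ C * nrO (∑ i ∈ A, Finsupp.single (g i).1 (t i)) ∧
    nrO (∑ i ∈ A, Finsupp.single (g i).1 (t i)) ≤ C * nrO (∑ i ∈ A, Finsupp.single (f i).1 (t i))
  h2 : ∀ (ι : Type) (A : Finset ι) (f : ι → ZB) (m : ι → ℕ ⊕ ℕ) (t : ι → ℝ), Set.InjOn f A →
    (∀ i ∈ A, σ (f i) = Sum.inr (m i)) →
    nrO (∑ i ∈ A, Finsupp.single (f i).1 (t i)) ≤ C * Real.sqrt (∑ i ∈ A, t i ^ 2)

end Pool.Agent.UBN
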