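import Pool.Agent.UBN.Cb
import Pool.Agent.UBN.Defs5
import Pool.Agent.UBN.Wn

/-!
# A family representing the norm is an unconditional basis

For `S : Finset (A ⊕ (ℕ ⊕ ℕ))` and `c`: `∑ s ∈ S, c s • fam F A s = (x.sum …) + (h.sum …)` with `x = ∑ s ∈ S, single`-combination over the `inl ω`
(`x ω = c (inl ω)` if `inl ω ∈ S`, else `0`) and `h m = c (inr m)` if `inr m ∈ S`, else `0`.  `fam_norm` is `Two.up` and `Two.lo` in this form.
Multipliers: `nrO` and `l2` are monotone in the absolute values (`rigO.mono`), so `basis_of_dense` applies with the constant `C * C`; `fam ≠ 0` and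
semi-normalised: for one vector `max (nrO x) (l2 h) = 1` (`rigO.single`, `l2 (single ω 1) = 1`), so `1 ≤ C ‖f‖` and `‖f‖ ≤ C`.
Then `isUncBasis_of_schauder` (`Pool.Agent.UUB.CTS`).
-/

namespace Pool.Agent.UBN

open Finset Pool.Agent.UUB

variable {B : Type} [NormedAddCommGroup B] [NormedSpace ℝ B] {F : Om ⊕ (ℕ ⊕ ℕ) → B} {A : Set Om}
  {C : ℝ}

/-- the function on `Om` with the coefficients `c` -/
noncomputable def xpart {A : Set Om} (S : Finset (A ⊕ (ℕ ⊕ ℕ))) (c : A ⊕ (ℕ ⊕ ℕ) → ℝ) : Om →₀ ℝ :=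
  ∑ s ∈ S, Sum.elim (fun ω : A => Finsupp.single ω.1 (c s)) (fun _ => 0) s

/-- the square function of the coefficients on the Hilbert part -/
noncomputable def hpart {A : Set Om} (S : Finset (A ⊕ (ℕ ⊕ ℕ))) (c : A ⊕ (ℕ ⊕ ℕ) → ℝ) : ℝ :=
  Real.sqrt (∑ s ∈ S, Sum.elim (fun _ => 0) (fun _ => c s ^ 2) s)

/-- the function on the Hilbert part with the coefficients `c` -/
private noncomputable def hfun {A : Set Om} (S : Finset (A ⊕ (ℕ ⊕ ℕ))) (c : A ⊕ (ℕ ⊕ ℕ) → ℝ) :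
    (ℕ ⊕ ℕ) →₀ ℝ :=
  ∑ s ∈ S, Sum.elim (fun _ => 0) (fun m => Finsupp.single m (c s)) s

private theorem hfun_apply {A : Set Om} (S : Finset (A ⊕ (ℕ ⊕ ℕ))) (c : A ⊕ (ℕ ⊕ ℕ) → ℝ)
    (m : ℕ ⊕ ℕ) : hfun S c m = if m ∈ S.toRight then c (Sum.inr m) else 0 := by
  unfold hfun
  rw [← Finset.toLeft_disjSum_toRight (u := S), Finset.sum_disjSum]
  simp only [Sum.elim_inl, Sum.elim_inr, Finset.sum_const_zero, zero_add,
    Finset.toLeft_disjSum_toRight]
  rw [Finsupp.finsetSum_apply]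
  simp only [Finsupp.single_apply]
  rw [Finset.sum_ite_eq']

private theorem l2_hfun {A : Set Om} (S : Finset (A ⊕ (ℕ ⊕ ℕ))) (c : A ⊕ (ℕ ⊕ ℕ) → ℝ) :
    l2 (hfun S c) = hpart S c := by
  unfold l2 hpart
  congr 1
  have h1 : ∑ s ∈ S, Sum.elim (fun _ => (0 : ℝ)) (fun _ => c s ^ 2) s =
      ∑ m ∈ S.toRight, c (Sum.inr m) ^ 2 := by
    conv_lhs => rw [← Finset.toLeft_disjSum_toRight (u := S), Finset.sum_disjSum]
    simp only [Sum.elim_inl, Sum.elim_inr, Finset.sum_const_zero, zero_add]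
  rw [h1]
  have h2 : (hfun S c).support ⊆ S.toRight := by
    intro m hm
    by_contra hn
    rw [Finsupp.mem_support_iff, hfun_apply, if_neg hn] at hm
    exact hm rfl
  rw [Finset.sum_subset h2 (fun m _ hn => by
    rw [Finsupp.notMem_support_iff.1 hn]
    norm_num)]
  refine Finset.sum_congr rfl fun m hm => ?_
  rw [hfun_apply, if_pos hm]

private theorem xpart_supp {A : Set Om} (S : Finset (A ⊕ (ℕ ⊕ ℕ))) (c : A ⊕ (ℕ ⊕ ℕ) → ℝ) (ω : Om)
    (h : xpart S c ω ≠ 0) : ω ∈ A := by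
  by_contra hn
  refine h ?_
  unfold xpart
  rw [Finsupp.finsetSum_apply]
  refine Finset.sum_eq_zero fun s _ => ?_
  rcases s with ω' | m
  · have h1 : ω'.1 ≠ ω := fun h => hn (h ▸ ω'.2)
    simp [Finsupp.single_apply, h1]
  · simp

private theorem fam_sum {A : Set Om} (F : Om ⊕ (ℕ ⊕ ℕ) → B) (S : Finset (A ⊕ (ℕ ⊕ ℕ)))
    (c : A ⊕ (ℕ ⊕ ℕ) → ℝ) :
    ((xpart S c).sum fun ω c => c • F (Sum.inl ω)) +
      (hfun S c).sum (fun m c => c • F (Sum.inr m)) = ∑ s ∈ S, c s • fam F A s := by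
  have h1 : ((xpart S c).sum fun ω c => c • F (Sum.inl ω)) =
      Finsupp.linearCombination ℝ (fun ω => F (Sum.inl ω)) (xpart S c) := rfl
  have h2 : ((hfun S c).sum fun m c => c • F (Sum.inr m)) =
      Finsupp.linearCombination ℝ (fun m => F (Sum.inr m)) (hfun S c) := rfl
  rw [h1, h2]
  unfold xpart hfun
  rw [map_sum, map_sum, ← Finset.sum_add_distrib]
  refine Finset.sum_congr rfl fun s _ => ?_
  rcases s with ω | m
  · simp only [Sum.elim_inl, map_zero, add_zero, Finsupp.linearCombination_single, fam, Sum.map_inl]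
  · simp only [Sum.elim_inr, map_zero, zero_add, Finsupp.linearCombination_single, fam, Sum.map_inr,
      id]

theorem fam_norm (hF : Two F A C) (S : Finset (A ⊕ (ℕ ⊕ ℕ))) (c : A ⊕ (ℕ ⊕ ℕ) → ℝ) :
    ‖∑ s ∈ S, c s • fam F A s‖ ≤ C * max (nrO (xpart S c)) (hpart S c) ∧
    max (nrO (xpart S c)) (hpart S c) ≤ C * ‖∑ s ∈ S, c s • fam F A s‖ := by
  rw [← fam_sum F S c, ← l2_hfun S c]
  exact ⟨hF.up _ _ (xpart_supp S c), hF.lo _ _ (xpart_supp S c)⟩

private theorem l2_single {T : Type} (t : T) : l2 (Finsupp.single t (1 : ℝ)) = 1 := by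
  unfold l2
  rw [Finsupp.support_single_ne_zero _ one_ne_zero, Finset.sum_singleton, Finsupp.single_eq_same]
  norm_num

private theorem max_one {A : Set Om} (t : A ⊕ (ℕ ⊕ ℕ)) :
    max (nrO (xpart {t} fun _ => 1)) (hpart {t} fun _ => 1) = 1 := by
  rcases t with ω | m
  · have h1 : xpart {(Sum.inl ω : A ⊕ (ℕ ⊕ ℕ))} (fun _ => 1) = Finsupp.single ω.1 1 := by
      unfold xpart
      rw [Finset.sum_singleton, Sum.elim_inl]
    have h2 : hpart {(Sum.inl ω : A ⊕ (ℕ ⊕ ℕ))} (fun _ => 1) = 0 := by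
      unfold hpart
      rw [Finset.sum_singleton, Sum.elim_inl, Real.sqrt_zero]
    have h3 : nrO (Finsupp.single ω.1 (1 : ℝ)) = 1 := by
      rw [rigO.single (rowO ω.1) _ (fun ω' h => by
        by_contra hn
        refine h ?_
        rw [Finsupp.single_apply, if_neg]
        intro h4
        exact hn (h4 ▸ rfl)), l2_single]
    rw [h1, h2, h3]
    norm_num
  · have h1 : xpart {(Sum.inr m : A ⊕ (ℕ ⊕ ℕ))} (fun _ => 1) = 0 := by
      unfold xpart
      rw [Finset.sum_singleton, Sum.elim_inr]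
    have h2 : hpart {(Sum.inr m : A ⊕ (ℕ ⊕ ℕ))} (fun _ => 1) = 1 := by
      unfold hpart
      rw [Finset.sum_singleton, Sum.elim_inr]
      norm_num
    have h3 : nrO (0 : Om →₀ ℝ) = 0 := by
      rw [rigO.single (0, 0) _ (fun ω' h => absurd rfl h)]
      unfold l2
      simp
    rw [h1, h2, h3]
    norm_num

private theorem fam_bounds (hF : Two F A C) (t : A ⊕ (ℕ ⊕ ℕ)) :
    ‖fam F A t‖ ≤ C ∧ 1 ≤ C * ‖fam F A t‖ := by
  have h := fam_norm hF {t} (fun _ => 1)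
  rw [max_one, Finset.sum_singleton, one_smul, mul_one] at h
  exact h

private theorem xpart_mono {A : Set Om} (S : Finset (A ⊕ (ℕ ⊕ ℕ))) (c θ : A ⊕ (ℕ ⊕ ℕ) → ℝ)
    (hθ : ∀ t, |θ t| ≤ 1) (ω : Om) : |xpart S (fun t => θ t * c t) ω| ≤ |xpart S c ω| := by
  classical
  have h1 : xpart S (fun t => θ t * c t) ω =
      (if h : ω ∈ A then θ (Sum.inl ⟨ω, h⟩) else 0) * xpart S c ω := by
    unfold xpart
    rw [Finsupp.finsetSum_apply, Finsupp.finsetSum_apply, Finset.mul_sum]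
    refine Finset.sum_congr rfl fun s _ => ?_
    rcases s with ω' | m
    · rw [Sum.elim_inl, Sum.elim_inl, Finsupp.single_apply, Finsupp.single_apply]
      by_cases h : ω'.1 = ω
      · subst h
        rw [if_pos rfl, if_pos rfl, dif_pos ω'.2]
      · rw [if_neg h, if_neg h, mul_zero]
    · rw [Sum.elim_inr, Sum.elim_inr, Finsupp.zero_apply, mul_zero]
  rw [h1, abs_mul]
  refine mul_le_of_le_one_left (abs_nonneg _) ?_
  split_ifs with h
  · exact hθ _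
  · rw [abs_zero]
    exact zero_le_one

private theorem hpart_mono {A : Set Om} (S : Finset (A ⊕ (ℕ ⊕ ℕ))) (c θ : A ⊕ (ℕ ⊕ ℕ) → ℝ)
    (hθ : ∀ t, |θ t| ≤ 1) : hpart S (fun t => θ t * c t) ≤ hpart S c := by
  unfold hpart
  refine Real.sqrt_le_sqrt (Finset.sum_le_sum fun s _ => ?_)
  rcases s with ω' | m
  · exact le_rfl
  · rw [Sum.elim_inr, Sum.elim_inr]
    refine sq_le_sq.2 ?_
    rw [abs_mul]
    exact mul_le_of_le_one_left (abs_nonneg _) (hθ _)

private theorem fam_range (F : Om ⊕ (ℕ ⊕ ℕ) → B) (A : Set Om) :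
    Set.range (fam F A) = F '' (Sum.inl '' A ∪ Set.range Sum.inr) := by
  ext v
  constructor
  · rintro ⟨s, rfl⟩
    rcases s with ω | m
    · exact ⟨Sum.inl ω.1, Or.inl ⟨ω.1, ω.2, rfl⟩, rfl⟩
    · exact ⟨Sum.inr m, Or.inr ⟨m, rfl⟩, rfl⟩
  · rintro ⟨s, hs, rfl⟩
    rcases hs with ⟨ω, hω, rfl⟩ | ⟨m, rfl⟩
    · exact ⟨Sum.inl ⟨ω, hω⟩, rfl⟩
    · exact ⟨Sum.inr m, rfl⟩

theorem fam_basis [CompleteSpace B] (hF : Two F A C) :
    IsUncBasis ℝ (fam F A) ∧ SemiNormalized (fam F A) := by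
  have hC : 0 < C := lt_of_lt_of_le one_pos hF.one_le
  have hlow : ∀ t, 1 / C ≤ ‖fam F A t‖ := by
    intro t
    rw [div_le_iff₀ hC, mul_comm]
    exact (fam_bounds hF t).2
  have hne : ∀ t, fam F A t ≠ 0 := by
    intro t h0
    have h1 := hlow t
    rw [h0, norm_zero] at h1
    exact absurd h1 (not_le.2 (by positivity))
  have hmul : ∀ (S : Finset (A ⊕ (ℕ ⊕ ℕ))) (c θ : A ⊕ (ℕ ⊕ ℕ) → ℝ), (∀ t, |θ t| ≤ 1) →
      ‖∑ t ∈ S, (θ t * c t) • fam F A t‖ ≤ (C * C) * ‖∑ t ∈ S, c t • fam F A t‖ := by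
    intro S c θ hθ
    have h1 := (fam_norm hF S (fun t => θ t * c t)).1
    have h2 := (fam_norm hF S c).2
    have h3 : max (nrO (xpart S fun t => θ t * c t)) (hpart S fun t => θ t * c t) ≤
        max (nrO (xpart S c)) (hpart S c) :=
      max_le_max (rigO.mono _ _ (xpart_mono S c θ hθ)) (hpart_mono S c θ hθ)
    calc ‖∑ t ∈ S, (θ t * c t) • fam F A t‖
        ≤ C * max (nrO (xpart S fun t => θ t * c t)) (hpart S fun t => θ t * c t) := h1
      _ ≤ C * max (nrO (xpart S c)) (hpart S c) := mul_le_mul_of_nonneg_left h3 hC.le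
      _ ≤ C * (C * ‖∑ t ∈ S, c t • fam F A t‖) := mul_le_mul_of_nonneg_left h2 hC.le
      _ = (C * C) * ‖∑ t ∈ S, c t • fam F A t‖ := by ring
  obtain ⟨b, hb⟩ := basis_of_dense (fam F A) (by rw [fam_range]; exact hF.dense) hne (C * C) hmul
  refine ⟨?_, 1 / C, C, by positivity, fun t => ⟨hlow t, (fam_bounds hF t).1⟩⟩
  have h4 : (fun t => b t) = fam F A := funext hb
  rw [← h4]
  exact isUncBasis_of_schauder b

end Pool.Agent.UBN
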