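import Pool.Agent.UBN.Defs5
import Pool.Agent.UBN.Wn

/-!
# The natural family in the product of the spaces over `EB` and `GB`: norm

`X × Y` carries the maximum norm.  The first component of the vector is `∑_{ω ∈ EB} x ω • eX (inl ω) + ∑ m, h (inl m) • eX (inr m)`, of norm
`max (nrB EB (x.subtypeDomain _)) (l2 h₁)`, `h₁ m = h (inl m)` (`Amb.norm_eq`); the second one is the same with `GB` and `h₂ m = h (inr m)`.
`nrB A (x.subtypeDomain A) = nrO (res A x)` (`mapDomain` of the restriction).  `nrO (res A x) ≤ nrO x` (`rigO.mono`), `l2 h₁ ≤ l2 h`: upper bound.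
Lower bound: `x = res EB x + res GB x` on `ZB` (`fb ω ≤ Rn`: either `fb ω = 0` or `1 ≤ fb ω ≤ Rn`), `nrO x ≤ nrO (res EB x) + nrO (res GB x)`,
`l2 h ≤ l2 h₁ + l2 h₂`.
-/

namespace Pool.Agent.UBN

open Finset Pool.Agent.UUB

variable {X Y : Type} [NormedAddCommGroup X] [NormedSpace ℝ X] [NormedAddCommGroup Y]
  [NormedSpace ℝ Y] {eX : UnconditionalSchauderBasis (EB ⊕ ℕ) ℝ X}
  {eY : UnconditionalSchauderBasis (GB ⊕ ℕ) ℝ Y}

private noncomputable def cz1L (h : (ℕ ⊕ ℕ) →₀ ℝ) : ℕ →₀ ℝ :=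
  h.comapDomain Sum.inl Sum.inl_injective.injOn

private noncomputable def cz1R (h : (ℕ ⊕ ℕ) →₀ ℝ) : ℕ →₀ ℝ :=
  h.comapDomain Sum.inr Sum.inr_injective.injOn

private theorem cz1L_apply (h : (ℕ ⊕ ℕ) →₀ ℝ) (m : ℕ) : cz1L h m = h (Sum.inl m) := rfl

private theorem cz1R_apply (h : (ℕ ⊕ ℕ) →₀ ℝ) (m : ℕ) : cz1R h m = h (Sum.inr m) := rfl

private theorem cz1_support (h : (ℕ ⊕ ℕ) →₀ ℝ) :
    h.support = (cz1L h).support.disjSum (cz1R h).support := by
  ext m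
  rcases m with m | m
  · rw [Finset.inl_mem_disjSum, Finsupp.mem_support_iff, Finsupp.mem_support_iff, cz1L_apply]
  · rw [Finset.inr_mem_disjSum, Finsupp.mem_support_iff, Finsupp.mem_support_iff, cz1R_apply]

private theorem cz1_sum {M : Type} [AddCommMonoid M] (h : (ℕ ⊕ ℕ) →₀ ℝ) (g : ℕ ⊕ ℕ → M) :
    ∑ m ∈ h.support, g m =
      ∑ m ∈ (cz1L h).support, g (Sum.inl m) + ∑ m ∈ (cz1R h).support, g (Sum.inr m) := by
  rw [cz1_support, Finset.sum_disjSum]

private theorem cz1_l2 (h : (ℕ ⊕ ℕ) →₀ ℝ) :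
    l2 h ^ 2 = l2 (cz1L h) ^ 2 + l2 (cz1R h) ^ 2 := by
  unfold l2
  rw [Real.sq_sqrt (Finset.sum_nonneg fun _ _ => sq_nonneg _),
    Real.sq_sqrt (Finset.sum_nonneg fun _ _ => sq_nonneg _),
    Real.sq_sqrt (Finset.sum_nonneg fun _ _ => sq_nonneg _), cz1_sum]
  rfl

private theorem cz1_l2_nonneg {α : Type} (x : α →₀ ℝ) : 0 ≤ l2 x := Real.sqrt_nonneg _

open Classical in
private theorem cz1_sub {A : Set Om} {B : Type} [AddCommGroup B] [Module ℝ B] (x : Om →₀ ℝ)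
    (f : A → B) :
    ∑ ω ∈ x.support, x ω • (if h : ω ∈ A then f ⟨ω, h⟩ else 0) =
      (x.subtypeDomain (· ∈ A)).sum fun ω c => c • f ω := by
  rw [Finsupp.sum, Finsupp.support_subtypeDomain]
  have h1 : ∑ ω ∈ x.support.subtype (· ∈ A), (x.subtypeDomain (· ∈ A)) ω • f ω =
      ∑ ω ∈ x.support.subtype (· ∈ A),
        (fun ω : Om => x ω • (if h : ω ∈ A then f ⟨ω, h⟩ else 0)) ω := by
    refine Finset.sum_congr rfl (fun ω _ => ?_)
    rw [Finsupp.subtypeDomain_apply]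
    beta_reduce
    rw [dif_pos ω.2]
  rw [h1]
  have h2 := Finset.sum_subtype_eq_sum_filter (s := x.support) (p := (· ∈ A))
    (fun ω : Om => x ω • (if h : ω ∈ A then f ⟨ω, h⟩ else (0 : B)))
  refine Eq.trans ?_ h2.symm
  rw [Finset.sum_filter]
  refine Finset.sum_congr rfl (fun ω _ => ?_)
  by_cases h : ω ∈ A
  · rw [if_pos h]
  · rw [if_neg h, dif_neg h, smul_zero]

private theorem cz1_nrB (A : Set Om) (x : Om →₀ ℝ) :
    nrB A (x.subtypeDomain (· ∈ A)) = nrO (res A x) := by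
  classical
  unfold nrB
  congr 1
  ext ω
  rw [res_apply]
  by_cases h : ω ∈ A
  · rw [if_pos h]
    have h1 := Finsupp.mapDomain_apply (Subtype.val_injective (p := fun ω => ω ∈ A))
      (x.subtypeDomain (· ∈ A)) ⟨ω, h⟩
    exact h1
  · rw [if_neg h]
    apply Finsupp.mapDomain_of_notMem_range
    rintro ⟨ω', rfl⟩
    exact h ω'.2

private theorem cz1_fst (hX : Amb (rowB EB) (nrB EB) eX) (x : Om →₀ ℝ) (h : (ℕ ⊕ ℕ) →₀ ℝ) :
    ‖((x.sum fun ω c => c • Fz eX eY (Sum.inl ω)) +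
      h.sum fun m c => c • Fz eX eY (Sum.inr m)).1‖ = max (nrO (res EB x)) (l2 (cz1L h)) := by
  classical
  rw [← cz1_nrB, ← hX.norm_eq]
  congr 1
  rw [Prod.fst_add, Finsupp.sum, Finsupp.sum, Prod.fst_sum, Prod.fst_sum, cz1_sum]
  congr 1
  · rw [← cz1_sub x (fun ω => eX (Sum.inl ω))]
    rfl
  · have h1 : ∑ m ∈ (cz1R h).support, (h (Sum.inr m) • Fz eX eY (Sum.inr (Sum.inr m))).1 = 0 := by
      refine Finset.sum_eq_zero (fun m _ => ?_)
      show h (Sum.inr m) • (0 : X) = 0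
      rw [smul_zero]
    rw [h1, add_zero]
    rfl

private theorem cz1_snd (hY : Amb (rowB GB) (nrB GB) eY) (x : Om →₀ ℝ) (h : (ℕ ⊕ ℕ) →₀ ℝ) :
    ‖((x.sum fun ω c => c • Fz eX eY (Sum.inl ω)) +
      h.sum fun m c => c • Fz eX eY (Sum.inr m)).2‖ = max (nrO (res GB x)) (l2 (cz1R h)) := by
  classical
  rw [← cz1_nrB, ← hY.norm_eq]
  congr 1
  rw [Prod.snd_add, Finsupp.sum, Finsupp.sum, Prod.snd_sum, Prod.snd_sum, cz1_sum]
  congr 1
  · rw [← cz1_sub x (fun ω => eY (Sum.inl ω))]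
    rfl
  · have h1 : ∑ m ∈ (cz1L h).support, (h (Sum.inl m) • Fz eX eY (Sum.inr (Sum.inl m))).2 = 0 := by
      refine Finset.sum_eq_zero (fun m _ => ?_)
      show h (Sum.inl m) • (0 : Y) = 0
      rw [smul_zero]
    rw [h1, zero_add]
    rfl

private theorem cz1_res_le (A : Set Om) (x : Om →₀ ℝ) : nrO (res A x) ≤ nrO x := by
  classical
  refine rigO.mono _ _ (fun ω => ?_)
  rw [res_apply]
  split_ifs
  · exact le_rfl
  · rw [abs_zero]; exact abs_nonneg _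

theorem Fz_up (hX : Amb (rowB EB) (nrB EB) eX) (hY : Amb (rowB GB) (nrB GB) eY) (x : Om →₀ ℝ)
    (h : (ℕ ⊕ ℕ) →₀ ℝ) :
    ‖(x.sum fun ω c => c • Fz eX eY (Sum.inl ω)) + h.sum fun m c => c • Fz eX eY (Sum.inr m)‖ ≤
      max (nrO x) (l2 h) := by
  rw [Prod.norm_def, cz1_fst hX, cz1_snd hY]
  have h0 := cz1_l2 h
  have h1 : l2 (cz1L h) ≤ l2 h := by
    apply le_of_sq_le_sq _ (cz1_l2_nonneg h)
    have := sq_nonneg (l2 (cz1R h))
    linarith
  have h2 : l2 (cz1R h) ≤ l2 h := by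
    apply le_of_sq_le_sq _ (cz1_l2_nonneg h)
    have := sq_nonneg (l2 (cz1L h))
    linarith
  exact max_le (max_le_max (cz1_res_le EB x) h1) (max_le_max (cz1_res_le GB x) h2)

theorem Fz_lo (hX : Amb (rowB EB) (nrB EB) eX) (hY : Amb (rowB GB) (nrB GB) eY) (x : Om →₀ ℝ)
    (h : (ℕ ⊕ ℕ) →₀ ℝ) (hx : ∀ ω, x ω ≠ 0 → ω ∈ ZB) :
    max (nrO x) (l2 h) ≤ 2 *
      ‖(x.sum fun ω c => c • Fz eX eY (Sum.inl ω)) + h.sum fun m c => c • Fz eX eY (Sum.inr m)‖ := by
  classical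
  rw [Prod.norm_def, cz1_fst hX, cz1_snd hY]
  set M := max (max (nrO (res EB x)) (l2 (cz1L h))) (max (nrO (res GB x)) (l2 (cz1R h))) with hM
  have m1 : nrO (res EB x) ≤ M := (le_max_left _ _).trans (le_max_left _ _)
  have m2 : l2 (cz1L h) ≤ M := (le_max_right _ _).trans (le_max_left _ _)
  have m3 : nrO (res GB x) ≤ M := (le_max_left _ _).trans (le_max_right _ _)
  have m4 : l2 (cz1R h) ≤ M := (le_max_right _ _).trans (le_max_right _ _)
  refine max_le ?_ ?_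
  · have h1 : x = res EB x + res GB x := by
      ext ω
      rw [Finsupp.add_apply, res_apply, res_apply]
      by_cases h0 : x ω = 0
      · rw [h0]; simp
      · have h2 : fb ω ≤ Rn ω.1.1 := hx ω h0
        by_cases h3 : fb ω = 0
        · have h4 : ω ∈ GB := h3
          have h5 : ω ∉ EB := by
            intro h6
            have h7 : 1 ≤ fb ω := h6.1
            omega
          rw [if_neg h5, if_pos h4, zero_add]
        · have h4 : ω ∉ GB := h3
          have h5 : ω ∈ EB := ⟨by omega, h2⟩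
          rw [if_pos h5, if_neg h4, add_zero]
    calc nrO x = nrO (res EB x + res GB x) := by rw [← h1]
      _ ≤ nrO (res EB x) + nrO (res GB x) := rigO.add_le _ _
      _ ≤ 2 * M := by linarith
  · have h0 := cz1_l2 h
    have h1 := cz1_l2_nonneg (cz1L h)
    have h2 := cz1_l2_nonneg (cz1R h)
    have h3 : l2 h ≤ l2 (cz1L h) + l2 (cz1R h) := by
      apply le_of_sq_le_sq _ (by linarith)
      nlinarith
    linarith

end Pool.Agent.UBN
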