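import Mathlib

/-!
# Project UBN (MP_eb6f89_an): definitions

Part I: a norm of Gowers-Maurey type on finitely supported functions.  The coordinates `Ω` are
arranged in rows, the rows `(n, j)` in windows `n`.  Inside the window `n` we are given a lattice
norm `N n`; the functionals of `W` are built from functionals on single windows by averaging
operations over families living on successive windows; for odd index the operation is restricted by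
a coding `sig` of sets of rows.
-/

namespace Pool.Agent.UBN

open Finset

/-- A row: (window, number of the row inside the window). -/
abbrev Row := ℕ × ℕ

/-- The weights `m_q = 2 ^ (2 ^ q)`. -/
def mm (q : ℕ) : ℕ := 2 ^ (2 ^ q)

/-- The lengths `n_q`. -/
def nn : ℕ → ℕ
  | 0 => 1
  | (q + 1) => (3 * nn q) ^ (2 ^ (q + 2) + 1) * mm (q + 1) ^ 2

/-- Histories: lists of (set of rows, cut point), the last pair first. -/
abbrev Hist := List (Finset Row × ℕ)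

/-- The coding function. -/
noncomputable def sig (q : ℕ) : Hist → ℕ
  | [] => 2 * Nat.pair (Nat.pair q (Encodable.encode ([] : Hist))) (q + 1 + nn q ^ 2)
  | (x :: h) => 2 * Nat.pair (Nat.pair q (Encodable.encode (x :: h : Hist)))
      (sig q h + nn q ^ 2 + 2 ^ (h.length + 3) * (x.2 + 1) + 1)

/-- The history of a sequence of sets of rows with cut points. -/
def hist (c : ℕ → ℕ) (S : ℕ → Finset Row) : ℕ → Hist
  | 0 => []
  | (i + 1) => (S i, c (i + 1)) :: hist c S i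

variable {Ω : Type}

/-- Multiplication of a finitely supported function by a function. -/
noncomputable def mul (t : Ω → ℝ) : (Ω →₀ ℝ) →ₗ[ℝ] (Ω →₀ ℝ) where
  toFun x := Finsupp.onFinset x.support (fun ω => t ω * x ω) (by
    intro ω h; rw [Finsupp.mem_support_iff]; exact right_ne_zero_of_mul h)
  map_add' x y := by ext ω; simp [mul_add]
  map_smul' c x := by ext ω; simp [mul_left_comm]

@[simp] theorem mul_apply (t : Ω → ℝ) (x : Ω →₀ ℝ) (ω : Ω) : mul t x ω = t ω * x ω := rfl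

open Classical in
/-- Restriction to a set of coordinates. -/
noncomputable def res (A : Set Ω) : (Ω →₀ ℝ) →ₗ[ℝ] (Ω →₀ ℝ) := mul (fun ω => if ω ∈ A then 1 else 0)

/-- Restriction to a set of rows. -/
noncomputable def rres (row : Ω → Row) (T : Set Row) : (Ω →₀ ℝ) →ₗ[ℝ] (Ω →₀ ℝ) :=
  res {ω | row ω ∈ T}

/-- Restriction to a set of windows. -/
noncomputable def wres (row : Ω → Row) (I : Set ℕ) : (Ω →₀ ℝ) →ₗ[ℝ] (Ω →₀ ℝ) :=
  res {ω | (row ω).1 ∈ I}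

/-- `x` lives on the windows in `[a, b)`. -/
def Win (row : Ω → Row) (x : Ω →₀ ℝ) (a b : ℕ) : Prop :=
  ∀ ω, x ω ≠ 0 → a ≤ (row ω).1 ∧ (row ω).1 < b

/-- The euclidean norm. -/
noncomputable def l2 (x : Ω →₀ ℝ) : ℝ := Real.sqrt (∑ ω ∈ x.support, x ω ^ 2)

/-- The given lattice norms on the windows. -/
structure Inner (row : Ω → Row) (N : ℕ → (Ω →₀ ℝ) → ℝ) : Prop where
  add_le : ∀ n x y, N n (x + y) ≤ N n x + N n y
  smul : ∀ n (c : ℝ) x, N n (c • x) = |c| * N n x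
  mono : ∀ n x y, (∀ ω, (row ω).1 = n → |x ω| ≤ |y ω|) → N n x ≤ N n y
  pos : ∀ n x ω, (row ω).1 = n → x ω ≠ 0 → 0 < N n x
  fin : ∀ n, {ω | (row ω).1 = n}.Finite

/-- The norming functionals; `W row N q φ` says that `φ` is a norming functional of index `q`. -/
inductive W (row : Ω → Row) (N : ℕ → (Ω →₀ ℝ) → ℝ) : ℕ → ((Ω →₀ ℝ) →ₗ[ℝ] ℝ) → Prop
  | leaf (n : ℕ) (φ : (Ω →₀ ℝ) →ₗ[ℝ] ℝ) (h : ∀ x, |φ x| ≤ N n x) : W row N 0 φ
  | node (q d : ℕ) (c : ℕ → ℕ) (S : ℕ → Finset Row) (φ : ℕ → ((Ω →₀ ℝ) →ₗ[ℝ] ℝ)) (r : ℕ → ℕ)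
      (hq : 0 < q) (hd : d ≤ nn q) (hc : Monotone c)
      (hS : ∀ i < d, ∀ k ∈ S i, c i ≤ k.1 ∧ k.1 < c (i + 1))
      (hW : ∀ i < d, W row N (r i) (φ i))
      (hφ : ∀ i < d, ∀ x, φ i x = φ i (rres row (S i) x))
      (hsp : Odd q → ∀ i < d, r i = sig q (hist c S i)) :
      W row N q ((1 / (mm q : ℝ)) • ∑ i ∈ range d, φ i)

/-- The outer norm. -/
noncomputable def nrm (row : Ω → Row) (N : ℕ → (Ω →₀ ℝ) → ℝ) (x : Ω →₀ ℝ) : ℝ :=
  sSup {y : ℝ | ∃ q φ, W row N q φ ∧ y = |φ x|}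

/-- The properties of the outer norm used in Part II. -/
structure RigN (row : Ω → Row) (nr : (Ω →₀ ℝ) → ℝ) : Prop where
  add_le : ∀ x y, nr (x + y) ≤ nr x + nr y
  smul : ∀ (c : ℝ) x, nr (c • x) = |c| * nr x
  pos : ∀ x, x ≠ 0 → 0 < nr x
  mono : ∀ x y : Ω →₀ ℝ, (∀ ω, |x ω| ≤ |y ω|) → nr x ≤ nr y
  fin : ∀ n, {ω | (row ω).1 = n}.Finite
  single : ∀ (k : Row) (x : Ω →₀ ℝ), (∀ ω, x ω ≠ 0 → row ω = k) → nr x = l2 x
  rot : ∀ (C : ℝ) (R0 : Set Row) (x y : Ω →₀ ℝ), 0 ≤ C → (∀ k ∈ R0, ∀ k' ∈ R0, k.1 = k'.1 → k = k') →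
    (∀ ω, y ω ≠ 0 → row ω ∈ R0) → (∀ k ∈ R0, l2 (rres row {k} y) ≤ C * l2 (rres row {k} x)) →
    nr y ≤ C * nr x
  noL2 : ∀ C : ℝ, ∃ d : ℕ, 0 < d ∧ ∀ (a : ℕ → ℕ) (x : ℕ → Ω →₀ ℝ), Monotone a →
    (∀ i < d, Win row (x i) (a i) (a (i + 1))) → (∀ i < d, 1 ≤ nr (x i)) →
    C * Real.sqrt d ≤ nr (∑ i ∈ range d, x i)
  rig : ∀ (a : ℕ → ℕ) (x y : ℕ → Ω →₀ ℝ) (K : ℝ), Monotone a →
    (∀ l, Win row (x l) (a l) (a (l + 1))) → (∀ l, Win row (y l) (a l) (a (l + 1))) →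
    (∀ l ω ω', x l ω ≠ 0 → y l ω' ≠ 0 → row ω ≠ row ω') → (∀ l, x l ≠ 0) →
    (∀ (A : Finset ℕ) (t : ℕ → ℝ), nr (∑ l ∈ A, t l • x l) ≤ K * nr (∑ l ∈ A, t l • y l)) →
    (∀ (A : Finset ℕ) (t : ℕ → ℝ), nr (∑ l ∈ A, t l • y l) ≤ K * nr (∑ l ∈ A, t l • x l)) → False

end Pool.Agent.UBN
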