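import Pool.Agent.UBN.Defs
import Pool.Agent.UUB.MU3

/-!
# Project UBN: definitions for Part II

`W` is a Banach space with a basis `e` indexed by `Ω ⊕ ℕ`; the part `Ω` carries the norm `nr`, the
part `ℕ` is a Hilbert space.  `b` is another unconditional basis of `W`.
`S e A`, `mulOp b θ`, `R b i`: see `Pool.Agent.UUB.Defs`, and the rules in `MUB`, `MU2`, `MU3`.
-/

namespace Pool.Agent.UBN

open Pool.Agent.UUB

variable {Ω : Type} {I : Type} {W : Type} [NormedAddCommGroup W] [NormedSpace ℝ W]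

/-- The window of a coordinate (the coordinate `m` of the Hilbert part belongs to the window `m`). -/
def wn (row : Ω → Row) : Ω ⊕ ℕ → ℕ := Sum.elim (fun ω => (row ω).1) id

/-- The coordinates of the row `k`. -/
def rowS (row : Ω → Row) (k : Row) : Set (Ω ⊕ ℕ) := {s | ∃ ω, s = Sum.inl ω ∧ row ω = k}

/-- The coordinates of the windows in `[a, a')`. -/
def winS (row : Ω → Row) (a a' : ℕ) : Set (Ω ⊕ ℕ) := {s | a ≤ wn row s ∧ wn row s < a'}

/-- The coordinates of the part `Ω`. -/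
def XS (Ω : Type) : Set (Ω ⊕ ℕ) := Set.range Sum.inl

/-- The coordinates of the Hilbert part. -/
def HS (Ω : Type) : Set (Ω ⊕ ℕ) := Set.range Sum.inr

/-- The ambient space. -/
structure Amb (row : Ω → Row) (nr : (Ω →₀ ℝ) → ℝ) (e : UnconditionalSchauderBasis (Ω ⊕ ℕ) ℝ W) :
    Prop where
  rig : RigN row nr
  norm_eq : ∀ (x : Ω →₀ ℝ) (y : ℕ →₀ ℝ),
    ‖(x.sum fun ω c => c • e (Sum.inl ω)) + y.sum fun m c => c • e (Sum.inr m)‖ = max (nr x) (l2 y)

/-- `K` bounds the multipliers of the basis `b`, which is normalised. -/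
structure MB (b : UnconditionalSchauderBasis I ℝ W) (K : ℝ) : Prop where
  one_le : 1 ≤ K
  bd : ∀ θ : I → ℝ, (∀ i, |θ i| ≤ 1) → ‖mulOp b θ‖ ≤ K
  nm : ∀ i, ‖b i‖ = 1

/-- The compression of the projection `S b A` to the row `k`. -/
noncomputable def mu (row : Ω → Row) (e : UnconditionalSchauderBasis (Ω ⊕ ℕ) ℝ W)
    (b : UnconditionalSchauderBasis I ℝ W) (k : Row) (A : Set I) : W →L[ℝ] W :=
  S e (rowS row k) * S b A * S e (rowS row k)

/-- The commutator estimate for the row `k`. -/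
def Rig (row : Ω → Row) (e : UnconditionalSchauderBasis (Ω ⊕ ℕ) ℝ W)
    (b : UnconditionalSchauderBasis I ℝ W) (k : Row) (ε : ℝ) : Prop :=
  ∀ A B : Set I,
    ‖S e (rowS row k) * S b A * (1 - S e (rowS row k)) * S b B * S e (rowS row k)‖ ≤ ε

/-- The members of `b` which are big in the row `k`. -/
def big (row : Ω → Row) (e : UnconditionalSchauderBasis (Ω ⊕ ℕ) ℝ W)
    (b : UnconditionalSchauderBasis I ℝ W) (k : Row) : Set I := {i | 1 / 2 ≤ ‖mu row e b k {i}‖}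

/-- The structure of `b` over the rows of the windows `≥ n0`. -/
structure RowData (row : Ω → Row) (e : UnconditionalSchauderBasis (Ω ⊕ ℕ) ℝ W)
    (b : UnconditionalSchauderBasis I ℝ W) (K ε : ℝ) (n0 : ℕ) (J : Row → Finset I) : Prop where
  bd : MB b K
  big_eq : ∀ k : Row, n0 ≤ k.1 → (J k : Set I) = big row e b k
  disj : ∀ k k' : Row, n0 ≤ k.1 → n0 ≤ k'.1 → k ≠ k' → Disjoint (J k) (J k')
  card : ∀ k : Row, n0 ≤ k.1 → (J k).card = Nat.card {ω // row ω = k}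
  rig : ∀ k : Row, n0 ≤ k.1 → Rig row e b k ε
  small : ∀ k : Row, n0 ≤ k.1 → ∀ A : Set I, Disjoint A (J k : Set I) → ‖mu row e b k A‖ ≤ 2 * ε
  dia : ∀ k : Row, n0 ≤ k.1 → ∀ i ∈ J k, |b.coord i (S e (rowS row k) (b i)) - 1| ≤ 2 * ε
  riesz : ∀ k : Row, n0 ≤ k.1 → ∀ c : I → ℝ,
    Real.sqrt (∑ i ∈ J k, c i ^ 2) ≤ 4 * K ^ 2 * ‖∑ i ∈ J k, c i • S e (rowS row k) (b i)‖
  solve : ∀ k : Row, n0 ≤ k.1 → ∀ c : I → ℝ, ∃ x : W, S e (rowS row k) x = x ∧
    (∀ i ∈ J k, b.coord i x = c i) ∧ ‖x‖ ≤ 4 * K * Real.sqrt (∑ i ∈ J k, c i ^ 2)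

/-- The main part of `b` is equivalent to the main part of `e`, row by row. -/
def MainEq (row : Ω → Row) (nr : (Ω →₀ ℝ) → ℝ) (b : UnconditionalSchauderBasis I ℝ W) (n0 : ℕ)
    (J : Row → Finset I) : Prop :=
  ∃ (g : Ω → I) (C : ℝ), (∀ ω, n0 ≤ (row ω).1 → g ω ∈ J (row ω)) ∧
    (∀ ω ω', n0 ≤ (row ω).1 → row ω = row ω' → g ω = g ω' → ω = ω') ∧
    ∀ x : Ω →₀ ℝ, (∀ ω, x ω ≠ 0 → n0 ≤ (row ω).1) →
      ‖x.sum fun ω c => c • b (g ω)‖ ≤ C * nr x ∧ nr x ≤ C * ‖x.sum fun ω c => c • b (g ω)‖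

end Pool.Agent.UBN
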