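import Pool.Agent.UBN.Defs3

/-!
# Project UBN: definitions for Part III (windows, fibres, labels)

Window `n`: `Jn n` levels of `dn n = (Dn n) ^ 2` elements, `Rn n = Jn n * dn n`; the fibre is
`{0, 1, ..., Rn n, Rn n + 1}`: the element `0` (space `G`), the elements `1..Rn` (space `E`, the element `θ`
has level `lev n θ ∈ {1..Jn}`), and the element `Rn + 1` of level `Jn + 1` (space `G'`).
The norm of the window has levels `l = 0..Ln n`, `Ln n = 2 (Rn n + 1)`: at level `l` the `Nl n l` largest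
rows are added, divided by `Ml n l`; the fibre norm is weighted by `wt n l`: at the level `2 s` (`1 ≤ s ≤ Rn`) the
element `s` has weight `Dn` (catalyst), at the last level the weight is `2 ^ lev` (mesh), otherwise `1`.
-/

namespace Pool.Agent.UBN

open Finset Pool.Agent.UUB

def Jn (n : ℕ) : ℕ := n + 1
def Dn (n : ℕ) : ℕ := 2 ^ (n + 2)
def dn (n : ℕ) : ℕ := Dn n ^ 2
def Rn (n : ℕ) : ℕ := Jn n * dn n
def Ln (n : ℕ) : ℕ := 2 * (Rn n + 1)
def Ml (n l : ℕ) : ℕ := Dn n ^ l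
def Nl (n l : ℕ) : ℕ := Dn n ^ (2 * l ^ 2)

/-- The number of rows of the window `n`. -/
def rowsN (n : ℕ) : ℕ := Nl n (Ln n)

/-- The level of an element of the fibre. -/
def lev (n θ : ℕ) : ℕ := (θ + dn n - 1) / dn n

/-- The weights. -/
noncomputable def wt (n l θ : ℕ) : ℝ :=
  if l = Ln n then 2 ^ lev n θ else if l = 2 * θ ∧ 0 < θ then (Dn n : ℝ) else 1

/-- The coordinates: (window, number of the row, element of the fibre). -/
def Om : Type := {p : ℕ × ℕ × ℕ // p.2.1 < rowsN p.1 ∧ p.2.2 < Rn p.1 + 2}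

instance : DecidableEq Om := inferInstanceAs (DecidableEq
  {p : ℕ × ℕ × ℕ // p.2.1 < rowsN p.1 ∧ p.2.2 < Rn p.1 + 2})
instance : Countable Om := inferInstanceAs (Countable
  {p : ℕ × ℕ × ℕ // p.2.1 < rowsN p.1 ∧ p.2.2 < Rn p.1 + 2})

/-- The row of a coordinate. -/
def rowO (ω : Om) : Row := (ω.1.1, ω.1.2.1)

/-- The element of the fibre. -/
def fb (ω : Om) : ℕ := ω.1.2.2

/-- The unit vector at the element `θ` of the row `k` (and `0` if there is no such coordinate). -/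
noncomputable def ev (k : Row) (θ : ℕ) : Om →₀ ℝ :=
  if h : k.2 < rowsN k.1 ∧ θ < Rn k.1 + 2 then Finsupp.single (⟨(k.1, k.2, θ), h⟩ : Om) 1 else 0

/-- The weighted norm of the row `k` of `x`. -/
noncomputable def rn (l : ℕ) (x : Om →₀ ℝ) (k : Row) : ℝ :=
  Real.sqrt (∑ ω ∈ x.support.filter (fun ω => rowO ω = k), (wt k.1 l (fb ω) * x ω) ^ 2)

/-- The norm of the window `n`. -/
noncomputable def Nw (n : ℕ) (x : Om →₀ ℝ) : ℝ :=
  sSup {v : ℝ | ∃ l ≤ Ln n, ∃ F : Finset Row, (∀ k ∈ F, k.1 = n) ∧ F.card ≤ Nl n l ∧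
    v = (1 / (Ml n l : ℝ)) * ∑ k ∈ F, rn l x k}

/-- The unlabelled norm of a sequence on rows of the window `n`. -/
noncomputable def Gn (n : ℕ) (F : Finset Row) (r : Row → ℝ) : ℝ :=
  sSup {v : ℝ | ∃ l ≤ Ln n, ∃ F' ⊆ F, F'.card ≤ Nl n l ∧ v = (1 / (Ml n l : ℝ)) * ∑ k ∈ F', |r k|}

/-- The big outer norm. -/
noncomputable def nrO (x : Om →₀ ℝ) : ℝ := nrm rowO Nw x

/-- The set of coordinates of `E`. -/
def EB : Set Om := {ω | 1 ≤ fb ω ∧ fb ω ≤ Rn ω.1.1}

/-- The set of coordinates of `G`. -/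
def GB : Set Om := {ω | fb ω = 0}

/-- The set of coordinates of `G'`. -/
def GB' : Set Om := {ω | fb ω = Rn ω.1.1 + 1}

/-- The rows of a band. -/
def rowB (A : Set Om) : A → Row := fun ω => rowO ω.1

/-- The norm of a band. -/
noncomputable def nrB (A : Set Om) (x : A →₀ ℝ) : ℝ := nrO (x.mapDomain Subtype.val)

section
variable {Ω I : Type} {W : Type} [NormedAddCommGroup W] [NormedSpace ℝ W]

/-- The coordinate `ω` is bad: the multipliers of `b` over the row of `ω` move vectors vanishing at `ω`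
to vectors which are big at `ω`. -/
def Bad (row : Ω → Row) (e : UnconditionalSchauderBasis (Ω ⊕ ℕ) ℝ W)
    (b : UnconditionalSchauderBasis I ℝ W) (J : Row → Finset I) (η : ℝ) (ω : Ω) : Prop :=
  ∃ (θ : I → ℝ) (u : W), (∀ i, |θ i| ≤ 1) ∧ (∀ i, i ∉ J (row ω) → θ i = 0) ∧
    S e (rowS row (row ω)) u = u ∧ e.coord (Sum.inl ω) u = 0 ∧ ‖u‖ ≤ 1 ∧
    η < |e.coord (Sum.inl ω) (mulOp b θ u)|

/-- `g` is a matching of the far coordinates with the big members of `b`, which on good coordinates is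
the correct one. -/
structure Match (row : Ω → Row) (e : UnconditionalSchauderBasis (Ω ⊕ ℕ) ℝ W)
    (b : UnconditionalSchauderBasis I ℝ W) (n0 : ℕ) (J : Row → Finset I) (η : ℝ) (g : Ω → I) :
    Prop where
  mem : ∀ ω, n0 ≤ (row ω).1 → g ω ∈ J (row ω)
  inj : ∀ ω ω', n0 ≤ (row ω).1 → row ω = row ω' → g ω = g ω' → ω = ω'
  good : ∀ ω, n0 ≤ (row ω).1 → ¬ Bad row e b J η ω →
    1 / 2 ≤ |b.coord (g ω) (e (Sum.inl ω)) * e.coord (Sum.inl ω) (b (g ω))|

end

end Pool.Agent.UBN
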