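import Pool.Agent.UBN.A0
import Pool.Agent.UBN.B0

/-!
# The compressions of the coordinate projections to a row

Write `P = S e (rowS row k)`, `P * P = P`.
* `mu_mul`: `mu A * mu B = P S_A P S_B P = P S_A S_B P - P S_A (1 - P) S_B P`.
* `mu_dich`: `t = ‖mu A‖` satisfies `t ≤ t² + ε` (`mu_mul` with `B = A`), hence `t ≤ 2ε` or `t ≥ 1 - 2ε`.
* `mu_small`: for finite `A` by induction (`mu (insert i A) = mu A + mu {i}`; by `mu_dich` `‖mu {i}‖ ≤ 2ε` as it
  is `< 1/2 ≤ 1 - 2ε`; the sum has norm `≤ 4ε < 1 - 2ε`, so `≤ 2ε`); for general `A` by `S_trunc`.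
* `mu_dia`: `mu {i} * mu {i} = c • mu {i}`, `c = b.coord i (P (b i))` (`S b {i} = R b i`, `R_mul_mul_R`).
* `mu_dia'`: `mu {i} (P (b i)) = c • P (b i)`.
* `norm_mu_le`: `‖mu {i}‖ ≤ ‖P (b i)‖ * K`.
-/

namespace Pool.Agent.UBN

open Pool.Agent.UUB Finset

variable {Ω I : Type} {W : Type} [NormedAddCommGroup W] [NormedSpace ℝ W] [CompleteSpace W]
  {row : Ω → Row} {nr : (Ω →₀ ℝ) → ℝ} {e : UnconditionalSchauderBasis (Ω ⊕ ℕ) ℝ W}
  {b : UnconditionalSchauderBasis I ℝ W} {K ε : ℝ} {k : Row}

omit [CompleteSpace W] in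
private theorem mu_def (A : Set I) :
    mu row e b k A = S e (rowS row k) * S b A * S e (rowS row k) := rfl

private theorem mu_PP : S e (rowS row k) * S e (rowS row k) = S e (rowS row k) := S_idem e _

private theorem mu_R (i : I) : S b ({i} : Set I) = R b i := by
  have := S_finset b ({i} : Finset I)
  rwa [Finset.coe_singleton, Finset.sum_singleton] at this

private theorem mu_apply (A : Set I) (w : W) :
    mu row e b k A w = S e (rowS row k) (S b A (S e (rowS row k) w)) := rfl

private theorem mu_S_union {A B : Set I} (h : Disjoint A B) : S b (A ∪ B) = S b A + S b B := by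
  classical
  refine ContinuousLinearMap.ext fun w => ext_coord b fun j => ?_
  rw [ContinuousLinearMap.add_apply, map_add]
  by_cases hA : j ∈ A
  · have hB : j ∉ B := Set.disjoint_left.1 h hA
    rw [coord_S_mem b (Or.inl hA), coord_S_mem b hA, coord_S_notMem b hB, add_zero]
  · by_cases hB : j ∈ B
    · rw [coord_S_mem b (Or.inr hB), coord_S_mem b hB, coord_S_notMem b hA, zero_add]
    · rw [coord_S_notMem b hA, coord_S_notMem b hB,
        coord_S_notMem b (fun hx => hx.elim hA hB), add_zero]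

private theorem mu_mul_eq (A B : Set I) :
    mu row e b k A * mu row e b k B - mu row e b k (A ∩ B) =
      -(S e (rowS row k) * S b A * (1 - S e (rowS row k)) * S b B * S e (rowS row k)) := by
  have h1 : mu row e b k A * mu row e b k B =
      S e (rowS row k) * S b A * S e (rowS row k) * S b B * S e (rowS row k) := by
    rw [mu_def, mu_def]
    have h2 : S e (rowS row k) * S b A * S e (rowS row k) *
        (S e (rowS row k) * S b B * S e (rowS row k)) =
        S e (rowS row k) * S b A * (S e (rowS row k) * S e (rowS row k)) * S b B *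
          S e (rowS row k) := by
      simp only [mul_assoc]
    rw [h2, mu_PP]
  have h3 : mu row e b k (A ∩ B) = S e (rowS row k) * S b A * S b B * S e (rowS row k) := by
    rw [mu_def, ← S_mul_S]
    simp only [mul_assoc]
  rw [h1, h3]
  simp only [mul_sub, sub_mul, mul_one, neg_sub]

theorem mu_mul (hR : Rig row e b k ε) (A B : Set I) :
    ‖mu row e b k A * mu row e b k B - mu row e b k (A ∩ B)‖ ≤ ε := by
  rw [mu_mul_eq, norm_neg]
  exact hR A B

theorem mu_union {A B : Set I} (h : Disjoint A B) :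
    mu row e b k (A ∪ B) = mu row e b k A + mu row e b k B := by
  rw [mu_def, mu_def, mu_def, mu_S_union h, mul_add, add_mul]

theorem mu_univ : mu row e b k (Set.univ : Set I) = S e (rowS row k) := by
  have h1 : S b (Set.univ : Set I) = 1 := by
    unfold S
    rw [Set.indicator_univ]
    exact mulOp_one b
  rw [mu_def, h1, mul_one, mu_PP]

theorem norm_mu_le_K (hA : Amb row nr e) (hb : MB b K) (A : Set I) : ‖mu row e b k A‖ ≤ K := by
  have hK : 0 ≤ K := zero_le_one.trans hb.one_le
  refine ContinuousLinearMap.opNorm_le_bound _ hK (fun w => ?_)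
  rw [mu_apply]
  have hP : ∀ v : W, ‖S e (rowS row k) v‖ ≤ ‖v‖ := by
    intro v
    have := ((S e (rowS row k)).le_opNorm v).trans
      (mul_le_mul_of_nonneg_right (norm_S_e hA (rowS row k)) (norm_nonneg _))
    rwa [one_mul] at this
  refine (hP _).trans ?_
  refine ((S b A).le_opNorm _).trans ?_
  exact mul_le_mul (norm_S_b hb A) (hP w) (norm_nonneg _) hK

theorem norm_mu_le (hA : Amb row nr e) (hb : MB b K) (i : I) :
    ‖mu row e b k {i}‖ ≤ K * ‖S e (rowS row k) (b i)‖ := by
  have hK : 0 ≤ K := zero_le_one.trans hb.one_le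
  refine ContinuousLinearMap.opNorm_le_bound _ (mul_nonneg hK (norm_nonneg _)) (fun w => ?_)
  have hP : ‖S e (rowS row k) w‖ ≤ ‖w‖ := by
    have := ((S e (rowS row k)).le_opNorm w).trans
      (mul_le_mul_of_nonneg_right (norm_S_e hA (rowS row k)) (norm_nonneg _))
    rwa [one_mul] at this
  rw [mu_apply, mu_R, UUB.R_apply, map_smul, norm_smul, Real.norm_eq_abs]
  calc |b.coord i (S e (rowS row k) w)| * ‖S e (rowS row k) (b i)‖
      ≤ (K * ‖w‖) * ‖S e (rowS row k) (b i)‖ := by
        refine mul_le_mul_of_nonneg_right ?_ (norm_nonneg _)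
        exact (abs_coord_b hb i _).trans (mul_le_mul_of_nonneg_left hP hK)
    _ = K * ‖S e (rowS row k) (b i)‖ * ‖w‖ := by ring

theorem mu_dich (hε : ε ≤ 1 / 8) (hR : Rig row e b k ε) (A : Set I) :
    ‖mu row e b k A‖ ≤ 2 * ε ∨ 1 - 2 * ε ≤ ‖mu row e b k A‖ := by
  have h1 := mu_mul hR A A
  rw [Set.inter_self] at h1
  have h0 : 0 ≤ ε := (norm_nonneg _).trans h1
  set T := mu row e b k A with hT
  have h2 : ‖T‖ ≤ ‖T‖ * ‖T‖ + ε := by
    have h3 : T = T * T - (T * T - T) := by abel
    calc ‖T‖ = ‖T * T - (T * T - T)‖ := by rw [← h3]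
      _ ≤ ‖T * T‖ + ‖T * T - T‖ := norm_sub_le _ _
      _ ≤ ‖T‖ * ‖T‖ + ε := add_le_add (norm_mul_le _ _) h1
  by_contra hc
  rw [not_or, not_le, not_le] at hc
  obtain ⟨hc1, hc2⟩ := hc
  nlinarith [mul_pos (sub_pos.2 hc1) (sub_pos.2 hc2)]

private theorem mu_single_small (hε : ε ≤ 1 / 8) (hR : Rig row e b k ε) {i : I}
    (hi : i ∉ big row e b k) : ‖mu row e b k {i}‖ ≤ 2 * ε := by
  have h1 : ‖mu row e b k {i}‖ < 1 / 2 := not_le.1 hi
  rcases mu_dich hε hR ({i} : Set I) with h | h
  · exact h
  · linarith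

private theorem mu_small_finset (hε : ε ≤ 1 / 8) (hR : Rig row e b k ε)
    (F : Finset I) (h : ∀ i ∈ F, i ∉ big row e b k) :
    ‖mu row e b k (F : Set I)‖ ≤ 2 * ε := by
  classical
  have h0 : 0 ≤ ε := (norm_nonneg _).trans (mu_mul hR ∅ ∅)
  induction F using Finset.induction_on with
  | empty =>
    have h1 : S b ((∅ : Finset I) : Set I) = 0 := by
      rw [S_finset, Finset.sum_empty]
    rw [mu_def, h1, mul_zero, zero_mul, norm_zero]
    positivity
  | insert i F hi ih =>
    have h1 := ih (fun j hj => h j (Finset.mem_insert_of_mem hj))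
    have h2 := mu_single_small hε hR (h i (Finset.mem_insert_self i F))
    have h3 : ((insert i F : Finset I) : Set I) = {i} ∪ (F : Set I) := by
      rw [Finset.coe_insert, Set.singleton_union]
    have h4 : Disjoint ({i} : Set I) (F : Set I) := by
      rw [Set.disjoint_singleton_left]
      exact fun hh => hi (Finset.mem_coe.1 hh)
    have h5 : ‖mu row e b k ((insert i F : Finset I) : Set I)‖ ≤ 4 * ε := by
      rw [h3, mu_union h4]
      refine (norm_add_le _ _).trans ?_
      linarith
    rcases mu_dich hε hR ((insert i F : Finset I) : Set I) with h | h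
    · exact h
    · linarith

theorem mu_small (hA : Amb row nr e) (hb : MB b K) (hε : ε ≤ 1 / 8) (hR : Rig row e b k ε)
    (A : Set I) (h : Disjoint A (big row e b k)) : ‖mu row e b k A‖ ≤ 2 * ε := by
  have h0 : 0 ≤ ε := (norm_nonneg _).trans (mu_mul hR ∅ ∅)
  have hP : ∀ v : W, ‖S e (rowS row k) v‖ ≤ ‖v‖ := by
    intro v
    have := ((S e (rowS row k)).le_opNorm v).trans
      (mul_le_mul_of_nonneg_right (norm_S_e hA (rowS row k)) (norm_nonneg _))
    rwa [one_mul] at this
  refine ContinuousLinearMap.opNorm_le_bound _ (by positivity) (fun w => ?_)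
  refine le_of_forall_pos_le_add (fun η hη => ?_)
  obtain ⟨F, hF, hF2⟩ := S_trunc hb A (S e (rowS row k) w) hη
  have h1 : ‖mu row e b k (F : Set I)‖ ≤ 2 * ε :=
    mu_small_finset hε hR F (fun i hi => Set.disjoint_left.1 h (hF (Finset.mem_coe.2 hi)))
  have h2 : mu row e b k A w = mu row e b k (F : Set I) w +
      S e (rowS row k) (S b A (S e (rowS row k) w) - S b (F : Set I) (S e (rowS row k) w)) := by
    rw [map_sub, mu_apply, mu_apply]
    abel
  rw [h2]
  refine (norm_add_le _ _).trans (add_le_add ?_ ((hP _).trans hF2))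
  exact ((mu row e b k (F : Set I)).le_opNorm w).trans
    (mul_le_mul_of_nonneg_right h1 (norm_nonneg _))

theorem mu_dia (hR : Rig row e b k ε) {i : I} (hi : i ∈ big row e b k) :
    |b.coord i (S e (rowS row k) (b i)) - 1| ≤ 2 * ε := by
  set c := b.coord i (S e (rowS row k) (b i)) with hc
  have h1 := mu_mul hR ({i} : Set I) {i}
  rw [Set.inter_self] at h1
  have h2 : mu row e b k {i} * mu row e b k {i} = c • mu row e b k {i} := by
    refine ContinuousLinearMap.ext fun w => ?_
    rw [ContinuousLinearMap.mul_apply, ContinuousLinearMap.smul_apply, mu_apply, mu_apply, mu_R,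
      UUB.R_apply, UUB.R_apply]
    have h3 : S e (rowS row k) (S e (rowS row k) (b.coord i (S e (rowS row k) w) • b i)) =
        S e (rowS row k) (b.coord i (S e (rowS row k) w) • b i) := by
      rw [← ContinuousLinearMap.mul_apply, mu_PP]
    rw [h3, map_smul, map_smul, map_smul, smul_eq_mul, smul_smul, ← hc, mul_comm]
  rw [h2] at h1
  have h3 : c • mu row e b k {i} - mu row e b k {i} = (c - 1) • mu row e b k {i} := by
    rw [sub_smul, one_smul]
  rw [h3, norm_smul, Real.norm_eq_abs] at h1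
  have h4 : 1 / 2 ≤ ‖mu row e b k {i}‖ := hi
  nlinarith [abs_nonneg (c - 1)]

theorem mu_dia' (hε : ε ≤ 1 / 8) (hR : Rig row e b k ε) {i : I} (hi : i ∉ big row e b k) :
    |b.coord i (S e (rowS row k) (b i))| ≤ 2 * ε := by
  have h0 : 0 ≤ ε := (norm_nonneg _).trans (mu_mul hR ∅ ∅)
  set c := b.coord i (S e (rowS row k) (b i)) with hc
  have h1 := mu_single_small hε hR hi
  have h2 : mu row e b k {i} (S e (rowS row k) (b i)) = c • S e (rowS row k) (b i) := by
    have h3 : S e (rowS row k) (S e (rowS row k) (b i)) = S e (rowS row k) (b i) := by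
      rw [← ContinuousLinearMap.mul_apply, mu_PP]
    rw [mu_apply, h3, mu_R, UUB.R_apply, map_smul]
  have h3 : |c| * ‖S e (rowS row k) (b i)‖ ≤ 2 * ε * ‖S e (rowS row k) (b i)‖ := by
    have h4 := ((mu row e b k {i}).le_opNorm (S e (rowS row k) (b i))).trans
      (mul_le_mul_of_nonneg_right h1 (norm_nonneg _))
    rwa [h2, norm_smul, Real.norm_eq_abs] at h4
  rcases eq_or_lt_of_le (norm_nonneg (S e (rowS row k) (b i))) with h5 | h5
  · have h6 : S e (rowS row k) (b i) = 0 := norm_eq_zero.1 h5.symm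
    rw [hc, h6, map_zero, abs_zero]
    positivity
  · exact le_of_mul_le_mul_right h3 h5

end Pool.Agent.UBN
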