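import Pool.Agent.UBN.Rg3
import Pool.Agent.UBN.Mu

/-!
# Different rows have different big members

Suppose the contrary.  Stage: given `a` and a finite `F ⊆ I`, choose `n ≥ a` such that for rows `k` with
`k.1 ≥ n` `Rig row e b k (1/8)` holds (`rg_main`) and `‖P_k b_i‖ < 1/(2K)` for `i ∈ F` (`tail_row`), so that
`i ∉ big k` (`norm_mu_le`).  There are rows `k ≠ k'` with windows `≥ n` and `i ∈ big k ∩ big k'`; `i ∉ F`;
`a' > k.1, k'.1`.  `hump_seq` with `G = {i}`, data `(k, k')`.  Then `x j = P_{k j} b_{i j}` and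
`y j = P_{k' j} b_{i j}` are both equivalent to `b_{i j}` (`lemD_up`, `lemD_low` with `δ = 1/2`: `mu_dia`), live on
different rows of the windows `[a j, a (j+1))`: contradiction to `rig_W`.
-/

namespace Pool.Agent.UBN

open Pool.Agent.UUB Finset

variable {Ω I : Type} {W : Type} [NormedAddCommGroup W] [NormedSpace ℝ W] [CompleteSpace W]
  {row : Ω → Row} {nr : (Ω →₀ ℝ) → ℝ} {e : UnconditionalSchauderBasis (Ω ⊕ ℕ) ℝ W}
  {b : UnconditionalSchauderBasis I ℝ W} {K : ℝ}

private theorem dj_rowdisj {k k' : Row} (h : k ≠ k') : Disjoint (rowS row k) (rowS row k') := by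
  rw [Set.disjoint_left]
  rintro s ⟨ω, hs, hk⟩ ⟨ω', hs', hk'⟩
  apply h
  rw [hs] at hs'
  rw [← hk, ← hk', Sum.inl.inj hs']

private theorem dj_fix (k : Row) {a a' : ℕ} (h1 : a ≤ k.1) (h2 : k.1 < a') (v : W) :
    S e (winS row a a' ∩ XS Ω) (S e (rowS row k) v) = S e (rowS row k) v := by
  rw [S_e_eq_iff]
  intro s hs
  apply coord_S_notMem
  rintro ⟨ω, rfl, hk⟩
  apply hs
  refine ⟨⟨?_, ?_⟩, ⟨ω, rfl⟩⟩
  · show a ≤ (row ω).1
    rw [hk]
    exact h1
  · show (row ω).1 < a'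
    rw [hk]
    exact h2

private theorem dj_row {k : Row} {v : W} {ω : Ω} (h : e.coord (Sum.inl ω) (S e (rowS row k) v) ≠ 0) :
    row ω = k := by
  by_contra hn
  apply h
  apply coord_S_notMem
  rintro ⟨ω', h1, h2⟩
  apply hn
  rw [Sum.inl.inj h1]
  exact h2

theorem big_disj (hA : Amb row nr e) (hb : MB b K) :
    ∃ n0 : ℕ, ∀ k k' : Row, n0 ≤ k.1 → n0 ≤ k'.1 → k ≠ k' →
      Disjoint (big row e b k) (big row e b k') := by
  classical
  by_contra hcon
  push Not at hcon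
  have hK1 : 1 ≤ K := hb.one_le
  have hK0 : 0 < K := lt_of_lt_of_le one_pos hK1
  obtain ⟨n1, hn1⟩ := rg_main hA hb (show (0 : ℝ) < 1 / 8 by norm_num)
  have hη : 0 < 1 / (4 * K) := by positivity
  choose nt hnt using fun i : I => tail_row hA (b i) hη
  obtain ⟨a, G, d, -, ha, hG, hP⟩ := hump_seq
    (fun (a a' : ℕ) (G : Finset I) (d : (Row × Row) × I) => G = {d.2} ∧
      (a ≤ d.1.1.1 ∧ d.1.1.1 < a') ∧ (a ≤ d.1.2.1 ∧ d.1.2.1 < a') ∧ d.1.1 ≠ d.1.2 ∧
      1 / 2 ≤ |b.coord d.2 (S e (rowS row d.1.1) (b d.2))| ∧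
      1 / 2 ≤ |b.coord d.2 (S e (rowS row d.1.2) (b d.2))|) 0 (by
    intro a _ F
    obtain ⟨k, k', hk, hk', hne, hnd⟩ := hcon (max (max a n1) (F.sup nt))
    rw [Set.not_disjoint_iff] at hnd
    obtain ⟨i, hi, hi'⟩ := hnd
    have hka : a ≤ k.1 := le_trans (le_trans (le_max_left _ _) (le_max_left _ _)) hk
    have hka' : a ≤ k'.1 := le_trans (le_trans (le_max_left _ _) (le_max_left _ _)) hk'
    have hkn : n1 ≤ k.1 := le_trans (le_trans (le_max_right _ _) (le_max_left _ _)) hk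
    have hkn' : n1 ≤ k'.1 := le_trans (le_trans (le_max_right _ _) (le_max_left _ _)) hk'
    have hiF : i ∉ F := by
      intro hiF
      have h1 : nt i ≤ k.1 := le_trans (le_trans (Finset.le_sup hiF) (le_max_right _ _)) hk
      have h2 := hnt i k h1
      have h3 := norm_mu_le hA hb (k := k) i
      have h4 : K * ‖S e (rowS row k) (b i)‖ ≤ K * (1 / (4 * K)) :=
        mul_le_mul_of_nonneg_left h2 hK0.le
      have h5 : K * (1 / (4 * K)) = 1 / 4 := by field_simp
      have h6 : 1 / 2 ≤ ‖mu row e b k {i}‖ := hi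
      linarith
    have key : ∀ k0 : Row, n1 ≤ k0.1 → i ∈ big row e b k0 →
        1 / 2 ≤ |b.coord i (S e (rowS row k0) (b i))| := by
      intro k0 h0 h1
      have h2 := mu_dia (hn1 k0 h0) h1
      rw [abs_le] at h2
      exact le_trans (by linarith) (le_abs_self _)
    refine ⟨max k.1 k'.1 + 1, {i}, ((k, k'), i), by omega, ?_, rfl, ⟨hka, by
      show k.1 < max k.1 k'.1 + 1
      omega⟩, ⟨hka', by
      show k'.1 < max k.1 k'.1 + 1
      omega⟩, hne, key k hkn hi, key k' hkn' hi'⟩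
    rw [Finset.disjoint_singleton_left]
    exact hiF)
  have hi : ∀ j l, j ≠ l → (d j).2 ≠ (d l).2 := by
    intro j l hjl h
    have h1 := hG j l hjl
    rw [(hP j).1, (hP l).1, h, Finset.disjoint_singleton_left] at h1
    exact h1 (Finset.mem_singleton_self _)
  have hwin : ∀ (k : ℕ → Row), (∀ j, a j ≤ (k j).1 ∧ (k j).1 < a (j + 1)) →
      ∀ j l, j ≠ l → Disjoint (rowS row (k j)) (rowS row (k l)) := by
    intro k hk j l hjl
    apply dj_rowdisj
    intro h
    rcases Nat.lt_or_gt_of_ne hjl with h1 | h1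
    · have h2 := ha (Nat.succ_le_of_lt h1)
      have h3 : a (j + 1) ≤ a l := h2
      have h4 := (hk j).2
      have h5 := (hk l).1
      rw [h] at h4
      omega
    · have h2 := ha (Nat.succ_le_of_lt h1)
      have h3 : a (l + 1) ≤ a j := h2
      have h4 := (hk l).2
      have h5 := (hk j).1
      rw [h] at h5
      omega
  have hwx := hwin (fun j => (d j).1.1) (fun j => (hP j).2.1)
  have hwy := hwin (fun j => (d j).1.2) (fun j => (hP j).2.2.1)
  have main : ∀ (k k' : ℕ → Row), (∀ j l, j ≠ l → Disjoint (rowS row (k j)) (rowS row (k l))) →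
      (∀ j l, j ≠ l → Disjoint (rowS row (k' j)) (rowS row (k' l))) →
      (∀ j, 1 / 2 ≤ |b.coord (d j).2 (S e (rowS row (k' j)) (b (d j).2))|) →
      ∀ (A : Finset ℕ) (t : ℕ → ℝ), ‖∑ l ∈ A, t l • S e (rowS row (k l)) (b (d l).2)‖ ≤
        K * (K ^ 2 / (1 / 2)) * ‖∑ l ∈ A, t l • S e (rowS row (k' l)) (b (d l).2)‖ := by
    intro k k' h1 h2 h3 A t
    have h4 := lemD_up hA hb A (fun j => rowS row (k j)) (fun j => (d j).2)
      (fun j _ l _ hjl => h1 j l hjl) (fun j _ l _ hjl => hi j l hjl) t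
    have h5 := lemD_low hA hb A (fun j => rowS row (k' j)) (fun j => (d j).2)
      (fun j _ l _ hjl => h2 j l hjl) (fun j _ l _ hjl => hi j l hjl)
      (show (0 : ℝ) < 1 / 2 by norm_num) (fun j _ => h3 j) t
    refine h4.trans ?_
    rw [mul_assoc]
    exact mul_le_mul_of_nonneg_left h5 hK0.le
  refine rig_W hA a ha (fun j => S e (rowS row (d j).1.1) (b (d j).2))
    (fun j => S e (rowS row (d j).1.2) (b (d j).2)) (K * (K ^ 2 / (1 / 2)))
    (fun l => dj_fix _ (hP l).2.1.1 (hP l).2.1.2 _)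
    (fun l => dj_fix _ (hP l).2.2.1.1 (hP l).2.2.1.2 _) ?_ ?_
    (main (fun j => (d j).1.1) (fun j => (d j).1.2) hwx hwy (fun j => (hP j).2.2.2.2.2))
    (main (fun j => (d j).1.2) (fun j => (d j).1.1) hwy hwx (fun j => (hP j).2.2.2.2.1))
  · intro l ω ω' h1 h2
    rw [dj_row h1, dj_row h2]
    exact (hP l).2.2.2.1
  · intro l h0
    have h1 := (hP l).2.2.2.2.1
    have h2 : S e (rowS row (d l).1.1) (b (d l).2) = 0 := h0
    rw [h2, map_zero, abs_zero] at h1
    norm_num at h1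

end Pool.Agent.UBN
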