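import Pool.Agent.UBN.Wb
import Pool.Agent.UBN.Par

/-!
# Single windows

* `exists_dual`: Hahn-Banach for the seminorm `N n` (`exists_extension_of_le_sublinear` applied to the
  functional `c • x ↦ c * N n x` on the line of `x`).
* `nrm_window`: `≥` by `exists_dual`; `≤` by `W_le` with `J = {n}`.
* `N_le_nrm`: `N n x = N n (wres {n} x) = nrm (wres {n} x) ≤ nrm x`.
* `size_le`: `W_le_node` with `J = Ico a b` and `N_le_nrm`.
-/

namespace Pool.Agent.UBN

open Finset

variable {Ω : Type} {row : Ω → Row} {N : ℕ → (Ω →₀ ℝ) → ℝ}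

theorem exists_dual (hN : Inner row N) (n : ℕ) (x : Ω →₀ ℝ) :
    ∃ φ : (Ω →₀ ℝ) →ₗ[ℝ] ℝ, (∀ y, |φ y| ≤ N n y) ∧ φ x = N n x := by
  by_cases hx : x = 0
  · subst hx
    exact ⟨0, fun y => by rw [LinearMap.zero_apply, abs_zero]; exact N_nonneg hN n y,
      by rw [LinearMap.zero_apply, N_zero hN]⟩
  · obtain ⟨g, hg1, hg2⟩ := exists_extension_of_le_sublinear
      (LinearPMap.mkSpanSingleton x (N n x) hx) (N n)
      (fun c hc y => by rw [hN.smul, abs_of_pos hc]) (hN.add_le n) (by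
        rintro ⟨y, hy⟩
        obtain ⟨c, rfl⟩ := Submodule.mem_span_singleton.1 hy
        have h1 : (LinearPMap.mkSpanSingleton x (N n x) hx : (Ω →₀ ℝ) →ₗ.[ℝ] ℝ) ⟨c • x, hy⟩ =
            c • N n x := LinearPMap.mkSpanSingleton'_apply _ _ _ _ _
        rw [h1]
        change c • N n x ≤ N n (c • x)
        rw [hN.smul, smul_eq_mul]
        exact mul_le_mul_of_nonneg_right (le_abs_self c) (N_nonneg hN n x))
    refine ⟨g, fun y => ?_, ?_⟩
    · rw [abs_le]
      have h1 := hg2 (-y)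
      have h2 : N n (-y) = N n y := by
        rw [← neg_one_smul ℝ y, hN.smul, abs_neg, abs_one, one_mul]
      rw [map_neg, h2] at h1
      exact ⟨by linarith, hg2 y⟩
    · have hxm : x ∈ Submodule.span ℝ {x} := Submodule.mem_span_singleton_self x
      have h3 := hg1 ⟨x, hxm⟩
      have h4 : (LinearPMap.mkSpanSingleton x (N n x) hx : (Ω →₀ ℝ) →ₗ.[ℝ] ℝ) ⟨x, hxm⟩ = N n x :=
        LinearPMap.mkSpanSingleton'_apply_self _ _ _ _
      exact h3.trans h4

theorem nrm_window (hN : Inner row N) {n : ℕ} {x : Ω →₀ ℝ} (h : Win row x n (n + 1)) :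
    nrm row N x = N n x := by
  refine le_antisymm (nrm_le hN fun q φ hφ => ?_) ?_
  · have h1 := W_le hN hφ (x := x) (J := {n}) (fun ω hω => by
      have := h ω hω
      rw [Finset.mem_singleton]; omega)
    rwa [Finset.sum_singleton] at h1
  · obtain ⟨φ, h1, h2⟩ := exists_dual hN n x
    have h3 := le_nrm hN (W.leaf n φ h1) x
    rw [← h2]
    exact (le_abs_self _).trans h3

theorem N_le_nrm (hN : Inner row N) (n : ℕ) (x : Ω →₀ ℝ) : N n x ≤ nrm row N x := by
  obtain ⟨φ, h1, h2⟩ := exists_dual hN n x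
  have h3 := le_nrm hN (W.leaf n φ h1) x
  rw [← h2]
  exact (le_abs_self _).trans h3

theorem size_le (hN : Inner row N) {q : ℕ} (hq : 0 < q) {φ : (Ω →₀ ℝ) →ₗ[ℝ] ℝ}
    (h : W row N q φ) {x : Ω →₀ ℝ} {a b : ℕ} (hx : Win row x a b) :
    |φ x| ≤ ((b : ℝ) - a) * nrm row N x / mm q := by
  by_cases hab : a ≤ b
  · have h1 := W_le_node hN hq h (x := x) (J := Finset.Ico a b) (fun ω hω => by
      have := hx ω hω
      rw [Finset.mem_Ico]; omega)
    have h2 : ∑ n ∈ Finset.Ico a b, N n x ≤ ((b : ℝ) - a) * nrm row N x := by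
      calc ∑ n ∈ Finset.Ico a b, N n x ≤ ∑ _n ∈ Finset.Ico a b, nrm row N x :=
            Finset.sum_le_sum fun n _ => N_le_nrm hN n x
        _ = ((b : ℝ) - a) * nrm row N x := by
            rw [Finset.sum_const, Nat.card_Ico, nsmul_eq_mul, Nat.cast_sub hab]
    have h3 : (0 : ℝ) < mm q := by
      have := two_le_mm q
      exact_mod_cast (show 0 < mm q by omega)
    calc |φ x| ≤ (1 / (mm q : ℝ)) * ∑ n ∈ Finset.Ico a b, N n x := h1
      _ ≤ (1 / (mm q : ℝ)) * (((b : ℝ) - a) * nrm row N x) :=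
          mul_le_mul_of_nonneg_left h2 (by positivity)
      _ = ((b : ℝ) - a) * nrm row N x / mm q := by ring
  · have h4 : x = 0 := by
      ext ω
      by_contra hc
      have := hx ω hc
      omega
    subst h4
    have h5 : nrm row N (0 : Ω →₀ ℝ) = 0 := by
      have := nrm_smul hN 0 (0 : Ω →₀ ℝ)
      rwa [smul_zero, abs_zero, zero_mul] at this
    rw [h5, map_zero, abs_zero, mul_zero, zero_div]

end Pool.Agent.UBN
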