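import Pool.Agent.UBN.RisU
import Pool.Agent.UBN.Hb

/-!
# A rapidly increasing sequence of averages

`ris_seq`: choose recursively `L 0 = l0`, `Q 0 = p + 1`, and for given `L i`, `Q i` apply `ris_u` with
`p := Q i`, `l0 := L i`; `Q (i+1) = Q i + a (L (i+1)) + i + 1`.  The coefficient functions of the
consecutive intervals are glued to one `t`.  `r1`: `|φ u| ≤ nrm u = 1 ≤ 4`; `r2`: `ris_u`;
`r3`: for `q ≥ Q (i+1)` by `size_le`
`|φ (u i)| ≤ a (L (i+1)) / mm q ≤ a (L (i+1)) / 2 ^ (Q (i+1)) ≤ 1 / 2 ^ (i+1)` (as `n ≤ 2 ^ n`).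
-/

namespace Pool.Agent.UBN

open Finset

variable {Ω : Type} {row : Ω → Row} {N : ℕ → (Ω →₀ ℝ) → ℝ}

/-- The recursion for the pairs `(L i, Q i)`. -/
def risSt (a : ℕ → ℕ) (F : ℕ → ℕ → ℕ) (l0 p : ℕ) : ℕ → ℕ × ℕ
  | 0 => (l0, p + 1)
  | (i + 1) => (F (risSt a F l0 p i).2 (risSt a F l0 p i).1,
      (risSt a F l0 p i).2 + a (F (risSt a F l0 p i).2 (risSt a F l0 p i).1) + i + 1)

theorem riss_glue {L : ℕ → ℕ} (hL : StrictMono L) (tt : ℕ → ℕ → ℝ) :
    ∃ t : ℕ → ℝ, ∀ i, ∀ l ∈ Ico (L i) (L (i + 1)), t l = tt i l := by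
  classical
  refine ⟨fun l => if h : ∃ i, L i ≤ l ∧ l < L (i + 1) then tt h.choose l else 0, ?_⟩
  intro i l hl
  rw [Finset.mem_Ico] at hl
  have hex : ∃ i, L i ≤ l ∧ l < L (i + 1) := ⟨i, hl⟩
  have heq : hex.choose = i := by
    obtain ⟨h1, h2⟩ := hex.choose_spec
    have h3 : hex.choose < i + 1 := by
      by_contra hcon
      have := hL.monotone (not_lt.mp hcon)
      omega
    have h4 : i < hex.choose + 1 := by
      by_contra hcon
      have := hL.monotone (not_lt.mp hcon)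
      omega
    omega
  simp only [hex, dite_true, heq]

theorem ris_seq (hN : Inner row N) {a : ℕ → ℕ} {x y : ℕ → Ω →₀ ℝ} {K : ℝ}
    (h : Pair row N a x y K) (p l0 : ℕ) :
    ∃ (L Q : ℕ → ℕ) (t : ℕ → ℝ), StrictMono L ∧ L 0 = l0 ∧ (∀ i, p < Q i) ∧
      RIS row N (fun i => a (L i)) (fun i => cmb x t (L i) (L (i + 1))) 4 Q ∧
      ∀ i, nrm row N (cmb x t (L i) (L (i + 1))) = 1 := by
  choose F T hF1 hF2 hF3 using fun p' l' => ris_u hN h p' l'
  set s := risSt a F l0 p with hs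
  set L : ℕ → ℕ := fun i => (s i).1 with hLdef
  set Q : ℕ → ℕ := fun i => (s i).2 with hQdef
  have hLs : ∀ i, L (i + 1) = F (Q i) (L i) := fun i => rfl
  have hQs : ∀ i, Q (i + 1) = Q i + a (L (i + 1)) + i + 1 := fun i => rfl
  have hL : StrictMono L := strictMono_nat_of_lt_succ (fun i => by
    rw [hLs]; exact hF1 (Q i) (L i))
  have hQ : Monotone Q := monotone_nat_of_le_succ (fun i => by
    rw [hQs]; omega)
  have hQ0 : Q 0 = p + 1 := rfl
  obtain ⟨t, ht⟩ := riss_glue hL (fun i => T (Q i) (L i))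
  have hc : ∀ i, cmb x t (L i) (L (i + 1)) = cmb x (T (Q i) (L i)) (L i) (F (Q i) (L i)) := by
    intro i
    rw [← hLs i]
    unfold cmb
    exact Finset.sum_congr rfl (fun l hl => by rw [ht i l hl])
  have hone : ∀ i, nrm row N (cmb x t (L i) (L (i + 1))) = 1 := fun i => by
    rw [hc i]; exact hF2 (Q i) (L i)
  have hwin : ∀ i, Win row (cmb x t (L i) (L (i + 1))) (a (L i)) (a (L (i + 1))) := fun i =>
    risu_win h.mono h.winx t (L i) (L (i + 1))
  refine ⟨L, Q, t, hL, rfl, fun i => ?_, ?_, hone⟩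
  · have := hQ (Nat.zero_le i)
    omega
  · refine ⟨h.mono.comp hL.monotone, hwin, by norm_num, hQ, ?_, ?_, ?_⟩
    · intro i q φ hφ
      have := le_nrm hN hφ (cmb x t (L i) (L (i + 1)))
      rw [hone i] at this
      linarith
    · intro i q φ hφ hq hqQ
      have := hF3 (Q i) (L i) q φ hφ hq hqQ.le
      rw [← hc i] at this
      exact this
    · intro i q φ hφ hqQ
      have hq : 0 < q := by
        have := hQs i
        omega
      have h1 := size_le hN hq hφ (hwin i)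
      rw [hone i, mul_one] at h1
      have hm : (0 : ℝ) < mm q := by
        have := two_le_mm q
        exact_mod_cast (by omega : 0 < mm q)
      have h2 : a (L (i + 1)) * 2 ^ (i + 1) ≤ mm q := by
        calc a (L (i + 1)) * 2 ^ (i + 1) ≤ 2 ^ (a (L (i + 1))) * 2 ^ (i + 1) :=
              Nat.mul_le_mul_right _ (Nat.lt_two_pow_self).le
          _ = 2 ^ (a (L (i + 1)) + (i + 1)) := (pow_add _ _ _).symm
          _ ≤ 2 ^ q := Nat.pow_le_pow_right (by norm_num) (by have := hQs i; omega)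
          _ ≤ mm q := two_pow_le_mm q
      have h2' : (a (L (i + 1)) : ℝ) * 2 ^ (i + 1) ≤ mm q := by exact_mod_cast h2
      refine le_trans h1 ?_
      rw [div_le_div_iff₀ hm (by positivity)]
      have h3 : (0 : ℝ) ≤ a (L i) := Nat.cast_nonneg _
      have h4 : (0 : ℝ) < (2 : ℝ) ^ (i + 1) := by positivity
      nlinarith [mul_nonneg h3 h4.le]

end Pool.Agent.UBN
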