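import Pool.Agent.UBN.ExaX
import Pool.Agent.UBN.RisS

/-!
# Exact vectors: existence

Let `p ≥ 2` be even, `n = nn p`, and let `L, Q, t` be given by `ris_seq` for `p`, `l0`;
`u i = cmb x t (L i) (L (i+1))`, `v i = cmb y t (L i) (L (i+1))`, `l1 = L n`.
The vector is `X = (mm p / n) • ∑ i < n, u i = cmb x (fun l => mm p / n * t l) l0 l1`, `Y` similarly.
`e1, e2, e3` are `exact_x`.
The functional: `nrm (v i) ≥ 1/K` (`xy`); by `near_rows` there are functionals `ψ i` with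
`ψ i (v i) ≥ 1/(2K)`, living on the rows of `v i`; `η` is the node of index `p` (even) with the
children `ψ i`, `i < n`, cuts `a (L i)`, sets `rowsOf (v i)`.  `ψ i (v j) = 0` for `i ≠ j`.
`η Y = (1/m) (m/n) ∑ ψ i (v i) ≥ 1/(2K)`.  The rows of `v i` are among the rows of the `y l`, `l0 ≤ l < l1`.
-/

namespace Pool.Agent.UBN

open Finset

variable {Ω : Type} {row : Ω → Row} {N : ℕ → (Ω →₀ ℝ) → ℝ}

theorem cmb_glue (z : ℕ → Ω →₀ ℝ) (t : ℕ → ℝ) {L : ℕ → ℕ} (hL : Monotone L) (c : ℝ) (n : ℕ) :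
    cmb z (fun l => c * t l) (L 0) (L n) = c • ∑ i ∈ range n, cmb z t (L i) (L (i + 1)) := by
  have h1 : ∀ l l', cmb z (fun l => c * t l) l l' = c • cmb z t l l' := by
    intro l l'
    unfold cmb
    rw [smul_sum]
    exact sum_congr rfl (fun i _ => mul_smul _ _ _)
  rw [h1]
  congr 1
  induction n with
  | zero => simp [cmb]
  | succ n ih =>
    rw [sum_range_succ, ← ih]
    unfold cmb
    exact (sum_Ico_consecutive _ (hL (Nat.zero_le _)) (hL (Nat.le_succ _))).symm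

theorem win_disj {L a : ℕ → ℕ} (hL : Monotone L) (ha : Monotone a) {i j n : ℕ} (hij : i ≠ j)
    (h1 : a (L i) ≤ n) (h2 : n < a (L (i + 1))) (h3 : a (L j) ≤ n) (h4 : n < a (L (j + 1))) :
    False := by
  rcases Nat.lt_or_gt_of_ne hij with h | h
  · have : a (L (i + 1)) ≤ a (L j) := ha (hL h)
    omega
  · have : a (L (j + 1)) ≤ a (L i) := ha (hL h)
    omega

theorem exact_exists (hN : Inner row N) {a : ℕ → ℕ} {x y : ℕ → Ω →₀ ℝ} {K : ℝ}
    (h : Pair row N a x y K) {p : ℕ} (hp : 2 ≤ p) (he : Even p) (l0 : ℕ) :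
    ∃ (l1 : ℕ) (t : ℕ → ℝ) (η : (Ω →₀ ℝ) →ₗ[ℝ] ℝ), l0 < l1 ∧
      Exact row N x y K p l0 l1 t η := by
  obtain ⟨L, Q, t, hL, rfl, hQ, hR, h1⟩ := ris_seq hN h p l0
  have hLm := hL.monotone
  have hK : 0 < K := lt_of_lt_of_le one_pos h.one_le
  have hwin : ∀ i, Win row (cmb y t (L i) (L (i + 1))) (a (L i)) (a (L (i + 1))) := fun i =>
    Win.block h.mono h.winy t (hLm (Nat.le_succ i))
  have hv : ∀ i, 1 / K ≤ nrm row N (cmb y t (L i) (L (i + 1))) := by
    intro i
    have h2 := h.xy (Ico (L i) (L (i + 1))) t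
    have h3 : nrm row N (∑ l ∈ Ico (L i) (L (i + 1)), t l • x l) = 1 := h1 i
    rw [h3] at h2
    rw [div_le_iff₀ hK, mul_comm]
    exact h2
  have hψ : ∀ i, ∃ q φ, W row N q φ ∧
      nrm row N (cmb y t (L i) (L (i + 1))) - 1 / (2 * K) < φ (cmb y t (L i) (L (i + 1))) ∧
      ∀ z, φ z = φ (rres row (rowsOf row (cmb y t (L i) (L (i + 1)))) z) := fun i =>
    near_rows hN _ (by positivity)
  choose r ψ hψW hψv hψr using hψ
  set n := nn p with hn
  have hn0 : 0 < n := nn_pos p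
  have hm : 0 < mm p := two_pos.trans_le (two_le_mm p)
  have hmR : (0 : ℝ) < mm p := by exact_mod_cast hm
  have hnR : (0 : ℝ) < n := by exact_mod_cast hn0
  obtain ⟨e1, e2, e3⟩ := exact_x hN hp hR hQ
  have hgx := cmb_glue x t hLm ((mm p : ℝ) / n) n
  have hgy := cmb_glue y t hLm ((mm p : ℝ) / n) n
  have hsub : ∀ i < n, ∀ k ∈ rowsOf row (cmb y t (L i) (L (i + 1))),
      k ∈ rowsY row y (L 0) (L n) := by
    intro i hi k hk
    obtain ⟨ω, hω, rfl⟩ := mem_rowsOf.1 hk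
    have h2 : ∃ l ∈ Ico (L i) (L (i + 1)), y l ω ≠ 0 := by
      by_contra hc
      push Not at hc
      apply hω
      unfold cmb
      rw [Finsupp.finsetSum_apply]
      refine sum_eq_zero (fun l hl => ?_)
      rw [Finsupp.smul_apply, hc l hl, smul_zero]
    obtain ⟨l, hl, hlω⟩ := h2
    obtain ⟨hl1, hl2⟩ := mem_Ico.1 hl
    refine mem_biUnion.2 ⟨l, mem_Ico.2 ⟨(hLm (Nat.zero_le i)).trans hl1,
      hl2.trans_le (hLm hi)⟩, mem_image.2 ⟨ω, Finsupp.mem_support_iff.2 hlω, rfl⟩⟩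
  have hrow : ∀ i, ∀ k ∈ rowsOf row (cmb y t (L i) (L (i + 1))),
      a (L i) ≤ k.1 ∧ k.1 < a (L (i + 1)) := by
    intro i k hk
    obtain ⟨ω, hω, rfl⟩ := mem_rowsOf.1 hk
    exact hwin i ω hω
  refine ⟨L n, fun l => (mm p : ℝ) / n * t l, (1 / (mm p : ℝ)) • ∑ i ∈ range n, ψ i, hL hn0, ?_⟩
  refine ⟨?_, ?_, ?_, ?_, ?_, ?_⟩
  · intro q φ hφ
    rw [hgx]
    exact e1 q φ hφ
  · intro q φ hφ hq hqp
    rw [hgx]
    exact e2 q φ hφ hq hqp
  · intro q φ hφ hqp
    rw [hgx]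
    exact e3 q φ hφ hqp
  · exact W.node p n (fun i => a (L i)) (fun i => rowsOf row (cmb y t (L i) (L (i + 1)))) ψ r
      (by omega) le_rfl (fun i j hij => h.mono (hLm hij)) (fun i _ => hrow i)
      (fun i _ => hψW i) (fun i _ => hψr i)
      (fun ho => absurd ho (Nat.not_odd_iff_even.2 he))
  · intro z
    rw [LinearMap.smul_apply, LinearMap.smul_apply, LinearMap.sum_apply, LinearMap.sum_apply]
    congr 1
    refine sum_congr rfl (fun i hi => ?_)
    have hset : (rowsOf row (cmb y t (L i) (L (i + 1))) : Set Row) ∩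
        (rowsY row y (L 0) (L n) : Set Row) = rowsOf row (cmb y t (L i) (L (i + 1))) :=
      Set.inter_eq_left.2 (fun k hk => by
        exact_mod_cast hsub i (mem_range.1 hi) k (by exact_mod_cast hk))
    calc ψ i z = ψ i (rres row (rowsOf row (cmb y t (L i) (L (i + 1)))) z) := hψr i z
      _ = ψ i (rres row (rowsOf row (cmb y t (L i) (L (i + 1))))
          (rres row (rowsY row y (L 0) (L n)) z)) := by rw [rres_rres, hset]
      _ = ψ i (rres row (rowsY row y (L 0) (L n)) z) := (hψr i _).symm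
  · rw [hgy, LinearMap.smul_apply, LinearMap.sum_apply, smul_eq_mul]
    have h2 : ∀ i ∈ range n, ψ i (((mm p : ℝ) / n) • ∑ j ∈ range n, cmb y t (L j) (L (j + 1))) =
        (mm p : ℝ) / n * ψ i (cmb y t (L i) (L (i + 1))) := by
      intro i hi
      rw [map_smul, smul_eq_mul, map_sum]
      congr 1
      rw [sum_eq_single_of_mem i hi]
      intro j _ hji
      rw [hψr i, rres_eq_zero, map_zero]
      intro ω hω hmem
      obtain ⟨h3, h4⟩ := hwin j ω hω
      obtain ⟨h5, h6⟩ := hrow i _ (by exact_mod_cast hmem)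
      exact win_disj hLm h.mono hji h3 h4 h5 h6
    rw [sum_congr rfl h2]
    have h3 : ∑ i ∈ range n, (mm p : ℝ) / n * (1 / (2 * K)) ≤
        ∑ i ∈ range n, (mm p : ℝ) / n * ψ i (cmb y t (L i) (L (i + 1))) := by
      refine sum_le_sum (fun i _ => mul_le_mul_of_nonneg_left ?_ (by positivity))
      have h4 := hψv i
      have h5 := hv i
      have h6 : 1 / K = 1 / (2 * K) + 1 / (2 * K) := by
        field_simp
        norm_num
      linarith
    have h4 : (1 : ℝ) / (mm p) * ∑ i ∈ range n, (mm p : ℝ) / n * (1 / (2 * K)) = 1 / (2 * K) := by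
      rw [sum_const, card_range, nsmul_eq_mul]
      field_simp
    calc 1 / (2 * K) = (1 : ℝ) / (mm p) * ∑ i ∈ range n, (mm p : ℝ) / n * (1 / (2 * K)) := h4.symm
      _ ≤ _ := mul_le_mul_of_nonneg_left h3 (by positivity)

end Pool.Agent.UBN
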