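import Pool.Agent.UBN.BIR

/-!
# Exact vectors: the estimates

Let `n = nn p`, `m = mm p`, `P = p - 1`; `nn_succ_real P : (3 nn P) ^ (2 ^ (p+1) + 1) = n / m ^ 2`,
`two_pow_eq p`.  With `s = 2 ^ (p+1)` one has `(1/2) ^ s = 1 / m ^ 2`; `M = m` (first alternative of
`hH`: `mm p ≤ mm q` for `q ≥ p`); `C = 4`, `err_le`, `A = A0 = range n`.  `m ≥ 4`, `n ≥ m ^ 4`.
* (E1) `bi`: `|φ (∑ u)| ≤ 4 (1 + n (1/m + 1/m²) + n/m²) + 4`; times `m/n`: `≤ 4 (2 m/n + 3/2) ≤ 20`.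
* (E2) `1 ≤ q < p`: `bi_root`: `|φ (∑ u)| ≤ (1/mm q) (4 (n (1/m + 1/m²) + n/m²) + 4)`; times `m/n`.
* (E3) `q > p`: `easy`: `|φ (∑ u)| ≤ 8 + 4 n / mm q`, `mm q ≥ m²`; times `m/n`: `≤ 8 m/n + 4/m ≤ 20/m`.
-/

namespace Pool.Agent.UBN

open Finset

variable {Ω : Type} {row : Ω → Row} {N : ℕ → (Ω →₀ ℝ) → ℝ}

theorem e1num {m n : ℝ} (hm : 4 ≤ m) (hn : m ^ 4 ≤ n) :
    m / n * (4 * (1 + n * (1 / m + 1 / m ^ 2) + n / m ^ 2) + 4) ≤ 20 := by
  have hm0 : 0 < m := by linarith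
  have hn0 : 0 < n := lt_of_lt_of_le (by positivity) hn
  have h1 : m / n * (4 * (1 + n * (1 / m + 1 / m ^ 2) + n / m ^ 2) + 4) =
      8 * (m / n) + 4 + 8 / m := by
    field_simp
    ring
  have h2 : m / n ≤ 1 := by
    rw [div_le_one hn0]
    refine le_trans ?_ hn
    have h3 : 1 ≤ m ^ 3 := one_le_pow₀ (by linarith)
    calc m = m * 1 := (mul_one m).symm
      _ ≤ m * m ^ 3 := mul_le_mul_of_nonneg_left h3 hm0.le
      _ = m ^ 4 := by ring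
  have h4 : 8 / m ≤ 2 := by
    rw [div_le_iff₀ hm0]
    linarith
  rw [h1]
  linarith

theorem e2num {m n μ : ℝ} (hm : 4 ≤ m) (hn : m ^ 4 ≤ n) (hμ : 0 < μ) :
    m / n * ((1 / μ) * (4 * (n * (1 / m + 1 / m ^ 2) + n / m ^ 2) + 4)) ≤ 20 / μ := by
  have hm0 : 0 < m := by linarith
  have hn0 : 0 < n := lt_of_lt_of_le (by positivity) hn
  have h1 : m / n * ((1 / μ) * (4 * (n * (1 / m + 1 / m ^ 2) + n / m ^ 2) + 4)) =
      (4 * (m / n) + 4 + 8 / m) / μ := by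
    field_simp
    ring
  have h2 : m / n ≤ 1 := by
    rw [div_le_one hn0]
    refine le_trans ?_ hn
    have h3 : 1 ≤ m ^ 3 := one_le_pow₀ (by linarith)
    calc m = m * 1 := (mul_one m).symm
      _ ≤ m * m ^ 3 := mul_le_mul_of_nonneg_left h3 hm0.le
      _ = m ^ 4 := by ring
  have h4 : 8 / m ≤ 2 := by
    rw [div_le_iff₀ hm0]
    linarith
  rw [h1]
  refine div_le_div_of_nonneg_right ?_ hμ.le
  linarith

theorem e3num {m n μ : ℝ} (hm : 4 ≤ m) (hn : m ^ 4 ≤ n) (hμ : m ^ 2 ≤ μ) :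
    m / n * (8 + n * (4 / μ)) ≤ 20 / m := by
  have hm0 : 0 < m := by linarith
  have hn0 : 0 < n := lt_of_lt_of_le (by positivity) hn
  have hμ0 : 0 < μ := lt_of_lt_of_le (by positivity) hμ
  have h1 : m / n * (8 + n * (4 / μ)) = 8 * (m / n) + 4 * (m / μ) := by
    field_simp
  have h2 : m / n ≤ 1 / m := by
    rw [div_le_div_iff₀ hn0 hm0]
    have h3 : 1 ≤ m ^ 2 := one_le_pow₀ (by linarith)
    calc m * m = m ^ 2 * 1 := by ring
      _ ≤ m ^ 2 * m ^ 2 := mul_le_mul_of_nonneg_left h3 (by positivity)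
      _ = m ^ 4 := by ring
      _ ≤ 1 * n := by linarith
  have h4 : m / μ ≤ 1 / m := by
    rw [div_le_div_iff₀ hμ0 hm0]
    calc m * m = m ^ 2 := by ring
      _ ≤ 1 * μ := by linarith
  have h5 : 20 / m = 8 * (1 / m) + 4 * (1 / m) + 8 * (1 / m) := by ring
  have h6 : 0 ≤ 1 / m := by positivity
  rw [h1, h5]
  linarith

/-- The estimates on the side of `x`. -/
theorem exact_x (hN : Inner row N) {a : ℕ → ℕ} {u : ℕ → Ω →₀ ℝ} {Q : ℕ → ℕ} {p : ℕ} (hp : 2 ≤ p)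
    (h : RIS row N a u 4 Q) (hQ : ∀ i, p < Q i) :
    (∀ q φ, W row N q φ → |φ ((mm p / nn p : ℝ) • ∑ i ∈ range (nn p), u i)| ≤ 20) ∧
    (∀ q φ, W row N q φ → 0 < q → q < p →
      |φ ((mm p / nn p : ℝ) • ∑ i ∈ range (nn p), u i)| ≤ 20 / mm q) ∧
    (∀ q φ, W row N q φ → p < q →
      |φ ((mm p / nn p : ℝ) • ∑ i ∈ range (nn p), u i)| ≤ 20 / mm p) := by
  obtain ⟨P, rfl⟩ : ∃ P, p = P + 1 := ⟨p - 1, by omega⟩
  have hm : (4 : ℝ) ≤ mm (P + 1) := by exact_mod_cast four_le_mm (Nat.succ_pos P)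
  have hn : (mm (P + 1) : ℝ) ^ 4 ≤ nn (P + 1) := by exact_mod_cast mm4_le_nn (Nat.succ_pos P)
  have hm0 : (0 : ℝ) < mm (P + 1) := by linarith
  have hn0 : (0 : ℝ) < nn (P + 1) := lt_of_lt_of_le (by positivity) hn
  have hc : (0 : ℝ) ≤ mm (P + 1) / nn (P + 1) := by positivity
  have hhalf : (1 / 2 : ℝ) ^ (2 ^ (P + 1 + 1)) = 1 / (mm (P + 1) : ℝ) ^ 2 := by
    rw [← two_pow_eq, one_div_pow]
  have hbig : (3 * (nn P : ℝ)) ^ (2 ^ (P + 1 + 1) + 1) = (nn (P + 1) : ℝ) / (mm (P + 1) : ℝ) ^ 2 :=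
    nn_succ_real P
  have hnP : (1 : ℝ) ≤ 3 * (nn P : ℝ) := by
    have : (1 : ℝ) ≤ nn P := by exact_mod_cast nn_pos P
    linarith
  have hbig' : (3 * (nn P : ℝ)) ^ (2 ^ (P + 1 + 1)) ≤ (nn (P + 1) : ℝ) / (mm (P + 1) : ℝ) ^ 2 := by
    rw [← hbig]
    exact pow_le_pow_right₀ hnP (Nat.le_succ _)
  have herr : ∑ i ∈ range (nn (P + 1)), (4 : ℝ) / 2 ^ (i + 1) ≤ 4 := err_le (by norm_num) _
  have hH : ∀ q, P < q → (mm (P + 1) : ℝ) ≤ mm q ∨
      ∀ φ, W row N q φ → ∀ A ⊆ range (nn (P + 1)), |φ (∑ i ∈ A, u i)| ≤ 4 := by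
    intro q hq
    left
    exact_mod_cast mm_mono (Nat.succ_le_of_lt hq)
  refine ⟨?_, ?_, ?_⟩
  · intro q φ hφ
    have h1 := bi hN h P (M := (mm (P + 1) : ℝ)) (by linarith) (range (nn (P + 1))) hH
      (2 ^ (P + 1 + 1)) q φ hφ _ (Subset.refl _)
    rw [card_range, hhalf] at h1
    rw [map_smul, smul_eq_mul, abs_mul, abs_of_nonneg hc]
    refine le_trans (mul_le_mul_of_nonneg_left ?_ hc) (e1num hm hn)
    refine h1.trans ?_
    linarith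
  · intro q φ hφ hq0 hqp
    have h1 := bi_root hN h P (M := (mm (P + 1) : ℝ)) (by linarith) (range (nn (P + 1))) hH
      (2 ^ (P + 1 + 1)) hq0 (Nat.lt_succ_iff.1 hqp) hφ _ (Subset.refl _)
      (fun i _ => hqp.trans (hQ i))
    rw [card_range, hhalf, hbig] at h1
    have hq : (0 : ℝ) < mm q := by exact_mod_cast (two_pos.trans_le (two_le_mm q))
    rw [map_smul, smul_eq_mul, abs_mul, abs_of_nonneg hc]
    refine le_trans (mul_le_mul_of_nonneg_left ?_ hc) (e2num hm hn hq)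
    refine h1.trans (mul_le_mul_of_nonneg_left ?_ (by positivity))
    linarith
  · intro q φ hφ hqp
    have h1 := easy hN h (q := q) (by omega) hφ (range (nn (P + 1)))
    rw [card_range] at h1
    have hq : (mm (P + 1) : ℝ) ^ 2 ≤ mm q := by
      have h2 : mm (P + 1 + 1) ≤ mm q := mm_mono (Nat.succ_le_of_lt hqp)
      rw [mm_succ] at h2
      exact_mod_cast h2
    rw [map_smul, smul_eq_mul, abs_mul, abs_of_nonneg hc]
    refine le_trans (mul_le_mul_of_nonneg_left ?_ hc) (e3num hm hn hq)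
    refine h1.trans ?_
    linarith

end Pool.Agent.UBN
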