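import Pool.Agent.UBN.Defs4
import Pool.Agent.UBN.Mu

/-!
# The fibre lemma

Let `ω` be a good coordinate of the row `k`, `P = S e (rowS row k)`, and for `A ⊆ J k`
`π A = e.coord ω (S b A (e ω)) = e.coord ω (mu A (e ω))` (`ω` stands for `inl ω`).
* For `A, B ⊆ J k`: `mu B (e ω) = π B • e ω + u` with `u` in the row, vanishing at `ω`, `‖u‖ ≤ K`; so
  `|e.coord ω (mu A (mu B (e ω))) - π A π B| ≤ η K` (good, `θ` = indicator of `A`), and by `mu_mul`
  `|π A π B - π (A ∩ B)| ≤ η K + ε ≤ 1/16 =: κ`.  Hence `|π A² - π A| ≤ κ` and `π A ∈ [-1/8, 1/8]` or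
  `π A ∈ [7/8, 9/8]`.
* `π (J k) = 1 - e.coord ω (mu (J k)ᶜ (e ω)) ≥ 1 - 2 ε` (`small`).  Adding the elements of `J k` one after the
  other, `π` jumps from `[-1/8, 1/8]` to `[7/8, 9/8]`: there is `i ∈ J k` with `π {i} ≥ 3/4`;
  `π {i} = b.coord i (e ω) * e.coord ω (b i)`.
* For `u` in the row vanishing at `ω`: `|e.coord ω (b i)| |b.coord i u| = |e.coord ω (S b {i} u)| ≤ η ‖u‖` and
  `|e.coord ω (b i)| ≥ (1/2) / K` (`|b.coord i (e ω)| ≤ K`).
`fib_inj`: `|b.coord i (e ω')| ≤ 2 K η < 1/2` by the last item for `ω`, but `≥ 1/2` by the first for `ω'`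
(`|e.coord ω' (b i)| ≤ 1`).
-/

namespace Pool.Agent.UBN

open Pool.Agent.UUB Finset

variable {Ω I : Type} {W : Type} [NormedAddCommGroup W] [NormedSpace ℝ W] [CompleteSpace W]
  {row : Ω → Row} {nr : (Ω →₀ ℝ) → ℝ} {e : UnconditionalSchauderBasis (Ω ⊕ ℕ) ℝ W}
  {b : UnconditionalSchauderBasis I ℝ W} {K ε η : ℝ}

private theorem fb_coord_P {k : Row} {ω : Ω} (hk : row ω = k) (w : W) :
    e.coord (Sum.inl ω) (S e (rowS row k) w) = e.coord (Sum.inl ω) w :=
  coord_S_mem e (show (Sum.inl ω : Ω ⊕ ℕ) ∈ rowS row k from ⟨ω, rfl, hk⟩) w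

private theorem fb_coord_same (s : Ω ⊕ ℕ) : e.coord s (e s) = 1 := by
  classical
  rw [e.ortho]
  simp

private theorem fb_coord_ne {s s' : Ω ⊕ ℕ} (h : s ≠ s') : e.coord s (e s') = 0 := by
  classical
  rw [e.ortho]
  simp [h]

private theorem fb_P_e {k : Row} {ω : Ω} (hk : row ω = k) :
    S e (rowS row k) (e (Sum.inl ω)) = e (Sum.inl ω) := by
  rw [S_e_eq_iff]
  intro s hs
  refine fb_coord_ne (fun h => hs ?_)
  rw [h]
  exact ⟨ω, rfl, hk⟩

private theorem fb_good {J : Row → Finset I} {ω : Ω} (hg : ¬ Bad row e b J η ω) {θ : I → ℝ}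
    (hθ : ∀ i, |θ i| ≤ 1) (hθ0 : ∀ i, i ∉ J (row ω) → θ i = 0) {u : W}
    (hu : S e (rowS row (row ω)) u = u) (hu0 : e.coord (Sum.inl ω) u = 0) :
    |e.coord (Sum.inl ω) (mulOp b θ u)| ≤ η * ‖u‖ := by
  rcases eq_or_lt_of_le (norm_nonneg u) with h | h
  · have h1 : u = 0 := norm_eq_zero.1 h.symm
    rw [h1, map_zero, map_zero, abs_zero, norm_zero, mul_zero]
  · by_contra hc
    rw [not_le] at hc
    apply hg
    refine ⟨θ, ‖u‖⁻¹ • u, hθ, hθ0, ?_, ?_, ?_, ?_⟩
    · rw [map_smul, hu]
    · rw [map_smul, hu0, smul_zero]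
    · rw [norm_smul, norm_inv, norm_norm, inv_mul_cancel₀ h.ne']
    · rw [map_smul, map_smul, smul_eq_mul, abs_mul, abs_inv, abs_norm, inv_mul_eq_div, lt_div_iff₀ h]
      exact hc

private theorem fb_S_single (i : I) (w : W) : S b ({i} : Set I) w = b.coord i w • b i := by
  have := S_finset b ({i} : Finset I)
  rw [Finset.coe_singleton, Finset.sum_singleton] at this
  rw [this, UUB.R_apply]

private theorem fb_goodS {J : Row → Finset I} {ω : Ω} (hg : ¬ Bad row e b J η ω) {A : Set I}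
    (hAJ : A ⊆ (J (row ω) : Set I)) {u : W}
    (hu : S e (rowS row (row ω)) u = u) (hu0 : e.coord (Sum.inl ω) u = 0) :
    |e.coord (Sum.inl ω) (S b A u)| ≤ η * ‖u‖ := by
  classical
  refine fb_good hg ?_ ?_ hu hu0
  · intro i
    rw [Set.indicator_apply]
    split_ifs <;> simp
  · intro i hi
    exact Set.indicator_of_notMem (fun h => hi (hAJ h)) _

/-- The diagonal entry. -/
private noncomputable def fbp (row : Ω → Row) (e : UnconditionalSchauderBasis (Ω ⊕ ℕ) ℝ W)
    (b : UnconditionalSchauderBasis I ℝ W) (ω : Ω) (A : Set I) : ℝ :=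
  e.coord (Sum.inl ω) (mu row e b (row ω) A (e (Sum.inl ω)))

private theorem fb_mu_apply {k : Row} (A : Set I) (w : W) :
    mu row e b k A w = S e (rowS row k) (S b A (S e (rowS row k) w)) := rfl

private theorem fb_PP {k : Row} (w : W) :
    S e (rowS row k) (S e (rowS row k) w) = S e (rowS row k) w := by
  rw [← ContinuousLinearMap.mul_apply, S_idem]

private theorem fb_mul (hA : Amb row nr e) (hb : MB b K) {J : Row → Finset I} {ω : Ω}
    (hR : Rig row e b (row ω) ε) (h0 : 0 ≤ η)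
    (hg : ¬ Bad row e b J η ω) {A : Set I} (hAJ : A ⊆ (J (row ω) : Set I)) (B : Set I) :
    |fbp row e b ω A * fbp row e b ω B - fbp row e b ω (A ∩ B)| ≤ η * K + ε := by
  set s : Ω ⊕ ℕ := Sum.inl ω with hs
  set v : W := mu row e b (row ω) B (e s) with hv
  set u : W := v - e.coord s v • e s with hu
  have hvP : S e (rowS row (row ω)) v = v := by
    rw [hv, fb_mu_apply, fb_PP]
  have hes : S e (rowS row (row ω)) (e s) = e s := fb_P_e rfl
  have huP : S e (rowS row (row ω)) u = u := by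
    rw [hu, map_sub, map_smul, hvP, hes]
  have hu0 : e.coord s u = 0 := by
    rw [hu, map_sub, map_smul, fb_coord_same, smul_eq_mul, mul_one, sub_self]
  have hvn : ‖v‖ ≤ K := by
    have := ((mu row e b (row ω) B).le_opNorm (e s)).trans
      (mul_le_mul_of_nonneg_right (norm_mu_le_K hA hb B) (norm_nonneg _))
    rwa [norm_e hA, mul_one] at this
  have hun : ‖u‖ ≤ K := by
    have h1 : u = S e ({s}ᶜ) v := by
      refine ext_coord e fun t => ?_
      by_cases ht : t = s
      · rw [ht, hu0, coord_S_notMem e (by simp) v]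
      · rw [coord_S_mem e (show t ∈ ({s}ᶜ : Set (Ω ⊕ ℕ)) from ht) v, hu, map_sub, map_smul,
          fb_coord_ne ht, smul_zero, sub_zero]
    rw [h1]
    refine ((S e ({s}ᶜ)).le_opNorm v).trans ?_
    exact (mul_le_mul_of_nonneg_right (norm_S_e hA _) (norm_nonneg _)).trans
      (by rw [one_mul]; exact hvn)
  have h1 : |e.coord s (S b A u)| ≤ η * K :=
    (fb_goodS hg hAJ huP hu0).trans (mul_le_mul_of_nonneg_left hun h0)
  have h2 : e.coord s (mu row e b (row ω) A v) =
      fbp row e b ω A * fbp row e b ω B + e.coord s (S b A u) := by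
    have h3 : v = e.coord s v • e s + u := by rw [hu]; abel
    have h4 : mu row e b (row ω) A v =
        e.coord s v • mu row e b (row ω) A (e s) + mu row e b (row ω) A u := by
      conv_lhs => rw [h3]
      rw [map_add, map_smul]
    rw [h4, map_add, map_smul, smul_eq_mul, mul_comm]
    congr 1
    rw [fb_mu_apply, huP, fb_coord_P rfl]
  have h5 : |e.coord s (mu row e b (row ω) A v) - fbp row e b ω (A ∩ B)| ≤ ε := by
    have h6 : e.coord s (mu row e b (row ω) A v) - fbp row e b ω (A ∩ B) =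
        e.coord s ((mu row e b (row ω) A * mu row e b (row ω) B -
          mu row e b (row ω) (A ∩ B)) (e s)) := by
      rw [ContinuousLinearMap.sub_apply, map_sub, ContinuousLinearMap.mul_apply]
      rfl
    rw [h6]
    refine (abs_coord_e hA s _).trans ?_
    have := ((mu row e b (row ω) A * mu row e b (row ω) B -
          mu row e b (row ω) (A ∩ B)).le_opNorm (e s)).trans
      (mul_le_mul_of_nonneg_right (mu_mul hR A B) (norm_nonneg _))
    rwa [norm_e hA, mul_one] at this
  rw [h2] at h5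
  rw [abs_le] at h1 h5 ⊢
  constructor <;> linarith [h1.1, h1.2, h5.1, h5.2]

private theorem fb_union {ω : Ω} {A B : Set I} (h : Disjoint A B) :
    fbp row e b ω (A ∪ B) = fbp row e b ω A + fbp row e b ω B := by
  unfold fbp
  rw [mu_union h, ContinuousLinearMap.add_apply, map_add]

private theorem fb_univ {ω : Ω} : fbp row e b ω (Set.univ : Set I) = 1 := by
  unfold fbp
  rw [mu_univ, fb_coord_P rfl, fb_coord_same]

private theorem fb_single {ω : Ω} (i : I) :
    fbp row e b ω {i} = b.coord i (e (Sum.inl ω)) * e.coord (Sum.inl ω) (b i) := by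
  unfold fbp
  rw [fb_mu_apply, fb_P_e rfl, fb_coord_P rfl, fb_S_single, map_smul, smul_eq_mul]

theorem fib (hA : Amb row nr e) {n0 : ℕ} {J : Row → Finset I} (hD : RowData row e b K ε n0 J)
    (hε : ε ≤ 1 / 100) (h0 : 0 ≤ η) (hη : η ≤ 1 / (32 * K)) {ω : Ω} (hω : n0 ≤ (row ω).1)
    (hg : ¬ Bad row e b J η ω) :
    ∃ i ∈ J (row ω), 1 / 2 ≤ |b.coord i (e (Sum.inl ω)) * e.coord (Sum.inl ω) (b i)| ∧
      ∀ u : W, S e (rowS row (row ω)) u = u → e.coord (Sum.inl ω) u = 0 →
        |b.coord i u| ≤ 2 * K * η * ‖u‖ := by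
  classical
  have hK : 0 < K := lt_of_lt_of_le one_pos hD.bd.one_le
  have hR := hD.rig (row ω) hω
  have hηK : η * K ≤ 1 / 32 := by
    have h1 : η * K ≤ 1 / (32 * K) * K := mul_le_mul_of_nonneg_right hη hK.le
    have h2 : 1 / (32 * K) * K = 1 / 32 := by field_simp
    linarith
  have hdich : ∀ A : Set I, A ⊆ (J (row ω) : Set I) →
      fbp row e b ω A ≤ 1 / 16 ∨ 15 / 16 ≤ fbp row e b ω A := by
    intro A hAJ
    have h1 := fb_mul hA hD.bd hR h0 hg hAJ A
    rw [Set.inter_self, abs_le] at h1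
    by_contra hc
    rw [not_or, not_le, not_le] at hc
    nlinarith [h1.1, h1.2, hc.1, hc.2, mul_pos (sub_pos.2 hc.1) (sub_pos.2 hc.2)]
  have hJ : 98 / 100 ≤ fbp row e b ω (J (row ω) : Set I) := by
    have h1 : fbp row e b ω ((J (row ω) : Set I) ∪ (J (row ω) : Set I)ᶜ) = 1 := by
      rw [Set.union_compl_self, fb_univ]
    rw [fb_union disjoint_compl_right] at h1
    have h2 : |fbp row e b ω (J (row ω) : Set I)ᶜ| ≤ 2 * ε := by
      refine (abs_coord_e hA _ _).trans ?_
      have := ((mu row e b (row ω) (J (row ω) : Set I)ᶜ).le_opNorm (e (Sum.inl ω))).trans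
        (mul_le_mul_of_nonneg_right (hD.small (row ω) hω _ disjoint_compl_left) (norm_nonneg _))
      rwa [norm_e hA, mul_one] at this
    rw [abs_le] at h2
    linarith [h2.2]
  have hex : ∃ i ∈ J (row ω), 3 / 4 ≤ fbp row e b ω {i} := by
    by_contra hc
    push Not at hc
    have key : ∀ F : Finset I, F ⊆ J (row ω) → fbp row e b ω (F : Set I) ≤ 1 / 16 := by
      intro F
      induction F using Finset.induction_on with
      | empty =>
        intro _
        have h1 : fbp row e b ω ((∅ : Set I) ∪ ∅) = fbp row e b ω (∅ : Set I) := by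
          rw [Set.union_self]
        rw [fb_union (Set.disjoint_empty _)] at h1
        rw [Finset.coe_empty]
        linarith
      | insert i F hi ih =>
        intro hF
        have h1 := ih (fun j hj => hF (Finset.mem_insert_of_mem hj))
        have hiJ : i ∈ J (row ω) := hF (Finset.mem_insert_self i F)
        have h2 : fbp row e b ω {i} ≤ 1 / 16 := by
          rcases hdich {i} (Set.singleton_subset_iff.2 hiJ) with h | h
          · exact h
          · linarith [hc i hiJ]
        have h3 : ((insert i F : Finset I) : Set I) = {i} ∪ (F : Set I) := by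
          rw [Finset.coe_insert, Set.singleton_union]
        have h4 : Disjoint ({i} : Set I) (F : Set I) := by
          rw [Set.disjoint_singleton_left]
          exact fun hh => hi (Finset.mem_coe.1 hh)
        have h5 : fbp row e b ω ((insert i F : Finset I) : Set I) ≤ 1 / 8 := by
          rw [h3, fb_union h4]
          linarith
        rcases hdich ((insert i F : Finset I) : Set I) (Finset.coe_subset.2 hF) with h | h
        · exact h
        · linarith
    linarith [key _ (Finset.Subset.refl _)]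
  obtain ⟨i, hiJ, hi⟩ := hex
  rw [fb_single] at hi
  have hi2 : 1 / 2 ≤ |b.coord i (e (Sum.inl ω)) * e.coord (Sum.inl ω) (b i)| :=
    le_trans (by linarith) (le_abs_self _)
  refine ⟨i, hiJ, hi2, ?_⟩
  intro u hu hu0
  have h1 := fb_goodS hg (A := {i}) (Set.singleton_subset_iff.2 hiJ) hu hu0
  rw [fb_S_single, map_smul, smul_eq_mul, abs_mul] at h1
  have h2 : |b.coord i (e (Sum.inl ω))| ≤ K := by
    have := abs_coord_b hD.bd i (e (Sum.inl ω))
    rwa [norm_e hA, mul_one] at this
  rw [abs_mul] at hi2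
  have h3 : 1 / 2 ≤ K * |e.coord (Sum.inl ω) (b i)| :=
    hi2.trans (mul_le_mul_of_nonneg_right h2 (abs_nonneg _))
  calc |b.coord i u| = 2 * (1 / 2 * |b.coord i u|) := by ring
    _ ≤ 2 * (K * |e.coord (Sum.inl ω) (b i)| * |b.coord i u|) := by
        have := mul_le_mul_of_nonneg_right h3 (abs_nonneg (b.coord i u))
        linarith
    _ = 2 * K * (|b.coord i u| * |e.coord (Sum.inl ω) (b i)|) := by ring
    _ ≤ 2 * K * (η * ‖u‖) := mul_le_mul_of_nonneg_left h1 (by positivity)
    _ = 2 * K * η * ‖u‖ := by ring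

/-- The injectivity. -/
theorem fib_inj (hA : Amb row nr e) (hb : MB b K) (hη : η ≤ 1 / (32 * K)) {ω ω' : Ω} (hne : ω ≠ ω')
    (hr : row ω = row ω') {i : I}
    (h : ∀ u : W, S e (rowS row (row ω)) u = u → e.coord (Sum.inl ω) u = 0 →
        |b.coord i u| ≤ 2 * K * η * ‖u‖)
    (h' : 1 / 2 ≤ |b.coord i (e (Sum.inl ω')) * e.coord (Sum.inl ω') (b i)|) : False := by
  have hK : 0 < K := lt_of_lt_of_le one_pos hb.one_le
  have h1 := h (e (Sum.inl ω')) (fb_P_e hr.symm)
    (fb_coord_ne (fun hh => hne (Sum.inl_injective hh)))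
  rw [norm_e hA, mul_one] at h1
  have h2 : |e.coord (Sum.inl ω') (b i)| ≤ 1 := by
    have := abs_coord_e hA (Sum.inl ω') (b i)
    rwa [hb.nm] at this
  have h3 : η * K ≤ 1 / 32 := by
    have h1 : η * K ≤ 1 / (32 * K) * K := mul_le_mul_of_nonneg_right hη hK.le
    have h2 : 1 / (32 * K) * K = 1 / 32 := by field_simp
    linarith
  rw [abs_mul] at h'
  have h4 : |b.coord i (e (Sum.inl ω'))| * |e.coord (Sum.inl ω') (b i)| ≤
      |b.coord i (e (Sum.inl ω'))| * 1 := mul_le_mul_of_nonneg_left h2 (abs_nonneg _)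
  nlinarith [h4, h1, h3]

end Pool.Agent.UBN
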