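import Pool.Agent.UBN.Gn1
import Pool.Agent.UBN.Bn

/-!
# The row norms of a vector, as a vector of `G`

`gh A x = ∑ k, l2 (rres {k} x) • ev k 0`, a vector of `Om →₀ ℝ` with `(gh A x) (k, 0) = l2 (rres {k} x)`.
* `gh_le`: `domO` with `C = 1`: level by level `rn l (rres T (gh x)) k = l2 (x_k) ≤ rn l (rres T x) k`.
* `gh_mono`: `nrO` is a lattice norm.
-/

namespace Pool.Agent.UBN

open Pool.Agent.UUB Finset

/-- The vector of row norms. -/
noncomputable def gh (A : Set Om) (x : A →₀ ℝ) : Om →₀ ℝ :=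
  ∑ k ∈ x.support.image (rowB A), l2 (rres (rowB A) {k} x) • ev k 0

open Classical in
theorem gh_ev_apply (k : Row) (θ : ℕ) (ω : Om) :
    ev k θ ω = if rowO ω = k ∧ fb ω = θ then 1 else 0 := by
  by_cases h : k.2 < rowsN k.1 ∧ θ < Rn k.1 + 2
  · obtain ⟨o, ho, ho'⟩ : ∃ o : Om, ev k θ = Finsupp.single o 1 ∧ o.1 = (k.1, k.2, θ) :=
      ⟨⟨(k.1, k.2, θ), h⟩, dif_pos h, rfl⟩
    rw [ho, Finsupp.single_apply]
    have h1 : o = ω ↔ (rowO ω = k ∧ fb ω = θ) := by
      constructor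
      · intro h2
        subst h2
        unfold rowO fb
        rw [ho']
        exact ⟨rfl, rfl⟩
      · rintro ⟨h2, h3⟩
        refine Subtype.ext ?_
        rw [ho', ← h2, ← h3]
        rfl
    by_cases h4 : rowO ω = k ∧ fb ω = θ
    · rw [if_pos h4, if_pos (h1.2 h4)]
    · rw [if_neg h4, if_neg (fun h5 => h4 (h1.1 h5))]
  · rw [show ev k θ = 0 from dif_neg h, Finsupp.zero_apply, if_neg]
    rintro ⟨h2, h3⟩
    apply h
    subst h2 h3
    exact ω.2

theorem gh_l2_nonneg {α : Type} (x : α →₀ ℝ) : 0 ≤ l2 x := Real.sqrt_nonneg _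

theorem gh_l2_zero {α : Type} : l2 (0 : α →₀ ℝ) = 0 := by
  unfold l2
  rw [Finsupp.support_zero, sum_empty, Real.sqrt_zero]

theorem gh_rres_zero (A : Set Om) (x : A →₀ ℝ) {k : Row}
    (h : ∀ ω, x ω ≠ 0 → rowB A ω ≠ k) : l2 (rres (rowB A) {k} x) = 0 := by
  rw [rres_eq_zero (fun ω hω => ?_), gh_l2_zero]
  exact h ω hω

theorem gh_apply_zero (A : Set Om) (x : A →₀ ℝ) {ω : Om} (h : fb ω = 0) :
    gh A x ω = l2 (rres (rowB A) {rowO ω} x) := by
  classical
  unfold gh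
  rw [Finsupp.finsetSum_apply]
  by_cases hm : rowO ω ∈ x.support.image (rowB A)
  · rw [sum_eq_single_of_mem (rowO ω) hm]
    · rw [Finsupp.smul_apply, gh_ev_apply, if_pos ⟨rfl, h⟩, smul_eq_mul, mul_one]
    · intro k _ hk
      rw [Finsupp.smul_apply, gh_ev_apply, if_neg (fun h2 => hk h2.1.symm), smul_zero]
  · have h3 : l2 (rres (rowB A) {rowO ω} x) = 0 := by
      refine gh_rres_zero A x ?_
      intro ω' hω' h2
      exact hm (mem_image.2 ⟨ω', Finsupp.mem_support_iff.2 hω', h2⟩)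
    rw [h3]
    refine sum_eq_zero fun k hk => ?_
    have h4 : ¬ (rowO ω = k ∧ fb ω = 0) := by
      rintro ⟨h5, _⟩
      rw [h5] at hm
      exact hm hk
    rw [Finsupp.smul_apply, gh_ev_apply, if_neg h4, smul_zero]

theorem gh_apply_ne (A : Set Om) (x : A →₀ ℝ) {ω : Om} (h : fb ω ≠ 0) : gh A x ω = 0 := by
  classical
  unfold gh
  rw [Finsupp.finsetSum_apply]
  refine sum_eq_zero fun k _ => ?_
  rw [Finsupp.smul_apply, gh_ev_apply, if_neg (fun h2 => h h2.2), smul_zero]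

theorem rn_gh (A : Set Om) (x : A →₀ ℝ) (l : ℕ) (T : Set Row) {k : Row} (hk : k ∈ T) :
    rn l (rres rowO T (gh A x)) k = l2 (rres (rowB A) {k} x) := by
  classical
  rw [rn_rres_mem l _ hk]
  have h1 : ∀ ω, rowO ω = k → gh A x ω = (l2 (rres (rowB A) {k} x) • ev k 0) ω := by
    intro ω hω
    rw [Finsupp.smul_apply, gh_ev_apply, smul_eq_mul]
    by_cases hf : fb ω = 0
    · rw [if_pos ⟨hω, hf⟩, mul_one, gh_apply_zero A x hf, hω]
    · rw [if_neg (fun h2 => hf h2.2), mul_zero, gh_apply_ne A x hf]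
  have h2 : rn l (gh A x) k = rn l (l2 (rres (rowB A) {k} x) • ev k 0) k :=
    le_antisymm (rn_mono l (fun ω hω => by rw [h1 ω hω])) (rn_mono l (fun ω hω => by rw [h1 ω hω]))
  rw [h2, rn_smul, abs_of_nonneg (gh_l2_nonneg _)]
  by_cases hr : k.2 < rowsN k.1
  · rw [rn_single l hr (by omega), wt_elem_zero, mul_one]
  · rw [gh_rres_zero A x, zero_mul]
    intro ω _ h3
    apply hr
    rw [← h3]
    exact ω.1.2.1

theorem gh_l2_hat (A : Set Om) (x : A →₀ ℝ) (k : Row) :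
    l2 (rres rowO {k} (x.mapDomain (Subtype.val : A → Om))) = l2 (rres (rowB A) {k} x) := by
  rw [rres_mapDomain, l2_mapDomain]

theorem gh_le (A : Set Om) (x : A →₀ ℝ) : nrO (gh A x) ≤ nrB A x := by
  have h : nrO (gh A x) ≤ 1 * nrO (x.mapDomain (Subtype.val : A → Om)) := by
    refine domO zero_le_one ?_
    intro n T
    rw [one_mul]
    refine Nw_le' ?_
    intro l hl F hF hc
    refine le_trans ?_ (le_Nw hl hF hc _)
    refine mul_le_mul_of_nonneg_left (sum_le_sum fun k _ => ?_) (by positivity)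
    by_cases hk : k ∈ T
    · rw [rn_gh A x l T hk, rn_rres_mem l _ hk, ← gh_l2_hat]
      exact l2_le_rn l _ k
    · rw [rn_rres_notMem l _ hk]
      exact rn_nonneg l _ k
  rw [one_mul] at h
  exact h

theorem gh_mono (A : Set Om) (x y : A →₀ ℝ) {C : ℝ} (hC : 0 ≤ C)
    (h : ∀ k, l2 (rres (rowB A) {k} x) ≤ C * l2 (rres (rowB A) {k} y)) :
    nrO (gh A x) ≤ C * nrO (gh A y) := by
  have h1 : nrO (gh A x) ≤ nrO (C • gh A y) := by
    refine rigO.mono _ _ ?_
    intro ω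
    rw [Finsupp.smul_apply, smul_eq_mul]
    by_cases hf : fb ω = 0
    · rw [gh_apply_zero A x hf, gh_apply_zero A y hf, abs_of_nonneg (gh_l2_nonneg _),
        abs_of_nonneg (mul_nonneg hC (gh_l2_nonneg _))]
      exact h _
    · rw [gh_apply_ne A x hf, gh_apply_ne A y hf, mul_zero]
  rw [rigO.smul, abs_of_nonneg hC] at h1
  exact h1

/-- `Gn` of the row norms is at most the window norm of `gh`. -/
theorem Gn_le_gh (A : Set Om) (x : A →₀ ℝ) (n : ℕ) (T : Set Row) {F : Finset Row}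
    (hF : ∀ k ∈ F, k.1 = n ∧ k ∈ T) :
    Gn n F (fun k => l2 (rres (rowB A) {k} x)) ≤ Nw n (rres rowO T (gh A x)) := by
  refine Gn_le ?_
  intro l hl F' hF' hc
  refine le_trans (le_of_eq ?_) (le_Nw hl (fun k hk => (hF k (hF' hk)).1) hc _)
  congr 1
  refine sum_congr rfl fun k hk => ?_
  rw [rn_gh A x l T (hF k (hF' hk)).2, abs_of_nonneg (gh_l2_nonneg _)]

end Pool.Agent.UBN
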