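import Pool.Agent.UBN.Rs3

/-!
# The basis `b` is equivalent to `e`

Main part: `I_main = {g ω : window of ω ≥ n0}` (`main_surj`; `g` is injective there by `disj`), rest
`T = {i | ∀ k, n0 ≤ k.1 → i ∉ J k}`, infinite.  The complement of the main coordinates,
`{inl ω | window < n0} ∪ range inr`, is infinite and countable, and on it the norm of `e` is equivalent to the
`ℓ_2` norm (finitely many coordinates `inl ω`).  Choose a bijection of `T` onto it and combine with the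
inverse of `g`: `σ : I ≃ Ω ⊕ ℕ`.  The inequalities: `‖main + rest‖ ≤ ‖main‖ + ‖rest‖` and `‖main‖, ‖rest‖ ≤ K ‖sum‖`
(resp. `≤ ‖sum‖` for `e`).
-/

namespace Pool.Agent.UBN

open Pool.Agent.UUB Finset

variable {Ω I : Type} {W : Type} [NormedAddCommGroup W] [NormedSpace ℝ W] [CompleteSpace W]
  {row : Ω → Row} {nr : (Ω →₀ ℝ) → ℝ} {e : UnconditionalSchauderBasis (Ω ⊕ ℕ) ℝ W}
  {b : UnconditionalSchauderBasis I ℝ W} {K ε : ℝ}

private theorem gl_S_sum {J : Type} (b : UnconditionalSchauderBasis J ℝ W) {ι : Type} (σ : ι → J)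
    (p : J → Prop) [DecidablePred p] (F : Finset ι) (c : ι → ℝ) :
    S b {s | p s} (∑ i ∈ F, c i • b (σ i)) = ∑ i ∈ F.filter (fun i => p (σ i)), c i • b (σ i) := by
  rw [map_sum, sum_filter]
  apply sum_congr rfl
  intro i _
  rw [map_smul]
  by_cases hi : p (σ i)
  · rw [if_pos hi, S_basis_mem b (show σ i ∈ {s | p s} from hi)]
  · rw [if_neg hi, S_basis_notMem b (show σ i ∉ {s | p s} from hi), smul_zero]

private theorem gl_sub_e (hA : Amb row nr e) {ι : Type} (σ : ι → Ω ⊕ ℕ)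
    (p : Ω ⊕ ℕ → Prop) [DecidablePred p] (F : Finset ι) (c : ι → ℝ) :
    ‖∑ i ∈ F.filter (fun i => p (σ i)), c i • e (σ i)‖ ≤ ‖∑ i ∈ F, c i • e (σ i)‖ := by
  rw [← gl_S_sum e σ p F c]
  refine ((S e {s | p s}).le_opNorm _).trans ?_
  have h1 := norm_S_e hA {s | p s}
  have h2 := norm_nonneg (∑ i ∈ F, c i • e (σ i))
  nlinarith

private theorem gl_sub_b (hb : MB b K) (p : I → Prop) [DecidablePred p] (F : Finset I)
    (c : I → ℝ) :
    ‖∑ i ∈ F.filter (fun i => p i), c i • b i‖ ≤ K * ‖∑ i ∈ F, c i • b i‖ := by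
  have h0 := gl_S_sum b (fun i => i) p F c
  rw [← h0]
  refine ((S b {s | p s}).le_opNorm _).trans ?_
  exact mul_le_mul_of_nonneg_right (norm_S_b hb _) (norm_nonneg _)

private theorem gl_l2 {ι : Type} (A : Finset ι) (m : ι → ℕ)
    (hm : ∀ i ∈ A, ∀ j ∈ A, m i = m j → i = j) (c : ι → ℝ) :
    l2 (∑ i ∈ A, Finsupp.single (m i) (c i)) = Real.sqrt (∑ i ∈ A, c i ^ 2) := by
  classical
  unfold l2
  congr 1
  have hval : ∀ j ∈ A, (∑ i ∈ A, Finsupp.single (m i) (c i)) (m j) = c j := by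
    intro j hj
    rw [Finsupp.finsetSum_apply, sum_eq_single j]
    · rw [Finsupp.single_eq_same]
    · intro i hi hij
      rw [Finsupp.single_apply, if_neg (fun h => hij (hm i hi j hj h))]
    · intro h
      exact absurd hj h
  have hsub : (∑ i ∈ A, Finsupp.single (m i) (c i)).support ⊆ A.image m := by
    intro n hn
    by_contra hcon
    apply (Finsupp.mem_support_iff.1 hn)
    rw [Finsupp.finsetSum_apply]
    apply sum_eq_zero
    intro i hi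
    rw [Finsupp.single_apply, if_neg]
    intro h
    exact hcon (mem_image.2 ⟨i, hi, h⟩)
  rw [sum_subset hsub (fun n _ hn => by
    rw [Finsupp.notMem_support_iff.1 hn]; norm_num), sum_image (fun i hi j hj h => hm i hi j hj h)]
  apply sum_congr rfl
  intro j hj
  rw [hval j hj]

private theorem gl_norm_inr (hA : Amb row nr e) {ι : Type} (A : Finset ι) (σ : ι → Ω ⊕ ℕ)
    (m : ι → ℕ) (hσ : ∀ i ∈ A, σ i = Sum.inr (m i))
    (hm : ∀ i ∈ A, ∀ j ∈ A, m i = m j → i = j) (c : ι → ℝ) :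
    ‖∑ i ∈ A, c i • e (σ i)‖ = Real.sqrt (∑ i ∈ A, c i ^ 2) := by
  rw [← gl_l2 A m hm c, ← norm_embH hA]
  congr 1
  unfold embH
  rw [map_sum]
  apply sum_congr rfl
  intro i hi
  rw [Finsupp.linearCombination_single, hσ i hi]

omit [CompleteSpace W] in
private theorem gl_coord {J : Type} (b : UnconditionalSchauderBasis J ℝ W) (s t : J) :
    (s = t → b.coord s (b t) = 1) ∧ (s ≠ t → b.coord s (b t) = 0) := by
  classical
  refine ⟨fun h => ?_, fun h => ?_⟩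
  · rw [b.ortho, Pi.single_apply, if_pos h]
  · rw [b.ortho, Pi.single_apply, if_neg h]

private theorem gl_sqrt_add {u v : ℝ} (hu : 0 ≤ u) (hv : 0 ≤ v) :
    Real.sqrt (u + v) ≤ Real.sqrt u + Real.sqrt v := by
  apply Real.sqrt_le_iff.2
  have h1 := Real.sqrt_nonneg u
  have h2 := Real.sqrt_nonneg v
  refine ⟨by positivity, ?_⟩
  have h3 := Real.sq_sqrt hu
  have h4 := Real.sq_sqrt hv
  nlinarith [mul_nonneg h1 h2]

private theorem gl_sq_sum {ι : Type} (A : Finset ι) (f : ι → ℝ) (hf : ∀ i ∈ A, 0 ≤ f i) :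
    ∑ i ∈ A, f i ^ 2 ≤ (∑ i ∈ A, f i) ^ 2 := by
  have h1 : ∀ i ∈ A, f i ^ 2 ≤ f i * ∑ j ∈ A, f j := by
    intro i hi
    rw [sq]
    exact mul_le_mul_of_nonneg_left (single_le_sum hf hi) (hf i hi)
  refine (sum_le_sum h1).trans ?_
  rw [← sum_mul, sq]

/-- On the complement of the main part the norm of `e` is equivalent to the `ℓ_2` norm. -/
private theorem gl_rest (hA : Amb row nr e) (n0 : ℕ) : ∃ C : ℝ, 0 ≤ C ∧
    ∀ {ι : Type} (F : Finset ι) (σ : ι → Ω ⊕ ℕ) (c : ι → ℝ),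
      (∀ i ∈ F, ∀ j ∈ F, σ i = σ j → i = j) →
      (∀ i ∈ F, ∀ ω, σ i = Sum.inl ω → (row ω).1 < n0) →
      ‖∑ i ∈ F, c i • e (σ i)‖ ≤ C * Real.sqrt (∑ i ∈ F, c i ^ 2) ∧
      Real.sqrt (∑ i ∈ F, c i ^ 2) ≤ C * ‖∑ i ∈ F, c i • e (σ i)‖ := by
  classical
  have hfin : (winS row 0 n0).Finite := finite_winS hA 0 n0
  refine ⟨2 * (hfin.toFinset.card : ℝ) + 1, by positivity, ?_⟩
  intro ι F σ c hinj hD
  set Fa := F.filter (fun i => σ i ∈ winS row 0 n0) with hFa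
  set Fb := F.filter (fun i => ¬ σ i ∈ winS row 0 n0) with hFb
  have hsplit : ∑ i ∈ F, c i • e (σ i) = ∑ i ∈ Fa, c i • e (σ i) + ∑ i ∈ Fb, c i • e (σ i) :=
    (sum_filter_add_sum_filter_not F _ _).symm
  have hsplit2 : ∑ i ∈ F, c i ^ 2 = ∑ i ∈ Fa, c i ^ 2 + ∑ i ∈ Fb, c i ^ 2 :=
    (sum_filter_add_sum_filter_not F _ _).symm
  have hcardN : (Fa.card : ℝ) ≤ hfin.toFinset.card := by
    have : Fa.card ≤ hfin.toFinset.card := by
      apply card_le_card_of_injOn σ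
      · intro i hi
        rw [mem_coe, hFa, mem_filter] at hi
        rw [mem_coe, Set.Finite.mem_toFinset]
        exact hi.2
      · intro i hi j hj h
        rw [mem_coe, hFa, mem_filter] at hi hj
        exact hinj i hi.1 j hj.1 h
    exact_mod_cast this
  have hmb : ∀ i : ι, ∃ m : ℕ, i ∈ Fb → σ i = Sum.inr m := by
    intro i
    rcases hs : σ i with ω | m
    · refine ⟨0, fun hi => ?_⟩
      rw [hFb, mem_filter] at hi
      exfalso
      apply hi.2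
      rw [hs]
      exact ⟨Nat.zero_le _, hD i hi.1 ω hs⟩
    · exact ⟨m, fun _ => rfl⟩
  choose m hm using hmb
  have hnb : ‖∑ i ∈ Fb, c i • e (σ i)‖ = Real.sqrt (∑ i ∈ Fb, c i ^ 2) := by
    apply gl_norm_inr hA Fb σ m hm
    intro i hi j hj h
    have h1 : σ i = σ j := by rw [hm i hi, hm j hj, h]
    exact hinj i (mem_filter.1 hi).1 j (mem_filter.1 hj).1 h1
  have hna : ‖∑ i ∈ Fa, c i • e (σ i)‖ ≤ ∑ i ∈ Fa, |c i| := by
    refine (norm_sum_le _ _).trans (sum_le_sum fun i _ => ?_)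
    rw [norm_smul, norm_e hA, mul_one, Real.norm_eq_abs]
  have hsq : ∀ i ∈ F, |c i| ≤ Real.sqrt (∑ i ∈ F, c i ^ 2) := by
    intro i hi
    apply Real.abs_le_sqrt
    exact single_le_sum (f := fun i => c i ^ 2) (fun j _ => sq_nonneg _) hi
  have hco : ∀ i ∈ F, |c i| ≤ ‖∑ i ∈ F, c i • e (σ i)‖ := by
    intro i hi
    have h1 := abs_coord_e hA (σ i) (∑ i ∈ F, c i • e (σ i))
    have h2 : e.coord (σ i) (∑ i ∈ F, c i • e (σ i)) = c i := by
      rw [map_sum, sum_eq_single i]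
      · rw [map_smul, (gl_coord e _ _).1 rfl, smul_eq_mul, mul_one]
      · intro j hj hji
        rw [map_smul, (gl_coord e _ _).2, smul_zero]
        intro h
        exact hji (hinj j hj i hi h.symm)
      · intro h
        exact absurd hi h
    rwa [h2] at h1
  have hmono : Real.sqrt (∑ i ∈ Fb, c i ^ 2) ≤ Real.sqrt (∑ i ∈ F, c i ^ 2) := by
    apply Real.sqrt_le_sqrt
    rw [hsplit2]
    have : 0 ≤ ∑ i ∈ Fa, c i ^ 2 := sum_nonneg fun i _ => sq_nonneg _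
    linarith
  have hN0 : (0 : ℝ) ≤ hfin.toFinset.card := Nat.cast_nonneg _
  constructor
  · have h1 : ∑ i ∈ Fa, |c i| ≤ hfin.toFinset.card * Real.sqrt (∑ i ∈ F, c i ^ 2) := by
      have h2 := sum_le_card_nsmul Fa (fun i => |c i|) _
        (fun i hi => hsq i (mem_filter.1 hi).1)
      rw [nsmul_eq_mul] at h2
      exact h2.trans (mul_le_mul_of_nonneg_right hcardN (Real.sqrt_nonneg _))
    have h3 : ‖∑ i ∈ F, c i • e (σ i)‖ ≤ ∑ i ∈ Fa, |c i| + Real.sqrt (∑ i ∈ F, c i ^ 2) := by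
      rw [hsplit]
      refine (norm_add_le _ _).trans (add_le_add hna ?_)
      rw [hnb]
      exact hmono
    have h4 : 0 ≤ hfin.toFinset.card * Real.sqrt (∑ i ∈ F, c i ^ 2) :=
      mul_nonneg hN0 (Real.sqrt_nonneg _)
    nlinarith
  · set Y := ‖∑ i ∈ F, c i • e (σ i)‖ with hY
    have hY0 : 0 ≤ Y := norm_nonneg _
    have h1 : ∑ i ∈ Fa, |c i| ≤ hfin.toFinset.card * Y := by
      have h2 := sum_le_card_nsmul Fa (fun i => |c i|) _
        (fun i hi => hco i (mem_filter.1 hi).1)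
      rw [nsmul_eq_mul] at h2
      exact h2.trans (mul_le_mul_of_nonneg_right hcardN hY0)
    have h3 : Real.sqrt (∑ i ∈ Fb, c i ^ 2) ≤ Y + ∑ i ∈ Fa, |c i| := by
      rw [← hnb]
      have h4 : ∑ i ∈ Fb, c i • e (σ i) = ∑ i ∈ F, c i • e (σ i) - ∑ i ∈ Fa, c i • e (σ i) := by
        rw [hsplit, add_sub_cancel_left]
      rw [h4]
      exact (norm_sub_le _ _).trans (add_le_add le_rfl hna)
    have h5 : Real.sqrt (∑ i ∈ F, c i ^ 2) ≤
        Real.sqrt (∑ i ∈ Fa, c i ^ 2) + Real.sqrt (∑ i ∈ Fb, c i ^ 2) := by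
      rw [hsplit2]
      exact gl_sqrt_add (sum_nonneg fun i _ => sq_nonneg _) (sum_nonneg fun i _ => sq_nonneg _)
    have h6 : Real.sqrt (∑ i ∈ Fa, c i ^ 2) ≤ ∑ i ∈ Fa, |c i| := by
      apply Real.sqrt_le_iff.2
      refine ⟨sum_nonneg fun i _ => abs_nonneg _, ?_⟩
      have h7 : ∑ i ∈ Fa, c i ^ 2 = ∑ i ∈ Fa, |c i| ^ 2 :=
        sum_congr rfl fun i _ => (sq_abs _).symm
      rw [h7]
      exact gl_sq_sum Fa _ (fun i _ => abs_nonneg _)
    nlinarith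

theorem equiv_of_main [Countable I] [Countable Ω] (hA : Amb row nr e) {n0 : ℕ}
    {J : Row → Finset I} (hD : RowData row e b K ε n0 J) (hM : MainEq row nr b n0 J)
    (hinf : {i : I | ∀ k : Row, n0 ≤ k.1 → i ∉ J k}.Infinite)
    (hl2 : ∃ C : ℝ, 0 < C ∧ ∀ (F : Finset I) (c : I → ℝ),
      (F : Set I) ⊆ {i : I | ∀ k : Row, n0 ≤ k.1 → i ∉ J k} →
      ‖∑ i ∈ F, c i • b i‖ ≤ C * Real.sqrt (∑ i ∈ F, c i ^ 2) ∧
      Real.sqrt (∑ i ∈ F, c i ^ 2) ≤ C * ‖∑ i ∈ F, c i • b i‖) :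
    ∃ (σ : I ≃ Ω ⊕ ℕ) (C : ℝ), 0 < C ∧ ∀ (F : Finset I) (c : I → ℝ),
      ‖∑ i ∈ F, c i • b i‖ ≤ C * ‖∑ i ∈ F, c i • e (σ i)‖ ∧
      ‖∑ i ∈ F, c i • e (σ i)‖ ≤ C * ‖∑ i ∈ F, c i • b i‖ := by
  classical
  obtain ⟨g, C0, hg, hgi, hgC⟩ := hM
  obtain ⟨C1, hC1, hC1b⟩ := hl2
  obtain ⟨C2, hC2, hC2b⟩ := gl_rest hA n0
  set T : Set I := {i : I | ∀ k : Row, n0 ≤ k.1 → i ∉ J k} with hT
  have hginj : ∀ ω ω', n0 ≤ (row ω).1 → n0 ≤ (row ω').1 → g ω = g ω' → ω = ω' := by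
    intro ω ω' h1 h2 h
    by_cases hr : row ω = row ω'
    · exact hgi ω ω' h1 hr h
    · exfalso
      have h3 := hD.disj _ _ h1 h2 hr
      have h4 := hg ω h1
      have h5 := hg ω' h2
      rw [← h] at h5
      exact (disjoint_left.1 h3) h4 h5
  have hgT : ∀ ω, n0 ≤ (row ω).1 → g ω ∉ T := fun ω h hT' => hT' _ h (hg ω h)
  have hh : ∀ i, i ∉ T → ∃ ω, n0 ≤ (row ω).1 ∧ g ω = i := by
    intro i hi
    rw [hT, Set.mem_ofPred_eq] at hi
    push Not at hi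
    obtain ⟨k, hk, hik⟩ := hi
    obtain ⟨ω, h1, h2⟩ := main_surj hA hD hg hgi hk hik
    exact ⟨ω, by rw [h1]; exact hk, h2⟩
  have hne : Nonempty Ω ∨ ∀ i, i ∈ T := by
    by_cases h : ∀ i, i ∈ T
    · exact Or.inr h
    · left
      push Not at h
      obtain ⟨i, hi⟩ := h
      obtain ⟨ω, -⟩ := hh i hi
      exact ⟨ω⟩
  -- the complement of the main coordinates
  let D : Set (Ω ⊕ ℕ) := {s | ∀ ω, s = Sum.inl ω → (row ω).1 < n0}
  have hDinf : D.Infinite := by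
    apply Set.infinite_of_injective_forall_mem (f := fun m : ℕ => (Sum.inr m : Ω ⊕ ℕ))
      Sum.inr_injective
    intro m ω h
    exact absurd h (by simp)
  have : Infinite T := hinf.to_subtype
  have : Infinite D := hDinf.to_subtype
  obtain ⟨τ⟩ := nonempty_equiv_of_countable (α := T) (β := D)
  have hex : ∀ i : I, ∃ s : Ω ⊕ ℕ, (∀ h : i ∈ T, s = (τ ⟨i, h⟩).1) ∧
      (i ∉ T → ∃ ω, n0 ≤ (row ω).1 ∧ g ω = i ∧ s = Sum.inl ω) := by
    intro i
    by_cases hi : i ∈ T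
    · exact ⟨(τ ⟨i, hi⟩).1, fun _ => rfl, fun h => absurd hi h⟩
    · obtain ⟨ω, h1, h2⟩ := hh i hi
      exact ⟨Sum.inl ω, fun h => absurd h hi, fun _ => ⟨ω, h1, h2, rfl⟩⟩
  choose f hfT hfN using hex
  have hfD : ∀ i, i ∈ T → f i ∈ D := by
    intro i hi
    rw [hfT i hi]
    exact (τ ⟨i, hi⟩).2
  have hfND : ∀ i, i ∉ T → f i ∉ D := by
    intro i hi h
    obtain ⟨ω, h1, -, h2⟩ := hfN i hi
    have := h ω h2
    omega
  have hbij : Function.Bijective f := by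
    constructor
    · intro i j hij
      by_cases hi : i ∈ T
      · by_cases hj : j ∈ T
        · rw [hfT i hi, hfT j hj] at hij
          have h1 := τ.injective (Subtype.ext hij)
          exact congrArg Subtype.val h1
        · exact absurd (hij ▸ hfD i hi) (hfND j hj)
      · by_cases hj : j ∈ T
        · exact absurd (hij ▸ hfD j hj) (hfND i hi)
        · obtain ⟨ω, -, h1, h2⟩ := hfN i hi
          obtain ⟨ω', -, h3, h4⟩ := hfN j hj
          rw [h2, h4] at hij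
          have h5 : ω = ω' := Sum.inl_injective hij
          rw [← h1, ← h3, h5]
    · intro s
      by_cases hs : s ∈ D
      · refine ⟨(τ.symm ⟨s, hs⟩).1, ?_⟩
        rw [hfT _ (τ.symm ⟨s, hs⟩).2]
        simp
      · have h1 : ∃ ω, s = Sum.inl ω ∧ n0 ≤ (row ω).1 := by
          by_contra hcon
          push Not at hcon
          exact hs hcon
        obtain ⟨ω, rfl, h2⟩ := h1
        refine ⟨g ω, ?_⟩
        obtain ⟨ω', h3, h4, h5⟩ := hfN (g ω) (hgT ω h2)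
        rw [h5, hginj ω' ω h3 h2 h4]
  let σ : I ≃ Ω ⊕ ℕ := Equiv.ofBijective f hbij
  have hσ : ∀ i, σ i = f i := fun _ => rfl
  -- the main part
  have hmain : ∀ (F : Finset I) (c : I → ℝ), (∀ i ∈ F, i ∉ T) →
      ‖∑ i ∈ F, c i • b i‖ ≤ |C0| * ‖∑ i ∈ F, c i • e (σ i)‖ ∧
      ‖∑ i ∈ F, c i • e (σ i)‖ ≤ |C0| * ‖∑ i ∈ F, c i • b i‖ := by
    intro F c hF
    have hω : ∀ i : I, ∃ o : Option Ω, i ∈ F → ∃ ω, o = some ω ∧ n0 ≤ (row ω).1 ∧ g ω = i ∧
        f i = Sum.inl ω := by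
      intro i
      by_cases hi : i ∈ F
      · obtain ⟨ω, h1, h2, h3⟩ := hfN i (hF i hi)
        exact ⟨some ω, fun _ => ⟨ω, rfl, h1, h2, h3⟩⟩
      · exact ⟨none, fun h => absurd h hi⟩
    choose o ho using hω
    let pc : I → Ω →₀ ℝ := fun i => (o i).elim 0 (fun ω => Finsupp.single ω (c i))
    have hpc : ∀ i ω, o i = some ω → pc i = Finsupp.single ω (c i) := by
      intro i ω h
      change (o i).elim 0 (fun ω => Finsupp.single ω (c i)) = _
      rw [h]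
      rfl
    obtain ⟨x, hx⟩ : ∃ x : Ω →₀ ℝ, x = ∑ i ∈ F, pc i := ⟨_, rfl⟩
    have hx1 : Finsupp.linearCombination ℝ (fun ω => b (g ω)) x = ∑ i ∈ F, c i • b i := by
      rw [hx, map_sum]
      apply sum_congr rfl
      intro i hi
      obtain ⟨ω, h1, -, h2, -⟩ := ho i hi
      rw [hpc i ω h1, Finsupp.linearCombination_single, h2]
    have hx2 : emb e x = ∑ i ∈ F, c i • e (σ i) := by
      rw [hx, map_sum]
      apply sum_congr rfl
      intro i hi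
      obtain ⟨ω, h1, -, -, h2⟩ := ho i hi
      rw [hpc i ω h1, hσ, h2]
      unfold emb
      rw [Finsupp.linearCombination_single]
    have hx3 : ∀ ω, x ω ≠ 0 → n0 ≤ (row ω).1 := by
      intro ω hne0
      by_contra hcon
      apply hne0
      rw [hx, Finsupp.finsetSum_apply]
      apply sum_eq_zero
      intro i hi
      obtain ⟨ω', h1, h2, -, -⟩ := ho i hi
      rw [hpc i ω' h1, Finsupp.single_apply, if_neg]
      rintro rfl
      exact hcon h2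
    have h4 := hgC x hx3
    rw [← Finsupp.linearCombination_apply, hx1, ← norm_emb hA x, hx2] at h4
    refine ⟨h4.1.trans ?_, h4.2.trans ?_⟩
    · exact mul_le_mul_of_nonneg_right (le_abs_self _) (norm_nonneg _)
    · exact mul_le_mul_of_nonneg_right (le_abs_self _) (norm_nonneg _)
  -- the rest
  have hrest : ∀ (F : Finset I) (c : I → ℝ), (∀ i ∈ F, i ∈ T) →
      ‖∑ i ∈ F, c i • b i‖ ≤ C1 * C2 * ‖∑ i ∈ F, c i • e (σ i)‖ ∧
      ‖∑ i ∈ F, c i • e (σ i)‖ ≤ C1 * C2 * ‖∑ i ∈ F, c i • b i‖ := by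
    intro F c hF
    have h1 := hC1b F c (fun i hi => hF i hi)
    have h2 := hC2b F σ c (fun i _ j _ h => σ.injective h) (fun i hi ω h => hfD i (hF i hi) ω h)
    constructor
    · calc ‖∑ i ∈ F, c i • b i‖ ≤ C1 * Real.sqrt (∑ i ∈ F, c i ^ 2) := h1.1
        _ ≤ C1 * (C2 * ‖∑ i ∈ F, c i • e (σ i)‖) := mul_le_mul_of_nonneg_left h2.2 hC1.le
        _ = _ := by ring
    · calc ‖∑ i ∈ F, c i • e (σ i)‖ ≤ C2 * Real.sqrt (∑ i ∈ F, c i ^ 2) := h2.1
        _ ≤ C2 * (C1 * ‖∑ i ∈ F, c i • b i‖) := mul_le_mul_of_nonneg_left h1.2 hC2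
        _ = _ := by ring
  have hK : 0 ≤ K := le_trans zero_le_one hD.bd.one_le
  refine ⟨σ, (|C0| + C1 * C2) * (K + 1) + 1, by positivity, fun F c => ?_⟩
  set F1 := F.filter (fun i => i ∈ T) with hF1
  set F2 := F.filter (fun i => ¬ i ∈ T) with hF2
  have hr := hrest F1 c (fun i hi => (mem_filter.1 hi).2)
  have hm := hmain F2 c (fun i hi => (mem_filter.1 hi).2)
  have hsb : ∑ i ∈ F, c i • b i = ∑ i ∈ F1, c i • b i + ∑ i ∈ F2, c i • b i :=
    (sum_filter_add_sum_filter_not F _ _).symm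
  have hse : ∑ i ∈ F, c i • e (σ i) = ∑ i ∈ F1, c i • e (σ i) + ∑ i ∈ F2, c i • e (σ i) :=
    (sum_filter_add_sum_filter_not F _ _).symm
  have hb1 : ‖∑ i ∈ F1, c i • b i‖ ≤ K * ‖∑ i ∈ F, c i • b i‖ := gl_sub_b hD.bd _ F c
  have hb2 : ‖∑ i ∈ F2, c i • b i‖ ≤ K * ‖∑ i ∈ F, c i • b i‖ := gl_sub_b hD.bd _ F c
  have he1 : ‖∑ i ∈ F1, c i • e (σ i)‖ ≤ ‖∑ i ∈ F, c i • e (σ i)‖ := by
    have h1 := gl_sub_e hA σ (fun s => σ.symm s ∈ T) F c
    simp only [Equiv.symm_apply_apply] at h1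
    exact h1
  have he2 : ‖∑ i ∈ F2, c i • e (σ i)‖ ≤ ‖∑ i ∈ F, c i • e (σ i)‖ := by
    have h1 := gl_sub_e hA σ (fun s => ¬ σ.symm s ∈ T) F c
    simp only [Equiv.symm_apply_apply] at h1
    exact h1
  have hp1 : 0 ≤ C1 * C2 := mul_nonneg hC1.le hC2
  have hp0 : 0 ≤ |C0| := abs_nonneg _
  have hyb : 0 ≤ ‖∑ i ∈ F, c i • b i‖ := norm_nonneg _
  have hye : 0 ≤ ‖∑ i ∈ F, c i • e (σ i)‖ := norm_nonneg _
  constructor
  · have h1 : ‖∑ i ∈ F, c i • b i‖ ≤ (|C0| + C1 * C2) * ‖∑ i ∈ F, c i • e (σ i)‖ := by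
      have h2 := norm_add_le (∑ i ∈ F1, c i • b i) (∑ i ∈ F2, c i • b i)
      rw [← hsb] at h2
      have h3 := mul_le_mul_of_nonneg_left he1 hp1
      have h4 := mul_le_mul_of_nonneg_left he2 hp0
      linarith [hr.1, hm.1]
    have h5 : 0 ≤ (|C0| + C1 * C2) * K * ‖∑ i ∈ F, c i • e (σ i)‖ := by positivity
    calc ‖∑ i ∈ F, c i • b i‖ ≤ (|C0| + C1 * C2) * ‖∑ i ∈ F, c i • e (σ i)‖ := h1
      _ ≤ ((|C0| + C1 * C2) * (K + 1) + 1) * ‖∑ i ∈ F, c i • e (σ i)‖ := by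
        have : ((|C0| + C1 * C2) * (K + 1) + 1) * ‖∑ i ∈ F, c i • e (σ i)‖ =
          (|C0| + C1 * C2) * K * ‖∑ i ∈ F, c i • e (σ i)‖ +
          (|C0| + C1 * C2) * ‖∑ i ∈ F, c i • e (σ i)‖ + ‖∑ i ∈ F, c i • e (σ i)‖ := by ring
        rw [this]
        linarith
  · have h1 : ‖∑ i ∈ F, c i • e (σ i)‖ ≤ (|C0| + C1 * C2) * (K * ‖∑ i ∈ F, c i • b i‖) := by
      have h2 := norm_add_le (∑ i ∈ F1, c i • e (σ i)) (∑ i ∈ F2, c i • e (σ i))
      rw [← hse] at h2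
      have h3 := mul_le_mul_of_nonneg_left hb1 hp1
      have h4 := mul_le_mul_of_nonneg_left hb2 hp0
      linarith [hr.2, hm.2]
    have h5 : 0 ≤ (|C0| + C1 * C2) * ‖∑ i ∈ F, c i • b i‖ := by positivity
    calc ‖∑ i ∈ F, c i • e (σ i)‖ ≤ (|C0| + C1 * C2) * (K * ‖∑ i ∈ F, c i • b i‖) := h1
      _ ≤ ((|C0| + C1 * C2) * (K + 1) + 1) * ‖∑ i ∈ F, c i • b i‖ := by
        have : ((|C0| + C1 * C2) * (K + 1) + 1) * ‖∑ i ∈ F, c i • b i‖ =
          (|C0| + C1 * C2) * (K * ‖∑ i ∈ F, c i • b i‖) +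
          (|C0| + C1 * C2) * ‖∑ i ∈ F, c i • b i‖ + ‖∑ i ∈ F, c i • b i‖ := by ring
        rw [this]
        linarith

end Pool.Agent.UBN
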