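import Pool.Agent.UBN.Wn

/-!
# The unlabelled norm `Gn` of sequences on rows

* the set in the definition is finite, contains `0`.
* `Gn_one_le`: for `l' ≤ l`: `(1/M_{l'}) min(card, N_{l'}) ≤ N_{l'}/M_{l'} ≤ N_l/M_l` (`ratio_mono`); for
  `l' > l`: `card F / M_{l'} ≤ N_l / M_l`.
* `Nw_gv`: `rn l (∑ k ∈ F, r k • ev k 0) k = |r k|` for `k ∈ F` (`wt_elem_zero`), `0` for other rows.
* `Gn_image`: the same for rows given by a map.
-/

namespace Pool.Agent.UBN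

open Finset

private theorem Gn_bdd (n : ℕ) (F : Finset Row) (r : Row → ℝ) :
    BddAbove {v : ℝ | ∃ l ≤ Ln n, ∃ F' ⊆ F, F'.card ≤ Nl n l ∧
      v = (1 / (Ml n l : ℝ)) * ∑ k ∈ F', |r k|} := by
  refine ⟨∑ k ∈ F, |r k|, ?_⟩
  rintro v ⟨l, _, F', hF', _, rfl⟩
  have hM : (0 : ℝ) < Ml n l := by exact_mod_cast Ml_pos n l
  have h1 : (1 / (Ml n l : ℝ)) ≤ 1 := by
    rw [div_le_one hM]
    exact_mod_cast Ml_pos n l
  have h2 : ∑ k ∈ F', |r k| ≤ ∑ k ∈ F, |r k| :=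
    Finset.sum_le_sum_of_subset_of_nonneg hF' (fun _ _ _ => abs_nonneg _)
  have h3 : 0 ≤ ∑ k ∈ F', |r k| := Finset.sum_nonneg (fun _ _ => abs_nonneg _)
  calc _ ≤ 1 * ∑ k ∈ F', |r k| := mul_le_mul_of_nonneg_right h1 h3
    _ ≤ _ := by rw [one_mul]; exact h2

theorem le_Gn {n l : ℕ} (hl : l ≤ Ln n) {F F' : Finset Row} (hF : F' ⊆ F) (hc : F'.card ≤ Nl n l)
    (r : Row → ℝ) : (1 / (Ml n l : ℝ)) * ∑ k ∈ F', |r k| ≤ Gn n F r :=
  le_csSup (Gn_bdd n F r) ⟨l, hl, F', hF, hc, rfl⟩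

theorem Gn_le {n : ℕ} {F : Finset Row} {r : Row → ℝ} {C : ℝ}
    (h : ∀ l ≤ Ln n, ∀ F' ⊆ F, F'.card ≤ Nl n l → (1 / (Ml n l : ℝ)) * ∑ k ∈ F', |r k| ≤ C) :
    Gn n F r ≤ C := by
  refine csSup_le ⟨_, 0, Nat.zero_le _, ∅, Finset.empty_subset _, by simp, rfl⟩ ?_
  rintro v ⟨l, hl, F', hF', hc, rfl⟩
  exact h l hl F' hF' hc

theorem Gn_nonneg (n : ℕ) (F : Finset Row) (r : Row → ℝ) : 0 ≤ Gn n F r := by
  have h := le_Gn (n := n) (l := 0) (Nat.zero_le _) (Finset.empty_subset F) (by simp) r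
  simpa using h

theorem Gn_mono (n : ℕ) {F F' : Finset Row} (hF : F ⊆ F') {r r' : Row → ℝ}
    (h : ∀ k ∈ F, |r k| ≤ |r' k|) : Gn n F r ≤ Gn n F' r' := by
  refine Gn_le fun l hl F'' hF'' hc => ?_
  have hM : (0 : ℝ) < Ml n l := by exact_mod_cast Ml_pos n l
  refine le_trans ?_ (le_Gn hl (hF''.trans hF) hc r')
  refine mul_le_mul_of_nonneg_left (Finset.sum_le_sum fun k hk => h k (hF'' hk)) ?_
  positivity

theorem Gn_smul (n : ℕ) (F : Finset Row) (r : Row → ℝ) {c : ℝ} (hc : 0 ≤ c) :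
    Gn n F (fun k => c * r k) = c * Gn n F r := by
  have key : ∀ (l : ℕ) (F' : Finset Row), (1 / (Ml n l : ℝ)) * ∑ k ∈ F', |c * r k|
      = c * ((1 / (Ml n l : ℝ)) * ∑ k ∈ F', |r k|) := by
    intro l F'
    have : ∑ k ∈ F', |c * r k| = c * ∑ k ∈ F', |r k| := by
      rw [Finset.mul_sum]
      refine Finset.sum_congr rfl fun k _ => ?_
      rw [abs_mul, abs_of_nonneg hc]
    rw [this]; ring
  apply le_antisymm
  · refine Gn_le fun l hl F' hF' hcard => ?_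
    rw [key]
    exact mul_le_mul_of_nonneg_left (le_Gn hl hF' hcard r) hc
  · rcases hc.eq_or_lt with h0 | h0
    · rw [← h0, zero_mul]
      exact Gn_nonneg _ _ _
    · rw [mul_comm, ← le_div_iff₀ h0]
      refine Gn_le fun l hl F' hF' hcard => ?_
      rw [le_div_iff₀ h0, mul_comm, ← key]
      exact le_Gn hl hF' hcard (fun k => c * r k)

theorem Gn_one_le (n : ℕ) {l : ℕ} (hl : l ≤ Ln n) {F : Finset Row} (hc : F.card ≤ Nl n l) :
    Gn n F (fun _ => 1) ≤ (Nl n l : ℝ) / Ml n l := by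
  refine Gn_le fun l' hl' F' hF' hc' => ?_
  have hM : (0 : ℝ) < Ml n l := by exact_mod_cast Ml_pos n l
  have hM' : (0 : ℝ) < Ml n l' := by exact_mod_cast Ml_pos n l'
  have hs : ∑ k ∈ F', |(1 : ℝ)| = (F'.card : ℝ) := by simp
  rw [hs, one_div, inv_mul_eq_div]
  rcases le_total l' l with h | h
  · rw [div_le_div_iff₀ hM' hM]
    have h1 : F'.card * Ml n l ≤ Nl n l' * Ml n l := Nat.mul_le_mul_right _ hc'
    have h2 := h1.trans (ratio_mono n h)
    exact_mod_cast h2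
  · rw [div_le_div_iff₀ hM' hM]
    have h1 : F'.card ≤ Nl n l := (Finset.card_le_card hF').trans hc
    have h2 : F'.card * Ml n l ≤ Nl n l * Ml n l' := Nat.mul_le_mul h1 (Ml_mono n h)
    exact_mod_cast h2

private theorem ev_row {k : Row} {θ : ℕ} {ω : Om} (h : ev k θ ω ≠ 0) : rowO ω = k := by
  unfold ev at h
  split_ifs at h with h'
  · by_contra hne
    refine h (Finsupp.single_eq_of_ne fun h2 => hne ?_)
    rw [h2]; rfl
  · exact absurd rfl h

private theorem rn_zero (l : ℕ) (k : Row) : rn l (0 : Om →₀ ℝ) k = 0 := by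
  have h := rn_smul l 0 (0 : Om →₀ ℝ) k
  simpa using h

private theorem rres_ev_self (k : Row) (θ : ℕ) : rres rowO {k} (ev k θ) = ev k θ :=
  rres_eq_self fun _ h => ev_row h

private theorem rres_ev_ne {k k' : Row} (hk : k ≠ k') (θ : ℕ) : rres rowO {k'} (ev k θ) = 0 :=
  rres_eq_zero fun _ h h' => hk ((ev_row h).symm.trans h')

private theorem rn_gv (n l : ℕ) {F : Finset Row} (hF : ∀ k ∈ F, k.1 = n ∧ k.2 < rowsN n)
    (r : Row → ℝ) {k : Row} (hk : k ∈ F) : rn l (∑ k ∈ F, r k • ev k 0) k = |r k| := by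
  have h1 : rres rowO {k} (∑ k ∈ F, r k • ev k 0) = r k • ev k 0 := by
    rw [map_sum, Finset.sum_eq_single k]
    · rw [map_smul, rres_ev_self]
    · intro b _ hb
      rw [map_smul, rres_ev_ne hb, smul_zero]
    · intro h; exact absurd hk h
  rw [← rn_rres_mem l (∑ k ∈ F, r k • ev k 0) (T := {k}) (k := k) rfl, h1, rn_smul,
    rn_single l (by rw [(hF k hk).1]; exact (hF k hk).2) (by omega), wt_elem_zero, mul_one]

private theorem rn_gv_notMem (l : ℕ) {F : Finset Row}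
    (r : Row → ℝ) {k : Row} (hk : k ∉ F) : rn l (∑ k ∈ F, r k • ev k 0) k = 0 := by
  have h1 : rres rowO {k} (∑ k ∈ F, r k • ev k 0) = 0 := by
    rw [map_sum]
    refine Finset.sum_eq_zero fun b hb => ?_
    rw [map_smul, rres_ev_ne (fun h : b = k => hk (h ▸ hb)), smul_zero]
  rw [← rn_rres_mem l (∑ k ∈ F, r k • ev k 0) (T := {k}) (k := k) rfl, h1, rn_zero]

theorem Nw_gv (n : ℕ) {F : Finset Row} (hF : ∀ k ∈ F, k.1 = n ∧ k.2 < rowsN n) (r : Row → ℝ) :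
    Nw n (∑ k ∈ F, r k • ev k 0) = Gn n F r := by
  classical
  apply le_antisymm
  · refine Nw_le' fun l hl F' _ hc => ?_
    have h1 : ∑ k ∈ F', rn l (∑ k ∈ F, r k • ev k 0) k = ∑ k ∈ F'.filter (· ∈ F), |r k| := by
      rw [Finset.sum_filter]
      refine Finset.sum_congr rfl fun k _ => ?_
      split_ifs with h
      · exact rn_gv n l hF r h
      · exact rn_gv_notMem l r h
    rw [h1]
    exact le_Gn hl (fun k hk => (Finset.mem_filter.1 hk).2)
      ((Finset.card_filter_le _ _).trans hc) r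
  · refine Gn_le fun l hl F' hF' hc => ?_
    have h1 : ∑ k ∈ F', |r k| = ∑ k ∈ F', rn l (∑ k ∈ F, r k • ev k 0) k :=
      Finset.sum_congr rfl fun k hk => (rn_gv n l hF r (hF' hk)).symm
    rw [h1]
    exact le_Nw hl (fun k hk => (hF k (hF' hk)).1) hc _

/-- Comparison of `Gn` with the norm of a vector. -/
theorem Gn_le_Nw (n : ℕ) {F : Finset Row} (hF : ∀ k ∈ F, k.1 = n) (x : Om →₀ ℝ) :
    Gn n F (fun k => l2 (rres rowO {k} x)) ≤ Nw n x := by
  refine Gn_le fun l hl F' hF' hc => ?_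
  have hM : (0 : ℝ) < Ml n l := by exact_mod_cast Ml_pos n l
  refine le_trans ?_ (le_Nw hl (fun k hk => hF k (hF' hk)) hc x)
  refine mul_le_mul_of_nonneg_left (Finset.sum_le_sum fun k _ => ?_) (by positivity)
  have h0 : 0 ≤ l2 (rres rowO {k} x) := Real.sqrt_nonneg _
  rw [abs_of_nonneg h0]
  exact l2_le_rn l x k

end Pool.Agent.UBN
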