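import Mathlib

/-!
# Recursive construction of humps

Dependent choice on the state `(a, F)`; the next state is `(a', F ∪ G)`.
-/

namespace Pool.Agent.UBN

open Finset

theorem hump_seq {I X : Type} (P : ℕ → ℕ → Finset I → X → Prop) (a0 : ℕ)
    (h : ∀ (a : ℕ), a0 ≤ a → ∀ F : Finset I, ∃ (a' : ℕ) (G : Finset I) (d : X),
      a ≤ a' ∧ Disjoint G F ∧ P a a' G d) :
    ∃ (a : ℕ → ℕ) (G : ℕ → Finset I) (d : ℕ → X), a 0 = a0 ∧ Monotone a ∧
      (∀ j l, j ≠ l → Disjoint (G j) (G l)) ∧ ∀ j, P (a j) (a (j + 1)) (G j) (d j) := by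
  classical
  choose nx gg dd hle hdis hP using h
  -- the states
  let S : Type := {a : ℕ // a0 ≤ a} × Finset I
  let step : S → S := fun s =>
    (⟨nx s.1.1 s.1.2 s.2, s.1.2.trans (hle s.1.1 s.1.2 s.2)⟩, s.2 ∪ gg s.1.1 s.1.2 s.2)
  let st : ℕ → S := fun n => Nat.rec (⟨a0, le_refl _⟩, ∅) (fun _ s => step s) n
  have hst : ∀ n, st (n + 1) = step (st n) := fun n => rfl
  refine ⟨fun n => (st n).1.1, fun n => gg (st n).1.1 (st n).1.2 (st n).2,
    fun n => dd (st n).1.1 (st n).1.2 (st n).2, rfl, ?_, ?_, ?_⟩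
  · refine monotone_nat_of_le_succ fun n => ?_
    show (st n).1.1 ≤ (st (n + 1)).1.1
    rw [hst]
    exact hle _ _ _
  · have hsub : ∀ j l, j < l → gg (st j).1.1 (st j).1.2 (st j).2 ⊆ (st l).2 := by
      intro j l hjl
      induction l with
      | zero => omega
      | succ l ih =>
        rw [hst]
        rcases Nat.lt_succ_iff_lt_or_eq.1 hjl with h1 | h1
        · exact (ih h1).trans Finset.subset_union_left
        · subst h1
          exact Finset.subset_union_right
    have hlt : ∀ j l, j < l → Disjoint (gg (st j).1.1 (st j).1.2 (st j).2)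
        (gg (st l).1.1 (st l).1.2 (st l).2) := by
      intro j l hjl
      exact (Finset.disjoint_of_subset_right (hsub j l hjl)
        (hdis (st l).1.1 (st l).1.2 (st l).2)).symm
    intro j l hjl
    rcases lt_or_gt_of_ne hjl with h1 | h1
    · exact hlt j l h1
    · exact (hlt l j h1).symm
  · intro j
    exact hP (st j).1.1 (st j).1.2 (st j).2

end Pool.Agent.UBN
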