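import Pool.Agent.UBN.Low

/-!
# Long averages in block sequences (James)

Let `y r i = (1 / n ^ r) • ∑ l ∈ Ico (n ^ r * i) (n ^ r * (i + 1)), x (l0 + l)`, so
`y 0 i = x (l0 + i)` and `y (r+1) i = (1/n) • ∑ j < n, y r (n * i + j)`.
Let `P r` be the statement `∀ i, nrm (y r i) ≤ (1/2) ^ r`.  `P 0` holds.  Choose `q` even with
`n ^ (2 ^ q + 1) ≤ nn q` (`nn_big`) and `R = 2 ^ q + 1`; by `even_low`
`nrm (y R 0) ≥ 1 / mm q > (1/2) ^ R` (recall `mm q = 2 ^ (2 ^ q)`), so `P R` fails.  Hence there is `r`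
with `P r` and not `P (r+1)`: some `i` with `ρ = nrm (y (r+1) i) > (1/2) ^ (r+1)`.  Put
`z j = ρ⁻¹ • y r (n * i + j)`: `nrm (z j) ≤ 2`, and the average of `z 0, ..., z (n-1)` has norm `1`.
So `L j = l0 + n ^ r * (n * i + j)` and `t l = ρ⁻¹ / n ^ r` (constant).
-/

namespace Pool.Agent.UBN

open Finset

variable {Ω : Type} {row : Ω → Row} {N : ℕ → (Ω →₀ ℝ) → ℝ}

theorem jam_blocks {M : Type} [AddCommMonoid M] {L : ℕ → ℕ} (hL : Monotone L) (f : ℕ → M) (n : ℕ) :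
    ∑ j ∈ range n, ∑ l ∈ Ico (L j) (L (j + 1)), f l = ∑ l ∈ Ico (L 0) (L n), f l := by
  induction n with
  | zero => simp
  | succ n ih =>
    rw [sum_range_succ, ih]
    exact sum_Ico_consecutive f (hL (Nat.zero_le n)) (hL (Nat.le_succ n))

theorem james (hN : Inner row N) {a : ℕ → ℕ} (ha : Monotone a) {x : ℕ → Ω →₀ ℝ}
    (hx : ∀ l, Win row (x l) (a l) (a (l + 1))) (h1 : ∀ l, nrm row N (x l) = 1) {n : ℕ}
    (hn : 0 < n) (l0 : ℕ) :
    ∃ (L : ℕ → ℕ) (t : ℕ → ℝ), StrictMono L ∧ l0 ≤ L 0 ∧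
      (∀ i < n, nrm row N (∑ l ∈ Ico (L i) (L (i + 1)), t l • x l) ≤ 2) ∧
      nrm row N ((1 / (n : ℝ)) • ∑ i ∈ range n, ∑ l ∈ Ico (L i) (L (i + 1)), t l • x l) = 1 := by
  have hnR : (0 : ℝ) < n := by exact_mod_cast hn
  let P : ℕ → Prop := fun r =>
    ∀ i, nrm row N (∑ l ∈ Ico (l0 + n ^ r * i) (l0 + n ^ r * (i + 1)), x l) ≤ ((n : ℝ) / 2) ^ r
  have hP0 : P 0 := by
    intro i
    have e1 : Ico (l0 + n ^ 0 * i) (l0 + n ^ 0 * (i + 1)) = {l0 + i} := by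
      rw [pow_zero, one_mul, one_mul, ← add_assoc]
      ext j
      simp only [mem_Ico, mem_singleton]
      omega
    rw [e1, sum_singleton, h1, pow_zero]
  obtain ⟨q, hq0, hqe, hqn⟩ := nn_big n
  have hPR : ¬ P (2 ^ q + 1) := by
    intro hP
    have h2 := hP 0
    have h3 := even_low hN hq0 hqe hqn (a := fun l => a (l0 + l))
      (fun i j hij => ha (by omega)) (x := fun l => x (l0 + l)) (fun i _ => hx (l0 + i))
    have e1 : ∑ i ∈ range (n ^ (2 ^ q + 1)), nrm row N (x (l0 + i)) = (n : ℝ) ^ (2 ^ q + 1) := by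
      rw [sum_congr rfl (fun i _ => h1 (l0 + i)), sum_const, card_range, nsmul_eq_mul, mul_one]
      push_cast
      rfl
    have e2 : ∑ i ∈ range (n ^ (2 ^ q + 1)), x (l0 + i) =
        ∑ l ∈ Ico (l0 + n ^ (2 ^ q + 1) * 0) (l0 + n ^ (2 ^ q + 1) * (0 + 1)), x l := by
      rw [mul_zero, add_zero, zero_add, mul_one, sum_Ico_eq_sum_range, Nat.add_sub_cancel_left]
    rw [e1, e2] at h3
    have h4 := h3.trans h2
    rw [div_pow] at h4
    have e3 : (mm q : ℝ) = 2 ^ (2 ^ q) := by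
      unfold mm
      push_cast
      rfl
    rw [e3, one_div_mul_eq_div] at h4
    have h5 : (0 : ℝ) < (n : ℝ) ^ (2 ^ q + 1) := pow_pos hnR _
    have h6 : (2 : ℝ) ^ (2 ^ q) < 2 ^ (2 ^ q + 1) := by
      apply pow_lt_pow_right₀ (by norm_num) (Nat.lt_succ_self _)
    have h7 := div_lt_div_of_pos_left h5 (pow_pos (by norm_num) _) h6
    linarith
  obtain ⟨r, hr, hr1⟩ : ∃ r, P r ∧ ¬ P (r + 1) := by
    by_contra hcon
    push Not at hcon
    have : ∀ r, P r := by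
      intro r
      induction r with
      | zero => exact hP0
      | succ r ih => exact hcon r ih
    exact hPR (this _)
  have hr2 : ∃ i, ((n : ℝ) / 2) ^ (r + 1) <
      nrm row N (∑ l ∈ Ico (l0 + n ^ (r + 1) * i) (l0 + n ^ (r + 1) * (i + 1)), x l) := by
    by_contra hcon
    push Not at hcon
    exact hr1 hcon
  obtain ⟨i0, hi0⟩ := hr2
  set B : Ω →₀ ℝ := ∑ l ∈ Ico (l0 + n ^ (r + 1) * i0) (l0 + n ^ (r + 1) * (i0 + 1)), x l with hB
  have hpos : (0 : ℝ) < ((n : ℝ) / 2) ^ (r + 1) := pow_pos (by positivity) _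
  have hβ : 0 < nrm row N B := hpos.trans hi0
  let L : ℕ → ℕ := fun j => l0 + n ^ r * (n * i0 + j)
  have hLs : StrictMono L := by
    intro i j hij
    change l0 + n ^ r * (n * i0 + i) < l0 + n ^ r * (n * i0 + j)
    have h2 : n ^ r * (n * i0 + i) < n ^ r * (n * i0 + j) :=
      Nat.mul_lt_mul_of_pos_left (by omega) (pow_pos hn _)
    omega
  have hc0 : 0 < (n : ℝ) / nrm row N B := div_pos hnR hβ
  refine ⟨L, fun _ => (n : ℝ) / nrm row N B, hLs, Nat.le_add_right _ _, ?_, ?_⟩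
  · intro i _
    have e1 : ∑ l ∈ Ico (L i) (L (i + 1)), ((n : ℝ) / nrm row N B) • x l =
        ((n : ℝ) / nrm row N B) • ∑ l ∈ Ico (L i) (L (i + 1)), x l := by
      rw [smul_sum]
    rw [e1, nrm_smul hN, abs_of_pos hc0]
    have h2 : nrm row N (∑ l ∈ Ico (L i) (L (i + 1)), x l) ≤ ((n : ℝ) / 2) ^ r := hr (n * i0 + i)
    have h3 : (n : ℝ) / nrm row N B * nrm row N (∑ l ∈ Ico (L i) (L (i + 1)), x l) ≤
        (n : ℝ) / nrm row N B * ((n : ℝ) / 2) ^ r := mul_le_mul_of_nonneg_left h2 hc0.le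
    refine h3.trans ?_
    rw [div_mul_eq_mul_div, div_le_iff₀ hβ]
    have h4 : ((n : ℝ) / 2) ^ (r + 1) = ((n : ℝ) / 2) ^ r * ((n : ℝ) / 2) := pow_succ _ _
    nlinarith
  · have e1 : ∑ i ∈ range n, ∑ l ∈ Ico (L i) (L (i + 1)), ((n : ℝ) / nrm row N B) • x l =
        ((n : ℝ) / nrm row N B) • B := by
      rw [jam_blocks hLs.monotone, ← smul_sum, hB]
      congr 2
      change Ico (l0 + n ^ r * (n * i0 + 0)) (l0 + n ^ r * (n * i0 + n)) = _
      have e2 : n ^ r * (n * i0 + 0) = n ^ (r + 1) * i0 := by ring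
      have e3 : n ^ r * (n * i0 + n) = n ^ (r + 1) * (i0 + 1) := by ring
      rw [e2, e3]
    rw [e1, nrm_smul hN, nrm_smul hN, abs_of_pos hc0, abs_of_pos (by positivity)]
    field_simp

end Pool.Agent.UBN
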