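import Pool.Agent.UBN.Ct
import Pool.Agent.UBN.Gh

/-!
# Invisibility of the labels on the bad part

`domO` with `C = 1 + 2 K / η + 4 K`.  Let `x̂ = x.mapDomain val`, `r k = l2 (rres {k} x)`, a window `n ≥ n0`
(for `n < n0` `x̂` vanishes), a set `T` of rows, a level `l` and `F ⊆ T` with `card ≤ Nl n l`, rows with `x ≠ 0`
(`Nw_le`).  Compare `(1/M_l) ∑_F rn l x̂ k` with `G = Nw n (rres T (gh x))` (`Gn_le_gh`):
* `l` odd or `0`: `rn = l2`.
* `l = Ln n` (mesh): `F` consists of rows with a bad coordinate (`h1`), so `card F ≤ N_{l-1}` (`bad_rows`),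
  `rn ≤ D r k`, `D / M_l = 1 / M_{l-1}`.
* `l = 2 s`, `1 ≤ s ≤ Rn n`: `rn ≤ r k + D |x (k,s)|` (`rn_cat_le`); the rows with `(k, s)` bad: `star1`; the rows with
  `(k, s)` good: `star2` with `x k := emb e (rres {k} x)` (by `h2`, if `x (k,s) ≠ 0`).
-/

namespace Pool.Agent.UBN

open Pool.Agent.UUB Finset

section aux

private theorem ky_l2_nonneg {α : Type} (x : α →₀ ℝ) : 0 ≤ l2 x := Real.sqrt_nonneg _

private theorem ky_abs_le_l2 {α : Type} (x : α →₀ ℝ) (a : α) : |x a| ≤ l2 x := by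
  unfold l2
  by_cases h : x a = 0
  · rw [h, abs_zero]; exact Real.sqrt_nonneg _
  · refine Real.le_sqrt_of_sq_le ?_
    rw [sq_abs]
    exact Finset.single_le_sum (f := fun a => x a ^ 2) (fun _ _ => sq_nonneg _)
      (Finsupp.mem_support_iff.2 h)

end aux

variable {I : Type} {W : Type} [NormedAddCommGroup W] [NormedSpace ℝ W] [CompleteSpace W]
  {e : UnconditionalSchauderBasis (EB ⊕ ℕ) ℝ W}
  {b : UnconditionalSchauderBasis I ℝ W} {K ε η : ℝ}

/-- The estimate for a level `2 s` of a catalyst. -/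
private theorem ky_cat (hA : Amb (rowB EB) (nrB EB) e) {n0 : ℕ} {J : Row → Finset I}
    (hD : RowData (rowB EB) e b K ε n0 J) (hη : 0 < η)
    {g : EB → I} (hM : Match (rowB EB) e b n0 J η g) (x : EB →₀ ℝ)
    (h2 : ∀ ω, x ω ≠ 0 → ¬ Bad (rowB EB) e b J η ω →
      b.coord (g ω) (emb e (rres (rowB EB) {rowB EB ω} x)) = 0)
    {n s : ℕ} (hn : n0 ≤ n) (hs1 : 1 ≤ s) (hs2 : s ≤ Rn n) (F : Finset Row)
    (hF : ∀ k ∈ F, k.1 = n ∧ k.2 < rowsN n) (hc : F.card ≤ Nl n (2 * s)) :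
    (1 / (Ml n (2 * s) : ℝ)) * ∑ k ∈ F, rn (2 * s) (x.mapDomain Subtype.val) k ≤
      (1 + 2 * K / η + 4 * K) * Gn n F (fun k => l2 (rres (rowB EB) {k} x)) := by
  classical
  have hK : 1 ≤ K := hD.bd.one_le
  set r : Row → ℝ := fun k => l2 (rres (rowB EB) {k} x) with hr
  have hr0 : ∀ k, 0 ≤ r k := fun k => ky_l2_nonneg _
  set G := Gn n F r with hG
  -- the coordinate of the row `k` at `s`
  have hex : ∀ k : Row, ∃ ω : Option EB, k ∈ F → ∃ ω', ω = some ω' ∧ rowB EB ω' = k ∧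
      fb ω'.1 = s := by
    intro k
    by_cases hk : k ∈ F
    · obtain ⟨hk1, hk2⟩ := hF k hk
      have h3 : k.2 < rowsN k.1 ∧ s < Rn k.1 + 2 := by rw [hk1]; exact ⟨hk2, by omega⟩
      let ω : Om := ⟨(k.1, k.2, s), h3⟩
      have h4 : ω ∈ EB := ⟨hs1, by show s ≤ Rn k.1; rw [hk1]; exact hs2⟩
      exact ⟨some ⟨ω, h4⟩, fun _ => ⟨⟨ω, h4⟩, rfl, rfl, rfl⟩⟩
    · exact ⟨none, fun h => absurd h hk⟩
  choose w' hw' using hex
  by_cases hF0 : F = ∅
  · rw [hF0, Finset.sum_empty, mul_zero]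
    have : 0 ≤ G := Gn_nonneg _ _ _
    positivity
  obtain ⟨k0, hk0⟩ := Finset.nonempty_iff_ne_empty.2 hF0
  obtain ⟨ω0, _, _, _⟩ := hw' k0 hk0
  let w : Row → EB := fun k => (w' k).getD ω0
  have hw1 : ∀ k ∈ F, rowB EB (w k) = k := by
    intro k hk
    obtain ⟨ω', h3, h4, h5⟩ := hw' k hk
    show rowB EB ((w' k).getD ω0) = k
    rw [h3]; exact h4
  have hw2 : ∀ k ∈ F, fb (w k).1 = s := by
    intro k hk
    obtain ⟨ω', h3, h4, h5⟩ := hw' k hk
    show fb ((w' k).getD ω0).1 = s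
    rw [h3]; exact h5
  have huniq : ∀ k ∈ F, ∀ ω : EB, rowB EB ω = k → fb ω.1 = s → ω = w k := by
    intro k hk ω h3 h4
    apply Subtype.ext
    apply Subtype.ext
    have h5 : rowO ω.1 = rowO (w k).1 := by
      have := hw1 k hk
      exact (h3.trans this.symm)
    have h6 : fb ω.1 = fb (w k).1 := by rw [h4, hw2 k hk]
    unfold rowO at h5
    unfold fb at h6
    have h7 := (Prod.mk.injEq _ _ _ _).mp h5
    exact Prod.ext h7.1 (Prod.ext h7.2 h6)
  -- the estimate of `rn`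
  have h3 : ∀ k ∈ F, rn (2 * s) (x.mapDomain Subtype.val) k ≤ r k + (Dn n : ℝ) * |x (w k)| := by
    intro k hk
    have hk1 := (hF k hk).1
    have h4 := rn_cat_le (x.mapDomain Subtype.val) k (s := s) (by rw [hk1]; exact hs2)
      (c := |x (w k)|) (by
        intro ω h5 h6
        by_cases h7 : ω ∈ EB
        · have h8 : (⟨ω, h7⟩ : EB) = w k := huniq k hk ⟨ω, h7⟩ h5 h6
          have h9 := mapDomain_val_apply x (⟨ω, h7⟩ : EB)
          rw [← h8]
          exact le_of_eq (congrArg _ h9)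
        · rw [mapDomain_val_notMem x h7, abs_zero]; exact abs_nonneg _) (abs_nonneg _)
    rw [rres_mapDomain, l2_mapDomain, hk1] at h4
    exact h4
  -- bad rows and good rows
  set Fb := F.filter (fun k => Bad (rowB EB) e b J η (w k)) with hFb
  set Fg := F.filter (fun k => ¬ Bad (rowB EB) e b J η (w k) ∧ x (w k) ≠ 0) with hFg
  have hinj : ∀ F' ⊆ F, Set.InjOn w (F' : Set Row) := by
    intro F' hF' k hk k' hk' hkk
    rw [← hw1 k (hF' hk), ← hw1 k' (hF' hk'), hkk]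
  have himg : ∀ F' ⊆ F, (F'.image w).image (rowB EB) = F' := by
    intro F' hF'
    rw [Finset.image_image]
    ext k
    constructor
    · intro hk
      obtain ⟨k', hk', rfl⟩ := Finset.mem_image.1 hk
      show rowB EB (w k') ∈ F'
      rw [hw1 k' (hF' hk')]; exact hk'
    · intro hk
      exact Finset.mem_image.2 ⟨k, hk, hw1 k (hF' hk)⟩
  have hsplit : ∑ k ∈ F, |x (w k)| = ∑ k ∈ Fb, |x (w k)| + ∑ k ∈ Fg, |x (w k)| := by
    rw [← Finset.sum_filter_add_sum_filter_not F (fun k => Bad (rowB EB) e b J η (w k))]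
    congr 1
    symm
    apply Finset.sum_subset
    · intro k hk
      rw [hFg, Finset.mem_filter] at hk
      exact Finset.mem_filter.2 ⟨hk.1, hk.2.1⟩
    · intro k hk hk'
      rw [Finset.mem_filter] at hk
      by_contra h4
      apply hk'
      rw [hFg, Finset.mem_filter]
      exact ⟨hk.1, hk.2, fun h5 => h4 (by rw [h5, abs_zero])⟩
  have hFbF : Fb ⊆ F := Finset.filter_subset _ _
  have hFgF : Fg ⊆ F := Finset.filter_subset _ _
  have hMpos : (0 : ℝ) < Ml n (2 * s) := by exact_mod_cast Ml_pos n (2 * s)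
  have hl : 2 * s ≤ Ln n := by unfold Ln; omega
  -- the bad rows
  have hbad : ((Dn n : ℝ) / Ml n (2 * s)) * ∑ k ∈ Fb, |x (w k)| ≤ 2 * K / η * G := by
    have h4 := star1 hA hD hη hn (s := s) (Fb.image w) (by
      intro ω hω
      obtain ⟨k, hk, rfl⟩ := Finset.mem_image.1 hω
      have hk' := Finset.mem_filter.1 hk
      refine ⟨?_, hw2 k hk'.1, hk'.2⟩
      rw [hw1 k hk'.1]; exact (hF k hk'.1).1) ((Finset.card_image_le.trans
        (Finset.card_le_card hFbF)).trans hc) r hr0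
    rw [himg Fb hFbF, Finset.sum_image (hinj Fb hFbF)] at h4
    have h5 : ∑ k ∈ Fb, |x (w k)| ≤ ∑ k ∈ Fb, r (rowB EB (w k)) := by
      refine Finset.sum_le_sum fun k hk => ?_
      rw [hr]
      have h6 := ky_abs_le_l2 (rres (rowB EB) {rowB EB (w k)} x) (w k)
      rw [rres_apply, if_pos (Set.mem_singleton _)] at h6
      exact h6
    have h6 : Gn n Fb r ≤ G := Gn_mono n hFbF (fun _ _ => le_rfl)
    calc ((Dn n : ℝ) / Ml n (2 * s)) * ∑ k ∈ Fb, |x (w k)|
        ≤ ((Dn n : ℝ) / Ml n (2 * s)) * ∑ k ∈ Fb, r (rowB EB (w k)) :=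
          mul_le_mul_of_nonneg_left h5 (by positivity)
      _ ≤ 2 * K / η * Gn n Fb r := h4
      _ ≤ 2 * K / η * G := mul_le_mul_of_nonneg_left h6 (by positivity)
  -- the good rows
  have hgood : ((Dn n : ℝ) / Ml n (2 * s)) * ∑ k ∈ Fg, |x (w k)| ≤ 4 * K * G := by
    have h4 := star2 hA hD hn (s := s) (Fg.image w) (by
      intro ω hω
      obtain ⟨k, hk, rfl⟩ := Finset.mem_image.1 hω
      have hk' := Finset.mem_filter.1 hk
      refine ⟨?_, hw2 k hk'.1⟩
      rw [hw1 k hk'.1]; exact (hF k hk'.1).1) ((Finset.card_image_le.trans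
        (Finset.card_le_card hFgF)).trans hc) g (by
      intro ω hω
      obtain ⟨k, hk, rfl⟩ := Finset.mem_image.1 hω
      have hk' := Finset.mem_filter.1 hk
      have h5 : n0 ≤ (rowB EB (w k)).1 := by
        rw [hw1 k hk'.1, (hF k hk'.1).1]; exact hn
      exact ⟨hM.mem _ h5, hM.good _ h5 hk'.2.1⟩)
      (fun k => emb e (rres (rowB EB) {k} x)) (by
      intro ω hω
      rw [S_e_eq_iff]
      intro t ht
      rcases t with ω' | m
      · rw [coord_emb_inl, rres_apply, if_neg]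
        intro h5
        exact ht ⟨ω', rfl, h5⟩
      · exact coord_emb_inr _ _) (by
      intro ω hω
      obtain ⟨k, hk, rfl⟩ := Finset.mem_image.1 hω
      have hk' := Finset.mem_filter.1 hk
      exact h2 (w k) hk'.2.2 hk'.2.1)
    have h7 : (fun k => ‖emb e (rres (rowB EB) {k} x)‖) = r := by
      funext k
      rw [norm_emb hA, hA.rig.single k]
      intro ω hω
      rw [rres_apply] at hω
      by_contra h8
      exact hω (if_neg h8)
    rw [himg Fg hFgF, Finset.sum_image (hinj Fg hFgF), h7] at h4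
    have h5 : ∑ k ∈ Fg, |e.coord (Sum.inl (w k)) (emb e (rres (rowB EB) {rowB EB (w k)} x))| =
        ∑ k ∈ Fg, |x (w k)| := by
      refine Finset.sum_congr rfl fun k hk => ?_
      rw [coord_emb_inl, rres_apply, if_pos (Set.mem_singleton _)]
    have h6 : Gn n Fg r ≤ G := Gn_mono n hFgF (fun _ _ => le_rfl)
    rw [← h5]
    exact h4.trans (mul_le_mul_of_nonneg_left h6 (by positivity))
  -- the euclidean part
  have heu : (1 / (Ml n (2 * s) : ℝ)) * ∑ k ∈ F, r k ≤ G := by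
    have h4 := le_Gn hl (Finset.Subset.refl F) hc r
    rwa [Finset.sum_congr rfl (fun k _ => abs_of_nonneg (hr0 k))] at h4
  calc (1 / (Ml n (2 * s) : ℝ)) * ∑ k ∈ F, rn (2 * s) (x.mapDomain Subtype.val) k
      ≤ (1 / (Ml n (2 * s) : ℝ)) * ∑ k ∈ F, (r k + (Dn n : ℝ) * |x (w k)|) :=
        mul_le_mul_of_nonneg_left (Finset.sum_le_sum h3) (by positivity)
    _ = (1 / (Ml n (2 * s) : ℝ)) * ∑ k ∈ F, r k +
        (((Dn n : ℝ) / Ml n (2 * s)) * ∑ k ∈ Fb, |x (w k)| +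
          ((Dn n : ℝ) / Ml n (2 * s)) * ∑ k ∈ Fg, |x (w k)|) := by
        rw [Finset.sum_add_distrib, ← Finset.mul_sum, hsplit]
        ring
    _ ≤ G + (2 * K / η * G + 4 * K * G) := add_le_add heu (add_le_add hbad hgood)
    _ = (1 + 2 * K / η + 4 * K) * G := by ring

theorem key (hA : Amb (rowB EB) (nrB EB) e) {n0 : ℕ} {J : Row → Finset I}
    (hD : RowData (rowB EB) e b K ε n0 J) (hη : 0 < η) (hDn : ∀ n, n0 ≤ n → 2 * K / η < Dn n)
    {g : EB → I} (hM : Match (rowB EB) e b n0 J η g) (x : EB →₀ ℝ)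
    (hfar : ∀ ω, x ω ≠ 0 → n0 ≤ (rowB EB ω).1)
    (h1 : ∀ ω, x ω ≠ 0 → ∃ ω', rowB EB ω' = rowB EB ω ∧ Bad (rowB EB) e b J η ω')
    (h2 : ∀ ω, x ω ≠ 0 → ¬ Bad (rowB EB) e b J η ω →
      b.coord (g ω) (emb e (rres (rowB EB) {rowB EB ω} x)) = 0) :
    nrB EB x ≤ (1 + 2 * K / η + 4 * K) * nrO (gh EB x) := by
  classical
  have hK : 1 ≤ K := hD.bd.one_le
  have hC1 : 1 ≤ 1 + 2 * K / η + 4 * K := by
    have h3 : 0 ≤ 2 * K / η := by positivity
    linarith
  unfold nrB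
  refine domO (by linarith) ?_
  intro n T
  set y := x.mapDomain (Subtype.val : EB → Om) with hy
  set r : Row → ℝ := fun k => l2 (rres (rowB EB) {k} x) with hr
  have hr0 : ∀ k, 0 ≤ r k := fun k => ky_l2_nonneg _
  set G := Nw n (rres rowO T (gh EB x)) with hG
  have hG0 : 0 ≤ G := Nw_nonneg _ _
  refine Nw_le ?_
  intro l hl F hF hc
  by_cases hF0 : F = ∅
  · rw [hF0, Finset.sum_empty, mul_zero]
    positivity
  -- facts about the rows of `F`
  have hrow : ∀ k ∈ F, k.1 = n ∧ k ∈ T ∧ ∃ ω : EB, rowB EB ω = k ∧ x ω ≠ 0 := by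
    intro k hk
    obtain ⟨h3, ω, h4, h5⟩ := hF k hk
    rw [rres_apply] at h5
    have h6 : rowO ω ∈ T := by
      by_contra h7
      exact h5 (if_neg h7)
    rw [if_pos h6] at h5
    have h7 : ω ∈ EB := by
      by_contra h8
      exact h5 (mapDomain_val_notMem x h8)
    refine ⟨h3, h4 ▸ h6, ⟨ω, h7⟩, h4, ?_⟩
    rw [← mapDomain_val_apply x ⟨ω, h7⟩]
    exact h5
  have hnn : n0 ≤ n := by
    obtain ⟨k, hk⟩ := Finset.nonempty_iff_ne_empty.2 hF0
    obtain ⟨h3, _, ω, h4, h5⟩ := hrow k hk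
    have h6 := hfar ω h5
    rw [h4, h3] at h6
    exact h6
  have hsum : ∑ k ∈ F, rn l (rres rowO T y) k = ∑ k ∈ F, rn l y k :=
    Finset.sum_congr rfl fun k hk => rn_rres_mem l y (hrow k hk).2.1
  have hl2 : ∀ k, l2 (rres rowO {k} y) = r k := by
    intro k
    rw [hy, rres_mapDomain, l2_mapDomain]
  have hGn : Gn n F r ≤ G := Gn_le_gh EB x n T (fun k hk => ⟨(hrow k hk).1, (hrow k hk).2.1⟩)
  have hle : ∀ l' ≤ Ln n, F.card ≤ Nl n l' → (1 / (Ml n l' : ℝ)) * ∑ k ∈ F, r k ≤ G := by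
    intro l' hl' hc'
    have h4 := le_Gn hl' (Finset.Subset.refl F) hc' r
    rw [Finset.sum_congr rfl (fun k _ => abs_of_nonneg (hr0 k))] at h4
    exact h4.trans hGn
  have hGC : G ≤ (1 + 2 * K / η + 4 * K) * G := by
    nlinarith
  rw [hsum]
  -- levels with trivial weights
  have htriv : (∀ θ, wt n l θ = 1) → (1 / (Ml n l : ℝ)) * ∑ k ∈ F, rn l y k ≤
      (1 + 2 * K / η + 4 * K) * G := by
    intro hw
    have h4 : ∑ k ∈ F, rn l y k = ∑ k ∈ F, r k := by
      refine Finset.sum_congr rfl fun k hk => ?_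
      rw [rn_eq_l2 y k (by rw [(hrow k hk).1]; exact hw), hl2]
    rw [h4]
    exact (hle l hl hc).trans hGC
  rcases Nat.even_or_odd l with hev | hodd
  swap
  · exact htriv (fun θ => wt_odd n θ hodd)
  obtain ⟨s, hs⟩ := hev
  have hs' : l = 2 * s := by omega
  by_cases hs0 : s = 0
  · subst hs0
    have h4 : l = 0 := by omega
    rw [h4] at htriv ⊢
    exact htriv (fun θ => wt_level_zero n θ)
  by_cases hsR : s ≤ Rn n
  · -- a catalyst level
    rw [hs'] at hc ⊢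
    have h4 := ky_cat hA hD hη hM x h2 hnn (by omega) hsR F (by
      intro k hk
      obtain ⟨h5, _, ω, h6, _⟩ := hrow k hk
      refine ⟨h5, ?_⟩
      have h7 := ω.1.2.1
      have h8 : ω.1.1.1 = k.1 := congrArg Prod.fst h6
      have h9 : ω.1.1.2.1 = k.2 := congrArg Prod.snd h6
      rw [h8, h9, h5] at h7
      exact h7) hc
    exact h4.trans (mul_le_mul_of_nonneg_left hGn (by linarith))
  · -- the mesh level
    have h4 : l = 2 * Rn n + 1 + 1 := by
      unfold Ln at hl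
      omega
    have h5 : F.card ≤ Nl n (2 * Rn n + 1) := by
      refine bad_rows hA hD hη hnn (hDn n hnn) F ?_
      intro k hk
      obtain ⟨h6, _, ω, h7, h8⟩ := hrow k hk
      obtain ⟨ω', h9, h10⟩ := h1 ω h8
      exact ⟨h6, ω', h9.trans h7, h10⟩
    have hDpos : (0 : ℝ) < Dn n := by
      have := two_le_Dn n
      exact_mod_cast (by omega : 0 < Dn n)
    have hMpos : (0 : ℝ) < Ml n (2 * Rn n + 1) := by exact_mod_cast Ml_pos n _
    have h6 : ∑ k ∈ F, rn l y k ≤ (Dn n : ℝ) * ∑ k ∈ F, r k := by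
      rw [Finset.mul_sum]
      refine Finset.sum_le_sum fun k hk => ?_
      have h7 := rn_le l y k
      rw [hl2, (hrow k hk).1] at h7
      exact h7
    have h7 : (Ml n l : ℝ) = Dn n * Ml n (2 * Rn n + 1) := by
      rw [h4, Ml_succ]
      push_cast
      ring
    have h8 := hle (2 * Rn n + 1) (by unfold Ln; omega) h5
    calc (1 / (Ml n l : ℝ)) * ∑ k ∈ F, rn l y k
        ≤ (1 / (Ml n l : ℝ)) * ((Dn n : ℝ) * ∑ k ∈ F, r k) :=
          mul_le_mul_of_nonneg_left h6 (by positivity)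
      _ = (1 / (Ml n (2 * Rn n + 1) : ℝ)) * ∑ k ∈ F, r k := by
          rw [h7]
          field_simp
      _ ≤ G := h8
      _ ≤ (1 + 2 * K / η + 4 * K) * G := hGC

end Pool.Agent.UBN
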