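import Pool.Agent.UBN.Gn1

/-!
# Independence of the labels in a window

Let `l = 2 s`, `r k = l2 (rres {k} u) = rn 0 u k`, `G = Gn n F r`, `D = Dn n`.  Let `Fb ⊆ F` consist of the
`min (N_{l-1}) |F|` rows with the largest `r k` (choose a subset of this cardinality with maximal sum), `Fs` the
rest.
* `Fs`: if `Fs ≠ ∅`, let `θ` be the smallest `r k`, `k ∈ Fb`: `r k ≤ θ` on `Fs` and `N_{l-1} θ / M_{l-1} ≤ G`.
  Then `Nw n (rres Fs u) ≤ G` level by level: `l' ≤ l - 2`: `(1/M_{l'}) N_{l'} D θ ≤ D N_{l-2} θ ≤ N_{l-1} θ / M_{l-1}`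
  (`rn_le`, `Nl_step`); `l' = l - 1` (odd): `rn = l2`; `l' = l`: `rn l u k = l2` because `u` vanishes at `s`;
  `l' > l`: `(1/M_{l'}) D ∑_F r k ≤ (1/M_l) ∑_F r k ≤ G` (`card F ≤ N_l`, `Dn_mul_Ml_le`).
  So `(D/M_l) ∑_{Fs} β k ≤ Nw n (∑_{Fs} β k • ev k s) ≤ C1 G` (level `l`, `wt = D`).
* `Fb`: for a single row `β k = Nw n (β k • ev k s) ≤ C1 Nw n (rres {k} u) = C1 r k` (`Nw_single`), so
  `(D/M_l) ∑_{Fb} β k ≤ C1 (D/M_l) ∑_{Fb} r k = C1 (1/M_{l-1}) ∑_{Fb} r k ≤ C1 G`.
-/

namespace Pool.Agent.UBN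

open Finset

/-- The `m` elements with the largest values. -/
theorem li_top {α : Type} [DecidableEq α] (F : Finset α) (r : α → ℝ) (m : ℕ) (hm : m ≤ F.card) :
    ∃ B ⊆ F, B.card = m ∧ ∀ k ∈ B, ∀ k' ∈ F \ B, r k' ≤ r k := by
  induction m with
  | zero => exact ⟨∅, Finset.empty_subset _, rfl, fun k hk => absurd hk (Finset.notMem_empty k)⟩
  | succ m ih =>
    obtain ⟨B, hB, hc, hr⟩ := ih (by omega)
    have hne : (F \ B).Nonempty := by
      rw [← Finset.card_pos, Finset.card_sdiff_of_subset hB]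
      omega
    obtain ⟨k0, hk0, hmax⟩ := Finset.exists_max_image (F \ B) r hne
    have hk0' := Finset.mem_sdiff.1 hk0
    refine ⟨insert k0 B, Finset.insert_subset hk0'.1 hB, ?_, ?_⟩
    · rw [Finset.card_insert_of_notMem hk0'.2, hc]
    · intro k hk k' hk'
      have hk'' : k' ∈ F \ B := by
        rw [Finset.mem_sdiff] at hk' ⊢
        exact ⟨hk'.1, fun h => hk'.2 (Finset.mem_insert_of_mem h)⟩
      rcases Finset.mem_insert.1 hk with h | h
      · rw [h]
        exact hmax k' hk''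
      · exact hr k h k' hk''

theorem li_ev_row {k : Row} {θ : ℕ} {ω : Om} (h : ev k θ ω ≠ 0) : rowO ω = k := by
  unfold ev at h
  split_ifs at h with h'
  · by_contra hne
    refine h (Finsupp.single_eq_of_ne fun h2 => hne ?_)
    rw [h2]; rfl
  · exact absurd rfl h

theorem li_rn (l s : ℕ) {F : Finset Row} (β : Row → ℝ) {k : Row} (hk : k ∈ F)
    (h1 : k.2 < rowsN k.1) (h2 : s < Rn k.1 + 2) :
    rn l (∑ k ∈ F, β k • ev k s) k = |β k| * wt k.1 l s := by
  have h3 : rres rowO {k} (∑ k ∈ F, β k • ev k s) = β k • ev k s := by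
    rw [map_sum, Finset.sum_eq_single k]
    · have h4 : rres rowO {k} (ev k s) = ev k s := rres_eq_self (fun ω h => li_ev_row h)
      rw [map_smul, h4]
    · intro b _ hb
      have h4 : rres rowO {k} (ev b s) = 0 :=
        rres_eq_zero (fun ω h h' => hb ((li_ev_row h).symm.trans h'))
      rw [map_smul, h4, smul_zero]
    · intro h; exact absurd hk h
  rw [← rn_rres_mem l (∑ k ∈ F, β k • ev k s) (T := {k}) (k := k) rfl, h3, rn_smul,
    rn_single l h1 h2]

theorem lemI {n s : ℕ} (h1 : 1 ≤ s) (h2 : s ≤ Rn n) {F : Finset Row}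
    (hF : ∀ k ∈ F, k.1 = n ∧ k.2 < rowsN n) (hc : F.card ≤ Nl n (2 * s)) (u : Om →₀ ℝ)
    (hu : ∀ ω, u ω ≠ 0 → rowO ω ∈ F ∧ fb ω ≠ s) (β : Row → ℝ) (hβ : ∀ k, 0 ≤ β k) {C1 : ℝ}
    (hC : 0 ≤ C1)
    (h : ∀ F' ⊆ F, Nw n (∑ k ∈ F', β k • ev k s) ≤ C1 * Nw n (rres rowO (F' : Set Row) u)) :
    ((Dn n : ℝ) / Ml n (2 * s)) * ∑ k ∈ F, β k ≤
      2 * C1 * Gn n F (fun k => l2 (rres rowO {k} u)) := by
  classical
  set r : Row → ℝ := fun k => l2 (rres rowO {k} u) with hr
  have hr0 : ∀ k, 0 ≤ r k := fun k => Real.sqrt_nonneg _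
  have hrabs : ∀ k, |r k| = r k := fun k => abs_of_nonneg (hr0 k)
  set G := Gn n F r with hG
  have hG0 : 0 ≤ G := Gn_nonneg _ _ _
  have hLn : 2 * s ≤ Ln n := by unfold Ln; omega
  have hD1 : (1 : ℝ) ≤ Dn n := by
    exact_mod_cast (le_trans (by norm_num) (two_le_Dn n) : 1 ≤ Dn n)
  have hD0 : (0 : ℝ) < Dn n := by linarith
  have hMpos : ∀ l, (0 : ℝ) < Ml n l := fun l => by exact_mod_cast Ml_pos n l
  obtain ⟨t, ht⟩ : ∃ t, s = t + 1 := ⟨s - 1, by omega⟩
  have hs21 : 2 * s = (2 * s - 1) + 1 := by omega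
  have hMs : (Ml n (2 * s) : ℝ) = Dn n * Ml n (2 * s - 1) := by
    have := Ml_succ n (2 * s - 1)
    rw [← hs21] at this
    exact_mod_cast this
  obtain ⟨Fb, hFb, hFbc, hFbr⟩ := li_top F r (min (Nl n (2 * s - 1)) F.card) (min_le_right _ _)
  set Fs := F \ Fb with hFs
  have hFsF : Fs ⊆ F := Finset.sdiff_subset
  have hGb : (1 / (Ml n (2 * s - 1) : ℝ)) * ∑ k ∈ Fb, r k ≤ G := by
    have := le_Gn (n := n) (l := 2 * s - 1) (by omega) hFb
      (by rw [hFbc]; exact min_le_left _ _) r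
    rwa [Finset.sum_congr rfl (fun k _ => hrabs k)] at this
  -- the big rows
  have hbig : ((Dn n : ℝ) / Ml n (2 * s)) * ∑ k ∈ Fb, β k ≤ C1 * G := by
    have hk : ∀ k ∈ Fb, β k ≤ C1 * r k := by
      intro k hk
      have hkF := hF k (hFb hk)
      have h3 := h {k} (Finset.singleton_subset_iff.2 (hFb hk))
      rw [Finset.sum_singleton, Finset.coe_singleton] at h3
      have h4 : β k ≤ Nw n (β k • ev k s) := by
        have h5 := le_Nw (n := n) (l := 0) (Nat.zero_le _) (F := {k})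
          (fun k' hk' => by rw [Finset.mem_singleton.1 hk']; exact hkF.1) (by rw [Nl_zero]; simp)
          (β k • ev k s)
        rw [Ml_zero, Finset.sum_singleton, rn_smul,
          rn_single 0 (by rw [hkF.1]; exact hkF.2) (by rw [hkF.1]; omega), wt_level_zero,
          abs_of_nonneg (hβ k)] at h5
        simpa using h5
      have h6 : Nw n (rres rowO {k} u) = r k := by
        rw [← hkF.1]
        refine Nw_single k _ (fun ω hω => ?_)
        by_contra hne
        apply hω
        rw [rres_apply, if_neg (fun hc => hne (Set.mem_singleton_iff.1 hc))]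
      rw [h6] at h3
      exact h4.trans h3
    calc ((Dn n : ℝ) / Ml n (2 * s)) * ∑ k ∈ Fb, β k
        ≤ ((Dn n : ℝ) / Ml n (2 * s)) * ∑ k ∈ Fb, C1 * r k :=
          mul_le_mul_of_nonneg_left (Finset.sum_le_sum hk) (by positivity)
      _ = C1 * ((1 / (Ml n (2 * s - 1) : ℝ)) * ∑ k ∈ Fb, r k) := by
          rw [← Finset.mul_sum, hMs]
          have := (hMpos (2 * s - 1)).ne'
          field_simp
      _ ≤ C1 * G := mul_le_mul_of_nonneg_left hGb hC
  -- the small rows
  have hsmall : ((Dn n : ℝ) / Ml n (2 * s)) * ∑ k ∈ Fs, β k ≤ C1 * G := by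
    rcases Fs.eq_empty_or_nonempty with h0 | hne
    · rw [h0, Finset.sum_empty, mul_zero]
      exact mul_nonneg hC hG0
    obtain ⟨k1, hk1, hmax⟩ := Finset.exists_max_image Fs r hne
    set θ := r k1 with hθ
    have hθ0 : 0 ≤ θ := hr0 k1
    have hFbN : Fb.card = Nl n (2 * s - 1) := by
      rw [hFbc]
      refine min_eq_left ?_
      by_contra hcon
      push Not at hcon
      rw [min_eq_right hcon.le] at hFbc
      have h3 : Fb = F := Finset.eq_of_subset_of_card_le hFb hFbc.ge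
      rw [hFs, h3, Finset.sdiff_self] at hne
      exact Finset.not_nonempty_empty hne
    have hθG : (Nl n (2 * s - 1) : ℝ) * θ / Ml n (2 * s - 1) ≤ G := by
      have h3 : (Nl n (2 * s - 1) : ℝ) * θ ≤ ∑ k ∈ Fb, r k := by
        have := Finset.card_nsmul_le_sum Fb r θ (fun k hk => hFbr k hk k1 hk1)
        rwa [hFbN, nsmul_eq_mul] at this
      calc _ ≤ (∑ k ∈ Fb, r k) / Ml n (2 * s - 1) :=
            div_le_div_of_nonneg_right h3 (hMpos _).le
        _ = (1 / (Ml n (2 * s - 1) : ℝ)) * ∑ k ∈ Fb, r k := by ring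
        _ ≤ G := hGb
    have hNw : Nw n (rres rowO (Fs : Set Row) u) ≤ G := by
      refine Nw_le (fun l' hl' F' hF' hc' => ?_)
      have hF's : F' ⊆ Fs := by
        intro k hk
        obtain ⟨_, ω, hω, hne'⟩ := hF' k hk
        by_contra hkn
        apply hne'
        rw [rres_apply, if_neg]
        rw [hω]
        exact hkn
      have hF'n : ∀ k ∈ F', k.1 = n := fun k hk => (hF' k hk).1
      have hrn : ∀ k ∈ F', rn l' (rres rowO (Fs : Set Row) u) k = rn l' u k := fun k hk =>
        rn_rres_mem l' u (Finset.mem_coe.2 (hF's hk))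
      rw [Finset.sum_congr rfl hrn]
      have hle : ∀ k ∈ F', rn l' u k ≤ (Dn n : ℝ) * r k := by
        intro k hk
        have := rn_le l' u k
        rwa [hF'n k hk] at this
      have hM1 : (0 : ℝ) ≤ 1 / (Ml n l' : ℝ) := by
        have := hMpos l'
        positivity
      rcases Nat.lt_or_ge l' (2 * s - 1) with hlt | hge
      · -- small levels
        have h3 : ∑ k ∈ F', rn l' u k ≤ (Nl n l' : ℝ) * (Dn n * θ) := by
          calc ∑ k ∈ F', rn l' u k ≤ ∑ k ∈ F', (Dn n : ℝ) * θ :=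
                Finset.sum_le_sum (fun k hk => (hle k hk).trans
                  (mul_le_mul_of_nonneg_left (hmax k (hF's hk)) hD0.le))
            _ = (F'.card : ℝ) * (Dn n * θ) := by rw [Finset.sum_const, nsmul_eq_mul]
            _ ≤ _ := mul_le_mul_of_nonneg_right (by exact_mod_cast hc') (by positivity)
        have h4 : Dn n * Nl n l' * Ml n (2 * s - 1) ≤ Nl n (2 * s - 1) := by
          have h5 := Nl_step n (2 * s - 2)
          have h6 : 2 * s - 2 + 1 = 2 * s - 1 := by omega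
          rw [h6] at h5
          refine le_trans ?_ h5
          exact Nat.mul_le_mul_right _ (Nat.mul_le_mul_left _ (Nl_mono n (by omega)))
        have h4' : (Dn n : ℝ) * Nl n l' * Ml n (2 * s - 1) ≤ Nl n (2 * s - 1) := by
          exact_mod_cast h4
        have h5 : (Nl n l' : ℝ) * (Dn n * θ) ≤ (Nl n (2 * s - 1) : ℝ) * θ / Ml n (2 * s - 1) := by
          rw [le_div_iff₀ (hMpos _)]
          calc _ = (Dn n : ℝ) * Nl n l' * Ml n (2 * s - 1) * θ := by ring
            _ ≤ _ := mul_le_mul_of_nonneg_right h4' hθ0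
        have h6 : 1 / (Ml n l' : ℝ) ≤ 1 := by
          rw [div_le_one (hMpos _)]
          exact_mod_cast Ml_pos n l'
        have h7 : 0 ≤ ∑ k ∈ F', rn l' u k := Finset.sum_nonneg (fun k _ => rn_nonneg _ _ _)
        calc _ ≤ 1 * ∑ k ∈ F', rn l' u k := mul_le_mul_of_nonneg_right h6 h7
          _ = ∑ k ∈ F', rn l' u k := one_mul _
          _ ≤ _ := h3.trans (h5.trans hθG)
      · rcases Nat.lt_or_ge (2 * s) l' with hgt | hle'
        · -- large levels
          have h3 : (1 / (Ml n l' : ℝ)) * ∑ k ∈ F', rn l' u k ≤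
              (1 / (Ml n (2 * s) : ℝ)) * ∑ k ∈ F', r k := by
            have h4 : (Dn n : ℝ) * Ml n (2 * s) ≤ Ml n l' := by
              exact_mod_cast Dn_mul_Ml_le n hgt
            have h5 : ∑ k ∈ F', rn l' u k ≤ (Dn n : ℝ) * ∑ k ∈ F', r k := by
              rw [Finset.mul_sum]
              exact Finset.sum_le_sum hle
            have h6 : 0 ≤ ∑ k ∈ F', r k := Finset.sum_nonneg (fun k _ => hr0 k)
            calc _ ≤ (1 / (Ml n l' : ℝ)) * ((Dn n : ℝ) * ∑ k ∈ F', r k) :=
                  mul_le_mul_of_nonneg_left h5 hM1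
              _ = ((Dn n : ℝ) / Ml n l') * ∑ k ∈ F', r k := by ring
              _ ≤ (1 / (Ml n (2 * s) : ℝ)) * ∑ k ∈ F', r k := by
                  refine mul_le_mul_of_nonneg_right ?_ h6
                  rw [div_le_div_iff₀ (hMpos _) (hMpos _)]
                  linarith
          refine h3.trans ?_
          have h4 := le_Gn (n := n) (l := 2 * s) hLn (hF's.trans hFsF)
            ((Finset.card_le_card (hF's.trans hFsF)).trans hc) r
          rwa [Finset.sum_congr rfl (fun k _ => hrabs k)] at h4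
        · -- the levels `2 s - 1` and `2 s`
          have h3 : ∀ k ∈ F', rn l' u k ≤ r k := by
            intro k hk
            rcases (by omega : l' = 2 * s - 1 ∨ l' = 2 * s) with h4 | h4
            · have h5 : Odd l' := ⟨s - 1, by omega⟩
              exact (rn_eq_l2 u k (fun θ => wt_odd k.1 θ h5)).le
            · rw [h4]
              have h6 := rn_cat_le u k (s := s) (by rw [hF'n k hk]; exact h2) (c := 0)
                (fun ω _ hfb => by
                  by_contra hcon
                  have h7 : u ω ≠ 0 := by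
                    intro h8
                    rw [h8, abs_zero] at hcon
                    exact hcon le_rfl
                  exact (hu ω h7).2 hfb) le_rfl
              rw [mul_zero, add_zero] at h6
              exact h6
          have h4 := le_Gn (n := n) (l := l') hl' (hF's.trans hFsF) hc' r
          rw [Finset.sum_congr rfl (fun k _ => hrabs k)] at h4
          exact (mul_le_mul_of_nonneg_left (Finset.sum_le_sum h3) hM1).trans h4
    have hlow : ((Dn n : ℝ) / Ml n (2 * s)) * ∑ k ∈ Fs, β k ≤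
        Nw n (∑ k ∈ Fs, β k • ev k s) := by
      have h3 := le_Nw (n := n) (l := 2 * s) hLn (F := Fs) (fun k hk => (hF k (hFsF hk)).1)
        ((Finset.card_le_card hFsF).trans hc) (∑ k ∈ Fs, β k • ev k s)
      refine le_trans (le_of_eq ?_) h3
      have h4 : ∀ k ∈ Fs, rn (2 * s) (∑ k ∈ Fs, β k • ev k s) k = β k * Dn n := by
        intro k hk
        have hkF := hF k (hFsF hk)
        rw [li_rn (2 * s) s β hk (by rw [hkF.1]; exact hkF.2) (by rw [hkF.1]; omega), hkF.1,
          wt_cat_self n h1 h2, abs_of_nonneg (hβ k)]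
      rw [Finset.sum_congr rfl h4, ← Finset.sum_mul]
      ring
    calc _ ≤ _ := hlow
      _ ≤ C1 * Nw n (rres rowO (Fs : Set Row) u) := h Fs hFsF
      _ ≤ C1 * G := mul_le_mul_of_nonneg_left hNw hC
  have hsplit : ∑ k ∈ F, β k = ∑ k ∈ Fs, β k + ∑ k ∈ Fb, β k :=
    (Finset.sum_sdiff hFb).symm
  rw [hsplit, mul_add]
  linarith

end Pool.Agent.UBN
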