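import Pool.Agent.UBN.Wb
import Pool.Agent.UBN.Defs2
import Pool.Agent.UBN.Par

/-!
# Lower estimates

* `near_rows`: `exists_near` and `W_rres` with the set of rows of `x` (`rres_eq_self`).
* `even_low`: let `η > 0`; take `φ i` from `near_rows` for `x i` (`i < d`) with `S i = rowsOf row (x i)`
  and form the node of index `q` with the cuts `a` (the condition `hsp` is void as `q` is even).
  `φ i (x j) = 0` for `j ≠ i`, `j < d`, since the windows are disjoint.  The value of the node at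
  `∑ x j` is `(1/m) ∑ φ i (x i)`.  Let `η → 0`.
-/

namespace Pool.Agent.UBN

open Finset

variable {Ω : Type} {row : Ω → Row} {N : ℕ → (Ω →₀ ℝ) → ℝ}

theorem mem_rowsOf {x : Ω →₀ ℝ} {k : Row} : k ∈ rowsOf row x ↔ ∃ ω, x ω ≠ 0 ∧ row ω = k := by
  unfold rowsOf
  simp only [Finset.mem_image, Finsupp.mem_support_iff]

theorem near_rows (hN : Inner row N) (x : Ω →₀ ℝ) {η : ℝ} (hη : 0 < η) :
    ∃ q φ, W row N q φ ∧ nrm row N x - η < φ x ∧ ∀ z, φ z = φ (rres row (rowsOf row x) z) := by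
  obtain ⟨q, φ, hW, hφ⟩ := exists_near hN x hη
  refine ⟨q, φ ∘ₗ rres row (rowsOf row x), W_rres hN hW _, ?_, ?_⟩
  · have h1 : rres row (rowsOf row x) x = x := by
      apply rres_eq_self
      intro ω hω
      exact Finset.mem_coe.mpr (mem_rowsOf.mpr ⟨ω, hω, rfl⟩)
    rw [LinearMap.comp_apply, h1]
    exact hφ
  · intro z
    rw [LinearMap.comp_apply, LinearMap.comp_apply, rres_rres, Set.inter_self]

theorem even_low (hN : Inner row N) {q d : ℕ} (hq : 0 < q) (he : Even q) (hd : d ≤ nn q)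
    {a : ℕ → ℕ} (ha : Monotone a) {x : ℕ → Ω →₀ ℝ}
    (hx : ∀ i < d, Win row (x i) (a i) (a (i + 1))) :
    (1 / (mm q : ℝ)) * ∑ i ∈ range d, nrm row N (x i) ≤ nrm row N (∑ i ∈ range d, x i) := by
  apply le_of_forall_pos_le_add
  intro ε hε
  have hd1 : (0 : ℝ) < (d : ℝ) + 1 := by positivity
  have hη : 0 < ε / ((d : ℝ) + 1) := div_pos hε hd1
  choose r φ hW hnear hrow using fun i => near_rows hN (x i) hη
  have hmono : ∀ i j, i < j → i < d → j < d → ∀ ω, x i ω ≠ 0 → x j ω ≠ 0 → False := by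
    intro i j hij hi hj ω h1 h2
    have e1 := (hx i hi ω h1).2
    have e2 := (hx j hj ω h2).1
    have e3 : a (i + 1) ≤ a j := ha hij
    omega
  have hdisj : ∀ i ∈ range d, ∀ j ∈ range d, j ≠ i → φ i (x j) = 0 := by
    intro i hi j hj hne
    rw [mem_range] at hi hj
    rw [hrow i (x j)]
    have h0 : rres row (rowsOf row (x i)) (x j) = 0 := by
      apply rres_eq_zero
      intro ω hω hmem
      obtain ⟨ω', hω', hrw⟩ := mem_rowsOf.mp (Finset.mem_coe.mp hmem)
      have e1 := hx j hj ω hω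
      have e2 := hx i hi ω' hω'
      rw [hrw] at e2
      rcases lt_or_gt_of_ne hne with h | h
      · have e3 : a (j + 1) ≤ a i := ha h
        omega
      · have e3 : a (i + 1) ≤ a j := ha h
        omega
    rw [h0, map_zero]
  have hnode : W row N q ((1 / (mm q : ℝ)) • ∑ i ∈ range d, φ i) := by
    refine W.node q d a (fun i => rowsOf row (x i)) φ r hq hd ha ?_ (fun i _ => hW i)
      (fun i _ z => hrow i z) ?_
    · intro i hi k hk
      obtain ⟨ω, hω, hrw⟩ := mem_rowsOf.mp hk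
      rw [← hrw]
      exact hx i hi ω hω
    · intro hodd
      exact absurd hodd (Nat.not_odd_iff_even.mpr he)
  have hval : ((1 / (mm q : ℝ)) • ∑ i ∈ range d, φ i) (∑ i ∈ range d, x i) =
      (1 / (mm q : ℝ)) * ∑ i ∈ range d, φ i (x i) := by
    rw [LinearMap.smul_apply, LinearMap.sum_apply, smul_eq_mul]
    congr 1
    apply Finset.sum_congr rfl
    intro i hi
    rw [map_sum, Finset.sum_eq_single_of_mem i hi (fun j hj hne => hdisj i hi j hj hne)]
  have hle := le_nrm hN hnode (∑ i ∈ range d, x i)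
  rw [hval] at hle
  have hm : (1 : ℝ) ≤ (mm q : ℝ) := by
    have := two_le_mm q
    exact_mod_cast (by omega : 1 ≤ mm q)
  have hm0 : (0 : ℝ) < (mm q : ℝ) := by linarith
  have hm1 : 1 / (mm q : ℝ) ≤ 1 := by
    rw [div_le_one hm0]
    exact hm
  have hm2 : 0 ≤ 1 / (mm q : ℝ) := by positivity
  have hsum : ∑ i ∈ range d, nrm row N (x i) ≤
      ∑ i ∈ range d, φ i (x i) + (d : ℝ) * (ε / ((d : ℝ) + 1)) := by
    have h1 : ∑ i ∈ range d, nrm row N (x i) ≤
        ∑ i ∈ range d, (φ i (x i) + ε / ((d : ℝ) + 1)) := by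
      apply Finset.sum_le_sum
      intro i _
      linarith [hnear i]
    rw [Finset.sum_add_distrib, Finset.sum_const, Finset.card_range, nsmul_eq_mul] at h1
    exact h1
  have hde : (d : ℝ) * (ε / ((d : ℝ) + 1)) ≤ ε := by
    rw [mul_div_assoc', div_le_iff₀ hd1]
    nlinarith
  have hde0 : 0 ≤ (d : ℝ) * (ε / ((d : ℝ) + 1)) := by positivity
  calc (1 / (mm q : ℝ)) * ∑ i ∈ range d, nrm row N (x i)
      ≤ (1 / (mm q : ℝ)) * (∑ i ∈ range d, φ i (x i) + (d : ℝ) * (ε / ((d : ℝ) + 1))) :=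
        mul_le_mul_of_nonneg_left hsum hm2
    _ = (1 / (mm q : ℝ)) * ∑ i ∈ range d, φ i (x i) +
          (1 / (mm q : ℝ)) * ((d : ℝ) * (ε / ((d : ℝ) + 1))) := by ring
    _ ≤ nrm row N (∑ i ∈ range d, x i) + ε := by
        apply add_le_add
        · exact le_trans (le_abs_self _) hle
        · calc (1 / (mm q : ℝ)) * ((d : ℝ) * (ε / ((d : ℝ) + 1)))
              ≤ 1 * ((d : ℝ) * (ε / ((d : ℝ) + 1))) := mul_le_mul_of_nonneg_right hm1 hde0
            _ ≤ ε := by rw [one_mul]; exact hde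

end Pool.Agent.UBN
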