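import Pool.Agent.UBN.Defs

/-!
# Splitting of a block sequence by the children of a node

`B` is the set of those `i ∈ A` such that some cut `c j` with `1 ≤ j < d` lies strictly between
`a i` and `a (i+1)`; the map `i ↦ j` is injective, so `B.card ≤ d`.  If `i ∉ B`, at most one `j' < d`
has `[c j', c (j'+1))` meeting `[a i, a (i+1))`: if `j' < j''` both do, then
`a i < c (j'+1) ≤ c j'' < a (i+1)`, so `i ∈ B` (with the cut `c (j'+1)`, `j' + 1 ≤ j'' < d`).
-/

namespace Pool.Agent.UBN

open Finset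

theorem split {a c : ℕ → ℕ} (ha : Monotone a) (hc : Monotone c) (d : ℕ) (A : Finset ℕ) :
    ∃ (B : Finset ℕ) (j : ℕ → ℕ), B ⊆ A ∧ B.card ≤ d ∧ ∀ i ∈ A, i ∉ B → ∀ j' < d, j' ≠ j i →
      ∀ n, a i ≤ n → n < a (i + 1) → c j' ≤ n → n < c (j' + 1) → False := by
  classical
  let B : Finset ℕ := A.filter (fun i => ∃ k < d, a i < c k ∧ c k < a (i + 1))
  have hmeet : ∀ i, ∃ j : ℕ, ∀ j' < d, (∃ n, a i ≤ n ∧ n < a (i + 1) ∧ c j' ≤ n ∧ n < c (j' + 1)) →
      (∃ n, a i ≤ n ∧ n < a (i + 1) ∧ c j ≤ n ∧ n < c (j + 1)) ∧ j < d := by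
    intro i
    by_cases h : ∃ j, j < d ∧ ∃ n, a i ≤ n ∧ n < a (i + 1) ∧ c j ≤ n ∧ n < c (j + 1)
    · obtain ⟨j, hj, h2⟩ := h
      exact ⟨j, fun j' _ _ => ⟨h2, hj⟩⟩
    · refine ⟨0, fun j' hj' h2 => ?_⟩
      exact absurd ⟨j', hj', h2⟩ h
  choose j hj using hmeet
  refine ⟨B, j, Finset.filter_subset _ _, ?_, ?_⟩
  · have hB : ∀ i ∈ B, ∃ k < d, a i < c k ∧ c k < a (i + 1) := by
      intro i hi
      exact (Finset.mem_filter.mp hi).2
    have : B.card ≤ (range d).card := by
      refine Finset.card_le_card_of_injOn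
        (fun i => if h : ∃ k < d, a i < c k ∧ c k < a (i + 1) then h.choose else 0) ?_ ?_
      · intro i hi
        have h := hB i hi
        simp only [dif_pos h]
        exact Finset.mem_coe.mpr (Finset.mem_range.mpr h.choose_spec.1)
      · intro i hi i' hi' he
        have h := hB i hi
        have h' := hB i' hi'
        simp only [dif_pos h, dif_pos h'] at he
        have s := h.choose_spec.2
        have s' := h'.choose_spec.2
        rw [he] at s
        by_contra hne
        rcases Nat.lt_or_gt_of_ne hne with hlt | hlt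
        · have := ha (Nat.succ_le_of_lt hlt)
          simp only [Nat.succ_eq_add_one] at this
          omega
        · have := ha (Nat.succ_le_of_lt hlt)
          simp only [Nat.succ_eq_add_one] at this
          omega
    simpa using this
  · intro i hiA hiB j' hj' hne n h1 h2 h3 h4
    obtain ⟨⟨n', g1, g2, g3, g4⟩, gd⟩ := hj i j' hj' ⟨n, h1, h2, h3, h4⟩
    apply hiB
    refine Finset.mem_filter.mpr ⟨hiA, ?_⟩
    rcases Nat.lt_or_gt_of_ne hne with hlt | hlt
    · have := hc (Nat.succ_le_of_lt hlt)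
      simp only [Nat.succ_eq_add_one] at this
      exact ⟨j' + 1, by omega, by omega, by omega⟩
    · have := hc (Nat.succ_le_of_lt hlt)
      simp only [Nat.succ_eq_add_one] at this
      exact ⟨j i + 1, by omega, by omega, by omega⟩

end Pool.Agent.UBN
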