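import Pool.Agent.UBN.Wb
import Pool.Agent.UBN.Par
import Pool.Agent.UBN.Spl

/-!
# Estimate of a node on a block sequence

`cases` on `hΦ`: the node has `d ≤ nn q` children.  Let `B`, `j` be given by `split` for the cuts `a` of
the blocks and `c` of the node.  Then
`Φ (∑ A x) = ∑_{i ∈ B} Φ (x i) + (1/m) ∑_{j' < d} φ j' (∑_{i ∈ A \ B, j i = j'} x i)`
because `φ j' (x i) = φ j' (rres (S j') (x i)) = 0` if `i ∈ A \ B`, `j i ≠ j'` (no common window).
The first sum is at most `B.card * γ ≤ nn q * γ`, the second at most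
`(1/m) ∑_{j' < d} (α + ∑_{i ∈ A \ B, j i = j'} β i) ≤ (1/m) (nn q * α + ∑_{i ∈ A} β i)`.
-/

namespace Pool.Agent.UBN

open Finset

variable {Ω : Type} {row : Ω → Row} {N : ℕ → (Ω →₀ ℝ) → ℝ}

theorem node_est (hN : Inner row N) {a : ℕ → ℕ} (ha : Monotone a) {x : ℕ → Ω →₀ ℝ}
    (hx : ∀ i, Win row (x i) (a i) (a (i + 1))) {q : ℕ} (hq : 0 < q)
    {Φ : (Ω →₀ ℝ) →ₗ[ℝ] ℝ} (hΦ : W row N q Φ) (A : Finset ℕ) {α γ : ℝ} {β : ℕ → ℝ}
    (hα : 0 ≤ α) (hβ : ∀ i, 0 ≤ β i) (hγ : 0 ≤ γ)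
    (h1 : ∀ r ψ, W row N r ψ → ∀ A' ⊆ A, |ψ (∑ i ∈ A', x i)| ≤ α + ∑ i ∈ A', β i)
    (h2 : ∀ i ∈ A, |Φ (x i)| ≤ γ) :
    |Φ (∑ i ∈ A, x i)| ≤ nn q * γ + (1 / (mm q : ℝ)) * (nn q * α + ∑ i ∈ A, β i) := by
  cases hΦ with
  | leaf => exact absurd hq (lt_irrefl 0)
  | node _ d c S φ r hq' hd hc hS hW hφ hsp =>
    obtain ⟨B, j, hBA, hBd, hB⟩ := split ha hc d A
    have hm : (0 : ℝ) ≤ 1 / (mm q : ℝ) := by positivity
    have hdn : (d : ℝ) ≤ nn q := by exact_mod_cast hd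
    set Φ : (Ω →₀ ℝ) →ₗ[ℝ] ℝ := (1 / (mm q : ℝ)) • ∑ i ∈ range d, φ i with hΦ
    have hz : ∀ i ∈ A \ B, ∀ j' < d, j i ≠ j' → φ j' (x i) = 0 := by
      intro i hi j' hj' hne
      obtain ⟨hiA, hiB⟩ := mem_sdiff.1 hi
      have h3 : rres row (S j' : Set Row) (x i) = 0 := by
        refine rres_eq_zero ?_
        intro ω hω hmem
        obtain ⟨h4, h5⟩ := hx i ω hω
        obtain ⟨h6, h7⟩ := hS j' hj' _ (by exact_mod_cast hmem)
        exact hB i hiA hiB j' hj' hne.symm _ h4 h5 h6 h7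
      rw [hφ j' hj', h3, map_zero]
    have hBs : |Φ (∑ i ∈ B, x i)| ≤ nn q * γ := by
      rw [map_sum]
      refine (abs_sum_le_sum_abs _ _).trans ?_
      refine (sum_le_sum (fun i hi => h2 i (hBA hi))).trans ?_
      rw [sum_const, nsmul_eq_mul]
      refine mul_le_mul_of_nonneg_right ?_ hγ
      exact_mod_cast hBd.trans hd
    have hchild : ∀ j' < d, |φ j' (∑ i ∈ A \ B, x i)| ≤
        α + ∑ i ∈ A \ B, if j i = j' then β i else 0 := by
      intro j' hj'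
      have h3 : φ j' (∑ i ∈ A \ B, x i) = φ j' (∑ i ∈ (A \ B).filter (fun i => j i = j'), x i) := by
        rw [map_sum, map_sum, sum_filter]
        refine sum_congr rfl (fun i hi => ?_)
        split_ifs with h4
        · rfl
        · exact hz i hi j' hj' h4
      rw [h3, ← sum_filter]
      exact h1 (r j') (φ j') (hW j' hj') _ ((filter_subset _ _).trans sdiff_subset)
    have hrest : |Φ (∑ i ∈ A \ B, x i)| ≤ (1 / (mm q : ℝ)) * (nn q * α + ∑ i ∈ A, β i) := by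
      have h3 : Φ (∑ i ∈ A \ B, x i) =
          (1 / (mm q : ℝ)) * ∑ j' ∈ range d, φ j' (∑ i ∈ A \ B, x i) := by
        rw [hΦ, LinearMap.smul_apply, LinearMap.sum_apply, smul_eq_mul]
      rw [h3, abs_mul, abs_of_nonneg hm]
      refine mul_le_mul_of_nonneg_left ?_ hm
      refine (abs_sum_le_sum_abs _ _).trans ?_
      refine (sum_le_sum (fun j' hj' => hchild j' (mem_range.1 hj'))).trans ?_
      rw [sum_add_distrib, sum_const, card_range, nsmul_eq_mul]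
      refine add_le_add (mul_le_mul_of_nonneg_right hdn hα) ?_
      rw [sum_comm]
      refine (sum_le_sum (g := β) (fun i _ => ?_)).trans
        (sum_le_sum_of_subset_of_nonneg sdiff_subset (fun i _ _ => hβ i))
      rw [sum_ite_eq]
      split_ifs
      · exact le_rfl
      · exact hβ i
    have hsplit : ∑ i ∈ A, x i = ∑ i ∈ A \ B, x i + ∑ i ∈ B, x i := (sum_sdiff hBA).symm
    rw [hsplit, map_add]
    refine (abs_add_le _ _).trans ?_
    linarith

end Pool.Agent.UBN
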