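import Pool.Agent.UBN.Defs4
import Pool.Agent.UBN.Dg

/-!
# Row-wise multipliers followed by a coordinate

`d3` with `Q k = {inl (ω k)}`, `Q' k = rowS row k`, `A k = J k`, and `θ i = θ k i` for `i ∈ J k` (the sets `J k`,
`k ∈ F`, are disjoint); `(J k).indicator θ = θ k`.
-/

namespace Pool.Agent.UBN

open Pool.Agent.UUB Finset

variable {Ω I : Type} {W : Type} [NormedAddCommGroup W] [NormedSpace ℝ W] [CompleteSpace W]
  {row : Ω → Row} {nr : (Ω →₀ ℝ) → ℝ} {e : UnconditionalSchauderBasis (Ω ⊕ ℕ) ℝ W}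
  {b : UnconditionalSchauderBasis I ℝ W} {K ε η : ℝ}

theorem opb (hA : Amb row nr e) {n0 : ℕ} {J : Row → Finset I} (hD : RowData row e b K ε n0 J)
    (F : Finset Ω) (hF : ∀ ω ∈ F, n0 ≤ (row ω).1)
    (hinj : ∀ ω ∈ F, ∀ ω' ∈ F, row ω = row ω' → ω = ω') (θ : Ω → I → ℝ)
    (hθ : ∀ ω i, |θ ω i| ≤ 1) (hs : ∀ ω i, i ∉ J (row ω) → θ ω i = 0) (u : Ω → W)
    (hu : ∀ ω ∈ F, S e (rowS row (row ω)) (u ω) = u ω) :
    ‖∑ ω ∈ F, e.coord (Sum.inl ω) (mulOp b (θ ω) (u ω)) • e (Sum.inl ω)‖ ≤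
      K * ‖∑ ω ∈ F, u ω‖ := by
  classical
  have hrow : ∀ ω ∈ F, ∀ ω' ∈ F, ω ≠ ω' → row ω ≠ row ω' := fun ω hω ω' hω' hne h =>
    hne (hinj ω hω ω' hω' h)
  have hJd : ∀ ω ∈ F, ∀ ω' ∈ F, ω ≠ ω' →
      Disjoint (J (row ω) : Set I) (J (row ω') : Set I) := by
    intro ω hω ω' hω' hne
    rw [Finset.disjoint_coe]
    exact hD.disj _ _ (hF ω hω) (hF ω' hω') (hrow ω hω ω' hω' hne)
  have hzero : ∀ ω ∈ F, ∀ i ∈ J (row ω), ∀ ω' ∈ F, ω' ≠ ω → θ ω' i = 0 := by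
    intro ω hω i hi ω' hω' hne
    apply hs
    intro hi'
    exact Set.disjoint_left.mp (hJd ω' hω' ω hω hne) (by exact_mod_cast hi')
      (by exact_mod_cast hi)
  have hval : ∀ ω ∈ F, ∀ i ∈ J (row ω), ∑ ω' ∈ F, θ ω' i = θ ω i := by
    intro ω hω i hi
    rw [Finset.sum_eq_single_of_mem ω hω (fun ω' hω' hne => hzero ω hω i hi ω' hω' hne)]
  have hθ' : ∀ i, |(fun i => ∑ ω ∈ F, θ ω i) i| ≤ 1 := by
    intro i
    show |∑ ω ∈ F, θ ω i| ≤ 1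
    by_cases h : ∃ ω ∈ F, i ∈ J (row ω)
    · obtain ⟨ω, hω, hi⟩ := h
      rw [hval ω hω i hi]
      exact hθ ω i
    · push Not at h
      rw [Finset.sum_eq_zero (fun ω hω => hs ω i (h ω hω)), abs_zero]
      exact zero_le_one
  have hind : ∀ ω ∈ F, (J (row ω) : Set I).indicator (fun i => ∑ ω ∈ F, θ ω i) = θ ω := by
    intro ω hω
    funext i
    by_cases hi : i ∈ J (row ω)
    · rw [Set.indicator_of_mem (by exact_mod_cast hi)]
      exact hval ω hω i hi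
    · rw [Set.indicator_of_notMem (by exact_mod_cast hi), hs ω i hi]
  have h3 := d3 hA hD.bd F (fun ω => ({Sum.inl ω} : Set (Ω ⊕ ℕ)))
    (fun ω => rowS row (row ω)) (fun ω => (J (row ω) : Set I))
    (fun ω hω ω' hω' hne => by
      rw [Set.disjoint_singleton]
      intro h
      exact hne (Sum.inl_injective h))
    (fun ω hω ω' hω' hne => by
      rw [Set.disjoint_left]
      rintro s ⟨ω1, hs1, hr1⟩ ⟨ω2, hs2, hr2⟩
      have h12 : ω1 = ω2 := Sum.inl_injective (hs1.symm.trans hs2)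
      subst h12
      exact hrow ω hω ω' hω' hne (hr1.symm.trans hr2))
    hJd (fun i => ∑ ω ∈ F, θ ω i) hθ' u hu
  have he : ∑ ω ∈ F, e.coord (Sum.inl ω) (mulOp b (θ ω) (u ω)) • e (Sum.inl ω) =
      ∑ ω ∈ F, S e ({Sum.inl ω} : Set (Ω ⊕ ℕ))
        (mulOp b ((J (row ω) : Set I).indicator (fun i => ∑ ω ∈ F, θ ω i)) (u ω)) := by
    apply Finset.sum_congr rfl
    intro ω hω
    rw [hind ω hω, dg_S_single]
  rw [he]
  exact h3

end Pool.Agent.UBN
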