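import Pool.Agent.UBN.Tl

/-!
# One stage of the gliding hump

Choose `k` with `¬ Rig row e b k δ` and `k.1` so large that `a ≤ k.1`,
`∑ i ∈ F, ‖P_k b_i‖ ≤ δ / (16 K²)` (`tail_row`) and `‖P_k P_A S e (winS row 0 a)‖ ≤ δ / (8 K)` for all `A`
(`tail_win`).  There are `A0, B0` and `w` with `‖w‖ ≤ 1`, `‖P_k P_{A0} (1 - P_k) P_{B0} P_k w‖ > δ`; `x = P_k w`.
* remove `F` from `B0` (`S_split`): error `≤ ∑_F |b_i^*(x)| ‖P_k P_{A0} (1 - P_k) b_i‖ ≤ K (1 + K) ∑_F ‖P_k b_i‖ ≤ δ/8`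
  (`P_{A0} b_i` is `b_i` or `0`);
* truncate `B0 \ F` to a finite `B` (`S_trunc`, `η = δ/(8K)`): error `≤ δ/8`; `y = (1 - P_k) P_B x`, `‖y‖ ≤ K`;
* drop the windows `< a`: error `≤ δ/8`; drop the windows `≥ a'` with `a' > k.1` large (`tail_e`): error
  `≤ K * δ/(8K)`; what remains is `z = S e (winS row a a' \ rowS row k) (P_B x)`, `‖z‖ ≤ K`;
* remove `F` from `A0`: error `≤ ∑_F K ‖z‖ ‖P_k b_i‖ ≤ δ/16`; truncate to a finite `A`: error `≤ δ/8`.
The sum of the errors is `≤ 11 δ / 16`.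
-/

namespace Pool.Agent.UBN

open Pool.Agent.UUB Finset

variable {Ω I : Type} {W : Type} [NormedAddCommGroup W] [NormedSpace ℝ W] [CompleteSpace W]
  {row : Ω → Row} {nr : (Ω →₀ ℝ) → ℝ} {e : UnconditionalSchauderBasis (Ω ⊕ ℕ) ℝ W}
  {b : UnconditionalSchauderBasis I ℝ W} {K : ℝ}

private theorem rg1_rows (hA : Amb row nr e) (F : Finset I) {η : ℝ} (hη : 0 < η) :
    ∃ n0 : ℕ, ∀ k : Row, n0 ≤ k.1 → ∑ i ∈ F, ‖S e (rowS row k) (b i)‖ ≤ η := by
  classical
  induction F using Finset.induction_on generalizing η with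
  | empty => exact ⟨0, fun k _ => by rw [Finset.sum_empty]; exact hη.le⟩
  | insert i F hi ih =>
    obtain ⟨n1, h1⟩ := ih (half_pos hη)
    obtain ⟨n2, h2⟩ := tail_row hA (b i) (half_pos hη)
    refine ⟨max n1 n2, fun k hk => ?_⟩
    rw [Finset.sum_insert hi]
    have h3 := h1 k ((le_max_left _ _).trans hk)
    have h4 := h2 k ((le_max_right _ _).trans hk)
    linarith

private theorem rg1_decomp (k : Row) (a a' : ℕ) (h1 : a ≤ k.1) (h2 : k.1 < a') (y : W) :
    (1 - S e (rowS row k)) y = S e (winS row 0 a) y + S e (winS row a a' \ rowS row k) y +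
      S e {s | a' ≤ wn row s} y := by
  rw [← S_compl]
  refine ext_coord e fun s => ?_
  rw [map_add, map_add]
  have hrow : ∀ s, s ∈ rowS row k → wn row s = k.1 := by
    rintro s ⟨ω, rfl, hω⟩
    simp [wn, hω]
  by_cases hs : s ∈ rowS row k
  · have e1 : s ∉ (rowS row k)ᶜ := fun h => h hs
    have e2 : s ∉ winS row 0 a := by
      rintro ⟨-, h⟩
      rw [hrow s hs] at h
      omega
    have e3 : s ∉ winS row a a' \ rowS row k := fun h => h.2 hs
    have e4 : s ∉ {s | a' ≤ wn row s} := by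
      intro h
      rw [Set.mem_ofPred_eq, hrow s hs] at h
      omega
    rw [coord_S_notMem e e1, coord_S_notMem e e2, coord_S_notMem e e3, coord_S_notMem e e4]
    simp
  · have e1 : s ∈ (rowS row k)ᶜ := hs
    rw [coord_S_mem e e1]
    rcases lt_or_ge (wn row s) a with h | h
    · have e2 : s ∈ winS row 0 a := ⟨Nat.zero_le _, h⟩
      have e3 : s ∉ winS row a a' \ rowS row k := fun h' => absurd h'.1.1 (not_le.2 h)
      have e4 : s ∉ {s | a' ≤ wn row s} := by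
        intro h'
        rw [Set.mem_ofPred_eq] at h'
        omega
      rw [coord_S_mem e e2, coord_S_notMem e e3, coord_S_notMem e e4, add_zero, add_zero]
    · have e2 : s ∉ winS row 0 a := fun h' => absurd h'.2 (not_lt.2 h)
      rcases lt_or_ge (wn row s) a' with h' | h'
      · have e3 : s ∈ winS row a a' \ rowS row k := ⟨⟨h, h'⟩, hs⟩
        have e4 : s ∉ {s | a' ≤ wn row s} := by
          intro h''
          rw [Set.mem_ofPred_eq] at h''
          omega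
        rw [coord_S_notMem e e2, coord_S_mem e e3, coord_S_notMem e e4, zero_add, add_zero]
      · have e3 : s ∉ winS row a a' \ rowS row k := fun h'' => absurd h''.1.2 (not_lt.2 h')
        have e4 : s ∈ {s | a' ≤ wn row s} := h'
        rw [coord_S_notMem e e2, coord_S_notMem e e3, coord_S_mem e e4, zero_add, zero_add]

theorem rg_stage (hA : Amb row nr e) (hb : MB b K) {δ : ℝ} (hδ : 0 < δ)
    (h : ∀ n0 : ℕ, ∃ k : Row, n0 ≤ k.1 ∧ ¬ Rig row e b k δ) (a : ℕ) (F : Finset I) :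
    ∃ (k : Row) (a' : ℕ) (A B : Finset I) (x : W), a ≤ k.1 ∧ k.1 < a' ∧ Disjoint A F ∧
      Disjoint B F ∧ S e (rowS row k) x = x ∧ ‖x‖ ≤ 1 ∧
      δ / 4 ≤ ‖S e (rowS row k) (S b (A : Set I)
        (S e (winS row a a' \ rowS row k) (S b (B : Set I) x)))‖ := by
  classical
  have hK1 : 1 ≤ K := hb.one_le
  have hK : 0 < K := lt_of_lt_of_le one_pos hK1
  have hη1 : 0 < δ / (16 * K ^ 2) := by positivity
  have hη2 : 0 < δ / (8 * K) := by positivity
  obtain ⟨n1, hn1⟩ := rg1_rows (b := b) hA F hη1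
  obtain ⟨n2, hn2⟩ := tail_win hA hb a hη2
  obtain ⟨k, hk, hR⟩ := h (max (max n1 n2) a)
  have hk1 : n1 ≤ k.1 := ((le_max_left _ _).trans (le_max_left _ _)).trans hk
  have hk2 : n2 ≤ k.1 := ((le_max_right _ _).trans (le_max_left _ _)).trans hk
  have hka : a ≤ k.1 := (le_max_right _ _).trans hk
  have hsF := hn1 k hk1
  have hwin := hn2 k hk2
  unfold Rig at hR
  push Not at hR
  obtain ⟨A0, B0, hAB⟩ := hR
  set P : W →L[ℝ] W := S e (rowS row k) with hP
  have hPn : ‖P‖ ≤ 1 := norm_S_e hA _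
  have hPP : ∀ w, P (P w) = P w := by
    intro w
    rw [← ContinuousLinearMap.mul_apply, hP, S_idem]
  have hQn : ∀ w, ‖(1 - P) w‖ ≤ ‖w‖ := by
    intro w
    rw [hP, ← S_compl]
    calc ‖S e (rowS row k)ᶜ w‖ ≤ ‖S e (rowS row k)ᶜ‖ * ‖w‖ := ContinuousLinearMap.le_opNorm _ _
      _ ≤ 1 * ‖w‖ := mul_le_mul_of_nonneg_right (norm_S_e hA _) (norm_nonneg _)
      _ = ‖w‖ := one_mul _
  have hSe : ∀ (M : Set (Ω ⊕ ℕ)) w, ‖S e M w‖ ≤ ‖w‖ := by
    intro M w
    calc ‖S e M w‖ ≤ ‖S e M‖ * ‖w‖ := ContinuousLinearMap.le_opNorm _ _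
      _ ≤ 1 * ‖w‖ := mul_le_mul_of_nonneg_right (norm_S_e hA _) (norm_nonneg _)
      _ = ‖w‖ := one_mul _
  have hSb : ∀ (M : Set I) w, ‖S b M w‖ ≤ K * ‖w‖ := by
    intro M w
    exact (ContinuousLinearMap.le_opNorm _ _).trans
      (mul_le_mul_of_nonneg_right (norm_S_b hb _) (norm_nonneg _))
  -- the vector `x`
  obtain ⟨w, hw1, hw2⟩ : ∃ w : W, ‖w‖ ≤ 1 ∧
      δ < ‖(P * S b A0 * (1 - P) * S b B0 * P) w‖ := by
    by_contra hcon
    push Not at hcon
    refine absurd ?_ (not_le.2 hAB)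
    refine ContinuousLinearMap.opNorm_le_bound _ hδ.le (fun w => ?_)
    rcases eq_or_ne w 0 with h0 | h0
    · rw [h0, map_zero, norm_zero, mul_zero]
    · have hn : 0 < ‖w‖ := norm_pos_iff.2 h0
      have h1 := hcon (‖w‖⁻¹ • w) (by
        rw [norm_smul, norm_inv, norm_norm, inv_mul_cancel₀ hn.ne'])
      rw [map_smul, norm_smul, norm_inv, norm_norm] at h1
      rw [inv_mul_le_iff₀ hn] at h1
      linarith [mul_comm δ ‖w‖]
  set x : W := P w with hx
  have hPx : P x = x := hPP w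
  have hx1 : ‖x‖ ≤ 1 := (hSe _ w).trans hw1
  have hT : (P * S b A0 * (1 - P) * S b B0 * P) w = P (S b A0 ((1 - P) (S b B0 x))) := by
    simp only [ContinuousLinearMap.mul_apply, hx]
  rw [hT] at hw2
  -- bounds for the members of `F`
  have hbi : ∀ i, ‖P (S b A0 ((1 - P) (b i)))‖ ≤ (1 + K) * ‖P (b i)‖ := by
    intro i
    have h1 : ‖P (S b A0 (b i))‖ ≤ ‖P (b i)‖ := by
      by_cases hi : i ∈ A0
      · rw [S_basis_mem b hi]
      · rw [S_basis_notMem b hi, map_zero, norm_zero]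
        exact norm_nonneg _
    have h2 : ‖P (S b A0 (P (b i)))‖ ≤ K * ‖P (b i)‖ := (hSe _ _).trans (hSb _ _)
    have h3 : (1 - P) (b i) = b i - P (b i) := by
      rw [ContinuousLinearMap.sub_apply, ContinuousLinearMap.one_apply]
    rw [h3, map_sub, map_sub]
    calc _ ≤ ‖P (S b A0 (b i))‖ + ‖P (S b A0 (P (b i)))‖ := norm_sub_le _ _
      _ ≤ (1 + K) * ‖P (b i)‖ := by linarith
  have hFsum : ∑ i ∈ F.filter (· ∈ B0), ‖P (b i)‖ ≤ δ / (16 * K ^ 2) :=
    (Finset.sum_le_sum_of_subset_of_nonneg (Finset.filter_subset _ _)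
      (fun i _ _ => norm_nonneg _)).trans hsF
  have hFsum' : ∑ i ∈ F.filter (· ∈ A0), ‖P (b i)‖ ≤ δ / (16 * K ^ 2) :=
    (Finset.sum_le_sum_of_subset_of_nonneg (Finset.filter_subset _ _)
      (fun i _ _ => norm_nonneg _)).trans hsF
  -- step 2
  have hs2 : ‖P (S b A0 ((1 - P) (S b B0 x))) -
      P (S b A0 ((1 - P) (S b (B0 \ (F : Set I)) x)))‖ ≤ δ / 8 := by
    have h1 := S_split (b := b) B0 F x
    have h2 : P (S b A0 ((1 - P) (S b B0 x))) -
        P (S b A0 ((1 - P) (S b (B0 \ (F : Set I)) x))) =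
        ∑ i ∈ F.filter (· ∈ B0), b.coord i x • P (S b A0 ((1 - P) (b i))) := by
      rw [h1]
      simp only [map_add, map_sum, map_smul]
      abel
    rw [h2]
    calc ‖∑ i ∈ F.filter (· ∈ B0), b.coord i x • P (S b A0 ((1 - P) (b i)))‖
        ≤ ∑ i ∈ F.filter (· ∈ B0), ‖b.coord i x • P (S b A0 ((1 - P) (b i)))‖ :=
          norm_sum_le _ _
      _ ≤ ∑ i ∈ F.filter (· ∈ B0), K * (1 + K) * ‖P (b i)‖ := by
          refine Finset.sum_le_sum (fun i _ => ?_)
          rw [norm_smul, Real.norm_eq_abs]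
          have h3 : |b.coord i x| ≤ K := by
            refine (abs_coord_b hb i x).trans ?_
            calc K * ‖x‖ ≤ K * 1 := mul_le_mul_of_nonneg_left hx1 hK.le
              _ = K := mul_one K
          calc |b.coord i x| * ‖P (S b A0 ((1 - P) (b i)))‖ ≤ K * ((1 + K) * ‖P (b i)‖) :=
                mul_le_mul h3 (hbi i) (norm_nonneg _) hK.le
            _ = K * (1 + K) * ‖P (b i)‖ := by ring
      _ = K * (1 + K) * ∑ i ∈ F.filter (· ∈ B0), ‖P (b i)‖ := by rw [Finset.mul_sum]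
      _ ≤ K * (1 + K) * (δ / (16 * K ^ 2)) := mul_le_mul_of_nonneg_left hFsum (by positivity)
      _ ≤ K * (K + K) * (δ / (16 * K ^ 2)) := by
          refine mul_le_mul_of_nonneg_right ?_ hη1.le
          exact mul_le_mul_of_nonneg_left (by linarith) hK.le
      _ = δ / 8 := by field_simp; ring
  -- step 3
  obtain ⟨B, hB1, hB2⟩ := S_trunc hb (B0 \ (F : Set I)) x hη2
  have hs3 : ‖P (S b A0 ((1 - P) (S b (B0 \ (F : Set I)) x))) -
      P (S b A0 ((1 - P) (S b (B : Set I) x)))‖ ≤ δ / 8 := by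
    rw [← map_sub, ← map_sub, ← map_sub]
    calc _ ≤ ‖S b A0 ((1 - P) (S b (B0 \ (F : Set I)) x - S b (B : Set I) x))‖ := hSe _ _
      _ ≤ K * ‖(1 - P) (S b (B0 \ (F : Set I)) x - S b (B : Set I) x)‖ := hSb _ _
      _ ≤ K * (δ / (8 * K)) := mul_le_mul_of_nonneg_left ((hQn _).trans hB2) hK.le
      _ = δ / 8 := by field_simp
  set y : W := S b (B : Set I) x with hy
  have hyK : ‖y‖ ≤ K := by
    calc ‖y‖ ≤ K * ‖x‖ := hSb _ _
      _ ≤ K * 1 := mul_le_mul_of_nonneg_left hx1 hK.le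
      _ = K := mul_one K
  -- step 4
  obtain ⟨m0, hm0⟩ := tail_e hA y hη2
  set a' : ℕ := max m0 (k.1 + 1) with ha'
  have hka' : k.1 < a' := lt_of_lt_of_le (Nat.lt_succ_self _) (le_max_right _ _)
  have hdec := rg1_decomp (row := row) (e := e) k a a' hka hka' y
  set z : W := S e (winS row a a' \ rowS row k) y with hz
  have hzK : ‖z‖ ≤ K := (hSe _ _).trans hyK
  have hs4 : ‖P (S b A0 ((1 - P) y)) - P (S b A0 z)‖ ≤ δ / 8 + δ / 8 := by
    have h1 : P (S b A0 ((1 - P) y)) - P (S b A0 z) =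
        P (S b A0 (S e (winS row 0 a) y)) + P (S b A0 (S e {s | a' ≤ wn row s} y)) := by
      rw [hP, hdec]
      simp only [map_add]
      abel
    rw [h1]
    refine (norm_add_le _ _).trans (add_le_add ?_ ?_)
    · have h2 : P (S b A0 (S e (winS row 0 a) y)) = (P * S b A0 * S e (winS row 0 a)) y := rfl
      rw [h2]
      calc _ ≤ ‖P * S b A0 * S e (winS row 0 a)‖ * ‖y‖ := ContinuousLinearMap.le_opNorm _ _
        _ ≤ δ / (8 * K) * K := mul_le_mul (hwin A0) hyK (norm_nonneg _) hη2.le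
        _ = δ / 8 := by field_simp
    · calc _ ≤ ‖S b A0 (S e {s | a' ≤ wn row s} y)‖ := hSe _ _
        _ ≤ K * ‖S e {s | a' ≤ wn row s} y‖ := hSb _ _
        _ ≤ K * (δ / (8 * K)) := mul_le_mul_of_nonneg_left (hm0 a' (le_max_left _ _)) hK.le
        _ = δ / 8 := by field_simp
  -- step 5
  have hs5 : ‖P (S b A0 z) - P (S b (A0 \ (F : Set I)) z)‖ ≤ δ / 16 := by
    have h1 := S_split (b := b) A0 F z
    have h2 : P (S b A0 z) - P (S b (A0 \ (F : Set I)) z) =
        ∑ i ∈ F.filter (· ∈ A0), b.coord i z • P (b i) := by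
      rw [h1]
      simp only [map_add, map_sum, map_smul]
      abel
    rw [h2]
    calc ‖∑ i ∈ F.filter (· ∈ A0), b.coord i z • P (b i)‖
        ≤ ∑ i ∈ F.filter (· ∈ A0), ‖b.coord i z • P (b i)‖ := norm_sum_le _ _
      _ ≤ ∑ i ∈ F.filter (· ∈ A0), K * K * ‖P (b i)‖ := by
          refine Finset.sum_le_sum (fun i _ => ?_)
          rw [norm_smul, Real.norm_eq_abs]
          refine mul_le_mul_of_nonneg_right ?_ (norm_nonneg _)
          exact (abs_coord_b hb i z).trans (mul_le_mul_of_nonneg_left hzK hK.le)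
      _ = K * K * ∑ i ∈ F.filter (· ∈ A0), ‖P (b i)‖ := by rw [Finset.mul_sum]
      _ ≤ K * K * (δ / (16 * K ^ 2)) := mul_le_mul_of_nonneg_left hFsum' (by positivity)
      _ = δ / 16 := by field_simp
  -- step 6
  obtain ⟨A, hA1, hA2⟩ := S_trunc hb (A0 \ (F : Set I)) z (η := δ / 8) (by positivity)
  have hs6 : ‖P (S b (A0 \ (F : Set I)) z) - P (S b (A : Set I) z)‖ ≤ δ / 8 := by
    rw [← map_sub]
    exact (hSe _ _).trans hA2
  refine ⟨k, a', A, B, x, hka, hka', ?_, ?_, hPx, hx1, ?_⟩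
  · rw [Finset.disjoint_left]
    intro i hi hiF
    exact (hA1 (Finset.mem_coe.2 hi)).2 (Finset.mem_coe.2 hiF)
  · rw [Finset.disjoint_left]
    intro i hi hiF
    exact (hB1 (Finset.mem_coe.2 hi)).2 (Finset.mem_coe.2 hiF)
  · have t2 := norm_sub_norm_le (P (S b A0 ((1 - P) (S b B0 x))))
      (P (S b A0 ((1 - P) (S b (B0 \ (F : Set I)) x))))
    have t3 := norm_sub_norm_le (P (S b A0 ((1 - P) (S b (B0 \ (F : Set I)) x))))
      (P (S b A0 ((1 - P) y)))
    have t4 := norm_sub_norm_le (P (S b A0 ((1 - P) y))) (P (S b A0 z))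
    have t5 := norm_sub_norm_le (P (S b A0 z)) (P (S b (A0 \ (F : Set I)) z))
    have t6 := norm_sub_norm_le (P (S b (A0 \ (F : Set I)) z)) (P (S b (A : Set I) z))
    linarith

end Pool.Agent.UBN
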