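import Pool.Agent.UBN.Rg1
import Pool.Agent.UBN.Hs
import Pool.Agent.UBN.Dg
import Pool.Agent.UBN.Wv

/-!
# The commutator estimate

Suppose the contrary; `rg_stage` and `hump_seq` (with `G = A ∪ B`) give sequences `a j` (monotone), rows
`k j` with `a j ≤ (k j).1 < a (j+1)`, pairwise disjoint `A j`, pairwise disjoint `B j`, `x j` in the row
`k j`, `‖x j‖ ≤ 1`.  Put `Q j = winS row (a j) (a (j+1)) \ rowS row (k j)` (pairwise disjoint),
`z j = S e (Q j) (S b (B j) (x j))`, `y j = P_{k j} (S b (A j) (z j))`, `‖y j‖ ≥ δ/4`, `‖z j‖ ≤ K`.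
* `‖∑ t j z j‖ ≤ K ‖∑ t j x j‖` (`d3`, `θ = 1`).
* Split `z j = z1 j + z2 j` (`S e (XS Ω)`, `S e (HS Ω)`), `y1 j`, `y2 j` accordingly.  For infinitely many `j`
  `‖y1 j‖ ≥ δ/8`, or for infinitely many `j` `‖y2 j‖ ≥ δ/8`.
* First case (pass to the subsequence `j r`, strictly increasing; cuts `a (j r)`; the windows of the
  `r`-th vectors are in `[a (j r), a (j r + 1))`, use the cuts `a (j r)` and `j r + 1 ≤ j (r+1)`):
  `‖∑ t z1‖ ≤ ‖∑ t z‖ ≤ K ‖∑ t x‖`; `‖∑ t x‖ ≤ (8/δ) ‖∑ t y1‖` (`rot_W`) `≤ (8/δ) K ‖∑ t z1‖` (`d3`).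
  So `x` and `z1` contradict `rig_W` (`x j ≠ 0` because `z1 j ≠ 0`).
* Second case: `‖∑ t y2‖ ≤ K ‖∑ t z2‖` (`d3`) `= K (∑ t² ‖z2‖²)^{1/2} ≤ K² (∑ t²)^{1/2}` (`l2_W`), against
  `noL2_W` for the vectors `(8/δ) y2 j` and `C = 8 K² / δ + 1`.
-/

namespace Pool.Agent.UBN

open Pool.Agent.UUB Finset

variable {Ω I : Type} {W : Type} [NormedAddCommGroup W] [NormedSpace ℝ W] [CompleteSpace W]
  {row : Ω → Row} {nr : (Ω →₀ ℝ) → ℝ} {e : UnconditionalSchauderBasis (Ω ⊕ ℕ) ℝ W}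
  {b : UnconditionalSchauderBasis I ℝ W} {K : ℝ}

/-- a hump: row, two finite sets of indices, a vector -/
def Hump (row : Ω → Row) (e : UnconditionalSchauderBasis (Ω ⊕ ℕ) ℝ W)
    (b : UnconditionalSchauderBasis I ℝ W) (δ : ℝ) (a a' : ℕ) (G : Finset I)
    (d : Row × Finset I × Finset I × W) : Prop :=
  a ≤ d.1.1 ∧ d.1.1 < a' ∧ d.2.1 ⊆ G ∧ d.2.2.1 ⊆ G ∧ S e (rowS row d.1) d.2.2.2 = d.2.2.2 ∧
    ‖d.2.2.2‖ ≤ 1 ∧
      δ / 4 ≤ ‖S e (rowS row d.1) (S b (d.2.1 : Set I)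
        (S e (winS row a a' \ rowS row d.1) (S b (d.2.2.1 : Set I) d.2.2.2)))‖

omit [CompleteSpace W] in
theorem rg3_row_win {a a' : ℕ} {k : Row} (h1 : a ≤ k.1) (h2 : k.1 < a') :
    rowS row k ⊆ winS row a a' ∩ XS Ω := by
  rintro s ⟨ω, rfl, hω⟩
  refine ⟨⟨?_, ?_⟩, ω, rfl⟩
  · simp only [wn, Sum.elim_inl, hω]; exact h1
  · simp only [wn, Sum.elim_inl, hω]; exact h2

theorem rg3_S_sub {A B : Set (Ω ⊕ ℕ)} (h : A ⊆ B) {w : W} (hw : S e A w = w) : S e B w = w := by
  have h1 : S e B (S e A w) = (S e B * S e A) w := rfl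
  rw [← hw, h1, S_mul_S, Set.inter_eq_right.2 h]

theorem rg3_S_le (hA : Amb row nr e) (A : Set (Ω ⊕ ℕ)) (w : W) : ‖S e A w‖ ≤ ‖w‖ := by
  calc ‖S e A w‖ ≤ ‖S e A‖ * ‖w‖ := ContinuousLinearMap.le_opNorm _ _
    _ ≤ 1 * ‖w‖ := mul_le_mul_of_nonneg_right (norm_S_e hA _) (norm_nonneg _)
    _ = ‖w‖ := one_mul _

theorem rg3_S_fix (A : Set (Ω ⊕ ℕ)) (w : W) : S e A (S e A w) = S e A w := by
  have h1 : S e A (S e A w) = (S e A * S e A) w := rfl
  rw [h1, S_idem]

/-- `d3` with coefficients and `θ = 1` -/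
theorem rg3_d3 (hA : Amb row nr e) (hb : MB b K) (F : Finset ℕ) (Q Q' : ℕ → Set (Ω ⊕ ℕ))
    (A : ℕ → Set I) (hQ : ∀ i j, i ≠ j → Disjoint (Q i) (Q j))
    (hQ' : ∀ i j, i ≠ j → Disjoint (Q' i) (Q' j))
    (hAd : ∀ i j, i ≠ j → Disjoint (A i) (A j))
    (x : ℕ → W) (hx : ∀ i, S e (Q' i) (x i) = x i) (t : ℕ → ℝ) :
    ‖∑ i ∈ F, t i • S e (Q i) (S b (A i) (x i))‖ ≤ K * ‖∑ i ∈ F, t i • x i‖ := by
  have h := d3 hA hb F Q Q' A (fun i _ j _ hij => hQ i j hij) (fun i _ j _ hij => hQ' i j hij)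
    (fun i _ j _ hij => hAd i j hij) (fun _ => (1 : ℝ)) (fun _ => by simp)
    (fun i => t i • x i) (fun i _ => by rw [map_smul, hx])
  refine le_trans (le_of_eq ?_) h
  congr 1
  refine Finset.sum_congr rfl fun i _ => ?_
  rw [map_smul, map_smul]
  rfl

theorem rg_main (hA : Amb row nr e) (hb : MB b K) {δ : ℝ} (hδ : 0 < δ) :
    ∃ n0 : ℕ, ∀ k : Row, n0 ≤ k.1 → Rig row e b k δ := by
  classical
  by_contra hcon
  push Not at hcon
  have hK : 1 ≤ K := hb.one_le
  have hK0 : 0 < K := by linarith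
  obtain ⟨a, G, D, -, hmono, hGd, hP⟩ := hump_seq (Hump row e b δ) 0 (fun a _ F => by
    obtain ⟨k, a', A, B, x, h1, h2, h3, h4, h5, h6, h7⟩ := rg_stage hA hb hδ hcon a F
    refine ⟨a', A ∪ B, (k, A, B, x), by omega, Finset.disjoint_union_left.2 ⟨h3, h4⟩, h1, h2,
      Finset.subset_union_left, Finset.subset_union_right, h5, h6, h7⟩)
  set k : ℕ → Row := fun j => (D j).1 with hk
  set A : ℕ → Set I := fun j => ((D j).2.1 : Set I) with hAdef
  set B : ℕ → Set I := fun j => ((D j).2.2.1 : Set I) with hBdef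
  set x : ℕ → W := fun j => (D j).2.2.2 with hx
  set V : ℕ → Set (Ω ⊕ ℕ) := fun j => winS row (a j) (a (j + 1)) with hV
  set Q : ℕ → Set (Ω ⊕ ℕ) := fun j => V j \ rowS row (k j) with hQ
  have hk1 : ∀ j, a j ≤ (k j).1 := fun j => (hP j).1
  have hk2 : ∀ j, (k j).1 < a (j + 1) := fun j => (hP j).2.1
  have hxr : ∀ j, S e (rowS row (k j)) (x j) = x j := fun j => (hP j).2.2.2.2.1
  have hx1 : ∀ j, ‖x j‖ ≤ 1 := fun j => (hP j).2.2.2.2.2.1
  have hAdis : ∀ i j, i ≠ j → Disjoint (A i) (A j) := by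
    intro i j hij
    exact (Finset.disjoint_coe.2 (hGd i j hij)).mono (Finset.coe_subset.2 (hP i).2.2.1)
      (Finset.coe_subset.2 (hP j).2.2.1)
  have hBdis : ∀ i j, i ≠ j → Disjoint (B i) (B j) := by
    intro i j hij
    exact (Finset.disjoint_coe.2 (hGd i j hij)).mono (Finset.coe_subset.2 (hP i).2.2.2.1)
      (Finset.coe_subset.2 (hP j).2.2.2.1)
  have hVlt : ∀ i j, i < j → Disjoint (V i) (V j) := by
    intro i j hij
    rw [Set.disjoint_left]
    intro s hs hs'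
    have h1 : a (i + 1) ≤ a j := hmono (by omega)
    have h2 := hs.2
    have h3 := hs'.1
    omega
  have hVdis : ∀ i j, i ≠ j → Disjoint (V i) (V j) := by
    intro i j hij
    rcases lt_or_gt_of_ne hij with h | h
    · exact hVlt i j h
    · exact (hVlt j i h).symm
  have hrowV : ∀ j, rowS row (k j) ⊆ V j ∩ XS Ω := fun j => rg3_row_win (hk1 j) (hk2 j)
  have hRdis : ∀ i j, i ≠ j → Disjoint (rowS row (k i)) (rowS row (k j)) := fun i j hij =>
    (hVdis i j hij).mono (fun s hs => (hrowV i hs).1) (fun s hs => (hrowV j hs).1)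
  have hkk : ∀ i j, i ≠ j → (k i).1 ≠ (k j).1 := by
    intro i j hij h
    have h1 := hk1 i
    have h2 := hk2 i
    have h3 := hk1 j
    have h4 := hk2 j
    rcases lt_or_gt_of_ne hij with h5 | h5
    · have h6 : a (i + 1) ≤ a j := hmono (by omega)
      omega
    · have h6 : a (j + 1) ≤ a i := hmono (by omega)
      omega
  set z : ℕ → W := fun j => S e (Q j) (S b (B j) (x j)) with hz
  have hzK : ∀ j, ‖z j‖ ≤ K := by
    intro j
    calc ‖z j‖ ≤ ‖S b (B j) (x j)‖ := rg3_S_le hA _ _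
      _ ≤ ‖S b (B j)‖ * ‖x j‖ := ContinuousLinearMap.le_opNorm _ _
      _ ≤ K * 1 := mul_le_mul (norm_S_b hb _) (hx1 j) (norm_nonneg _) hK0.le
      _ = K := mul_one K
  set z1 : ℕ → W := fun j => S e (Q j ∩ XS Ω) (S b (B j) (x j)) with hz1
  set z2 : ℕ → W := fun j => S e (Q j ∩ HS Ω) (S b (B j) (x j)) with hz2
  have hz1' : ∀ j, z1 j = S e (XS Ω) (z j) := by
    intro j
    have h1 : S e (XS Ω) (z j) = (S e (XS Ω) * S e (Q j)) (S b (B j) (x j)) := rfl
    rw [h1, S_mul_S, Set.inter_comm]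
  have hz2' : ∀ j, z2 j = S e (HS Ω) (z j) := by
    intro j
    have h1 : S e (HS Ω) (z j) = (S e (HS Ω) * S e (Q j)) (S b (B j) (x j)) := rfl
    rw [h1, S_mul_S, Set.inter_comm]
  have hXH : (XS Ω)ᶜ = HS Ω := by
    ext s
    cases s with
    | inl ω =>
      constructor
      · intro h; exact absurd ⟨ω, rfl⟩ h
      · rintro ⟨m, hm⟩; exact absurd hm (by simp)
    | inr m =>
      constructor
      · intro _; exact ⟨m, rfl⟩
      · rintro _ ⟨ω, hω⟩; exact absurd hω (by simp)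
  have hzz : ∀ j, z j = z1 j + z2 j := by
    intro j
    rw [hz1', hz2', ← hXH, S_compl]
    simp
  have hy : ∀ j, δ / 4 ≤ ‖S e (rowS row (k j)) (S b (A j) (z j))‖ := fun j =>
    (hP j).2.2.2.2.2.2
  have hor : ∀ j, δ / 8 ≤ ‖S e (rowS row (k j)) (S b (A j) (z1 j))‖ ∨
      δ / 8 ≤ ‖S e (rowS row (k j)) (S b (A j) (z2 j))‖ := by
    intro j
    by_contra hc
    push Not at hc
    have h1 := hy j
    rw [hzz, map_add, map_add] at h1
    have h2 := norm_add_le (S e (rowS row (k j)) (S b (A j) (z1 j)))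
      (S e (rowS row (k j)) (S b (A j) (z2 j)))
    linarith [hc.1, hc.2]
  by_cases hfr : ∃ᶠ j in Filter.atTop, δ / 8 ≤ ‖S e (rowS row (k j)) (S b (A j) (z1 j))‖
  · obtain ⟨φ, hφ, hφ2⟩ := Filter.extraction_of_frequently_atTop hfr
    have hne : ∀ i j, i ≠ j → φ i ≠ φ j := fun i j hij h => hij (hφ.injective h)
    have hwin : ∀ r, V (φ r) ⊆ winS row (a (φ r)) (a (φ (r + 1))) := by
      intro r s hs
      refine ⟨hs.1, lt_of_lt_of_le hs.2 (hmono ?_)⟩
      have : φ r < φ (r + 1) := hφ (Nat.lt_succ_self r)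
      omega
    refine rig_W hA (fun r => a (φ r)) (fun i j hij => hmono (hφ.monotone hij))
      (fun r => z1 (φ r)) (fun r => x (φ r)) (max K (8 / δ * K)) (fun r => ?_) (fun r => ?_)
      (fun r ω ω' h1 h2 => ?_) (fun r h0 => ?_) (fun F t => ?_) (fun F t => ?_)
    · refine rg3_S_sub (A := Q (φ r) ∩ XS Ω) ?_ (rg3_S_fix _ _)
      exact Set.inter_subset_inter_left _ (Set.sdiff_subset.trans (hwin r))
    · refine rg3_S_sub (A := rowS row (k (φ r))) ?_ (hxr _)
      exact (hrowV (φ r)).trans (Set.inter_subset_inter_left _ (hwin r))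
    · intro hr
      have h3 : (Sum.inl ω' : Ω ⊕ ℕ) ∈ rowS row (k (φ r)) := by
        by_contra hc
        exact h2 ((S_e_eq_iff _ _).1 (hxr (φ r)) _ hc)
      have h4 : (Sum.inl ω : Ω ⊕ ℕ) ∈ Q (φ r) ∩ XS Ω := by
        by_contra hc
        exact h1 ((S_e_eq_iff _ _).1 (rg3_S_fix _ _) _ hc)
      obtain ⟨ω'', h5, h6⟩ := h3
      have h7 := Sum.inl_injective h5
      exact h4.1.2 ⟨ω, rfl, by rw [hr, h7, h6]⟩
    · have h1 := hφ2 r
      rw [h0, map_zero, map_zero, norm_zero] at h1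
      linarith
    · have h1 := rg3_d3 hA hb F (fun r => Q (φ r) ∩ XS Ω) (fun r => rowS row (k (φ r)))
        (fun r => B (φ r))
        (fun i j hij => (hVdis _ _ (hne i j hij)).mono
          (Set.inter_subset_left.trans Set.sdiff_subset)
          (Set.inter_subset_left.trans Set.sdiff_subset))
        (fun i j hij => hRdis _ _ (hne i j hij)) (fun i j hij => hBdis _ _ (hne i j hij))
        (fun r => x (φ r)) (fun r => hxr _) t
      exact h1.trans (mul_le_mul_of_nonneg_right (le_max_left _ _) (norm_nonneg _))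
    · have h1 := rg3_d3 hA hb F (fun r => rowS row (k (φ r))) (fun r => Q (φ r) ∩ XS Ω)
        (fun r => A (φ r)) (fun i j hij => hRdis _ _ (hne i j hij))
        (fun i j hij => (hVdis _ _ (hne i j hij)).mono
          (Set.inter_subset_left.trans Set.sdiff_subset)
          (Set.inter_subset_left.trans Set.sdiff_subset))
        (fun i j hij => hAdis _ _ (hne i j hij))
        (fun r => z1 (φ r)) (fun r => rg3_S_fix _ _) t
      have h2 := rot_W hA F (fun r => k (φ r)) (fun i _ j _ hij => hkk _ _ (hne i j hij))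
        (fun r => t r • S e (rowS row (k (φ r))) (S b (A (φ r)) (z1 (φ r))))
        (fun r => t r • x (φ r)) (fun r _ => by rw [map_smul, rg3_S_fix])
        (fun r _ => by rw [map_smul, hxr]) (C := 8 / δ) (by positivity) (fun r _ => by
          rw [norm_smul, norm_smul]
          have h3 := hφ2 r
          have h4 := hx1 (φ r)
          have h5 : 1 ≤ 8 / δ * ‖S e (rowS row (k (φ r))) (S b (A (φ r)) (z1 (φ r)))‖ := by
            rw [div_mul_eq_mul_div, le_div_iff₀ hδ]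
            linarith
          calc ‖t r‖ * ‖x (φ r)‖ ≤ ‖t r‖ *
                (8 / δ * ‖S e (rowS row (k (φ r))) (S b (A (φ r)) (z1 (φ r)))‖) :=
                mul_le_mul_of_nonneg_left (h4.trans h5) (norm_nonneg _)
            _ = 8 / δ * (‖t r‖ * ‖S e (rowS row (k (φ r))) (S b (A (φ r)) (z1 (φ r)))‖) := by
                ring)
      calc ‖∑ l ∈ F, t l • x (φ l)‖
          ≤ 8 / δ * ‖∑ i ∈ F, t i • S e (rowS row (k (φ i))) (S b (A (φ i)) (z1 (φ i)))‖ := h2
        _ ≤ 8 / δ * (K * ‖∑ i ∈ F, t i • z1 (φ i)‖) :=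
            mul_le_mul_of_nonneg_left h1 (by positivity)
        _ = 8 / δ * K * ‖∑ i ∈ F, t i • z1 (φ i)‖ := by ring
        _ ≤ max K (8 / δ * K) * ‖∑ i ∈ F, t i • z1 (φ i)‖ :=
            mul_le_mul_of_nonneg_right (le_max_right _ _) (norm_nonneg _)
  · have hev : ∀ᶠ j in Filter.atTop, δ / 8 ≤ ‖S e (rowS row (k j)) (S b (A j) (z2 j))‖ := by
      rw [Filter.not_frequently] at hfr
      filter_upwards [hfr] with j hj
      exact (hor j).resolve_left hj
    obtain ⟨φ, hφ, hφ2⟩ := Filter.extraction_of_eventually_atTop hev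
    have hne : ∀ i j, i ≠ j → φ i ≠ φ j := fun i j hij h => hij (hφ.injective h)
    have hwin : ∀ r, V (φ r) ⊆ winS row (a (φ r)) (a (φ (r + 1))) := by
      intro r s hs
      refine ⟨hs.1, lt_of_lt_of_le hs.2 (hmono ?_)⟩
      have : φ r < φ (r + 1) := hφ (Nat.lt_succ_self r)
      omega
    obtain ⟨d, hd, hno⟩ := noL2_W hA (8 * K ^ 2 / δ + 1)
    have h1 := hno (fun r => a (φ r))
      (fun r => (8 / δ) • S e (rowS row (k (φ r))) (S b (A (φ r)) (z2 (φ r))))
      (fun i j hij => hmono (hφ.monotone hij))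
      (fun r _ => by
        rw [map_smul]
        congr 1
        refine rg3_S_sub (A := rowS row (k (φ r))) ?_ (rg3_S_fix _ _)
        exact (hrowV (φ r)).trans (Set.inter_subset_inter_left _ (hwin r)))
      (fun r _ => by
        rw [norm_smul, Real.norm_eq_abs, abs_of_pos (by positivity : 0 < 8 / δ),
          div_mul_eq_mul_div, le_div_iff₀ hδ]
        linarith [hφ2 r])
    have h2 := rg3_d3 hA hb (range d) (fun r => rowS row (k (φ r))) (fun r => Q (φ r) ∩ HS Ω)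
      (fun r => A (φ r)) (fun i j hij => hRdis _ _ (hne i j hij))
      (fun i j hij => (hVdis _ _ (hne i j hij)).mono
        (Set.inter_subset_left.trans Set.sdiff_subset)
        (Set.inter_subset_left.trans Set.sdiff_subset))
      (fun i j hij => hAdis _ _ (hne i j hij))
      (fun r => z2 (φ r)) (fun r => rg3_S_fix _ _) (fun _ => 8 / δ)
    have h3 : ‖∑ r ∈ range d, z2 (φ r)‖ ≤ K * Real.sqrt d := by
      have h4 := l2_W hA (range d) (fun r => Q (φ r) ∩ HS Ω) (fun r => z2 (φ r))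
        (fun r _ => (finite_winS hA (a (φ r)) (a (φ r + 1))).subset
          (Set.inter_subset_left.trans Set.sdiff_subset))
        (fun i _ j _ hij => (hVdis _ _ (hne i j hij)).mono
          (Set.inter_subset_left.trans Set.sdiff_subset)
          (Set.inter_subset_left.trans Set.sdiff_subset))
        (fun r _ => Set.inter_subset_right) (fun r _ => rg3_S_fix _ _)
      have h5 : ‖∑ r ∈ range d, z2 (φ r)‖ ^ 2 ≤ (K * Real.sqrt d) ^ 2 := by
        rw [h4, mul_pow, Real.sq_sqrt (Nat.cast_nonneg d)]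
        calc ∑ r ∈ range d, ‖z2 (φ r)‖ ^ 2 ≤ ∑ r ∈ range d, K ^ 2 := by
              refine Finset.sum_le_sum fun r _ => pow_le_pow_left₀ (norm_nonneg _) ?_ 2
              rw [hz2']
              exact (rg3_S_le hA _ _).trans (hzK _)
          _ = K ^ 2 * d := by rw [Finset.sum_const, Finset.card_range, nsmul_eq_mul]; ring
      exact le_of_sq_le_sq h5 (by positivity)
    have hsd : 0 < Real.sqrt d := Real.sqrt_pos.2 (by exact_mod_cast hd)
    have h6 : ‖∑ i ∈ range d, (8 / δ) • z2 (φ i)‖ ≤ 8 / δ * (K * Real.sqrt d) := by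
      rw [← Finset.smul_sum, norm_smul, Real.norm_eq_abs,
        abs_of_pos (by positivity : 0 < 8 / δ)]
      exact mul_le_mul_of_nonneg_left h3 (by positivity)
    have h7 : (8 * K ^ 2 / δ + 1) * Real.sqrt d ≤ K * (8 / δ * (K * Real.sqrt d)) :=
      h1.trans (h2.trans (mul_le_mul_of_nonneg_left h6 hK0.le))
    have h8 : K * (8 / δ * (K * Real.sqrt d)) = 8 * K ^ 2 / δ * Real.sqrt d := by ring
    rw [h8] at h7
    linarith

end Pool.Agent.UBN
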