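import Pool.Agent.UBN.Avg
import Pool.Agent.UBN.Jam

/-!
# Good averages in one of two equivalent block sequences

`ris_u`: `james` with `n = mm p * nn p` and `avg_est` (for `0 < q ≤ p`: `mm q * nn q ≤ mm p * nn p`).
Put `t = 0` on `[l0, L 0)` and `l1 = L n` (`l0 < L n`).
-/

namespace Pool.Agent.UBN

open Finset

variable {Ω : Type} {row : Ω → Row} {N : ℕ → (Ω →₀ ℝ) → ℝ}

theorem risu_win {a : ℕ → ℕ} (ha : Monotone a) {x : ℕ → Ω →₀ ℝ}
    (hx : ∀ l, Win row (x l) (a l) (a (l + 1))) (t : ℕ → ℝ) (l l' : ℕ) :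
    Win row (cmb x t l l') (a l) (a l') := by
  intro ω hω
  have h1 : ∃ i ∈ Ico l l', x i ω ≠ 0 := by
    by_contra hcon
    push Not at hcon
    apply hω
    unfold cmb
    rw [Finsupp.finsetSum_apply]
    refine Finset.sum_eq_zero (fun i hi => ?_)
    rw [Finsupp.smul_apply, hcon i hi, smul_zero]
  obtain ⟨i, hi, hxi⟩ := h1
  rw [Finset.mem_Ico] at hi
  obtain ⟨h2, h3⟩ := hx i ω hxi
  exact ⟨le_trans (ha hi.1) h2, lt_of_lt_of_le h3 (ha hi.2)⟩

theorem risu_blocks {M : Type} [AddCommMonoid M] {L : ℕ → ℕ} (hL : Monotone L) (f : ℕ → M) (n : ℕ) :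
    ∑ l ∈ Ico (L 0) (L n), f l = ∑ i ∈ range n, ∑ l ∈ Ico (L i) (L (i + 1)), f l := by
  induction n with
  | zero => simp
  | succ n ih =>
    rw [Finset.sum_range_succ, ← ih,
      Finset.sum_Ico_consecutive f (hL (Nat.zero_le n)) (hL (Nat.le_succ n))]

theorem ris_u (hN : Inner row N) {a : ℕ → ℕ} {x y : ℕ → Ω →₀ ℝ} {K : ℝ}
    (h : Pair row N a x y K) (p l0 : ℕ) :
    ∃ (l1 : ℕ) (t : ℕ → ℝ), l0 < l1 ∧ nrm row N (cmb x t l0 l1) = 1 ∧
      ∀ q φ, W row N q φ → 0 < q → q ≤ p → |φ (cmb x t l0 l1)| ≤ 4 / mm q := by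
  set n := mm p * nn p with hndef
  have hn : 0 < n := by
    have h1 := two_le_mm p
    have h2 := nn_pos p
    rw [hndef]
    exact Nat.mul_pos (by omega) h2
  obtain ⟨L, t, hL, hl0, hle, hone⟩ := james hN h.mono h.winx h.one hn l0
  have hLm := hL.monotone
  set t' : ℕ → ℝ := fun l => if L 0 ≤ l then 1 / (n : ℝ) * t l else 0 with ht'
  have hcmb : cmb x t' l0 (L n) =
      (1 / (n : ℝ)) • ∑ i ∈ range n, ∑ l ∈ Ico (L i) (L (i + 1)), t l • x l := by
    unfold cmb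
    rw [← Finset.sum_Ico_consecutive _ hl0 (hLm (Nat.zero_le n))]
    have h1 : ∑ i ∈ Ico l0 (L 0), t' i • x i = 0 := by
      refine Finset.sum_eq_zero (fun i hi => ?_)
      rw [Finset.mem_Ico] at hi
      have : ¬ L 0 ≤ i := by omega
      simp [ht', this]
    rw [h1, zero_add, ← risu_blocks hLm, Finset.smul_sum]
    refine Finset.sum_congr rfl (fun i hi => ?_)
    rw [Finset.mem_Ico] at hi
    simp only [ht', hi.1, if_true]
    rw [mul_smul]
  have hll : l0 < L n := lt_of_le_of_lt hl0 (hL hn)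
  refine ⟨L n, t', hll, ?_, ?_⟩
  · rw [hcmb]; exact hone
  · intro q φ hφ hq hqp
    rw [hcmb]
    refine avg_est hN (a := fun i => a (L i)) (h.mono.comp hLm)
      (z := fun i => ∑ l ∈ Ico (L i) (L (i + 1)), t l • x l) hn ?_ hle hq ?_ hφ
    · intro i _
      exact risu_win h.mono h.winx t (L i) (L (i + 1))
    · rw [hndef]
      exact Nat.mul_le_mul (mm_mono hqp) (nn_mono hqp)

end Pool.Agent.UBN
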