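import Pool.Agent.UBN.Dg
import Pool.Agent.UBN.Wv
import Pool.Agent.UBN.Hs

/-!
# The rest of `b` is infinite

Suppose the set is finite, `F0`.  Every `i ∉ F0` is `g ω` for a unique `ω` in a window `≥ n0` (`MainEq`, `card`,
`disj`).  Put `h m = e (inr m)`.
* For every `i`, `b.coord i (h m) → 0` as `m → ∞`: for a finite set `G` of `m`'s with `c m = b.coord i (h m)`:
  `∑_G c m² = b.coord i (∑ c m h m) ≤ K (∑_G c m²)^{1/2}` (`abs_coord_b`, `norm_embH`), so `∑_G c m² ≤ K²`.
* Stage: given `a ≥ n0` and a finite `F ⊆ I`; enlarge `F` by `F0` and by all `g ω`, `ω` in windows `< a`; choose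
  `m` (larger than `a`, to have different `m`'s at different stages: include `m < a'` in the data) with
  `∑ i ∈ F, |b.coord i (h m)| ≤ 1/4`, and a finite `G` disjoint from `F` with `‖S b G (h m)‖ ≥ 1/2`
  (`S_trunc`); `a'` larger than `m` and the windows of all `ω` with `g ω ∈ G`.
* `hump_seq`: `w r = S b (G r) (h (m r))`; `‖∑ t r w r‖ ≤ K ‖∑ t r h (m r)‖ = K (∑ t r²)^{1/2}` (`d4`, `norm_embH`).
  `x r = ∑_{g ω ∈ G r} b.coord (g ω) (h (m r)) • single ω`, a vector on the windows `[a r, a (r+1))`;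
  `MainEq`: `nr (∑ t r x r) ≤ C ‖∑ t r w r‖` and `1/2 ≤ ‖w r‖ ≤ C nr (x r)`.  Contradiction to `noL2`
  for the vectors `2 C • x r` (`C > 0`).
-/

namespace Pool.Agent.UBN

open Pool.Agent.UUB Finset

variable {Ω I : Type} {W : Type} [NormedAddCommGroup W] [NormedSpace ℝ W] [CompleteSpace W]
  {row : Ω → Row} {nr : (Ω →₀ ℝ) → ℝ} {e : UnconditionalSchauderBasis (Ω ⊕ ℕ) ℝ W}
  {b : UnconditionalSchauderBasis I ℝ W} {K ε : ℝ}

omit [CompleteSpace W] in
theorem main_surj (hA : Amb row nr e) {n0 : ℕ} {J : Row → Finset I}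
    (hD : RowData row e b K ε n0 J) {g : Ω → I} (hg : ∀ ω, n0 ≤ (row ω).1 → g ω ∈ J (row ω))
    (hi : ∀ ω ω', n0 ≤ (row ω).1 → row ω = row ω' → g ω = g ω' → ω = ω') {k : Row}
    (hk : n0 ≤ k.1) {i : I} (h : i ∈ J k) : ∃ ω, row ω = k ∧ g ω = i := by
  classical
  have hfin : {ω | row ω = k}.Finite :=
    (hA.rig.fin k.1).subset (fun ω hω => by
      have hω' : row ω = k := hω
      change (row ω).1 = k.1
      rw [hω'])
  have hcard : hfin.toFinset.card = (J k).card := by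
    rw [hD.card k hk]
    have h1 : Nat.card {ω // row ω = k} = Nat.card ({ω | row ω = k} : Set Ω) := rfl
    rw [h1, Nat.card_eq_card_finite_toFinset hfin]
  have hsub : hfin.toFinset.image g ⊆ J k := by
    intro j hj
    obtain ⟨ω, hω, rfl⟩ := Finset.mem_image.1 hj
    have hω' : row ω = k := by simpa using hω
    have := hg ω (by rw [hω']; exact hk)
    rwa [hω'] at this
  have hinj : Set.InjOn g (hfin.toFinset : Set Ω) := by
    intro ω hω ω' hω' heq
    have h1 : row ω = k := by simpa using hω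
    have h2 : row ω' = k := by simpa using hω'
    exact hi ω ω' (by rw [h1]; exact hk) (h1.trans h2.symm) heq
  have heq : hfin.toFinset.image g = J k := by
    apply Finset.eq_of_subset_of_card_le hsub
    rw [Finset.card_image_of_injOn hinj, hcard]
  rw [← heq] at h
  obtain ⟨ω, hω, hgω⟩ := Finset.mem_image.1 h
  exact ⟨ω, by simpa using hω, hgω⟩

/-- the coordinates of the unit vectors of the Hilbert part are square summable -/
theorem rs3_sq (hA : Amb row nr e) (hb : MB b K) (i : I) (G : Finset ℕ) :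
    ∑ m ∈ G, (b.coord i (e (Sum.inr m))) ^ 2 ≤ K ^ 2 := by
  classical
  set c : ℕ → ℝ := fun m => b.coord i (e (Sum.inr m)) with hc
  set s : ℝ := ∑ m ∈ G, c m ^ 2 with hs
  have hs0 : 0 ≤ s := Finset.sum_nonneg (fun m _ => sq_nonneg _)
  have hK : 0 ≤ K := le_trans zero_le_one hb.one_le
  have h1 := l2_W hA G (fun m => ({Sum.inr m} : Set (Ω ⊕ ℕ))) (fun m => c m • e (Sum.inr m))
    (fun m _ => Set.finite_singleton _)
    (fun m _ m' _ hne => Set.disjoint_singleton.2 (fun h => hne (Sum.inr.inj h)))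
    (fun m _ => by
      rintro _ rfl
      exact ⟨m, rfl⟩)
    (fun m _ => by rw [map_smul, S_basis_mem _ (Set.mem_singleton _)])
  have h2 : ∑ m ∈ G, ‖c m • e (Sum.inr m)‖ ^ 2 = s := by
    refine Finset.sum_congr rfl (fun m _ => ?_)
    rw [norm_smul, norm_e hA, mul_one, Real.norm_eq_abs, sq_abs]
  rw [h2] at h1
  have h3 : b.coord i (∑ m ∈ G, c m • e (Sum.inr m)) = s := by
    rw [map_sum]
    refine Finset.sum_congr rfl (fun m _ => ?_)
    rw [map_smul, smul_eq_mul, ← sq]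
  have h4 := abs_coord_b hb i (∑ m ∈ G, c m • e (Sum.inr m))
  rw [h3, abs_of_nonneg hs0] at h4
  have h5 : s ^ 2 ≤ K ^ 2 * s := by
    calc s ^ 2 ≤ (K * ‖∑ m ∈ G, c m • e (Sum.inr m)‖) ^ 2 := pow_le_pow_left₀ hs0 h4 2
      _ = K ^ 2 * s := by rw [mul_pow, h1]
  rcases eq_or_lt_of_le hs0 with h0 | h0
  · rw [← h0]
    positivity
  · have : s * s ≤ K ^ 2 * s := by rw [← sq]; exact h5
    exact le_of_mul_le_mul_right this h0

theorem rs3_fin (hA : Amb row nr e) (hb : MB b K) (i : I) {η : ℝ} (hη : 0 < η) :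
    {m : ℕ | η ≤ |b.coord i (e (Sum.inr m))|}.Finite := by
  by_contra hinf
  have hinf' : {m : ℕ | η ≤ |b.coord i (e (Sum.inr m))|}.Infinite := hinf
  obtain ⟨r, hr⟩ := exists_nat_gt (K ^ 2 / η ^ 2)
  obtain ⟨G, hG, hGc⟩ := hinf'.exists_subset_card_eq r
  have h1 := rs3_sq hA hb i G
  have h2 : (r : ℝ) * η ^ 2 ≤ ∑ m ∈ G, (b.coord i (e (Sum.inr m))) ^ 2 := by
    have := Finset.card_nsmul_le_sum G (fun m => (b.coord i (e (Sum.inr m))) ^ 2) (η ^ 2)
      (fun m hm => by
        have h3 : η ≤ |b.coord i (e (Sum.inr m))| := hG hm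
        rw [← sq_abs (b.coord i (e (Sum.inr m)))]
        exact pow_le_pow_left₀ hη.le h3 2)
    rwa [hGc, nsmul_eq_mul] at this
  rw [div_lt_iff₀ (by positivity)] at hr
  linarith

theorem rs3_small (hA : Amb row nr e) (hb : MB b K) (F : Finset I) (a : ℕ) :
    ∃ m : ℕ, a ≤ m ∧ ∑ i ∈ F, |b.coord i (e (Sum.inr m))| ≤ 1 / 4 := by
  classical
  set η : ℝ := 1 / (4 * (F.card + 1)) with hη
  have hη0 : 0 < η := by positivity
  have hfin : (⋃ i ∈ F, {m : ℕ | η ≤ |b.coord i (e (Sum.inr m))|}).Finite :=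
    Set.Finite.biUnion (Finset.finite_toSet F) (fun i _ => rs3_fin hA hb i hη0)
  obtain ⟨m, hm1, hm2⟩ := ((Set.Ici_infinite a).sdiff hfin).nonempty
  refine ⟨m, hm1, ?_⟩
  have h1 : ∀ i ∈ F, |b.coord i (e (Sum.inr m))| ≤ η := by
    intro i hi
    by_contra hc
    push Not at hc
    exact hm2 (Set.mem_biUnion hi hc.le)
  have h2 := Finset.sum_le_card_nsmul F _ η h1
  rw [nsmul_eq_mul] at h2
  refine h2.trans ?_
  rw [hη, mul_one_div, div_le_div_iff₀ (by positivity) (by norm_num)]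
  linarith

theorem rest_infinite (hA : Amb row nr e) {n0 : ℕ} {J : Row → Finset I}
    (hD : RowData row e b K ε n0 J) (hM : MainEq row nr b n0 J) :
    {i : I | ∀ k : Row, n0 ≤ k.1 → i ∉ J k}.Infinite := by
  classical
  intro hF0
  obtain ⟨g, C, hg, hi, hC⟩ := hM
  have hb := hD.bd
  have hK1 := hb.one_le
  set L : (Ω →₀ ℝ) →ₗ[ℝ] W := Finsupp.linearCombination ℝ (fun ω => b (g ω)) with hL
  have hCL : ∀ x : Ω →₀ ℝ, (∀ ω, x ω ≠ 0 → n0 ≤ (row ω).1) →
      ‖L x‖ ≤ C * nr x ∧ nr x ≤ C * ‖L x‖ := by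
    intro x hx
    have := hC x hx
    rw [hL, Finsupp.linearCombination_apply]
    exact this
  have hstage : ∀ (a : ℕ), n0 ≤ a → ∀ F : Finset I, ∃ (a' : ℕ) (G : Finset I) (d : ℕ × (Ω →₀ ℝ)),
      a ≤ a' ∧ Disjoint G F ∧ (a ≤ d.1 ∧ d.1 < a' ∧ Win row d.2 a a' ∧
        L d.2 = S b (G : Set I) (e (Sum.inr d.1)) ∧
        1 / 2 ≤ ‖S b (G : Set I) (e (Sum.inr d.1))‖) := by
    intro a ha F
    have hwin : {ω | (row ω).1 < a}.Finite := by
      refine (Set.Finite.biUnion (Finset.finite_toSet (Finset.range a))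
        (fun n _ => hA.rig.fin n)).subset ?_
      intro ω hω
      exact Set.mem_biUnion (Finset.mem_coe.2 (Finset.mem_range.2 hω)) rfl
    set F' : Finset I := F ∪ (hF0.toFinset ∪ hwin.toFinset.image g) with hF'
    obtain ⟨m, hm, hsum⟩ := rs3_small hA hb F' a
    obtain ⟨G, hG, hGn⟩ := S_trunc hb ((F' : Set I)ᶜ) (e (Sum.inr m)) (η := 1 / 4) (by norm_num)
    have hGF : ∀ i ∈ G, i ∉ F' := fun i hiG => hG (Finset.mem_coe.2 hiG)
    have hpre : ∀ i : I, ∃ ω : Option Ω, i ∈ G → ∃ ω', ω = some ω' ∧ g ω' = i ∧ a ≤ (row ω').1 := by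
      intro i
      by_cases hiG : i ∈ G
      · have h1 := hGF i hiG
        rw [hF', mem_union, mem_union, not_or, not_or] at h1
        have h2 : ¬ ∀ k : Row, n0 ≤ k.1 → i ∉ J k := by
          intro hc
          exact h1.2.1 (hF0.mem_toFinset.2 hc)
        push Not at h2
        obtain ⟨k, hk, hik⟩ := h2
        obtain ⟨ω, hω1, hω2⟩ := main_surj hA hD hg hi hk hik
        refine ⟨some ω, fun _ => ⟨ω, rfl, hω2, ?_⟩⟩
        by_contra hc
        push Not at hc
        apply h1.2.2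
        exact mem_image.2 ⟨ω, hwin.mem_toFinset.2 hc, hω2⟩
      · exact ⟨none, fun h => absurd h hiG⟩
    choose w hw using hpre
    set x : Ω →₀ ℝ := ∑ i ∈ G, (match w i with
      | some ω => Finsupp.single ω (b.coord i (e (Sum.inr m)))
      | none => 0) with hx
    set a' : ℕ := max (m + 1) ((G.sup (fun i => match w i with
      | some ω => (row ω).1
      | none => 0)) + 1) with ha'
    refine ⟨a', G, (m, x), ?_, ?_, hm, ?_, ?_, ?_, ?_⟩
    · exact (hm.trans (Nat.le_succ m)).trans (le_max_left _ _)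
    · rw [Finset.disjoint_left]
      intro i hiG hiF
      exact hGF i hiG (mem_union_left _ hiF)
    · exact lt_of_lt_of_le (Nat.lt_succ_self m) (le_max_left _ _)
    · intro ω hω
      change x ω ≠ 0 at hω
      rw [hx, Finsupp.finsetSum_apply] at hω
      obtain ⟨i, hiG, hne⟩ := Finset.exists_ne_zero_of_sum_ne_zero hω
      obtain ⟨ω', h1, h2, h3⟩ := hw i hiG
      rw [h1] at hne
      simp only at hne
      rw [Finsupp.single_apply] at hne
      have hωω : ω' = ω := by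
        by_contra hc
        rw [if_neg hc] at hne
        exact hne rfl
      rw [← hωω]
      refine ⟨h3, ?_⟩
      have h4 : (fun i => match w i with
        | some ω => (row ω).1
        | none => 0) i ≤ G.sup (fun i => match w i with
        | some ω => (row ω).1
        | none => 0) := Finset.le_sup (f := fun i => match w i with
        | some ω => (row ω).1
        | none => 0) hiG
      simp only [h1] at h4
      exact lt_of_lt_of_le (Nat.lt_succ_of_le h4) (le_max_right _ _)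
    · change L x = S b (G : Set I) (e (Sum.inr m))
      rw [S_finset, hx, map_sum, _root_.sum_apply]
      refine Finset.sum_congr rfl (fun i hiG => ?_)
      obtain ⟨ω', h1, h2, h3⟩ := hw i hiG
      rw [h1, UUB.R_apply]
      simp only
      rw [hL, Finsupp.linearCombination_single, h2]
    · change 1 / 2 ≤ ‖S b (G : Set I) (e (Sum.inr m))‖
      have h1 : S b ((F' : Set I)ᶜ) (e (Sum.inr m)) =
          e (Sum.inr m) - S b (F' : Set I) (e (Sum.inr m)) := by
        rw [S_compl, sub_apply, one_apply_eq_self]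
      have h2 : ‖S b (F' : Set I) (e (Sum.inr m))‖ ≤ 1 / 4 := by
        rw [S_finset, _root_.sum_apply]
        refine (norm_sum_le _ _).trans (le_trans (le_of_eq ?_) hsum)
        refine Finset.sum_congr rfl (fun i _ => ?_)
        rw [UUB.R_apply, norm_smul, hb.nm, mul_one, Real.norm_eq_abs]
      have h3 : (1 : ℝ) - 1 / 4 ≤ ‖S b ((F' : Set I)ᶜ) (e (Sum.inr m))‖ := by
        rw [h1]
        have h4 := norm_sub_norm_le (e (Sum.inr m)) (S b (F' : Set I) (e (Sum.inr m)))
        rw [norm_e hA] at h4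
        linarith
      have h5 := norm_sub_norm_le (S b ((F' : Set I)ᶜ) (e (Sum.inr m)))
        (S b (G : Set I) (e (Sum.inr m)))
      linarith
  obtain ⟨a, G, d, ha0, hamono, hGd, hP⟩ := hump_seq (fun a a' (G : Finset I)
    (d : ℕ × (Ω →₀ ℝ)) => a ≤ d.1 ∧ d.1 < a' ∧ Win row d.2 a a' ∧ L d.2 = S b (G : Set I) (e (Sum.inr d.1)) ∧
        1 / 2 ≤ ‖S b (G : Set I) (e (Sum.inr d.1))‖) n0 hstage
  have hn0 : ∀ r, n0 ≤ a r := fun r => ha0 ▸ hamono (Nat.zero_le r)
  have hmne : ∀ r s, r ≠ s → (d r).1 ≠ (d s).1 := by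
    intro r s hrs heq
    rcases lt_or_gt_of_ne hrs with hlt | hlt
    · have h1 := (hP r).2.1
      have h2 := (hP s).1
      have h3 := hamono (Nat.succ_le_of_lt hlt)
      simp only [Nat.succ_eq_add_one] at h3
      omega
    · have h1 := (hP s).2.1
      have h2 := (hP r).1
      have h3 := hamono (Nat.succ_le_of_lt hlt)
      simp only [Nat.succ_eq_add_one] at h3
      omega
  have hxn : ∀ r ω, (d r).2 ω ≠ 0 → n0 ≤ (row ω).1 := fun r ω h =>
    (hn0 r).trans ((hP r).2.2.1 ω h).1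
  have hnr0 : ∀ x : Ω →₀ ℝ, 0 ≤ nr x := fun x => by rw [← norm_emb hA]; exact norm_nonneg _
  have hlow : ∀ r, 1 / 2 ≤ C * nr ((d r).2) := by
    intro r
    have h1 := (hCL _ (hxn r)).1
    rw [(hP r).2.2.2.1] at h1
    exact (hP r).2.2.2.2.trans h1
  have hCpos : 0 < C := by
    by_contra hc
    push Not at hc
    have h1 := hlow 0
    have h3 : C * nr (d 0).2 ≤ 0 := mul_nonpos_of_nonpos_of_nonneg hc (hnr0 _)
    linarith
  obtain ⟨D, hD0, hD1⟩ := hA.rig.noL2 (2 * C * (C * K) + 1)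
  have h1 := hD1 a (fun r => (2 * C) • (d r).2) hamono
    (fun r _ => ((hP r).2.2.1).smul _) (fun r _ => by
      rw [hA.rig.smul, abs_of_pos (by positivity)]
      have := hlow r
      linarith)
  have h2 : ∑ r ∈ range D, (2 * C) • (d r).2 = (2 * C) • ∑ r ∈ range D, (d r).2 := by
    rw [Finset.smul_sum]
  rw [h2, hA.rig.smul, abs_of_pos (by positivity)] at h1
  have h3 : nr (∑ r ∈ range D, (d r).2) ≤ C * ‖L (∑ r ∈ range D, (d r).2)‖ := by
    refine (hCL _ ?_).2
    intro ω hω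
    rw [Finsupp.finsetSum_apply] at hω
    obtain ⟨r, _, hne⟩ := Finset.exists_ne_zero_of_sum_ne_zero hω
    exact hxn r ω hne
  have h4 : L (∑ r ∈ range D, (d r).2) = ∑ r ∈ range D,
      mulOp b ((G r : Set I).indicator (fun _ => (1 : ℝ))) (e (Sum.inr (d r).1)) := by
    rw [map_sum]
    exact Finset.sum_congr rfl (fun r _ => (hP r).2.2.2.1)
  have hdisjQ : ∀ r ∈ range D, ∀ s ∈ range D, r ≠ s →
      Disjoint ({Sum.inr (d r).1} : Set (Ω ⊕ ℕ)) {Sum.inr (d s).1} := fun r _ s _ hne =>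
    Set.disjoint_singleton.2 (fun h => hmne r s hne (Sum.inr.inj h))
  have h5 := d4 hA hb (range D) (fun r => ({Sum.inr (d r).1} : Set (Ω ⊕ ℕ)))
    (fun r => (G r : Set I)) hdisjQ
    (fun r _ s _ hne => Finset.disjoint_coe.2 (hGd r s hne)) (fun _ => (1 : ℝ)) (fun _ => by simp)
    (fun r => e (Sum.inr (d r).1)) (fun r _ => S_basis_mem _ (Set.mem_singleton _))
  rw [← h4] at h5
  have h6 := l2_W hA (range D) (fun r => ({Sum.inr (d r).1} : Set (Ω ⊕ ℕ)))
    (fun r => e (Sum.inr (d r).1)) (fun r _ => Set.finite_singleton _) hdisjQ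
    (fun r _ => by
      rintro _ rfl
      exact ⟨(d r).1, rfl⟩)
    (fun r _ => S_basis_mem _ (Set.mem_singleton _))
  have h7 : ∑ r ∈ range D, ‖e (Sum.inr (d r).1)‖ ^ 2 = D := by
    rw [Finset.sum_congr rfl (fun r _ => by rw [norm_e hA, one_pow])]
    simp
  rw [h7] at h6
  have h8 : ‖∑ r ∈ range D, e (Sum.inr (d r).1)‖ = Real.sqrt D := by
    rw [← h6, Real.sqrt_sq (norm_nonneg _)]
  rw [h8] at h5
  have hsD : 0 < Real.sqrt D := Real.sqrt_pos.2 (by exact_mod_cast hD0)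
  have h9 : nr (∑ r ∈ range D, (d r).2) ≤ C * (K * Real.sqrt D) :=
    h3.trans (mul_le_mul_of_nonneg_left h5 hCpos.le)
  have h10 : 2 * C * nr (∑ r ∈ range D, (d r).2) ≤ 2 * C * (C * (K * Real.sqrt D)) :=
    mul_le_mul_of_nonneg_left h9 (by positivity)
  nlinarith

end Pool.Agent.UBN
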