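import Pool.Agent.UBN.Hb
import Pool.Agent.UBN.Defs2

/-!
# The special sequence is rapidly increasing
-/

namespace Pool.Agent.UBN

open Finset

variable {Ω : Type} {row : Ω → Row} {N : ℕ → (Ω →₀ ℝ) → ℝ}

/-- a combination lives on the windows of its members -/
private theorem SeqR_win {a : ℕ → ℕ} (ha : Monotone a) {x : ℕ → Ω →₀ ℝ}
    (hx : ∀ l, Win row (x l) (a l) (a (l + 1))) (t : ℕ → ℝ) (l0 l1 : ℕ) :
    Win row (cmb x t l0 l1) (a l0) (a l1) := by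
  intro ω hω
  unfold cmb at hω
  rw [Finsupp.finset_sum_apply] at hω
  obtain ⟨l, hl, hne⟩ := Finset.exists_ne_zero_of_sum_ne_zero hω
  rw [Finset.mem_Ico] at hl
  have h1 : x l ω ≠ 0 := by
    intro h0
    apply hne
    rw [Finsupp.smul_apply, h0, smul_zero]
  obtain ⟨h2, h3⟩ := hx l ω h1
  exact ⟨(ha hl.1).trans h2, lt_of_lt_of_le h3 (ha (by omega))⟩

/-- The vectors of the special sequence form a RIS with constant `20` and the coded indices.
`mono_Q`: `sig_lt`.  `r3`: by `size_le` and `e1`,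
`|φ (X i)| ≤ a (L (i+1)) * 20 / mm q ≤ 20 / 2 ^ (i+1)` for `q ≥ sig q0 (hist (i+1))`, as
`mm q ≥ 2 ^ q ≥ q ≥ 2 ^ (i + 3) * (a (L (i+1)) + 1)` by `sig_cut`, `length_hist`. -/
theorem special_ris (hN : Inner row N) {a : ℕ → ℕ} {x y : ℕ → Ω →₀ ℝ} {K : ℝ}
    (h : Pair row N a x y K) {q0 : ℕ} {L : ℕ → ℕ} (hL : StrictMono L) {t : ℕ → ℝ}
    {η : ℕ → (Ω →₀ ℝ) →ₗ[ℝ] ℝ}
    (hE : Spec row N a x y K q0 L t η) :
    RIS row N (fun i => a (L i)) (fun i => cmb x t (L i) (L (i + 1))) 20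
      (fun i => sig q0 (hist (fun j => a (L j)) (fun j => rowsY row y (L j) (L (j + 1))) i)) := by
  refine ⟨h.mono.comp hL.monotone, fun i => SeqR_win h.mono h.winx t _ _, by norm_num,
    monotone_nat_of_le_succ fun i => (sig_lt q0 _ _).le, fun i => (hE i).e1, fun i => (hE i).e2,
    fun i q φ hφ hq => ?_⟩
  have hq0 : 0 < q := lt_of_lt_of_le (lt_of_lt_of_le (by norm_num) (two_le_sig q0 _)) hq
  have h1 := size_le hN hq0 hφ (SeqR_win h.mono h.winx t (L i) (L (i + 1)))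
  have h2 : nrm row N (cmb x t (L i) (L (i + 1))) ≤ 20 := nrm_le hN (hE i).e1
  have h2' := nrm_nonneg hN (cmb x t (L i) (L (i + 1)))
  have h3 : 2 ^ (i + 3) * (a (L (i + 1)) + 1) ≤ q := by
    have h4 := sig_cut q0 (rowsY row y (L i) (L (i + 1)), a (L (i + 1)))
      (hist (fun j => a (L j)) (fun j => rowsY row y (L j) (L (j + 1))) i)
    rw [length_hist] at h4
    exact h4.trans hq
  have h4 : q ≤ mm q := (Nat.lt_two_pow_self).le.trans (two_pow_le_mm q)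
  have h5 : (2 : ℝ) ^ (i + 3) * (a (L (i + 1)) + 1) ≤ mm q := by
    exact_mod_cast h3.trans h4
  have hm : (0 : ℝ) < mm q := by
    have : (0 : ℝ) < (2 : ℝ) ^ (i + 3) * (a (L (i + 1)) + 1) := by positivity
    linarith
  refine h1.trans ?_
  rw [div_le_div_iff₀ hm (by positivity)]
  have hb : (0 : ℝ) ≤ a (L (i + 1)) := Nat.cast_nonneg _
  have ha : (0 : ℝ) ≤ a (L i) := Nat.cast_nonneg _
  have h6 : ((a (L (i + 1)) : ℝ) - a (L i)) * nrm row N (cmb x t (L i) (L (i + 1))) ≤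
      a (L (i + 1)) * 20 := by
    calc ((a (L (i + 1)) : ℝ) - a (L i)) * nrm row N (cmb x t (L i) (L (i + 1)))
        ≤ a (L (i + 1)) * nrm row N (cmb x t (L i) (L (i + 1))) :=
          mul_le_mul_of_nonneg_right (by linarith) h2'
      _ ≤ a (L (i + 1)) * 20 := mul_le_mul_of_nonneg_left h2 hb
  have h7 : (2 : ℝ) ^ (i + 3) = 4 * 2 ^ (i + 1) := by ring
  rw [h7] at h5
  have h8 : (0 : ℝ) < 2 ^ (i + 1) := by positivity
  calc ((a (L (i + 1)) : ℝ) - a (L i)) * nrm row N (cmb x t (L i) (L (i + 1))) * 2 ^ (i + 1)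
      ≤ a (L (i + 1)) * 20 * 2 ^ (i + 1) := mul_le_mul_of_nonneg_right h6 h8.le
    _ ≤ 20 * (4 * 2 ^ (i + 1) * (a (L (i + 1)) + 1)) := by nlinarith [mul_nonneg hb h8.le]
    _ ≤ 20 * mm q := by linarith

end Pool.Agent.UBN
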