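import Pool.Agent.UBN.Op
import Pool.Agent.UBN.Li
import Pool.Agent.UBN.Bn
import Pool.Agent.UBN.Wv

/-!
# Visibility of the catalyst labels

Both statements are `lemI` for the rows `F.image rowB`, `u` = the vector of `Om →₀ ℝ` belonging to
`∑ ω ∈ F, u ω ∈ W` (`exists_emb`, `norm_emb`, `nrB_window`), `C1 = K`; the hypothesis `h` of `lemI` is `opb` for
the subsets of `F` and monotonicity.
* `star1`: for `ω ∈ F` let `θ ω`, `u0 ω` be the witnesses of `Bad`; `u ω = r (row ω) • u0 ω`,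
  `β = η * r` (`|e.coord ω (mulOp b (θ ω) (u ω))| ≥ η r`), `‖u ω‖ ≤ r`.
* `star2`: `u ω = x (row ω)` minus its coordinate at `ω`; `θ ω` = indicator of `{i ω}`.  From
  `b.coord (i ω) (x (row ω)) = 0`: with `p = e.coord ω (b (i ω))`, `q = b.coord (i ω) (e ω)`, `c = e.coord ω (x (row ω))`:
  `p q c = - e.coord ω (S b {i ω} (u ω))`, so `β := |e.coord ω (S b {i ω} (u ω))| ≥ |c| / 2`.
-/

namespace Pool.Agent.UBN

open Pool.Agent.UUB Finset

variable {I : Type} {W : Type} [NormedAddCommGroup W] [NormedSpace ℝ W] [CompleteSpace W]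
  {e : UnconditionalSchauderBasis (EB ⊕ ℕ) ℝ W}
  {b : UnconditionalSchauderBasis I ℝ W} {K ε η : ℝ}

theorem st_ev_self (ω : Om) : ev (rowO ω) (fb ω) = Finsupp.single ω 1 := by
  unfold ev
  rw [dif_pos (show (rowO ω).2 < rowsN (rowO ω).1 ∧ fb ω < Rn (rowO ω).1 + 2 from ω.2)]
  rfl

theorem st_eq {ω ω' : EB} (h1 : rowB EB ω = rowB EB ω') (h2 : fb ω.1 = fb ω'.1) : ω = ω' := by
  apply Subtype.ext
  apply Subtype.ext
  have h3 : (rowO ω.1).1 = (rowO ω'.1).1 := congrArg Prod.fst h1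
  have h4 : (rowO ω.1).2 = (rowO ω'.1).2 := congrArg Prod.snd h1
  exact Prod.ext h3 (Prod.ext h4 h2)

/-- The common part of `star1` and `star2`. -/
theorem st_core (hA : Amb (rowB EB) (nrB EB) e) {n0 : ℕ} {J : Row → Finset I}
    (hD : RowData (rowB EB) e b K ε n0 J) {n s : ℕ} (hn : n0 ≤ n) (F : Finset EB)
    (hF : ∀ ω ∈ F, (rowB EB ω).1 = n ∧ fb ω.1 = s) (hc : F.card ≤ Nl n (2 * s))
    (θ : EB → I → ℝ) (hθ : ∀ ω i, |θ ω i| ≤ 1) (hs : ∀ ω i, i ∉ J (rowB EB ω) → θ ω i = 0)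
    (v : EB → W) (hv : ∀ ω ∈ F, S e (rowS (rowB EB) (rowB EB ω)) (v ω) = v ω)
    (hv0 : ∀ ω ∈ F, e.coord (Sum.inl ω) (v ω) = 0) (ρ : Row → ℝ)
    (hρ : ∀ ω ∈ F, ‖v ω‖ ≤ |ρ (rowB EB ω)|) :
    ((Dn n : ℝ) / Ml n (2 * s)) *
      ∑ ω ∈ F, |e.coord (Sum.inl ω) (mulOp b (θ ω) (v ω))| ≤
      2 * K * Gn n (F.image (rowB EB)) ρ := by
  classical
  have hK1 := hD.bd.one_le
  have hK : 0 ≤ K := zero_le_one.trans hK1
  rcases F.eq_empty_or_nonempty with h0 | ⟨ω0, hω0⟩
  · subst h0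
    rw [Finset.sum_empty, mul_zero]
    exact mul_nonneg (by positivity) (Gn_nonneg _ _ _)
  have hs1 : 1 ≤ s := by rw [← (hF ω0 hω0).2]; exact ω0.2.1
  have hs2 : s ≤ Rn n := by
    rw [← (hF ω0 hω0).2, ← (hF ω0 hω0).1]
    exact ω0.2.2
  have hinj : ∀ ω ∈ F, ∀ ω' ∈ F, rowB EB ω = rowB EB ω' → ω = ω' := fun ω h ω' h' hr =>
    st_eq hr ((hF ω h).2.trans (hF ω' h').2.symm)
  set a : EB → ℝ := fun ω => |e.coord (Sum.inl ω) (mulOp b (θ ω) (v ω))| with ha
  have hex : ∀ ω : EB, ∃ x : EB →₀ ℝ, ω ∈ F → emb e x = v ω ∧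
      ∀ ω', x ω' ≠ 0 → rowB EB ω' = rowB EB ω := by
    intro ω
    by_cases h : ω ∈ F
    · obtain ⟨x, hx⟩ := wv_row hA (rowB EB ω) (hv ω h)
      exact ⟨x, fun _ => hx⟩
    · exact ⟨0, fun h' => absurd h' h⟩
  choose x hx using hex
  set β : Row → ℝ := fun k => ∑ ω ∈ F.filter (fun ω => rowB EB ω = k), a ω with hβ
  have hβ' : ∀ ω ∈ F, β (rowB EB ω) = a ω := by
    intro ω hω
    have h1 : F.filter (fun ω' => rowB EB ω' = rowB EB ω) = {ω} := by
      ext ω'
      rw [mem_filter, mem_singleton]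
      constructor
      · rintro ⟨h2, h3⟩
        exact hinj ω' h2 ω hω h3
      · rintro rfl
        exact ⟨hω, rfl⟩
    rw [hβ]
    simp only
    rw [h1, Finset.sum_singleton]
  set u : Om →₀ ℝ := (∑ ω ∈ F, x ω).mapDomain Subtype.val with hu
  -- restriction of the vector to some of the rows
  have hres : ∀ F' : Finset Row, F' ⊆ F.image (rowB EB) →
      rres rowO (F' : Set Row) u =
        (∑ ω ∈ F.filter (fun ω => rowB EB ω ∈ F'), x ω).mapDomain Subtype.val := by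
    intro F' _
    rw [hu, rres_mapDomain]
    congr 1
    rw [map_sum, Finset.sum_filter]
    refine Finset.sum_congr rfl (fun ω hω => ?_)
    split_ifs with h1
    · refine rres_eq_self (fun ω' h2 => ?_)
      rw [(hx ω hω).2 ω' h2]
      exact h1
    · refine rres_eq_zero (fun ω' h2 h3 => h1 ?_)
      rw [(hx ω hω).2 ω' h2] at h3
      exact h3
  have hwinx : ∀ (F'' : Finset EB), F'' ⊆ F → ∀ ω, (∑ ω ∈ F'', x ω) ω ≠ 0 →
      (rowB EB ω).1 = n := by
    intro F'' hF'' ω hω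
    rw [Finsupp.finsetSum_apply] at hω
    obtain ⟨ω', h1, h2⟩ := Finset.exists_ne_zero_of_sum_ne_zero hω
    rw [(hx ω' (hF'' h1)).2 ω h2]
    exact (hF ω' (hF'' h1)).1
  have hmain := lemI (n := n) (s := s) hs1 hs2 (F := F.image (rowB EB)) (by
      intro k hk
      obtain ⟨ω, hω, rfl⟩ := mem_image.1 hk
      refine ⟨(hF ω hω).1, ?_⟩
      rw [← (hF ω hω).1]
      exact ω.1.2.1) (card_image_le.trans hc) u (by
      intro ω hω
      have h1 : ω ∈ EB := by
        by_contra hc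
        exact hω (mapDomain_val_notMem _ hc)
      have h2 : (∑ ω ∈ F, x ω) ⟨ω, h1⟩ ≠ 0 := by
        rw [← mapDomain_val_apply]
        exact hω
      rw [Finsupp.finsetSum_apply] at h2
      obtain ⟨ω', h3, h4⟩ := Finset.exists_ne_zero_of_sum_ne_zero h2
      have h5 := (hx ω' h3).2 _ h4
      refine ⟨mem_image.2 ⟨ω', h3, h5.symm⟩, fun h6 => h4 ?_⟩
      have h7 : (⟨ω, h1⟩ : EB) = ω' := st_eq h5 (h6.trans (hF ω' h3).2.symm)
      rw [h7, ← coord_emb_inl (e := e), (hx ω' h3).1]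
      exact hv0 ω' h3) β (fun k => Finset.sum_nonneg (fun _ _ => abs_nonneg _)) (C1 := K) hK (by
      intro F' hF'
      set F'' := F.filter (fun ω => rowB EB ω ∈ F') with hF''
      have hF''F : F'' ⊆ F := filter_subset _ _
      rw [hres F' hF']
      have h1 : ∑ k ∈ F', β k • ev k s =
          (∑ ω ∈ F'', Finsupp.single ω (a ω) : EB →₀ ℝ).mapDomain Subtype.val := by
        rw [Finsupp.mapDomain_finsetSum]
        have h2 : F' = F''.image (rowB EB) := by
          ext k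
          rw [mem_image]
          constructor
          · intro hk
            obtain ⟨ω, hω, rfl⟩ := mem_image.1 (hF' hk)
            exact ⟨ω, mem_filter.2 ⟨hω, hk⟩, rfl⟩
          · rintro ⟨ω, hω, rfl⟩
            exact (mem_filter.1 hω).2
        rw [h2, Finset.sum_image (fun ω h ω' h' hr => hinj ω (hF''F h) ω' (hF''F h') hr)]
        refine Finset.sum_congr rfl (fun ω hω => ?_)
        rw [hβ' ω (hF''F hω), Finsupp.mapDomain_single]
        have h3 : ev (rowB EB ω) s = Finsupp.single ω.1 1 := by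
          rw [← (hF ω (hF''F hω)).2]
          exact st_ev_self ω.1
        rw [h3, Finsupp.smul_single, smul_eq_mul, mul_one]
      rw [h1, ← nrB_window (fun ω hω => ?_), ← nrB_window (hwinx F'' hF''F)]
      · rw [← norm_emb hA, ← norm_emb hA]
        have h4 : emb e (∑ ω ∈ F'', x ω) = ∑ ω ∈ F'', v ω := by
          rw [map_sum]
          exact Finset.sum_congr rfl (fun ω hω => (hx ω (hF''F hω)).1)
        rw [h4]
        have h5 := opb hA hD F'' (fun ω hω => by rw [(hF ω (hF''F hω)).1]; exact hn)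
          (fun ω h ω' h' hr => hinj ω (hF''F h) ω' (hF''F h') hr) θ hθ hs v
          (fun ω hω => hv ω (hF''F hω))
        refine le_trans ?_ h5
        have h6 : ∑ ω ∈ F'', e.coord (Sum.inl ω) (mulOp b (θ ω) (v ω)) • e (Sum.inl ω) =
            emb e (∑ ω ∈ F'', Finsupp.single ω (e.coord (Sum.inl ω) (mulOp b (θ ω) (v ω)))) := by
          rw [map_sum]
          refine Finset.sum_congr rfl (fun ω _ => ?_)
          unfold emb
          rw [Finsupp.linearCombination_single]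
        rw [h6, norm_emb hA, norm_emb hA]
        refine hA.rig.mono _ _ (fun ω => ?_)
        rw [Finsupp.finsetSum_apply, Finsupp.finsetSum_apply]
        by_cases hω : ω ∈ F''
        · rw [Finset.sum_eq_single_of_mem ω hω (fun ω' _ hne => by
              rw [Finsupp.single_apply, if_neg hne]),
            Finset.sum_eq_single_of_mem ω hω (fun ω' _ hne => by
              rw [Finsupp.single_apply, if_neg hne]), Finsupp.single_eq_same,
            Finsupp.single_eq_same, ha]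
          simp only
          rw [abs_abs]
        · rw [Finset.sum_eq_zero (fun ω' hω' => by
              rw [Finsupp.single_apply, if_neg (show ¬ ω' = ω from fun h => hω (by rw [← h]; exact hω'))]),
            Finset.sum_eq_zero (fun ω' hω' => by
              rw [Finsupp.single_apply, if_neg (show ¬ ω' = ω from fun h => hω (by rw [← h]; exact hω'))])]
      · rw [Finsupp.finsetSum_apply] at hω
        obtain ⟨ω', h1, h2⟩ := Finset.exists_ne_zero_of_sum_ne_zero hω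
        rw [Finsupp.single_apply] at h2
        have h3 : ω' = ω := by
          by_contra hne
          rw [if_neg hne] at h2
          exact h2 rfl
        rw [← h3]
        exact (hF ω' (hF''F h1)).1)
  have hsumβ : ∑ k ∈ F.image (rowB EB), β k = ∑ ω ∈ F, a ω := by
    rw [Finset.sum_image (fun ω h ω' h' hr => hinj ω h ω' h' hr)]
    exact Finset.sum_congr rfl hβ'
  rw [hsumβ] at hmain
  refine hmain.trans (mul_le_mul_of_nonneg_left ?_ (by positivity))
  refine Gn_mono n Subset.rfl (fun k hk => ?_)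
  obtain ⟨ω, hω, rfl⟩ := mem_image.1 hk
  have h1 : rres rowO {rowB EB ω} u = (x ω).mapDomain Subtype.val := by
    have h2 := hres {rowB EB ω} (singleton_subset_iff.2 hk)
    rw [Finset.coe_singleton] at h2
    rw [h2]
    congr 1
    have h3 : F.filter (fun ω' => rowB EB ω' ∈ ({rowB EB ω} : Finset Row)) = {ω} := by
      ext ω'
      rw [mem_filter, mem_singleton, mem_singleton]
      constructor
      · rintro ⟨h4, h5⟩
        exact hinj ω' h4 ω hω h5
      · rintro rfl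
        exact ⟨hω, rfl⟩
    rw [h3, Finset.sum_singleton]
  rw [h1, l2_mapDomain, ← hA.rig.single (rowB EB ω) (x ω) (hx ω hω).2, ← norm_emb hA,
    (hx ω hω).1, abs_of_nonneg (norm_nonneg _)]
  exact hρ ω hω

theorem star1 (hA : Amb (rowB EB) (nrB EB) e) {n0 : ℕ} {J : Row → Finset I}
    (hD : RowData (rowB EB) e b K ε n0 J) (hη : 0 < η) {n s : ℕ} (hn : n0 ≤ n) (F : Finset EB)
    (hF : ∀ ω ∈ F, (rowB EB ω).1 = n ∧ fb ω.1 = s ∧ Bad (rowB EB) e b J η ω)
    (hc : F.card ≤ Nl n (2 * s)) (r : Row → ℝ) (hr : ∀ k, 0 ≤ r k) :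
    ((Dn n : ℝ) / Ml n (2 * s)) * ∑ ω ∈ F, r (rowB EB ω) ≤
      2 * K / η * Gn n (F.image (rowB EB)) r := by
  classical
  have hex : ∀ ω : EB, ∃ (θ : I → ℝ) (u : W), (∀ i, |θ i| ≤ 1) ∧
      (∀ i, i ∉ J (rowB EB ω) → θ i = 0) ∧ (ω ∈ F →
        S e (rowS (rowB EB) (rowB EB ω)) u = u ∧ e.coord (Sum.inl ω) u = 0 ∧ ‖u‖ ≤ 1 ∧
        η < |e.coord (Sum.inl ω) (mulOp b θ u)|) := by
    intro ω
    by_cases h : ω ∈ F
    · obtain ⟨θ, u, h1, h2, h3, h4, h5, h6⟩ := (hF ω h).2.2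
      exact ⟨θ, u, h1, h2, fun _ => ⟨h3, h4, h5, h6⟩⟩
    · exact ⟨fun _ => 0, 0, fun _ => by simp, fun _ _ => rfl, fun h' => absurd h' h⟩
  choose θ u0 h1 h2 h3 using hex
  have h4 := st_core hA hD hn F (fun ω hω => ⟨(hF ω hω).1, (hF ω hω).2.1⟩) hc θ h1 h2
    (fun ω => r (rowB EB ω) • u0 ω) (fun ω hω => by
      rw [map_smul, (h3 ω hω).1]) (fun ω hω => by
      rw [map_smul, (h3 ω hω).2.1, smul_zero]) r (fun ω hω => by
      rw [norm_smul, Real.norm_eq_abs]
      exact mul_le_of_le_one_right (abs_nonneg _) (h3 ω hω).2.2.1)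
  have h5 : η * ∑ ω ∈ F, r (rowB EB ω) ≤
      ∑ ω ∈ F, |e.coord (Sum.inl ω) (mulOp b (θ ω) (r (rowB EB ω) • u0 ω))| := by
    rw [Finset.mul_sum]
    refine Finset.sum_le_sum (fun ω hω => ?_)
    rw [map_smul, map_smul, smul_eq_mul, abs_mul, abs_of_nonneg (hr _), mul_comm η]
    exact mul_le_mul_of_nonneg_left (h3 ω hω).2.2.2.le (hr _)
  have hq : (0 : ℝ) ≤ (Dn n : ℝ) / Ml n (2 * s) := by positivity
  have h6 := (mul_le_mul_of_nonneg_left h5 hq).trans h4
  have h7 : 2 * K / η * Gn n (F.image (rowB EB)) r =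
      (2 * K * Gn n (F.image (rowB EB)) r) / η := by
    field_simp
  rw [h7, le_div_iff₀ hη]
  calc _ = (Dn n : ℝ) / Ml n (2 * s) * (η * ∑ ω ∈ F, r (rowB EB ω)) := by ring
    _ ≤ _ := h6

theorem star2 (hA : Amb (rowB EB) (nrB EB) e) {n0 : ℕ} {J : Row → Finset I}
    (hD : RowData (rowB EB) e b K ε n0 J) {n s : ℕ} (hn : n0 ≤ n) (F : Finset EB)
    (hF : ∀ ω ∈ F, (rowB EB ω).1 = n ∧ fb ω.1 = s) (hc : F.card ≤ Nl n (2 * s)) (i : EB → I)
    (hi : ∀ ω ∈ F, i ω ∈ J (rowB EB ω) ∧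
      1 / 2 ≤ |b.coord (i ω) (e (Sum.inl ω)) * e.coord (Sum.inl ω) (b (i ω))|)
    (x : Row → W) (hx : ∀ ω ∈ F, S e (rowS (rowB EB) (rowB EB ω)) (x (rowB EB ω)) = x (rowB EB ω))
    (hx0 : ∀ ω ∈ F, b.coord (i ω) (x (rowB EB ω)) = 0) :
    ((Dn n : ℝ) / Ml n (2 * s)) * ∑ ω ∈ F, |e.coord (Sum.inl ω) (x (rowB EB ω))| ≤
      4 * K * Gn n (F.image (rowB EB)) (fun k => ‖x k‖) := by
  classical
  set c : EB → ℝ := fun ω => e.coord (Sum.inl ω) (x (rowB EB ω)) with hcdef
  have hone : ∀ ω : EB, e.coord (Sum.inl ω) (e (Sum.inl ω)) = 1 := by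
    intro ω
    rw [e.ortho]
    simp
  set θ : EB → I → ℝ := fun ω => if i ω ∈ J (rowB EB ω) then
    (({i ω} : Set I).indicator fun _ => (1 : ℝ)) else fun _ => 0 with hθ
  set v : EB → W := fun ω => x (rowB EB ω) - c ω • e (Sum.inl ω) with hv
  have hmem : ∀ ω : EB, Sum.inl ω ∈ rowS (rowB EB) (rowB EB ω) := fun ω => ⟨ω, rfl, rfl⟩
  have hnv : ∀ ω, v ω = S e ({Sum.inl ω}ᶜ : Set (EB ⊕ ℕ)) (x (rowB EB ω)) := by
    intro ω
    rw [S_compl, sub_apply, one_apply_eq_self]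
    have h1 : S e ({Sum.inl ω} : Set (EB ⊕ ℕ)) (x (rowB EB ω)) = c ω • e (Sum.inl ω) :=
      dg_S_single (b := e) (Sum.inl ω) (x (rowB EB ω))
    rw [h1]
  have h4 := st_core hA hD hn F hF hc θ (fun ω j => by
      rw [hθ]
      simp only
      split_ifs with h
      · rw [Set.indicator_apply]
        split_ifs <;> simp
      · simp) (fun ω j hj => by
      rw [hθ]
      simp only
      split_ifs with h
      · rw [Set.indicator_of_notMem]
        intro h2
        rw [Set.mem_singleton_iff] at h2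
        exact hj (h2 ▸ h)
      · rfl) v (fun ω hω => by
      rw [hv]
      simp only
      rw [map_sub, map_smul, hx ω hω, S_basis_mem _ (hmem ω)]) (fun ω hω => by
      rw [hnv]
      exact coord_S_notMem _ (by simp) _) (fun k => ‖x k‖) (fun ω hω => by
      rw [abs_of_nonneg (norm_nonneg _), hnv]
      calc _ ≤ ‖S e ({Sum.inl ω}ᶜ : Set (EB ⊕ ℕ))‖ * ‖x (rowB EB ω)‖ :=
            ContinuousLinearMap.le_opNorm _ _
        _ ≤ 1 * ‖x (rowB EB ω)‖ := mul_le_mul_of_nonneg_right (norm_S_e hA _) (norm_nonneg _)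
        _ = _ := one_mul _)
  have h5 : (1 / 2) * ∑ ω ∈ F, |c ω| ≤
      ∑ ω ∈ F, |e.coord (Sum.inl ω) (mulOp b (θ ω) (v ω))| := by
    rw [Finset.mul_sum]
    refine Finset.sum_le_sum (fun ω hω => ?_)
    have h6 : mulOp b (θ ω) (v ω) = b.coord (i ω) (v ω) • b (i ω) := by
      have h7 : θ ω = (({i ω} : Set I).indicator fun _ => (1 : ℝ)) := by
        rw [hθ]
        simp only
        rw [if_pos (hi ω hω).1]
      rw [h7]
      exact dg_S_single (b := b) (i ω) (v ω)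
    have h8 : b.coord (i ω) (v ω) = -(c ω * b.coord (i ω) (e (Sum.inl ω))) := by
      rw [hv]
      simp only
      rw [map_sub, map_smul, hx0 ω hω, zero_sub, smul_eq_mul]
    rw [h6, h8, map_smul, smul_eq_mul]
    have h9 : -(c ω * b.coord (i ω) (e (Sum.inl ω))) * e.coord (Sum.inl ω) (b (i ω)) =
        -(c ω * (b.coord (i ω) (e (Sum.inl ω)) * e.coord (Sum.inl ω) (b (i ω)))) := by ring
    rw [h9, abs_neg, abs_mul, mul_comm (1 / 2 : ℝ)]
    exact mul_le_mul_of_nonneg_left (hi ω hω).2 (abs_nonneg _)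
  have hq : (0 : ℝ) ≤ (Dn n : ℝ) / Ml n (2 * s) := by positivity
  have h6 := (mul_le_mul_of_nonneg_left h5 hq).trans h4
  calc _ = 2 * ((Dn n : ℝ) / Ml n (2 * s) * ((1 / 2) * ∑ ω ∈ F, |c ω|)) := by ring
    _ ≤ 2 * (2 * K * Gn n (F.image (rowB EB)) (fun k => ‖x k‖)) := by linarith
    _ = _ := by ring

end Pool.Agent.UBN
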