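import Pool.Agent.UBN.A0
import Pool.Agent.UBN.B0

/-!
# Tails

* `tail_e`: `tendsto_S_compl e w`: for a finite set `F` of coordinates `‖S e Fᶜ w‖ ≤ η`; take `m0` larger than
  the windows of `F`; `‖S e B w‖ ≤ ‖S e Fᶜ w‖` for `B ⊆ Fᶜ` (`S_mul_S`, `norm_S_e`).
* `tail_row`: `rowS row k ⊆ {s | k.1 ≤ wn row s}`.
* `tail_A`: choose a finite `F` with `‖S b A z‖ ≤ η/2` for `A` disjoint from `F` (`small_tail`); `S_split`:
  `‖S e (rowS row k) (S b A z)‖ ≤ η/2 + ∑ i ∈ F, |b.coord i z| * ‖S e (rowS row k) (b i)‖`, and `tail_row`.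
* `tail_win`: `S e (winS row 0 m)` is a finite sum of the rank one projections `R e s`.
-/

namespace Pool.Agent.UBN

open Pool.Agent.UUB Finset

variable {Ω I : Type} {W : Type} [NormedAddCommGroup W] [NormedSpace ℝ W] [CompleteSpace W]
  {row : Ω → Row} {nr : (Ω →₀ ℝ) → ℝ} {e : UnconditionalSchauderBasis (Ω ⊕ ℕ) ℝ W}
  {b : UnconditionalSchauderBasis I ℝ W} {K : ℝ}

/-- Smaller sets of coordinates give smaller projections. -/
theorem norm_S_sub (hA : Amb row nr e) {A B : Set (Ω ⊕ ℕ)} (h : A ⊆ B) (w : W) :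
    ‖S e A w‖ ≤ ‖S e B w‖ := by
  have h1 : S e A * S e B = S e A := by
    rw [S_mul_S, Set.inter_eq_left.2 h]
  have h2 : S e A w = S e A (S e B w) := by
    rw [← mul_apply_eq_comp, h1]
  rw [h2]
  calc ‖S e A (S e B w)‖ ≤ ‖S e A‖ * ‖S e B w‖ := (S e A).le_opNorm _
    _ ≤ 1 * ‖S e B w‖ := mul_le_mul_of_nonneg_right (norm_S_e hA A) (norm_nonneg _)
    _ = ‖S e B w‖ := one_mul _

theorem tail_e (hA : Amb row nr e) (w : W) {η : ℝ} (hη : 0 < η) :
    ∃ m0 : ℕ, ∀ m, m0 ≤ m → ‖S e {s | m ≤ wn row s} w‖ ≤ η := by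
  have h1 := (tendsto_S_compl e w).norm
  rw [norm_zero] at h1
  obtain ⟨F, hF⟩ := (h1.eventually (gt_mem_nhds hη)).exists
  refine ⟨F.sup (wn row) + 1, fun m hm => (norm_S_sub hA ?_ w).trans hF.le⟩
  intro s hs hsF
  have h2 : wn row s ≤ F.sup (wn row) := Finset.le_sup (f := wn row) (Finset.mem_coe.1 hsF)
  have h3 : m ≤ wn row s := hs
  omega

theorem tail_row (hA : Amb row nr e) (w : W) {η : ℝ} (hη : 0 < η) :
    ∃ n0 : ℕ, ∀ k : Row, n0 ≤ k.1 → ‖S e (rowS row k) w‖ ≤ η := by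
  obtain ⟨m0, h⟩ := tail_e hA w hη
  refine ⟨m0, fun k hk => (norm_S_sub hA ?_ w).trans (h k.1 hk)⟩
  rintro s ⟨ω, rfl, rfl⟩
  exact le_refl (row ω).1

/-- A uniform bound over a finite set. -/
theorem unif_fin {J : Type} (F : Finset J) {p : J → ℕ → Prop} (h : ∀ j ∈ F, ∃ n0, ∀ n, n0 ≤ n → p j n) :
    ∃ n0, ∀ n, n0 ≤ n → ∀ j ∈ F, p j n := by
  classical
  induction F using Finset.induction_on with
  | empty => exact ⟨0, fun n _ j hj => absurd hj (Finset.notMem_empty j)⟩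
  | insert a F _ ih =>
    obtain ⟨n1, h1⟩ := ih (fun j hj => h j (Finset.mem_insert_of_mem hj))
    obtain ⟨n2, h2⟩ := h a (Finset.mem_insert_self _ _)
    refine ⟨max n1 n2, fun n hn j hj => ?_⟩
    rcases Finset.mem_insert.1 hj with rfl | hj
    · exact h2 n ((le_max_right _ _).trans hn)
    · exact h1 n ((le_max_left _ _).trans hn) j hj

theorem tail_A (hA : Amb row nr e) (hb : MB b K) (z : W) {η : ℝ} (hη : 0 < η) :
    ∃ n0 : ℕ, ∀ k : Row, n0 ≤ k.1 → ∀ A : Set I, ‖S e (rowS row k) (S b A z)‖ ≤ η := by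
  classical
  obtain ⟨F, hF⟩ := small_tail hb z (half_pos hη)
  set C : ℝ := ∑ i ∈ F, |b.coord i z| with hC
  have hC0 : 0 ≤ C := Finset.sum_nonneg (fun _ _ => abs_nonneg _)
  have hδ : 0 < η / (2 * (C + 1)) := by positivity
  obtain ⟨n0, hn0⟩ := unif_fin F (p := fun i n => ∀ k : Row, n = k.1 →
      ‖S e (rowS row k) (b i)‖ ≤ η / (2 * (C + 1))) (by
    intro i _
    obtain ⟨n1, h1⟩ := tail_row hA (b i) hδ
    exact ⟨n1, fun n hn k hk => h1 k (hk ▸ hn)⟩)
  refine ⟨n0, fun k hk A => ?_⟩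
  have hrow := fun i hi => hn0 k.1 hk i hi k rfl
  rw [S_split A F z, map_add]
  refine (norm_add_le _ _).trans ?_
  have h1 : ‖S e (rowS row k) (S b (A \ (F : Set I)) z)‖ ≤ η / 2 := by
    calc ‖S e (rowS row k) (S b (A \ (F : Set I)) z)‖
        ≤ ‖S e (rowS row k)‖ * ‖S b (A \ (F : Set I)) z‖ := (S e (rowS row k)).le_opNorm _
      _ ≤ 1 * (η / 2) := mul_le_mul (norm_S_e hA _) (hF _ Set.disjoint_sdiff_left)
          (norm_nonneg _) zero_le_one
      _ = η / 2 := one_mul _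
  have h2 : ‖S e (rowS row k) (∑ i ∈ F.filter (· ∈ A), b.coord i z • b i)‖ ≤ η / 2 := by
    rw [map_sum]
    calc ‖∑ i ∈ F.filter (· ∈ A), S e (rowS row k) (b.coord i z • b i)‖
        ≤ ∑ i ∈ F.filter (· ∈ A), ‖S e (rowS row k) (b.coord i z • b i)‖ := norm_sum_le _ _
      _ ≤ ∑ i ∈ F.filter (· ∈ A), |b.coord i z| * (η / (2 * (C + 1))) := by
          refine Finset.sum_le_sum (fun i hi => ?_)
          rw [map_smul, norm_smul, Real.norm_eq_abs]
          exact mul_le_mul_of_nonneg_left (hrow i (Finset.mem_filter.1 hi).1) (abs_nonneg _)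
      _ ≤ ∑ i ∈ F, |b.coord i z| * (η / (2 * (C + 1))) :=
          Finset.sum_le_sum_of_subset_of_nonneg (Finset.filter_subset _ _)
            (fun _ _ _ => mul_nonneg (abs_nonneg _) hδ.le)
      _ = C * (η / (2 * (C + 1))) := by rw [hC, Finset.sum_mul]
      _ ≤ η / 2 := by
          have h3 : 0 < C + 1 := by linarith
          rw [mul_div_assoc', div_le_div_iff₀ (by positivity) (by norm_num)]
          nlinarith
  linarith

theorem tail_win (hA : Amb row nr e) (hb : MB b K) (m : ℕ) {η : ℝ} (hη : 0 < η) :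
    ∃ n0 : ℕ, ∀ k : Row, n0 ≤ k.1 → ∀ A : Set I,
      ‖S e (rowS row k) * S b A * S e (winS row 0 m)‖ ≤ η := by
  classical
  set F := (finite_winS hA 0 m).toFinset with hF
  have hδ : 0 < η / (F.card + 1) := by positivity
  obtain ⟨n0, hn0⟩ := unif_fin F (p := fun s n => ∀ k : Row, n = k.1 → ∀ A : Set I,
      ‖S e (rowS row k) (S b A (e s))‖ ≤ η / (F.card + 1)) (by
    intro s _
    obtain ⟨n1, h1⟩ := tail_A hA hb (e s) hδ
    exact ⟨n1, fun n hn k hk A => h1 k (hk ▸ hn) A⟩)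
  refine ⟨n0, fun k hk A => ContinuousLinearMap.opNorm_le_bound _ hη.le (fun w => ?_)⟩
  have hS : S e (winS row 0 m) w = ∑ s ∈ F, e.coord s w • e s := by
    have h2 := S_finset e F
    have h3 : (F : Set (Ω ⊕ ℕ)) = winS row 0 m := by
      rw [hF, (finite_winS hA 0 m).coe_toFinset]
    rw [h3] at h2
    rw [h2, _root_.sum_apply]
    simp only [UUB.R_apply]
  rw [mul_apply_eq_comp, mul_apply_eq_comp, hS, map_sum, map_sum]
  calc ‖∑ s ∈ F, S e (rowS row k) (S b A (e.coord s w • e s))‖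
      ≤ ∑ s ∈ F, ‖S e (rowS row k) (S b A (e.coord s w • e s))‖ := norm_sum_le _ _
    _ ≤ ∑ s ∈ F, ‖w‖ * (η / (F.card + 1)) := by
        refine Finset.sum_le_sum (fun s hs => ?_)
        rw [map_smul, map_smul, norm_smul, Real.norm_eq_abs]
        exact mul_le_mul (abs_coord_e hA s w) (hn0 k.1 hk s hs k rfl A) (norm_nonneg _)
          (norm_nonneg _)
    _ = F.card * (‖w‖ * (η / (F.card + 1))) := by rw [Finset.sum_const, nsmul_eq_mul]
    _ ≤ η * ‖w‖ := by
        have h3 : (0 : ℝ) < F.card + 1 := by positivity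
        have h4 : (F.card : ℝ) * (‖w‖ * (η / (F.card + 1))) =
            (η * ‖w‖) * (F.card / (F.card + 1)) := by ring
        rw [h4]
        have h5 : (F.card : ℝ) / (F.card + 1) ≤ 1 := by
          rw [div_le_one h3]; linarith
        calc (η * ‖w‖) * (F.card / (F.card + 1)) ≤ (η * ‖w‖) * 1 :=
              mul_le_mul_of_nonneg_left h5 (by positivity)
          _ = η * ‖w‖ := mul_one _

end Pool.Agent.UBN
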