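import Pool.Agent.UBN.Mul

/-!
# Basic properties of the norming functionals and of the outer norm

* `N_local`, `N_nonneg`, `N_zero`: from the field `mono` (and `smul` with `c = 0`, `add_le`).
* `W_mul`: induction on `W`.  Leaf: `N n (mul t x) ≤ N n x` by `mono`.  Node: the children
  `φ i ∘ₗ mul t` belong to `W (r i)`, and `mul_rres`.
* `W_le`: induction on `W`: a leaf of the window `n` gives `|φ x| ≤ N n x`, which is a term of the sum
  if `a ≤ n < b` and is `≤ N n 0 = 0` otherwise; a node: `|φ x| ≤ (1/m) ∑ i |φ i x|`, and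
  `φ i x = φ i (rres (S i) x)`, where `rres (S i) x` lives on the windows in
  `[max a (c i), min b (c (i+1)))`; these intervals are disjoint, so (induction hypothesis, and
  `N n (rres T x) ≤ N n x`) the sum is at most `∑ n ∈ Ico a b, N n x`.  It is convenient to prove by
  induction the stronger statement with a finite set of windows
  (`∀ ω, x ω ≠ 0 → (row ω).1 ∈ J` implies `|φ x| ≤ ∑ n ∈ J, N n x`) and
  to use `J.filter (c i ≤ · < c (i+1))` for the child `i`.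
  `W_le_node` is the same with the factor `1 / m_q` for a node.
* the set in the definition of `nrm` is bounded above by `W_le` and nonempty (the zero functional is a
  leaf).
* `nrm_pos`: if `x ω ≠ 0`, use Hahn-Banach, or simply the leaf `φ z = c * z ω` with `c > 0` small:
  `|z ω| N n (single ω 1) ≤ N n z` by `mono`, so `c = N n (single ω 1)` works.
* `nrm_mono`: `exists_mul` and `W_mul`.
-/

namespace Pool.Agent.UBN

open Finset

variable {Ω : Type} {row : Ω → Row} {N : ℕ → (Ω →₀ ℝ) → ℝ}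

theorem N_zero (hN : Inner row N) (n : ℕ) : N n 0 = 0 := by
  have h := hN.smul n 0 (0 : Ω →₀ ℝ)
  rw [smul_zero, abs_zero, zero_mul] at h
  exact h

theorem N_nonneg (hN : Inner row N) (n : ℕ) (x : Ω →₀ ℝ) : 0 ≤ N n x := by
  rw [← N_zero hN n]
  refine hN.mono n 0 x (fun ω _ => ?_)
  rw [Finsupp.zero_apply, abs_zero]
  exact abs_nonneg _

theorem N_local (hN : Inner row N) (n : ℕ) {x y : Ω →₀ ℝ} (h : ∀ ω, (row ω).1 = n → x ω = y ω) :
    N n x = N n y :=
  le_antisymm (hN.mono n x y fun ω hω => by rw [h ω hω])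
    (hN.mono n y x fun ω hω => by rw [h ω hω])

theorem N_rres_le (hN : Inner row N) (n : ℕ) (T : Set Row) (x : Ω →₀ ℝ) :
    N n (rres row T x) ≤ N n x := by
  refine hN.mono n _ _ (fun ω _ => ?_)
  rw [rres_apply]
  split_ifs
  · exact le_rfl
  · rw [abs_zero]
    exact abs_nonneg _

theorem N_sum_le (hN : Inner row N) (n : ℕ) {ι : Type} (A : Finset ι) (x : ι → Ω →₀ ℝ) :
    N n (∑ i ∈ A, x i) ≤ ∑ i ∈ A, N n (x i) := by
  classical
  induction A using Finset.induction_on with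
  | empty => rw [sum_empty, sum_empty, N_zero hN]
  | insert a A ha ih =>
    rw [sum_insert ha, sum_insert ha]
    exact (hN.add_le n _ _).trans (by linarith)

theorem W_mul (hN : Inner row N) {q : ℕ} {φ : (Ω →₀ ℝ) →ₗ[ℝ] ℝ} (h : W row N q φ) (t : Ω → ℝ)
    (ht : ∀ ω, |t ω| ≤ 1) : W row N q (φ ∘ₗ mul t) := by
  induction h with
  | leaf n φ h =>
    refine W.leaf n _ (fun x => (h _).trans ?_)
    refine hN.mono n _ _ (fun ω _ => ?_)
    rw [mul_apply, abs_mul]
    exact mul_le_of_le_one_left (abs_nonneg _) (ht ω)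
  | node q d c S φ r hq hd hc hS hW hφ hsp ih =>
    have e : ((1 / (mm q : ℝ)) • ∑ i ∈ range d, φ i) ∘ₗ mul t =
        (1 / (mm q : ℝ)) • ∑ i ∈ range d, (φ i ∘ₗ mul t) := by
      ext x
      simp only [LinearMap.comp_apply, LinearMap.smul_apply, LinearMap.sum_apply]
    rw [e]
    refine W.node q d c S (fun i => φ i ∘ₗ mul t) r hq hd hc hS (fun i hi => ih i hi) ?_ hsp
    intro i hi x
    rw [LinearMap.comp_apply, LinearMap.comp_apply, hφ i hi (mul t x), mul_rres]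

theorem W_rres (hN : Inner row N) {q : ℕ} {φ : (Ω →₀ ℝ) →ₗ[ℝ] ℝ} (h : W row N q φ) (T : Set Row) :
    W row N q (φ ∘ₗ rres row T) := by
  classical
  refine W_mul hN h _ (fun ω => ?_)
  split_ifs
  · rw [abs_one]
  · rw [abs_zero]
    exact zero_le_one

private theorem wb_sum_filter (d : ℕ) (c : ℕ → ℕ) (hc : Monotone c) (J : Finset ℕ) (f : ℕ → ℝ)
    (hf : ∀ n, 0 ≤ f n) :
    ∑ i ∈ range d, ∑ n ∈ J.filter (fun n => c i ≤ n ∧ n < c (i + 1)), f n ≤ ∑ n ∈ J, f n := by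
  have h1 : ∀ i, ∑ n ∈ J.filter (fun n => c i ≤ n ∧ n < c (i + 1)), f n =
      ∑ n ∈ J, if c i ≤ n ∧ n < c (i + 1) then f n else 0 := fun i => sum_filter _ _
  simp only [h1]
  rw [sum_comm]
  refine sum_le_sum (fun n _ => ?_)
  rw [← sum_filter, sum_const, nsmul_eq_mul]
  have h2 : ((range d).filter (fun i => c i ≤ n ∧ n < c (i + 1))).card ≤ 1 := by
    rw [card_le_one]
    intro a ha b hb
    rw [mem_filter] at ha hb
    by_contra hne
    rcases Nat.lt_or_gt_of_ne hne with h | h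
    · have h3 := hc (Nat.succ_le_of_lt h)
      have h4 : c (a + 1) ≤ c b := h3
      omega
    · have h3 := hc (Nat.succ_le_of_lt h)
      have h4 : c (b + 1) ≤ c a := h3
      omega
  have h3 : (((range d).filter (fun i => c i ≤ n ∧ n < c (i + 1))).card : ℝ) ≤ 1 := by
    exact_mod_cast h2
  exact mul_le_of_le_one_left (hf n) h3

private theorem wb_mm (q : ℕ) : (1 : ℝ) ≤ (mm q : ℝ) := by
  have h : 1 ≤ mm q := Nat.one_le_two_pow
  exact_mod_cast h

private theorem wb_key (hN : Inner row N) {q : ℕ} {φ : (Ω →₀ ℝ) →ₗ[ℝ] ℝ} (h : W row N q φ) :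
    ∀ (x : Ω →₀ ℝ) (J : Finset ℕ), (∀ ω, x ω ≠ 0 → (row ω).1 ∈ J) →
      |φ x| ≤ ∑ n ∈ J, N n x ∧ (0 < q → |φ x| ≤ (1 / (mm q : ℝ)) * ∑ n ∈ J, N n x) := by
  classical
  induction h with
  | leaf n φ h =>
    intro x J hx
    refine ⟨(h x).trans ?_, fun h0 => absurd h0 (lt_irrefl 0)⟩
    by_cases hn : n ∈ J
    · exact single_le_sum (f := fun n => N n x) (fun n _ => N_nonneg hN n x) hn
    · have e : N n x = N n 0 := by
        refine N_local hN n (fun ω hω => ?_)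
        by_contra hne
        exact hn (hω ▸ hx ω hne)
      rw [e, N_zero hN]
      exact sum_nonneg fun n _ => N_nonneg hN n x
  | node q d c S φ r hq hd hc hS hW hφ hsp ih =>
    intro x J hx
    have hJ0 : 0 ≤ ∑ n ∈ J, N n x := sum_nonneg fun n _ => N_nonneg hN n x
    have hm := wb_mm q
    have hmain : |((1 / (mm q : ℝ)) • ∑ i ∈ range d, φ i) x| ≤
        (1 / (mm q : ℝ)) * ∑ n ∈ J, N n x := by
      rw [LinearMap.smul_apply, LinearMap.sum_apply, smul_eq_mul, abs_mul,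
        abs_of_nonneg (by positivity : (0 : ℝ) ≤ 1 / (mm q : ℝ))]
      refine mul_le_mul_of_nonneg_left ?_ (by positivity)
      refine (abs_sum_le_sum_abs _ _).trans ?_
      refine le_trans (sum_le_sum fun i hi => ?_)
        (wb_sum_filter d c hc J (fun n => N n x) (fun n => N_nonneg hN n x))
      rw [mem_range] at hi
      rw [hφ i hi x]
      refine (ih i hi (rres row (S i) x) (J.filter (fun n => c i ≤ n ∧ n < c (i + 1))) ?_).1.trans
        (sum_le_sum fun n _ => N_rres_le hN n _ x)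
      intro ω hω
      rw [rres_apply] at hω
      split_ifs at hω with hr
      · rw [mem_filter]
        exact ⟨hx ω hω, hS i hi _ (mem_coe.1 hr)⟩
      · exact absurd rfl hω
    refine ⟨hmain.trans ?_, fun _ => hmain⟩
    refine mul_le_of_le_one_left hJ0 ?_
    rw [div_le_one (by linarith)]
    exact hm

theorem W_le (hN : Inner row N) {q : ℕ} {φ : (Ω →₀ ℝ) →ₗ[ℝ] ℝ} (h : W row N q φ) {x : Ω →₀ ℝ}
    {J : Finset ℕ} (hx : ∀ ω, x ω ≠ 0 → (row ω).1 ∈ J) : |φ x| ≤ ∑ n ∈ J, N n x :=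
  (wb_key hN h x J hx).1

theorem W_le_node (hN : Inner row N) {q : ℕ} (hq : 0 < q) {φ : (Ω →₀ ℝ) →ₗ[ℝ] ℝ}
    (h : W row N q φ) {x : Ω →₀ ℝ} {J : Finset ℕ} (hx : ∀ ω, x ω ≠ 0 → (row ω).1 ∈ J) :
    |φ x| ≤ (1 / (mm q : ℝ)) * ∑ n ∈ J, N n x :=
  (wb_key hN h x J hx).2 hq

private theorem wb_bdd (hN : Inner row N) (x : Ω →₀ ℝ) :
    BddAbove {y : ℝ | ∃ q φ, W row N q φ ∧ y = |φ x|} := by
  classical
  refine ⟨∑ n ∈ x.support.image (fun ω => (row ω).1), N n x, ?_⟩
  rintro y ⟨q, φ, h, rfl⟩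
  refine W_le hN h (fun ω hω => ?_)
  exact mem_image.2 ⟨ω, Finsupp.mem_support_iff.2 hω, rfl⟩

private theorem wb_zero (hN : Inner row N) : W row N 0 (0 : (Ω →₀ ℝ) →ₗ[ℝ] ℝ) :=
  W.leaf 0 0 (fun x => by
    rw [LinearMap.zero_apply, abs_zero]
    exact N_nonneg hN 0 x)

theorem le_nrm (hN : Inner row N) {q : ℕ} {φ : (Ω →₀ ℝ) →ₗ[ℝ] ℝ} (h : W row N q φ) (x : Ω →₀ ℝ) :
    |φ x| ≤ nrm row N x :=
  le_csSup (wb_bdd hN x) ⟨q, φ, h, rfl⟩

theorem nrm_le (hN : Inner row N) {x : Ω →₀ ℝ} {C : ℝ}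
    (h : ∀ q φ, W row N q φ → |φ x| ≤ C) : nrm row N x ≤ C := by
  refine csSup_le ⟨_, 0, 0, wb_zero hN, rfl⟩ ?_
  rintro y ⟨q, φ, hW, rfl⟩
  exact h q φ hW

theorem nrm_nonneg (hN : Inner row N) (x : Ω →₀ ℝ) : 0 ≤ nrm row N x :=
  (abs_nonneg _).trans (le_nrm hN (wb_zero hN) x)

/-- Nearly norming functional. -/
theorem exists_near (hN : Inner row N) (x : Ω →₀ ℝ) {η : ℝ} (hη : 0 < η) :
    ∃ q φ, W row N q φ ∧ nrm row N x - η < φ x := by
  have hlt : nrm row N x - η < nrm row N x := by linarith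
  obtain ⟨y, ⟨q, φ, hW, rfl⟩, hy⟩ := exists_lt_of_lt_csSup
    (s := {y : ℝ | ∃ q φ, W row N q φ ∧ y = |φ x|}) ⟨_, 0, 0, wb_zero hN, rfl⟩ hlt
  rcases abs_cases (φ x) with ⟨h1, _⟩ | ⟨h1, _⟩
  · exact ⟨q, φ, hW, by rw [← h1]; exact hy⟩
  · refine ⟨q, φ ∘ₗ mul (fun _ => (-1 : ℝ)), W_mul hN hW _ (fun ω => by simp), ?_⟩
    rw [LinearMap.comp_apply, mul_neg_one, map_neg, ← h1]
    exact hy

theorem nrm_add_le (hN : Inner row N) (x y : Ω →₀ ℝ) :
    nrm row N (x + y) ≤ nrm row N x + nrm row N y := by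
  refine nrm_le hN (fun q φ h => ?_)
  rw [map_add]
  exact (abs_add_le _ _).trans (add_le_add (le_nrm hN h x) (le_nrm hN h y))

private theorem wb_smul_le (hN : Inner row N) (c : ℝ) (x : Ω →₀ ℝ) :
    nrm row N (c • x) ≤ |c| * nrm row N x := by
  refine nrm_le hN (fun q φ h => ?_)
  rw [map_smul, smul_eq_mul, abs_mul]
  exact mul_le_mul_of_nonneg_left (le_nrm hN h x) (abs_nonneg c)

theorem nrm_smul (hN : Inner row N) (c : ℝ) (x : Ω →₀ ℝ) :
    nrm row N (c • x) = |c| * nrm row N x := by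
  refine le_antisymm (wb_smul_le hN c x) ?_
  by_cases hc : c = 0
  · rw [hc, abs_zero, zero_mul]
    exact nrm_nonneg hN _
  · have h1 := wb_smul_le hN c⁻¹ (c • x)
    rw [smul_smul, inv_mul_cancel₀ hc, one_smul, abs_inv] at h1
    have h2 : 0 < |c| := abs_pos.2 hc
    rw [inv_mul_eq_div, le_div_iff₀ h2] at h1
    linarith

theorem nrm_mono (hN : Inner row N) {x y : Ω →₀ ℝ} (h : ∀ ω, |x ω| ≤ |y ω|) :
    nrm row N x ≤ nrm row N y := by
  obtain ⟨t, ht, rfl⟩ := exists_mul h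
  refine nrm_le hN (fun q φ hW => ?_)
  exact le_nrm hN (W_mul hN hW t ht) y

theorem nrm_pos (hN : Inner row N) {x : Ω →₀ ℝ} (h : x ≠ 0) : 0 < nrm row N x := by
  classical
  obtain ⟨ω, hω⟩ : ∃ ω, x ω ≠ 0 := by
    by_contra hc
    push Not at hc
    exact h (Finsupp.ext hc)
  have hc : 0 < N (row ω).1 (Finsupp.single ω 1) :=
    hN.pos _ _ ω rfl (by rw [Finsupp.single_eq_same]; exact one_ne_zero)
  have hW : W row N 0 (N (row ω).1 (Finsupp.single ω 1) • Finsupp.lapply ω) := by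
    refine W.leaf (row ω).1 _ (fun z => ?_)
    rw [LinearMap.smul_apply, Finsupp.lapply_apply, smul_eq_mul, abs_mul, abs_of_pos hc, mul_comm,
      ← hN.smul]
    refine hN.mono _ _ _ (fun ω' _ => ?_)
    rw [Finsupp.smul_apply, smul_eq_mul, Finsupp.single_apply]
    split_ifs with he
    · rw [he, mul_one]
    · rw [mul_zero, abs_zero]
      exact abs_nonneg _
  refine lt_of_lt_of_le ?_ (le_nrm hN hW x)
  rw [LinearMap.smul_apply, Finsupp.lapply_apply, smul_eq_mul]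
  exact abs_pos.2 (mul_ne_zero hc.ne' hω)

theorem nrm_sum_le (hN : Inner row N) {ι : Type} (A : Finset ι) (x : ι → Ω →₀ ℝ) :
    nrm row N (∑ i ∈ A, x i) ≤ ∑ i ∈ A, nrm row N (x i) := by
  classical
  induction A using Finset.induction_on with
  | empty =>
    rw [sum_empty, sum_empty]
    refine nrm_le hN (fun q φ _ => ?_)
    rw [map_zero, abs_zero]
  | insert a A ha ih =>
    rw [sum_insert ha, sum_insert ha]
    exact (nrm_add_le hN _ _).trans (by linarith)

end Pool.Agent.UBN
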