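import Pool.Agent.UBN.Crit
import Pool.Agent.UBN.SeqR
import Pool.Agent.UBN.BI

/-!
# The `x`-side

`bi` for `special_ris` with `P = q0 - 1`, `M = m²` (`m = mm q0`), `A0 = range n` (`n = nn q0`),
`s = 2 ^ (q0 + 1)`: `hH`: for `q = q0` the estimate `crit`, for `q > q0` `mm q ≥ m²` (`mm_succ`,
`mm_mono`).  With `(1/2) ^ s = 1/m²` (`two_pow_eq`) and `(3 nn P) ^ s ≤ n / m²` (`nn_succ_real`):
`|φ (∑ X)| ≤ 20 (1 + 2 n/m² + n/m²) + 20 ≤ 100 n / m²` (`n ≥ m⁴`).  So `nrm (∑ X) ≤ 100 n/m²`.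
-/

namespace Pool.Agent.UBN

open Finset

variable {Ω : Type} {row : Ω → Row} {N : ℕ → (Ω →₀ ℝ) → ℝ}

theorem x_side (hN : Inner row N) {a : ℕ → ℕ} {x y : ℕ → Ω →₀ ℝ} {K : ℝ}
    (h : Pair row N a x y K) {q0 : ℕ} (h0 : Odd q0) {L : ℕ → ℕ} (hL : StrictMono L) {t : ℕ → ℝ}
    {η : ℕ → (Ω →₀ ℝ) →ₗ[ℝ] ℝ}
    (hE : Spec row N a x y K q0 L t η) :
    nrm row N (∑ l ∈ range (nn q0), cmb x t (L l) (L (l + 1))) ≤ 100 * nn q0 / (mm q0 : ℝ) ^ 2 := by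
  refine nrm_le hN fun q φ hφ => ?_
  have hq0 : 0 < q0 := h0.pos
  have hm2 : (2 : ℝ) ≤ mm q0 := by exact_mod_cast two_le_mm q0
  have hm0 : (0 : ℝ) < mm q0 := by linarith
  have hmsq : (0 : ℝ) < (mm q0 : ℝ) ^ 2 := by positivity
  have hM : (1 : ℝ) ≤ (mm q0 : ℝ) ^ 2 := by nlinarith
  have hn : (mm q0 : ℝ) ^ 4 ≤ nn q0 := by exact_mod_cast mm4_le_nn hq0
  have hb := bi hN (special_ris hN h hL hE) (q0 - 1) hM (range (nn q0)) (by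
    intro q' hq'
    by_cases hqq : q' = q0
    · subst hqq
      right
      intro φ' hφ' A hA
      exact crit hN h h0 hL hE hφ' A hA
    · left
      have h1 : q0 + 1 ≤ q' := by omega
      have h2 := mm_mono h1
      rw [mm_succ] at h2
      exact_mod_cast h2) (2 ^ (q0 + 1)) q φ hφ (range (nn q0)) (Subset.refl _)
  have hhalf : (1 / 2 : ℝ) ^ (2 ^ (q0 + 1)) = 1 / (mm q0 : ℝ) ^ 2 := by
    rw [one_div, inv_pow, two_pow_eq, one_div]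
  have hpow : (3 * (nn (q0 - 1) : ℝ)) ^ (2 ^ (q0 + 1)) ≤ (nn q0 : ℝ) / (mm q0 : ℝ) ^ 2 := by
    have h1 := nn_succ_real (q0 - 1)
    have h2 : q0 - 1 + 2 = q0 + 1 := by omega
    have h3 : q0 - 1 + 1 = q0 := by omega
    rw [h2, h3] at h1
    rw [← h1]
    have h4 : (1 : ℝ) ≤ nn (q0 - 1) := by exact_mod_cast nn_pos (q0 - 1)
    exact pow_le_pow_right₀ (by linarith) (Nat.le_succ _)
  have herr := err_le (C := 20) (by norm_num) (range (nn q0))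
  rw [card_range, hhalf] at hb
  have hlast : (1 : ℝ) ≤ (nn q0 : ℝ) / (mm q0 : ℝ) ^ 2 := by
    rw [le_div_iff₀ hmsq]
    nlinarith
  have e1 : (nn q0 : ℝ) * (1 / (mm q0 : ℝ) ^ 2 + 1 / (mm q0 : ℝ) ^ 2) =
      2 * ((nn q0 : ℝ) / (mm q0 : ℝ) ^ 2) := by ring
  rw [e1] at hb
  have e2 : 100 * (nn q0 : ℝ) / (mm q0 : ℝ) ^ 2 = 100 * ((nn q0 : ℝ) / (mm q0 : ℝ) ^ 2) := by ring
  rw [e2]
  linarith

end Pool.Agent.UBN
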